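import Pool.Agent.Lib.MP_751085_ag.ZF.EIf
import Pool.Agent.Lib.MP_751085_ag.ZF.D.Defs
import Pool.Agent.Lib.MP_751085_ag.ZF.C.Defs
import Pool.Agent.Lib.MP_751085_ag.ZF.U.Defs

/-! Block N: what is imported and what is exported. -/

namespace Pool.Agent.ZFN

open Pool.Agent.ZCy
open scoped Classical Topology
open MvPolynomial Filter

attribute [local instance] Place.field Place.alg

/-! ### Forms and classes -/

/-- the field has a finite `p`-basis -/
def HPB (p : ℕ) (F : Type) [Field F] : Prop :=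
  ∃ (ι : Type) (_ : Fintype ι) (u : ι → F), ZFd.PB p ⊤ u

/-- the class of a form -/
noncomputable abbrev fcl {p : ℕ} {F B : Type} [Field F] [AddCommGroup B] (dl : ZFd.Qm p F →+ B) (a b : F) : B :=
  dl (ZFd.mq p (a • ZFd.dK b))

/-- What is used of the map from forms to Brauer classes. -/
structure DApi (p : ℕ) [Fact p.Prime] : Type 1 where
  dl : ∀ (E : Type) [Field E], ZFd.Qm p E →+ F.BR E
  ker : ∀ (E : Type) [Field E] [CharP E p], HPB p E → ∀ x, dl E x = 0 ↔ ∃ θ, ZFd.wp p θ = x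
  sur : ∀ (E : Type) [Field E] [CharP E p], HPB p E → ∀ a, p • a = 0 → ∃ x, dl E x = a
  div : ∀ (E : Type) [Field E] [CharP E p], HPB p E → ∀ a : F.BR E, ∃ b, p • b = a
  rs : ∀ (E E' : Type) [Field E] [Field E'] [CharP E p] [CharP E' p], HPB p E → HPB p E' →
    ∀ (φ : E →+* E') (x), F.rs φ (dl E x) = dl E' (ZFd.pbQ p φ x)
  cor : ∀ (K L : Type) [Field K] [Field L] [CharP K p] [Algebra K L] [FiniteDimensional K L]
    [Algebra.IsSeparable K L] (t : K), ZFd.PB p ⊤ (fun _ : Unit => t) → ∀ g : L,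
      F.corN K L (fcl (dl L) g (algebraMap K L t)) = fcl (dl K) (Algebra.trace K L g) t
  val : ∀ (k : Type) [Field k] [CharP k p] (X : Var k), F.EvApi X → HPB p X.F →
    ∀ (M : Type) [Field M] [Algebra k M], HPB p M → ∀ x : Fin (X.N + 1) → M, X.On x →
    ∀ (I : Type) [Fintype I] (a b : I → X.F) (a' b' : I → M),
      (∀ i, X.Reg x (a i) (a' i) ∧ X.Reg x (b i) (b' i)) →
      ∑ i, fcl (dl X.F) (a i) (b i) ∈ X.Bw →
        X.vl (∑ i, fcl (dl X.F) (a i) (b i)) M x = ∑ i, fcl (dl M) (a' i) (b' i)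
  fin : ∀ (k : Type) [Field k] [CharP k p] (F₀ : Type) [Field F₀] [Finite F₀]
    [Algebra (RatFunc F₀) k] [FiniteDimensional (RatFunc F₀) k] (X : Var k) (n : ℕ), X.Nice n →
    3 ≤ n → ∃ (m : ℕ) (e : Fin m → ZFd.Om X.F), ∀ a ∈ X.Bw, p • a = 0 →
      ∃ c : Fin m → k, dl X.F (ZFd.mq p (∑ i, algebraMap k X.F (c i) • e i)) = a

/-! ### Points over a local field -/

section pts

variable {k : Type} [Field k] (X : Var k) (K : Type) [Field K] [Algebra k K]

/-- the algebraic closure -/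
abbrev Cb (K : Type) [Field K] : Type := AlgebraicClosure K

/-- a finite family of points of `X` over finite extensions of `K`, with a radius -/
structure PFam : Type 1 where
  I : Type
  [fin : Fintype I]
  L : I → IntermediateField K (Cb K)
  x : I → Fin (X.N + 1) → Cb K
  ε : ℝ
  fd : ∀ j, FiniteDimensional K (L j)
  mem : ∀ j i, x j i ∈ L j
  on : ∀ j, X.On (x j)
  pos : 0 < ε

attribute [instance] PFam.fin

variable {K}

/-- `x'` has coordinates in `L` and is near `x` -/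
def Near {N : ℕ} (ν : AbsoluteValue (Cb K) ℝ) (ε : ℝ) (L : IntermediateField K (Cb K))
    (x x' : Fin (N + 1) → Cb K) : Prop := ∀ i, x' i ∈ L ∧ ν (x' i - x i) < ε

variable {X} in
/-- near each member of the family there is a point with the property `P` -/
def PFam.Hit (T : PFam X K) (ν : AbsoluteValue (Cb K) ℝ) (P : (Fin (X.N + 1) → Cb K) → Prop) :
    Prop := ∀ j, ∃ x', Near ν T.ε (T.L j) (T.x j) x' ∧ P x'

/-- the kernel of the Jacobian matrix of `X` and `f` at `x` has dimension at most two -/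
def Ind {σ : Type} (x : Fin (X.N + 1) → Cb K) (f : σ → Fm X.N K) : Prop :=
  ∃ w₀ : Fin (X.N + 1) → Cb K, ∀ w, (∀ G ∈ X.I, grad x G ⬝ᵥ w = 0) →
    (∀ i, grad x (f i) ⬝ᵥ w = 0) → ∃ c c' : Cb K, w = c • x + c' • w₀

variable (K)

/-- `a` kills the combinations of degree zero of points with the property `P` -/
def Kills (a : F.BR X.F) (P : (Fin (X.N + 1) → Cb K) → Prop) : Prop :=
  ∀ (I : Type) [Fintype I] (m : I → ℤ) (L : I → IntermediateField K (Cb K))
    (x : I → Fin (X.N + 1) → Cb K),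
    (∀ j, FiniteDimensional K (L j) ∧ (∀ i, x j i ∈ L j) ∧ P (x j)) →
    ∑ j, m j * (Module.finrank K (L j) : ℤ) = 0 → ∑ j, m j • X.ptv a (L j) (x j) = 0

variable {K}

/-- What is used of block U for the absolute value `ν`. -/
structure UApi (σ : Type) (ν : AbsoluteValue (Cb K) ℝ) : Prop where
  lc : ∀ a ∈ X.Bw, ∀ (L : IntermediateField K (Cb K)) (x : Fin (X.N + 1) → Cb K),
    FiniteDimensional K L → (∀ i, x i ∈ L) → X.On x →
      ∃ ε > 0, ∀ x', Near ν ε L x x' → X.On x' → X.ptv a L x' = X.ptv a L x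
  locf : ∀ (T : PFam X K) (g : Fm X.N k), (∃ m, g.IsHomogeneous m) → g ∉ X.I →
    ∃ (x' : T.I → Fin (X.N + 1) → Cb K) (d₁ : ℕ), (∀ j, Near ν T.ε (T.L j) (T.x j) (x' j) ∧
      X.On (x' j) ∧ aeval (x' j) g ≠ 0) ∧ ∀ d, d₁ ≤ d → ∃ H : σ → Fm X.N K,
        (∀ i, (H i).IsHomogeneous d) ∧ ∀ j, (∀ i, aeval (x' j) (H i) = 0) ∧ Ind X (x' j) H
  ift : ∀ (L : IntermediateField K (Cb K)) (x : Fin (X.N + 1) → Cb K) (d : ℕ) (f : σ → Fm X.N K),
    FiniteDimensional K L → (∀ i, x i ∈ L) → X.On x → (∀ i, (f i).IsHomogeneous d) →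
    (∀ i, aeval x (f i) = 0) → Ind X x f → ∀ ε > 0, ∃ ε' > 0, ∀ f' : σ → Fm X.N K,
      (∀ i, (f' i).IsHomogeneous d) →
      (∀ i m, ν (algebraMap K (Cb K) (coeff m (f' i) - coeff m (f i))) < ε') →
        ∃ x', Near ν ε L x x' ∧ X.On x' ∧ ∀ i, aeval x' (f' i) = 0

end pts

/-! ### The export -/

section out

variable {k : Type} [Field k]

/-- `ν` induces the valuation of the completion -/
def NuOk (v : Place k) (ν : AbsoluteValue (Cb v.K) ℝ) : Prop :=
  ZFy.U.LocAbv v.K ν ∧ ∀ x y : v.K, ν (algebraMap _ _ x) ≤ ν (algebraMap _ _ y) ↔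
    Valued.v x ≤ Valued.v y

variable (X : Var k) (J : Jets k X.N) {σ : Type} [Fintype σ]

/-- the properties of the curve `C` and the forms `g` in the conclusion of `CMainP` -/
def CrvAt (Gd : Chart k σ X.N (X.IK k) → MP σ k → Place k → Prop) (c₀ : Chart k σ X.N (X.IK k))
    (S : Finset (Place k)) (d : ℕ) (W : ∀ v : Place k, σ → Set ((Fin (X.N + 1) →₀ ℕ) → v.K))
    (v : Place k) (C : Gen k X.N) (g : σ → Fm X.N k) : Prop :=
  X.Cut C g ∧ (∀ i, J.Van d (g i)) ∧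
    (v ∈ S → ∀ i, cf (map (algebraMap k v.K) (g i)) ∈ W v i) ∧
    (v ∉ S → ∃ cb Φb, X.ZCh J cb Φb ∧ c₀.d ≤ cb.d ∧ Gd cb Φb v ∧ ∃ e : ℕ, ∀ i m,
      v.1.valuation (coeff m (g i - cb.l0 ^ e * cb.f (some (some i)))) < 1)

end out

/-- A `p`-primary class that kills the cycles of degree zero of the curve `C v` for all `v` kills
the cycles of degree zero of `X` at all places. The curves pass near the given families `T v`. -/
def P45 : Prop := ∀ (p : ℕ) [Fact p.Prime] (k : Type) [Field k] [CharP k p] (F₀ : Type) [Field F₀]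
  [Finite F₀] [Algebra (RatFunc F₀) k] [FiniteDimensional (RatFunc F₀) k] (X : Var k) (n : ℕ),
  X.Nice n → 3 ≤ n → ∀ (σ : Type) [Fintype σ], Fintype.card σ + 1 = n →
  ∀ ν : ∀ v : Place k, AbsoluteValue (Cb v.K) ℝ, (∀ v, NuOk v (ν v) ∧ UApi X σ (ν v)) →
  ∃ (J : Jets k X.N) (d₁ : ℕ) (Gd : Chart k σ X.N (X.IK k) → MP σ k → Place k → Prop),
    X.JOk J ∧ 0 < J.s ∧ (∀ c Φ, X.ZCh J c Φ → ∀ᶠ v in cofinite, Gd c Φ v) ∧
    ∀ c₀ Φ₀, X.ZCh J c₀ Φ₀ → d₁ ≤ c₀.d → ∃ S₀ : Finset (Place k), ∀ S, S₀ ⊆ S →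
    ∀ T : ∀ v : Place k, PFam X v.K, ∃ d₃ : ℕ, ∀ d, d₃ ≤ d →
    ∃ (fv : ∀ v : Place k, σ → Fm X.N v.K)
      (W : ∀ v : Place k, σ → Set ((Fin (X.N + 1) →₀ ℕ) → v.K)),
      (∀ v ∈ S, ∀ i, J.VanK d v.K (fv v i) ∧ W v i ∈ 𝓝 (cf (fv v i))) ∧
      ∀ (C : Place k → Gen k X.N) (g : Place k → σ → Fm X.N k),
        (∀ v, CrvAt X J Gd c₀ S d W v (C v) (g v)) →
        (∀ v ∈ S, (T v).Hit (ν v) fun x => (C v).var.On x) ∧
        ∀ a ∈ X.Bw, Prim p a → (∀ v : Place k, Kills X v.K a fun x => (C v).var.On x) →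
          ∀ v : Place k, Kills X v.K a fun x => X.On x

end Pool.Agent.ZFN
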