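import Pool.Agent.Lib.MP_751085_ag.ZF.N.C3
import Pool.Agent.Lib.MP_751085_ag.ZF.N.Iface
import Pool.Agent.Lib.MP_751085_ag.ZC.V.Cf

/-! The places of the statement and their completions. -/

namespace Pool.Agent.ZFN

open Pool.Agent.ZCy
open scoped Classical WithZero Topology
open Filter

attribute [local instance] Place.field Place.alg

variable {k : Type} [Field k]

/-- the valuation of a place -/
noncomputable def plv (v : Place k) : Vl k := (IsDiscreteValuationRing.maximalIdeal v.1).valuation k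

/-- the valuation of the completion -/
noncomputable def plw (v : Place k) : Vl v.K := Valued.v

theorem plv_nrm (v : Place k) : Nrm (plv v) :=
  (IsDiscreteValuationRing.maximalIdeal v.1).valuation_exists_uniformizer k

theorem plv_le (v : Place k) (a : k) : plv v a ≤ 1 ↔ a ∈ v.1 :=
  ⟨fun h => (IsDiscreteValuationRing.exists_lift_of_le_one h).elim fun b e => e ▸ b.2,
    fun h => (IsDiscreteValuationRing.maximalIdeal v.1).valuation_le_one (K := k) ⟨a, h⟩⟩

theorem plv_lt (v : Place k) (a : k) : plv v a < 1 ↔ v.1.valuation a < 1 :=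
  (Valuation.isEquiv_iff_val_le_one.2 fun {x} =>
    (plv_le v x).trans (v.1.valuation_le_one_iff x).symm).lt_one_iff_lt_one

theorem plv_inj : Function.Injective (plv : Place k → Vl k) := fun v v' e =>
  Subtype.ext (ValuationSubring.ext _ _ fun x => by rw [← plv_le, ← plv_le, e])

/-- `Nrm.isVR`, `IsVR.dvr` -/
theorem plv_surj {w : Vl k} (hw : Nrm w) : ∃ v, plv v = w :=
  have h : IsVR w.valuationSubring.subtype w :=
    ⟨hw, Subtype.val_injective, fun x => ⟨fun hx => ⟨⟨x, hx⟩, rfl⟩, fun ⟨a, e⟩ => e ▸ a.2⟩⟩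
  ⟨⟨w.valuationSubring, h.dvr⟩, hw.eq_of_iff (plv_nrm _) (plv_le _)⟩

theorem place_ne_top (v : Place k) : v.1 ≠ ⊤ := fun e => by
  obtain ⟨π, hπ⟩ := plv_nrm v
  have h := (plv_le v π⁻¹).2 (e ▸ ValuationSubring.mem_top _)
  rw [map_inv₀, hπ, ← WithZero.exp_neg, ← WithZero.exp_zero, WithZero.exp_le_exp] at h
  omega

theorem plw_map (v : Place k) (a : k) : plw v (algebraMap k v.K a) = plv v a :=
  (IsDiscreteValuationRing.maximalIdeal v.1).valuedAdicCompletion_eq_valuation' a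

theorem nc4_lt (v : Place k)
    (γ : (MonoidWithZeroHom.ValueGroup₀ (MonoidWithZeroHom.ofClass (plw v)))ˣ) :
    ∃ n : ℕ, ∀ y, plw v y ≤ WithZero.exp (-(n : ℤ)) → (plw v).restrict y < γ.1 := by
  obtain ⟨n, hn⟩ := WithZero.exists_exp_neg_natCast_lt
    ((map_ne_zero MonoidWithZeroHom.ValueGroup₀.embedding).2 γ.ne_zero)
  exact ⟨n, fun y hy => (plw v).restrict_lt_iff_lt_embedding.2 (hy.trans_lt hn)⟩

theorem plw_nhds (v : Place k) (x : v.K) (U : Set v.K) :
    U ∈ 𝓝 x ↔ ∃ n : ℕ, ∀ y, plw v (y - x) ≤ WithZero.exp (-(n : ℤ)) → y ∈ U := by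
  rw [Valued.mem_nhds]
  refine ⟨fun ⟨γ, h⟩ => (nc4_lt v γ).imp fun n hn y hy => h (hn _ hy), fun ⟨n, h⟩ => ?_⟩
  obtain ⟨z, hz⟩ := (IsDiscreteValuationRing.maximalIdeal v.1).valuedAdicCompletion_surjective k
    (WithZero.exp (-(n : ℤ)))
  have h0 : (plw v).restrict z ≠ 0 := fun e => WithZero.exp_ne_zero
    (hz.symm.trans ((plw v).restrict_eq_zero_iff.1 e))
  exact ⟨Units.mk0 _ h0, fun y hy => h y (((plw v).restrict_lt_iff.1 hy).le.trans hz.le)⟩

theorem nc4_ball (v : Place k) (x : v.K) (n : ℕ) :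
    {y | plw v (y - x) ≤ WithZero.exp (-(n : ℤ))} ∈ 𝓝 x := (plw_nhds v x _).2 ⟨n, fun _ h => h⟩

theorem plw_cpl (v : Place k) : Cpl (plw v) := fun x hx => by
  have hc : CauchySeq x := Valued.cauchy_iff.2 ⟨inferInstance, fun γ => by
    obtain ⟨n, hn⟩ := nc4_lt v γ
    refine ⟨{y | plw v (y - x n) ≤ WithZero.exp (-(n : ℤ))},
      mem_map.2 ((eventually_ge_atTop n).mono fun m hm => vcf_tel hx hm), fun a ha b hb => hn _ ?_⟩
    rw [← sub_sub_sub_cancel_right _ _ (x n)]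
    exact (plw v).map_sub_le hb ha⟩
  obtain ⟨y, hy⟩ := cauchySeq_tendsto_of_complete hc
  refine ⟨y, fun n => ?_⟩
  obtain ⟨m, h1, h2⟩ := ((hy.eventually_mem (nc4_ball v y n)).and (eventually_ge_atTop n)).exists
  rw [← sub_sub_sub_cancel_left _ _ (x m)]
  exact (plw v).map_sub_le (vcf_tel hx h2) h1

theorem plw_dns (v : Place k) (x : v.K) : Dns (algebraMap k v.K) (plw v) x := fun n =>
  (((IsDiscreteValuationRing.maximalIdeal v.1).denseRange_algebraMap k).mem_nhds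
    (nc4_ball v x n)).imp fun _ h => ((plw v).map_sub_swap _ _).trans_le h

theorem FinR.dns {K : Type} [Field K] {φ : k →+* K} {v : Vl k} {w : Vl K} (h : FinR v)
    (e : ∀ a, w (φ a) = v a) (hd : ∀ x, Dns φ w x) : FinR w := by
  obtain ⟨s, h1, h2⟩ := h
  refine ⟨s.image φ, fun b hb => ?_, fun a ha => ?_⟩
  · obtain ⟨c, hc, rfl⟩ := Finset.mem_image.1 hb
    exact (e c).trans_le (h1 c hc)
  · obtain ⟨c, hc⟩ := hd a 1
    have h3 := (lt_one_iff_le_exp _).2 hc
    obtain ⟨b, hb, h4⟩ := h2 c (by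
      rw [← e, ← sub_sub_cancel a (φ c)]
      exact w.map_sub_le ha h3.le)
    refine ⟨φ b, Finset.mem_image_of_mem _ hb, ?_⟩
    rw [← sub_add_sub_cancel _ (φ c), ← map_sub φ]
    exact w.map_add_lt h3 ((e _).trans_lt h4)

/-- `wap` and `plw_dns`; the set is infinite because a small element may be added -/
theorem place_wapx [Nonempty (Place k)] : WApx (fun v : Place k => v.1) fun v => v.K := by
  intro S T hST t U hU s r hr
  obtain ⟨v₀⟩ := ‹Nonempty (Place k)›
  have H : ∀ v : Place k, ∃ (y : k) (n : ℕ), ∀ z, plv v (z - y) ≤ WithZero.exp (-(n : ℤ)) →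
      (v ∈ S → algebraMap k v.K z ∈ U v) ∧ (v ∈ T → (z - s v) / r v ∈ v.1) := fun v => by
    by_cases h : v ∈ S
    · obtain ⟨n, hn⟩ := (plw_nhds v _ _).1 (hU v h)
      obtain ⟨y, hy⟩ := plw_dns v (t v) n
      refine ⟨y, n, fun z hz => ⟨fun _ => hn _ ?_, fun h' => (Finset.disjoint_left.1 hST h h').elim⟩⟩
      rw [← sub_sub_sub_cancel_right _ _ (algebraMap k v.K y), ← map_sub]
      exact (plw v).map_sub_le ((plw_map v _).trans_le hz) hy
    · have h0 := (plv v).ne_zero_iff.2 (hr v)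
      obtain ⟨n, hn⟩ := WithZero.exists_exp_neg_natCast_lt h0
      refine ⟨s v, n, fun z hz => ⟨fun h' => (h h').elim, fun _ => (plv_le v _).1 ?_⟩⟩
      rw [map_div₀, div_le_one₀ (zero_lt_iff.2 h0)]
      exact hz.trans hn.le
  choose y n hy using H
  obtain ⟨N, hN⟩ := (insert v₀ (S ∪ T)).finite_toSet.image n |>.bddAbove
  choose c hc using fun v : Place k => (plv_nrm v).surj (WithZero.exp (-(N + 1 : ℕ) : ℤ))
  have hw := fun (z : Place k → k) => wap (fun v : (insert v₀ (S ∪ T) : Finset _) => plv v.1)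
    (fun v => plv_nrm _) (fun v => z v.1) fun v v' e => congrArg z (plv_inj e)
  obtain ⟨x, hx⟩ := hw y N
  obtain ⟨d, hd⟩ := hw c (N + 2)
  have hd' : ∀ v ∈ insert v₀ (S ∪ T), plv v d = WithZero.exp (-(N + 1 : ℕ) : ℤ) := fun v hv =>
    ((plv v).map_eq_of_sub_lt ((hd ⟨v, hv⟩).trans_lt (by
      rw [hc, WithZero.exp_lt_exp]; omega))).trans (hc v)
  have hp : ∀ v ∈ insert v₀ (S ∪ T), ∀ m : ℕ,
      plv v (d ^ m) = WithZero.exp (-((N + 1) * m : ℕ) : ℤ) := fun v hv m => by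
    rw [map_pow, hd' v hv, ← WithZero.exp_nsmul]
    congr 1
    push_cast
    ring
  have key : ∀ v ∈ insert v₀ (S ∪ T), ∀ m : ℕ,
      plv v (x + d ^ (m + 1) - y v) ≤ WithZero.exp (-(n v : ℤ)) := fun v hv m => by
    have h1 : n v ≤ N := hN ⟨v, hv, rfl⟩
    rw [add_sub_right_comm]
    refine (plv v).map_add_le ((hx ⟨v, hv⟩).trans (WithZero.exp_le_exp.2 (by omega))) ?_
    rw [hp v hv, WithZero.exp_le_exp, neg_le_neg_iff, Nat.cast_le]
    exact h1.trans (N.le_succ.trans (Nat.le_mul_of_pos_right _ m.succ_pos))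
  refine Set.infinite_of_injective_forall_mem (f := fun m : ℕ => x + d ^ (m + 1))
    (fun m m' e => ?_) fun m => ⟨fun v hv => (hy v _ (key v (by simp [hv]) m)).1 hv,
      fun v hv => (hy v _ (key v (by simp [hv]) m)).2 hv⟩
  have h2 := congrArg (plv v₀) (add_left_cancel e)
  rw [hp _ (Finset.mem_insert_self _ _), hp _ (Finset.mem_insert_self _ _), WithZero.exp_inj,
    neg_inj, Nat.cast_inj] at h2
  exact Nat.succ_injective (Nat.eq_of_mul_eq_mul_left N.succ_pos h2)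

variable (F₀ : Type) [Field F₀] [Finite F₀] [Algebra (RatFunc F₀) k]
  [FiniteDimensional (RatFunc F₀) k]

include F₀

theorem place_nonempty : Nonempty (Place k) := by
  obtain ⟨v, -, hv⟩ := rat_exists_inf (F₀ := F₀)
  obtain ⟨w, hw⟩ := exists_over (E := k) v
  obtain ⟨u, -, hu, -⟩ := exists_nrm (v := w) ((map_ne_zero (algebraMap _ k)).2 RatFunc.X_ne_zero)
    (mt (hw.eq_one _).1 hv.ne')
  exact (plv_surj hu).nonempty

theorem place_fs (a : k) : ∀ᶠ v : Place k in cofinite, a ∈ v.1 :=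
  ((finite_pole F₀ a).preimage plv_inj.injOn).subset fun v h =>
    ⟨plv_nrm v, not_le.1 (mt (plv_le v a).1 h)⟩

theorem plw_finR (v : Place k) : FinR (plw v) :=
  (finR_of_nrm F₀ (plv_nrm v)).dns (plw_map v) (plw_dns v)

theorem place_finite_res (v : Place k) : Finite (IsLocalRing.ResidueField v.1) := by
  obtain ⟨s, h1, h2⟩ := finR_of_nrm F₀ (plv_nrm v)
  refine Finite.of_surjective
    (fun b : s => IsLocalRing.residue v.1 ⟨b.1, (plv_le v _).1 (h1 _ b.2)⟩) fun z => ?_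
  obtain ⟨a, rfl⟩ := IsLocalRing.residue_surjective z
  obtain ⟨b, hb, h3⟩ := h2 a ((plv_le v _).2 a.2)
  refine ⟨⟨b, hb⟩, (sub_eq_zero.1 ?_).symm⟩
  rw [← map_sub, IsLocalRing.residue_eq_zero_iff, ValuationSubring.valuation_lt_one_iff]
  exact (plv_lt v _).1 h3

end Pool.Agent.ZFN
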