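import Pool.Agent.Lib.MP_751085_ag.ZF.N.Defs

/-! Bounds. -/

namespace Pool.Agent.ZFN

open Pool.Agent.ZCy
open scoped Classical WithZero
open Filter

/-- `ϖ` is a nonzero element of the maximal ideal -/
structure VP {L : Type} [Field L] (w : Vl L) (ϖ : L) : Prop where
  ne : ϖ ≠ 0
  lt : w ϖ < 1

section bd

variable {L : Type} [Field L] {w : Vl L} {ϖ a b : L} {r s : ℤ}

theorem bd_zero (w : Vl L) (ϖ : L) (r : ℤ) : Bd w ϖ r 0 := by
  rw [Bd, mul_zero, map_zero]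
  exact zero_le_one

theorem bd_iff : Bd w ϖ 0 a ↔ w a ≤ 1 := by
  rw [Bd, zpow_zero, one_mul]

theorem Bd.add (ha : Bd w ϖ r a) (hb : Bd w ϖ r b) : Bd w ϖ r (a + b) := by
  rw [Bd, mul_add]
  exact w.map_add_le ha hb

theorem Bd.neg (ha : Bd w ϖ r a) : Bd w ϖ r (-a) := by
  rw [Bd, mul_neg, Valuation.map_neg]
  exact ha

theorem Bd.sub (ha : Bd w ϖ r a) (hb : Bd w ϖ r b) : Bd w ϖ r (a - b) := by
  rw [sub_eq_add_neg]
  exact ha.add hb.neg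

theorem bd_sum {I : Type} {t : Finset I} {f : I → L} (h : ∀ l ∈ t, Bd w ϖ r (f l)) :
    Bd w ϖ r (∑ l ∈ t, f l) :=   Finset.sum_induction f (Bd w ϖ r) (fun _ _ => Bd.add) (bd_zero w ϖ r) h

theorem bd_one (w : Vl L) (ϖ : L) : Bd w ϖ 0 1 := bd_iff.2 w.map_one.le

theorem bd_nat (w : Vl L) (ϖ : L) (n : ℕ) : Bd w ϖ 0 n := by
  induction n with
  | zero =>
    rw [Nat.cast_zero]
    exact bd_zero w ϖ 0
  | succ n ih =>
    rw [Nat.cast_succ]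
    exact ih.add (bd_one w ϖ)

theorem bd_int (w : Vl L) (ϖ : L) (n : ℤ) : Bd w ϖ 0 n := by
  obtain ⟨m, rfl | rfl⟩ := n.eq_nat_or_neg
  · rw [Int.cast_natCast]
    exact bd_nat w ϖ m
  · rw [Int.cast_neg, Int.cast_natCast]
    exact (bd_nat w ϖ m).neg

/-- the bound depends only on the value -/
theorem Bd.of_le (hb : Bd w ϖ r b) (h : w a ≤ w b) : Bd w ϖ r a := by
  rw [Bd, map_mul] at hb ⊢
  exact (mul_le_mul_right h _).trans hb

theorem bd_nat_inv {p : ℕ} [Fact p.Prime] [CharP L p] (w : Vl L) (ϖ : L) (n : ℕ) :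
    Bd w ϖ 0 (n : L)⁻¹ := by
  have e : (n : L)⁻¹ = (((n : ZMod p)⁻¹.val : ℕ) : L) := by
    rw [← map_natCast (ZMod.castHom (dvd_refl p) L) n, ← map_inv₀,
      ← map_natCast (ZMod.castHom (dvd_refl p) L), ZMod.natCast_zmod_val]
  rw [e]
  exact bd_nat w ϖ _

theorem bd_of_pow {n : ℕ} (hn : n ≠ 0) (h : Bd w ϖ (n * r) (a ^ n)) : Bd w ϖ r a := by
  rw [Bd, mul_comm (n : ℤ) r, zpow_mul, zpow_natCast, ← mul_pow, map_pow] at h
  exact (pow_le_one_iff_of_nonneg zero_le hn).1 h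

theorem Bd.pow (ha : Bd w ϖ r a) (n : ℕ) : Bd w ϖ (n * r) (a ^ n) := by
  rw [Bd, mul_comm (n : ℤ) r, zpow_mul, zpow_natCast, ← mul_pow, map_pow]
  exact pow_le_one₀ zero_le ha

variable (h : VP w ϖ)

include h

theorem VP.mul (ha : Bd w ϖ r a) (hb : Bd w ϖ s b) : Bd w ϖ (r + s) (a * b) := by
  have e : ϖ ^ (r + s) * (a * b) = (ϖ ^ r * a) * (ϖ ^ s * b) := by
    rw [zpow_add₀ h.ne]
    ring
  rw [Bd, e, map_mul]
  exact mul_le_one' ha hb

theorem VP.mono (ha : Bd w ϖ r a) (hr : r ≤ s) : Bd w ϖ s a := by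
  obtain ⟨n, rfl⟩ := Int.le.dest hr
  have e : ϖ ^ (r + n) * a = ϖ ^ n * (ϖ ^ r * a) := by
    rw [zpow_add₀ h.ne, zpow_natCast]
    ring
  rw [Bd, e, map_mul, map_pow]
  exact mul_le_one' (pow_le_one₀ zero_le h.lt.le) ha

/-- the form that is convenient with `omega` -/
theorem VP.mul_le {t : ℤ} (ha : Bd w ϖ r a) (hb : Bd w ϖ s b) (ht : r + s ≤ t) :
    Bd w ϖ t (a * b) := h.mono (h.mul ha hb) ht

theorem VP.prod {I : Type} {t : Finset I} {f : I → L} {c : I → ℤ}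
    (hf : ∀ l ∈ t, Bd w ϖ (c l) (f l)) : Bd w ϖ (∑ l ∈ t, c l) (∏ l ∈ t, f l) := by
  induction t using Finset.induction_on with
  | empty => exact bd_one w ϖ
  | insert x t hx ih =>
    rw [Finset.sum_insert hx, Finset.prod_insert hx]
    exact h.mul (hf x (Finset.mem_insert_self x t))
      (ih fun l hl => hf l (Finset.mem_insert_of_mem hl))

theorem VP.zpow (r : ℤ) : Bd w ϖ (-r) (ϖ ^ r) := by
  rw [Bd, ← zpow_add₀ h.ne, neg_add_cancel, zpow_zero, map_one]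

theorem VP.self : Bd w ϖ (-1) ϖ := by
  have := h.zpow 1
  rwa [zpow_one] at this

theorem VP.inv : Bd w ϖ 1 ϖ⁻¹ := by
  have := h.zpow (-1)
  rwa [neg_neg, zpow_neg_one] at this

theorem VP.zpow_mul : Bd w ϖ r (ϖ ^ s * a) ↔ Bd w ϖ (r + s) a := by
  rw [Bd, Bd, zpow_add₀ h.ne, mul_assoc]

theorem VP.lt_one (ha : Bd w ϖ r a) (hr : r < 0) : w a < 1 := by
  have h1 : Bd w ϖ (-1) a := h.mono ha (by omega)
  have e : a = ϖ * (ϖ ^ (-1 : ℤ) * a) := by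
    rw [zpow_neg_one, mul_inv_cancel_left₀ h.ne]
  rw [e, map_mul]
  exact lt_of_le_of_lt (mul_le_of_le_one_right' h1) h.lt

theorem VP.exists_bd (a : L) : ∃ n : ℕ, Bd w ϖ n a := by
  have h1 : w ϖ ≤ WithZero.exp (-1) := by
    rw [← WithZero.lt_mul_exp_iff_le WithZero.exp_ne_zero, ← WithZero.exp_add]
    exact h.lt
  refine ⟨(WithZero.log (w a)).toNat, ?_⟩
  rw [Bd, map_mul, zpow_natCast, map_pow]
  refine (mul_le_mul' (pow_le_pow_left₀ zero_le h1 _) WithZero.le_exp_log).trans ?_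
  rw [← WithZero.exp_nsmul, ← WithZero.exp_add, ← WithZero.exp_zero, WithZero.exp_le_exp]
  simp only [nsmul_eq_mul]
  omega

theorem VP.eq_zero (ha : ∀ n : ℕ, Bd w ϖ (-n) a) : a = 0 := by
  by_contra h0
  obtain ⟨n, hn⟩ := h.exists_bd a⁻¹
  have := h.lt_one (h.mul (ha (n + 1)) hn) (by omega)
  rw [mul_inv_cancel₀ h0, map_one] at this
  exact lt_irrefl _ this

/-- a small change does not alter the bound of the inverse -/
theorem VP.inv_add (ha : a ≠ 0) (h1 : Bd w ϖ r a⁻¹) (h2 : Bd w ϖ s b) (hs : r + s < 0) :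
    a + b ≠ 0 ∧ Bd w ϖ r (a + b)⁻¹ := by
  have h3 : w (1 + a⁻¹ * b) = 1 := w.map_one_add_of_lt (h.lt_one (h.mul h1 h2) hs)
  have e : a + b = a * (1 + a⁻¹ * b) := by
    rw [mul_add, mul_one, mul_inv_cancel_left₀ ha]
  have h4 : w (a + b) = w a := by rw [e, map_mul, h3, mul_one]
  refine ⟨fun h0 => ha ?_, h1.of_le ?_⟩
  · rw [h0, map_zero] at h4
    exact w.zero_iff.1 h4.symm
  · rw [map_inv₀, map_inv₀, h4]

theorem VP.na1_der (D : Derivation ℤ L L) (a : L) (r : ℤ) :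
    D a = ϖ ^ (-r) * D (ϖ ^ r * a) - r * (ϖ ^ r * a) * ϖ ^ (-r - 1) * D ϖ := by
  have e : a = ϖ ^ (-r) * (ϖ ^ r * a) := by
    rw [← mul_assoc, ← zpow_add₀ h.ne, neg_add_cancel, zpow_zero, one_mul]
  conv_lhs => rw [e]
  rw [Derivation.leibniz, Derivation.leibniz_zpow]
  simp only [smul_eq_mul, zsmul_eq_mul, Int.cast_neg]
  ring

theorem VP.der {D : Derivation ℤ L L} {c : ℤ} (hc : 0 ≤ c) (hD : ∀ z, w z ≤ 1 → Bd w ϖ c (D z))
    (ha : Bd w ϖ r a) : Bd w ϖ (r + 1 + c) (D a) := by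
  rw [h.na1_der D a r]
  refine (h.mul_le (h.zpow (-r)) (hD _ ha) (by omega)).sub ?_
  exact h.mul_le (h.mul (h.mul (bd_int w ϖ r) (bd_iff.2 ha)) (h.zpow (-r - 1)))
    (hD ϖ h.lt.le) (by omega)

theorem VP.der_p {p : ℕ} [CharP L p] {D : Derivation ℤ L L} {c : ℤ}
    (hD : ∀ z, w z ≤ 1 → Bd w ϖ c (D z)) (hr : (p : ℤ) ∣ r) (ha : Bd w ϖ r a) :
    Bd w ϖ (r + c) (D a) := by
  rw [h.na1_der D a r, (CharP.intCast_eq_zero_iff L p r).2 hr, zero_mul, zero_mul, zero_mul,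
    sub_zero]
  exact h.mul_le (h.zpow (-r)) (hD _ ha) (by omega)

/-- the leading term of the derivative at a good place -/
theorem VP.der_lead {D : Derivation ℤ L L} (hD : ∀ z, w z ≤ 1 → w (D z) ≤ 1)
    (h1 : Bd w ϖ (-1) (D ϖ - 1)) (ha : Bd w ϖ r a) : Bd w ϖ r (D a + r * (a / ϖ)) := by
  have e : D a + r * (a / ϖ) =
      ϖ ^ (-r) * D (ϖ ^ r * a) - r * (ϖ ^ r * a) * ϖ ^ (-r - 1) * (D ϖ - 1) := by
    have e1 : ϖ ^ r * a * ϖ ^ (-r - 1) = a / ϖ := by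
      rw [mul_right_comm, ← zpow_add₀ h.ne, show r + (-r - 1) = -1 by ring, zpow_neg_one,
        div_eq_inv_mul]
    rw [h.na1_der D a r, ← e1]
    ring
  rw [e]
  refine (h.mul_le (h.zpow (-r)) (bd_iff.2 (hD _ ha)) (by omega)).sub ?_
  exact h.mul_le (h.mul (h.mul (bd_int w ϖ r) (bd_iff.2 ha)) (h.zpow (-r - 1))) h1 (by omega)

omit h

theorem vp_of_unif (h : w ϖ = WithZero.exp (-1)) : VP w ϖ := by
  refine ⟨fun h0 => ?_, ?_⟩
  · rw [h0, map_zero] at h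
    exact WithZero.exp_ne_zero h.symm
  · rw [h, ← WithZero.exp_zero, WithZero.exp_lt_exp]
    omega

theorem na1_exp (h : w ϖ = WithZero.exp (-1)) : Bd w ϖ r a ↔ w a ≤ WithZero.exp r := by
  rw [Bd, map_mul, map_zpow₀, h, ← WithZero.exp_zsmul, smul_neg, smul_eq_mul, mul_one,
    WithZero.exp_neg, inv_mul_le_one₀ (zero_lt_iff.2 WithZero.exp_ne_zero)]

theorem bd_neg_one (h : w ϖ = WithZero.exp (-1)) : Bd w ϖ (-1) a ↔ w a < 1 := by
  rw [na1_exp h, ← WithZero.lt_mul_exp_iff_le WithZero.exp_ne_zero, ← WithZero.exp_add]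
  rfl

theorem bd_exp (h : w ϖ = WithZero.exp (-1)) : Bd w ϖ r a ↔ w a ≤ WithZero.exp r := na1_exp h

theorem bd_map {K : Type} [Field K] {v : Vl K} (e : K →+* L) (he : ∀ a, w (e a) ≤ 1 ↔ v a ≤ 1)
    {π a : K} : Bd w (e π) r (e a) ↔ Bd v π r a := by
  rw [Bd, Bd, ← map_zpow₀ e, ← map_mul e, he]

end bd

theorem Pls.vp {p : ℕ} {k ι : Type} [Field k] (B : Pls p k ι) (i : ι) : VP (B.v i) (B.π i) :=
  vp_of_unif (B.unif i)

theorem LocF.vp {L G : Type} [Field L] [AddCommGroup G] (Λ : LocF L G) : VP Λ.w Λ.ϖ := ⟨Λ.ne, Λ.lt⟩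

section fins

variable {ι : Type} {c c' : ι → ℕ}

theorem finS_zero : FinS fun _ : ι => 0 := Eventually.of_forall fun _ => rfl

theorem FinS.add (h : FinS c) (h' : FinS c') : FinS fun i => c i + c' i := by
  filter_upwards [h, h'] with i h1 h2
  rw [h1, h2]

theorem FinS.mul (n : ℕ) (h : FinS c) : FinS fun i => n * c i := by
  filter_upwards [h] with i h1
  rw [h1, mul_zero]

theorem finS_sum {I : Type} {t : Finset I} {c : I → ι → ℕ} (h : ∀ l ∈ t, FinS (c l)) :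
    FinS fun i => ∑ l ∈ t, c l i := by
  filter_upwards [(eventually_all_finset t).2 h] with i h1
  exact Finset.sum_eq_zero h1

theorem exists_finS {P : ι → ℕ → Prop} (h : ∀ i, ∃ n, P i n) (h0 : ∀ᶠ i in cofinite, P i 0) :
    ∃ c, FinS c ∧ ∀ i, P i (c i) := by
  refine ⟨fun i => Nat.find (h i), ?_, fun i => Nat.find_spec (h i)⟩
  filter_upwards [h0] with i h1
  exact (Nat.find_eq_zero _).2 h1

/-- one family of constants for finitely many monotone conditions -/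
theorem exists_finS_all {I : Type} {S : Set I} (hS : S.Finite) {P : I → ι → ℕ → Prop}
    (hm : ∀ l i n n', n ≤ n' → P l i n → P l i n') (h : ∀ l ∈ S, ∃ c, FinS c ∧ ∀ i, P l i (c i)) :
    ∃ c, FinS c ∧ ∀ l ∈ S, ∀ i, P l i (c i) := by
  choose! c hc using h
  refine ⟨fun i => ∑ l ∈ hS.toFinset, c l i,
    finS_sum fun l hl => (hc l (hS.mem_toFinset.1 hl)).1, fun l hl i => ?_⟩
  exact hm l i _ _ (Finset.single_le_sum (f := fun l => c l i) (fun _ _ => Nat.zero_le _)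
    (hS.mem_toFinset.2 hl)) ((hc l hl).2 i)

end fins

theorem Pls.exists_bd {p : ℕ} {k ι : Type} [Field k] (B : Pls p k ι) {S : Set k} (hS : S.Finite) :
    ∃ c, FinS c ∧ ∀ a ∈ S, ∀ i, B.bd i (c i) a :=   exists_finS_all hS (P := fun a i n => B.bd i n a)
    (fun _ i _ _ hn h => (B.vp i).mono h (Int.ofNat_le.2 hn)) fun a _ =>
      exists_finS (P := fun i n => B.bd i n a) (fun i => (B.vp i).exists_bd a)
        ((B.fs a).mono fun _ h => bd_iff.2 h)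

theorem LFam.exists_bd {p : ℕ} {k ι : Type} [Field k] {B : Pls p k ι} {k₁ : Type} [Field k₁]
    [Algebra k k₁] {D₁ : Derivation ℤ k₁ k₁} {L G : ι → Type} [∀ i, Field (L i)]
    [∀ i, AddCommGroup (G i)] (𝓛 : LFam B D₁ L G) {S : Set k₁} (hS : S.Finite) :
    ∃ c, FinS c ∧ ∀ a ∈ S, ∀ i, (𝓛.Λ i).bd (c i) (𝓛.e i a) :=   exists_finS_all hS (P := fun a i n => (𝓛.Λ i).bd n (𝓛.e i a))
    (fun _ i _ _ hn h => (𝓛.Λ i).vp.mono h (Int.ofNat_le.2 hn)) fun a _ =>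
      exists_finS (P := fun i n => (𝓛.Λ i).bd n (𝓛.e i a)) (fun i => (𝓛.Λ i).vp.exists_bd _)
        ((𝓛.fs a).mono fun _ h => ZFN.bd_iff.2 h)

theorem LFam.bd_iff {p : ℕ} {k ι : Type} [Field k] {B : Pls p k ι} {k₁ : Type} [Field k₁]
    [Algebra k k₁] {D₁ : Derivation ℤ k₁ k₁} {L G : ι → Type} [∀ i, Field (L i)]
    [∀ i, AddCommGroup (G i)] (𝓛 : LFam B D₁ L G) {i : ι} {r : ℤ} {a : k} :
    (𝓛.Λ i).bd r (𝓛.e i (algebraMap k k₁ a)) ↔ B.bd i r a := by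
  rw [LocF.bd, 𝓛.ϖ]
  exact bd_map ((𝓛.e i).comp (algebraMap k k₁)) (𝓛.ovr i)

end Pool.Agent.ZFN
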