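import Pool.Agent.Lib.MP_751085_ag.ZF.N.A1

/-! Lattices. -/

namespace Pool.Agent.ZFN

open Pool.Agent.ZCy
open scoped Classical WithZero
open Filter

variable {p : ℕ} {k ι V W : Type} [Field k] [AddCommGroup V] [Module k V] [AddCommGroup W]
  [Module k W] {B : Pls p k ι} {φ : k →+* k} {i : ι} {r s : ℤ} {S S' : Set V} {a : k} {x : V}

theorem smul_mem_glat (ha : B.bd i r a) (hx : x ∈ S) : φ a • x ∈ B.glat φ i r S :=
  AddSubgroup.subset_closure ⟨a, x, ha, hx, rfl⟩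

theorem smul_mem_lat (ha : B.bd i r a) (hx : x ∈ S) : a • x ∈ B.lat i r S := smul_mem_glat ha hx

theorem mem_glat (hx : x ∈ S) : x ∈ B.glat φ i 0 S := by
  have := smul_mem_glat (B := B) (φ := φ) (i := i) (bd_one _ _) hx
  rwa [map_one, one_smul] at this

theorem glat_ind {P : V → Prop} (h0 : P 0) (h1 : ∀ a s, B.bd i r a → s ∈ S → P (φ a • s))
    (h2 : ∀ x y, P x → P y → P (x + y)) (hx : x ∈ B.glat φ i r S) : P x := by
  refine AddSubgroup.closure_induction'' (p := fun x _ => P x) ?_ ?_ h0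
    (fun x y _ _ => h2 x y) hx
  · rintro _ ⟨a, s, ha, hs, rfl⟩
    exact h1 a s ha hs
  · rintro _ ⟨a, s, ha, hs, rfl⟩
    rw [← neg_smul, ← map_neg]
    exact h1 _ s (Bd.neg ha) hs

theorem glat_le {U : AddSubgroup V} (h : ∀ a s, B.bd i r a → s ∈ S → φ a • s ∈ U) :
    B.glat φ i r S ≤ U :=
  (AddSubgroup.closure_le _).2 fun _ ⟨a, s, ha, hs, e⟩ => e ▸ h a s ha hs

theorem glat_mono (hr : r ≤ s) (h : S ⊆ S') : B.glat φ i r S ≤ B.glat φ i s S' :=
  glat_le fun _ _ ha hs => smul_mem_glat ((B.vp i).mono ha hr) (h hs)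

theorem glat_smul (ha : B.bd i r a) (hx : x ∈ B.glat φ i s S) : φ a • x ∈ B.glat φ i (r + s) S := by
  refine glat_ind (P := fun x => φ a • x ∈ B.glat φ i (r + s) S) ?_ (fun b y hb hy => ?_)
    (fun x y hx hy => ?_) hx
  · rw [smul_zero]
    exact zero_mem _
  · rw [smul_smul, ← map_mul]
    exact smul_mem_glat ((B.vp i).mul ha hb) hy
  · rw [smul_add]
    exact add_mem hx hy

theorem lat_smul (ha : B.bd i r a) (hx : x ∈ B.lat i s S) : a • x ∈ B.lat i (r + s) S :=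
  glat_smul ha hx

theorem glat_trans (h : ∀ x ∈ S, x ∈ B.glat φ i s S') : B.glat φ i r S ≤ B.glat φ i (r + s) S' :=
  glat_le fun _ x ha hx => glat_smul ha (h x hx)

theorem glat_union : B.glat φ i r (S ∪ S') = B.glat φ i r S ⊔ B.glat φ i r S' :=
  le_antisymm (glat_le fun _ _ ha hs => hs.elim
      (fun h => AddSubgroup.mem_sup_left (smul_mem_glat ha h))
      fun h => AddSubgroup.mem_sup_right (smul_mem_glat ha h))
    (sup_le (glat_mono le_rfl Set.subset_union_left) (glat_mono le_rfl Set.subset_union_right))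

theorem glat_map (T : V →+ W) (hT : ∀ a x, T (φ a • x) = φ a • T x) :
    (B.glat φ i r S).map T = B.glat φ i r (T '' S) := by
  refine le_antisymm (AddSubgroup.map_le_iff_le_comap.2 (glat_le fun a s ha hs => ?_))
    (glat_le ?_)
  · rw [AddSubgroup.mem_comap, hT]
    exact smul_mem_glat ha ⟨s, hs, rfl⟩
  · rintro a _ ha ⟨s, hs, rfl⟩
    exact ⟨_, smul_mem_glat ha hs, hT a s⟩

theorem lat_map (T : V →ₗ[k] W) (hx : x ∈ B.lat i r S) : T x ∈ B.lat i r (T '' S) :=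
  (glat_map T.toAddMonoidHom fun a x => T.map_smul a x).le ⟨x, hx, rfl⟩

theorem lat_map_ex (T : V →ₗ[k] W) {y : W} (hy : y ∈ B.lat i r (T '' S)) :
    ∃ x ∈ B.lat i r S, T x = y :=
  (glat_map T.toAddMonoidHom fun a x => T.map_smul a x).ge hy

theorem mem_glat_range {I : Type} [Fintype I] {e : I → V} : x ∈ B.glat φ i r (Set.range e) ↔
    ∃ a : I → k, (∀ l, B.bd i r (a l)) ∧ x = ∑ l, φ (a l) • e l := by
  refine ⟨glat_ind (P := fun x => ∃ a : I → k, (∀ l, B.bd i r (a l)) ∧ x = ∑ l, φ (a l) • e l)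
    ⟨0, fun _ => bd_zero _ _ _, by simp⟩ ?_ ?_, ?_⟩
  · rintro a _ ha ⟨l, rfl⟩
    refine ⟨Pi.single l a, fun j => ?_, ?_⟩
    · rw [Pi.single_apply]
      split_ifs
      exacts [ha, bd_zero _ _ _]
    · rw [Finset.sum_eq_single l (fun j _ hj => by simp [hj]) (by simp), Pi.single_eq_same]
  · rintro _ _ ⟨a, ha, rfl⟩ ⟨b, hb, rfl⟩
    refine ⟨a + b, fun l => Bd.add (ha l) (hb l), ?_⟩
    simp only [Pi.add_apply, map_add, add_smul, Finset.sum_add_distrib]
  · rintro ⟨a, ha, rfl⟩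
    exact sum_mem fun l _ => smul_mem_glat (ha l) ⟨l, rfl⟩

theorem mem_lat_range {I : Type} [Fintype I] {e : I → V} : x ∈ B.lat i r (Set.range e) ↔
    ∃ a : I → k, (∀ l, B.bd i r (a l)) ∧ x = ∑ l, a l • e l := mem_glat_range

theorem exists_range (hS : S.Finite) : ∃ (n : ℕ) (e : Fin n → V), S = Set.range e := by
  obtain ⟨n, e, -, h⟩ := hS.fin_param
  exact ⟨n, e, h.symm⟩

theorem glat_le_gspan : B.glat φ i r S ≤ gspan φ S :=
  glat_le fun a s _ hs => AddSubgroup.subset_closure ⟨a, s, hs, rfl⟩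

theorem na2_span : gspan φ S ≤ (Submodule.span k S).toAddSubgroup :=
  (AddSubgroup.closure_le _).2 fun _ ⟨_, _, hs, e⟩ =>
    e ▸ Submodule.smul_mem _ _ (Submodule.subset_span hs)

theorem mem_gspan_id : x ∈ gspan (RingHom.id k) S ↔ x ∈ Submodule.span k S := by
  refine ⟨fun h => na2_span h, fun h => ?_⟩
  obtain ⟨n, c, g, rfl⟩ := Submodule.mem_span_set'.1 h
  exact sum_mem fun l _ => AddSubgroup.subset_closure ⟨c l, g l, (g l).2, rfl⟩

theorem gspan_le_span (hx : x ∈ gspan φ S) : x ∈ Submodule.span k S := na2_span hx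

theorem span_of_lat (hx : x ∈ B.lat i r S) : x ∈ Submodule.span k S :=
  gspan_le_span (glat_le_gspan hx)

theorem exists_glat (B : Pls p k ι) (hx : x ∈ gspan φ S) :
    ∃ c, FinS c ∧ ∀ i, x ∈ B.glat φ i (c i) S := by
  induction hx using AddSubgroup.closure_induction with
  | mem x hx =>
    obtain ⟨a, s, hs, rfl⟩ := hx
    obtain ⟨c, hc, h⟩ := B.exists_bd (Set.finite_singleton a)
    exact ⟨c, hc, fun i => smul_mem_glat (h a rfl i) hs⟩
  | zero => exact ⟨_, finS_zero, fun _ => zero_mem _⟩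
  | add x y _ _ hx hy =>
    obtain ⟨c, hc, h⟩ := hx
    obtain ⟨c', hc', h'⟩ := hy
    exact ⟨_, hc.add hc', fun i => add_mem (glat_mono (by omega) subset_rfl (h i))
      (glat_mono (by omega) subset_rfl (h' i))⟩
  | neg x _ hx =>
    obtain ⟨c, hc, h⟩ := hx
    exact ⟨c, hc, fun i => neg_mem (h i)⟩

theorem exists_lat (B : Pls p k ι) (hx : x ∈ Submodule.span k S) :
    ∃ c, FinS c ∧ ∀ i, x ∈ B.lat i (c i) S := exists_glat B (mem_gspan_id.2 hx)

theorem glat_of_span (B : Pls p k ι) (hS : S.Finite) (h : ∀ x ∈ S, x ∈ gspan φ S') :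
    ∃ c, FinS c ∧ ∀ i r, B.glat φ i r S ≤ B.glat φ i (r + c i) S' := by
  obtain ⟨c, hc, H⟩ := exists_finS_all (P := fun x i n => x ∈ B.glat φ i n S') hS
    (fun _ _ _ _ hn hx => glat_mono (by omega) subset_rfl hx) fun x hx => exists_glat B (h x hx)
  exact ⟨c, hc, fun i r => glat_trans fun x hx => H x hx i⟩

theorem lat_of_span (B : Pls p k ι) (hS : S.Finite) (h : ∀ x ∈ S, x ∈ Submodule.span k S') :
    ∃ c, FinS c ∧ ∀ i r, B.lat i r S ≤ B.lat i (r + c i) S' :=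
  glat_of_span B hS fun x hx => mem_gspan_id.2 (h x hx)

theorem na2_sec0 (T : V →ₗ[k] W) (U : Submodule k V) :
    ∃ σ : W →ₗ[k] V, (∀ y, σ y ∈ U) ∧ ∀ x ∈ U, T (σ (T x)) = T x := by
  obtain ⟨g, hg⟩ := (T.domRestrict U).rangeRestrict.exists_rightInverse_of_surjective
    (LinearMap.range_rangeRestrict _)
  obtain ⟨g', hg'⟩ := g.exists_extend
  refine ⟨U.subtype.comp g', fun y => (g' y).2, fun x hx => ?_⟩
  have h1 := LinearMap.congr_fun hg' ⟨T x, ⟨x, hx⟩, rfl⟩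
  have h2 := congrArg Subtype.val (LinearMap.congr_fun hg ⟨T x, ⟨x, hx⟩, rfl⟩)
  exact (congrArg (fun z : U => T z) h1).trans h2

theorem na2_gspan_smul (a : k) (hx : x ∈ gspan φ S) : φ a • x ∈ gspan φ S := by
  induction hx using AddSubgroup.closure_induction with
  | mem y hy =>
    obtain ⟨b, s, hs, rfl⟩ := hy
    exact AddSubgroup.subset_closure ⟨a * b, s, hs, by rw [map_mul, mul_smul]⟩
  | zero => rw [smul_zero]; exact zero_mem _
  | add y z _ _ hy hz => rw [smul_add]; exact add_mem hy hz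
  | neg y _ hy => rw [smul_neg]; exact neg_mem hy

/-- A twisted linear section. -/
theorem na2_sec (T : V →+ W) (hT : ∀ a x, T (φ a • x) = φ a • T x) (S : Set V) :
    ∃ σ : W →+ V, (∀ a y, σ (φ a • y) = φ a • σ y) ∧ (∀ y, σ y ∈ gspan φ S) ∧
      ∀ x ∈ gspan φ S, T (σ (T x)) = T x := by
  have hs : ∀ (a : k) x, x ∈ gspan φ S → φ a • x ∈ gspan φ S := fun a _ hx => na2_gspan_smul a hx
  generalize gspan φ S = U at hs ⊢
  let mV : Module k V := Module.compHom V φ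
  let mW : Module k W := Module.compHom W φ
  obtain ⟨σ, h1, h2⟩ := na2_sec0 (k := k) { toFun := T, map_add' := T.map_add, map_smul' := hT }
    { carrier := U, add_mem' := add_mem, zero_mem' := zero_mem _,
      smul_mem' := fun a _ hx => hs a _ hx }
  exact ⟨σ.toAddMonoidHom, σ.map_smul, h1, h2⟩

/-- Saturation. Let `k` act through `φ` (`Module.compHom`). Take a linear `σ : W → V` with values in
the span of `S` and `T σ T = T` on that span; `K = (1 - σ T) '' S`, `η = σ (T η) + (1 - σ T) η`,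
`glat_map`, `glat_of_span` for `σ '' S'`. -/
theorem sat (B : Pls p k ι) (T : V →+ W) (hT : ∀ a x, T (φ a • x) = φ a • T x) (hS : S.Finite) :
    ∃ K : Set V, K.Finite ∧ (∀ x ∈ K, x ∈ gspan φ S ∧ T x = 0) ∧ ∀ S' : Set W, S'.Finite →
      ∃ c, FinS c ∧ ∀ i m r η, η ∈ B.glat φ i m S → T η ∈ B.glat φ i r S' →
        η ∈ B.glat φ i (r + c i) S ⊔ B.glat φ i m K := by
  obtain ⟨σ, h0, h1, h2⟩ := na2_sec T hT S
  have hs : ∀ x ∈ S, x ∈ gspan φ S := fun x hx =>
    AddSubgroup.subset_closure ⟨1, x, hx, by rw [map_one, one_smul]⟩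
  let ρ : V →+ V := AddMonoidHom.id V - σ.comp T
  have hρ : ∀ a x, ρ (φ a • x) = φ a • ρ x := fun a x => by simp [ρ, hT, h0, smul_sub]
  refine ⟨ρ '' S, hS.image _, ?_, fun S' hS' => ?_⟩
  · rintro _ ⟨x, hx, rfl⟩
    exact ⟨sub_mem (hs x hx) (h1 _), (map_sub T x _).trans (sub_eq_zero.2 (h2 x (hs x hx)).symm)⟩
  · obtain ⟨c, hc, h3⟩ := glat_of_span B (hS'.image σ) (S' := S) (φ := φ) (by
      rintro _ ⟨y, -, rfl⟩; exact h1 y)
    refine ⟨c, hc, fun i m r η hη hη' => ?_⟩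
    have e : η = σ (T η) + ρ η := by simp [ρ]
    rw [e]
    refine AddSubgroup.add_mem_sup (h3 i r ?_) ?_
    · rw [← glat_map σ h0]; exact ⟨_, hη', rfl⟩
    · rw [← glat_map ρ hρ]; exact ⟨_, hη, rfl⟩

theorem sat_lin (B : Pls p k ι) (T : V →ₗ[k] W) (hS : S.Finite) :
    ∃ K : Set V, K.Finite ∧ (∀ x ∈ K, x ∈ Submodule.span k S ∧ T x = 0) ∧ ∀ S' : Set W,
      S'.Finite → ∀ᶠ i in cofinite, ∀ m r η, η ∈ B.lat i m S → T η ∈ B.lat i r S' →
        η ∈ B.lat i r S ⊔ B.lat i m K := by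
  obtain ⟨K, h1, h2, h3⟩ := sat (φ := RingHom.id k) B T.toAddMonoidHom (fun a x => T.map_smul a x) hS
  refine ⟨K, h1, fun x hx => ⟨mem_gspan_id.1 (h2 x hx).1, (h2 x hx).2⟩, fun S' hS' => ?_⟩
  obtain ⟨c, hc, h4⟩ := h3 S' hS'
  filter_upwards [hc] with i hi m r η hη hη'
  have := h4 i m r η hη hη'
  rwa [hi, Nat.cast_zero, add_zero] at this

section nn

variable {Z Z' : Set (V × V)} {z : V × V}

theorem mem_NN (a : k) (hz : z ∈ Z) : a ^ p • z.1 - a • z.2 ∈ NN p k Z :=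
  AddSubgroup.subset_closure ⟨a, z, hz, rfl⟩

theorem NN_mono (h : Z ⊆ Z') : NN p k Z ≤ NN p k Z' :=
  AddSubgroup.closure_mono fun _ ⟨a, z, hz, e⟩ => ⟨a, z, h hz, e⟩

theorem NN_le {U : AddSubgroup V} (h : ∀ (a : k), ∀ z ∈ Z, a ^ p • z.1 - a • z.2 ∈ U) :
    NN p k Z ≤ U :=
  (AddSubgroup.closure_le _).2 fun _ ⟨a, z, hz, e⟩ => e ▸ h a z hz

variable [Fact p.Prime] [CharP k p]

theorem mem_NN_range {I : Type} [Fintype I] {z : I → V × V} : x ∈ NN p k (Set.range z) ↔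
    ∃ a : I → k, x = ∑ l, (a l ^ p • (z l).1 - a l • (z l).2) := by
  have hp := (Fact.out : p.Prime).ne_zero
  refine ⟨fun hx => ?_, fun ⟨a, e⟩ => e ▸ sum_mem fun l _ => mem_NN _ ⟨l, rfl⟩⟩
  induction hx using AddSubgroup.closure_induction with
  | mem x hx =>
    obtain ⟨a, _, ⟨l, rfl⟩, rfl⟩ := hx
    refine ⟨Pi.single l a, ?_⟩
    rw [Finset.sum_eq_single l (fun j _ hj => by simp [hj, hp]) (by simp), Pi.single_eq_same]
  | zero => exact ⟨0, by simp [hp]⟩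
  | add x y _ _ hx hy =>
    obtain ⟨a, rfl⟩ := hx
    obtain ⟨b, rfl⟩ := hy
    refine ⟨a + b, ?_⟩
    rw [← Finset.sum_add_distrib]
    refine Finset.sum_congr rfl fun l _ => ?_
    rw [Pi.add_apply, add_pow_char, add_smul, add_smul, sub_add_sub_comm]
  | neg x _ hx =>
    obtain ⟨a, rfl⟩ := hx
    refine ⟨-a, ?_⟩
    rw [← Finset.sum_neg_distrib]
    refine Finset.sum_congr rfl fun l _ => ?_
    rw [Pi.neg_apply, ← frobenius_def p (-a l), map_neg, frobenius_def, neg_smul, neg_smul, neg_sub']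

theorem glatF_le : B.glat (frobenius k p) i r S ≤ B.lat i (p * r) S :=
  glat_le fun _ _ ha hs => smul_mem_lat (Bd.pow ha p) hs

end nn

section lg

variable {R τ : Type} [CommRing R] [Algebra k R] {S S' : Set (Option τ → R)} {η : Option τ → R}

theorem vert_sub : vert S ⊆ S := fun _ h => h.1

theorem vert_mono (h : S ⊆ S') : vert S ⊆ vert S' := fun _ hη => ⟨h hη.1, hη.2⟩

theorem mem_lg : η ∈ B.lg i r S ↔
    ∃ α ∈ B.lat i r S, ∃ β ∈ B.lat i (r + 1) (vert S), α + β = η := AddSubgroup.mem_sup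

theorem lat_le_lg : B.lat i r S ≤ B.lg i r S := le_sup_left

theorem lg_le_lat : B.lg i r S ≤ B.lat i (r + 1) S :=
  sup_le (glat_mono (by omega) subset_rfl) (glat_mono le_rfl vert_sub)

theorem lg_mono (hr : r ≤ s) (h : S ⊆ S') : B.lg i r S ≤ B.lg i s S' :=
  sup_le_sup (glat_mono hr h) (glat_mono (by omega) (vert_mono h))

end lg

end Pool.Agent.ZFN
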