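import Pool.Agent.Lib.MP_751085_ag.ZF.N.A2

/-! Forms. -/

namespace Pool.Agent.ZFN

open Pool.Agent.ZCy
open scoped Classical

section ring

variable {R ι τ : Type} [CommRing R] (P : DR R ι)

theorem DR.dF_add (f g : R) : P.dF (f + g) = P.dF f + P.dF g := funext fun _ => map_add _ _ _

theorem DR.dF_zero : P.dF 0 = 0 := funext fun _ => map_zero _

theorem DR.d2_add (η η' : ι → R) : P.d2 (η + η') = P.d2 η + P.d2 η' := by
  funext i j
  simp only [DR.d2, Pi.add_apply, map_add]
  ring

/-- `dF` as an additive map -/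
def DR.dFA : R →+ ι → R := ⟨⟨P.dF, P.dF_zero⟩, P.dF_add⟩

/-- `d2` as an additive map -/
def DR.d2A : (ι → R) →+ ι → ι → R := AddMonoidHom.mk' P.d2 P.d2_add

theorem DR.dFA_apply (f : R) : P.dFA f = P.dF f := rfl

theorem DR.d2A_apply (η : ι → R) : P.d2A η = P.d2 η := rfl

theorem DR.d2_swap (η : ι → R) (i j : ι) : P.d2 η j i = -P.d2 η i j := (neg_sub _ _).symm

theorem dtw_swap (η : Option τ → R) (i j : Option τ) : dtw η j i = -dtw η i j := (neg_sub _ _).symm

theorem bdt_none (b : R) : bdt τ b none = b := rfl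

theorem bdt_some (b : R) (i : τ) : bdt τ b (some i) = 0 := rfl

theorem dtw_none_some (η : Option τ → R) (j : τ) : dtw η none (some j) = η (some j) := sub_zero _

theorem dtw_some_none (η : Option τ → R) (j : τ) : dtw η (some j) none = -η (some j) := zero_sub _

theorem dtw_some_some (η : Option τ → R) (i j : τ) : dtw η (some i) (some j) = 0 := sub_zero _

theorem dtw_bdt (b : R) : dtw (bdt τ b) = 0 := by
  funext i j
  cases i <;> cases j <;> simp [dtw, bdt]

theorem DR.d2_bdt (P : DR R (Option τ)) (b : R) : P.d2 (bdt τ b) = -dtw (P.dF b) := by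
  funext i j
  cases i <;> cases j <;> simp [dtw, bdt, DR.d2, DR.dF]

theorem eq_bdt {η : Option τ → R} (h : ∀ i, η (some i) = 0) : η = bdt τ (η none) := by
  funext i
  cases i
  exacts [rfl, h _]

theorem vert_eq (S : Set (Option τ → R)) : vert S = bdt τ '' {b | bdt τ b ∈ S} := by
  ext η
  exact ⟨fun h => ⟨η none, show bdt τ _ ∈ S from eq_bdt h.2 ▸ h.1, (eq_bdt h.2).symm⟩,
    fun ⟨_, h, e⟩ => e ▸ ⟨h, fun _ => rfl⟩⟩

theorem DR.two_mono (P : DR R (Option τ)) {S S' : Set (Option τ → R)} (h : S ⊆ S') :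
    P.two S ⊆ P.two S' := Set.union_subset_union (Set.image_mono h) (Set.image_mono h)

theorem DR.two_finite (P : DR R (Option τ)) {S : Set (Option τ → R)} (h : S.Finite) :
    (P.two S).Finite := (h.image _).union (h.image _)

variable (k : Type) [Field k] [Algebra k R]

/-- `bdt` as a linear map -/
def bdtL (τ : Type) : R →ₗ[k] Option τ → R where
  toFun := bdt τ
  map_add' a b := by funext i; cases i <;> simp [bdt]
  map_smul' a b := by funext i; cases i <;> simp [bdt]

/-- `dtw` as a linear map -/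
def dtwL : (Option τ → R) →ₗ[k] Option τ → Option τ → R where
  toFun := dtw
  map_add' a b := by funext i j; cases i <;> cases j <;> simp [dtw, bdt, add_comm]
  map_smul' a b := by funext i j; cases i <;> cases j <;> simp [dtw, bdt]

/-- the relative part of a form -/
def relL : (Option τ → R) →ₗ[k] τ → R := LinearMap.funLeft k R some

/-- the row of `dt` of a two-form -/
def rowL : (Option τ → Option τ → R) →ₗ[k] τ → R := (relL k).comp (LinearMap.proj none)

/-- the relative part of a two-form -/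
def rel2L : (Option τ → Option τ → R) →ₗ[k] τ → τ → R where
  toFun ω i j := ω (some i) (some j)
  map_add' _ _ := rfl
  map_smul' _ _ := rfl

variable {k} {P : DR R (Option τ)} {t : k} {D : Derivation ℤ k k} (h : P.Cmp t D)

include h

theorem DR.Cmp.d_smul_some (i : τ) (a : k) (f : R) : P.d (some i) (a • f) = a • P.d (some i) f :=
  by
  rw [Algebra.smul_def, Derivation.leibniz, h.ds, smul_zero, add_zero, Algebra.smul_def a,
    smul_eq_mul]

theorem DR.Cmp.d_smul_none (a : k) (f : R) : P.d none (a • f) = a • P.d none f + D a • f := by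
  rw [Algebra.smul_def, Derivation.leibniz, h.d0, Algebra.smul_def a, Algebra.smul_def (D a),
    smul_eq_mul, smul_eq_mul, mul_comm f]

theorem DR.Cmp.dF_smul (a : k) (f : R) : P.dF (a • f) = a • P.dF f + D a • bdt τ f := by
  funext i
  cases i <;> simp [DR.dF, bdt, h.d_smul_none, h.d_smul_some]

theorem DR.Cmp.d2_smul (a : k) (η : Option τ → R) :
    P.d2 (a • η) = a • P.d2 η + D a • dtw η := by
  funext i j
  cases i <;> cases j <;> simp [DR.d2, dtw, bdt, h.d_smul_none, h.d_smul_some, smul_sub] <;> abel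

theorem DR.Cmp.drel_smul (a : k) (η : Option τ → R) : P.drel (a • η) = a • P.drel η := by
  funext i j
  simp [DR.drel, DR.d2, h.d_smul_some, smul_sub]

/-- `drel` as a linear map -/
def DR.Cmp.drelL : (Option τ → R) →ₗ[k] τ → τ → R where
  toFun := P.drel
  map_add' a b := by funext i j; exact congrFun (congrFun (P.d2_add a b) _) _
  map_smul' := h.drel_smul

theorem DR.Cmp.d2_mem_span {S : Set (Option τ → R)} {η : Option τ → R}
    (hη : η ∈ Submodule.span k S) : P.d2 η ∈ Submodule.span k (P.two S) := by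
  suffices H : P.d2A η ∈ Submodule.span k (P.two S) ∧ dtwL k η ∈ Submodule.span k (P.two S) from H.1
  induction hη using Submodule.span_induction with
  | mem η hη => exact ⟨Submodule.subset_span (Or.inl ⟨η, hη, rfl⟩),
      Submodule.subset_span (Or.inr ⟨η, hη, rfl⟩)⟩
  | zero => simp only [map_zero, Submodule.zero_mem, and_self]
  | add a b _ _ h1 h2 => simpa only [map_add] using And.intro (add_mem h1.1 h2.1) (add_mem h1.2 h2.2)
  | smul a b _ h1 =>
    rw [map_smul (dtwL k), DR.d2A_apply, h.d2_smul]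
    exact ⟨add_mem (Submodule.smul_mem _ _ h1.1) (Submodule.smul_mem _ _ h1.2),
      Submodule.smul_mem _ _ h1.2⟩

end ring

section field

variable {p : ℕ} [Fact p.Prime] {F ι : Type} [Field F] [CharP F p]

theorem der_pow_mul (D : Derivation ℤ F F) (c x : F) : D (c ^ p * x) = c ^ p * D x := by
  rw [Derivation.leibniz, Derivation.leibniz_pow, ← Nat.cast_smul_eq_nsmul F, CharP.cast_eq_zero,
    zero_smul, smul_zero, add_zero, smul_eq_mul]

theorem DR.gam_add (P : DR F ι) (ω ω' : ι → F) : P.gam p (ω + ω') = P.gam p ω + P.gam p ω' := by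
  funext i
  simp only [DR.gam, Pi.add_apply, add_pow_char, add_mul]

theorem DR.gam_zero (P : DR F ι) : P.gam p 0 = 0 := by
  funext i
  simp [DR.gam, (Fact.out : p.Prime).ne_zero]

theorem DR.d2_gam (P : DR F ι) (ω : ι → F) : P.d2 (P.gam p ω) = 0 := by
  funext i j
  by_cases h : i = j
  · simp [DR.d2, h]
  · simp only [DR.d2, DR.gam, der_pow_mul, Derivation.leibniz_pow, P.ne i j h, P.ne j i (Ne.symm h),
      smul_zero, mul_zero, sub_zero, Pi.zero_apply]

theorem PB.d2_dF (P : PB p F ι) (h : F) : P.d2 (P.dF h) = 0 := by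
  funext i j
  exact sub_eq_zero.2 (P.comm i j h)

theorem DR.pair_dF (P : DR F ι) (h : F) : P.Pair p (P.dF h, 0) := ⟨h, by rw [P.gam_zero, add_zero]⟩

theorem DR.pair_gam (P : DR F ι) (ω : ι → F) : P.Pair p (P.gam p ω, ω) := ⟨0, by rw [P.dF_zero, zero_add]⟩

variable {τ : Type}

/-- `t ^ j y ^ p dt` is exact for `j < p - 1` -/
theorem DR.pair_low (P : DR F (Option τ)) (y : F) {j : ℕ} (hj : j + 1 < p) :
    P.Pair p (bdt τ (P.u none ^ j * y ^ p), 0) := by
  have h0 : ((j + 1 : ℕ) : F) ≠ 0 := fun h =>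
    (Nat.le_of_dvd j.succ_pos ((CharP.cast_eq_zero_iff F p _).1 h)).not_gt hj
  refine ⟨y ^ p * (((j + 1 : ℕ) : F)⁻¹ * P.u none ^ (j + 1)), ?_⟩
  have h1 : ∀ i, P.d i ((j + 1 : ℕ) : F)⁻¹ = 0 := fun i => by
    rw [Derivation.leibniz_inv, Derivation.map_natCast, smul_zero]
  rw [P.gam_zero, add_zero]
  funext i
  rw [DR.dF, der_pow_mul, Derivation.leibniz, h1, smul_zero, add_zero, Derivation.leibniz_pow]
  cases i with
  | none =>
    rw [P.self, ← Nat.cast_smul_eq_nsmul F, smul_eq_mul, smul_eq_mul, smul_eq_mul,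
      inv_mul_cancel_left₀ h0, mul_one, mul_comm]
    rfl
  | some i => simp [P.ne _ _ (Option.some_ne_none i), bdt]

theorem DR.pair_top (P : DR F (Option τ)) (y : F) :
    P.Pair p (bdt τ (P.u none ^ (p - 1) * y ^ p), bdt τ y) := by
  refine ⟨0, ?_⟩
  rw [P.dF_zero, zero_add]
  funext i
  cases i <;> simp [DR.gam, bdt, mul_comm, (Fact.out : p.Prime).ne_zero]

variable {k ι G : Type} [Field k] [CharP k p] [Algebra k F] [AddCommGroup G]

theorem DR.Pair.smul {P : DR F ι} {z : (ι → F) × (ι → F)} (hz : P.Pair p z) (a : k) :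
    P.Pair p (a ^ p • z.1, a • z.2) := by
  obtain ⟨h, e⟩ := hz
  refine ⟨a ^ p • h, ?_⟩
  funext i
  simp only [e, Pi.smul_apply, Pi.add_apply, DR.dF, DR.gam]
  simp only [Algebra.smul_def, map_pow, der_pow_mul]
  ring

theorem FD.δ_pair (Φ : FD p k ι F τ G) {z : (Option τ → F) × (Option τ → F)}
    (hz : Φ.P.Pair p z) : Φ.δ z.1 = Φ.δ z.2 := by
  obtain ⟨h, e⟩ := hz
  rw [e, map_add, Φ.δd, Φ.δg, zero_add]

theorem FD.δ_NN (Φ : FD p k ι F τ G) {Z : Set ((Option τ → F) × (Option τ → F))} (hZ : Φ.Prs Z)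
    {η η' : Option τ → F} (h : η - η' ∈ NN p k Z) : Φ.δ η' = Φ.δ η := by
  have h1 : NN p k Z ≤ Φ.δ.ker := (AddSubgroup.closure_le _).2 (by
    rintro _ ⟨a, z, hz, rfl⟩
    exact (map_sub _ _ _).trans (sub_eq_zero.2 (Φ.δ_pair ((hZ.2 z hz).smul a))))
  exact (sub_eq_zero.1 ((map_sub _ _ _).symm.trans (h1 h))).symm

theorem FD.Prs.union {Φ : FD p k ι F τ G} {Z Z' : Set ((Option τ → F) × (Option τ → F))}
    (h : Φ.Prs Z) (h' : Φ.Prs Z') : Φ.Prs (Z ∪ Z') := ⟨h.1.union h'.1, fun z hz => hz.elim (h.2 z) (h'.2 z)⟩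

end field

end Pool.Agent.ZFN
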