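import Pool.Agent.Lib.MP_751085_ag.ZF.N.A3

/-! The theorem of Cartier, absolute and relative. -/

namespace Pool.Agent.ZFN

open Pool.Agent.ZCy
open scoped Classical

variable {p : ℕ} [Fact p.Prime] {F ι τ : Type} [Field F] [CharP F p]

omit [Fact p.Prime] [CharP F p] in
theorem n4_iter (d : Derivation ℤ F F) {u c : F} (hu : d u = 1) (hc : d c = 0) (j k : ℕ) :
    d^[k] (u ^ j * c) = (j.descFactorial k : F) * (u ^ (j - k) * c) := by
  induction k with
  | zero => simp
  | succ k ih =>
    rw [Function.iterate_succ_apply', ih, Nat.descFactorial_succ]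
    simp only [Derivation.leibniz, Derivation.leibniz_pow, Derivation.map_natCast, hu, hc,
      smul_eq_mul, nsmul_eq_mul, Nat.cast_mul, Nat.sub_sub]
    ring

omit [Fact p.Prime] [CharP F p] in
theorem n4_comm {d e : Derivation ℤ F F} (h : ∀ z, e (d z) = d (e z)) (k : ℕ) (y : F) :
    e (d^[k] y) = d^[k] (e y) := (Function.Commute.iterate_right (f := e) (g := d) h k) y

theorem n4_fac {n : ℕ} (h : n < p) : (n.factorial : F) ≠ 0 := fun e =>
  absurd ((Fact.out : p.Prime).dvd_factorial.1 ((CharP.cast_eq_zero_iff F p _).1 e)) (by omega)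

omit [Fact p.Prime] [CharP F p] in
theorem n4_div (d : Derivation ℤ F F) {y : F} (h : d y = 0) (n : ℕ) : d (y / n) = 0 := by
  simp [div_eq_mul_inv, Derivation.leibniz, Derivation.leibniz_inv, h]

theorem n4_tay (d : Derivation ℤ F F) {u : F} (hu : d u = 1) (n : ℕ) (hn : n ≤ p) (y : F)
    (hy : d^[n] y = 0) :
    ∃ c : ℕ → F, y = ∑ j ∈ Finset.range n, u ^ j * c j ∧ (∀ j, d (c j) = 0) ∧
      ∀ e : Derivation ℤ F F, e u = 0 → (∀ z, e (d z) = d (e z)) → e y = 0 → ∀ j, e (c j) = 0 := by
  induction n generalizing y with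
  | zero => exact ⟨0, by simpa using hy, by simp, by simp⟩
  | succ n ih =>
    have ha : d (d^[n] y / n.factorial) = 0 :=
      n4_div d (by rwa [Function.iterate_succ_apply'] at hy) _
    obtain ⟨c, h1, h2, h3⟩ := ih (by omega) (y - u ^ n * (d^[n] y / n.factorial)) (by
      rw [iterate_map_sub, n4_iter d hu ha, Nat.descFactorial_self, Nat.sub_self, pow_zero, one_mul,
        mul_div_cancel₀ _ (n4_fac (p := p) hn), sub_self])
    refine ⟨Function.update c n (d^[n] y / n.factorial), ?_, fun j => ?_, fun e e1 e2 e3 j => ?_⟩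
    · rw [Finset.sum_range_succ, Function.update_self, Finset.sum_congr rfl fun j hj => by
        rw [Function.update_of_ne (Finset.mem_range.1 hj).ne], ← h1, sub_add_cancel]
    · rcases eq_or_ne j n with rfl | h
      · rwa [Function.update_self]
      · rw [Function.update_of_ne h, h2]
    · have hb : e (d^[n] y / n.factorial) = 0 :=
        n4_div e (by rw [n4_comm e2, e3, iterate_map_zero]) _
      rcases eq_or_ne j n with rfl | h
      · rwa [Function.update_self]
      · rw [Function.update_of_ne h]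
        exact h3 e e1 e2 (by simp [Derivation.leibniz, Derivation.leibniz_pow, e1, e3, hb]) j

/-- Taylor expansion. `c j = pr (d^[j] y) / j!` with `pr y = ∑ i < p, (-u) ^ i / i! * d^[i] y`;
or: induction on the least `n ≤ p` with `d^[n] y = 0`, subtract `u ^ (n-1) d^[n-1] y / (n-1)!`. -/
theorem tay1 (d : Derivation ℤ F F) {u : F} (hu : d u = 1) (hn : ∀ y, d^[p] y = 0) (y : F) :
    ∃ c : ℕ → F, y = ∑ j ∈ Finset.range p, u ^ j * c j ∧ (∀ j, d (c j) = 0) ∧
      ∀ e : Derivation ℤ F F, e u = 0 → (∀ z, e (d z) = d (e z)) → e y = 0 → ∀ j, e (c j) = 0 :=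
  n4_tay d hu p le_rfl y (hn y)

/-- the top coefficient; Wilson's theorem `ZMod.wilsons_lemma` -/
theorem iter_top (d : Derivation ℤ F F) {u : F} (hu : d u = 1) {c : ℕ → F} (hc : ∀ j, d (c j) = 0) :
    d^[p - 1] (∑ j ∈ Finset.range p, u ^ j * c j) = -c (p - 1) := by
  have h1 : p = p - 1 + 1 := by have := (Fact.out : p.Prime).pos; omega
  have h2 : ∀ n ≤ p - 1, d^[p - 1] (∑ j ∈ Finset.range n, u ^ j * c j) = 0 := fun n hn => by
    induction n with
    | zero => simp [iterate_map_zero]
    | succ n ih =>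
      rw [Finset.sum_range_succ, iterate_map_add, ih (by omega), n4_iter d hu (hc _),
        Nat.descFactorial_of_lt hn]
      simp
  have h3 : ((p - 1).factorial : F) = -1 := by
    have := congrArg (ZMod.castHom (dvd_refl p) F) (ZMod.wilsons_lemma p)
    rwa [map_natCast, map_neg, map_one] at this
  have h4 : Finset.range p = Finset.range (p - 1 + 1) := by rw [← h1]
  rw [h4, Finset.sum_range_succ, iterate_map_add, h2 _ le_rfl, n4_iter d hu (hc _),
    Nat.descFactorial_self, h3]
  simp

/-- integration in one variable -/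
theorem integ1 (d : Derivation ℤ F F) {u : F} (hu : d u = 1) (hn : ∀ y, d^[p] y = 0) (y : F) :
    ∃ h c : F, y = d h + c * u ^ (p - 1) ∧ d c = 0 ∧ ∀ e : Derivation ℤ F F, e u = 0 →
      (∀ z, e (d z) = d (e z)) → e y = 0 → e h = 0 ∧ e c = 0 := by
  obtain ⟨c, h1, h2, h3⟩ := tay1 d hu hn y
  have h4 : Finset.range p = Finset.range (p - 1 + 1) := by
    have := (Fact.out : p.Prime).pos
    congr 1; omega
  refine ⟨∑ j ∈ Finset.range (p - 1), u ^ (j + 1) * (c j / (j + 1 : ℕ)), c (p - 1), ?_, h2 _,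
    fun e e1 e2 e3 => ⟨?_, h3 e e1 e2 e3 _⟩⟩
  · rw [h1, h4, Finset.sum_range_succ, map_sum, mul_comm (c _)]
    congr 1
    refine Finset.sum_congr rfl fun j hj => ?_
    have h5 : ((j + 1 : ℕ) : F) ≠ 0 := fun e => by
      have := Nat.le_of_dvd j.succ_pos ((CharP.cast_eq_zero_iff F p _).1 e)
      have := Finset.mem_range.1 hj
      omega
    have := n4_iter d hu (n4_div d (h2 j) (j + 1)) (j + 1) 1
    rw [Function.iterate_one, Nat.descFactorial_one, Nat.add_sub_cancel] at this
    rw [this, mul_left_comm, mul_div_cancel₀ _ h5]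
  · rw [map_sum]
    refine Finset.sum_eq_zero fun j _ => ?_
    rw [Derivation.leibniz, n4_div e (h3 e e1 e2 e3 j), Derivation.leibniz_pow, e1]
    simp

/-- Induction on `s`. Subtract `dh`; then `c j = - d j ^ (p-1) η j` is killed by the new `d a`
(`d a η j = d j η a`, `nil`), so `η a` is killed by the `d j`; apply `integ1` to `η a`. -/
theorem PB.rel (P : PB p F ι) (s : Finset ι) (η : ι → F)
    (H : ∀ i ∈ s, ∀ j ∈ s, P.d i (η j) = P.d j (η i)) : ∃ (h : F) (c : ι → F),
      ∀ j ∈ s, η j = P.d j h + c j * P.u j ^ (p - 1) ∧ ∀ i ∈ s, P.d i (c j) = 0 := by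
  induction s using Finset.induction_on with
  | empty => exact ⟨0, 0, by simp⟩
  | insert a s ha ih =>
    obtain ⟨h, c, hc⟩ := ih fun i hi j hj =>
      H i (Finset.mem_insert_of_mem hi) j (Finset.mem_insert_of_mem hj)
    have h1 : p - 1 + 1 = p := by have := (Fact.out : p.Prime).pos; omega
    have ne : ∀ j ∈ s, a ≠ j := fun j hj e => ha (e ▸ hj)
    have cl : ∀ j ∈ s, P.d a (P.u j ^ (p - 1) * c j) = P.d j (η a - P.d a h) := fun j hj => by
      rw [map_sub, ← H a (Finset.mem_insert_self a s) j (Finset.mem_insert_of_mem hj), (hc j hj).1,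
        map_add, P.comm a j, mul_comm, add_sub_cancel_left]
    have k1 : ∀ j ∈ s, P.d a (c j) = 0 := fun j hj => by
      have e := congrArg (P.d a) (n4_iter (P.d j) (P.self j) ((hc j hj).2 j hj) (p - 1) (p - 1))
      rw [n4_comm (P.comm a j), cl j hj, ← Function.iterate_succ_apply, Nat.succ_eq_add_one, h1,
        P.nil, Nat.descFactorial_self, Nat.sub_self, pow_zero, one_mul, Derivation.leibniz,
        Derivation.map_natCast, smul_zero, add_zero, smul_eq_mul] at e
      exact (mul_eq_zero.1 e.symm).resolve_left (n4_fac (p := p) (by omega))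
    have k2 : ∀ j ∈ s, P.d j (η a - P.d a h) = 0 := fun j hj => by
      rw [← cl j hj, Derivation.leibniz, Derivation.leibniz_pow, k1 j hj, P.ne a j (ne j hj)]
      simp
    obtain ⟨g, b, e1, e2, e3⟩ := integ1 (P.d a) (P.self a) (P.nil a) (η a - P.d a h)
    have k3 := fun j hj => e3 (P.d j) (P.ne j a (ne j hj).symm) (P.comm j a) (k2 j hj)
    refine ⟨h + g, Function.update c a b, fun j hj => ?_⟩
    rcases Finset.mem_insert.1 hj with rfl | hj'
    · rw [Function.update_self]
      refine ⟨by rw [map_add, add_assoc, ← e1, add_sub_cancel], fun i hi => ?_⟩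
      rcases Finset.mem_insert.1 hi with rfl | hi
      exacts [e2, (k3 i hi).2]
    · rw [Function.update_of_ne (ne j hj').symm]
      refine ⟨by rw [map_add, (k3 j hj').1, add_zero, ← (hc j hj').1], fun i hi => ?_⟩
      rcases Finset.mem_insert.1 hi with rfl | hi
      exacts [k1 j hj', (hc j hj').2 i hi]

theorem PB.car [Fintype ι] (P : PB p F ι) {η : ι → F} (H : P.d2 η = 0) : ∃ ω, P.Pair p (η, ω) := by
  obtain ⟨h, c, hc⟩ := P.rel Finset.univ η fun i _ j _ =>
    sub_eq_zero.1 (congrFun (congrFun H i) j)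
  choose z hz using fun j => P.ker (c j) fun i => (hc j (Finset.mem_univ j)).2 i (Finset.mem_univ i)
  refine ⟨z, h, funext fun j => ?_⟩
  rw [show (η, z).1 j = η j from rfl, (hc j (Finset.mem_univ j)).1, hz j]
  rfl

theorem PB.pair_eq (P : PB p F ι) {z : (ι → F) × (ι → F)} (H : P.Pair p z) (i : ι) :
    z.2 i ^ p = -(P.d i)^[p - 1] (z.1 i) := by
  obtain ⟨h, e⟩ := H
  have hp := (Fact.out : p.Prime).pos
  have e1 : (P.d i)^[p - 1] (P.d i h) = 0 := by
    rw [← Function.iterate_succ_apply, Nat.succ_eq_add_one, Nat.sub_add_cancel hp, P.nil]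
  have e2 := iter_top (p := p) (P.d i) (P.self i) (c := fun j => if j = p - 1 then z.2 i ^ p else 0)
    fun j => by
      split_ifs
      · have e3 := der_pow_mul (p := p) (P.d i) (z.2 i) 1
        rwa [mul_one, Derivation.map_one_eq_zero, mul_zero] at e3
      · exact map_zero _
  simp only [mul_ite, mul_zero, Finset.sum_ite_eq', Finset.mem_range, if_true,
    if_pos (Nat.sub_one_lt hp.ne')] at e2
  rw [e]
  change _ = -(P.d i)^[p - 1] (P.d i h + z.2 i ^ p * P.u i ^ (p - 1))
  rw [iterate_map_add, e1, zero_add, mul_comm, e2, neg_neg]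

theorem PB.ker0 (P : PB p F (Option τ)) {y : F} (H : ∀ i, P.d (some i) y = 0) :
    ∃ z : ℕ → F, y = ∑ j ∈ Finset.range p, P.u none ^ j * z j ^ p := by
  obtain ⟨c, h1, h2, h3⟩ := tay1 (p := p) (P.d none) (P.self none) (P.nil none) y
  choose z hz using fun j => P.ker (c j) fun i => by
    cases i with
    | none => exact h2 j
    | some i => exact h3 _ (P.ne _ _ (Option.some_ne_none i)) (P.comm _ _) (H i) j
  exact ⟨z, h1.trans (Finset.sum_congr rfl fun j _ => by rw [hz j])⟩

theorem PB.lift [Fintype τ] (P : PB p F (Option τ)) {η : Option τ → F} (H : P.drel η = 0) :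
    ∃ (h g : F) (y : ℕ → Option τ → F),
      η = P.dF h + ∑ j ∈ Finset.range p, P.u none ^ j • P.gam p (y j) + bdt τ g := by
  have hm : ∀ i : τ, some i ∈ Finset.univ.image (some : τ → Option τ) := fun i =>
    Finset.mem_image_of_mem _ (Finset.mem_univ i)
  obtain ⟨h, c, hc⟩ := P.rel (Finset.univ.image some) η fun i hi j hj => by
    obtain ⟨i, -, rfl⟩ := Finset.mem_image.1 hi
    obtain ⟨j, -, rfl⟩ := Finset.mem_image.1 hj
    exact sub_eq_zero.1 (congrFun (congrFun H i) j)
  choose z hz using fun j => P.ker0 (y := c (some j)) fun i => (hc _ (hm j)).2 _ (hm i)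
  refine ⟨h, η none - (P.dF h + ∑ j ∈ Finset.range p,
    P.u none ^ j • P.gam p fun i => i.elim 0 fun i => z i j) none,
    fun j i => i.elim 0 fun i => z i j, funext fun i => ?_⟩
  cases i with
  | none => rw [Pi.add_apply, bdt_none, add_sub_cancel]
  | some i =>
    rw [Pi.add_apply, bdt_some, add_zero, (hc _ (hm i)).1, hz i, Pi.add_apply, Finset.sum_apply,
      Finset.sum_mul]
    exact congrArg _ (Finset.sum_congr rfl fun j _ => mul_assoc _ _ _)

/-- a filtration by finite dimensional spaces -/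
structure Filt (p : ℕ) (k : Type) [Field k] [Algebra k F] (P : DR F ι) (V : ℕ → Submodule k F) :
    Prop where
  mono : Monotone V
  fin : ∀ n, FiniteDimensional k (V n)
  der : ∃ c, ∀ n i y, y ∈ V n → P.d i y ∈ V (n + c)
  root : ∀ n y, y ^ p ∈ V (p * n) → y ∈ V n

/-- `E` spans the forms with coordinates in `V (p R)`, `R` large; `car`, `pair_eq` -/
theorem stab_of_filt [Fintype ι] {k : Type} [Field k] [Algebra k F] (P : PB p F ι)
    {V : ℕ → Submodule k F} (hV : Filt p k P.toDR V) {S : Set (ι → F)} {n : ℕ}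
    (hS : ∀ η ∈ S, ∀ i, η i ∈ V n) :
    ∃ E : Set (ι → F), E.Finite ∧ (∀ η ∈ S, η ∈ Submodule.span k E) ∧ P.Stab p k E := by
  obtain ⟨c, hc⟩ := hV.der
  have it : ∀ (m N : ℕ) i y, y ∈ V N → (P.d i)^[m] y ∈ V (N + m * c) := by
    intro m N i y hy
    induction m with
    | zero => simpa using hy
    | succ m ih =>
      rw [Function.iterate_succ_apply', Nat.succ_mul, ← add_assoc]
      exact hc _ i _ ih
  have := hV.fin (n + c)
  obtain ⟨E, hE⟩ : (Submodule.pi Set.univ fun _ : ι => V (n + c)).FG :=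
    Submodule.fg_pi fun _ => Submodule.FG.of_finite
  refine ⟨E, E.finite_toSet, fun η hη => ?_, fun ζ hζ h0 => ?_⟩
  · rw [hE]
    exact fun i _ => hV.mono (Nat.le_add_right n c) (hS η hη i)
  · obtain ⟨ω, hω⟩ := P.car h0
    refine ⟨ω, ?_, hω⟩
    rw [hE] at hζ ⊢
    refine fun i _ => hV.root _ _ ?_
    rw [show ω i ^ p = _ from P.pair_eq hω i]
    refine neg_mem (hV.mono ?_ (it _ _ i _ (hζ i trivial)))
    obtain ⟨q, hq⟩ := Nat.exists_eq_add_of_le' (Fact.out : p.Prime).one_le
    rw [hq, Nat.add_sub_cancel]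
    nlinarith [Nat.zero_le (q * n)]

end Pool.Agent.ZFN
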