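import Pool.Agent.Lib.MP_751085_ag.ZF.N.A4

/-! Components with respect to the basis of powers of `t`. -/

namespace Pool.Agent.ZFN

open Pool.Agent.ZCy
open scoped Classical
open Filter

variable {p : ℕ} [Fact p.Prime] {k ι : Type} [Field k] [CharP k p] (B : Pls p k ι)

theorem na5_d (D : Derivation ℤ k k) (y : k) : D (y ^ p) = 0 := by
  have := der_pow_mul (p := p) D y 1
  rwa [mul_one, D.map_one_eq_zero, mul_zero] at this

omit [Fact p.Prime] in
theorem na5_abs {D : Derivation ℤ k k} {t : k} (ht : D t = 1) {n : ℕ} (hn : n ≤ p) :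
    ∃ N : ℕ, ∀ Q : ℕ → AddSubgroup k, Monotone Q → (∀ r, ∀ a ∈ Q r, D a ∈ Q (r + 1)) →
      (∀ r, ∀ a ∈ Q r, t * a ∈ Q (r + 1)) → (∀ r (l : ℕ), ∀ a ∈ Q r, (l : k)⁻¹ * a ∈ Q r) →
      ∀ (r : ℕ) (x : ℕ → k), (∀ j, D (x j) = 0) → ∑ j ∈ Finset.range n, t ^ j * x j ∈ Q r →
        ∀ j < n, x j ∈ Q (r + N) := by
  induction n with
  | zero => exact ⟨0, fun _ _ _ _ _ _ _ _ _ _ h => absurd h (Nat.not_lt_zero _)⟩
  | succ n ih =>
    obtain ⟨N, hN⟩ := ih (by omega)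
    refine ⟨N + n + 1, fun Q h1 h2 h3 h4 r x hx h => ?_⟩
    have hp : ∀ j r, ∀ a ∈ Q r, t ^ j * a ∈ Q (r + j) := fun j r a ha => by
      induction j with
      | zero => rwa [pow_zero, one_mul]
      | succ j ih => rw [pow_succ', mul_assoc]; exact h3 _ _ ih
    have h5 : ∀ j < n, x (j + 1) ∈ Q (r + 1 + N) := fun j hj => by
      have h6 := h4 _ (j + 1) _ (hN Q h1 h2 h3 h4 (r + 1) (fun j => (j + 1 : ℕ) * x (j + 1))
        (fun j => by rw [← nsmul_eq_mul, map_nsmul, hx, smul_zero]) ?_ j hj)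
      · rwa [inv_mul_cancel_left₀ ((CharP.cast_eq_zero_iff k p _).not.2
          (Nat.not_dvd_of_pos_of_lt j.succ_pos (by omega)))] at h6
      have h7 := h2 _ _ h
      rw [Finset.sum_range_succ', map_add, pow_zero, one_mul, hx, add_zero, map_sum] at h7
      refine Eq.subst (motive := (· ∈ Q (r + 1))) (Finset.sum_congr rfl fun j _ => ?_) h7
      rw [Derivation.leibniz, hx, smul_zero, zero_add, Derivation.leibniz_pow, ht,
        Nat.add_sub_cancel, smul_eq_mul, smul_eq_mul, nsmul_eq_mul]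
      ring
    rintro (_ | j) hj
    · rw [Finset.sum_range_succ', pow_zero, one_mul] at h
      refine (AddSubgroup.add_mem_cancel_left _ (sum_mem fun j hj => ?_)).1
        (h1 (Nat.le_add_right _ _) h)
      have := Finset.mem_range.1 hj
      exact h1 (by omega) (hp (j + 1) _ _ (h5 j this))
    · exact h1 (by omega) (h5 j (by omega))

/-- the elements with a given bound -/
def na5_sub (w : Vl k) (ϖ : k) (r : ℤ) : AddSubgroup k where
  carrier := {a | Bd w ϖ r a}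
  add_mem' := Bd.add
  zero_mem' := bd_zero w ϖ r
  neg_mem' := Bd.neg

omit [Fact p.Prime] [CharP k p] in
theorem na5_good : ∀ᶠ i in cofinite, B.bd i 0 B.t ∧ (∀ z, B.v i z ≤ 1 → B.v i (B.D z) ≤ 1) ∧
    B.bd i (-1) (B.D (B.π i) - 1) := by
  obtain ⟨c, hc, h⟩ := B.der
  filter_upwards [B.fs B.t, hc, B.dπ] with i h1 h2 h3
  refine ⟨bd_iff.2 h1, fun z hz => (bd_iff (ϖ := B.π i)).1 ?_, (bd_neg_one (B.unif i)).2 h3⟩
  have := h i z hz
  rwa [h2] at this

omit [Fact p.Prime] [CharP k p] in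
theorem na5_iter {w : Vl k} {ϖ : k} (h : VP w ϖ) {D : Derivation ℤ k k}
    (hD : ∀ z, w z ≤ 1 → w (D z) ≤ 1) (h1 : Bd w ϖ (-1) (D ϖ - 1)) (j : ℕ) :
    Bd w ϖ j (D^[j] ϖ⁻¹ - (-1) ^ j * j.factorial * ϖ⁻¹ ^ (j + 1)) := by
  induction j with
  | zero => simpa using bd_zero w ϖ 0
  | succ j ih =>
    have h2 : Bd w ϖ (j + 1 : ℕ) ((-1) ^ j * j.factorial * ϖ⁻¹ ^ (j + 1)) :=
      h.mul_le (h.mul ((bd_one w ϖ).neg.pow j) (bd_nat w ϖ _)) (h.inv.pow (j + 1)) (by omega)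
    have h3 := (h.mono ih (s := (j + 1 : ℕ)) (by omega)).add h2
    rw [sub_add_cancel] at h3
    have h4 := (h.der_lead hD h1 h3).sub
      (h.mul_le (bd_nat w ϖ (j + 1)) (h.mul ih h.inv) (by omega))
    refine Eq.subst (motive := Bd w ϖ _) ?_ h4
    rw [Function.iterate_succ_apply', Nat.factorial_succ]
    push_cast
    ring

/-- `tay1`, `ker` -/
theorem Pls.span (a : k) : ∃ y : ℕ → k, a = ∑ j ∈ Finset.range p, B.t ^ j * y j ^ p := by
  obtain ⟨c, h1, h2, -⟩ := tay1 B.D B.Dt B.nil a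
  choose z hz using fun j => B.ker _ (h2 j)
  exact ⟨z, by simpa only [hz] using h1⟩

/-- Scale by `π ^ (p m)`. Descending induction on `j`: apply `D^[j]` to
`∑ i ≤ j, t ^ i y i ^ p` and get `j! y j ^ p`. -/
theorem Pls.comp : ∃ c, FinS c ∧ ∀ (i : ι) (m : ℤ) (y : ℕ → k),
    B.bd i (p * m) (∑ j ∈ Finset.range p, B.t ^ j * y j ^ p) → ∀ j < p, B.bd i (m + c i) (y j) := by
  obtain ⟨c, hc, h⟩ := B.der
  obtain ⟨c', hc', h'⟩ := B.exists_bd (Set.finite_singleton B.t)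
  obtain ⟨N, hN⟩ := na5_abs B.Dt (le_refl p)
  have hp : (1 : ℤ) ≤ p := by exact_mod_cast (Fact.out : p.Prime).pos
  refine ⟨_, (hc.add hc').mul N, fun i m y hy j hj => bd_of_pow (Fact.out : p.Prime).ne_zero ?_⟩
  have v := B.vp i
  have h0 : (0 : ℤ) ≤ c i := Nat.cast_nonneg _
  have h0' : (0 : ℤ) ≤ c' i := Nat.cast_nonneg _
  have := hN (fun r => na5_sub (B.v i) (B.π i) (p * (m + r * (c i + c' i))))
    (fun r r' e a ha => v.mono ha (by gcongr))
    (fun r a ha => v.mono (v.der_p (h i) (dvd_mul_right _ _) ha) (by push_cast; nlinarith))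
    (fun r a ha => v.mul_le (h' _ rfl i) ha (by push_cast; nlinarith))
    (fun r l a ha => v.mul_le (bd_nat_inv _ _ l) ha (zero_add _).le) 0 _
    (fun j => na5_d B.D (y j)) (v.mono hy (by simp)) j hj
  exact v.mono this (by simp)

/-- `D^[j] π⁻¹ = (-1) ^ j j! π ^ (-j-1)` modulo `π ^ (-j) O` (`VP.der_lead`), `iter_top`; so
`(y (p-1) - π⁻¹) ^ p` has a pole of order `< p` -/
theorem Pls.kap : ∀ᶠ i in cofinite, ∀ y : ℕ → k,
    (B.π i)⁻¹ = ∑ j ∈ Finset.range p, B.t ^ j * y j ^ p →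
      (∀ j < p, B.bd i 1 (y j)) ∧ B.bd i 0 (y (p - 1) - (B.π i)⁻¹) := by
  obtain ⟨c, hc, h⟩ := B.comp
  have hp := (Fact.out : p.Prime).pos
  filter_upwards [hc, na5_good B] with i h0 ⟨_, h1, h2⟩ y hy
  have v := B.vp i
  refine ⟨fun j hj => v.mono (h i 1 y (hy ▸ v.mono v.inv (by omega)) j hj) (by omega), ?_⟩
  have h3 := na5_iter v h1 h2 (p - 1)
  have h4 := iter_top B.D B.Dt fun j => na5_d (p := p) B.D (y j)
  have h5 : (((p - 1).factorial : ℕ) : k) = -1 := by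
    have := congrArg (ZMod.castHom (dvd_refl p) k) (ZMod.wilsons_lemma p)
    rwa [map_natCast, map_neg, map_one] at this
  rw [← hy] at h4
  rw [h4, h5, ← pow_succ, Nat.sub_add_cancel hp, neg_one_pow_char, neg_one_mul, neg_sub_neg,
    ← sub_pow_char] at h3
  have h6 := v.lt_one (v.mul (v.self.pow p) h3) (by omega)
  rw [← mul_pow, map_pow, pow_lt_one_iff hp.ne', ← bd_neg_one (B.unif i)] at h6
  have h7 := (v.mul v.inv h6).neg
  rwa [inv_mul_cancel_left₀ v.ne, neg_sub] at h7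

/-- the conditions that hold at a good place -/
theorem Pls.good : ∀ᶠ i in cofinite, B.bd i 0 B.t ∧ (∀ z, B.v i z ≤ 1 → B.v i (B.D z) ≤ 1) ∧
    B.bd i (-1) (B.D (B.π i) - 1) := na5_good B

/-- `a = b ^ p` up to lower order -/
theorem Pls.root (i : ι) {m : ℤ} {a : k} (ha : B.bd i (p * m) a) :
    ∃ b, B.bd i m b ∧ B.bd i (p * m - 1) (a - b ^ p) := by
  obtain ⟨b, hb⟩ := B.perf i _ ha
  have v := B.vp i
  have h1 := (bd_neg_one (B.unif i)).2 hb
  have h2 := (bd_iff.2 ha).sub (v.mono h1 (by omega))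
  rw [sub_sub_cancel, ← mul_zero (p : ℤ)] at h2
  refine ⟨B.π i ^ (-m) * b, v.zpow_mul.2 ?_, v.mono (v.zpow_mul (s := p * m).1 ?_)
    (neg_add_eq_sub _ _).le⟩
  · rw [add_neg_cancel]
    exact bd_of_pow (Fact.out : p.Prime).ne_zero h2
  · rwa [mul_sub, mul_pow, ← zpow_natCast (_ ^ (-m)), ← zpow_mul, ← mul_assoc, ← zpow_add₀ v.ne,
      neg_mul, mul_comm m, add_neg_cancel, zpow_zero, one_mul]

variable {V : Type} [AddCommGroup V] [Module k V]

/-- the multiples of the elements of `S` by the powers of `t` -/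
def tmul (p : ℕ) (t : k) (S : Set V) : Set V := {x | ∃ j < p, ∃ s ∈ S, x = t ^ j • s}

omit [Fact p.Prime] [CharP k p] in
theorem tmul_finite (t : k) {S : Set V} (hS : S.Finite) : (tmul p t S).Finite :=
  ((Set.finite_Iio p).image2 (fun j s => t ^ j • s) hS).subset
    fun _ ⟨j, hj, s, hs, e⟩ => ⟨j, hj, s, hs, e.symm⟩

theorem Pls.lat_le_glatF : ∃ c, FinS c ∧ ∀ (i : ι) (m : ℤ) (S : Set V),
    B.lat i (p * m) S ≤ B.glat (frobenius k p) i (m + c i) (tmul p B.t S) := by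
  obtain ⟨c, hc, h⟩ := B.comp
  refine ⟨c, hc, fun i m S => glat_le fun a s ha hs => ?_⟩
  obtain ⟨y, rfl⟩ := B.span a
  rw [RingHom.id_apply, Finset.sum_smul]
  refine sum_mem fun j hj => ?_
  rw [mul_comm, mul_smul]
  exact smul_mem_glat (φ := frobenius k p) (h i m y ha j (Finset.mem_range.1 hj))
    ⟨j, Finset.mem_range.1 hj, s, hs, rfl⟩

variable {F τ G : Type} [Field F] [CharP F p] [Algebra k F] [AddCommGroup G]

/-- `d (a b)` is a sum of `y ^ p d (t ^ j b)` -/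
theorem FD.dF_mem (Φ : FD p k ι F τ G) {Z : Set ((Option τ → F) × (Option τ → F))} {b : F}
    (h : ∀ j < p, (Φ.P.dF (Φ.B.t ^ j • b), 0) ∈ Z) (a : k) : Φ.P.dF (a • b) ∈ NN p k Z := by
  obtain ⟨y, rfl⟩ := Φ.B.span a
  rw [Finset.sum_smul, ← DR.dFA_apply, map_sum]
  refine sum_mem fun j hj => ?_
  have h1 := mem_NN (p := p) (y j) (h j (Finset.mem_range.1 hj))
  rwa [DR.dFA_apply, mul_comm, mul_smul, Φ.cmp.dF_smul, na5_d, zero_smul, add_zero,
    ← sub_zero (_ • _), ← smul_zero (y j)]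

/-- the pairs attached to `y ^ p dt` -/
def FD.prsP (Φ : FD p k ι F τ G) (y : F) : Set ((Option τ → F) × (Option τ → F)) :=
  {z | ∃ j < p, z = (bdt τ (Φ.B.t ^ j • y ^ p), if j = p - 1 then bdt τ y else 0)}

theorem FD.prs_prsP (Φ : FD p k ι F τ G) (y : F) : Φ.Prs (Φ.prsP y) := by
  refine ⟨((Set.finite_Iio p).image fun j => (bdt τ (Φ.B.t ^ j • y ^ p),
    if j = p - 1 then bdt τ y else 0)).subset fun _ ⟨j, hj, e⟩ => ⟨j, hj, e.symm⟩, ?_⟩
  rintro _ ⟨j, hj, rfl⟩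
  rw [Algebra.smul_def, map_pow, ← Φ.cmp.u]
  split_ifs with h
  · rw [h]
    exact DR.pair_top _ y
  · exact DR.pair_low _ y (by omega)

theorem FD.prsP_mem (Φ : FD p k ι F τ G) (y : F) (z : ℕ → k) :
    (∑ j ∈ Finset.range p, Φ.B.t ^ j * z j ^ p) • bdt τ (y ^ p) - z (p - 1) • bdt τ y ∈
      NN p k (Φ.prsP y) := by
  have hp := (Fact.out : p.Prime).pos
  have h1 : z (p - 1) • bdt τ y =
      ∑ j ∈ Finset.range p, z j • if j = p - 1 then bdt τ y else 0 := by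
    simp only [smul_ite, smul_zero]
    rw [Finset.sum_ite_eq', if_pos (Finset.mem_range.2 (by omega))]
  rw [h1, Finset.sum_smul, ← Finset.sum_sub_distrib]
  refine sum_mem fun j hj => ?_
  rw [mul_comm, mul_smul, ← show _ = _ • bdt τ (y ^ p) from (bdtL k τ).map_smul _ _]
  exact mem_NN (z j) (z := (_, _)) ⟨j, Finset.mem_range.1 hj, rfl⟩

end Pool.Agent.ZFN
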