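import Pool.Agent.Lib.MP_751085_ag.ZF.N.A5

/-! The logarithmic step when `p` does not divide `m`; the tame step. -/

namespace Pool.Agent.ZFN

open Pool.Agent.ZCy
open scoped Classical
open Filter

variable {p : ℕ} [Fact p.Prime] {k ι F τ G : Type} [Field k] [CharP k p] [Field F] [CharP F p]
  [Algebra k F] [Fintype τ] [AddCommGroup G] (Φ : FD p k ι F τ G)

omit [Fact p.Prime] [CharP k p] [CharP F p] [Fintype τ] in
theorem na6_row {I J : Type} [Fintype I] [Fintype J] (e : I → Option τ → F) (b : J → F) (α : I → k)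
    (γ : J → k) : relL k (∑ l, Φ.B.D (α l) • e l - ∑ s, γ s • Φ.P.dF (b s)) =
      rowL k (Φ.P.d2 (∑ l, α l • e l + ∑ s, γ s • bdt τ (b s))) -
        ∑ l, α l • rowL k (Φ.P.d2 (e l)) := by
  have h1 : ∀ ζ : Option τ → F, rowL k (dtw ζ) = relL k ζ := fun ζ =>
    funext fun j => dtw_none_some ζ j
  rw [← DR.d2A_apply, map_add, map_sum, map_sum]
  simp only [DR.d2A_apply, Φ.cmp.d2_smul, DR.d2_bdt, dtw_bdt, smul_zero, add_zero, map_add,
    map_sub, map_sum, map_smul, map_neg, h1, Finset.sum_add_distrib, smul_neg,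
    Finset.sum_neg_distrib]
  abel

/-- add `∑ dF ((π / m) γ s • b s)` and use saturation for the relative part -/
theorem FD.stepA {S : Set (Option τ → F)} (hS : S.Finite) :
    ∃ S' Z, S'.Finite ∧ S ⊆ S' ∧ Φ.Prs Z ∧ ∀ T : Set (Option τ → Option τ → F), T.Finite →
      ∀ᶠ i in cofinite, ∀ (m : ℕ) (η : Option τ → F), ¬p ∣ m → η ∈ Φ.B.lg i m S →
        Φ.P.d2 η ∈ Φ.B.lat i m T → ∃ η' ∈ Φ.B.lg i (m - 1) S', η - η' ∈ NN p k Z := by
  have hb : {b : F | bdt τ b ∈ S}.Finite :=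
    hS.preimage (f := bdt τ) fun a _ b _ h => congrFun h none
  obtain ⟨n', b, hb'⟩ := exists_range hb
  have hv : vert S = Set.range fun s => bdt τ (b s) := by
    rw [vert_eq, hb', ← Set.range_comp]
    rfl
  obtain ⟨n, e, rfl⟩ := exists_range hS
  have hS₁ : (Set.range e ∪ Set.range fun s => Φ.P.dF (b s)).Finite := hS.union (Set.finite_range _)
  obtain ⟨K, hK, hK', hsat⟩ := sat_lin Φ.B (relL k) hS₁
  have hKv : K ⊆ vert ((Set.range e ∪ Set.range fun s => Φ.P.dF (b s)) ∪ K) :=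
    fun z hz => ⟨Or.inr hz, fun j => congrFun (hK' z hz).2 j⟩
  refine ⟨(Set.range e ∪ Set.range fun s => Φ.P.dF (b s)) ∪ K,
    Set.range fun x : Fin p × Fin n' => (Φ.P.dF (Φ.B.t ^ (x.1 : ℕ) • b x.2), 0), hS₁.union hK,
    Set.subset_union_left.trans Set.subset_union_left, ⟨Set.finite_range _, ?_⟩, fun T hT => ?_⟩
  · rintro _ ⟨x, rfl⟩
    exact Φ.P.pair_dF _
  filter_upwards [hsat (rowL k '' T ∪ Set.range fun l => rowL k (Φ.P.d2 (e l)))
    ((hT.image _).union (Set.finite_range _)), Φ.B.good] with i hi hg m η hm hη hd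
  obtain ⟨-, hD, hπ⟩ := hg
  have vp := Φ.B.vp i
  have hm0 : (m : k) ≠ 0 := fun h => hm ((CharP.cast_eq_zero_iff k p m).1 h)
  obtain ⟨A, hA, Bv, hB, rfl⟩ := mem_lg.1 hη
  rw [hv] at hB
  obtain ⟨α, hα, rfl⟩ := mem_lat_range.1 hA
  obtain ⟨γ, hγ, rfl⟩ := mem_lat_range.1 hB
  have hc : Φ.B.bd i (-1) (Φ.B.π i * (m : k)⁻¹) :=
    vp.mul_le vp.self (bd_nat_inv (p := p) _ _ m) (by omega)
  have hlead : ∀ a, Φ.B.bd i m a → Φ.B.bd i m (Φ.B.D a + m * (a / Φ.B.π i)) := fun a ha => by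
    have := vp.der_lead hD hπ ha
    rwa [Int.cast_natCast] at this
  have hβ : (∑ l, Φ.B.D (α l) • e l - ∑ s, γ s • Φ.P.dF (b s)) ∈
      Φ.B.lat i (m + 1) (Set.range e ∪ Set.range fun s => Φ.P.dF (b s)) := by
    refine sub_mem (sum_mem fun l _ => smul_mem_lat ?_ (Or.inl ⟨l, rfl⟩))
      (sum_mem fun s _ => smul_mem_lat (hγ s) (Or.inr ⟨s, rfl⟩))
    exact vp.mono (vp.der le_rfl (fun z hz => bd_iff.2 (hD z hz)) (hα l)) (by omega)
  have hd' := lat_map (W := τ → F) (rowL k) hd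
  have hβ' := hi _ m _ hβ (by
    rw [na6_row]
    exact sub_mem (glat_mono le_rfl Set.subset_union_left hd')
      (sum_mem fun l _ => smul_mem_lat (hα l) (Or.inr ⟨l, rfl⟩)))
  obtain ⟨x, hx, y, hy, hxy⟩ := AddSubgroup.mem_sup.1 hβ'
  refine ⟨(∑ l, α l • e l + ∑ s, γ s • bdt τ (b s)) +
    ∑ s, Φ.P.dF ((Φ.B.π i * (m : k)⁻¹ * γ s) • b s), ?_, ?_⟩
  · refine mem_lg.2 ⟨∑ l, (Φ.B.π i * (m : k)⁻¹ * (Φ.B.D (α l) + m * (α l / Φ.B.π i))) • e l -
      (Φ.B.π i * (m : k)⁻¹) • x, sub_mem (sum_mem fun l _ => smul_mem_lat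
        (vp.mul_le hc (hlead _ (hα l)) (by omega)) (Or.inl (Or.inl ⟨l, rfl⟩)))
        (glat_mono (by omega) Set.subset_union_left (lat_smul hc hx)),
      ∑ s, (Φ.B.D (Φ.B.π i * (m : k)⁻¹ * γ s) +
        m * (Φ.B.π i * (m : k)⁻¹ * γ s / Φ.B.π i)) • bdt τ (b s) - (Φ.B.π i * (m : k)⁻¹) • y,
      sub_mem (sum_mem fun s _ => smul_mem_lat
        (vp.mono (hlead _ (vp.mul_le hc (hγ s) (by omega))) (by omega))
        (vert_mono (Set.subset_union_left.trans Set.subset_union_left) (hv.ge ⟨s, rfl⟩)))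
        (glat_mono (by omega) hKv (lat_smul hc hy)), ?_⟩
    have e1 : ∀ a : k, Φ.B.π i * (m : k)⁻¹ * (Φ.B.D a + m * (a / Φ.B.π i)) =
        a + Φ.B.π i * (m : k)⁻¹ * Φ.B.D a := fun a => by
      have := vp.ne
      field_simp
      ring
    have e2 : ∀ a : k, m * (Φ.B.π i * (m : k)⁻¹ * a / Φ.B.π i) = a := fun a => by
      have := vp.ne
      field_simp
    have e3 := congrArg ((Φ.B.π i * (m : k)⁻¹) • ·) hxy
    simp only [smul_add, smul_sub, Finset.smul_sum, smul_smul] at e3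
    simp only [e1, e2, Φ.cmp.dF_smul, add_smul, Finset.sum_add_distrib]
    linear_combination (exp := 1) -e3
  · rw [sub_add_cancel_left]
    exact neg_mem (sum_mem fun s _ => Φ.dF_mem (fun j hj => Set.mem_range.2 ⟨(⟨j, hj⟩, s), rfl⟩) _)

omit [Fintype τ] in
/-- the negligible part of `π⁻¹ y ^ p dt` -/
theorem na6_nn {n : ℕ} (h : Fin n → F) (a : Fin n → k) (κ : ℕ → k) :
    (∑ j ∈ Finset.range p, Φ.B.t ^ j * κ j ^ p) • bdtL k τ ((∑ s, a s • h s) ^ p) -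
      κ (p - 1) • bdtL k τ (∑ s, a s • h s) ∈ NN p k (⋃ s, Φ.prsP (h s)) := by
  have e : (∑ j ∈ Finset.range p, Φ.B.t ^ j * κ j ^ p) • bdtL k τ ((∑ s, a s • h s) ^ p) -
      κ (p - 1) • bdtL k τ (∑ s, a s • h s) = ∑ s,
        ((∑ j ∈ Finset.range p, Φ.B.t ^ j * (a s * κ j) ^ p) • bdtL k τ (h s ^ p) -
          (a s * κ (p - 1)) • bdtL k τ (h s)) := by
    rw [sum_pow_char, map_sum, map_sum, Finset.smul_sum, Finset.smul_sum, ← Finset.sum_sub_distrib]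
    refine Finset.sum_congr rfl fun s _ => ?_
    rw [smul_pow, map_smul, map_smul, smul_smul, smul_smul, mul_comm (κ (p - 1)), Finset.sum_mul]
    congr 2
    exact Finset.sum_congr rfl fun j _ => by ring
  rw [e]
  exact sum_mem fun s _ => NN_mono (Set.subset_iUnion (fun s => Φ.prsP (h s)) s)
    (Φ.prsP_mem (h s) fun j => a s * κ j)

/-- `η = α + π⁻¹ β dt`, `β = y ^ p - y + c₀` modulo `π`, `y = ∑ a s • h s`; with
`π⁻¹ = ∑ t ^ j κ j ^ p` use `prsP_mem` for `h s` and `z j = a s * κ j`, and `Pls.kap`.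
`c = c₀ / π`, `S' = T ∪ bdt Bf ∪ bdt H`. -/
theorem FD.stepT {T : Set (Option τ → F)} {H Bf : Set F} (hT : T.Finite) (hH : H.Finite)
    (hB : Bf.Finite) : ∃ S' Z, S'.Finite ∧ T ⊆ S' ∧ Φ.Prs Z ∧ ∀ᶠ i in cofinite, ∀ a : G,
      Φ.TOK i a T H Bf → ∀ η ∈ Φ.B.lg i 0 T, Φ.δ η = a → ∃ η' ∈ Φ.B.lat i 0 S', ∃ c : k,
        η - η' - c • bdt τ (1 : F) ∈ NN p k Z := by
  obtain ⟨n, h, rfl⟩ := exists_range hH
  refine ⟨T ∪ bdtL k τ '' Bf ∪ bdtL k τ '' Set.range h, ⋃ s, Φ.prsP (h s),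
    (hT.union (hB.image _)).union (hH.image _),
    Set.subset_union_left.trans Set.subset_union_left,
    ⟨Set.finite_iUnion fun s => (Φ.prs_prsP (h s)).1, fun z hz => ?_⟩, ?_⟩
  · obtain ⟨s, hs⟩ := Set.mem_iUnion.1 hz
    exact (Φ.prs_prsP (h s)).2 z hs
  filter_upwards [Φ.B.kap] with i hi a hK η hη ha
  obtain ⟨α, hα, β', hβ', rfl⟩ := mem_lg.1 hη
  rw [vert_eq] at hβ'
  obtain ⟨β, hβ, rfl⟩ := lat_map_ex (S := {b | bdt τ b ∈ T}) (bdtL k τ) hβ'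
  have hπ : Φ.B.π i ≠ 0 := (Φ.B.vp i).ne
  have h1 : Φ.B.π i • β ∈ Φ.B.lat i 0 {b | bdt τ b ∈ T} :=
    glat_mono (by omega) le_rfl (lat_smul (Φ.B.vp i).self hβ)
  obtain ⟨y, hy, c, -, hρ⟩ := hK α hα _ h1 (by rw [inv_smul_smul₀ hπ]; exact ha)
  obtain ⟨κ, hκ⟩ := Φ.B.span (Φ.B.π i)⁻¹
  have h2 := (hi κ hκ).2
  refine ⟨α + (Φ.B.π i)⁻¹ • bdtL k τ (Φ.B.π i • β - (y ^ p - y + algebraMap k F c)) +
    (κ (p - 1) - (Φ.B.π i)⁻¹) • bdtL k τ y, add_mem (add_mem ?_ ?_) ?_, (Φ.B.π i)⁻¹ * c, ?_⟩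
  · exact glat_mono le_rfl (Set.subset_union_left.trans Set.subset_union_left) hα
  · have h4 := lat_smul (B := Φ.B) (Φ.B.vp i).inv (lat_map (bdtL k τ) hρ)
    exact glat_mono (by omega) (Set.subset_union_right.trans Set.subset_union_left) h4
  · have h4 := lat_smul h2 (lat_map (bdtL k τ) hy)
    exact glat_mono (by omega) Set.subset_union_right h4
  · obtain ⟨b, -, rfl⟩ := mem_lat_range.1 hy
    have h3 := na6_nn Φ h b κ
    rw [← hκ] at h3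
    generalize ∑ s, b s • h s = y at h3 ⊢
    have e : α + bdtL k τ β -
        (α + (Φ.B.π i)⁻¹ • bdtL k τ (Φ.B.π i • β - (y ^ p - y + algebraMap k F c)) +
          (κ (p - 1) - (Φ.B.π i)⁻¹) • bdtL k τ y) - ((Φ.B.π i)⁻¹ * c) • bdtL k τ (1 : F) =
        (Φ.B.π i)⁻¹ • bdtL k τ (y ^ p) - κ (p - 1) • bdtL k τ y := by
      rw [Algebra.algebraMap_eq_smul_one]
      simp only [map_sub, map_add, map_smul, smul_sub, smul_add, inv_smul_smul₀ hπ, sub_smul,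
        mul_smul]
      abel
    rw [← e] at h3
    exact h3

end Pool.Agent.ZFN
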