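import Pool.Agent.Lib.MP_751085_ag.ZF.N.A5

/-! The logarithmic step when `p` divides `m`. -/

namespace Pool.Agent.ZFN

open Pool.Agent.ZCy
open scoped Classical
open Filter

variable {p : ℕ} [Fact p.Prime] {k ι F τ G : Type} [Field k] [CharP k p] [Field F] [CharP F p]
  [Algebra k F] [Fintype τ] [AddCommGroup G] (Φ : FD p k ι F τ G)

omit [Fact p.Prime] [CharP k p] [CharP F p] [Fintype τ] in
/-- the relative derivatives of the coefficient of `dt` -/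
def na7_U : (Option τ → F) →ₗ[k] τ → F where
  toFun ω j := Φ.P.d (some j) (ω none)
  map_add' a b := by funext j; simp
  map_smul' a b := by funext j; exact Φ.cmp.d_smul_some j a (b none)

omit [Fact p.Prime] [CharP k p] [CharP F p] [Fintype τ] in
theorem na7_vert {S : Set (Option τ → F)} {x : Option τ → F} (hx : x ∈ Submodule.span k (vert S))
    (j : τ) : x (some j) = 0 := by
  induction hx using Submodule.span_induction with
  | mem x hx => exact hx.2 j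
  | zero => rfl
  | add x y _ _ hx hy => simp [hx, hy]
  | smul a x _ hx => simp [hx]

omit [Fact p.Prime] [CharP F p] [Fintype τ] in
theorem na7_d2 {S : Set (Option τ → F)} {i : ι} {m : ℤ} (hm : (p : ℤ) ∣ m)
    (hD : ∀ z, Φ.B.v i z ≤ 1 → Φ.B.v i (Φ.B.D z) ≤ 1) {α : Option τ → F}
    (hα : α ∈ Φ.B.lat i m S) : Φ.P.d2 α ∈ Φ.B.lat i m (Φ.P.two S) := by
  have h : Φ.B.lat i m S ≤ (Φ.B.lat i m (Φ.P.two S)).comap Φ.P.d2A := by
    refine glat_le fun a s ha hs => ?_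
    show Φ.P.d2 (a • s) ∈ Φ.B.lat i m (Φ.P.two S)
    rw [Φ.cmp.d2_smul]
    have h1 : Φ.B.bd i (m + 0) (Φ.B.D a) :=
      (Φ.B.vp i).der_p (p := p) (fun z hz => bd_iff.2 (hD z hz)) hm ha
    rw [add_zero] at h1
    exact add_mem (smul_mem_lat ha (Or.inl ⟨s, hs, rfl⟩)) (smul_mem_lat h1 (Or.inr ⟨s, hs, rfl⟩))
  exact h hα

omit [Fintype τ] in
theorem na7_one {i : ι} {n : ℕ} (hn : 0 < n) (y : F)
    (hk : ∀ y : ℕ → k, (Φ.B.π i)⁻¹ = ∑ j ∈ Finset.range p, Φ.B.t ^ j * y j ^ p →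
      (∀ j < p, Φ.B.bd i 1 (y j)) ∧ Φ.B.bd i 0 (y (p - 1) - (Φ.B.π i)⁻¹))
    {S' : Set (Option τ → F)} (h1 : bdt τ (y ^ p) ∈ S') (h2 : bdt τ y ∈ S') {γ : k}
    (hγ : Φ.B.bd i ((p * n : ℕ) + 1) γ) :
    γ • bdt τ (y ^ p) ∈ Φ.B.lat i (p * n : ℕ) S' ⊔ NN p k (Φ.prsP y) := by
  have hv := Φ.B.vp i
  have hp : 2 ≤ p := (Fact.out : p.Prime).two_le
  have ha : Φ.B.bd i (p * n) (Φ.B.π i * γ) := hv.mul_le hv.self hγ (by push_cast; omega)
  obtain ⟨b, hb, hb'⟩ := Φ.B.root i ha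
  obtain ⟨κ, hκ⟩ := Φ.B.span (Φ.B.π i)⁻¹
  have hκ1 := (hk κ hκ).1 (p - 1) (by omega)
  have hN := Φ.prsP_mem y fun j => b * κ j
  have hs : ∑ j ∈ Finset.range p, Φ.B.t ^ j * (b * κ j) ^ p = b ^ p * (Φ.B.π i)⁻¹ := by
    rw [hκ, Finset.mul_sum]
    exact Finset.sum_congr rfl fun j _ => by ring
  rw [hs] at hN
  have e1 : γ - b ^ p * (Φ.B.π i)⁻¹ = (Φ.B.π i)⁻¹ * (Φ.B.π i * γ - b ^ p) := by
    have := hv.ne
    field_simp
  have hA : Φ.B.bd i (p * n : ℕ) (γ - b ^ p * (Φ.B.π i)⁻¹) := by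
    rw [e1]
    exact hv.mul_le hv.inv hb' (by push_cast; omega)
  have hB : Φ.B.bd i (p * n : ℕ) (b * κ (p - 1)) := by
    refine hv.mul_le hb hκ1 ?_
    have : n + 1 ≤ p * n := by nlinarith
    exact_mod_cast this
  have e2 : γ • bdt τ (y ^ p) = ((γ - b ^ p * (Φ.B.π i)⁻¹) • bdt τ (y ^ p) +
      (b * κ (p - 1)) • bdt τ y) +
      ((b ^ p * (Φ.B.π i)⁻¹) • bdt τ (y ^ p) - (b * κ (p - 1)) • bdt τ y) := by
    rw [sub_smul]; abel
  rw [e2]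
  exact AddSubgroup.add_mem_sup (add_mem (smul_mem_lat hA h1) (smul_mem_lat hB h2)) hN

/-- `η = α + β`, `β ∈ lat (m + 1) (vert S)`. Since `p ∣ m`, `d2 α ∈ lat m (two S)` (`VP.der_p`). The
linear map `U ω = (d (some j) (ω none))_j` has `U β = rowL (d2 α) - rowL (d2 η)`; `sat_lin` for `U` and
`vert S`; on `K` use `PB.ker0`: `β = ∑ γ s • y s ^ p dt` modulo `lat m`, `γ s ∈ π ^ (-m-1) O`.
`π γ = λ ^ p` up to lower order (`Pls.root`), `π⁻¹ = ∑ t ^ j κ j ^ p`, `prsP_mem` with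
`z j = λ κ j`; `z (p - 1)` has order `m / p + 1 ≤ m` (`Pls.kap`). -/
theorem FD.stepB {S : Set (Option τ → F)} (hS : S.Finite) :
    ∃ S' Z, S'.Finite ∧ S ⊆ S' ∧ Φ.Prs Z ∧ ∀ T : Set (Option τ → Option τ → F), T.Finite →
      ∀ᶠ i in cofinite, ∀ (m : ℕ) (η : Option τ → F), 0 < m → p ∣ m → η ∈ Φ.B.lg i m S →
        Φ.P.d2 η ∈ Φ.B.lat i m T → ∃ η' ∈ Φ.B.lat i m S', η - η' ∈ NN p k Z := by
  obtain ⟨K, hK, hK1, hK2⟩ := sat_lin Φ.B (na7_U Φ) (hS.subset vert_sub)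
  obtain ⟨n, e, rfl⟩ := exists_range hK
  have hz : ∀ l, ∃ z : ℕ → F, e l none = ∑ j ∈ Finset.range p, Φ.P.u none ^ j * z j ^ p :=
    fun l => Φ.P.ker0 fun j => congrFun (hK1 _ ⟨l, rfl⟩).2 j
  choose z hz using hz
  let y : Fin n × Fin p → F := fun s => z s.1 s.2
  let Y : Set (Option τ → F) := Set.range fun s => bdt τ (y s ^ p)
  have he : ∀ l, e l = ∑ j ∈ Finset.range p, Φ.B.t ^ j • bdt τ (z l j ^ p) := by
    intro l
    rw [eq_bdt (na7_vert (hK1 _ ⟨l, rfl⟩).1), hz l]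
    show bdtL k τ _ = ∑ j ∈ Finset.range p, Φ.B.t ^ j • bdtL k τ (z l j ^ p)
    rw [map_sum]
    refine Finset.sum_congr rfl fun j _ => ?_
    rw [← map_smul, Φ.cmp.u, Algebra.smul_def, map_pow]
  refine ⟨S ∪ Y ∪ Set.range fun s => bdt τ (y s), ⋃ s, Φ.prsP (y s),
    (hS.union (Set.finite_range _)).union (Set.finite_range _),
    fun x hx => Or.inl (Or.inl hx), ⟨Set.finite_iUnion fun s => (Φ.prs_prsP _).1, ?_⟩, ?_⟩
  · intro w hw
    obtain ⟨s, hs⟩ := Set.mem_iUnion.1 hw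
    exact (Φ.prs_prsP _).2 w hs
  intro T hT
  filter_upwards [hK2 (rowL k '' (Φ.P.two S ∪ T)) (((Φ.P.two_finite hS).union hT).image _),
    Φ.B.good, Φ.B.kap] with i hs hg hk m η hm hpm hη hd
  obtain ⟨α, hα, β, hβ, rfl⟩ := mem_lg.1 hη
  have hU : na7_U Φ β = rowL k (Φ.P.d2 α - Φ.P.d2 (α + β)) := by
    funext j
    rw [Φ.P.d2_add]
    have h0 := na7_vert (span_of_lat hβ) j
    simp [na7_U, rowL, relL, DR.d2, h0]
  have hU' : na7_U Φ β ∈ Φ.B.lat i m (rowL k '' (Φ.P.two S ∪ T)) := by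
    rw [hU]
    exact lat_map _ (sub_mem
      (glat_mono le_rfl Set.subset_union_left (na7_d2 Φ (by exact_mod_cast hpm) hg.2.1 hα))
      (glat_mono le_rfl Set.subset_union_right hd))
  have hβ' := hs _ _ β hβ hU'
  set S' := S ∪ Y ∪ Set.range fun s => bdt τ (y s) with hS'
  have hSS : S ⊆ S' := fun x hx => Or.inl (Or.inl hx)
  have hKY : Φ.B.lat i (m + 1) (Set.range e) ≤ Φ.B.lat i (m + 1 + 0) Y := by
    refine glat_trans ?_
    rintro _ ⟨l, rfl⟩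
    rw [he l]
    refine sum_mem fun j hj => smul_mem_lat ?_ ⟨(l, ⟨j, Finset.mem_range.1 hj⟩), rfl⟩
    have := hg.1.pow j
    rwa [mul_zero] at this
  rw [add_zero] at hKY
  obtain ⟨m', rfl⟩ := hpm
  have hm' : 0 < m' := Nat.pos_of_mul_pos_left hm
  have hY : Φ.B.lat i ((p * m' : ℕ) + 1) Y ≤ Φ.B.lat i (p * m' : ℕ) S' ⊔ NN p k (⋃ s, Φ.prsP (y s)) := by
    refine glat_le ?_
    rintro a _ ha ⟨s, rfl⟩
    exact sup_le_sup_left (NN_mono (Set.subset_iUnion (fun s => Φ.prsP (y s)) s)) _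
      (na7_one Φ hm' (y s) hk (Or.inl (Or.inr ⟨s, rfl⟩)) (Or.inr ⟨s, rfl⟩) ha)
  have hall : α + β ∈ Φ.B.lat i (p * m' : ℕ) S' ⊔ NN p k (⋃ s, Φ.prsP (y s)) :=
    add_mem (AddSubgroup.mem_sup_left (glat_mono le_rfl hSS hα))
      (sup_le (le_sup_of_le_left (glat_mono le_rfl (vert_sub.trans hSS))) (hKY.trans hY) hβ')
  obtain ⟨η', h1, w, h2, h3⟩ := AddSubgroup.mem_sup.1 hall
  exact ⟨η', h1, by rw [← h3, add_sub_cancel_left]; exact h2⟩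

omit [CharP F p] [Fintype τ] in
theorem na7c_pair {S' : Set (Option τ → F)} {Z : Set ((Option τ → F) × (Option τ → F))} {i : ι}
    {n : ℕ} (hn : 0 < n) {z : (Option τ → F) × (Option τ → F)} (hz : z ∈ Z) (h1 : z.1 ∈ S')
    (h2 : z.2 ∈ S') {c : k} (hc : Φ.B.bd i (p * n) c) :
    c • z.1 ∈ Φ.B.lg i (p * n - 1) S' ⊔ NN p k Z := by
  obtain ⟨b, hb, hcb⟩ := Φ.B.root i hc
  have e : c • z.1 = ((c - b ^ p) • z.1 + b • z.2) + (b ^ p • z.1 - b • z.2) := by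
    rw [sub_smul]
    abel
  have hp : (2 : ℤ) ≤ p := by exact_mod_cast (Fact.out : p.Prime).two_le
  have hn' : (1 : ℤ) ≤ n := by exact_mod_cast hn
  have hb' : Φ.B.bd i (p * n - 1) b := (Φ.B.vp i).mono hb (by nlinarith)
  rw [e]
  exact AddSubgroup.add_mem_sup
    (lat_le_lg (add_mem (smul_mem_lat hcb h1) (smul_mem_lat hb' h2))) (mem_NN b hz)

/-- Saturation for the relative differential, then the relative theorem of Cartier. -/
theorem FD.stepC {S : Set (Option τ → F)} (hS : S.Finite) :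
    ∃ S' Z, S'.Finite ∧ S ⊆ S' ∧ Φ.Prs Z ∧ ∀ T : Set (τ → τ → F), T.Finite →
      ∀ᶠ i in cofinite, ∀ (m : ℕ) (η : Option τ → F), 0 < m → p ∣ m → η ∈ Φ.B.lat i m S →
        Φ.P.drel η ∈ Φ.B.lat i (m - 1) T → ∃ η' ∈ Φ.B.lg i (m - 1) S', η - η' ∈ NN p k Z := by
  obtain ⟨K, hK, hK0, hsat⟩ := sat_lin Φ.B Φ.cmp.drelL hS
  have hl : ∀ x ∈ K, ∃ (h g : F) (y : ℕ → Option τ → F),
      x = Φ.P.dF h + ∑ j ∈ Finset.range p, Φ.P.u none ^ j • Φ.P.gam p (y j) + bdt τ g :=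
    fun x hx => Φ.P.lift (hK0 x hx).2
  choose! h g y hl using hl
  obtain ⟨Z, hZ⟩ : ∃ Z : Set ((Option τ → F) × (Option τ → F)), Z =
      (fun x => (Φ.P.dF (h x), 0)) '' K ∪
        Set.image2 (fun x j => (Φ.P.gam p (y x j), y x j)) K (Set.Iio p) := ⟨_, rfl⟩
  have hZf : Z.Finite := by
    rw [hZ]
    exact (hK.image _).union (hK.image2 _ (Set.finite_Iio p))
  obtain ⟨S', hS'⟩ : ∃ S' : Set (Option τ → F),
      S' = S ∪ (Prod.fst '' Z ∪ Prod.snd '' Z) ∪ (fun x => bdt τ (g x)) '' K := ⟨_, rfl⟩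
  have hSS : S ⊆ S' := by
    rw [hS']
    exact fun x hx => Or.inl (Or.inl hx)
  have hZ1 : ∀ z ∈ Z, z.1 ∈ S' := by
    rw [hS']
    exact fun z hz => Or.inl (Or.inr (Or.inl ⟨z, hz, rfl⟩))
  have hZ2 : ∀ z ∈ Z, z.2 ∈ S' := by
    rw [hS']
    exact fun z hz => Or.inl (Or.inr (Or.inr ⟨z, hz, rfl⟩))
  have hg : ∀ x ∈ K, bdt τ (g x) ∈ vert S' := by
    rw [hS']
    exact fun x hx => ⟨Or.inr ⟨x, hx, rfl⟩, fun _ => rfl⟩
  have ha : ∀ x ∈ K, (Φ.P.dF (h x), 0) ∈ Z := by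
    rw [hZ]
    exact fun x hx => Or.inl ⟨x, hx, rfl⟩
  have hb : ∀ x ∈ K, ∀ j < p, (Φ.P.gam p (y x j), y x j) ∈ Z := by
    rw [hZ]
    exact fun x hx j hj => Or.inr ⟨x, hx, j, hj, rfl⟩
  refine ⟨S', Z, ?_, hSS, ⟨hZf, ?_⟩, fun T hT => ?_⟩
  · rw [hS']
    exact (hS.union ((hZf.image _).union (hZf.image _))).union (hK.image _)
  · rw [hZ]
    rintro z (⟨x, -, rfl⟩ | ⟨x, -, j, -, rfl⟩)
    · exact Φ.P.pair_dF _
    · exact Φ.P.pair_gam _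
  filter_upwards [hsat T hT, Φ.B.good] with i h1 h2 m η hm hpm hη hd
  obtain ⟨n, rfl⟩ := hpm
  have hn : 0 < n := Nat.pos_of_mul_pos_left hm
  rw [Nat.cast_mul] at hη hd ⊢
  have key : Φ.B.lat i (p * n - 1) S ⊔ Φ.B.lat i (p * n) K ≤
      Φ.B.lg i (p * n - 1) S' ⊔ NN p k Z := by
    refine sup_le (((glat_mono le_rfl hSS).trans lat_le_lg).trans le_sup_left)
      (glat_le fun a x hax hx => ?_)
    rw [RingHom.id_apply, hl x hx, smul_add, smul_add, Finset.smul_sum]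
    refine add_mem (add_mem ?_ (sum_mem fun j hj => ?_)) ?_
    · exact na7c_pair Φ hn (ha x hx) (hZ1 _ (ha x hx)) (hZ2 _ (ha x hx)) hax
    · have hj' := hb x hx j (Finset.mem_range.1 hj)
      rw [Φ.cmp.u, ← map_pow, algebraMap_smul, smul_smul]
      refine na7c_pair Φ hn hj' (hZ1 _ hj') (hZ2 _ hj') ?_
      exact (Φ.B.vp i).mul_le hax (Bd.pow h2.1 j) (by omega)
    · refine AddSubgroup.mem_sup_left (AddSubgroup.mem_sup_right (smul_mem_lat ?_ (hg x hx)))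
      rw [sub_add_cancel]
      exact hax
  obtain ⟨η', h3, ν, h4, e⟩ := AddSubgroup.mem_sup.1 (key (h1 _ _ η hη hd))
  refine ⟨η', h3, ?_⟩
  rw [← e, add_sub_cancel_left]
  exact h4

end Pool.Agent.ZFN
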