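import Pool.Agent.Lib.MP_751085_ag.ZF.N.A5

/-! Contraction of the pole order; finiteness. -/

namespace Pool.Agent.ZFN

open Pool.Agent.ZCy
open scoped Classical
open Filter

variable {p : ℕ} [Fact p.Prime] {k ι F τ G : Type} [Field k] [CharP k p] [Field F] [CharP F p]
  [Algebra k F] [Fintype τ] [AddCommGroup G] (Φ : FD p k ι F τ G)

omit [Fintype τ] [CharP F p] in
theorem na8_d2 (a : k) (η : Option τ → F) :
    Φ.P.d2A (frobenius k p a • η) = frobenius k p a • Φ.P.d2A η := by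
  have h : Φ.B.D (a ^ p) = 0 := by
    rw [Derivation.leibniz_pow, ← Nat.cast_smul_eq_nsmul k, CharP.cast_eq_zero k p, zero_smul]
  rw [DR.d2A_apply, DR.d2A_apply, frobenius_def, Φ.cmp.d2_smul, h, zero_smul, add_zero]

theorem na8_nn {V : Type} [AddCommGroup V] [Module k V] {B : Pls p k ι} {K : Set V} (ω : V → V)
    {i : ι} {r : ℤ} {β : V} (h : β ∈ B.glat (frobenius k p) i r K) :
    ∃ β' ∈ B.lat i r (ω '' K), β - β' ∈ NN p k ((fun x => (x, ω x)) '' K) := by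
  refine glat_ind (P := fun β => ∃ β' ∈ B.lat i r (ω '' K),
    β - β' ∈ NN p k ((fun x => (x, ω x)) '' K)) ⟨0, zero_mem _, ?_⟩ (fun a s ha hs => ?_) ?_ h
  · rw [sub_zero]
    exact zero_mem _
  · exact ⟨a • ω s, smul_mem_lat ha ⟨s, hs, rfl⟩, mem_NN (z := (s, ω s)) a ⟨s, hs, rfl⟩⟩
  · rintro x y ⟨x', h1, h2⟩ ⟨y', h3, h4⟩
    exact ⟨x' + y', add_mem h1 h3, add_sub_add_comm x y x' y' ▸ add_mem h2 h4⟩

omit [Fact p.Prime] [CharP k p] in
theorem na8_span {V : Type} [AddCommGroup V] [Module k V] (t : k) (E : Set V) :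
    ∀ x ∈ tmul p t E, x ∈ Submodule.span k E := by
  rintro _ ⟨j, -, s, hs, rfl⟩
  exact Submodule.smul_mem _ _ (Submodule.subset_span hs)

theorem FD.contract {E : Set (Option τ → F)} (hE : E.Finite) (hs : Φ.P.Stab p k E) :
    ∃ Z, Φ.Prs Z ∧ ∀ T : Set (Option τ → F), T.Finite → E ⊆ T → ∃ M : ι → ℕ → ℕ,
      (∀ᶠ i in cofinite, M i 0 = 2 * p) ∧ ∀ i c a, Φ.H2 i c a T → ∀ η ∈ Submodule.span k E,
        Φ.δ η = a → ∃ η' ∈ Φ.B.lat i (M i c) E, η - η' ∈ NN p k Z := by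
  have hS := tmul_finite (p := p) Φ.B.t hE
  obtain ⟨K, hK, h1, h2⟩ := sat Φ.B Φ.P.d2A (na8_d2 Φ) hS
  have h3 : ∀ x, ∃ ω, x ∈ K → ω ∈ Submodule.span k E ∧ Φ.P.Pair p (x, ω) := fun x => by
    by_cases hx : x ∈ K
    · obtain ⟨ω, h4⟩ := hs x (Submodule.span_le.2 (na8_span _ E) (gspan_le_span (h1 x hx).1))
        (h1 x hx).2
      exact ⟨ω, fun _ => h4⟩
    · exact ⟨0, fun h => absurd h hx⟩
  choose ω hω using h3
  have hZ : Φ.Prs ((fun x => (x, ω x)) '' K) :=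
    ⟨hK.image _, by rintro _ ⟨x, hx, rfl⟩; exact (hω x hx).2⟩
  refine ⟨_, hZ, fun T hT hET => ?_⟩
  obtain ⟨c0, f0, g0⟩ := Φ.B.lat_le_glatF (V := Option τ → F)
  obtain ⟨c1, f1, g1⟩ := Φ.B.lat_le_glatF (V := Option τ → Option τ → F)
  obtain ⟨c2, f2, g2⟩ := h2 _ (tmul_finite (p := p) Φ.B.t (Φ.P.two_finite hT))
  obtain ⟨c3, f3, g3⟩ := lat_of_span Φ.B hS (na8_span _ E)
  obtain ⟨c4, f4, g4⟩ := lat_of_span Φ.B (hK.image ω) (S' := E)
    (by rintro _ ⟨x, hx, rfl⟩; exact (hω x hx).1)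
  refine ⟨fun i c => 2 * p + 2 * (c + p * (c1 i + c2 i) + c3 i + c0 i + c4 i), ?_,
    fun i c a H η hη => ?_⟩
  · filter_upwards [f0, f1, f2, f3, f4] with i e0 e1 e2 e3 e4
    simp [e0, e1, e2, e3, e4]
  obtain ⟨c5, -, g5⟩ := exists_lat Φ.B hη
  have g6 := g5 i
  generalize c5 i = m at g6
  clear g5 hη
  have hp : 2 ≤ p := (Fact.out : p.Prime).two_le
  induction m generalizing η with
  | zero => exact fun _ => ⟨η, glat_mono (by positivity) le_rfl g6, by simp⟩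
  | succ m ih =>
    intro hδ
    by_cases hm : m + 1 ≤ 2 * p + 2 * (c + p * (c1 i + c2 i) + c3 i + c0 i + c4 i)
    · exact ⟨η, glat_mono (by exact_mod_cast hm) le_rfl g6, by simp⟩
    have k1 := H (m + 1) η (lat_le_lg (glat_mono le_rfl hET g6)) hδ
    have k2 := Nat.div_add_mod ((m + 1) / 2 + c) p
    have k3 := Nat.mod_lt ((m + 1) / 2 + c) (show 0 < p by omega)
    generalize ((m + 1) / 2 + c) / p = r at k2
    have k4 : m + 1 ≤ p * (m / 2 + 1) := le_trans (by omega) (Nat.mul_le_mul_right _ hp)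
    have k5 : (m + 1 + 2) / 2 + c ≤ p * (r + 1) := by rw [mul_add_one]; omega
    have k6 : p * (r + 1 + c1 i + c2 i) + c3 i ≤ m := by
      rw [add_assoc, mul_add, mul_add_one]; omega
    obtain ⟨α, hα, β, hβ, rfl⟩ := AddSubgroup.mem_sup.1 (g2 i _ _ η
      (g0 i (m / 2 + 1 : ℕ) E (glat_mono (by exact_mod_cast k4) le_rfl g6))
      (g1 i (r + 1 : ℕ) _ (glat_mono (by exact_mod_cast k5) le_rfl k1)))
    obtain ⟨β', h5, h6⟩ := na8_nn ω hβ
    have h7 : α + β - (α + β') ∈ NN p k ((fun x => (x, ω x)) '' K) := by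
      rwa [add_sub_add_left_eq_sub]
    obtain ⟨η', h8, h9⟩ := ih (α + β')
      (add_mem (glat_mono (by exact_mod_cast k6) le_rfl (g3 i _ (glatF_le hα)))
        (glat_mono (by omega) le_rfl (g4 i _ h5))) ((Φ.δ_NN hZ h7).trans hδ)
    exact ⟨η', h8, sub_add_sub_cancel (α + β) (α + β') η' ▸ add_mem h7 h9⟩

/-- a finite family is bounded everywhere by finitely many elements; coordinates in a basis of the
span, `Pls.ld` -/
theorem Pls.finite_lat (B : Pls p k ι) {V : Type} [AddCommGroup V] [Module k V] {S : Set V}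
    (hS : S.Finite) {c : ι → ℕ} (hc : FinS c) :
    {x | x ∈ Submodule.span k S ∧ ∀ i, x ∈ B.lat i (c i) S}.Finite := by
  obtain ⟨b, h1, h2, h3⟩ := exists_linearIndependent k S
  have := (hS.subset h1).fintype
  have e : Set.range (Subtype.val : b → V) = b := Subtype.range_coe
  obtain ⟨c', k1, k2⟩ := lat_of_span B (S' := Set.range (Subtype.val : b → V)) hS fun x hx => by
    rw [e, h2]
    exact Submodule.subset_span hx
  refine ((Set.Finite.pi' fun _ : b => B.ld _ (hc.add k1)).image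
    fun a => ∑ l : b, a l • (l : V)).subset ?_
  rintro x ⟨x1, x2⟩
  rw [← h2, ← e] at x1
  obtain ⟨a, rfl⟩ := (Submodule.mem_span_range_iff_exists_fun k).1 x1
  refine ⟨a, fun l i => ?_, rfl⟩
  obtain ⟨a', a1, a2⟩ := mem_lat_range.1 (k2 i _ (x2 i))
  rw [Fintype.linearIndependent_iffₛ.1 h3 a a' a2 l, Nat.cast_add]
  exact a1 l

/-- `mem_NN_range` at each place, with coefficients `0` at the places where `η ∈ lat 0 S`
(`exists_lat`); `Pls.ad` for each pair; `finite_lat` for `S ∪ fst '' Z ∪ snd '' Z` -/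
theorem Pls.fina (B : Pls p k ι) {V : Type} [AddCommGroup V] [Module k V] {S : Set V}
    (hS : S.Finite) {Z : Set (V × V)} (hZ : Z.Finite) {M : ι → ℕ} (hM : FinS M) :
    ∃ Γ : Set V, Γ.Finite ∧ ∀ η ∈ Submodule.span k S,
      (∀ i, ∃ η' ∈ B.lat i (M i) S, η - η' ∈ NN p k Z) → ∃ γ ∈ Γ, η - γ ∈ NN p k Z := by
  obtain ⟨c, c1, c2⟩ := B.ad
  have hT := (hS.union (hZ.image Prod.fst)).union (hZ.image Prod.snd)
  obtain ⟨n, z, rfl⟩ : ∃ (n : ℕ) (z : Fin n → V × V), Z = Set.range z := exists_range hZ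
  refine ⟨_, B.finite_lat hT (hM.add (c1.mul p)), fun η hη h => ?_⟩
  obtain ⟨d, d1, d2⟩ := exists_lat B hη
  have k0 : ∀ i, ∃ a : Fin n → k, (d i = 0 → a = 0) ∧
      η - ∑ l, (a l ^ p • (z l).1 - a l • (z l).2) ∈ B.lat i (M i) S := fun i => by
    by_cases e : d i = 0
    · refine ⟨0, fun _ => rfl, ?_⟩
      have := d2 i
      rw [e] at this
      simpa [(Fact.out : p.Prime).ne_zero] using glat_mono (by omega) le_rfl this
    · obtain ⟨η', e1, e2⟩ := h i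
      obtain ⟨a, ha⟩ := mem_NN_range.1 e2
      exact ⟨a, fun e' => absurd e' e, by rwa [← ha, sub_sub_cancel]⟩
  choose a a1 a2 using k0
  choose b hb using fun l => c2 (fun i => a i l) (d1.mono fun i e => congrFun (a1 i e) l)
  have s0 : S ⊆ S ∪ Prod.fst '' Set.range z ∪ Prod.snd '' Set.range z :=
    Set.subset_union_left.trans Set.subset_union_left
  have s1 : ∀ l, (z l).1 ∈ S ∪ Prod.fst '' Set.range z ∪ Prod.snd '' Set.range z :=
    fun l => .inl (.inr ⟨_, ⟨l, rfl⟩, rfl⟩)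
  have s2 : ∀ l, (z l).2 ∈ S ∪ Prod.fst '' Set.range z ∪ Prod.snd '' Set.range z :=
    fun l => .inr ⟨_, ⟨l, rfl⟩, rfl⟩
  refine ⟨η - ∑ l, (b l ^ p • (z l).1 - b l • (z l).2), ⟨sub_mem (Submodule.span_mono s0 hη)
    (sum_mem fun l _ => sub_mem (Submodule.smul_mem _ _ (Submodule.subset_span (s1 l)))
      (Submodule.smul_mem _ _ (Submodule.subset_span (s2 l)))), fun i => ?_⟩,
    mem_NN_range.2 ⟨b, sub_sub_cancel ..⟩⟩
  have e : η - ∑ l, (b l ^ p • (z l).1 - b l • (z l).2) =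
      η - ∑ l, (a i l ^ p • (z l).1 - a i l • (z l).2) -
        ∑ l, ((b l - a i l) ^ p • (z l).1 - (b l - a i l) • (z l).2) := by
    rw [sub_sub, ← Finset.sum_add_distrib]
    refine congrArg _ (Finset.sum_congr rfl fun l _ => ?_)
    rw [sub_pow_char, sub_smul, sub_smul]
    abel
  have q : (c i : ℤ) ≤ p * c i := by
    exact_mod_cast Nat.le_mul_of_pos_left _ (Fact.out : p.Prime).pos
  rw [e]
  push_cast
  exact sub_mem (glat_mono (by omega) s0 (a2 i)) (sum_mem fun l _ => sub_mem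
    (smul_mem_lat ((B.vp i).mono ((hb l i).pow p) (by omega)) (s1 l))
    (smul_mem_lat ((B.vp i).mono (hb l i) (by omega)) (s2 l)))

end Pool.Agent.ZFN
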