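import Pool.Agent.Lib.MP_751085_ag.ZF.N.A6
import Pool.Agent.Lib.MP_751085_ag.ZF.N.A7
import Pool.Agent.Lib.MP_751085_ag.ZF.N.A8

/-! The tower and the finiteness theorem. -/

namespace Pool.Agent.ZFN

open Pool.Agent.ZCy
open scoped Classical
open Filter

variable {p : ℕ} [Fact p.Prime] {k ι F τ G : Type} [Field k] [CharP k p] [Field F] [CharP F p]
  [Algebra k F] [Fintype τ] [AddCommGroup G] (Φ : FD p k ι F τ G)

omit [Fact p.Prime] [CharP k p] [CharP F p] [Fintype τ] in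
theorem na9_drel {i : ι} {r : ℤ} {T : Set (Option τ → F)} {η : Option τ → F}
    (h : Φ.P.d2 η ∈ Φ.B.lat i r (Φ.P.two T)) : Φ.P.drel η ∈ Φ.B.lat i r (Φ.P.drel '' T) := by
  have h1 := lat_map (rel2L k) h
  have h2 := glat_trans (B := Φ.B) (φ := RingHom.id k) (i := i) (r := r) (s := 0)
    (S := rel2L k '' Φ.P.two T) (S' := Φ.P.drel '' T) (by
      rintro _ ⟨_, ⟨x, hx, rfl⟩ | ⟨x, -, rfl⟩, rfl⟩
      · exact mem_glat ⟨x, hx, rfl⟩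
      · have e : rel2L k (dtw x) = 0 := funext fun a => funext fun b => dtw_some_some x a b
        rw [e]
        exact zero_mem _) h1
  rwa [add_zero] at h2

/-- Induction on `n` for all `S`. Step: `S₁` from `stepA`, `S₂` from `stepB`, `S₃` from `stepC` for
`S₂`, induction hypothesis for `S₁ ∪ S₃`. `H2` gives order `(m + 2) / 2 ≤ m`, and `≤ m - 1` for
`m ≥ 3` (`rel2L` kills `dtw`); `m = p = 2` is `H3`. `δ_NN` keeps the class. -/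
theorem FD.tower (n : ℕ) {S : Set (Option τ → F)} (hS : S.Finite) :
    ∃ T Z, T.Finite ∧ S ⊆ T ∧ Φ.Prs Z ∧ ∀ T' : Set (Option τ → F), T'.Finite → T ⊆ T' →
      ∀ᶠ i in cofinite, ∀ a, Φ.H2 i 0 a T' → Φ.H3 i a T' → ∀ η ∈ Φ.B.lg i n S, Φ.δ η = a →
        ∃ η' ∈ Φ.B.lg i 0 T, η - η' ∈ NN p k Z := by
  induction n generalizing S with
  | zero =>
    refine ⟨S, ∅, hS, subset_rfl, ⟨Set.finite_empty, fun _ h => h.elim⟩, fun T' _ _ =>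
      Eventually.of_forall fun i a _ _ η hη _ => ⟨η, hη, ?_⟩⟩
    rw [sub_self]
    exact zero_mem _
  | succ n ih =>
    obtain ⟨S₁, Z₁, f1, s1, p1, h1⟩ := Φ.stepA hS
    obtain ⟨S₂, Z₂, f2, s2, p2, h2⟩ := Φ.stepB hS
    obtain ⟨S₃, Z₃, f3, s3, p3, h3⟩ := Φ.stepC f2
    obtain ⟨T, Z₄, f4, s4, p4, h4⟩ := ih (f1.union f3)
    have sT : S ⊆ T := s1.trans (Set.subset_union_left.trans s4)
    have s2T : S₂ ⊆ T := s3.trans (Set.subset_union_right.trans s4)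
    refine ⟨T, Z₁ ∪ Z₂ ∪ Z₃ ∪ Z₄, f4, sT, ((p1.union p2).union p3).union p4, fun T' hT' sT' => ?_⟩
    have m1 : NN p k Z₁ ≤ NN p k (Z₁ ∪ Z₂ ∪ Z₃ ∪ Z₄) := NN_mono fun z h => .inl (.inl (.inl h))
    have m2 : NN p k Z₂ ≤ NN p k (Z₁ ∪ Z₂ ∪ Z₃ ∪ Z₄) := NN_mono fun z h => .inl (.inl (.inr h))
    have m3 : NN p k Z₃ ≤ NN p k (Z₁ ∪ Z₂ ∪ Z₃ ∪ Z₄) := NN_mono fun z h => .inl (.inr h)
    have m4 : NN p k Z₄ ≤ NN p k (Z₁ ∪ Z₂ ∪ Z₃ ∪ Z₄) := NN_mono fun z h => .inr h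
    filter_upwards [h1 _ (Φ.P.two_finite hT'), h2 _ (Φ.P.two_finite hT'),
      h3 _ (hT'.image Φ.P.drel), h4 T' hT' sT'] with i a1 a2 a3 a4 a H2 H3 η hη hδ
    have d1 : Φ.P.d2 η ∈ Φ.B.lat i (n + 1 : ℕ) (Φ.P.two T') :=
      glat_mono (by omega) subset_rfl (H2 (n + 1) η (lg_mono le_rfl (sT.trans sT') hη) hδ)
    have e1 : ((n + 1 : ℕ) : ℤ) - 1 = n := by omega
    by_cases hp : p ∣ n + 1
    · obtain ⟨η₁, b1, b2⟩ := a2 (n + 1) η n.succ_pos hp hη d1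
      have b3 : Φ.δ η₁ = a := (Φ.δ_NN p2 b2).trans hδ
      have b4 : η₁ ∈ Φ.B.lat i (n + 1 : ℕ) T' := glat_mono le_rfl (s2T.trans sT') b1
      have b5 : Φ.P.drel η₁ ∈ Φ.B.lat i ((n + 1 : ℕ) - 1) (Φ.P.drel '' T') := by
        by_cases hn : 2 ≤ n
        · exact glat_mono (by omega) subset_rfl (na9_drel Φ (H2 (n + 1) η₁ (lat_le_lg b4) b3))
        · have c1 := Nat.le_of_dvd n.succ_pos hp
          have c2 := (Fact.out : p.Prime).two_le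
          obtain rfl : n = 1 := by omega
          exact H3 (by omega) η₁ b4 b3
      obtain ⟨η₂, c1, c2⟩ := a3 (n + 1) η₁ n.succ_pos hp b1 b5
      rw [e1] at c1
      obtain ⟨η₃, c3, c4⟩ := a4 a H2 H3 η₂ (lg_mono le_rfl Set.subset_union_right c1)
        ((Φ.δ_NN p3 c2).trans b3)
      refine ⟨η₃, c3, ?_⟩
      have := add_mem (add_mem (m2 b2) (m3 c2)) (m4 c4)
      rwa [sub_add_sub_cancel, sub_add_sub_cancel] at this
    · obtain ⟨η₁, b1, b2⟩ := a1 (n + 1) η hp hη d1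
      rw [e1] at b1
      obtain ⟨η₃, c3, c4⟩ := a4 a H2 H3 η₁ (lg_mono le_rfl Set.subset_union_left b1)
        ((Φ.δ_NN p1 b2).trans hδ)
      refine ⟨η₃, c3, ?_⟩
      have := add_mem (m1 b2) (m4 c4)
      rwa [sub_add_sub_cancel] at this

omit [Fintype τ] in
theorem na9_extra {Z : Set ((Option τ → F) × (Option τ → F))} (hZ : Φ.Prs Z) {x : Option τ → F}
    (hx : x ∈ NN p k (insert (0, bdt τ (1 : F)) Z)) : ∃ b : k, Φ.δ x = Φ.δ (b • bdt τ (1 : F)) := by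
  let f : k →+ G := Φ.δ.comp (LinearMap.toSpanSingleton k _ (bdt τ (1 : F))).toAddMonoidHom
  have h := NN_le (U := f.range.comap Φ.δ) (Z := insert (0, bdt τ (1 : F)) Z) (by
    rintro a z (rfl | hz)
    · refine ⟨-a, ?_⟩
      rw [smul_zero, zero_sub, ← neg_smul]
      rfl
    · refine ⟨0, ?_⟩
      rw [map_zero, map_sub]
      exact (sub_eq_zero.2 (Φ.δ_pair ((hZ.2 z hz).smul a))).symm) hx
  obtain ⟨b, hb⟩ := h
  exact ⟨b, hb.symm⟩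

/-- `contract`, `tower (2 p)`, `stepT`, `fina` with the extra pair `(0, dt)` -/
theorem FD.finf {E : Set (Option τ → F)} (hE : E.Finite) (hs : Φ.P.Stab p k E) :
    ∃ T : Set (Option τ → F), T.Finite ∧ E ⊆ T ∧ ∀ H Bf : Set F, H.Finite → Bf.Finite →
      ∀ c, FinS c → ∀ S' : Set ι, S'.Finite → ∃ Γ : Set G, Γ.Finite ∧
        ∀ η ∈ Submodule.span k E, (∀ i, Φ.H2 i (c i) (Φ.δ η) T) →
          (∀ i ∉ S', Φ.H3 i (Φ.δ η) T ∧ Φ.TOK i (Φ.δ η) T H Bf) →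
          ∃ γ ∈ Γ, ∃ b : k, Φ.δ η = γ + Φ.δ (b • bdt τ (1 : F)) := by
  obtain ⟨Z₀, p0, h0⟩ := Φ.contract hE hs
  obtain ⟨T, Z₁, f1, s1, p1, h1⟩ := Φ.tower (2 * p) hE
  refine ⟨T, f1, s1, fun H Bf hH hB c hc S' hS' => ?_⟩
  obtain ⟨U, Z₂, f2, s2, p2, h2⟩ := Φ.stepT f1 hH hB
  obtain ⟨M, hM, h3⟩ := h0 T f1 s1
  have pZ := (p0.union p1).union p2
  have hg := (((hM.and (h1 T f1 subset_rfl)).and h2).and hc).and hS'.compl_mem_cofinite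
  obtain ⟨A, hA, hA'⟩ := hg.exists_mem
  obtain ⟨Γ, g1, g2⟩ := Φ.B.fina f2 (pZ.1.insert (0, bdt τ (1 : F)))
    (M := fun i => if i ∈ A then 0 else M i (c i))
    (mem_of_superset hA fun i hi => if_pos hi)
  have m0 : NN p k Z₀ ≤ NN p k (insert (0, bdt τ (1 : F)) (Z₀ ∪ Z₁ ∪ Z₂)) :=
    NN_mono fun z h => .inr (.inl (.inl h))
  have m1 : NN p k Z₁ ≤ NN p k (insert (0, bdt τ (1 : F)) (Z₀ ∪ Z₁ ∪ Z₂)) :=
    NN_mono fun z h => .inr (.inl (.inr h))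
  have m2 : NN p k Z₂ ≤ NN p k (insert (0, bdt τ (1 : F)) (Z₀ ∪ Z₁ ∪ Z₂)) :=
    NN_mono fun z h => .inr (.inr h)
  refine ⟨Φ.δ '' Γ, g1.image _, fun η hη H2 H3 => ?_⟩
  obtain ⟨γ, g3, g4⟩ := g2 η (Submodule.span_mono (s1.trans s2) hη) fun i => by
    obtain ⟨η₁, b1, b2⟩ := h3 i (c i) _ (H2 i) η hη rfl
    by_cases hi : i ∈ A
    · obtain ⟨⟨⟨⟨a1, a2⟩, a3⟩, a4⟩, a5⟩ := hA' i hi
      have a6 := H2 i
      rw [a4] at a6 b1
      rw [a1] at b1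
      have b3 := Φ.δ_NN p0 b2
      obtain ⟨η₂, c1, c2⟩ := a2 _ a6 (H3 i a5).1 η₁ (lat_le_lg b1) b3
      obtain ⟨η₃, d1, b, d2⟩ := a3 _ (H3 i a5).2 η₂ c1 ((Φ.δ_NN p1 c2).trans b3)
      refine ⟨η₃, by rw [if_pos hi]; exact d1, ?_⟩
      have d3 := mem_NN (p := p) (-b) (Set.mem_insert (0, bdt τ (1 : F)) (Z₀ ∪ Z₁ ∪ Z₂))
      have d4 := add_mem (add_mem (add_mem (m0 b2) (m1 c2)) (m2 d2)) d3
      have e : η - η₁ + (η₁ - η₂) + (η₂ - η₃ - b • bdt τ (1 : F)) +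
          ((-b) ^ p • (0 : Option τ → F) - -b • bdt τ (1 : F)) = η - η₃ := by
        rw [smul_zero, neg_smul]
        abel
      exact e ▸ d4
    · exact ⟨η₁, by rw [if_neg hi]; exact glat_mono le_rfl (s1.trans s2) b1, m0 b2⟩
  obtain ⟨b, hb⟩ := na9_extra Φ pZ g4
  exact ⟨_, ⟨γ, g3, rfl⟩, b, by rw [← hb, map_sub, add_sub_cancel]⟩

end Pool.Agent.ZFN
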