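import Pool.Agent.Lib.MP_751085_ag.ZF.N.A3

/-! Taylor estimates. -/

namespace Pool.Agent.ZFN

open Pool.Agent.ZCy
open scoped Classical
open Filter

variable {A τ : Type} [CommRing A] [Fintype τ] {P : DR A (Option τ)}

section ring

variable {S S' : Type} [CommRing S] [CommRing S'] (Q : A →+* S) (g : τ → S)

theorem DR.grad_add (f f' : A) : P.grad Q g (f + f') = P.grad Q g f + P.grad Q g f' := by
  simp only [DR.grad, map_add, mul_add, Finset.sum_add_distrib]

theorem DR.grad_mul (f f' : A) :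
    P.grad Q g (f * f') = Q f * P.grad Q g f' + Q f' * P.grad Q g f := by
  simp only [DR.grad, Finset.mul_sum, ← Finset.sum_add_distrib]
  refine Finset.sum_congr rfl fun i _ => ?_
  rw [Derivation.leibniz, smul_eq_mul, smul_eq_mul, map_add, map_mul, map_mul]
  ring

theorem DR.grad_u (i : τ) : P.grad Q g (P.u (some i)) = g i := by
  rw [DR.grad, Finset.sum_eq_single i]
  · rw [P.self, map_one, mul_one]
  · intro j _ hj
    rw [P.ne _ _ fun h => hj (Option.some.inj h), map_zero, mul_zero]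
  · intro h
    exact absurd (Finset.mem_univ i) h

theorem DR.map_grad (e : S →+* S') (f : A) :
    e (P.grad Q g f) = P.grad (e.comp Q) (fun i => e (g i)) f := by
  simp only [DR.grad, map_sum, map_mul, RingHom.comp_apply]

theorem DR.map_qJ (e : S →+* S') (η : Option τ → A) :
    e (P.qJ Q g η) = P.qJ (e.comp Q) (fun i => e (g i)) η := by
  simp only [DR.qJ, map_sum, map_mul, DR.map_grad]

theorem DR.map_om (e : S →+* S') {D : Derivation ℤ S S} {D' : Derivation ℤ S' S'}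
    (h : ∀ a, D' (e a) = e (D a)) (ω : Option τ → Option τ → A) :
    e (P.om D Q g ω) = P.om D' (e.comp Q) (fun i => e (g i)) ω := by
  simp only [DR.om, map_sum, map_mul, RingHom.comp_apply, h]

theorem DR.map_pb (e : S →+* S') {D : Derivation ℤ S S} {D' : Derivation ℤ S' S'}
    (h : ∀ a, D' (e a) = e (D a)) (η : Option τ → A) :
    e (P.pb D Q η) = P.pb D' (e.comp Q) η := by
  simp only [DR.pb, map_sum, map_mul, RingHom.comp_apply, h]

theorem DR.pb_add (D : Derivation ℤ S S) (η η' : Option τ → A) :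
    P.pb D Q (η + η') = P.pb D Q η + P.pb D Q η' := by
  simp only [DR.pb, Pi.add_apply, map_add, add_mul, Finset.sum_add_distrib]

theorem DR.om_add (D : Derivation ℤ S S) (ω ω' : Option τ → Option τ → A) :
    P.om D Q g (ω + ω') = P.om D Q g ω + P.om D Q g ω' := by
  simp only [DR.om, Pi.add_apply, map_add, mul_add, Finset.sum_add_distrib]

theorem DR.qJ_add (η η' : Option τ → A) : P.qJ Q g (η + η') = P.qJ Q g η + P.qJ Q g η' := by
  simp only [DR.qJ, Pi.add_apply, DR.grad_add, mul_add, Finset.sum_add_distrib]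

theorem DR.CH.der (h : P.CH) (D : Derivation ℤ S S) (f : A) :
    D (Q f) = ∑ j, Q (P.d j f) * D (Q (P.u j)) := by
  refine h S Q (AddMonoidHom.mk' (fun a => D (Q a)) fun a b => by rw [map_add, map_add])
    (fun a b => ?_) f
  change D (Q (a * b)) = Q a * D (Q b) + Q b * D (Q a)
  rw [map_mul, Derivation.leibniz, smul_eq_mul, smul_eq_mul]

variable {k : Type} [Field k] [Algebra k A] {t : k} {D₀ : Derivation ℤ k k}

theorem DR.pb_smul (D : Derivation ℤ S S) (a : k) (η : Option τ → A) :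
    P.pb D Q (a • η) = Q (algebraMap k A a) * P.pb D Q η := by
  simp only [DR.pb, Pi.smul_apply, Algebra.smul_def, map_mul, Finset.mul_sum, mul_assoc]

theorem DR.om_smul (D : Derivation ℤ S S) (a : k) (ω : Option τ → Option τ → A) :
    P.om D Q g (a • ω) = Q (algebraMap k A a) * P.om D Q g ω := by
  simp only [DR.om, Finset.mul_sum]
  refine Finset.sum_congr rfl fun i _ => Finset.sum_congr rfl fun j _ => ?_
  rw [Pi.smul_apply, Pi.smul_apply, Algebra.smul_def, map_mul]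
  ring

theorem DR.Cmp.grad_smul (h : P.Cmp t D₀) (a : k) (f : A) :
    P.grad Q g (a • f) = Q (algebraMap k A a) * P.grad Q g f := by
  have h0 : P.grad Q g (algebraMap k A a) = 0 := by
    simp only [DR.grad, h.ds, map_zero, mul_zero, Finset.sum_const_zero]
  rw [Algebra.smul_def, DR.grad_mul, h0, mul_zero, add_zero]

theorem DR.Cmp.qJ_smul (h : P.Cmp t D₀) (a : k) (η : Option τ → A) :
    P.qJ Q g (a • η) = Q (algebraMap k A a) * P.qJ Q g η := by
  simp only [DR.qJ, Finset.mul_sum]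
  refine Finset.sum_congr rfl fun i _ => ?_
  rw [Pi.smul_apply, h.grad_smul]
  ring

end ring

section loc

variable {L G : Type} [Field L] [AddCommGroup G] {Λ : LocF L G} {Q x : A →+* L} {g : τ → L} {ε : L}
  {r s s' : ℤ} {f f' : A}

theorem DR.Tay.mono (h : P.Tay Λ Q x g ε s f) (hs : s ≤ s') : P.Tay Λ Q x g ε s' f :=
  Λ.vp.mono h hs

theorem DR.Tay.add (h : P.Tay Λ Q x g ε s f) (h' : P.Tay Λ Q x g ε s f') :
    P.Tay Λ Q x g ε s (f + f') := by
  have e : x (f + f') - Q (f + f') - ε * P.grad Q g (f + f') =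
      (x f - Q f - ε * P.grad Q g f) + (x f' - Q f' - ε * P.grad Q g f') := by
    rw [map_add, map_add, DR.grad_add]
    ring
  unfold DR.Tay LocF.bd
  rw [e]
  exact Bd.add h h'

theorem DR.Tay.smul {k : Type} [Field k] [Algebra k A] {t : k} {D₀ : Derivation ℤ k k}
    (hc : P.Cmp t D₀) (h : P.Tay Λ Q x g ε s f) {a : k}
    (hx : x (algebraMap k A a) = Q (algebraMap k A a)) (ha : Λ.bd s' (Q (algebraMap k A a))) :
    P.Tay Λ Q x g ε (s' + s) (a • f) := by
  have e : x (a • f) - Q (a • f) - ε * P.grad Q g (a • f) =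
      Q (algebraMap k A a) * (x f - Q f - ε * P.grad Q g f) := by
    rw [hc.grad_smul, Algebra.smul_def, map_mul, map_mul, hx]
    ring
  unfold DR.Tay LocF.bd
  rw [e]
  exact Λ.vp.mul ha h

/-- the remainder is `ε ^ 2 ∇f ∇f' + e (Q f' + ε ∇f' + e') + e' (Q f + ε ∇f)` -/
theorem DR.Tay.mul {b c : ℕ} (hr : 0 ≤ r) (hε : Λ.bd (-r) ε) (h : P.Tay Λ Q x g ε (c - 2 * r) f)
    (h' : P.Tay Λ Q x g ε (c - 2 * r) f') (h1 : Λ.bd b (Q f)) (h2 : Λ.bd b (Q f'))
    (h3 : Λ.bd b (P.grad Q g f)) (h4 : Λ.bd b (P.grad Q g f')) :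
    P.Tay Λ Q x g ε ((2 * b + 2 * c : ℕ) - 2 * r) (f * f') := by
  have V := Λ.vp
  have e : x (f * f') - Q (f * f') - ε * P.grad Q g (f * f') =
      ε * P.grad Q g f * (ε * P.grad Q g f') + (x f - Q f - ε * P.grad Q g f) * Q f' +
      (x f - Q f - ε * P.grad Q g f) * (ε * P.grad Q g f') +
      (x f - Q f - ε * P.grad Q g f) * (x f' - Q f' - ε * P.grad Q g f') +
      (x f' - Q f' - ε * P.grad Q g f') * Q f +
      (x f' - Q f' - ε * P.grad Q g f') * (ε * P.grad Q g f) := by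
    rw [map_mul, map_mul, DR.grad_mul]
    ring
  have k3 := V.mul hε h3
  have k4 := V.mul hε h4
  unfold DR.Tay LocF.bd
  rw [e]
  exact (((((V.mul_le k3 k4 (by omega)).add (V.mul_le h h2 (by omega))).add
    (V.mul_le h k4 (by omega))).add (V.mul_le h h' (by omega))).add
    (V.mul_le h' h1 (by omega))).add (V.mul_le h' k3 (by omega))

/-- `∇f' = - Q f' ^ 2 ∇f`, `x f' = (Q f + ε ∇f + e)⁻¹`, `VP.inv_add` -/
theorem DR.Tay.inv {b c : ℕ} (hr : (2 * b + c : ℕ) < r) (hε : Λ.bd (-r) ε) (e : f * f' = 1)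
    (h : P.Tay Λ Q x g ε (c - 2 * r) f) (h2 : Λ.bd b (Q f')) (h3 : Λ.bd b (P.grad Q g f)) :
    P.Tay Λ Q x g ε ((5 * b + c : ℕ) - 2 * r) f' := by
  have V := Λ.vp
  have eQ : Q f * Q f' = 1 := by rw [← map_mul, e, map_one]
  have ex : x f * x f' = 1 := by rw [← map_mul, e, map_one]
  have g1 : Q f * P.grad Q g f' + Q f' * P.grad Q g f = 0 := by
    rw [← DR.grad_mul, e]
    simp only [DR.grad, Derivation.map_one_eq_zero, map_zero, mul_zero, Finset.sum_const_zero]
  have k3 := V.mul hε h3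
  have kδ : Bd Λ.w Λ.ϖ (b - r) (x f - Q f) := by
    have : x f - Q f = ε * P.grad Q g f + (x f - Q f - ε * P.grad Q g f) := by ring
    rw [this]
    exact (V.mono k3 (by omega)).add (V.mono h (by omega))
  have ky : Bd Λ.w Λ.ϖ b (x f') := by
    have h2' : Bd Λ.w Λ.ϖ b (Q f)⁻¹ := by
      rw [inv_eq_of_mul_eq_one_right eQ]
      exact h2
    have := (V.inv_add (left_ne_zero_of_mul_eq_one eQ) h2' kδ (by omega)).2
    rwa [add_sub_cancel, inv_eq_of_mul_eq_one_right ex] at this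
  have e' : x f' - Q f' - ε * P.grad Q g f' =
      ε * P.grad Q g f * (x f - Q f) * (Q f' * Q f' * x f') -
      (x f - Q f - ε * P.grad Q g f) * (Q f' * x f') := by
    linear_combination (-(x f') + ε * P.grad Q g f * Q f' * x f' + ε * P.grad Q g f') * eQ +
      (Q f' - ε * P.grad Q g f * Q f' * Q f') * ex - ε * Q f' * g1
  unfold DR.Tay LocF.bd
  rw [e']
  exact (V.mul_le (V.mul k3 kδ) (V.mul (V.mul h2 h2) ky) (by omega)).sub
    (V.mul_le h (V.mul h2 ky) (by omega))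

end loc

/-- The `f` with this property form a subalgebra that is closed under inverses
(`LFam.exists_bd`). -/
theorem LFam.tay {p : ℕ} {k ι : Type} [Field k] [Algebra k A] {B : Pls p k ι} {k₁ : Type}
    [Field k₁] [Algebra k k₁] {D₁ : Derivation ℤ k₁ k₁} {L G : ι → Type} [∀ i, Field (L i)]
    [∀ i, AddCommGroup (G i)] (𝓛 : LFam B D₁ L G) (hc : P.Cmp B.t B.D) {gens : Set A}
    (hg : GenI k gens) (Q : A →ₐ[k] k₁) (g : τ → k₁) (f : A) :
    ∃ C : ι → ℕ → ℕ, (∀ᶠ i in cofinite, C i 0 = 0) ∧ ∀ (i : ι) (c : ℕ) (r : ℤ) (ε : L i)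
      (x : A →+* L i), c < r → C i c < r → (𝓛.Λ i).bd (-r) ε →
      (∀ a, x (algebraMap k A a) = (𝓛.e i).comp Q (algebraMap k A a)) →
      (∀ f' ∈ gens, P.Tay (𝓛.Λ i) ((𝓛.e i).comp Q) x (fun j => 𝓛.e i (g j)) ε (c - 2 * r) f') →
      P.Tay (𝓛.Λ i) ((𝓛.e i).comp Q) x (fun j => 𝓛.e i (g j)) ε (C i c - 2 * r) f := by
  let T : A → Prop := fun f =>
    ∃ C : ι → ℕ → ℕ, (∀ᶠ i in cofinite, C i 0 = 0) ∧ ∀ (i : ι) (c : ℕ) (r : ℤ) (ε : L i)
      (x : A →+* L i), c < r → C i c < r → (𝓛.Λ i).bd (-r) ε →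
      (∀ a, x (algebraMap k A a) = (𝓛.e i).comp Q (algebraMap k A a)) →
      (∀ f' ∈ gens, P.Tay (𝓛.Λ i) ((𝓛.e i).comp Q) x (fun j => 𝓛.e i (g j)) ε (c - 2 * r) f') →
      P.Tay (𝓛.Λ i) ((𝓛.e i).comp Q) x (fun j => 𝓛.e i (g j)) ε (C i c - 2 * r) f
  have hb : ∀ f f' : A, ∃ b : ι → ℕ, FinS b ∧ ∀ i,
      (𝓛.Λ i).bd (b i) ((𝓛.e i).comp (Q : A →+* k₁) f) ∧
      (𝓛.Λ i).bd (b i) ((𝓛.e i).comp (Q : A →+* k₁) f') ∧
      (𝓛.Λ i).bd (b i) (P.grad ((𝓛.e i).comp Q) (fun j => 𝓛.e i (g j)) f) ∧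
      (𝓛.Λ i).bd (b i) (P.grad ((𝓛.e i).comp Q) (fun j => 𝓛.e i (g j)) f') := by
    intro f f'
    obtain ⟨b, h1, h2⟩ := 𝓛.exists_bd (S := {Q f, Q f', P.grad (Q : A →+* k₁) g f,
      P.grad (Q : A →+* k₁) g f'}) (Set.toFinite _)
    refine ⟨b, h1, fun i => ⟨h2 (Q f) (by simp) i, h2 (Q f') (by simp) i, ?_, ?_⟩⟩
    all_goals
      rw [← DR.map_grad]
      exact h2 _ (by simp) i
  have h0 : ∀ a, T (algebraMap k A a) := by
    refine fun a => ⟨fun _ _ => 0, Eventually.of_forall fun _ => rfl,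
      fun i c r ε x _ _ _ hx _ => ?_⟩
    have e : P.grad ((𝓛.e i).comp Q) (fun j => 𝓛.e i (g j)) (algebraMap k A a) = 0 :=
      Finset.sum_eq_zero fun j _ => by rw [hc.ds, map_zero, mul_zero]
    rw [DR.Tay, hx, e, sub_self, mul_zero, sub_self]
    exact bd_zero _ _ _
  have h1 : ∀ f f', T f → T f' → T (f + f') := by
    rintro f f' ⟨C, a1, a2⟩ ⟨C', b1, b2⟩
    refine ⟨fun i c => C i c + C' i c, ?_, fun i c r ε x hc hr hε hx hG => ?_⟩
    · filter_upwards [a1, b1] with i u v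
      rw [u, v]
    · push_cast at hr ⊢
      exact ((a2 i c r ε x hc (by omega) hε hx hG).mono (by omega)).add
        ((b2 i c r ε x hc (by omega) hε hx hG).mono (by omega))
  have h2 : ∀ f f', T f → T f' → T (f * f') := by
    rintro f f' ⟨C, a1, a2⟩ ⟨C', b1, b2⟩
    obtain ⟨b, c1, c2⟩ := hb f f'
    refine ⟨fun i c => 2 * b i + 2 * (C i c + C' i c), ?_, fun i c r ε x hc hr hε hx hG => ?_⟩
    · filter_upwards [a1, b1, c1] with i u v w
      rw [u, v, w]
    · push_cast at hr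
      exact DR.Tay.mul (by omega) hε
        ((a2 i c r ε x hc (by omega) hε hx hG).mono (by push_cast; omega))
        ((b2 i c r ε x hc (by omega) hε hx hG).mono (by push_cast; omega))
        (c2 i).1 (c2 i).2.1 (c2 i).2.2.1 (c2 i).2.2.2
  have h3 : ∀ f f', T f → f * f' = 1 → T f' := by
    rintro f f' ⟨C, a1, a2⟩ e
    obtain ⟨b, c1, c2⟩ := hb f f'
    refine ⟨fun i c => 5 * b i + C i c, ?_, fun i c r ε x hc hr hε hx hG => ?_⟩
    · filter_upwards [a1, c1] with i u w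
      rw [u, w]
    · push_cast at hr
      exact DR.Tay.inv (by push_cast; omega) hε e (a2 i c r ε x hc (by omega) hε hx hG)
        (c2 i).2.1 (c2 i).2.2.1
  let U : Subalgebra k A :=
    { carrier := {f | T f}
      mul_mem' := fun h h' => h2 _ _ h h'
      add_mem' := fun h h' => h1 _ _ h h'
      algebraMap_mem' := h0 }
  have h4 : U = ⊤ := hg U (fun f hf => ⟨fun _ c => c, Eventually.of_forall fun _ => rfl,
    fun i c r ε x _ _ _ _ hG => hG f hf⟩) fun f hf f' e => h3 f f' hf e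
  exact (h4.ge Algebra.mem_top : f ∈ U)

end Pool.Agent.ZFN
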