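import Pool.Agent.Lib.MP_751085_ag.ZF.N.B1

/-! The first variation. -/

namespace Pool.Agent.ZFN

open Pool.Agent.ZCy
open scoped Classical

variable {A τ L G : Type} [CommRing A] [Fintype τ] {P : DR A (Option τ)} [Field L] [AddCommGroup G]
  {Λ : LocF L G} {Q x : A →+* L} {g : τ → L} {ε : L} {η : Option τ → A}

/-- The exact formula; `e j` is the Taylor remainder of `η j`, `ρ i` that of `u (some i)`.
Use `CH.der` for `D (Q (η (some i)))`, `Fintype.sum_option`. -/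
theorem DR.fvi (hP : P.CH) (D : Derivation ℤ L L) (h0 : x (P.u none) = Q (P.u none))
    (h1 : D (Q (P.u none)) = 1) {e : Option τ → L} {ρ : τ → L}
    (he : ∀ j, x (η j) = Q (η j) + ε * P.grad Q g (η j) + e j)
    (hρ : ∀ i, x (P.u (some i)) = Q (P.u (some i)) + ε * g i + ρ i) :
    P.pb D x η - P.pb D Q η = ε * P.om D Q g (P.d2 η) +
      D (∑ i, Q (η (some i)) * (ε * g i + ρ i)) + ε * D ε * P.qJ Q g η +
      (e none + ∑ i, (ε * P.grad Q g (η (some i)) * (ε * D (g i) + D (ρ i)) -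
        D (Q (η (some i))) * ρ i + e (some i) * D (x (P.u (some i))))) := by
  have a1 : ∑ i, ∑ j, g i * D (Q (P.u j)) * Q (P.d (some i) (η j)) =
      ∑ j, D (Q (P.u j)) * P.grad Q g (η j) := by
    rw [Finset.sum_comm]
    refine Finset.sum_congr rfl fun j _ => ?_
    rw [DR.grad, Finset.mul_sum]
    exact Finset.sum_congr rfl fun i _ => by ring
  have a2 : ∑ i, ∑ j, g i * D (Q (P.u j)) * Q (P.d j (η (some i))) =
      ∑ i, g i * D (Q (η (some i))) := by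
    refine Finset.sum_congr rfl fun i _ => ?_
    rw [DR.CH.der Q hP D (η (some i)), Finset.mul_sum]
    exact Finset.sum_congr rfl fun j _ => by ring
  have a3 : P.om D Q g (P.d2 η) = P.grad Q g (η none) +
      ∑ i, (D (Q (P.u (some i))) * P.grad Q g (η (some i)) - g i * D (Q (η (some i)))) := by
    simp only [DR.om, DR.d2, map_sub, mul_sub, Finset.sum_sub_distrib]
    rw [a1, a2, Fintype.sum_option, h1]
    ring
  have a4 : ∀ i, D (x (P.u (some i))) =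
      D (Q (P.u (some i))) + (ε * D (g i) + g i * D ε) + D (ρ i) := fun i => by
    rw [hρ i, map_add, map_add, D.leibniz, smul_eq_mul, smul_eq_mul]
  rw [a3, DR.pb, DR.pb, DR.qJ, Fintype.sum_option, Fintype.sum_option, h0, h1, he none, map_sum,
    mul_add, Finset.mul_sum, Finset.mul_sum]
  have a5 : ∑ i, x (η (some i)) * D (x (P.u (some i))) =
      ∑ i, (Q (η (some i)) * D (Q (P.u (some i))) +
        (ε * (D (Q (P.u (some i))) * P.grad Q g (η (some i)) - g i * D (Q (η (some i)))) +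
        D (Q (η (some i)) * (ε * g i + ρ i)) + ε * D ε * (g i * P.grad Q g (η (some i))) +
        (ε * P.grad Q g (η (some i)) * (ε * D (g i) + D (ρ i)) -
        D (Q (η (some i))) * ρ i + e (some i) * D (x (P.u (some i)))))) := by
    refine Finset.sum_congr rfl fun i _ => ?_
    rw [he (some i), a4 i, D.leibniz, map_add, D.leibniz]
    simp only [smul_eq_mul]
    ring
  rw [a5]
  simp only [Finset.sum_add_distrib]
  ring

theorem nb2_rem {s : ℤ} {f : A} {e : L} (h : P.Tay Λ Q x g ε s f)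
    (he : x f = Q f + ε * P.grad Q g f + e) : Bd Λ.w Λ.ϖ s e := by
  have : e = x f - Q f - ε * P.grad Q g f := by rw [he]; ring
  rw [this]
  exact h

theorem DR.fv (hP : P.CH) (h0 : x (P.u none) = Q (P.u none)) (h1 : Λ.D (Q (P.u none)) = 1)
    {μ r : ℤ} {b : ℕ} (hr : 1 ≤ r) (hε : Λ.bd (-r) ε) (hg : ∀ i, Λ.bd b (g i))
    (hq : ∀ i, Λ.bd b (Q (P.u (some i)))) (hu : ∀ i, P.Tay Λ Q x g ε (b - 2 * r) (P.u (some i)))
    (e0 : P.Tay Λ Q x g ε (μ + 1 + b - 2 * r) (η none))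
    (e1 : ∀ i, P.Tay Λ Q x g ε (μ + b - 2 * r) (η (some i)))
    (e2 : ∀ i, Λ.bd (μ + b) (Q (η (some i)))) (e3 : ∀ i, Λ.bd (μ + b) (P.grad Q g (η (some i)))) :
    ∃ z, Λ.bd (μ + 1 + 2 * b + Λ.c - 2 * r)
      (P.pb Λ.D x η - P.pb Λ.D Q η - ε * P.om Λ.D Q g (P.d2 η) - Λ.D z) := by
  have v := Λ.vp
  have dr : ∀ {r : ℤ} {a : L}, Bd Λ.w Λ.ϖ r a → Bd Λ.w Λ.ϖ (r + 1 + Λ.c) (Λ.D a) :=
    fun h => v.der (Int.natCast_nonneg _) Λ.der h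
  obtain ⟨ρ, hρ⟩ : ∃ ρ : τ → L, ∀ i, x (P.u (some i)) = Q (P.u (some i)) + ε * g i + ρ i :=
    ⟨fun i => x (P.u (some i)) - Q (P.u (some i)) - ε * g i, fun i => by ring⟩
  obtain ⟨e, he⟩ : ∃ e : Option τ → L, ∀ j, x (η j) = Q (η j) + ε * P.grad Q g (η j) + e j :=
    ⟨fun j => x (η j) - Q (η j) - ε * P.grad Q g (η j), fun j => by ring⟩
  have bρ : ∀ i, Bd Λ.w Λ.ϖ (b - 2 * r) (ρ i) := fun i => nb2_rem (hu i) (by
    rw [DR.grad_u]; exact hρ i)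
  have bx : ∀ i, Bd Λ.w Λ.ϖ b (x (P.u (some i))) := fun i => by
    rw [hρ i]
    exact (Bd.add (hq i) (v.mul_le hε (hg i) (by omega))).add (v.mono (bρ i) (by omega))
  have bq : Bd Λ.w Λ.ϖ (b + (μ + b)) (P.qJ Q g η) := bd_sum fun i _ => v.mul (hg i) (e3 i)
  refine ⟨∑ i, Q (η (some i)) * (ε * g i + ρ i), ?_⟩
  rw [DR.fvi hP Λ.D h0 h1 he hρ, show ∀ a b c d : L, a + b + c + d - a - b = c + d from
    fun _ _ _ _ => by ring]
  exact Bd.add (v.mul_le (v.mul hε (dr hε)) bq (by omega))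
    (Bd.add (v.mono (nb2_rem e0 (he none)) (by omega))
      (bd_sum fun i _ => Bd.add (Bd.sub (v.mul_le (v.mul hε (e3 i))
        (Bd.add (v.mul hε (dr (hg i))) (v.mono (dr (bρ i)) (by omega))) (by omega))
        (v.mul_le (dr (e2 i)) (bρ i) (by omega)))
        (v.mul_le (nb2_rem (e1 i) (he (some i))) (dr (bx i)) (by omega))))

/-- `p = 2`, `ε = ϖ s`: the last bracket of `fvi` is in `ϖ ^ 2 O` (`VP.der_p` for `ρ`),
`ε D ε = ϖ s ^ 2` modulo `ϖ ^ 2`, `D (ϖ ^ (-2)) = 0` -/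
theorem DR.fv2 [CharP L 2] (hΛ : Λ.Good 2) (hP : P.CH) (h0 : x (P.u none) = Q (P.u none))
    (h1 : Λ.D (Q (P.u none)) = 1) {s : L} (hs : Λ.bd 0 s) (hg : ∀ i, Λ.bd 0 (g i))
    (hq : ∀ i, Λ.bd 0 (Q (P.u (some i)))) (hu : ∀ i, P.Tay Λ Q x g (Λ.ϖ * s) (-2) (P.u (some i)))
    (e1 : ∀ j, P.Tay Λ Q x g (Λ.ϖ * s) (-2) (η j))
    (e2 : ∀ i, Λ.bd 0 (Q (η (some i)))) (e3 : ∀ i, Λ.bd 0 (P.grad Q g (η (some i)))) :
    ∃ z, Λ.bd 0 ((P.pb Λ.D x η - P.pb Λ.D Q η) / Λ.ϖ ^ 2 -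
      (s * P.om Λ.D Q g (P.d2 η) + s ^ 2 * P.qJ Q g η) / Λ.ϖ - Λ.D z) := by
  have v := Λ.vp
  have hD : ∀ z, Λ.w z ≤ 1 → Bd Λ.w Λ.ϖ 0 (Λ.D z) := fun z hz => by
    simpa [hΛ.c0] using Λ.der z hz
  have dr : ∀ {a : L}, Bd Λ.w Λ.ϖ 0 a → Bd Λ.w Λ.ϖ 0 (Λ.D a) := fun h => hD _ (bd_iff.1 h)
  obtain ⟨ρ, hρ⟩ : ∃ ρ : τ → L, ∀ i, x (P.u (some i)) = Q (P.u (some i)) + Λ.ϖ * s * g i + ρ i :=
    ⟨fun i => x (P.u (some i)) - Q (P.u (some i)) - Λ.ϖ * s * g i, fun i => by ring⟩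
  obtain ⟨e, he⟩ : ∃ e : Option τ → L,
      ∀ j, x (η j) = Q (η j) + Λ.ϖ * s * P.grad Q g (η j) + e j :=
    ⟨fun j => x (η j) - Q (η j) - Λ.ϖ * s * P.grad Q g (η j), fun j => by ring⟩
  have hε : Bd Λ.w Λ.ϖ (-1) (Λ.ϖ * s) := v.mul_le v.self hs (by omega)
  have bρ : ∀ i, Bd Λ.w Λ.ϖ (-2) (ρ i) := fun i => nb2_rem (hu i) (by
    rw [DR.grad_u]; exact hρ i)
  have bx : ∀ i, Bd Λ.w Λ.ϖ 0 (x (P.u (some i))) := fun i => by
    rw [hρ i]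
    exact (Bd.add (hq i) (v.mul_le hε (hg i) (by omega))).add (v.mono (bρ i) (by omega))
  have bq : Bd Λ.w Λ.ϖ 0 (P.qJ Q g η) := bd_sum fun i _ => v.mul_le (hg i) (e3 i) (by omega)
  have b1 : Bd Λ.w Λ.ϖ (-1) (Λ.ϖ * Λ.D s + s * (Λ.D Λ.ϖ - 1)) :=
    Bd.add (v.mul_le v.self (dr hs) (by omega))
      (v.mul_le hs ((bd_neg_one hΛ.unif).2 hΛ.dϖ) (by omega))
  have b2 : Bd Λ.w Λ.ϖ (-2) (e none + ∑ i, (Λ.ϖ * s * P.grad Q g (η (some i)) *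
      (Λ.ϖ * s * Λ.D (g i) + Λ.D (ρ i)) - Λ.D (Q (η (some i))) * ρ i +
      e (some i) * Λ.D (x (P.u (some i))))) :=
    Bd.add (nb2_rem (e1 none) (he none)) (bd_sum fun i _ => Bd.add (Bd.sub
      (v.mul_le (v.mul hε (e3 i)) (Bd.add (v.mul hε (dr (hg i)))
        (v.mono (v.der_p (p := 2) hD (by norm_num) (bρ i)) (by omega))) (by omega))
      (v.mul_le (dr (e2 i)) (bρ i) (by omega)))
      (v.mul_le (nb2_rem (e1 (some i)) (he (some i))) (dr (bx i)) (by omega)))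
  have h2 : (2 : L) = 0 := CharTwo.two_eq_zero
  have d0 : Λ.D (Λ.ϖ⁻¹ * Λ.ϖ⁻¹) = 0 := by
    rw [Λ.D.leibniz, ← two_smul L, h2, zero_smul]
  refine ⟨Λ.ϖ⁻¹ * Λ.ϖ⁻¹ * ∑ i, Q (η (some i)) * (Λ.ϖ * s * g i + ρ i), ?_⟩
  have b3 := Bd.add (v.mul_le (v.mul (v.mul v.inv hs) b1) bq (show _ ≤ 0 by omega))
    (v.mul_le (v.mul v.inv v.inv) b2 (by omega))
  rw [DR.fvi hP Λ.D h0 h1 he hρ, Λ.D.leibniz (Λ.ϖ⁻¹ * Λ.ϖ⁻¹), d0, Λ.D.leibniz Λ.ϖ s]
  refine (congrArg (Bd Λ.w Λ.ϖ 0) ?_).mp b3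
  have := Λ.ne
  simp only [smul_eq_mul]
  field_simp
  ring

theorem LocF.Good.nb2_int {p : ℕ} (hΛ : Λ.Good p) {a : L} (ha : Λ.bd (-1) a) :
    Λ.κ (a / Λ.ϖ) = 0 :=
  Λ.int _ (by rw [div_eq_mul_inv, hΛ.c0]; exact Λ.vp.mul_le ha Λ.vp.inv (by simp))

theorem LocF.Good.nb2_nd {p : ℕ} (hΛ : Λ.Good p) {a : L}
    (H : ∀ s, Λ.bd 0 s → Λ.κ (s * a / Λ.ϖ) = 0) : Λ.bd (-1) a := by
  have h := Λ.nd 0 (a / Λ.ϖ) fun s hs => by rw [← mul_div_assoc]; exact H s hs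
  rw [← mul_div_cancel₀ a Λ.ne]
  exact Λ.vp.mul_le Λ.vp.self h (by simp [hΛ.c0])

/-- `q = y ^ 2` modulo `ϖ` -/
theorem LocF.Good.sq [CharP L 2] (hΛ : Λ.Good 2) {c q : L} (hq : Λ.bd 0 q)
    (H : ∀ s, Λ.bd 0 s → Λ.κ ((s * c + s ^ 2 * q) / Λ.ϖ) = 0) : Λ.bd (-1) (q - c ^ 2) := by
  obtain ⟨y, hy⟩ := hΛ.perf q (bd_iff.1 hq)
  have h1 : Λ.bd (-1) (q - y ^ 2) := (bd_neg_one hΛ.unif).2 hy
  have h2 : Λ.bd 0 y := bd_of_pow (n := 2) two_ne_zero (by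
    rw [← sub_sub_cancel q (y ^ 2)]
    exact Bd.sub hq (Λ.vp.mono h1 (by simp)))
  have h3 : Λ.bd (-1) (c + y) := hΛ.nb2_nd fun s hs => by
    have e : s * (c + y) / Λ.ϖ = (s * c + s ^ 2 * q) / Λ.ϖ - s * s * (q - y ^ 2) / Λ.ϖ -
        ((s * y) ^ 2 - s * y) / Λ.ϖ := by ring
    rw [e, map_sub, map_sub, H s hs, hΛ.as _ (bd_iff.1 (Λ.vp.mul_le hs h2 le_rfl)),
      hΛ.nb2_int (Λ.vp.mul_le (Λ.vp.mul hs hs) h1 (by simp)), sub_zero, sub_zero]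
  have e : q - c ^ 2 = q - y ^ 2 + (c + y) * (y + y - (c + y)) := by ring
  rw [e]
  exact Bd.add h1 (Λ.vp.mul_le h3 (Bd.sub (Bd.add h2 h2) (Λ.vp.mono h3 (by simp))) (by simp))

/-- the image of `z ↦ z ^ p - z` on a finite field has prime index -/
theorem nb2_ker {p : ℕ} [Fact p.Prime] {R : Type} [Field R] [Finite R] [CharP R p] (φ : R →+ G)
    (h1 : ∀ z, φ (z ^ p - z) = 0) (h2 : φ.ker ≠ ⊤) {y : R} (hy : φ y = 0) :
    ∃ z, y = z ^ p - z := by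
  obtain ⟨f, hf⟩ : ∃ f : R →+ R, ∀ z, f z = z ^ p - z :=
    ⟨(frobenius R p).toAddMonoidHom - AddMonoidHom.id R, fun _ => rfl⟩
  have e1 : f.range.index = p := by
    rw [AddSubgroup.index_range, ← Subfield.card_bot R p]
    exact Nat.card_congr (Equiv.subtypeEquivRight fun z => by
      rw [AddMonoidHom.mem_ker, hf, sub_eq_zero, Subfield.mem_bot_iff_pow_eq_self R p])
  have e2 : f.range ≤ φ.ker := by
    rintro _ ⟨z, rfl⟩
    rw [AddMonoidHom.mem_ker, hf, h1]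
  have e3 := AddSubgroup.relIndex_mul_index e2
  have e4 := AddSubgroup.index_dvd_of_le e2
  rw [e1] at e3 e4
  rw [((Nat.dvd_prime Fact.out).1 e4).resolve_left fun h => h2 (AddSubgroup.index_eq_one.1 h)] at e3
  obtain ⟨z, hz⟩ := AddSubgroup.relIndex_eq_one.1
    (mul_right_cancel₀ (Fact.out : p.Prime).ne_zero (e3.trans (one_mul p).symm)) hy
  exact ⟨z, by rw [← hz, hf]⟩

/-- The kernel of the map induced by `y ↦ κ (y / ϖ)` on the finite residue field. -/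
theorem LocF.Good.tr {p : ℕ} [Fact p.Prime] [CharP L p] (hΛ : Λ.Good p) {κ : Type} [Field κ]
    (ρ : Λ.w.integer →+* κ) (hρ : IsRed Λ.w ρ) (hf : (Set.range ρ).Finite) (y : Λ.w.integer)
    (H : Λ.κ (y / Λ.ϖ) = 0) : ∃ z : Λ.w.integer, ρ y = ρ z ^ p - ρ z := by
  have : Finite ρ.range := hf
  let : Field ρ.range := (Finite.isField_of_domain ρ.range).toField
  have : CharP ρ.range p := .of_ringHom_of_ne_zero ρ.rangeRestrict p (Fact.out : p.Prime).ne_zero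
  obtain ⟨φ, hφ⟩ : ∃ φ : ρ.range →+ G, ∀ z : Λ.w.integer,
      φ (ρ.rangeRestrict z) = Λ.κ (z / Λ.ϖ) :=
    ⟨ρ.rangeRestrict.toAddMonoidHom.liftOfSurjective ρ.rangeRestrict_surjective
      ⟨Λ.κ.comp ((AddMonoidHom.mulRight Λ.ϖ⁻¹).comp Λ.w.integer.subtype.toAddMonoidHom),
        fun z hz => (congrArg Λ.κ (div_eq_mul_inv _ _).symm).trans (hΛ.nb2_int
          ((bd_neg_one hΛ.unif).2 ((hρ z).1 (congrArg Subtype.val hz))))⟩, fun z =>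
      (AddMonoidHom.liftOfRightInverse_comp_apply _ _ _ _ z).trans
        (congrArg Λ.κ (div_eq_mul_inv _ _).symm)⟩
  obtain ⟨z, hz⟩ := nb2_ker (p := p) φ (fun z => by
      obtain ⟨z, rfl⟩ := ρ.rangeRestrict_surjective z
      exact ((congrArg φ (by rw [map_sub, map_pow])).trans (hφ (z ^ p - z))).trans (hΛ.as z z.2))
    (fun h => ((bd_neg_one hΛ.unif).1 (hΛ.nb2_nd (a := 1) fun s hs => by
      rw [mul_one]
      exact (hφ ⟨s, bd_iff.1 hs⟩).symm.trans (h.ge (AddSubgroup.mem_top _)))).ne Λ.w.map_one)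
    ((hφ y).trans H)
  obtain ⟨z, rfl⟩ := ρ.rangeRestrict_surjective z
  exact ⟨z, congrArg Subtype.val hz⟩

end Pool.Agent.ZFN
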