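import Pool.Agent.Lib.MP_751085_ag.ZF.N.B2

/-! Arcs bound the differential. -/

namespace Pool.Agent.ZFN

open Pool.Agent.ZCy
open scoped Classical
open Filter

variable {p : ℕ} [Fact p.Prime] {k ι A τ k₁ : Type} [Field k] [CharP k p] [CommRing A] [Algebra k A]
  [Fintype τ] [Field k₁] [Algebra k k₁] {B : Pls p k ι} {D₁ : Derivation ℤ k₁ k₁} {L G : ι → Type}
  [∀ i, Field (L i)] [∀ i, AddCommGroup (G i)] (𝓛 : LFam B D₁ L G) {P : DR A (Option τ)}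
  {gens : Set A} {T : Set (Option τ → A)} {s : ℕ} {Q : Fin s → A →ₐ[k] k₁} {g : Fin s → τ → k}

/-- the arcs along all the jets at the place `i` on which the value of `η` is constant -/
def LFam.Arc (P : DR A (Option τ)) (gens : Set A) (Q : Fin s → A →ₐ[k] k₁) (g : Fin s → τ → k)
    (i : ι) (c : ℕ) (η : Option τ → A) : Prop :=
  ∀ j, P.AV (𝓛.Λ i) k gens ((𝓛.e i).comp (Q j)) (fun l => 𝓛.e i (algebraMap k k₁ (g j l))) c
    fun x => (𝓛.Λ i).κ (P.pb (𝓛.Λ i).D x η) = (𝓛.Λ i).κ (P.pb (𝓛.Λ i).D ((𝓛.e i).comp (Q j)) η)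

omit [Fact p.Prime] [CharP k p] in
theorem nb3_tay (hc : P.Cmp B.t B.D) (hg : GenI k gens) (Q : A →ₐ[k] k₁) (g : τ → k₁) {F : Set A}
    (hF : F.Finite) : ∃ C : ι → ℕ → ℕ, (∀ᶠ i in cofinite, C i 0 = 0) ∧ ∀ (i : ι) (c : ℕ) (r : ℤ)
      (ε : L i) (x : A →+* L i), c < r → C i c < r → (𝓛.Λ i).bd (-r) ε →
      (∀ a, x (algebraMap k A a) = (𝓛.e i).comp Q (algebraMap k A a)) →
      (∀ f' ∈ gens, P.Tay (𝓛.Λ i) ((𝓛.e i).comp Q) x (fun j => 𝓛.e i (g j)) ε (c - 2 * r) f') →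
      ∀ f ∈ F, P.Tay (𝓛.Λ i) ((𝓛.e i).comp Q) x (fun j => 𝓛.e i (g j)) ε (C i c - 2 * r) f := by
  choose C hC0 hC using fun f => 𝓛.tay hc hg Q g f
  refine ⟨fun i c => ∑ f ∈ hF.toFinset, C f i c, ?_, fun i c r ε x h1 h2 h3 h4 h5 f hf => ?_⟩
  · exact finS_sum (c := fun f i => C f i 0) fun f _ => hC0 f
  · have hle : C f i c ≤ ∑ f ∈ hF.toFinset, C f i c :=
      Finset.single_le_sum (f := fun f => C f i c) (fun _ _ => Nat.zero_le _)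
        (hF.mem_toFinset.2 hf)
    have h2' : ((∑ f ∈ hF.toFinset, C f i c : ℕ) : ℤ) < r := h2
    refine (hC f i c r ε x h1 (by omega) h3 h4 h5).mono ?_
    change (C f i c : ℤ) - 2 * r ≤ ((∑ f ∈ hF.toFinset, C f i c : ℕ) : ℤ) - 2 * r
    omega

omit [Fact p.Prime] [CharP k p] in
theorem nb3_lat (hc : P.Cmp B.t B.D) (Q : A →ₐ[k] k₁) {i : ι} {g : τ → L i} {x : A →+* L i}
    {ε : L i} {μ b s : ℤ} (hx : ∀ a, x (algebraMap k A a) = (𝓛.e i).comp Q (algebraMap k A a))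
    {l : Option τ} (h : ∀ η ∈ T, P.Tay (𝓛.Λ i) ((𝓛.e i).comp Q) x g ε s (η l) ∧
      (𝓛.Λ i).bd b ((𝓛.e i).comp Q (η l)) ∧ (𝓛.Λ i).bd b (P.grad ((𝓛.e i).comp Q) g (η l)))
    {η : Option τ → A} (hη : η ∈ B.lat i μ T) :
    P.Tay (𝓛.Λ i) ((𝓛.e i).comp Q) x g ε (μ + s) (η l) ∧
      (𝓛.Λ i).bd (μ + b) ((𝓛.e i).comp Q (η l)) ∧
        (𝓛.Λ i).bd (μ + b) (P.grad ((𝓛.e i).comp Q) g (η l)) := by
  refine glat_ind (P := fun η : Option τ → A =>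
    P.Tay (𝓛.Λ i) ((𝓛.e i).comp Q) x g ε (μ + s) (η l) ∧
      (𝓛.Λ i).bd (μ + b) ((𝓛.e i).comp Q (η l)) ∧
        (𝓛.Λ i).bd (μ + b) (P.grad ((𝓛.e i).comp Q) g (η l))) ?_ ?_ ?_ hη
  · have e : P.grad ((𝓛.e i).comp (Q : A →+* k₁)) g 0 = 0 := by simp [DR.grad]
    refine ⟨?_, ?_, ?_⟩
    · unfold DR.Tay
      rw [Pi.zero_apply, e, map_zero, map_zero, mul_zero, sub_zero, sub_zero]
      exact bd_zero _ _ _
    · rw [Pi.zero_apply, map_zero]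
      exact bd_zero _ _ _
    · rw [Pi.zero_apply, e]
      exact bd_zero _ _ _
  · intro a η₀ ha h0
    obtain ⟨h1, h2, h3⟩ := h η₀ h0
    have ha' : (𝓛.Λ i).bd μ ((𝓛.e i).comp (Q : A →+* k₁) (algebraMap k A a)) := by
      rw [RingHom.comp_apply, RingHom.coe_coe, AlgHom.commutes]
      exact 𝓛.bd_iff.2 ha
    rw [RingHom.id_apply, Pi.smul_apply]
    refine ⟨h1.smul hc (hx a) ha', ?_, ?_⟩
    · rw [Algebra.smul_def, map_mul]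
      exact (𝓛.Λ i).vp.mul ha' h2
    · rw [hc.grad_smul]
      exact (𝓛.Λ i).vp.mul ha' h3
  · intro η₁ η₂ h1 h2
    rw [Pi.add_apply, map_add, DR.grad_add]
    exact ⟨h1.1.add h2.1, Bd.add h1.2.1 h2.2.1, Bd.add h1.2.2 h2.2.2⟩

omit [Fact p.Prime] [CharP k p] [Fintype τ] in
theorem nb3_vert {i : ι} {μ : ℤ} {η : Option τ → A} (hη : η ∈ B.lat i μ (vert T)) (l : τ) :
    η (some l) = 0 := by
  refine glat_ind (P := fun η : Option τ → A => η (some l) = 0) rfl ?_ ?_ hη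
  · intro a η₀ _ h0
    rw [Pi.smul_apply, h0.2 l, smul_zero]
  · intro η₁ η₂ h1 h2
    rw [Pi.add_apply, h1, h2, add_zero]

/-- One jet. `LFam.tay` for the coordinates of the elements of `T` and the `u (some i)`, one constant
`b` for all bounds; `r = (m + 2) / 2 + C`; `fv`, `ex`, `int`, `nd`. -/
theorem LFam.om_bd (hc : P.Cmp B.t B.D) (hP : P.CH) (hg : GenI k gens) (hT : T.Finite) (j : Fin s) :
    ∃ C : ι → ℕ → ℕ, (∀ᶠ i in cofinite, C i 0 = 0) ∧ ∀ (i : ι) (c m : ℕ), ∀ η ∈ B.lg i m T,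
      𝓛.Arc P gens Q g i c η → (𝓛.Λ i).bd ((m + 2) / 2 + C i c : ℕ)
        (𝓛.e i (P.om D₁ (Q j) (fun l => algebraMap k k₁ (g j l)) (P.d2 η))) := by
  set g' : τ → k₁ := fun l => algebraMap k k₁ (g j l) with hg'
  let F : Set A := (⋃ l : Option τ, (fun η : Option τ → A => η l) '' T) ∪
    Set.range fun l => P.u (some l)
  have hF : F.Finite :=
    (Set.finite_iUnion fun l => hT.image _).union (Set.finite_range _)
  obtain ⟨CT, hCT0, hCT⟩ := nb3_tay 𝓛 hc hg (Q j) g' hF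
  obtain ⟨b₀, hb0, hb⟩ := 𝓛.exists_bd (S := Set.range g' ∪ (Q j '' F ∪
    P.grad (Q j : A →+* k₁) g' '' F)) ((Set.finite_range _).union ((hF.image _).union (hF.image _)))
  refine ⟨fun i c => c + CT i c + b₀ i + 2 * (𝓛.Λ i).c, ?_, fun i c m η hη hA => ?_⟩
  · filter_upwards [hCT0, hb0, 𝓛.good] with i h1 h2 h3
    rw [h1, h2, h3.c0]
  have vp := (𝓛.Λ i).vp
  obtain ⟨α, hα, β, hβ, rfl⟩ := mem_lg.1 hη
  rw [DR.map_om (Q j : A →+* k₁) g' (𝓛.e i) (𝓛.D i)]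
  have hm : 1 ≤ (m + 2) / 2 ∧ m + 1 ≤ 2 * ((m + 2) / 2) := by omega
  set n := (m + 2) / 2 with hn
  have key := (𝓛.Λ i).nd ((n + c + CT i c + b₀ i + (𝓛.Λ i).c : ℕ) : ℤ)
    (P.om (𝓛.Λ i).D ((𝓛.e i).comp (Q j)) (fun l => 𝓛.e i (g' l)) (P.d2 (α + β))) fun ε hε => ?_
  · refine vp.mono key (le_of_eq ?_)
    push_cast
    ring
  set r : ℤ := ((n + c + CT i c + b₀ i + (𝓛.Λ i).c : ℕ) : ℤ) with hr
  obtain ⟨x, hx, hx1, hx2⟩ := hA j r ε (by omega) hε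
  have hT1 := hCT i c r ε x (by omega) (by omega) hε hx hx1
  set b : ℕ := CT i c + b₀ i with hbb
  have hF1 : ∀ f ∈ F, P.Tay (𝓛.Λ i) ((𝓛.e i).comp (Q j)) x (fun l => 𝓛.e i (g' l)) ε
      (b - 2 * r) f ∧ (𝓛.Λ i).bd b ((𝓛.e i).comp (Q j : A →+* k₁) f) ∧
      (𝓛.Λ i).bd b (P.grad ((𝓛.e i).comp (Q j)) (fun l => 𝓛.e i (g' l)) f) := by
    intro f hf
    refine ⟨(hT1 f hf).mono (by omega), vp.mono (hb _ (Or.inr (Or.inl ⟨f, hf, rfl⟩)) i) (by omega),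
      ?_⟩
    rw [← DR.map_grad]
    exact vp.mono (hb _ (Or.inr (Or.inr ⟨f, hf, rfl⟩)) i) (by omega)
  have hF2 := fun (l : Option τ) (η : Option τ → A) (hη : η ∈ T) =>
    hF1 (η l) (Or.inl (Set.mem_iUnion.2 ⟨l, η, hη, rfl⟩))
  have hF3 := fun l : τ => hF1 (P.u (some l)) (Or.inr ⟨l, rfl⟩)
  have ha := fun l => nb3_lat 𝓛 hc (Q j) hx (hF2 l) hα
  have hb' := nb3_lat 𝓛 hc (Q j) hx (hF2 none) (glat_mono le_rfl vert_sub hβ)
  have hs : ∀ l, (α + β) (some l) = α (some l) := fun l => by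
    rw [Pi.add_apply, nb3_vert hβ l, add_zero]
  have h1 : (𝓛.Λ i).D ((𝓛.e i).comp (Q j : A →+* k₁) (P.u none)) = 1 := by
    rw [hc.u, RingHom.comp_apply, RingHom.coe_coe, AlgHom.commutes, 𝓛.D, 𝓛.D0, B.Dt, map_one,
      map_one]
  obtain ⟨z, hz⟩ := DR.fv (Λ := 𝓛.Λ i) (η := α + β) (μ := m) (r := r) (b := b) hP
    (by rw [hc.u]; exact hx _) h1 (by omega) hε
    (fun l => vp.mono (hb _ (Or.inl ⟨l, rfl⟩) i) (by omega)) (fun l => (hF3 l).2.1)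
    (fun l => (hF3 l).1)
    (((ha none).1.mono (by omega)).add (hb'.1.mono (by omega)))
    (fun l => by rw [hs]; exact (ha (some l)).1.mono (by omega))
    (fun l => by rw [hs]; exact (ha (some l)).2.1) (fun l => by rw [hs]; exact (ha (some l)).2.2)
  have h0 := (𝓛.Λ i).int _ (vp.mono hz (by omega))
  rw [map_sub, map_sub, map_sub, hx2, (𝓛.Λ i).ex, sub_self, sub_zero, zero_sub, neg_eq_zero] at h0
  exact h0

/-- `Det.two`, `d2_mem_span`, `LFam.exists_bd` for the matrix, `LFam.bd_iff` -/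
theorem LFam.h2 (hc : P.Cmp B.t B.D) (hP : P.CH) (hg : GenI k gens) (hT : T.Finite)
    (hD : P.Det p T D₁ Q g) : ∃ C : ι → ℕ → ℕ, (∀ᶠ i in cofinite, C i 0 = 0) ∧
      ∀ (i : ι) (c m : ℕ), ∀ η ∈ B.lg i m T, 𝓛.Arc P gens Q g i c η →
        P.d2 η ∈ B.lat i ((m + 2) / 2 + C i c : ℕ) (P.two T) := by
  choose C hC0 hC using fun j => 𝓛.om_bd (Q := Q) (g := g) hc hP hg hT j
  obtain ⟨n, w, M, hw, hM⟩ := hD.two
  obtain ⟨b₀, hb0, hb⟩ := 𝓛.exists_bd (Set.finite_range fun q : Fin n × Fin s => M q.1 q.2)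
  refine ⟨fun i c => b₀ i + ∑ j, C j i c, ?_, fun i c m η hη hA => ?_⟩
  · exact hb0.add (finS_sum (c := fun j i => C j i 0) fun j _ => hC0 j)
  obtain ⟨z, hz, hz'⟩ := hM _ (hc.d2_mem_span (span_of_lat (lg_le_lat hη)))
  rw [hz]
  refine sum_mem fun b _ => smul_mem_lat (𝓛.bd_iff.1 ?_) (hw b)
  rw [hz', map_sum]
  refine bd_sum fun j _ => ?_
  rw [map_mul]
  have hle : C j i c ≤ ∑ j, C j i c :=
    Finset.single_le_sum (f := fun j => C j i c) (fun _ _ => Nat.zero_le _) (Finset.mem_univ j)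
  refine (𝓛.Λ i).vp.mul_le (hb _ ⟨(b, j), rfl⟩ i) (hC j i c m η hη hA) ?_
  change (b₀ i : ℤ) + (((m + 2) / 2 + C j i c : ℕ) : ℤ) ≤
    (((m + 2) / 2 + (b₀ i + ∑ j, C j i c) : ℕ) : ℤ)
  omega

/-- one jet at a good place -/
theorem nb3_jet (hp : p = 2) (hc : P.Cmp B.t B.D) (hP : P.CH) (hg : GenI k gens) (hT : T.Finite)
    (j : Fin s) : ∀ᶠ i in cofinite, ∀ η ∈ B.lat i 0 T, 𝓛.Arc P gens Q g i 0 ((B.π i ^ 2)⁻¹ • η) →
      (𝓛.Λ i).bd (-1) (𝓛.e i (P.qJ (Q j : A →+* k₁) (fun l => algebraMap k k₁ (g j l)) η -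
        P.om D₁ (Q j) (fun l => algebraMap k k₁ (g j l)) (P.d2 η) ^ 2)) := by
  subst hp
  choose C hC0 hC using 𝓛.tay hc hg (Q j) (fun l => algebraMap k k₁ (g j l))
  have f1 : ∀ᶠ i in cofinite, ∀ t ∈ T, ∀ l, C (t l) i 0 = 0 :=
    (eventually_all_finite hT).2 fun t _ => eventually_all.2 fun l => hC0 _
  have f2 : ∀ᶠ i in cofinite, ∀ l, C (P.u (some l)) i 0 = 0 := eventually_all.2 fun l => hC0 _
  have f3 : ∀ᶠ i in cofinite, ∀ l, (𝓛.Λ i).w (𝓛.e i (algebraMap k k₁ (g j l))) ≤ 1 :=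
    eventually_all.2 fun l => 𝓛.fs _
  have f4 : ∀ᶠ i in cofinite, ∀ l, (𝓛.Λ i).w (𝓛.e i (Q j (P.u (some l)))) ≤ 1 :=
    eventually_all.2 fun l => 𝓛.fs _
  have f5 : ∀ᶠ i in cofinite, ∀ t ∈ T, ∀ l, (𝓛.Λ i).w (𝓛.e i (Q j (t (some l)))) ≤ 1 :=
    (eventually_all_finite hT).2 fun t _ => eventually_all.2 fun l => 𝓛.fs _
  have f6 : ∀ᶠ i in cofinite, ∀ t ∈ T, ∀ l, (𝓛.Λ i).w (𝓛.e i (P.grad (Q j : A →+* k₁)
      (fun l => algebraMap k k₁ (g j l)) (t (some l)))) ≤ 1 :=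
    (eventually_all_finite hT).2 fun t _ => eventually_all.2 fun l => 𝓛.fs _
  filter_upwards [f1, f2, f3, f4, f5, f6, 𝓛.good] with i f1 f2 f3 f4 f5 f6 hG η hη hA
  have : CharP (L i) 2 :=
    charP_of_injective_ringHom ((𝓛.e i).comp (algebraMap k k₁)).injective 2
  have hv := (𝓛.Λ i).vp
  have hQ : ∀ a, (𝓛.e i).comp (Q j : A →+* k₁) (algebraMap k A a) = 𝓛.e i (algebraMap k k₁ a) :=
    fun a => by simp
  have hb : ∀ a, B.bd i 0 a →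
      (𝓛.Λ i).bd 0 ((𝓛.e i).comp (Q j : A →+* k₁) (algebraMap k A a)) := fun a ha => by
    rw [hQ]
    exact 𝓛.bd_iff.2 ha
  have e23 : ∀ l, (𝓛.Λ i).bd 0 ((𝓛.e i).comp (Q j : A →+* k₁) (η (some l))) ∧
      (𝓛.Λ i).bd 0 (P.grad ((𝓛.e i).comp (Q j : A →+* k₁))
        (fun l => 𝓛.e i (algebraMap k k₁ (g j l))) (η (some l))) := fun l => by
    refine glat_ind (P := fun η => (𝓛.Λ i).bd 0 ((𝓛.e i).comp (Q j : A →+* k₁) (η (some l))) ∧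
      (𝓛.Λ i).bd 0 (P.grad ((𝓛.e i).comp (Q j : A →+* k₁))
        (fun l => 𝓛.e i (algebraMap k k₁ (g j l))) (η (some l)))) ?_ (fun a t ha ht => ?_)
      (fun x y hx hy => ?_) hη
    · simpa [DR.grad, LocF.bd] using bd_zero _ _ _
    · rw [RingHom.id_apply, Pi.smul_apply, hc.grad_smul, Algebra.smul_def, map_mul,
        ← DR.map_grad]
      exact ⟨hv.mul_le (hb a ha) (bd_iff.2 (f5 t ht l)) le_rfl,
        hv.mul_le (hb a ha) (bd_iff.2 (f6 t ht l)) le_rfl⟩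
    · rw [Pi.add_apply, map_add, DR.grad_add]
      exact ⟨hx.1.add hy.1, hx.2.add hy.2⟩
  rw [map_sub, map_pow, DR.map_qJ, DR.map_om _ _ _ (𝓛.D i)]
  refine hG.sq (bd_sum fun l _ => hv.mul_le (bd_iff.2 (f3 l)) (e23 l).2 le_rfl) fun σ hσ => ?_
  have hε : (𝓛.Λ i).bd (-1) ((𝓛.Λ i).ϖ * σ) := hv.mul_le hv.self hσ le_rfl
  obtain ⟨x, hx, hgen, hκ⟩ := hA j 1 _ (by norm_num) hε
  have tay : ∀ f, C f i 0 = 0 → P.Tay (𝓛.Λ i) ((𝓛.e i).comp (Q j : A →+* k₁)) x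
      (fun l => 𝓛.e i (algebraMap k k₁ (g j l))) ((𝓛.Λ i).ϖ * σ) (-2) f := fun f hf => by
    have := hC f i 0 1 _ x (by norm_num) (by rw [hf]; norm_num) hε hx hgen
    rw [hf] at this
    exact this.mono (by norm_num)
  have e1 : ∀ l, P.Tay (𝓛.Λ i) ((𝓛.e i).comp (Q j : A →+* k₁)) x
      (fun l => 𝓛.e i (algebraMap k k₁ (g j l))) ((𝓛.Λ i).ϖ * σ) (-2) (η l) := fun l => by
    refine glat_ind (P := fun η => P.Tay (𝓛.Λ i) ((𝓛.e i).comp (Q j : A →+* k₁)) x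
      (fun l => 𝓛.e i (algebraMap k k₁ (g j l))) ((𝓛.Λ i).ϖ * σ) (-2) (η l)) ?_
      (fun a t ha ht => ?_) (fun x y hx hy => hx.add hy) hη
    · simpa [DR.Tay, DR.grad, LocF.bd] using bd_zero _ _ _
    · exact (DR.Tay.smul hc (tay _ (f1 t ht l)) (hx a) (hb a ha)).mono (by norm_num)
  obtain ⟨z, hz⟩ := DR.fv2 hG hP (by rw [hc.u]; exact hx _)
    (by rw [hc.u, hQ, 𝓛.D, 𝓛.D0, B.Dt, map_one, map_one]) hσ (fun l => bd_iff.2 (f3 l))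
    (fun l => bd_iff.2 (f4 l)) (fun l => tay _ (f2 l)) e1 (fun l => (e23 l).1) fun l => (e23 l).2
  have h1 := (𝓛.Λ i).int _ (by rw [hG.c0]; exact hz)
  rw [DR.pb_smul, DR.pb_smul, hx, hQ, map_inv₀, map_inv₀, map_pow, map_pow, ← 𝓛.ϖ] at hκ
  rw [map_sub, map_sub, (𝓛.Λ i).ex, sub_div, map_sub, div_eq_inv_mul, div_eq_inv_mul _ (_ ^ 2),
    hκ] at h1
  simpa using h1

/-- `η = π ^ (-2) • η₀`, `fv2`, `Good.sq`, `Det.three` for `η₀` -/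
theorem LFam.h3 (hp : p = 2) (hc : P.Cmp B.t B.D) (hP : P.CH) (hg : GenI k gens) (hT : T.Finite)
    (hD : P.Det p T D₁ Q g) : ∀ᶠ i in cofinite, ∀ η ∈ B.lat i 2 T, 𝓛.Arc P gens Q g i 0 η →
      P.drel η ∈ B.lat i 1 (P.drel '' T) := by
  obtain ⟨n, w, M, hw, hz⟩ := hD.three hp
  have f1 := eventually_all.2 fun j => nb3_jet 𝓛 (Q := Q) (g := g) hp hc hP hg hT j
  have f2 : ∀ᶠ i in cofinite, ∀ b j, (𝓛.Λ i).w (𝓛.e i (M b j)) ≤ 1 :=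
    eventually_all.2 fun b => eventually_all.2 fun j => 𝓛.fs _
  filter_upwards [f1, f2] with i f1 f2 η hη hA
  have hv := B.vp i
  have h2 : B.bd i (-2) (B.π i ^ 2) := by simpa [Pls.bd] using hv.self.pow 2
  have h3 : B.bd i 2 (B.π i ^ 2)⁻¹ := by simpa [Pls.bd] using hv.inv.pow 2
  have h0 : B.π i ^ 2 • η ∈ B.lat i 0 T := by simpa using lat_smul h2 hη
  have e : (B.π i ^ 2)⁻¹ • B.π i ^ 2 • η = η := inv_smul_smul₀ (pow_ne_zero _ hv.ne) η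
  obtain ⟨z, z1, z2⟩ := hz _ (span_of_lat h0)
  rw [← e, hc.drel_smul, z1, Finset.smul_sum]
  refine sum_mem fun b _ => ?_
  rw [smul_smul]
  refine smul_mem_lat (hv.mul_le (s := -1) h3 (𝓛.bd_iff.1 ?_) (by norm_num)) (hw b)
  rw [z2, map_sum]
  refine bd_sum fun j _ => ?_
  rw [map_mul]
  exact (𝓛.Λ i).vp.mul_le (ZFN.bd_iff.2 (f2 b j)) (f1 j _ h0 (e.symm ▸ hA)) (by norm_num)

variable {F G₀ : Type} [Field F] [CharP F p] [Algebra k F] [AddCommGroup G₀]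

/-- the forms over `A` as forms over `F` -/
def up1 {I : Type} (j : A →ₐ[k] F) : (I → A) →ₗ[k] I → F := j.toLinearMap.compLeft I

theorem nb3_vertu (j : A →ₐ[k] F) (hj : Function.Injective j) (T : Set (Option τ → A)) :
    vert (up1 j '' T) ⊆ up1 j '' vert T := by
  rintro _ ⟨⟨t, ht, rfl⟩, h⟩
  exact ⟨t, ⟨ht, fun l => hj ((h l).trans (map_zero j).symm)⟩, rfl⟩

theorem nb3_d2 {P' : DR F (Option τ)} (j : A →ₐ[k] F) (hd : ∀ l f, j (P.d l f) = P'.d l (j f))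
    (η : Option τ → A) : P'.d2 (up1 j η) = (up1 j).compLeft _ (P.d2 η) := by
  funext a b
  exact (congrArg₂ (· - ·) (hd a _).symm (hd b _).symm).trans (map_sub j _ _).symm

theorem nb3_dtw (j : A →ₐ[k] F) (η : Option τ → A) :
    dtw (up1 j η) = (up1 j).compLeft _ (dtw η) := by
  funext a b
  cases a <;> cases b <;> simp [dtw, bdt, up1]

/-- Transfer to `F`: `lat_map`, `lat_map_ex`; `vert`, `d2`, `dtw`, `drel` commute with `up1`. -/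
theorem LFam.h23 (Φ : FD p k ι F τ G₀) (𝓛 : LFam Φ.B D₁ L G) (j : A →ₐ[k] F)
    (hj : Function.Injective j) (hd : ∀ l f, j (P.d l f) = Φ.P.d l (j f))
    (hc : P.Cmp Φ.B.t Φ.B.D) (hP : P.CH) (hg : GenI k gens) (hT : T.Finite)
    (hD : P.Det p T D₁ Q g) : ∃ (C : ι → ℕ → ℕ) (S₀ : Set ι), (∀ᶠ i in cofinite, C i 0 = 0) ∧
      S₀.Finite ∧ ∀ (i : ι) (c : ℕ) (a : G₀),
        (∀ η, Φ.δ (up1 j η) = a → 𝓛.Arc P gens Q g i c η) →
        Φ.H2 i (C i c) a (up1 j '' T) ∧ (i ∉ S₀ → c = 0 → Φ.H3 i a (up1 j '' T)) := by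
  obtain ⟨C, hC0, hC⟩ := 𝓛.h2 hc hP hg hT hD
  have h3 : ∀ᶠ i in cofinite, p = 2 → ∀ η ∈ Φ.B.lat i 2 T, 𝓛.Arc P gens Q g i 0 η →
      P.drel η ∈ Φ.B.lat i 1 (P.drel '' T) := by
    by_cases hp : p = 2
    · filter_upwards [𝓛.h3 hp hc hP hg hT hD] with i hi _ using hi
    · exact Eventually.of_forall fun i h => absurd h hp
  refine ⟨C, _, hC0, h3, fun i c a hA => ⟨fun m η hη ha => ?_, fun hi h0 hp η hη ha => ?_⟩⟩
  · obtain ⟨α, hα, β, hβ, rfl⟩ := mem_lg.1 hη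
    obtain ⟨α', hα', rfl⟩ := lat_map_ex _ hα
    obtain ⟨β', hβ', rfl⟩ := lat_map_ex _ (glat_mono le_rfl (nb3_vertu j hj T) hβ)
    rw [← map_add] at ha ⊢
    rw [nb3_d2 j hd]
    refine glat_mono le_rfl ?_ (lat_map ((up1 j).compLeft _)
      (hC i c m _ (mem_lg.2 ⟨α', hα', β', hβ', rfl⟩) (hA _ ha)))
    rintro _ ⟨_, ⟨t, ht, rfl⟩ | ⟨t, ht, rfl⟩, rfl⟩
    · exact Or.inl ⟨_, ⟨t, ht, rfl⟩, nb3_d2 j hd t⟩
    · exact Or.inr ⟨_, ⟨t, ht, rfl⟩, nb3_dtw j t⟩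
  · obtain ⟨η', hη', rfl⟩ := lat_map_ex _ hη
    subst h0
    have e : ∀ t, Φ.P.drel (up1 j t) = (up1 j).compLeft _ (P.drel t) := fun t => by
      funext a b
      exact congrFun (congrFun (nb3_d2 j hd t) (some a)) (some b)
    rw [e]
    refine glat_mono le_rfl ?_ (lat_map ((up1 j).compLeft _)
      (not_not.1 hi hp η' hη' (hA _ ha)))
    rintro _ ⟨_, ⟨t, ht, rfl⟩, rfl⟩
    exact ⟨_, ⟨t, ht, rfl⟩, e t⟩

end Pool.Agent.ZFN
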