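import Pool.Agent.Lib.MP_751085_ag.ZF.N.B1

/-! The choice of the jets. -/

namespace Pool.Agent.ZFN

open Pool.Agent.ZCy
open scoped Classical

/-- Finitely many vectors with pairwise unrelated indices span. Induction on the codimension of the
span of the vectors chosen so far. -/
theorem exists_span_sep {X Y I Ω : Type} [Fintype I] [Field Ω] (V : X → Y → I → Ω)
    (R : X → X → Prop) (hR : ∀ x, {x' | R x x' ∨ R x' x}.Finite) (good : Y → Prop)
    (H : ∀ bad : Set X, bad.Finite → ∀ l : (I → Ω) →ₗ[Ω] Ω,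
      (∀ x ∉ bad, ∀ y, good y → l (V x y) = 0) → ∀ x y, l (V x y) = 0)
    (H1 : ∀ bad : Set X, bad.Finite → ∃ x ∉ bad, ∃ y, good y) :
    ∃ (s : ℕ) (x : Fin s → X) (y : Fin s → Y), 0 < s ∧ (∀ j, good (y j)) ∧
      (∀ j j', j ≠ j' → ¬R (x j) (x j')) ∧
      ∀ x' y', V x' y' ∈ Submodule.span Ω (Set.range fun j => V (x j) (y j)) := by
  obtain ⟨x₀, -, y₀, h₀⟩ := H1 ∅ Set.finite_empty
  obtain ⟨_, ⟨s, x, y, h1, h2, h3, rfl⟩, hm⟩ := set_has_maximal_iff_noetherian.2 inferInstance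
    {W : Submodule Ω (I → Ω) | ∃ (s : ℕ) (x : Fin s → X) (y : Fin s → Y), 0 < s ∧
      (∀ j, good (y j)) ∧ (∀ j j', j ≠ j' → ¬R (x j) (x j')) ∧
      W = Submodule.span Ω (Set.range fun j => V (x j) (y j))}
    ⟨_, 1, fun _ => x₀, fun _ => y₀, one_pos, fun _ => h₀,
      fun j j' e => (e (Subsingleton.elim j j')).elim, rfl⟩
  refine ⟨s, x, y, h1, h2, h3, fun x' y' => by_contra fun hn => ?_⟩
  obtain ⟨l, l1, l2⟩ := Submodule.exists_le_ker_of_notMem hn
  refine l1 (H _ (Set.finite_iUnion fun j => hR (x j)) l (fun a ha b hb => ?_) x' y')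
  by_contra h4
  simp only [Set.mem_iUnion, Set.mem_ofPred_eq, not_exists, not_or] at ha
  refine hm _ ⟨s + 1, Fin.cons a x, Fin.cons b y, s.succ_pos, Fin.cases hb h2,
    Fin.cases (Fin.cases (fun e => (e rfl).elim) fun j' _ => (ha j').2) fun j =>
      Fin.cases (fun _ => (ha j).1) fun j' e => h3 j j' fun e' => e (e' ▸ rfl), rfl⟩
    (lt_of_le_of_ne (Submodule.span_mono ?_) fun e => h4 (l2 ?_))
  · rintro _ ⟨j, rfl⟩
    exact ⟨j.succ, rfl⟩
  · rw [e]
    exact Submodule.subset_span ⟨0, rfl⟩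

variable {k A τ Ω : Type} [Field k] [CommRing A] [Algebra k A] [Fintype τ] [Field Ω] [Algebra k Ω]
  {P : DR A (Option τ)} {D : Derivation ℤ Ω Ω}

/-- the images of generators are roots of fixed polynomials -/
theorem finite_ker [Algebra.FiniteType k A] [Algebra.IsAlgebraic k Ω] (Q : A →ₐ[k] Ω) :
    {Q' : A →ₐ[k] Ω | RingHom.ker Q' = RingHom.ker Q}.Finite := by
  obtain ⟨s, hs⟩ := Algebra.FiniteType.out (R := k) (A := A)
  choose f f1 f2 using fun a : s => Algebra.IsAlgebraic.isAlgebraic (R := k) (Q a)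
  refine Set.Finite.of_injOn (f := fun Q' (a : s) => Q' a)
    (t := Set.univ.pi fun a => (f a).rootSet Ω) (fun Q' hQ a _ => ?_) (fun Q₁ _ Q₂ _ e => ?_)
    (Set.Finite.pi fun a => Polynomial.rootSet_finite _ _)
  · refine (Polynomial.mem_rootSet_of_ne (f1 a)).2 ?_
    rw [Polynomial.aeval_algHom_apply, ← RingHom.mem_ker, show RingHom.ker Q' = _ from hQ,
      RingHom.mem_ker, ← Polynomial.aeval_algHom_apply, f2]
  · exact AlgHom.ext_of_adjoin_eq_top hs fun a ha => congrFun e ⟨a, ha⟩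

/-- expand the `ε l` in a basis of their span over `k` -/
theorem DR.Dens.all (h : P.Dens k D) {I : Type} [Fintype I] {ε : I → Ω} {R : I → MvPolynomial τ A}
    {bad : Set (A →ₐ[k] Ω)} (hb : bad.Finite) (H : ∀ Q ∉ bad, ∑ l, ε l *
      MvPolynomial.eval₂ (Q : A →+* Ω) (fun i => D (Q (P.u (some i)))) (R l) = 0) (Q : A →ₐ[k] Ω) :
    ∑ l, ε l * MvPolynomial.eval₂ (Q : A →+* Ω) (fun i => D (Q (P.u (some i)))) (R l) = 0 := by
  let b := Module.Basis.ofVectorSpace k Ω
  let s := Finset.univ.biUnion fun l => (b.repr (ε l)).support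
  let ev := MvPolynomial.eval₂Hom (Q : A →+* Ω) fun i => D (Q (P.u (some i)))
  have e1 : ∀ l, ε l = ∑ m ∈ s, b.coord m (ε l) • b m := fun l => by
    conv_lhs => rw [← b.linearCombination_repr (ε l), Finsupp.linearCombination_apply]
    exact Finsupp.sum_of_support_subset _
      (Finset.subset_biUnion_of_mem (fun l => (b.repr (ε l)).support) (Finset.mem_univ l)) _
      fun _ _ => zero_smul _ _
  have e2 : ∀ (a : k) (r : MvPolynomial τ A), ev (a • r) = a • ev r := fun a r => by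
    rw [← algebraMap_smul A, MvPolynomial.smul_eq_C_mul, map_mul, MvPolynomial.eval₂Hom_C,
      Algebra.smul_def]
    exact congrArg (· * _) (Q.commutes a)
  calc _ = ∑ l, ∑ m ∈ s, b m * ev (b.coord m (ε l) • R l) := Finset.sum_congr rfl fun l _ => by
        conv_lhs => rw [e1 l, Finset.sum_mul]
        exact Finset.sum_congr rfl fun m _ => by rw [e2, smul_mul_assoc, mul_smul_comm]; rfl
    _ = 0 := by
        rw [Finset.sum_comm]
        refine Finset.sum_eq_zero fun m _ => ?_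
        rw [← Finset.mul_sum, ← map_sum, h I ε R bad hb H, map_zero, mul_zero]

theorem DR.Dens.exists_pt [Nontrivial A] (h : P.Dens k D) {bad : Set (A →ₐ[k] Ω)}
    (hb : bad.Finite) : ∃ Q, Q ∉ bad := by
  by_contra! hn
  obtain ⟨φ, hφ⟩ := (Algebra.linearMap k Ω).exists_leftInverse_of_injective
    (LinearMap.ker_eq_bot.2 (algebraMap k Ω).injective)
  have h1 : φ 1 = 1 := by simpa using LinearMap.congr_fun hφ 1
  simpa [h1] using h Unit (fun _ => 1) (fun _ => 1) bad hb (fun Q hQ => (hQ (hn Q)).elim) φ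

theorem nb4_inv {X Y Ω : Type} [Field Ω] {n s : ℕ} (U : X → Fin n → Ω)
    (hU : ∀ ε : Fin n → Ω, (∀ x, ∑ b, ε b * U x b = 0) → ε = 0) (z : Y → Fin n → Ω)
    (G : Fin s → Y → Ω) (h : ∀ x, ∃ c : Fin s → Ω, ∀ y, ∑ b, z y b * U x b = ∑ j, c j * G j y) :
    ∃ M : Fin n → Fin s → Ω, ∀ y b, z y b = ∑ j, M b j * G j y := by
  have h1 : Submodule.span Ω (Set.range U) = ⊤ := by
    by_contra hne
    obtain ⟨f, hf, hk⟩ := Submodule.exists_le_ker_of_lt_top _ (lt_top_iff_ne_top.2 hne)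
    have h0 := hU (fun b => f fun j => if b = j then 1 else 0) fun x => by
      have := hk (Submodule.subset_span ⟨x, rfl⟩)
      rw [LinearMap.mem_ker, LinearMap.pi_apply_eq_sum_univ] at this
      simpa [mul_comm] using this
    refine hf (LinearMap.ext fun v => ?_)
    rw [LinearMap.pi_apply_eq_sum_univ]
    exact Finset.sum_eq_zero fun b _ => by rw [show f _ = 0 from congrFun h0 b, smul_zero]
  have h2 : ∀ v ∈ Submodule.span Ω (Set.range U),
      ∃ c : Fin s → Ω, ∀ y, ∑ b, z y b * v b = ∑ j, c j * G j y := by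
    intro v hv
    induction hv using Submodule.span_induction with
    | mem v hv => obtain ⟨x, rfl⟩ := hv; exact h x
    | zero => exact ⟨0, by simp⟩
    | add v v' _ _ hv hv' =>
      obtain ⟨c, hc⟩ := hv
      obtain ⟨c', hc'⟩ := hv'
      exact ⟨c + c', fun y => by
        simp only [Pi.add_apply, mul_add, add_mul, Finset.sum_add_distrib, hc, hc']⟩
    | smul a v _ hv =>
      obtain ⟨c, hc⟩ := hv
      exact ⟨a • c, fun y => by
        simp only [Pi.smul_apply, smul_eq_mul, mul_left_comm _ a, mul_assoc, ← Finset.mul_sum, hc]⟩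
  choose M hM using fun b => h2 (Pi.single b 1) (h1 ▸ Submodule.mem_top)
  exact ⟨M, fun y b => by rw [← hM]; simp [Pi.single_apply]⟩

theorem nb4_basis {W : Type} [AddCommGroup W] [Module k W] {S : Set W} (hS : S.Finite) :
    ∃ (n : ℕ) (w : Fin n → W), (∀ b, w b ∈ S) ∧
      (∀ ε : Fin n → Ω, (∀ φ : Ω →ₗ[k] k, ∑ b, φ (ε b) • w b = 0) → ε = 0) ∧
      ∀ x ∈ Submodule.span k S, ∃ z : Fin n → k, x = ∑ b, z b • w b := by
  obtain ⟨B, h1, h2, h3⟩ := exists_linearIndependent k S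
  have : Finite B := (hS.subset h1).to_subtype
  let e := (Finite.equivFin B).symm
  refine ⟨_, fun b => e b, fun b => h1 (e b).2, fun ε hε => funext fun b => ?_, fun x hx => ?_⟩
  · exact (Module.forall_dual_apply_eq_zero_iff k _).1 fun φ =>
      Fintype.linearIndependent_iff.1 (h3.comp e e.injective) _ (hε φ) b
  · rw [← h2, ← Subtype.range_coe (s := B), ← e.surjective.range_comp,
      Submodule.mem_span_range_iff_exists_fun] at hx
    obtain ⟨z, hz⟩ := hx
    exact ⟨z, hz.symm⟩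

variable (k P D) in
/-- the polynomial functions of the jet -/
noncomputable def nb4_pol : Subring ((A →ₐ[k] Ω) → Ω) :=
  (Pi.ringHom fun Q : A →ₐ[k] Ω =>
    MvPolynomial.eval₂Hom (Q : A →+* Ω) fun i => D (Q (P.u (some i)))).range

omit [Fintype τ] in
theorem nb4_C (a : A) : (fun Q : A →ₐ[k] Ω => (Q : A →+* Ω) a) ∈ nb4_pol k P D :=
  ⟨MvPolynomial.C a, funext fun _ => MvPolynomial.eval₂_C _ _ _⟩

omit [Fintype τ] in
theorem nb4_k (a : k) : (fun _ : A →ₐ[k] Ω => algebraMap k Ω a) ∈ nb4_pol k P D := by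
  simpa using nb4_C (k := k) (P := P) (D := D) (algebraMap k A a)

omit [Fintype τ] in
theorem nb4_nu (h1 : ∀ Q : A →ₐ[k] Ω, D (Q (P.u none)) = 1) (j : Option τ) :
    (fun Q : A →ₐ[k] Ω => D ((Q : A →+* Ω) (P.u j))) ∈ nb4_pol k P D := by
  cases j with
  | none => exact ⟨1, funext fun Q => by simp [h1]⟩
  | some j => exact ⟨MvPolynomial.X j, funext fun _ => MvPolynomial.eval₂_X _ _ _⟩

theorem nb4_om (h1 : ∀ Q : A →ₐ[k] Ω, D (Q (P.u none)) = 1) (g : τ → k)
    (ω : Option τ → Option τ → A) :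
    (fun Q : A →ₐ[k] Ω => P.om D Q (fun i => algebraMap k Ω (g i)) ω) ∈ nb4_pol k P D := by
  have := sum_mem (t := Finset.univ) fun i _ => sum_mem (t := Finset.univ) fun j _ =>
    mul_mem (mul_mem (nb4_k (P := P) (D := D) (g i)) (nb4_nu h1 j)) (nb4_C (ω (some i) j))
  exact (congrArg (· ∈ nb4_pol k P D) (funext fun Q => by simp [DR.om])).mp this

theorem nb4_qJ (g : τ → k) (η : Option τ → A) : (fun Q : A →ₐ[k] Ω =>
    P.qJ (Q : A →+* Ω) (fun i => algebraMap k Ω (g i)) η) ∈ nb4_pol k P D := by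
  have := sum_mem (t := Finset.univ) fun i _ => mul_mem (nb4_k (P := P) (D := D) (g i))
    (sum_mem (t := Finset.univ) fun j _ =>
      mul_mem (nb4_k (g j)) (nb4_C (P.d (some j) (η (some i)))))
  exact (congrArg (· ∈ nb4_pol k P D) (funext fun Q => by simp [DR.qJ, DR.grad])).mp this

theorem nb4_span [Nontrivial A] [Nonempty τ] [Algebra.FiniteType k A] [Algebra.IsAlgebraic k Ω]
    (h : P.Dens k D) {I : Type} [Fintype I] (V : (A →ₐ[k] Ω) → (τ → k) → I → Ω)
    (h0 : ∀ Q, V Q 0 = 0) (hV : ∀ g l, (fun Q => V Q g l) ∈ nb4_pol k P D) :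
    ∃ (s : ℕ) (Q : Fin s → A →ₐ[k] Ω) (g : Fin s → τ → k), 0 < s ∧ (∀ j, g j ≠ 0) ∧
      (∀ j j', j ≠ j' → RingHom.ker (Q j) ≠ RingHom.ker (Q j')) ∧
      ∀ Q' g', ∃ c : Fin s → Ω, ∀ l, V Q' g' l = ∑ j, c j * V (Q j) (g j) l := by
  obtain ⟨s, Q, g, h1, h2, h3, h4⟩ := exists_span_sep V (fun Q Q' => RingHom.ker Q = RingHom.ker Q')
    (fun Q => (finite_ker Q).subset fun _ h => h.elim Eq.symm id) (· ≠ 0)
    (fun bad hb l H Q g => by
      by_cases hg : g = 0
      · rw [hg, h0, map_zero]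
      choose R hR using hV g
      have e : ∀ Q', l (V Q' g) = ∑ i, l (fun j => if i = j then 1 else 0) *
          MvPolynomial.eval₂ (Q' : A →+* Ω) (fun i => D (Q' (P.u (some i)))) (R i) := fun Q' => by
        rw [LinearMap.pi_apply_eq_sum_univ]
        exact Finset.sum_congr rfl fun i _ => by
          rw [smul_eq_mul, mul_comm, ← congrFun (hR i) Q']; rfl
      rw [e]
      exact h.all hb (fun Q' hQ => (e Q').symm.trans (H Q' hQ g hg)) Q)
    fun bad hb => (h.exists_pt hb).imp fun _ hQ => ⟨hQ, 1, one_ne_zero⟩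
  refine ⟨s, Q, g, h1, h2, h3, fun Q' g' => ?_⟩
  obtain ⟨c, hc⟩ := (Submodule.mem_span_range_iff_exists_fun Ω).1 (h4 Q' g')
  exact ⟨c, fun l => by simpa using (congrFun hc l).symm⟩

theorem nb4_lin (h : P.Dens k D) (h1 : ∀ Q : A →ₐ[k] Ω, D (Q (P.u none)) = 1) {n : ℕ}
    {ε : Fin n → Ω} {a : Fin n → Option τ → A}
    (H : ∀ Q : A →ₐ[k] Ω, ∑ b, ε b * ∑ j, D (Q (P.u j)) * Q (a b j) = 0) (φ : Ω →ₗ[k] k)
    (j : Option τ) : ∑ b, φ (ε b) • a b j = 0 := by
  have h2 := h _ ε (fun b => MvPolynomial.C (a b none) +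
    ∑ j, MvPolynomial.X j * MvPolynomial.C (a b (some j))) ∅ Set.finite_empty (fun Q _ => by
      simpa [h1, Fintype.sum_option, MvPolynomial.eval₂_sum] using H Q) φ
  have h3 : ∀ x : τ → A, ∑ b, φ (ε b) • (a b none + ∑ j, x j * a b (some j)) = 0 := fun x => by
    have := congrArg ((MvPolynomial.aeval x).toLinearMap.restrictScalars k) h2
    simp only [map_sum, map_smul, map_zero] at this
    simpa [-smul_add] using this
  have h4 : ∑ b, φ (ε b) • a b none = 0 := by simpa using h3 0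
  cases j with
  | none => exact h4
  | some j => simpa [Pi.single_apply, Finset.sum_add_distrib, h4] using h3 (Pi.single j 1)

theorem nb4_om_sum (Q : A →ₐ[k] Ω) (g : τ → Ω) {n : ℕ} (z : Fin n → k)
    (w : Fin n → Option τ → Option τ → A) :
    P.om D Q g (∑ b, z b • w b) = ∑ b, algebraMap k Ω (z b) * P.om D Q g (w b) :=
  (map_sum (AddMonoidHom.mk' (P.om D Q g) (DR.om_add _ g D)) _ _).trans
    (Finset.sum_congr rfl fun b _ => (DR.om_smul _ g D _ _).trans (by simp))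

theorem nb4_polar (h2 : (2 : Ω) = 0) (Q : A →+* Ω) (η : Option τ → A) (ω) (i j : τ) :
    (P.qJ Q (Pi.single i 1 + Pi.single j 1) η - P.om D Q (Pi.single i 1 + Pi.single j 1) ω ^ 2) -
      (P.qJ Q (Pi.single i 1) η - P.om D Q (Pi.single i 1) ω ^ 2) -
      (P.qJ Q (Pi.single j 1) η - P.om D Q (Pi.single j 1) ω ^ 2) = Q (P.drel η i j) := by
  have e1 : P.om D Q (Pi.single i 1 + Pi.single j 1) ω =
      P.om D Q (Pi.single i 1) ω + P.om D Q (Pi.single j 1) ω := by
    simp only [DR.om, Pi.add_apply, add_mul, Finset.sum_add_distrib]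
  rw [e1]
  simp only [DR.qJ, DR.grad, DR.drel, DR.d2, Pi.add_apply, add_mul, Finset.sum_add_distrib,
    Pi.single_apply, ite_mul, one_mul, zero_mul, Finset.sum_ite_eq', Finset.mem_univ, if_true,
    map_sub]
  linear_combination (Q (P.d (some j) (η (some i))) -
    P.om D Q (Pi.single i 1) ω * P.om D Q (Pi.single j 1) ω) * h2

theorem nb4_three {t : k} {D₀ : Derivation ℤ k k} (hc : P.Cmp t D₀) (h2 : (2 : Ω) = 0) {s : ℕ}
    {T : Set (Option τ → A)} (Q : Option (Fin s) → A →ₐ[k] Ω) (g : Option (Fin s) → τ → Ω)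
    (c : Fin s → Ω) {η : Option τ → A} (hη : η ∈ Submodule.span k T) :
    let E := fun (F : (A →+* Ω) → (τ → Ω) → Ω) =>
      F (Q none) (g none) = ∑ j, c j * F (Q (some j)) (g (some j))
    let Z := fun η => E (fun Q g => P.qJ Q g η) ∧ E (fun Q g => P.om D Q g (P.d2 η) ^ 2) ∧
      E (fun Q g => P.om D Q g (dtw η) ^ 2)
    (∀ η ∈ T, Z η) → Z η := by
  intro E Z H
  have sq : ∀ x y : Ω, (x + y) ^ 2 = x ^ 2 + y ^ 2 := fun x y => by linear_combination x * y * h2
  induction hη using Submodule.span_induction with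
  | mem η hη => exact H η hη
  | zero =>
    have e1 : P.d2 0 = 0 := map_zero P.d2A
    have e2 : dtw (0 : Option τ → A) = 0 := map_zero (dtwL k)
    simp [Z, E, e1, e2, DR.om, DR.qJ, DR.grad]
  | add η η' _ _ a b =>
    have e2 : dtw (η + η') = dtw η + dtw η' := map_add (dtwL k) _ _
    simp only [Z, E, e2, DR.d2_add, DR.om_add, DR.qJ_add, sq, mul_add,
      Finset.sum_add_distrib] at a b ⊢
    rw [a.1, a.2.1, a.2.2, b.1, b.2.1, b.2.2]
    exact ⟨rfl, rfl, rfl⟩
  | smul a η _ b =>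
    have e2 : dtw (a • η) = a • dtw η := map_smul (dtwL k) _ _
    simp only [Z, E, e2, hc.d2_smul, DR.om_add, DR.om_smul, hc.qJ_smul, sq, mul_add, mul_pow,
      Finset.sum_add_distrib, RingHom.coe_coe, AlgHom.commutes, mul_left_comm (c _),
      ← Finset.mul_sum] at b ⊢
    rw [b.1, b.2.1, b.2.2]
    exact ⟨rfl, rfl, rfl⟩

/-- Let `e` enumerate `T`, `w` be a basis of the span of `two T` taken from `two T`, `w'` the same for
`drel '' T`. `V Q g` has the coordinates `om (w b)`, `qJ (e l)`, `om (d2 (e l)) ^ 2`,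
`om (dtw (e l)) ^ 2`; each is the value of a polynomial in `ν` over `A` (`ν none = 1`), so `Dens.all`
gives the hypothesis of `exists_span_sep` (`V Q 0 = 0`). `two`: the vectors `(om (w b))_b` span
`Ω ^ n` (`Dens` with `g = single i 1`, the forms are alternating). `three`: for `p = 2`,
`V Q (g + g') - V Q g - V Q g'` has second block `Q (∑ g i g' j drel (e l) i j)` and zero third and
fourth blocks; the vectors `(Q (w' b i j))_b` span; for `η = ∑ a l • e l` the expression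
`qJ η - om (d2 η) ^ 2` is the pairing with `(a l, - a l ^ 2, - D (a l) ^ 2)` (`d2_smul`). -/
theorem DR.exists_det {p : ℕ} [Fact p.Prime] [CharP k p] [Nontrivial A] [Nonempty τ]
    [Algebra.FiniteType k A] [Algebra.IsAlgebraic k Ω] {t : k} {D₀ : Derivation ℤ k k}
    (hc : P.Cmp t D₀) (ht : D₀ t = 1) (hD : ∀ a, D (algebraMap k Ω a) = algebraMap k Ω (D₀ a))
    (h : P.Dens k D) {T : Set (Option τ → A)} (hT : T.Finite) :
    ∃ (s : ℕ) (Q : Fin s → A →ₐ[k] Ω) (g : Fin s → τ → k), 0 < s ∧ (∀ j, g j ≠ 0) ∧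
      (∀ j j', j ≠ j' → RingHom.ker (Q j) ≠ RingHom.ker (Q j')) ∧ P.Det p T D Q g := by
  have h1 : ∀ Q : A →ₐ[k] Ω, D (Q (P.u none)) = 1 := fun Q => by
    rw [hc.u, AlgHom.commutes, hD, ht, map_one]
  obtain ⟨n, w, hw, hw1, hw2⟩ := nb4_basis (k := k) (Ω := Ω) (P.two_finite hT)
  have := hT.fintype
  obtain ⟨s, Q, g, a1, a2, a3, a4⟩ := nb4_span h (I := Fin n ⊕ T ⊕ T ⊕ T)
    (fun Q g => Sum.elim (fun b => P.om D Q (fun i => algebraMap k Ω (g i)) (w b))
      (Sum.elim (fun η => P.qJ (Q : A →+* Ω) (fun i => algebraMap k Ω (g i)) η)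
      (Sum.elim (fun η => P.om D Q (fun i => algebraMap k Ω (g i)) (P.d2 η) ^ 2)
        fun η => P.om D Q (fun i => algebraMap k Ω (g i)) (dtw η.1) ^ 2)))
    (fun Q => by funext l; rcases l with _ | _ | _ | _ <;> simp [DR.om, DR.qJ])
    (fun g l => by
      rcases l with _ | _ | _ | _
      exacts [nb4_om h1 _ _, nb4_qJ _ _, pow_mem (nb4_om h1 _ _) 2, pow_mem (nb4_om h1 _ _) 2])
  refine ⟨s, Q, g, a1, a2, a3, ?_, fun hp => ?_⟩
  · obtain ⟨M, hM⟩ := nb4_inv (X := (A →ₐ[k] Ω) × (τ → k))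
      (fun x b => P.om D x.1 (fun i => algebraMap k Ω (x.2 i)) (w b)) (fun ε H => hw1 ε fun φ => by
        have b1 := fun i => nb4_lin h h1 (ε := ε) (a := fun b => w b (some i)) (fun Q => by
          simpa [DR.om, Pi.single_apply, apply_ite (algebraMap k Ω)] using H (Q, Pi.single i 1)) φ
        have b2 : ∀ b i j, w b j i = -w b i j ∧ w b i i = 0 := fun b i j => by
          rcases hw b with ⟨η, -, e⟩ | ⟨η, -, e⟩ <;> rw [← e]
          exacts [⟨P.d2_swap η i j, sub_self _⟩, ⟨dtw_swap η i j, sub_self _⟩]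
        funext i j
        simp only [Finset.sum_apply, Pi.smul_apply, Pi.zero_apply]
        rcases i with _ | i
        · rcases j with _ | j
          · simp [(b2 _ none none).2]
          · simp [(b2 _ (some j) none).1, b1]
        · exact b1 i j)
      (fun (y : Fin n → k) b => algebraMap k Ω (y b))
      (fun j y => P.om D (Q j) (fun i => algebraMap k Ω (g j i)) (∑ b, y b • w b)) fun x => by
        obtain ⟨c, hc⟩ := a4 x.1 x.2
        refine ⟨c, fun y => ?_⟩
        simp only [nb4_om_sum, Finset.mul_sum]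
        rw [Finset.sum_comm]
        refine Finset.sum_congr rfl fun b _ => ?_
        rw [show P.om D _ _ _ = _ from hc (.inl b), Finset.mul_sum]
        exact Finset.sum_congr rfl fun j _ => mul_left_comm _ _ _
    refine ⟨n, w, M, hw, fun ω hω => ?_⟩
    obtain ⟨z, rfl⟩ := hw2 ω hω
    exact ⟨z, rfl, hM z⟩
  · have h2 : (2 : Ω) = 0 := by
      have := congrArg (algebraMap k Ω) (CharP.cast_eq_zero k p)
      rwa [map_natCast, map_zero, hp] at this
    obtain ⟨m, v, hv, hv1, hv2⟩ := nb4_basis (k := k) (Ω := Ω) (hT.image P.drel)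
    have a5 : ∀ (Q' : A →ₐ[k] Ω) (g' : τ → k), ∃ c : Fin s → Ω, ∀ η ∈ Submodule.span k T,
        P.qJ (Q' : A →+* Ω) (fun i => algebraMap k Ω (g' i)) η -
          P.om D Q' (fun i => algebraMap k Ω (g' i)) (P.d2 η) ^ 2 =
        ∑ j, c j * (P.qJ (Q j : A →+* Ω) (fun i => algebraMap k Ω (g j i)) η -
          P.om D (Q j) (fun i => algebraMap k Ω (g j i)) (P.d2 η) ^ 2) := fun Q' g' => by
      obtain ⟨c, H⟩ := a4 Q' g'
      refine ⟨c, fun η hη => ?_⟩
      obtain ⟨b1, b2, -⟩ := nb4_three (D := D) hc h2 (fun j => j.elim Q' Q)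
        (fun j i => algebraMap k Ω (j.elim g' g i)) c hη fun η hη =>
          ⟨H (.inr (.inl ⟨η, hη⟩)), H (.inr (.inr (.inl ⟨η, hη⟩))), H (.inr (.inr (.inr ⟨η, hη⟩)))⟩
      simp only [mul_sub, Finset.sum_sub_distrib]
      exact congrArg₂ (· - ·) b1 b2
    obtain ⟨M, hM⟩ := nb4_inv (X := (A →ₐ[k] Ω) × τ × τ) (fun x b => x.1 (v b x.2.1 x.2.2))
      (fun ε H => hv1 ε fun φ => by
        funext i j
        simpa [bdt] using nb4_lin h h1 (ε := ε) (a := fun b => bdt τ (v b i j)) (fun Q => by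
          simpa [bdt, h1, Fintype.sum_option] using H (Q, i, j)) φ none)
      (fun (y : {y : (Option τ → A) × (Fin m → k) //
        y.1 ∈ Submodule.span k T ∧ P.drel y.1 = ∑ b, y.2 b • v b}) b => algebraMap k Ω (y.1.2 b))
      (fun j y => P.qJ (Q j : A →+* Ω) (fun i => algebraMap k Ω (g j i)) y.1.1 -
          P.om D (Q j) (fun i => algebraMap k Ω (g j i)) (P.d2 y.1.1) ^ 2) fun ⟨Q', i, j⟩ => by
        obtain ⟨c1, b1⟩ := a5 Q' (Pi.single i 1 + Pi.single j 1)
        obtain ⟨c2, b2⟩ := a5 Q' (Pi.single i 1)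
        obtain ⟨c3, b3⟩ := a5 Q' (Pi.single j 1)
        have e : ∀ i : τ, (fun l => algebraMap k Ω ((Pi.single i 1 : τ → k) l)) = Pi.single i 1 :=
          fun i => by funext l; simp [Pi.single_apply, apply_ite (algebraMap k Ω)]
        have e' : (fun l => algebraMap k Ω ((Pi.single i 1 + Pi.single j 1 : τ → k) l)) =
            Pi.single i 1 + Pi.single j 1 := by rw [← e, ← e]; funext l; simp
        refine ⟨c1 - c2 - c3, fun ⟨⟨η, z⟩, y1, y2⟩ => ?_⟩
        simp only [Pi.sub_apply, sub_mul (c1 _ - c2 _), sub_mul (c1 _), Finset.sum_sub_distrib]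
        rw [← b1 η y1, ← b2 η y1, ← b3 η y1, e', e, e, nb4_polar h2, show P.drel η = _ from y2]
        simp [Algebra.smul_def]
    refine ⟨m, v, M, hv, fun η hη => ?_⟩
    obtain ⟨z, hz⟩ := hv2 (P.drel η) (Submodule.apply_mem_span_image_of_mem_span hc.drelL hη)
    exact ⟨z, hz, hM ⟨(η, z), hη, hz⟩⟩

/-- `D x = - f ^ D (x) / f' (x)` -/
theorem der_mem [Algebra.IsSeparable k Ω] {D₀ : Derivation ℤ k k}
    (hD : ∀ a, D (algebraMap k Ω a) = algebraMap k Ω (D₀ a)) (M : IntermediateField k Ω) {x : Ω}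
    (hx : x ∈ M) : D x ∈ M := by
  let : Differential k := ⟨D₀⟩
  let : Differential Ω := ⟨D⟩
  have : DifferentialAlgebra k Ω := ⟨hD⟩
  have hm : ∀ q : Polynomial k, Polynomial.aeval x q ∈ M := fun q => by
    rw [Polynomial.aeval_eq_sum_range]
    exact sum_mem fun i _ => M.smul_mem (pow_mem hx i)
  have h := Differential.deriv_aeval_eq x (minpoly k x)
  have h0 := (Algebra.IsSeparable.isSeparable k x).aeval_derivative_ne_zero (minpoly.aeval k x)
  rw [minpoly.aeval, map_zero, eq_comm, add_comm, add_eq_zero_iff_eq_neg, mul_comm,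
    ← eq_div_iff h0] at h
  exact (show D x = _ from h) ▸ div_mem (neg_mem (hm _)) (hm _)

/-- `Algebra.FormallyEtale.of_isSeparable` (or smooth): lift `a ↦ a + ε D₀ a` to the dual numbers -/
theorem exists_der [Algebra.IsSeparable k Ω] (D₀ : Derivation ℤ k k) :
    ∃ D : Derivation ℤ Ω Ω, ∀ a, D (algebraMap k Ω a) = algebraMap k Ω (D₀ a) := by
  have := Algebra.FormallyEtale.of_isSeparable k Ω
  refine ⟨((((Algebra.linearMap k Ω).comp D₀.liftKaehlerDifferential).liftBaseChange Ω).comp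
    (KaehlerDifferential.tensorKaehlerEquivOfFormallyEtale ℤ k Ω).symm.toLinearMap).compDer
      (KaehlerDifferential.D ℤ Ω), fun a => ?_⟩
  simp [KaehlerDifferential.tensorKaehlerEquivOfFormallyEtale_symm_D_algebraMap]

theorem nb4_desc [Algebra.FiniteType k A] [Algebra.IsSeparable k Ω] {D₀ : Derivation ℤ k k}
    (hD : ∀ a, D (algebraMap k Ω a) = algebraMap k Ω (D₀ a)) {s : ℕ} (Q : Fin s → A →ₐ[k] Ω)
    {S : Set Ω} (hS : S.Finite) : ∃ (M : IntermediateField k Ω) (_ : FiniteDimensional k M)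
      (D₁ : Derivation ℤ M M) (Q₁ : Fin s → A →ₐ[k] M),
      (∀ x, (D₁ x : Ω) = D x) ∧ (∀ j f, (Q₁ j f : Ω) = Q j f) ∧ S ⊆ M := by
  obtain ⟨G, hG⟩ := Algebra.FiniteType.out (R := k) (A := A)
  have hf : (S ∪ ⋃ j, Q j '' G).Finite :=
    hS.union (Set.finite_iUnion fun j => G.finite_toSet.image _)
  have := hf.to_subtype
  set M := IntermediateField.adjoin k (S ∪ ⋃ j, Q j '' G)
  have hsub : S ∪ ⋃ j, Q j '' G ⊆ M := IntermediateField.subset_adjoin _ _
  have hQ : ∀ j f, Q j f ∈ M.toSubalgebra := fun j f =>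
    (Algebra.adjoin_le (S := M.toSubalgebra.comap (Q j)) fun y hy =>
      hsub (Or.inr (Set.mem_iUnion.2 ⟨j, y, hy, rfl⟩))) (hG.ge Algebra.mem_top)
  refine ⟨M, IntermediateField.finiteDimensional_adjoin fun x _ =>
    (Algebra.IsSeparable.isSeparable k x).isIntegral, Derivation.mk' (AddMonoidHom.toIntLinearMap
      (AddMonoidHom.mk' (fun x : M => (⟨D x, der_mem hD M x.2⟩ : M))
        fun a b => Subtype.ext (map_add D _ _))) fun a b => Subtype.ext (D.leibniz _ _),
    fun j => (Q j).codRestrict _ (hQ j), fun _ => rfl, fun _ _ => rfl,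
    fun x hx => hsub (Or.inl hx)⟩

/-- adjoin the images of generators of `A` and the entries of the two matrices -/
theorem DR.Det.descend {p : ℕ} [Algebra.FiniteType k A] [Algebra.IsSeparable k Ω]
    {D₀ : Derivation ℤ k k} (hD : ∀ a, D (algebraMap k Ω a) = algebraMap k Ω (D₀ a))
    {T : Set (Option τ → A)} {s : ℕ} {Q : Fin s → A →ₐ[k] Ω} {g : Fin s → τ → k}
    (h : P.Det p T D Q g) : ∃ (M : IntermediateField k Ω) (_ : FiniteDimensional k M)
      (D₁ : Derivation ℤ M M) (Q₁ : Fin s → A →ₐ[k] M),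
      (∀ a, D₁ (algebraMap k M a) = algebraMap k M (D₀ a)) ∧ (∀ j f, (Q₁ j f : Ω) = Q j f) ∧
      P.Det p T D₁ Q₁ g := by
  obtain ⟨n, w, N, hw, h2⟩ := h.two
  choose n' w' N' hw' h3 using h.three
  have hS : {x | ∃ hp b j, x = N' hp b j}.Finite := by
    by_cases hp : p = 2
    · exact (Set.finite_range fun q : Fin (n' hp) × Fin s => N' hp q.1 q.2).subset
        fun x ⟨_, b, j, e⟩ => ⟨(b, j), e.symm⟩
    · exact Set.finite_empty.subset fun x ⟨h, _⟩ => hp h
  obtain ⟨M, hM, D₁, Q₁, e1, e2, hs⟩ := nb4_desc hD Q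
    ((Set.finite_range fun q : Fin n × Fin s => N q.1 q.2).union hS)
  have e0 : ∀ a, ((algebraMap k M a : M) : Ω) = algebraMap k Ω a := fun _ => rfl
  have e3 : ∀ j ω, ((P.om D₁ (Q₁ j) (fun i => algebraMap k M (g j i)) ω : M) : Ω) =
      P.om D (Q j) (fun i => algebraMap k Ω (g j i)) ω := fun j ω => by
    simp only [DR.om, IntermediateField.coe_sum, IntermediateField.coe_mul, e0, e1,
      RingHom.coe_coe, e2]
  have e4 : ∀ j η, ((P.qJ (Q₁ j : A →+* M) (fun i => algebraMap k M (g j i)) η : M) : Ω) =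
      P.qJ (Q j : A →+* Ω) (fun i => algebraMap k Ω (g j i)) η := fun j η => by
    simp only [DR.qJ, DR.grad, IntermediateField.coe_sum, IntermediateField.coe_mul, e0,
      RingHom.coe_coe, e2]
  refine ⟨M, hM, D₁, Q₁, fun a => Subtype.ext ((e1 _).trans (hD a)), e2,
    ⟨n, w, fun b j => ⟨N b j, hs (Or.inl ⟨(b, j), rfl⟩)⟩, hw, fun ω hω => ?_⟩,
    fun hp => ⟨n' hp, w' hp, fun b j => ⟨N' hp b j, hs (Or.inr ⟨hp, b, j, rfl⟩)⟩, hw' hp,
      fun η hη => ?_⟩⟩
  · obtain ⟨z, hz, hz'⟩ := h2 ω hω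
    refine ⟨z, hz, fun b => Subtype.ext ?_⟩
    simp only [IntermediateField.coe_sum, IntermediateField.coe_mul, e0, e3, hz']
  · obtain ⟨z, hz, hz'⟩ := h3 hp η hη
    refine ⟨z, hz, fun b => Subtype.ext ?_⟩
    simp only [IntermediateField.coe_sum, IntermediateField.coe_mul, AddSubgroupClass.coe_sub,
      IntermediateField.coe_pow, e0, e3, e4, hz']

end Pool.Agent.ZFN
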