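import Pool.Agent.Lib.MP_751085_ag.ZF.N.CDefs
import Pool.Agent.Lib.MP_751085_ag.ZF.D.PB4
import Pool.Agent.Lib.MP_751085_ag.ZF.D.PB5

/-! One-variable `p`-bases. -/

namespace Pool.Agent.ZFN

open Pool.Agent.ZCy
open scoped Classical

variable {p : ℕ} [Fact p.Prime] {E E' : Type} [Field E] [CharP E p] [Field E'] {t u : E}

theorem P1.self (h : P1 p t) : dT t t = 1 := (ZFd.PB.der_u h () ()).trans (if_pos rfl)

theorem P1.nil (h : P1 p t) (y : E) : (dT t)^[p] y = 0 := ZFd.PB.der_iter h () y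

theorem P1.dK (h : P1 p t) (y : E) : ZFd.dK y = dT t y • ZFd.dK t := by
  have := ZFd.PB.sum_co h (ZFd.dK y)
  rw [Fintype.sum_unique] at this
  exact this.symm

theorem P1.ker (h : P1 p t) {y : E} (hy : dT t y = 0) : ∃ z, y = z ^ p :=
  ZFd.PB.eq_pow h (by rw [h.dK, hy, zero_smul])

omit [Fact p.Prime] [CharP E p] in
theorem nc1a_sum [Fintype (Unit → Fin p)] (t : E) (c : (Unit → Fin p) → E) :
    ∑ I, c I ^ p * ZFd.mon (fun _ : Unit => t) I =
      ∑ j : Fin p, t ^ (j : ℕ) * c (fun _ => j) ^ p := by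
  refine Fintype.sum_equiv (Equiv.funUnique Unit (Fin p)) _ _ fun I => ?_
  rw [ZFd.mon, Fintype.prod_unique, mul_comm]
  rfl

theorem P1.span (h : P1 p t) (a : E) : ∃ y : Fin p → E, a = ∑ j : Fin p, t ^ (j : ℕ) * y j ^ p := by
  obtain ⟨c, hc⟩ := ZFd.pb1_exp h a
  exact ⟨fun j => c fun _ => j, hc.trans (@nc1a_sum p E _ (_) t c)⟩

theorem P1.der_eq (h : P1 p t) (D : Derivation ℤ E E) (y : E) : D y = D t * dT t y := by
  have := congrArg D.liftKaehlerDifferential (h.dK y)
  rw [map_smul, D.liftKaehlerDifferential_comp_D, D.liftKaehlerDifferential_comp_D] at this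
  rw [this, smul_eq_mul, mul_comm]

theorem P1.not_pow (h : P1 p t) (z : E) : t ≠ z ^ p := fun e =>
  (ZFd.PB.ind h).ne_zero () ((congrArg ZFd.dK e).trans (ZFd.d_pow_p z))

theorem nc1a_top (t : E) :
    (∀ a : E, ∃ y : Fin p → E, a = ∑ j : Fin p, t ^ (j : ℕ) * y j ^ p) ↔
      Submodule.span (frobenius E p).fieldRange (Set.range fun j : Fin p => t ^ (j : ℕ)) = ⊤ := by
  rw [Submodule.eq_top_iff']
  refine forall_congr' fun a => ?_
  rw [Submodule.mem_span_range_iff_exists_fun]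
  constructor
  · rintro ⟨y, rfl⟩
    exact ⟨fun j => ⟨y j ^ p, y j, rfl⟩, Finset.sum_congr rfl fun j _ => mul_comm _ _⟩
  · rintro ⟨c, rfl⟩
    choose y hy using fun j => (c j).2
    refine ⟨y, Finset.sum_congr rfl fun j _ => ?_⟩
    exact (congrArg (· * t ^ (j : ℕ)) (hy j).symm).trans (mul_comm _ _)

/-- If `dK t = 0` then `Om E = 0` (`ZFd.pb1_span`), so `E` is unramified over the subfield of `p`-th
powers (`KaehlerDifferential.map_surjective`), hence separable over it
(`Algebra.FormallyUnramified.iff_isSeparable`), hence `t` is a `p`-th power. -/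
theorem p1_of_span (h : ∀ a : E, ∃ y : Fin p → E, a = ∑ j : Fin p, t ^ (j : ℕ) * y j ^ p)
    (ht : ∀ z, t ≠ z ^ p) : P1 p t := by
  have h1 : ∀ (i : Fintype (Unit → Fin p)) (b : E), ∃ c : (Unit → Fin p) → E,
      b = ∑ I, c I ^ p * ZFd.mon (fun _ : Unit => t) I := fun i b => by
    obtain ⟨y, hy⟩ := h b
    exact ⟨fun I => y (I ()), hy.trans (nc1a_sum t fun I => y (I ())).symm⟩
  refine ⟨fun _ => trivial, fun a _ => (h1 _ a).imp fun c hc => ⟨fun _ => trivial, hc⟩, ?_,
    fun z => ⟨1, trivial, one_ne_zero, trivial⟩⟩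
  rw [linearIndependent_unique_iff]
  intro h0
  have h2 : ∀ ω : ZFd.Om E, ω = 0 := fun ω => by
    obtain ⟨c, rfl⟩ := (Submodule.mem_span_range_iff_exists_fun E).1
      ((ZFd.pb1_span (p := p) (fun _ : Unit => t) (h1 _)).ge (Submodule.mem_top (x := ω)))
    exact Finset.sum_eq_zero fun _ _ => smul_eq_zero_of_right _ h0
  have : Module.Finite (frobenius E p).fieldRange E :=
    ⟨Submodule.fg_def.2 ⟨_, Set.finite_range _, (nc1a_top t).1 h⟩⟩
  have : Algebra.FormallyUnramified (frobenius E p).fieldRange E :=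
    ⟨⟨fun a b => by
      obtain ⟨a, rfl⟩ := KaehlerDifferential.map_surjective ℤ (frobenius E p).fieldRange E a
      obtain ⟨b, rfl⟩ := KaehlerDifferential.map_surjective ℤ (frobenius E p).fieldRange E b
      rw [h2 a, h2 b]⟩⟩
  have := (Algebra.FormallyUnramified.iff_isSeparable (frobenius E p).fieldRange E).1 this
  have : IsPurelyInseparable (frobenius E p).fieldRange E :=
    (isPurelyInseparable_iff_pow_mem _ p).2 fun x => ⟨1, ⟨x ^ p, x, rfl⟩, (pow_one p).symm ▸ rfl⟩
  obtain ⟨⟨_, z, rfl⟩, hz⟩ :=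
    IsPurelyInseparable.surjective_algebraMap_of_isSeparable (frobenius E p).fieldRange E t
  exact ht z hz.symm

/-- the degree of `E` over the `p`-th powers is the prime `p`, so `t` generates -/
theorem P1.change (h : P1 p u) (ht : ∀ z, t ≠ z ^ p) : P1 p t := by
  have hp : p.Prime := Fact.out
  refine p1_of_span ((nc1a_top t).2 ?_) ht
  have h1 := (nc1a_top u).1 h.span
  have : Module.Finite (frobenius E p).fieldRange E :=
    ⟨Submodule.fg_def.2 ⟨_, Set.finite_range _, h1⟩⟩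
  have h2 : Module.finrank (frobenius E p).fieldRange E ≤ Fintype.card (Fin p) := by
    rw [← finrank_top, ← h1]
    exact finrank_range_le_card _
  have h3 : minpoly (frobenius E p).fieldRange t =
      Polynomial.X ^ p - Polynomial.C ⟨t ^ p, t, rfl⟩ := by
    refine (minpoly.eq_of_irreducible_of_monic (X_pow_sub_C_irreducible_of_prime hp ?_) ?_
      (Polynomial.monic_X_pow_sub_C _ hp.ne_zero)).symm
    · rintro ⟨_, z, rfl⟩ e
      exact ht z (frobenius_inj E p (congrArg Subtype.val e)).symm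
    · rw [map_sub, map_pow, Polynomial.aeval_X, Polynomial.aeval_C]
      exact sub_self _
  have h4 := linearIndependent_pow (K := (frobenius E p).fieldRange) t
  rw [h3, Polynomial.natDegree_X_pow_sub_C] at h4
  have : Nonempty (Fin p) := ⟨⟨0, hp.pos⟩⟩
  exact h4.span_eq_top_of_card_eq_finrank (le_antisymm h4.fintype_card_le_finrank h2)

theorem P1.map [CharP E' p] (h : P1 p t) (φ : E →+* E') (h' : P1 p (φ t)) (a : E) :
    dT (φ t) (φ a) = φ (dT t a) := by
  have := congrArg (ZFd.pb φ) (h.dK a)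
  rw [ZFd.pb_smul_d, ZFd.pb_d, h'.dK (φ a)] at this
  exact smul_left_injective E' ((ZFd.PB.ind h').ne_zero ()) this

theorem P1.ext [CharP E' p] [Algebra E E'] [Algebra.IsSeparable E E'] (h : P1 p t) :
    P1 p (algebraMap E E' t) := ZFd.PB.ext_top h

/-- `a / b = a b ^ (p - 1) / b ^ p`; polynomials by induction -/
theorem p1_ratFunc (F₀ : Type) [Field F₀] [Finite F₀] [CharP (RatFunc F₀) p] :
    P1 p (RatFunc.X : RatFunc F₀) := by
  have hp : p.Prime := Fact.out
  have : CharP F₀ p := (algebraMap F₀ (RatFunc F₀)).charP (RingHom.injective _) p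
  refine p1_of_span (fun a => ?_) fun z hz => ?_
  · have key : ∀ q : Polynomial F₀, ∃ y : Fin p → RatFunc F₀,
        algebraMap _ (RatFunc F₀) q = ∑ j : Fin p, RatFunc.X ^ (j : ℕ) * y j ^ p := fun q => by
      induction q using Polynomial.induction_on' with
      | add q r hq hr =>
        obtain ⟨y, hy⟩ := hq
        obtain ⟨z, hz⟩ := hr
        refine ⟨y + z, ?_⟩
        rw [map_add, hy, hz, ← Finset.sum_add_distrib]
        exact Finset.sum_congr rfl fun j _ => by rw [Pi.add_apply, add_pow_char, mul_add]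
      | monomial n c =>
        obtain ⟨d, rfl⟩ := surjective_frobenius F₀ p c
        refine ⟨Pi.single ⟨n % p, Nat.mod_lt _ hp.pos⟩ (RatFunc.C d * RatFunc.X ^ (n / p)), ?_⟩
        rw [Finset.sum_eq_single ⟨n % p, Nat.mod_lt _ hp.pos⟩
          (fun j _ hj => by rw [Pi.single_eq_of_ne hj, zero_pow hp.ne_zero, mul_zero]) (by simp),
          Pi.single_eq_same, ← Polynomial.C_mul_X_pow_eq_monomial, map_mul, map_pow,
          RatFunc.algebraMap_C, RatFunc.algebraMap_X, frobenius_def, map_pow, mul_pow, ← pow_mul,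
          mul_left_comm, ← pow_add, Nat.mod_add_div']
    obtain ⟨y, hy⟩ := key (a.num * a.denom ^ (p - 1))
    have h0 : algebraMap _ (RatFunc F₀) a.denom ≠ 0 := RatFunc.algebraMap_ne_zero a.denom_ne_zero
    refine ⟨fun j => y j / algebraMap _ (RatFunc F₀) a.denom, ?_⟩
    simp only [div_pow, ← mul_div_assoc, ← Finset.sum_div]
    rw [← hy, map_mul, map_pow, ZFd.pb5_pow (p := p) (algebraMap _ (RatFunc F₀) a.denom),
      mul_comm (_ ^ (p - 1)), mul_div_mul_right _ _ (pow_ne_zero _ h0), RatFunc.num_div_denom]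
  · have h0 : z ≠ 0 := fun h => RatFunc.X_ne_zero (hz.trans (by rw [h, zero_pow hp.ne_zero]))
    have h1 : ∀ n : ℕ, (z ^ n).intDegree = n * z.intDegree := fun n => by
      induction n with
      | zero => simp
      | succ n ih => rw [pow_succ, RatFunc.intDegree_mul (pow_ne_zero _ h0) h0, ih]; push_cast; ring
    have h2 := congrArg RatFunc.intDegree hz
    rw [RatFunc.intDegree_X, h1] at h2
    exact hp.not_dvd_one (Int.natCast_dvd_natCast.1 ⟨_, h2⟩)

theorem nc1b_mq (h : P1 p t) {a b : E} :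
    ZFd.mq p (a • ZFd.dK t) = ZFd.mq p (b • ZFd.dK t) ↔ ∃ z, a = b + dT t z := by
  rw [ZFd.mq_eq_iff]
  refine exists_congr fun z => ?_
  rw [h.dK z, ← add_smul]
  exact (smul_left_injective E (h.ind.ne_zero ())).eq_iff

/-- `ZFd.gam_smul_d` for `1 • dK b = dT t b • dK t`, `ZFd.mq_eq_iff`, `PB.co_sum` -/
theorem P1.gam_indep (h : P1 p t) (b : E) :
    ∃ z, b ^ (p - 1) * dT t b = dT t z + dT t b ^ p * t ^ (p - 1) := by
  have h1 := ZFd.gam_smul_d (p := p) 1 b
  rw [one_smul, one_pow, one_mul, h.dK b, ZFd.gam_smul_d, smul_smul] at h1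
  obtain ⟨z, hz⟩ := (nc1b_mq h).1 h1.symm
  exact ⟨z, hz.trans (add_comm _ _)⟩

/-- `Z = π y / D π` -/
theorem P1.wp_iff (h : P1 p t) {π : E} (h0 : π ≠ 0) (h1 : dT t π ≠ 0) (g : E) :
    WP p t g ↔ ∃ z Z, π * g = π * dT t z + dT t π * (Z ^ p - Z) := by
  obtain ⟨z₀, hz⟩ := h.gam_indep π
  have e := ZFd.pb5_pow (p := p) π
  constructor
  · rintro ⟨z, y, rfl⟩
    obtain ⟨c, rfl⟩ : ∃ c, y = c * dT t π := ⟨y / dT t π, (div_mul_cancel₀ _ h1).symm⟩
    refine ⟨z - c ^ p * z₀, π * c, ?_⟩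
    rw [map_sub, ZFd.der_pow_p_mul, mul_pow, mul_pow, e]
    linear_combination (-π * c ^ p) * hz
  · rintro ⟨z, Z, hg⟩
    obtain ⟨c, rfl⟩ : ∃ c, Z = π * c := ⟨Z / π, (mul_div_cancel₀ _ h0).symm⟩
    refine ⟨z + c ^ p * z₀, c * dT t π, mul_left_cancel₀ h0 ?_⟩
    rw [map_add, ZFd.der_pow_p_mul, mul_pow, hg, mul_pow, e]
    linear_combination (π * c ^ p) * hz

theorem P1.wp_om (h : P1 p t) (g : E) :
    (∃ θ, ZFd.wp p θ = ZFd.mq p (g • ZFd.dK t)) ↔ WP p t g := by
  have key : ∀ y : E, ZFd.wp p (y • ZFd.dK t) = ZFd.mq p (g • ZFd.dK t) ↔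
      ∃ z, g = dT t z + y ^ p * t ^ (p - 1) - y := fun y => by
    rw [ZFd.wp_apply, ZFd.gam_smul_d, ← map_sub, ← sub_smul, eq_comm, nc1b_mq h]
    exact exists_congr fun z => by rw [add_sub_assoc, add_comm]
  constructor
  · rintro ⟨θ, hθ⟩
    rw [← ZFd.PB.sum_co h θ, Fintype.sum_unique] at hθ
    obtain ⟨z, hz⟩ := (key _).1 hθ
    exact ⟨z, _, hz⟩
  · rintro ⟨z, y, hz⟩
    exact ⟨_, (key y).2 ⟨z, hz⟩⟩

section trace

variable [CharP E' p] [Algebra E E'] [FiniteDimensional E E'] [Algebra.IsSeparable E E']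

/-- sum over the embeddings into the algebraic closure -/
theorem trace_pow_p (y : E') : Algebra.trace E E' (y ^ p) = Algebra.trace E E' y ^ p := by
  apply (algebraMap E (AlgebraicClosure E)).injective
  rw [map_pow (algebraMap E (AlgebraicClosure E)), trace_eq_sum_embeddings, trace_eq_sum_embeddings,
    sum_pow_char]
  exact Finset.sum_congr rfl fun σ _ => map_pow σ y p

theorem nc1b_tr (y : E') (a : E) :
    Algebra.trace E E' (y ^ p * algebraMap E E' a) = Algebra.trace E E' y ^ p * a := by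
  rw [mul_comm, ← Algebra.smul_def, map_smul, trace_pow_p, smul_eq_mul, mul_comm]

/-- `y = ∑ t ^ j y_j ^ p` -/
theorem P1.der_trace (h : P1 p t) (y : E') :
    Algebra.trace E E' (dT (algebraMap E E' t) y) = dT t (Algebra.trace E E' y) := by
  obtain ⟨z, rfl⟩ := (h.ext (E' := E')).span y
  simp only [map_sum]
  refine Finset.sum_congr rfl fun j _ => ?_
  rw [← map_pow, mul_comm, ZFd.der_pow_p_mul, h.map _ h.ext, nc1b_tr, nc1b_tr, ZFd.der_pow_p_mul]

theorem WP.trace (h : P1 p t) {g : E'} (hg : WP p (algebraMap E E' t) g) :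
    WP p t (Algebra.trace E E' g) := by
  obtain ⟨z, y, rfl⟩ := hg
  exact ⟨_, _, by rw [map_sub, map_add, h.der_trace, ← map_pow, nc1b_tr]⟩

end trace

theorem nc1b_eft (F₀ : Type) [Field F₀] : Algebra.EssFiniteType F₀ (RatFunc F₀) :=
  have := Algebra.EssFiniteType.of_isLocalization (RatFunc F₀) (nonZeroDivisors (Polynomial F₀))
  .comp F₀ (Polynomial F₀) (RatFunc F₀)

/-- `exists_isTranscendenceBasis_and_isSeparable_of_perfectField`; the transcendence degree is one -/
theorem exists_sep_alg (k F₀ : Type) [Field k] [Field F₀] [Finite F₀] [Algebra (RatFunc F₀) k]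
    [FiniteDimensional (RatFunc F₀) k] : ∃ i : Algebra (RatFunc F₀) k,
      @FiniteDimensional (RatFunc F₀) k _ _ i.toModule ∧ @Algebra.IsSeparable (RatFunc F₀) k _ _ i := by
  let _ : Algebra F₀ k := ((algebraMap (RatFunc F₀) k).comp (algebraMap F₀ _)).toAlgebra
  have : IsScalarTower F₀ (RatFunc F₀) k := .of_algebraMap_eq fun _ => rfl
  have := nc1b_eft F₀
  have : Algebra.EssFiniteType F₀ k := .comp F₀ (RatFunc F₀) k
  have : Algebra.IsAlgebraic (Polynomial F₀) (RatFunc F₀) :=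
    IsLocalization.isAlgebraic _ (nonZeroDivisors _)
  obtain ⟨s, hs, h1⟩ := exists_isTranscendenceBasis_and_isSeparable_of_perfectField F₀ k
  have h2 := hs.cardinalMk_eq (((IsTranscendenceBasis.polynomial Unit F₀).algebraMap_comp
    (A := RatFunc F₀)).algebraMap_comp (A := k))
  obtain ⟨x, rfl⟩ : ∃ x, s = {x} := Finset.card_eq_one.1 (by simpa using h2)
  have hx : Transcendental F₀ x := hs.1.transcendental ⟨x, Finset.mem_singleton_self x⟩
  rw [Finset.coe_singleton] at h1
  have h3 : Algebra.EssFiniteType (IntermediateField.adjoin F₀ {x}) k := .of_comp F₀ _ k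
  have h4 : Module.Finite (IntermediateField.adjoin F₀ {x}) k :=
    Algebra.finite_of_essFiniteType_of_isAlgebraic
  let e := (RatFunc.algEquivOfTranscendental x hx).toRingEquiv
  let i := ((algebraMap (IntermediateField.adjoin F₀ {x}) k).comp e.toRingHom).toAlgebra
  have he : (algebraMap (RatFunc F₀) k).comp e.symm = (RingEquiv.refl k : k →+* k).comp
      (algebraMap (IntermediateField.adjoin F₀ {x}) k) :=
    RingHom.ext fun a => congrArg (algebraMap _ k) (e.apply_symm_apply a)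
  exact ⟨i, Module.Finite.of_equiv_equiv e.symm _ he,
    Algebra.IsSeparable.of_equiv_equiv e.symm _ he⟩

theorem eft_of_ratFunc (k F₀ : Type) [Field k] [Field F₀] [Finite F₀] [Algebra (RatFunc F₀) k]
    [FiniteDimensional (RatFunc F₀) k] : Algebra.EssFiniteType ℤ k := by
  have := nc1b_eft F₀
  have : Algebra.EssFiniteType ℤ (RatFunc F₀) := .comp ℤ F₀ (RatFunc F₀)
  have := IsScalarTower.of_algebraMap_eq' (R := ℤ) (S := RatFunc F₀) (A := k) (RingHom.ext_int _ _)
  exact .comp ℤ (RatFunc F₀) k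

end Pool.Agent.ZFN
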