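import Pool.Agent.Lib.MP_751085_ag.ZF.N.CDefs
import Pool.Agent.Lib.MP_751085_ag.ZC.V.Cnj
import Pool.Agent.Lib.MP_751085_ag.ZC.V.AdT

/-! The places of a global function field. -/

namespace Pool.Agent.ZFN

open Pool.Agent.ZCy
open scoped Classical WithZero Polynomial

/-- Sum over the conjugates in a normal closure `N`; `exists_over` gives a valuation of `N`, its
restrictions along the embeddings are normalised by `exists_nrm`. -/
theorem trace_le_one {K E : Type} [Field K] [Field E] [Algebra K E] [FiniteDimensional K E]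
    [Algebra.IsSeparable K E] {v : Vl K} (hv : Nrm v) {x : E}
    (h : ∀ w : Vl E, Nrm w → Over (algebraMap K E) v w → w x ≤ 1) :
    v (Algebra.trace K E x) ≤ 1 := by
  have h1 : ∀ u : Vl E, Over (algebraMap K E) v u → u x ≤ 1 := fun u hu =>
    (vcnj_red u).elim (fun h => vcnj_le h x) fun ⟨u', h1, h2, _⟩ =>
      (h2 x).2 (h u' h1 fun a => (h2 _).symm.trans (hu a))
  obtain ⟨N, _, _, _, _, _, _, -⟩ := exists_gc K E
  obtain ⟨W, hW⟩ := exists_over (E := N) v
  have hs := Normal.splits (F := K) inferInstance (algebraMap E N x)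
  rw [minpoly.algebraMap_eq (algebraMap E N).injective] at hs
  rw [← hW, trace_eq_sum_roots hs]
  refine nsmul_mem (S := W.integer) (multiset_sum_mem _ fun y hy => ?_) _
  obtain ⟨σ, rfl⟩ := minpoly.exists_algEquiv_of_root' (x := y)
    (Algebra.IsAlgebraic.isAlgebraic (R := K) (algebraMap E N x))
    (by rw [minpoly.algebraMap_eq (algebraMap E N).injective]; exact (Polynomial.mem_aroots.1 hy).2)
  refine h1 (W.comap ((σ : N →+* N).comp (algebraMap E N))) fun a => ?_
  rw [← hW, Valuation.comap_apply, RingHom.comp_apply, ← IsScalarTower.algebraMap_apply,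
    RingHom.coe_coe, AlgEquiv.commutes]

/-- a linear relation divided by a coefficient of maximal value -/
theorem nc2a_rel {K E ι : Type} [Field K] [Field E] [Algebra K E] [FiniteDimensional K E]
    [Fintype ι] (v : Vl K) (x : ι → E) (h : ∀ c : ι → v.integer,
      ∑ j, algebraMap K E (c j) * x j = 0 → ∀ i, c i ≠ 1) :
    Fintype.card ι ≤ Module.finrank K E := by
  refine (Fintype.linearIndependent_iff.2 fun c hc i => by_contra fun hi => ?_ :
    LinearIndependent K x).fintype_card_le_finrank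
  obtain ⟨j, -, hj⟩ := Finset.exists_max_image Finset.univ (fun j => v (c j)) ⟨i, Finset.mem_univ i⟩
  have h1 := (zero_lt_iff.2 (v.ne_zero_iff.2 hi)).trans_le (hj i (Finset.mem_univ i))
  have h0 : c j ≠ 0 := v.ne_zero_iff.1 h1.ne'
  refine h (fun i => ⟨(c j)⁻¹ * c i, ?_⟩) ?_ j (Subtype.ext (inv_mul_cancel₀ h0))
  · rw [Valuation.mem_integer_iff, map_mul, map_inv₀, inv_mul_le_one₀ h1]
    exact hj i (Finset.mem_univ i)
  · simp only [← Algebra.smul_def, mul_smul]
    rw [← Finset.smul_sum, hc, smul_zero]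

/-- Finitely many prolongations: by `wap` there are `x i` with `w i (x i - 1) < 1`, `w j (x i) < 1`;
they are linearly independent over `K` (divide a relation by a coefficient of maximal value). -/
theorem finite_over {K E : Type} [Field K] [Field E] [Algebra K E] [FiniteDimensional K E]
    (v : Vl K) : {w : Vl E | Nrm w ∧ Over (algebraMap K E) v w}.Finite := by
  by_contra hS
  have f := Set.Infinite.natEmbedding _ hS
  have h1 : ∀ i : Fin (Module.finrank K E + 1), ∃ x : E, ∀ j : Fin (Module.finrank K E + 1),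
      (f j).1 (x - if j = i then 1 else 0) < 1 := fun i =>
    (wap (fun j : Fin (Module.finrank K E + 1) => (f j).1) (fun j => (f j).2.1)
      (fun j => if j = i then 1 else 0)
      (fun j j' e => by rw [Fin.ext (f.injective (Subtype.ext e))]) 1).imp fun x hx j =>
        (lt_one_iff_le_exp _).2 (hx j)
  choose x hx using h1
  refine absurd (nc2a_rel v x fun c hc i hi => ?_) (by simp)
  rw [← Finset.add_sum_erase _ _ (Finset.mem_univ i), hi, add_eq_zero_iff_eq_neg] at hc
  have h2 := hx i i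
  rw [if_pos rfl] at h2
  have h3 := congrArg (f i).1 hc
  rw [OneMemClass.coe_one, map_one, one_mul, vcnj_one h2, Valuation.map_neg] at h3
  refine (Valuation.map_sum_lt _ one_ne_zero fun j hj => ?_).ne' h3
  have h4 := hx j i
  rw [if_neg (Finset.ne_of_mem_erase hj).symm, sub_zero] at h4
  rw [map_mul]
  exact mul_lt_one_of_nonneg_of_lt_one_right (((f i).2.2 _).2 (c j).2) zero_le h4

/-- the residue degree is finite -/
theorem FinR.over {K E : Type} [Field K] [Field E] [Algebra K E] [FiniteDimensional K E] {v : Vl K}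
    {w : Vl E} (h : FinR v) (ho : Over (algebraMap K E) v w) : FinR w := by
  obtain ⟨κ, _, ρ, hρ, hs⟩ := exists_resf w
  obtain ⟨κ₀, _, ρ₀, hρ₀, hs₀⟩ := exists_resf v
  obtain ⟨i, hi⟩ := hρ₀.factor hs₀ (hρ.comp_int ho)
  obtain ⟨s, h1, h2⟩ := h
  have : Finite κ₀ := Finite.of_surjective (fun b : s => ρ₀ ⟨b, h1 b b.2⟩) fun y => by
    obtain ⟨a, rfl⟩ := hs₀ y
    obtain ⟨b, hb, h3⟩ := h2 a a.2
    exact ⟨⟨b, hb⟩, ((hρ₀.eq_iff a ⟨b, h1 b hb⟩).2 h3).symm⟩
  let := i.toAlgebra
  choose g hg using hs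
  have : Module.Finite κ₀ κ := Module.rank_lt_aleph0_iff.1 (lt_of_le_of_lt
    (rank_le (n := Module.finrank K E) fun t ht => Fintype.card_coe t ▸
      nc2a_rel v (fun y : t => (g y : E)) fun c hc j hj => by
        have h3 : ∑ y : t, ho.int (c y) * g y = 0 := Subtype.ext (by simpa using hc)
        have h4 := congrArg ρ h3
        simp only [map_sum, map_mul, hg, map_zero] at h4
        have h5 := Fintype.linearIndependent_iff.1 ht (fun y => ρ₀ (c y))
          ((Finset.sum_congr rfl fun (y : t) _ => congrArg (· * y.1) (hi (c y))).trans h4) j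
        rw [hj, map_one] at h5
        exact one_ne_zero h5) (Cardinal.natCast_lt_aleph0))
  have := Module.finite_of_finite κ₀ (M := κ)
  have := Fintype.ofFinite κ
  refine ⟨Finset.univ.image fun y => (g y : E), fun b hb => ?_, fun a ha =>
    ⟨_, Finset.mem_image_of_mem _ (Finset.mem_univ (ρ ⟨a, ha⟩)),
      (hρ.eq_iff ⟨a, ha⟩ _).1 (hg _).symm⟩⟩
  obtain ⟨y, -, rfl⟩ := Finset.mem_image.1 hb
  exact (g y).2

section rat

variable {F₀ : Type} [Field F₀] [Finite F₀]

theorem vl_const {E : Type} [Field E] (w : Vl E) (φ : F₀ →+* E) {a : F₀} (ha : a ≠ 0) :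
    w (φ a) = 1 := by
  obtain ⟨n, hn, e⟩ := isOfFinOrder_iff_pow_eq_one.1 (isOfFinOrder_of_finite (Units.mk0 a ha))
  refine (pow_eq_one_iff_of_nonneg zero_le hn.ne').1 ?_
  rw [← map_pow, ← map_pow, show a ^ n = 1 from congrArg Units.val e, map_one, map_one]

theorem nc2b_le {E : Type} [Field E] (w : Vl E) (φ : F₀[X] →+* E) (h : w (φ Polynomial.X) ≤ 1)
    (f : F₀[X]) : w (φ f) ≤ 1 := by
  induction f using Polynomial.induction_on' with
  | add p q hp hq => rw [map_add]; exact w.map_add_le hp hq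
  | monomial n c =>
    rcases eq_or_ne c 0 with rfl | hc
    · simp
    rw [← Polynomial.C_mul_X_pow_eq_monomial, map_mul, map_pow, map_mul, map_pow]
    exact mul_le_one' (vl_const w (φ.comp Polynomial.C) hc).le (pow_le_one' h n)

/-- a place of the rational function field with `v X ≤ 1` is centred at a prime polynomial -/
theorem rat_fin {v : Vl (RatFunc F₀)} (hv : Nrm v) (h : v RatFunc.X ≤ 1) :
    ∃ P : F₀[X], Prime P ∧ Cen (algebraMap F₀[X] (RatFunc F₀)) v P ∧
      v (algebraMap F₀[X] (RatFunc F₀) P) = WithZero.exp (-1) := by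
  have hα := isFr_alg F₀[X] (RatFunc F₀)
  have h1 := nc2b_le v (algebraMap F₀[X] (RatFunc F₀)) h
  let I : Ideal F₀[X] :=
    { carrier := {a | v (algebraMap F₀[X] (RatFunc F₀) a) < 1}
      add_mem' := fun ha hb => (congrArg v (map_add _ _ _)).trans_lt (v.map_add_lt ha hb)
      zero_mem' := by simp
      smul_mem' := fun c a ha => by
        rw [Set.mem_ofPred_eq, smul_eq_mul, map_mul, map_mul]
        exact (mul_le_of_le_one_left' (h1 c)).trans_lt ha }
  have hc : Cen (algebraMap F₀[X] (RatFunc F₀)) v (Submodule.IsPrincipal.generator I) :=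
    ⟨h1, fun _ => Submodule.IsPrincipal.mem_iff_generator_dvd I⟩
  have hP := hc.prime fun h0 => by
    obtain ⟨π, hπ⟩ := hv
    obtain ⟨a, b, hb, e⟩ := hα.2 π
    have h2 := (hc.2 a).1 (by
      rw [← e, map_mul]
      exact (mul_le_of_le_one_right' (h1 b)).trans_lt ((lt_one_iff_le_exp _).2 hπ.le))
    rw [h0, zero_dvd_iff] at h2
    rw [h2, map_zero] at e
    exact mul_ne_zero (v.ne_zero_iff.1 (hπ ▸ WithZero.exp_ne_zero)) (hα.vfrc_ne hb) e
  obtain ⟨u, h2, h3⟩ := exists_vcen hα hP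
  exact ⟨_, hP, hc, Nrm.eq_of_iff hv ⟨_, h3⟩ (hc.iff hα hP h2) ▸ h3⟩

theorem nc2b_inf {v : Vl (RatFunc F₀)} (hv : Nrm v) (h : 1 < v RatFunc.X) :
    v = RatFunc.inftyValuation F₀ := by
  have : v.IsTrivialOn F₀ := ⟨fun a ha => vl_const v _ ha⟩
  exact Nrm.eq_of_iff ⟨_, RatFunc.inftyValuation.X_inv F₀⟩ hv fun x =>
    (RatFunc.valuation_isEquiv_inftyValuation_of_one_lt_valuation_X h).le_one_iff_le_one

/-- the place at infinity -/
theorem rat_inf {v : Vl (RatFunc F₀)} (hv : Nrm v) (h : 1 < v RatFunc.X) (x : RatFunc F₀)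
    (hx : x ≠ 0) : v x = WithZero.exp x.intDegree := by
  rw [nc2b_inf hv h]
  exact RatFunc.inftyValuation_of_nonzero F₀ hx

theorem rat_exists_inf : ∃ v : Vl (RatFunc F₀), Nrm v ∧ 1 < v RatFunc.X :=
  ⟨RatFunc.inftyValuation F₀, ⟨_, RatFunc.inftyValuation.X_inv F₀⟩,
    RatFunc.inftyValuation.X F₀ ▸ WithZero.exp_lt_exp.2 (zero_lt_one' ℤ)⟩

theorem nc2b_fin (n : ℕ) : {r : F₀[X] | r.natDegree ≤ n}.Finite :=
  Set.Finite.of_finite_image (f := fun r (i : Fin (n + 1)) => r.coeff i) (Set.toFinite _)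
    fun _ hp _ hq e => (Polynomial.ext_iff_natDegree_le hp hq).2 fun i hi =>
      congrFun e ⟨i, Nat.lt_succ_of_le hi⟩

theorem rat_finR {v : Vl (RatFunc F₀)} (hv : Nrm v) : FinR v := by
  have hα := isFr_alg F₀[X] (RatFunc F₀)
  obtain ⟨n, hn⟩ : ∃ n, ∀ a, v a ≤ 1 → ∃ r : F₀[X], r.natDegree ≤ n ∧
      v (a - algebraMap F₀[X] (RatFunc F₀) r) < 1 := by
    rcases le_or_gt (v RatFunc.X) 1 with h | h
    · obtain ⟨P, hP, hc, -⟩ := rat_fin hv h
      refine ⟨P.natDegree, fun a ha => ?_⟩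
      obtain ⟨c, b, hb, e⟩ := (hc.le_one_iff hα hP a).1 ha
      obtain ⟨s, u, h1⟩ := hP.irreducible.coprime_iff_not_dvd.2 hb
      refine ⟨(c * u) % P, Polynomial.natDegree_le_natDegree
        (Polynomial.degree_mod_lt _ hP.ne_zero).le, ?_⟩
      have h2 := congrArg (algebraMap F₀[X] (RatFunc F₀)) h1
      have h3 := congrArg (algebraMap F₀[X] (RatFunc F₀)) (EuclideanDomain.div_add_mod (c * u) P)
      simp only [map_add, map_mul, map_one] at h2 h3
      rw [show a - algebraMap F₀[X] (RatFunc F₀) (c * u % P) = (a * algebraMap F₀[X] _ s +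
        algebraMap F₀[X] _ (c * u / P)) * algebraMap F₀[X] _ P by
          linear_combination -a * h2 - h3 + algebraMap F₀[X] (RatFunc F₀) u * e, map_mul]
      refine (mul_le_of_le_one_left' (v.map_add_le ?_ (hc.1 _))).trans_lt ((hc.2 P).2 dvd_rfl)
      rw [map_mul]
      exact mul_le_one' ha (hc.1 s)
    · have h1 : ∀ p : F₀[X], p ≠ 0 → v (algebraMap F₀[X] _ p) = WithZero.exp (p.natDegree : ℤ) :=
        fun p hp => by rw [rat_inf hv h _ (hα.vfrc_ne hp), RatFunc.intDegree_polynomial]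
      refine ⟨0, fun a ha => ?_⟩
      obtain ⟨c, b, hb, e⟩ := hα.2 a
      have h2 : v (a - algebraMap F₀[X] _ (c / b)) < 1 := by
        have h3 := congrArg (algebraMap F₀[X] (RatFunc F₀)) (EuclideanDomain.div_add_mod c b)
        simp only [map_add, map_mul] at h3
        rw [eq_div_of_mul_eq (hα.vfrc_ne hb) (show (a - algebraMap F₀[X] _ (c / b)) *
          algebraMap F₀[X] _ b = algebraMap F₀[X] _ (c % b) by linear_combination e - h3),
          map_div₀, h1 b hb, div_lt_one₀ WithZero.exp_pos]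
        rcases eq_or_ne (c % b) 0 with h0 | h0
        · simp [h0]
        · rw [h1 _ h0, WithZero.exp_lt_exp, Nat.cast_lt]
          exact Polynomial.natDegree_lt_natDegree h0 (Polynomial.degree_mod_lt _ hb)
      refine ⟨c / b, ?_, h2⟩
      rcases eq_or_ne (c / b) 0 with h0 | h0
      · simp [h0]
      · have h3 := v.map_sub_le ha h2.le
        rw [sub_sub_cancel, h1 _ h0, ← WithZero.exp_zero, WithZero.exp_le_exp] at h3
        exact_mod_cast h3
  refine ⟨((nc2b_fin n).image (algebraMap F₀[X] (RatFunc F₀))).toFinset.filter (v · ≤ 1),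
    fun b hb => (Finset.mem_filter.1 hb).2, fun a ha => ?_⟩
  obtain ⟨r, h1, h2⟩ := hn a ha
  exact ⟨_, Finset.mem_filter.2 ⟨(Set.Finite.mem_toFinset _).2 ⟨r, h1, rfl⟩,
    by simpa using v.map_sub_le ha h2.le⟩, h2⟩

theorem rat_fs (x : RatFunc F₀) : {v : Vl (RatFunc F₀) | Nrm v ∧ 1 < v x}.Finite := by
  have hα := isFr_alg F₀[X] (RatFunc F₀)
  refine (((nc2b_fin x.denom.natDegree).biUnion (t := fun P => {v : Vl (RatFunc F₀) | Nrm v ∧
    Prime P ∧ Cen (algebraMap F₀[X] _) v P}) fun P _ => Set.Subsingleton.finite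
      fun v hv u hu => Nrm.eq_of_iff hu.1 hv.1 (hu.2.2.iff hα hu.2.1 hv.2.2)).insert
      (RatFunc.inftyValuation F₀)).subset fun v hv => ?_
  rcases le_or_gt (v RatFunc.X) 1 with h | h
  · obtain ⟨P, hP, hc, -⟩ := rat_fin hv.1 h
    refine Or.inr (Set.mem_biUnion (Polynomial.natDegree_le_of_dvd (by_contra fun hn => ?_)
      x.denom_ne_zero) ⟨hv.1, hP, hc⟩)
    refine hv.2.not_ge ?_
    rw [← x.num_div_denom, map_div₀, (hc.eq_one _).2 hn, div_one]
    exact hc.1 _
  · exact Or.inl (nc2b_inf hv.1 h)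

theorem rat_poly {x : RatFunc F₀} (h : ∀ v : Vl (RatFunc F₀), Nrm v → v RatFunc.X ≤ 1 → v x ≤ 1) :
    ∃ q : F₀[X], x = algebraMap F₀[X] (RatFunc F₀) q := by
  have hα := isFr_alg F₀[X] (RatFunc F₀)
  obtain ⟨m, a, e⟩ := hartogs (Θ := 1) (x := x) hα fun P w hP _ hc => by
    obtain ⟨v, h1, h2⟩ := exists_vcen hα hP
    exact (h1.iff hα hP hc x).2 (h v ⟨_, h2⟩ (h1.1 Polynomial.X))
  exact ⟨a, by simpa using e⟩

end rat

variable {k : Type} (F₀ : Type) [Field k] [Field F₀] [Finite F₀] [Algebra (RatFunc F₀) k]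
  [FiniteDimensional (RatFunc F₀) k]

/-- polynomials in `t` -/
noncomputable abbrev pol (k F₀ : Type) [Field k] [Field F₀] [Algebra (RatFunc F₀) k] :
    F₀[X] →+* k := (algebraMap (RatFunc F₀) k).comp (algebraMap F₀[X] (RatFunc F₀))

theorem exists_under {w : Vl k} (hw : Nrm w) :
    ∃ v : Vl (RatFunc F₀), Nrm v ∧ Over (algebraMap (RatFunc F₀) k) v w := by
  obtain ⟨v, hv, h, -⟩ := (vcnj_red (w.comap (algebraMap (RatFunc F₀) k))).resolve_left fun h => by
    obtain ⟨π, hπ⟩ := hw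
    have h1 := vcnj_triv (K := RatFunc F₀) (w := w) (vcnj_le h) π⁻¹
    rw [map_inv₀, hπ, ← WithZero.exp_neg, ← WithZero.exp_zero, WithZero.exp_le_exp] at h1
    omega
  exact ⟨v, hv, h⟩

include F₀ in
theorem finR_of_nrm {w : Vl k} (hw : Nrm w) : FinR w := by
  obtain ⟨v, hv, ho⟩ := exists_under F₀ hw
  exact (rat_finR hv).over ho

include F₀ in
theorem finite_pole (a : k) : {w : Vl k | Nrm w ∧ 1 < w a}.Finite := by
  have hi := Algebra.IsIntegral.isIntegral (R := RatFunc F₀) a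
  refine ((minpoly (RatFunc F₀) a).support.finite_toSet.biUnion fun i _ =>
    (rat_fs ((minpoly (RatFunc F₀) a).coeff i)).biUnion fun v _ => finite_over (E := k) v).subset
      fun w hw => by_contra fun hn => hw.2.not_ge ?_
  obtain ⟨v, hv, ho⟩ := exists_under F₀ hw.1
  obtain ⟨q, h1, -, h2⟩ := Polynomial.lifts_and_degree_eq_and_monic
    ((Polynomial.lifts_iff_coeff_lifts (f := v.integer.subtype) _).2 fun i =>
      ⟨⟨_, not_lt.1 fun h => hn (Set.mem_biUnion (Polynomial.mem_support_iff.2 fun e => by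
        simp [e] at h) (Set.mem_biUnion ⟨hv, h⟩ ⟨hw.1, ho⟩))⟩, rfl⟩) (minpoly.monic hi)
  refine le_one_of_int (f := (algebraMap _ k).comp v.integer.subtype) (fun c => (ho _).2 c.2)
    ⟨q, h2, ?_⟩
  rw [← Polynomial.eval₂_map, h1]
  exact minpoly.aeval _ a

/-- a polynomial in `t` that vanishes to high order at finitely many finite places -/
theorem exists_pol_small {S : Set (Vl k)} (hS : S.Finite)
    (h : ∀ w ∈ S, Nrm w ∧ w (pol k F₀ Polynomial.X) ≤ 1) (n : ℕ) :
    ∃ N : F₀[X], N ≠ 0 ∧ ∀ w ∈ S, w (pol k F₀ N) ≤ WithZero.exp (-(n : ℤ)) := by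
  obtain ⟨Q, h0, hQ⟩ : ∃ Q : F₀[X], Q ≠ 0 ∧ ∀ w ∈ S, w (pol k F₀ Q) < 1 := by
    induction S, hS using Set.Finite.induction_on with
    | empty => exact ⟨1, one_ne_zero, fun _ => False.elim⟩
    | @insert u S _ _ ih =>
      obtain ⟨Q, h0, hQ⟩ := ih fun w hw => h w (Or.inr hw)
      obtain ⟨v, hv, ho⟩ := exists_under F₀ (h u (Or.inl rfl)).1
      obtain ⟨P, hP, hc, -⟩ := rat_fin hv ((ho _).1 (h u (Or.inl rfl)).2)
      refine ⟨P * Q, mul_ne_zero hP.ne_zero h0, fun w hw => ?_⟩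
      have h1 := nc2b_le w _ (h w hw).2
      rw [map_mul, map_mul]
      rcases hw with rfl | hw
      · exact (mul_le_of_le_one_right' (h1 Q)).trans_lt ((ho.lt_one _).2 ((hc.2 P).2 dvd_rfl))
      · exact (mul_le_of_le_one_left' (h1 P)).trans_lt (hQ w hw)
  refine ⟨Q ^ n, pow_ne_zero n h0, fun w hw => ?_⟩
  rw [map_pow, map_pow]
  refine (pow_le_pow_left' ((lt_one_iff_le_exp _).1 (hQ w hw)) n).trans_eq ?_
  rw [← WithZero.exp_nsmul, smul_neg, nsmul_one]

end Pool.Agent.ZFN
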