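import Pool.Agent.Lib.MP_751085_ag.ZF.N.C1
import Pool.Agent.Lib.MP_751085_ag.ZF.N.C2

/-! Approximation, finiteness and derivations at the places. -/

namespace Pool.Agent.ZFN

open Pool.Agent.ZCy
open scoped Classical WithZero Polynomial
open Filter

section der

variable {p : ℕ} [Fact p.Prime] {E : Type} [Field E] [CharP E p] {w : Vl E} {π t : E}

theorem FinR.perf (h : FinR w) {a : E} (ha : w a ≤ 1) : ∃ b, w (a - b ^ p) < 1 := by
  obtain ⟨s, -, hs⟩ := h
  choose f h1 h2 using fun n : ℕ => hs (a ^ p ^ n) (by rw [map_pow]; exact pow_le_one' ha _)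
  have key : ∀ m n, m < n → f m = f n → ∃ b, w (a - b ^ p) < 1 := fun m n hl e => by
    obtain ⟨d, rfl⟩ := Nat.exists_eq_add_of_lt hl
    have h3 := w.map_sub_lt (h2 m) (e ▸ h2 (m + d + 1))
    rw [sub_sub_sub_cancel_right, show p ^ (m + d + 1) = p ^ d * p * p ^ m by ring, pow_mul,
      ← sub_pow_char_pow, map_pow,
      pow_lt_one_iff_of_nonneg zero_le (pow_pos (Fact.out : p.Prime).pos m).ne', pow_mul] at h3
    exact ⟨_, h3⟩
  obtain ⟨m, n, hne, e⟩ := Finite.exists_ne_map_eq_of_infinite fun n => (⟨f n, h1 n⟩ : s)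
  rcases lt_or_gt_of_ne hne with hl | hl
  exacts [key _ _ hl (congrArg Subtype.val e), key _ _ hl (congrArg Subtype.val e).symm]

theorem unif_not_pow (hπ : w π = WithZero.exp (-1)) (z : E) : π ≠ z ^ p := fun e => by
  have h1 := ord_eq_of w hπ
  rw [e, ord_pow_v] at h1
  exact (Fact.out : p.Prime).ne_one
    (Int.ofNat_inj.1 (Int.eq_one_of_mul_eq_one_right (Int.natCast_nonneg p) h1))

omit [Fact p.Prime] [CharP E p] in
theorem nc3a_ord (hπ : w π = WithZero.exp (-1)) {j : ℕ} {y : E} (h : π ^ j * y ^ p ≠ 0) :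
    ord w (π ^ j * y ^ p) = j + p * ord w y := by
  rw [ord_mul_v w (left_ne_zero_of_mul h) (right_ne_zero_of_mul h), ord_pow_v, ord_pow_v,
    ord_eq_of w hπ, mul_one]

omit [Fact p.Prime] in
theorem nc3a_pow (D : Derivation ℤ E E) (y : E) : D (y ^ p) = 0 := by
  rw [Derivation.leibniz_pow, nsmul_eq_mul, CharP.cast_eq_zero E p, zero_mul]

/-- the terms have orders that are different modulo `p` -/
theorem le_of_span (hπ : w π = WithZero.exp (-1)) (y : Fin p → E) (j : Fin p) :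
    w (π ^ (j : ℕ) * y j ^ p) ≤ w (∑ j : Fin p, π ^ (j : ℕ) * y j ^ p) := by
  obtain ⟨i, -, hi⟩ := Finset.exists_max_image Finset.univ
    (fun j : Fin p => w (π ^ (j : ℕ) * y j ^ p)) ⟨j, Finset.mem_univ j⟩
  refine (hi j (Finset.mem_univ j)).trans ?_
  rcases eq_or_ne (π ^ (i : ℕ) * y i ^ p) 0 with h0 | h0
  · rw [h0, map_zero]
    exact zero_le
  refine (w.map_sum_eq_of_lt (Finset.mem_univ i) fun l hl => (hi l (Finset.mem_univ l)).lt_of_ne
    fun e => (Finset.mem_sdiff.1 hl).2 (Finset.mem_singleton.2 ?_)).ge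
  have h1 : π ^ (l : ℕ) * y l ^ p ≠ 0 := w.ne_zero_iff.1 (e ▸ w.ne_zero_iff.2 h0)
  have h2 := (ord_eq_ord w h1 h0).2 e
  rw [nc3a_ord hπ h1, nc3a_ord hπ h0] at h2
  have h3 := congrArg (· % (p : ℤ)) h2
  simp only [Int.add_mul_emod_self_left, ← Int.natCast_mod, Nat.mod_eq_of_lt l.2,
    Nat.mod_eq_of_lt i.2] at h3
  exact Fin.ext (Int.ofNat_inj.1 h3)

theorem P1.der_unif (h : P1 p π) (hπ : w π = WithZero.exp (-1)) {a : E} (ha : w a ≤ 1) :
    w (dT π a) ≤ 1 := by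
  obtain ⟨y, rfl⟩ := h.span a
  rw [map_sum]
  refine w.map_sum_le fun j _ => ?_
  have h1 : w (y j) ≤ 1 := by
    rcases eq_or_ne (y j) 0 with h0 | h0
    · simp [h0]
    have h2 := mul_ne_zero (pow_ne_zero (j : ℕ) (w.ne_zero_iff.1 (hπ ▸ WithZero.exp_ne_zero)))
      (pow_ne_zero p h0)
    have h3 := (ord_nonneg_v w h2).2 ((le_of_span hπ y j).trans ha)
    have h4 : ((j : ℕ) : ℤ) < p := Int.ofNat_lt.2 j.2
    rw [nc3a_ord hπ h2] at h3
    exact (ord_nonneg_v w h0).1 (by nlinarith)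
  have h2 : w π ≤ 1 := hπ ▸ (WithZero.exp_le_exp.2 (by omega)).trans_eq WithZero.exp_zero
  rw [Derivation.leibniz, nc3a_pow, smul_zero, zero_add, Derivation.leibniz_pow, h.self,
    smul_eq_mul, smul_eq_mul, nsmul_eq_mul, mul_one, map_mul, map_mul, map_pow, map_pow]
  exact mul_le_one' (pow_le_one' h1 _)
    (mul_le_one' (bd_iff.1 (bd_nat w π _)) (pow_le_one' h2 _))

/-- `P1.change`, `P1.der_eq` -/
theorem P1.der_le (h : P1 p t) (hπ : w π = WithZero.exp (-1)) {a : E} (ha : w a ≤ 1) :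
    w (dT t a) ≤ w (dT t π) := by
  have h1 := h.change (unif_not_pow hπ)
  rw [h1.der_eq (dT t) a, map_mul]
  exact mul_le_of_le_one_right' (h1.der_unif hπ ha)

theorem P1.der_ne (h : P1 p t) (hπ : w π = WithZero.exp (-1)) : dT t π ≠ 0 := fun e => by
  have h1 := (h.change (unif_not_pow hπ)).der_eq (dT t) t
  rw [e, zero_mul, h.self] at h1
  exact one_ne_zero h1

end der

variable {k ι : Type} (F₀ : Type) [Field k] [Field F₀] [Finite F₀] [Algebra (RatFunc F₀) k]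
  [FiniteDimensional (RatFunc F₀) k] [Algebra.IsSeparable (RatFunc F₀) k]

/-- the elements that are integral over the polynomials -/
def IntP (x : k) : Prop := (pol k F₀).IsIntegralElem x

theorem nc3b_frac {A : Type} [CommRing A] [IsDedekindDomain A] [Algebra A k] [IsFractionRing A k]
    {w : Vl k} (hw : Nrm w) (h : ∀ y, w (algebraMap A k y) ≤ 1) {a : k} (ha : w a ≤ 1) :
    ∃ x y, w (algebraMap A k y) = 1 ∧ a * algebraMap A k y = algebraMap A k x := by
  let P : Ideal A := (IsLocalRing.maximalIdeal w.valuationSubring).comap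
    ((algebraMap A k).codRestrict w.valuationSubring h)
  have hP : ∀ y, y ∉ P ↔ w (algebraMap A k y) = 1 := fun y => by
    rw [Ideal.mem_comap, Valuation.mem_maximalIdeal_iff, not_lt]
    exact ⟨(h y).antisymm, fun e => e.ge⟩
  have h0 : P ≠ ⊥ := fun e => by
    obtain ⟨π, hπ⟩ := hw
    obtain ⟨r, s, hs, rfl⟩ := IsFractionRing.div_surjective A π
    have h1 : ∀ y, y ≠ 0 → w (algebraMap A k y) = 1 := fun y hy => (hP y).1 (e ▸ hy)
    rcases eq_or_ne r 0 with rfl | hr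
    · rw [map_zero, zero_div, map_zero] at hπ
      exact WithZero.exp_ne_zero hπ.symm
    · rw [map_div₀, h1 r hr, h1 s (nonZeroDivisors.ne_zero hs), div_one, eq_comm,
        WithZero.exp_eq_one] at hπ
      omega
  have := IsLocalization.AtPrime.isDiscreteValuationRing_of_dedekind_domain A h0
    (Localization.AtPrime P)
  obtain ⟨r, s, hs, rfl⟩ := IsFractionRing.div_surjective A a
  have hs' : algebraMap A k s ≠ 0 := IsFractionRing.to_map_ne_zero_of_mem_nonZeroDivisors hs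
  have hi := IsLocalization.injective (Localization.AtPrime P) P.primeCompl_le_nonZeroDivisors
  obtain ⟨c, hc⟩ := ValuationRing.cond (algebraMap A (Localization.AtPrime P) r) (algebraMap A _ s)
  obtain ⟨⟨x, y, hy⟩, e⟩ := IsLocalization.surj P.primeCompl c
  replace hy := (hP y).1 hy
  rcases hc with hc | hc
  · have e1 : algebraMap A k r * algebraMap A k x = algebraMap A k s * algebraMap A k y := by
      rw [← map_mul, ← map_mul, hi (a₁ := r * x) (a₂ := s * y)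
        (by rw [map_mul, map_mul, ← hc, mul_assoc, e])]
    have e2 : algebraMap A k r / algebraMap A k s * algebraMap A k x = algebraMap A k y := by
      rw [div_mul_eq_mul_div, e1, mul_div_cancel_left₀ _ hs']
    refine ⟨y, x, (h x).antisymm ?_, e2⟩
    rw [← hy, ← e2, map_mul]
    exact mul_le_of_le_one_left' ha
  · refine ⟨x, y, hy, ?_⟩
    rw [div_mul_eq_mul_div, div_eq_iff hs', ← map_mul, ← map_mul, hi (a₁ := r * y) (a₂ := x * s)
      (by rw [map_mul, map_mul, ← hc, mul_assoc, e, mul_comm])]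

theorem nc3b_cop {A : Type} [CommRing A] [IsDedekindDomain A] [Algebra A k] [IsFractionRing A k]
    {N : A} (hN : N ≠ 0) {x : k} (hx : ∀ w : Vl k, Nrm w → (∀ y, w (algebraMap A k y) ≤ 1) →
      w (algebraMap A k N) < 1 → w x ≤ 1) :
    ∃ y c, x = algebraMap A k y + algebraMap A k c * algebraMap A k N * x := by
  have : (1 : Submodule A k).comap (LinearMap.toSpanSingleton A k x) ⊔ Ideal.span {N} = ⊤ := by
    by_contra hn
    obtain ⟨M, hM, hle⟩ := Ideal.exists_le_maximal _ hn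
    have h1 : N ∈ M := hle (Ideal.mem_sup_right (Ideal.mem_span_singleton_self N))
    let v : IsDedekindDomain.HeightOneSpectrum A := ⟨M, hM.isPrime, fun e => hN (e ▸ h1 :)⟩
    have h2 := v.valuation_exists_uniformizer k
    obtain ⟨z, y, hy, e⟩ := nc3b_frac h2 v.valuation_le_one
      (hx _ h2 v.valuation_le_one ((v.valuation_lt_one_iff_mem N).2 h1))
    refine ((v.valuation_lt_one_iff_mem y).2 (hle (Ideal.mem_sup_left ?_))).ne hy
    exact Submodule.mem_one.2 ⟨z, by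
      rw [LinearMap.toSpanSingleton_apply, Algebra.smul_def, mul_comm, e]⟩
  obtain ⟨y, hy, z, hz, e⟩ := Submodule.mem_sup.1 (this.ge (Submodule.mem_top (x := 1)))
  obtain ⟨c, rfl⟩ := Ideal.mem_span_singleton'.1 hz
  obtain ⟨u, hu⟩ := Submodule.mem_one.1 hy
  refine ⟨u, c, ?_⟩
  rw [hu, LinearMap.toSpanSingleton_apply, Algebra.smul_def, ← map_mul, ← add_mul, ← map_add, e,
    map_one, one_mul]

theorem nc3b_ded : ∃ A : Subring k, IsDedekindDomain A ∧ IsFractionRing A k ∧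
    ∀ x, x ∈ A ↔ IntP F₀ x := by
  let := (pol k F₀).toAlgebra
  have : IsScalarTower F₀[X] (RatFunc F₀) k := .of_algebraMap_eq' rfl
  exact ⟨(integralClosure F₀[X] k).toSubring, integralClosure.isDedekindDomain _ (RatFunc F₀) k,
    integralClosure.isFractionRing_of_finite_extension (RatFunc F₀) k, fun _ => Iff.rfl⟩

theorem nc3b_le {w : Vl k} (h : w (pol k F₀ Polynomial.X) ≤ 1) {x : k} (hx : IntP F₀ x) :
    w x ≤ 1 := by
  refine le_one_of_int (fun q => ?_) hx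
  induction q using Polynomial.induction_on' with
  | add p q hp hq => rw [map_add]; exact w.map_add_le hp hq
  | monomial n a =>
    rw [← Polynomial.C_mul_X_pow_eq_monomial, map_mul, map_pow, map_mul, map_pow]
    refine mul_le_one' ?_ (pow_le_one' h n)
    rcases eq_or_ne a 0 with rfl | ha
    · simp
    · exact (vl_const w ((pol k F₀).comp Polynomial.C) ha).le

theorem nc3b_mul (s : Finset k) : ∃ N, pol k F₀ N ≠ 0 ∧ ∀ x ∈ s, IntP F₀ (pol k F₀ N * x) := by
  let := (pol k F₀).toAlgebra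
  have : IsScalarTower F₀[X] (RatFunc F₀) k := .of_algebraMap_eq' rfl
  obtain ⟨N, h0, h⟩ := exists_integral_multiples F₀[X] (RatFunc F₀) s
  exact ⟨N, (map_ne_zero (algebraMap (RatFunc F₀) k)).2 (RatFunc.algebraMap_ne_zero h0), h⟩

/-- the valuation ring is a localisation of the integral closure -/
theorem exists_frac {w : Vl k} (hw : Nrm w) (h : w (pol k F₀ Polynomial.X) ≤ 1) {a : k}
    (ha : w a ≤ 1) : ∃ x y, IntP F₀ x ∧ IntP F₀ y ∧ w y = 1 ∧ a * y = x := by
  obtain ⟨A, _, _, hA⟩ := nc3b_ded (k := k) F₀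
  obtain ⟨x, y, h1, h2⟩ := nc3b_frac (A := A) hw (fun y => nc3b_le F₀ h ((hA _).1 y.2)) ha
  exact ⟨x, y, (hA _).1 x.2, (hA _).1 y.2, h1, h2⟩

theorem IntP.le_one {w : Vl k} (h : w (pol k F₀ Polynomial.X) ≤ 1) {x : k} (hx : IntP F₀ x) :
    w x ≤ 1 := by
  exact nc3b_le F₀ h hx

/-- the integral closure is finite -/
theorem exists_gen : ∃ (n : ℕ) (b : Fin n → k), (∀ i, IntP F₀ (b i)) ∧
    (∀ x, IntP F₀ x → ∃ q : Fin n → F₀[X], x = ∑ i, pol k F₀ (q i) * b i) ∧
    ∀ x, ∃ r : Fin n → RatFunc F₀, x = ∑ i, algebraMap (RatFunc F₀) k (r i) * b i := by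
  let := (pol k F₀).toAlgebra
  have : IsScalarTower F₀[X] (RatFunc F₀) k := .of_algebraMap_eq' rfl
  have := IsIntegralClosure.finite F₀[X] (RatFunc F₀) k (integralClosure F₀[X] k)
  obtain ⟨n, b, hb⟩ := Module.Finite.exists_fin (R := F₀[X]) (M := integralClosure F₀[X] k)
  have h : ∀ x, IntP F₀ x → ∃ q : Fin n → F₀[X], x = ∑ i, pol k F₀ (q i) * b i := fun x hx => by
    obtain ⟨q, hq⟩ := (Submodule.mem_span_range_iff_exists_fun _).1
      (hb.ge (Submodule.mem_top (x := (⟨x, hx⟩ : integralClosure F₀[X] k))))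
    refine ⟨q, (congrArg Subtype.val hq).symm.trans ?_⟩
    rw [AddSubmonoidClass.coe_finsetSum]
    rfl
  refine ⟨n, fun i => b i, fun i => (b i).2, h, fun x => ?_⟩
  obtain ⟨N, h0, hN⟩ := nc3b_mul F₀ {x}
  obtain ⟨q, hq⟩ := h _ (hN x (Finset.mem_singleton_self x))
  refine ⟨fun i => algebraMap _ _ (q i) / algebraMap _ _ N, mul_left_cancel₀ h0 (hq.trans ?_)⟩
  rw [Finset.mul_sum]
  refine Finset.sum_congr rfl fun i _ => ?_
  rw [map_div₀, ← mul_assoc]
  exact congrArg (· * _) (mul_div_cancel₀ _ h0).symm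

/-- strong approximation -/
theorem exists_approx_fin (a : Vl k → k) (ha : {w | a w ≠ 0}.Finite) :
    ∃ b, ∀ w, Nrm w → w (pol k F₀ Polynomial.X) ≤ 1 → w (b - a w) ≤ 1 := by
  obtain ⟨A, _, _, hA⟩ := nc3b_ded (k := k) F₀
  obtain ⟨N, h0, hN⟩ := nc3b_mul F₀ (ha.toFinset.image a)
  generalize hM : pol k F₀ N = M at h0 hN
  have hM' : M ∈ A := (hA _).2 (hM ▸ RingHom.isIntegralElem_map _)
  have h1 : ∀ w w' : Vl k, w' (pol k F₀ Polynomial.X) ≤ 1 → w' (M * a w) ≤ 1 := fun w w' h => by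
    by_cases e : a w = 0
    · simp [e]
    · exact nc3b_le F₀ h (hN _ (Finset.mem_image_of_mem a (ha.mem_toFinset.2 e)))
  have := (finite_pole F₀ M⁻¹).to_subtype
  obtain ⟨x, hx⟩ := wap (fun w : {w : Vl k | Nrm w ∧ 1 < w M⁻¹} => w.1) (fun w => w.2.1)
    (fun w => a w.1) (fun _ _ e => congrArg a e) 0
  have h2 : ∀ w : Vl k, Nrm w → w M < 1 → w (x - a w) ≤ 1 := fun w hw h => hx ⟨w, hw, by
    rw [map_inv₀]
    exact (one_lt_inv₀ (zero_lt_iff.2 (w.ne_zero_iff.2 h0))).2 h⟩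
  have h3 : ∀ w : Vl k, Nrm w → w (pol k F₀ Polynomial.X) ≤ 1 → w M < 1 → w (M * x) ≤ 1 :=
    fun w hw h h' => by
      rw [← sub_add_cancel x (a w), mul_add]
      refine w.map_add_le ?_ (h1 w w h)
      rw [map_mul]
      exact mul_le_one' h'.le (h2 w hw h')
  obtain ⟨y, c, e⟩ := nc3b_cop (A := A) (N := ⟨M, hM'⟩) (fun e => h0 (congrArg Subtype.val e))
    (x := M * x) fun w hw h => h3 w hw (h ⟨_, (hA _).2 (RingHom.isIntegralElem_map _)⟩)
  replace e : M * x = y + c * M * (M * x) := e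
  refine ⟨y / M, fun w hw h => ?_⟩
  rcases (nc3b_le F₀ h ((hA _).1 hM')).lt_or_eq with h' | h'
  · rw [show y / M - a w = x - a w - c * (M * x) by field_simp; linear_combination -e]
    refine w.map_sub_le (h2 w hw h') ?_
    rw [map_mul]
    exact mul_le_one' (nc3b_le F₀ h ((hA _).1 c.2)) (h3 w hw h h')
  · refine w.map_sub_le ?_ ?_
    · rw [map_div₀, h', div_one]
      exact nc3b_le F₀ h ((hA _).1 y.2)
    · simpa only [map_mul, h', one_mul] using h1 w w h

variable {v : ι → Vl k} {π : ι → k}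

omit [Algebra.IsSeparable (RatFunc F₀) k] in
theorem nc3c_part (r : RatFunc F₀) : ∃ q : F₀[X], ∀ w : Vl k, Nrm w →
    1 < w (pol k F₀ Polynomial.X) → w (algebraMap _ k r - pol k F₀ q) ≤ 1 := by
  refine ⟨r.num / r.denom, fun w hw h => ?_⟩
  obtain ⟨u, hu, ho⟩ := exists_under F₀ hw
  rw [RingHom.comp_apply, ← map_sub, ho]
  have hd := RatFunc.algebraMap_ne_zero r.denom_ne_zero
  have e : (r - algebraMap _ _ (r.num / r.denom)) * algebraMap _ _ r.denom =
      algebraMap F₀[X] (RatFunc F₀) (r.num % r.denom) := by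
    rw [EuclideanDomain.mod_eq_sub_mul_div, map_sub, map_mul, sub_mul, (div_eq_iff hd).1 r.num_div_denom,
      mul_comm (algebraMap _ _ r.denom)]
  generalize r - algebraMap _ _ (r.num / r.denom) = s at e ⊢
  rcases eq_or_ne s 0 with rfl | h0
  · rw [map_zero]
    exact zero_le_one
  have h1 := congrArg RatFunc.intDegree e
  rw [RatFunc.intDegree_mul h0 hd, RatFunc.intDegree_polynomial,
    RatFunc.intDegree_polynomial] at h1
  have h2 := Polynomial.natDegree_le_natDegree (Polynomial.degree_mod_lt r.num r.denom_ne_zero).le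
  rw [rat_inf hu (lt_of_not_ge fun e => h.not_ge ((ho _).2 e)) s h0, ← WithZero.exp_zero,
    WithZero.exp_le_exp]
  omega

theorem nc3c_pol {w : Vl k} (h : w (pol k F₀ Polynomial.X) ≤ 1) (q : F₀[X]) :
    w (pol k F₀ q) ≤ 1 := IntP.le_one F₀ h (RingHom.isIntegralElem_map _)

include F₀ in
theorem pls_ad (hπ : ∀ i, v i (π i) = WithZero.exp (-1)) (hi : Function.Injective v) :
    ∃ c, FinS c ∧ ∀ a : ι → k, (∀ᶠ i in cofinite, a i = 0) →
      ∃ b, ∀ i, Bd (v i) (π i) (c i) (b - a i) := by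
  have fs : ∀ a, ∀ᶠ i in cofinite, v i a ≤ 1 := fun a =>
    ((finite_pole F₀ a).preimage hi.injOn).subset fun i e => ⟨⟨_, hπ i⟩, not_le.1 e⟩
  obtain ⟨n, b, -, -, hb⟩ := exists_gen (k := k) F₀
  obtain ⟨c, hc, h⟩ := exists_finS_all (Set.finite_univ (α := Fin n))
    (P := fun j i m => Bd (v i) (π i) m (b j))
    (fun _ i _ _ hn h => (vp_of_unif (hπ i)).mono h (Int.ofNat_le.2 hn)) fun j _ =>
      exists_finS (P := fun i m => Bd (v i) (π i) m (b j))
        (fun i => (vp_of_unif (hπ i)).exists_bd _) ((fs _).mono fun _ h => bd_iff.2 h)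
  refine ⟨c, hc, fun a ha => ?_⟩
  obtain ⟨b₁, h1⟩ := exists_approx_fin F₀ (Function.extend v a 0) ((ha.image v).subset fun w e => by
    by_cases e' : ∃ i, v i = w
    · obtain ⟨i, rfl⟩ := e'
      exact ⟨i, fun e2 => e ((hi.extend_apply _ _ i).trans e2), rfl⟩
    · exact absurd (Function.extend_apply' _ _ _ e') e)
  have : Finite {i // ¬v i (pol k F₀ Polynomial.X) ≤ 1} := fs _
  obtain ⟨b₂, h2⟩ := wap (fun i : {i // ¬v i (pol k F₀ Polynomial.X) ≤ 1} => v i)
    (fun i => ⟨_, hπ i⟩) (fun i => a i) (fun i j e => congrArg a (hi e)) 0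
  obtain ⟨r, hr⟩ := hb (b₂ - b₁)
  choose q hq using fun j => nc3c_part (k := k) F₀ (r j)
  refine ⟨b₁ + ∑ j, pol k F₀ (q j) * b j, fun i => ?_⟩
  have V := vp_of_unif (hπ i)
  by_cases e : v i (pol k F₀ Polynomial.X) ≤ 1
  · have h3 := h1 _ ⟨_, hπ i⟩ e
    rw [hi.extend_apply] at h3
    rw [add_sub_right_comm]
    exact (V.mono (bd_iff.2 h3) (Int.natCast_nonneg _)).add (bd_sum fun j _ =>
      V.mul_le (bd_iff.2 (nc3c_pol F₀ e _)) (h j trivial i) (zero_add _).le)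
  · have h3 : b₁ + ∑ j, pol k F₀ (q j) * b j - a i =
        b₂ - a i - ∑ j, (algebraMap _ k (r j) - pol k F₀ (q j)) * b j := by
      simp only [sub_mul, Finset.sum_sub_distrib, ← hr]
      ring
    rw [h3]
    exact (V.mono (bd_iff.2 (h2 ⟨i, e⟩)) (Int.natCast_nonneg _)).sub (bd_sum fun j _ =>
      V.mul_le (bd_iff.2 (hq j _ ⟨_, hπ i⟩ (not_le.1 e))) (h j trivial i) (zero_add _).le)

theorem nc3c_tr {S : Set (Vl k)} (hS : S.Finite) (n : ℕ) :
    (Algebra.trace (RatFunc F₀) k '' {x | ∀ w : Vl k, Nrm w →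
      w x ≤ WithZero.exp (n : ℤ) ∧ (w ∉ S → w x ≤ 1)}).Finite := by
  obtain ⟨N, h0, hN⟩ := exists_pol_small F₀
    (S := {w ∈ S | Nrm w ∧ w (pol k F₀ Polynomial.X) ≤ 1}) (hS.sep _) (fun _ h => h.2) n
  obtain ⟨u, hu, h1⟩ := rat_exists_inf (F₀ := F₀)
  have hd := RatFunc.algebraMap_ne_zero h0
  have : Finite (Polynomial.degreeLT F₀ (N.natDegree + n + 1)) :=
    Finite.of_equiv _ (Polynomial.degreeLTEquiv F₀ _).symm.toEquiv
  refine (Set.finite_range fun q : Polynomial.degreeLT F₀ (N.natDegree + n + 1) =>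
    algebraMap F₀[X] (RatFunc F₀) q / algebraMap _ _ N).subset ?_
  rintro _ ⟨x, hx, rfl⟩
  obtain ⟨q, hq⟩ := rat_poly (x := Algebra.trace (RatFunc F₀) k (pol k F₀ N * x))
    fun u' hu' h => trace_le_one hu' fun w hw ho => by
      have h2 : w (pol k F₀ Polynomial.X) ≤ 1 := (ho _).2 h
      rw [map_mul]
      by_cases e : w ∈ S
      · refine (mul_le_mul' (hN w ⟨e, hw, h2⟩) (hx w hw).1).trans_eq ?_
        rw [← WithZero.exp_add, neg_add_cancel, WithZero.exp_zero]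
      · exact mul_le_one' (nc3c_pol F₀ h2 N) ((hx w hw).2 e)
  have h3 := trace_le_one hu (x := (RatFunc.X⁻¹ ^ n : RatFunc F₀) • x) fun w hw ho => by
    have h4 := (ho.lt_one _).2 ((map_inv₀ u _).trans_lt (inv_lt_one_of_one_lt₀ h1))
    rw [Algebra.smul_def, map_mul, map_pow, map_pow]
    refine (mul_le_mul' (pow_le_pow_left₀ zero_le ((lt_one_iff_le_exp _).1 h4) n)
      (hx w hw).1).trans_eq ?_
    rw [← WithZero.exp_nsmul, ← WithZero.exp_add, nsmul_eq_mul, mul_neg_one, neg_add_cancel,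
      WithZero.exp_zero]
  rw [RingHom.comp_apply, ← Algebra.smul_def, map_smul, smul_eq_mul] at hq
  rw [map_smul, smul_eq_mul] at h3
  refine ⟨⟨q, Polynomial.mem_degreeLT.2 ?_⟩, (div_eq_iff hd).2 (hq.symm.trans (mul_comm _ _))⟩
  generalize Algebra.trace (RatFunc F₀) k x = y at hq h3
  rcases eq_or_ne y 0 with rfl | hy
  · rw [mul_zero, eq_comm, map_eq_zero_iff _ (RatFunc.algebraMap_injective _)] at hq
    rw [hq, Polynomial.degree_zero]
    exact WithBot.bot_lt_coe _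
  have h5 := congrArg RatFunc.intDegree hq
  rw [RatFunc.intDegree_mul hd hy, RatFunc.intDegree_polynomial,
    RatFunc.intDegree_polynomial] at h5
  rw [map_mul, map_pow, map_inv₀, rat_inf hu h1 _ RatFunc.X_ne_zero, rat_inf hu h1 _ hy,
    RatFunc.intDegree_X, ← WithZero.exp_neg, ← WithZero.exp_nsmul, ← WithZero.exp_add,
    ← WithZero.exp_zero, WithZero.exp_le_exp, nsmul_eq_mul] at h3
  exact Polynomial.degree_le_natDegree.trans_lt (Nat.cast_lt.2 (by omega))

theorem nc3c_bd {I : Type} {S : Set I} (hS : S.Finite) (f : I → ℤᵐ⁰) :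
    ∃ n : ℕ, ∀ i ∈ S, f i ≤ WithZero.exp (n : ℤ) := by
  obtain ⟨n, hn⟩ := (hS.image fun i => (WithZero.log (f i)).toNat).bddAbove
  refine ⟨n, fun i hi => WithZero.le_exp_log.trans (WithZero.exp_le_exp.2 ?_)⟩
  have := hn ⟨i, hi, rfl⟩
  simp only at this
  omega

include F₀ in
theorem pls_ld (hπ : ∀ i, v i (π i) = WithZero.exp (-1)) (hs : ∀ w, Nrm w → ∃ i, v i = w)
    {c : ι → ℕ} (hc : FinS c) : {a | ∀ i, Bd (v i) (π i) (c i) a}.Finite := by
  let e := Module.finBasis (RatFunc F₀) k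
  obtain ⟨n, hn⟩ := nc3c_bd hc fun i => WithZero.exp (c i : ℤ)
  choose m hm using fun j => nc3c_bd (finite_pole F₀ (e j)) fun w => w (e j)
  refine Set.Finite.of_finite_image (f := fun a j => Algebra.trace (RatFunc F₀) k (a * e j))
    ((Set.Finite.pi' fun j => nc3c_tr F₀ ((hc.image v).union (finite_pole F₀ (e j)))
      (n + m j)).subset ?_) fun a _ a' _ h => e.traceDual.ext_elem fun j => ?_
  · rintro _ ⟨a, ha, rfl⟩ j
    refine ⟨_, fun w hw => ?_, rfl⟩
    obtain ⟨i, rfl⟩ := hs w hw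
    have h1 := (bd_exp (hπ i)).1 (ha i)
    have h2 : ∀ l : ℕ, (1 : ℤᵐ⁰) ≤ WithZero.exp (l : ℤ) := fun l =>
      WithZero.exp_zero.ge.trans (WithZero.exp_le_exp.2 (Int.natCast_nonneg l))
    rw [map_mul, Nat.cast_add, WithZero.exp_add]
    refine ⟨mul_le_mul' (h1.trans ?_) ?_, fun h => mul_le_one' ?_ ?_⟩
    · by_cases h : c i = 0
      · rw [h]
        exact h2 n
      · exact hn i h
    · exact (le_or_gt _ _).elim (fun h => h.trans (h2 _)) fun h => hm j _ ⟨hw, h⟩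
    · rwa [show c i = 0 from by_contra fun e' => h (Or.inl ⟨i, e', rfl⟩)] at h1
    · exact not_lt.1 fun e' => h (Or.inr ⟨hw, e'⟩)
  · rw [Module.Basis.traceDual_repr_apply, Module.Basis.traceDual_repr_apply]
    exact congrFun h j

variable {p : ℕ} [Fact p.Prime] [CharP k p]

omit [FiniteDimensional (RatFunc F₀) k] [Algebra.IsSeparable (RatFunc F₀) k] in
theorem nc3a_pol {D : Derivation ℤ k k} (h : D (pol k F₀ Polynomial.X) = 1) (q : F₀[X]) :
    D (pol k F₀ q) = pol k F₀ q.derivative := by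
  have := Fintype.ofFinite F₀
  have h1 : ∀ c, D (pol k F₀ (Polynomial.C c)) = 0 := fun c => by
    rw [← FiniteField.pow_card c, map_pow, map_pow, Derivation.leibniz_pow, nsmul_eq_mul,
      ← map_natCast ((pol k F₀).comp Polynomial.C), FiniteField.cast_card_eq_zero, map_zero,
      zero_mul]
  induction q using Polynomial.induction_on' with
  | add a b ha hb => simp only [map_add, ha, hb]
  | monomial n c =>
    rw [← Polynomial.C_mul_X_pow_eq_monomial, Polynomial.derivative_C_mul_X_pow, map_mul,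
      Derivation.leibniz, h1, map_pow, Derivation.leibniz_pow, h]
    simp only [map_mul, map_pow, map_natCast, smul_eq_mul, nsmul_eq_mul]
    ring

/-- `exists_gen`, `finite_pole` for the derivatives of the generators, `exists_frac` -/
theorem finite_der (h : P1 p (pol k F₀ Polynomial.X)) : {w : Vl k | Nrm w ∧ ∃ a, w a ≤ 1 ∧
    1 < w (dT (pol k F₀ Polynomial.X) a)}.Finite := by
  obtain ⟨n, b, h1, h2, -⟩ := exists_gen (k := k) F₀
  refine ((finite_pole F₀ (pol k F₀ Polynomial.X)).union (Set.finite_iUnion fun i =>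
    finite_pole F₀ (dT (pol k F₀ Polynomial.X) (b i)))).subset ?_
  rintro w ⟨hw, a, ha, hl⟩
  by_contra hn
  simp only [Set.mem_union, Set.mem_iUnion, Set.mem_ofPred_eq, hw, true_and, not_or, not_exists,
    not_lt] at hn
  have h3 : ∀ q, w (pol k F₀ q) ≤ 1 := fun q => IntP.le_one F₀ hn.1 (RingHom.isIntegralElem_map _)
  have h4 : ∀ x, IntP F₀ x → w (dT (pol k F₀ Polynomial.X) x) ≤ 1 := fun x hx => by
    obtain ⟨q, rfl⟩ := h2 x hx
    rw [map_sum]
    refine w.map_sum_le fun i _ => ?_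
    rw [Derivation.leibniz, nc3a_pol F₀ h.self, smul_eq_mul, smul_eq_mul]
    refine w.map_add_le ?_ ?_ <;> rw [map_mul]
    exacts [mul_le_one' (h3 _) (hn.2 i), mul_le_one' (IntP.le_one F₀ hn.1 (h1 i)) (h3 _)]
  obtain ⟨x, y, hx, hy, e1, rfl⟩ := exists_frac F₀ hw hn.1 ha
  have h5 := w.map_sub_le (h4 _ hx) (y := a * dT (pol k F₀ Polynomial.X) y)
    (by rw [map_mul]; exact mul_le_one' ha (h4 y hy))
  rw [Derivation.leibniz, smul_eq_mul, smul_eq_mul, add_sub_cancel_left, map_mul, e1,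
    one_mul] at h5
  exact hl.not_ge h5

/-- divide the centre `P(t)` by a `p`-th power -/
theorem finite_dπ (h : P1 p (pol k F₀ Polynomial.X)) : {w : Vl k | Nrm w ∧ ∀ π, w π = WithZero.exp (-1) →
    ¬w (dT (pol k F₀ Polynomial.X) π - 1) < 1}.Finite := by
  refine ((finite_pole F₀ (pol k F₀ Polynomial.X)).union (finite_der F₀ h)).subset ?_
  rintro w ⟨hw, H⟩
  by_contra hn
  simp only [Set.mem_union, Set.mem_ofPred_eq, hw, true_and, not_or, not_exists, not_and,
    not_lt] at hn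
  obtain ⟨v, hv, ho⟩ := exists_under F₀ hw
  obtain ⟨P, hP, hc, -⟩ := rat_fin hv ((ho _).1 hn.1)
  have h1 : w (dT (pol k F₀ Polynomial.X) (pol k F₀ P)) = 1 := by
    rw [nc3a_pol F₀ h.self]
    exact (ho.eq_one _).2 ((hc.eq_one _).2 fun hd => hP.not_isUnit
      ((PerfectField.separable_of_irreducible hP.irreducible).isUnit_of_dvd' dvd_rfl hd))
  have h2 : w (pol k F₀ P) < 1 := (ho.lt_one _).2 ((hc.2 P).2 dvd_rfl)
  obtain ⟨ϖ, hϖ⟩ := hw
  have h0 : ϖ ≠ 0 := w.ne_zero_iff.1 (hϖ ▸ WithZero.exp_ne_zero)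
  have h3 : w ϖ < 1 := hϖ ▸ (WithZero.exp_lt_exp.2 (by omega)).trans_eq WithZero.exp_zero
  obtain ⟨c, e⟩ : ∃ c, pol k F₀ P = ϖ * c := ⟨_, (mul_div_cancel₀ _ h0).symm⟩
  have h4 : w c ≤ 1 := by
    rwa [lt_one_iff_le_exp, e, map_mul, hϖ, mul_le_iff_le_one_right WithZero.exp_pos] at h2
  have h5 : w c = 1 := h4.eq_or_lt.resolve_right fun hl => h1.not_lt (by
    rw [e, Derivation.leibniz, smul_eq_mul, smul_eq_mul]
    refine w.map_add_lt ?_ ?_ <;> rw [map_mul]
    exacts [(mul_le_of_le_one_right' (hn.2 c h4)).trans_lt h3,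
      (mul_le_of_le_one_right' (hn.2 ϖ h3.le)).trans_lt hl])
  obtain ⟨b, hb⟩ := (finR_of_nrm F₀ ⟨ϖ, hϖ⟩).perf (p := p) h1.le
  have h6 : w (b ^ p) = 1 := by
    have := w.map_sub_eq_of_lt_left (h1 ▸ hb)
    rwa [sub_sub_cancel, h1] at this
  have h7 : b ^ p ≠ 0 := w.ne_zero_iff.1 (h6 ▸ one_ne_zero)
  refine H (b⁻¹ ^ p * pol k F₀ P) ?_ ?_
  · rw [e, inv_pow, map_mul, map_inv₀, h6, map_mul, h5, hϖ, inv_one, one_mul, mul_one]
  · rw [Derivation.leibniz, nc3a_pow, smul_zero, add_zero, smul_eq_mul, inv_pow,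
      ← inv_mul_cancel₀ h7, ← mul_sub, map_mul, map_inv₀, h6, inv_one, one_mul]
    exact hb

theorem p1_pol : P1 p (pol k F₀ Polynomial.X) := by
  have := (algebraMap (RatFunc F₀) k).charP (algebraMap (RatFunc F₀) k).injective p
  exact (p1_ratFunc F₀).ext

theorem exists_pls (hn : ∀ i, Nrm (v i)) (hi : Function.Injective v)
    (hs : ∀ w, Nrm w → ∃ i, v i = w) : ∃ B : Pls p k ι, B.v = v ∧ B.t = pol k F₀ Polynomial.X ∧
      B.D = dT (pol k F₀ Polynomial.X) := by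
  have h := p1_pol (k := k) (p := p) F₀
  have fin : ∀ {S : Set (Vl k)}, S.Finite → ∀ᶠ i in cofinite, v i ∉ S := fun hS =>
    (hS.preimage hi.injOn).eventually_cofinite_notMem
  have h1 : ∀ i, ∃ ϖ, v i ϖ = WithZero.exp (-1) ∧ (v i ∉ {w : Vl k | Nrm w ∧ ∀ π,
      w π = WithZero.exp (-1) → ¬w (dT (pol k F₀ Polynomial.X) π - 1) < 1} →
      v i (dT (pol k F₀ Polynomial.X) ϖ - 1) < 1) := fun i => by
    by_cases H : ∀ π, v i π = WithZero.exp (-1) → ¬v i (dT (pol k F₀ Polynomial.X) π - 1) < 1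
    · exact (hn i).imp fun ϖ e => ⟨e, fun hk => (hk ⟨hn i, H⟩).elim⟩
    · push Not at H
      exact H.imp fun ϖ e => ⟨e.1, fun _ => e.2⟩
  choose ϖ h1 h2 using h1
  have h3 : ∀ i, ∃ c : ℕ, (v i ∉ {w : Vl k | Nrm w ∧ ∃ a, w a ≤ 1 ∧
      1 < w (dT (pol k F₀ Polynomial.X) a)} → c = 0) ∧ ∀ a, v i a ≤ 1 →
      Bd (v i) (ϖ i) c (dT (pol k F₀ Polynomial.X) a) := fun i => by
    by_cases H : ∃ a, v i a ≤ 1 ∧ 1 < v i (dT (pol k F₀ Polynomial.X) a)
    · refine ⟨(-ord (v i) (dT (pol k F₀ Polynomial.X) (ϖ i))).toNat,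
        fun hk => (hk ⟨hn i, H⟩).elim, fun a ha => Bd.of_le ?_ (h.der_le (h1 i) ha)⟩
      rw [Bd, map_mul, map_zpow₀, h1, exp_neg_ord _ (h.der_ne (h1 i)), ← WithZero.exp_zsmul,
        ← WithZero.exp_add, ← WithZero.exp_zero, WithZero.exp_le_exp, smul_eq_mul]
      omega
    · push Not at H
      exact ⟨0, fun _ => rfl, fun a ha => bd_iff.2 (H a ha)⟩
  choose c h3 h4 using h3
  exact ⟨⟨v, ϖ, _, _, h1, h.self, h.nil, fun _ => h.ker,
    fun a => (fin (finite_pole F₀ a)).mono fun i hk => not_lt.1 fun e => hk ⟨hn i, e⟩,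
    pls_ad F₀ h1 hi, fun _ => pls_ld F₀ h1 hs, fun i _ => (finR_of_nrm F₀ (hn i)).perf,
    ⟨c, (fin (finite_der F₀ h)).mono h3, h4⟩, (fin (finite_dπ F₀ h)).mono h2⟩, rfl, rfl, rfl⟩

end Pool.Agent.ZFN
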