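import Pool.Agent.Lib.MP_751085_ag.ZF.N.C3
import Pool.Agent.Lib.MP_751085_ag.ZC.V.Cf

/-! Complete local fields: the `p`-basis, the kernel of `g ↦ [g dt]`. -/

namespace Pool.Agent.ZFN

open Pool.Agent.ZCy
open scoped Classical WithZero

variable {p : ℕ} [Fact p.Prime] {K : Type} [Field K] [CharP K p] {w : Vl K} {π t : K}

omit [Fact p.Prime] [CharP K p] in
/-- successive approximation -/
theorem nc51_lim {I : Type} (hc : Cpl w) (Φ : (I → K) →+ K)
    (hΦ : ∀ (n : ℕ) (y : I → K), (∀ j, w (y j) ≤ WithZero.exp (-(n : ℤ))) →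
      w (Φ y) ≤ WithZero.exp (-(n : ℤ)))
    (P : ℕ → K → Prop) (hP : ∀ n a, P n a → w a ≤ WithZero.exp (-(n : ℤ)))
    (hs : ∀ n a, P n a → ∃ y, (∀ j, w (y j) ≤ WithZero.exp (-(n : ℤ))) ∧ P (n + 1) (a - Φ y))
    {a : K} (ha : P 0 a) : ∃ y, (∀ j, w (y j) ≤ 1) ∧ a = Φ y := by
  choose! Y hY hY' using hs
  let x : ℕ → I → K := fun n => Nat.rec 0 (fun n z => z + Y n (a - Φ z)) n
  have hx : ∀ n, x (n + 1) = x n + Y n (a - Φ (x n)) := fun _ => rfl
  have h1 : ∀ n, P n (a - Φ (x n)) := by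
    intro n
    induction n with
    | zero =>
      change P 0 (a - Φ 0)
      rwa [map_zero, sub_zero]
    | succ n ih =>
      rw [hx, map_add, ← sub_sub]
      exact hY' n _ ih
  choose z hz using fun j => hc (fun n => x n j) fun n => by
    rw [hx, Pi.add_apply, add_sub_cancel_left]
    exact hY n _ (h1 n) j
  refine ⟨z, fun j => ?_, sub_eq_zero.1 (eq_zero_of_le_exp w fun n => ?_)⟩
  · have h2 : w (z j - 0) ≤ WithZero.exp (-((0 : ℕ) : ℤ)) := hz j 0
    simpa using h2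
  · have h2 : a - Φ z = a - Φ (x n) - Φ (z - x n) := by
      rw [map_sub]
      ring
    rw [h2]
    exact w.map_sub_le (hP n _ (h1 n)) (hΦ n _ fun j => hz j n)

omit [CharP K p] in
theorem nc51_pow {n : ℕ} {y : K} (h : w y ≤ WithZero.exp (-(n : ℤ))) :
    w (y ^ p) ≤ WithZero.exp (-(n : ℤ)) := by
  rw [map_pow]
  refine (pow_le_of_le_one zero_le (h.trans ?_) (Fact.out : p.Prime).ne_zero).trans h
  rw [← WithZero.exp_zero, WithZero.exp_le_exp]
  omega

theorem nc51_step (hπ : w π = WithZero.exp (-1)) (hf : FinR w) {a : K} (ha : w a ≤ 1) (i : ℕ) :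
    ∃ y : ℕ → K, (∀ j, w (y j) ≤ 1) ∧
      w (a - ∑ j ∈ Finset.range i, π ^ j * y j ^ p) ≤ w (π ^ i) := by
  have h0 : π ≠ 0 := (vp_of_unif hπ).ne
  induction i with
  | zero => exact ⟨fun _ => 0, by simp, by simpa using ha⟩
  | succ i ih =>
    obtain ⟨y, hy, h⟩ := ih
    have hc : w ((a - ∑ j ∈ Finset.range i, π ^ j * y j ^ p) / π ^ i) ≤ 1 := by
      rw [map_div₀]
      exact div_le_one_of_le₀ h zero_le
    obtain ⟨b, hb⟩ := hf.perf (p := p) hc
    have hb1 : w b ≤ 1 := by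
      have h1 := w.map_sub_le hc hb.le
      rw [sub_sub_cancel, map_pow] at h1
      exact (pow_le_one_iff (Fact.out : p.Prime).ne_zero).1 h1
    refine ⟨Function.update y i b, fun j => ?_, ?_⟩
    · by_cases e : j = i
      · rwa [e, Function.update_self]
      · rw [Function.update_of_ne e]
        exact hy j
    · rw [Finset.sum_range_succ, Function.update_self, Finset.sum_congr rfl fun j hj => by
        rw [Function.update_of_ne (Finset.mem_range.1 hj).ne]]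
      have h1 : ∀ s c : K, a - (s + π ^ i * c) = π ^ i * ((a - s) / π ^ i - c) := fun s c => by
        field_simp
        ring
      rw [h1, map_mul, pow_succ, map_mul]
      exact mul_le_mul_right (((lt_one_iff_le_exp _).1 hb).trans hπ.ge) _

/-- Successive approximation: an element of order `n = p m + j` is `π ^ j (π ^ m b) ^ p` modulo
higher order (`FinR.perf`). The `p` sequences converge. -/
theorem p1_of_cpl (hπ : w π = WithZero.exp (-1)) (hc : Cpl w) (hf : FinR w) : P1 p π := by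
  have hv := vp_of_unif hπ
  have hp : p ≠ 0 := (Fact.out : p.Prime).ne_zero
  let Φ : (Fin p → K) →+ K := AddMonoidHom.mk' (fun y => ∑ j : Fin p, π ^ (j : ℕ) * y j ^ p)
    fun y z => by simp only [Pi.add_apply, add_pow_char, mul_add, Finset.sum_add_distrib]
  have hΦ : ∀ y, Φ y = ∑ j : Fin p, π ^ (j : ℕ) * y j ^ p := fun _ => rfl
  have hm : ∀ (c : K) y, Φ (fun j => c * y j) = c ^ p * Φ y := fun c y => by
    simp only [hΦ, mul_pow, Finset.mul_sum, mul_left_comm (c ^ p)]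
  have hw : ∀ n : ℕ, w (π ^ n) = WithZero.exp (-(n : ℤ)) := fun n => by
    rw [← zpow_natCast]
    exact vcv_pow hπ n
  have key : ∀ a, w a ≤ 1 → ∃ y, a = Φ y := fun a ha => by
    refine (nc51_lim hc Φ (fun n y hy => ?_) (fun n a => w a ≤ w ((π ^ n) ^ p))
      (fun n a h => h.trans (nc51_pow (hw n).le)) (fun n a h => ?_) (by simpa using ha)).imp
        fun _ h => h.2
    · rw [hΦ]
      refine w.map_sum_le fun j _ => ?_
      rw [map_mul, map_pow]
      exact (mul_le_of_le_one_left' (pow_le_one' hv.lt.le _)).trans (nc51_pow (hy j))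
    · have h0 : (π ^ n) ^ p ≠ 0 := pow_ne_zero _ (pow_ne_zero _ hv.ne)
      obtain ⟨y, hy, h1⟩ := nc51_step (p := p) hπ hf (a := a / (π ^ n) ^ p)
        (by rw [map_div₀]; exact div_le_one_of_le₀ h zero_le) p
      rw [Finset.sum_range] at h1
      refine ⟨fun j => π ^ n * y j, fun j => ?_, ?_⟩
      · rw [map_mul, hw]
        exact mul_le_of_le_one_right' (hy j)
      · have h2 : ∀ s : K, a - (π ^ n) ^ p * s = (π ^ n) ^ p * (a / (π ^ n) ^ p - s) := fun s => by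
          rw [mul_sub, mul_div_cancel₀ _ h0]
        rw [hm (π ^ n) fun j => y j, h2, map_mul, pow_succ, mul_pow, map_mul]
        exact mul_le_mul_right h1 _
  refine p1_of_span (fun a => ?_) (unif_not_pow hπ)
  obtain ⟨n, hn⟩ := hv.exists_bd a
  have h0 : π ^ n ≠ 0 := pow_ne_zero _ hv.ne
  obtain ⟨y, hy⟩ := key ((π ^ n) ^ p * a) (by
    have h1 : Bd w π ((n * p : ℕ) : ℤ) a :=
      hv.mono hn (by exact_mod_cast Nat.le_mul_of_pos_right n (Nat.pos_of_ne_zero hp))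
    rw [← pow_mul, ← zpow_natCast]
    exact h1)
  refine ⟨fun j => (π ^ n)⁻¹ * y j, Eq.trans ?_ (hΦ _)⟩
  rw [hm, ← hy, ← mul_assoc, ← mul_pow, inv_mul_cancel₀ h0, one_pow, one_mul]

/-- if the image of `t` were a `p`-th power, so would be the image of every element of `k` -/
theorem P1.cpl {k : Type} [Field k] [CharP k p] {t π₀ : k} (h : P1 p t) (φ : k →+* K)
    (hπ : w (φ π₀) = WithZero.exp (-1)) (hc : Cpl w) (hf : FinR w) : P1 p (φ t) := by
  refine (p1_of_cpl hπ hc hf).change fun z hz => ?_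
  obtain ⟨y, hy⟩ := h.span π₀
  refine unif_not_pow (p := p) hπ (∑ j : Fin p, z ^ (j : ℕ) * φ (y j)) ?_
  rw [hy, map_sum, sum_pow_char]
  refine Finset.sum_congr rfl fun j _ => ?_
  rw [map_mul, map_pow, map_pow, hz, mul_pow, ← pow_mul, ← pow_mul, mul_comm p]

/-- `Z = - ∑ x ^ p ^ i`, or Hensel's lemma -/
theorem exists_as (hc : Cpl w) {x : K} (hx : w x < 1) : ∃ Z, w Z ≤ 1 ∧ x = Z ^ p - Z := by
  let Φ : (Unit → K) →+ K := AddMonoidHom.mk' (fun y => y () ^ p - y ()) fun y z => by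
    rw [Pi.add_apply, add_pow_char]
    ring
  obtain ⟨y, hy, e⟩ := nc51_lim hc Φ (fun n y hy => w.map_sub_le (nc51_pow (hy ())) (hy ()))
    (fun n a => w a ≤ WithZero.exp (-((n + 1 : ℕ) : ℤ)))
    (fun n a h => h.trans (WithZero.exp_le_exp.2 (by omega))) (fun n a h => by
      refine ⟨fun _ => -a, fun _ => ?_, ?_⟩
      · rw [w.map_neg]
        exact h.trans (WithZero.exp_le_exp.2 (by omega))
      · have h1 : a - Φ (fun _ => -a) = -(-a) ^ p := by
          change a - ((-a) ^ p - -a) = _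
          ring
        have h2 : 2 ≤ p := (Fact.out : p.Prime).two_le
        rw [h1, w.map_neg, map_pow, w.map_neg]
        refine (pow_le_pow_left' h p).trans ?_
        rw [← WithZero.exp_nsmul, WithZero.exp_le_exp, nsmul_eq_mul]
        push_cast
        nlinarith [Int.ofNat_le.2 h2, Int.natCast_nonneg n])
    (a := x) ((lt_one_iff_le_exp _).1 hx)
  exact ⟨y (), hy (), e⟩

theorem P1.wp_int (h : P1 p t) (hc : Cpl w) (h0 : π ≠ 0) (h1 : dT t π ≠ 0) {g : K}
    (hg : w (π * g) < w (dT t π)) : WP p t g := by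
  have h2 : w (dT t π) ≠ 0 := (Valuation.ne_zero_iff w).2 h1
  obtain ⟨Z, -, e⟩ := exists_as (p := p) hc (x := π * g / dT t π)
    (by rwa [map_div₀, div_lt_one₀ (zero_lt_iff.2 h2)])
  exact (h.wp_iff h0 h1 g).2 ⟨0, Z, by rw [← e, map_zero, mul_zero, zero_add, mul_div_cancel₀ _ h1]⟩

theorem P1.wp_as (h : P1 p t) (h0 : π ≠ 0) (h1 : dT t π ≠ 0) (y : K) :
    WP p t ((y ^ p - y) * dT t π / π) := (h.wp_iff h0 h1 _).2 ⟨0, y, by rw [map_zero, mul_div_cancel₀ _ h0]; ring⟩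

theorem WP.add {g g' : K} (h : WP p t g) (h' : WP p t g') : WP p t (g + g') := by
  obtain ⟨a, y, rfl⟩ := h
  obtain ⟨a', y', rfl⟩ := h'
  exact ⟨a + a', y + y', by rw [map_add, add_pow_char]; ring⟩

theorem wp_der (z : K) : WP p t (dT t z) := ⟨z, 0, by rw [zero_pow (Fact.out : p.Prime).ne_zero]; ring⟩

theorem nc5b_der (h : P1 p π) (z : K) :
    ∃ u : Fin p → K, π * dT π z = ∑ j : Fin p, π ^ (j : ℕ) * (((j : ℕ) : K) * u j) ^ p := by
  obtain ⟨u, rfl⟩ := h.span z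
  refine ⟨u, ?_⟩
  rw [map_sum, Finset.mul_sum]
  refine Finset.sum_congr rfl fun j _ => ?_
  have h1 : ((j : ℕ) : K) ^ p = (j : ℕ) := map_natCast (frobenius K p) j
  rw [Derivation.leibniz, Derivation.leibniz_pow, Derivation.leibniz_pow, h.self, mul_pow, h1]
  simp only [nsmul_eq_mul, smul_eq_mul, CharP.cast_eq_zero, zero_mul, mul_zero, zero_add, mul_one]
  rcases Nat.eq_zero_or_pos j with e | e
  · simp [e]
  · rw [← mul_pow_sub_one e.ne' π]
    ring

theorem nc5b_int (h : P1 p π) (hπ : w π = WithZero.exp (-1)) {y z Z : K} (hy : w y ≤ 1)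
    (e : y = π * dT π z + (Z ^ p - Z)) : w Z ≤ 1 ∧ w (y - (Z ^ p - Z)) < 1 := by
  have hp : p.Prime := Fact.out
  obtain ⟨u, hu⟩ := nc5b_der h z
  have h1 : ∑ j : Fin p, π ^ (j : ℕ) *
      (((j : ℕ) : K) * u j + if j = ⟨0, hp.pos⟩ then Z else 0) ^ p = y + Z := by
    simp only [add_pow_char, mul_add, Finset.sum_add_distrib, ← hu, ite_pow, zero_pow hp.ne_zero,
      mul_ite, mul_zero, Finset.sum_ite_eq', Finset.mem_univ, if_true, pow_zero, one_mul]
    rw [e]
    ring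
  have h2 := fun j => (le_of_span hπ _ j).trans_eq (congrArg w h1)
  have h3 : w Z ≤ 1 := not_lt.1 fun h3 => by
    have h4 := h2 ⟨0, hp.pos⟩
    simp only [pow_zero, Nat.cast_zero, zero_mul, if_true, zero_add, one_mul, map_pow] at h4
    have h5 : w Z ^ 1 < w Z ^ p := pow_lt_pow_right₀ h3 hp.one_lt
    rw [pow_one] at h5
    exact (h4.trans (w.map_add_le (hy.trans h3.le) le_rfl)).not_gt h5
  refine ⟨h3, ?_⟩
  rw [e, add_sub_cancel_right, hu]
  refine w.map_sum_lt one_ne_zero fun j _ => ?_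
  by_cases hj : j = ⟨0, hp.pos⟩
  · simp [hj, hp.ne_zero]
  have h4 := (h2 j).trans (w.map_add_le hy h3)
  rw [if_neg hj, add_zero] at h4
  refine lt_of_le_of_ne h4 fun h5 => ?_
  rw [map_mul, map_pow, map_pow, hπ] at h5
  have h6 : w (((j : ℕ) : K) * u j) ≠ 0 := fun h6 => by simp [h6, hp.ne_zero] at h5
  rw [← WithZero.exp_log h6, ← WithZero.exp_nsmul, ← WithZero.exp_nsmul, ← WithZero.exp_add,
    ← WithZero.exp_zero, WithZero.exp_inj] at h5
  have h7 : (p : ℤ) ∣ (j : ℕ) := ⟨WithZero.log (w (((j : ℕ) : K) * u j)), by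
    simp only [nsmul_eq_mul] at h5
    omega⟩
  exact hj (Fin.ext (Nat.eq_zero_of_dvd_of_lt (Int.natCast_dvd_natCast.1 h7) j.2))

omit [CharP K p] in
theorem nc5b_res (hf : FinR w)
    (h : ∀ y, w y ≤ 1 → ∃ Z, w Z ≤ 1 ∧ w (y - (Z ^ p - Z)) < 1) : False := by
  obtain ⟨s, hs, h1⟩ := hf
  have h2 : ∀ a b : w.valuationSubring, w ((a : K) - b) < 1 →
      IsLocalRing.residue _ a = IsLocalRing.residue _ b := fun a b e =>
    Ideal.Quotient.eq.2 ((Valuation.mem_maximalIdeal_iff K w).2 e)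
  have : Finite (IsLocalRing.ResidueField w.valuationSubring) :=
    Finite.of_surjective (fun b : s => IsLocalRing.residue w.valuationSubring ⟨b, hs b b.2⟩)
      fun x => by
        obtain ⟨a, rfl⟩ := IsLocalRing.residue_surjective x
        obtain ⟨b, hb, e⟩ := h1 a a.2
        exact ⟨⟨b, hb⟩, (h2 a ⟨b, hs b hb⟩ e).symm⟩
  have h3 : Function.Surjective fun x : IsLocalRing.ResidueField w.valuationSubring => x ^ p - x :=
    fun x => by
      obtain ⟨a, rfl⟩ := IsLocalRing.residue_surjective x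
      obtain ⟨Z, hZ, e⟩ := h a a.2
      refine ⟨IsLocalRing.residue _ ⟨Z, hZ⟩, ?_⟩
      rw [h2 a (⟨Z, hZ⟩ ^ p - ⟨Z, hZ⟩) e, map_sub, map_pow]
  exact zero_ne_one (Finite.injective_iff_surjective.2 h3
    (by simp [(Fact.out : p.Prime).ne_zero]))

theorem P1.exists_not_wp (h : P1 p t) (hπ : w π = WithZero.exp (-1)) (hf : FinR w) :
    ∃ y, w y ≤ 1 ∧ ¬WP p t (y * dT t π / π) := by
  by_contra H
  have h1 := h.der_ne hπ
  have h0 : π ≠ 0 := fun e => by
    rw [e, map_zero] at hπ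
    exact WithZero.exp_ne_zero hπ.symm
  have hπ1 := h.change (unif_not_pow hπ)
  refine nc5b_res (p := p) hf fun y hy => ?_
  obtain ⟨z, Z, e⟩ := (h.wp_iff h0 h1 _).1 (not_not.1 fun h2 => H ⟨y, hy, h2⟩)
  rw [mul_div_cancel₀ _ h0, hπ1.der_eq (dT t) z] at e
  exact ⟨Z, nc5b_int hπ1 hπ hy (z := z) (mul_left_cancel₀ h1 (by linear_combination e))⟩

/-- the residue map extends to the completion -/
theorem exists_red_dns {k κ : Type} [Field k] [Field κ] {φ : k →+* K} {v : Vl k}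
    (e : ∀ a, w (φ a) = v a) (hd : ∀ x, Dns φ w x) {ρ : v.integer →+* κ} {s : ℕ} (h : RedS v ρ s) :
    ∃ ρ' : w.integer →+* κ, RedS w ρ' s ∧
      ∀ (a : v.integer) (y : w.integer), (y : K) = φ a → ρ' y = ρ a := by
  have ho : Over φ v w := fun a => by rw [e]
  obtain ⟨κ₀, _, ρ₀, h0, hs⟩ := exists_resf w
  have h1 : ∀ y : w.integer, ∃ a, ρ₀ (ho.int a) = ρ₀ y := fun y => by
    obtain ⟨a, ha⟩ := (hd y).exists_lt one_ne_zero
    have h2 : w (φ a) ≤ 1 := by
      have h3 := w.map_sub_le y.2 ha.le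
      rwa [sub_sub_cancel] at h3
    exact ⟨⟨a, (ho a).1 h2⟩, ((h0.eq_iff _ _).2 ha).symm⟩
  obtain ⟨i, hi⟩ := (h0.comp_int ho).factor (fun x => by
    obtain ⟨y, rfl⟩ := hs x
    exact h1 y) h.red
  have hi' : ∀ a, i (ρ₀ (ho.int a)) = ρ a := hi
  refine ⟨i.comp ρ₀, ⟨h0.comp i, fun x => Iff.trans ⟨?_, ?_⟩ (h.rng x)⟩, fun a y hy => ?_⟩
  · rintro ⟨y, rfl⟩
    obtain ⟨a, ha⟩ := h1 y
    exact ⟨a, (hi' a).symm.trans (congrArg i ha)⟩
  · rintro ⟨a, rfl⟩
    exact ⟨ho.int a, hi' a⟩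
  · obtain rfl : y = ho.int a := Subtype.ext hy
    exact hi' a

end Pool.Agent.ZFN
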