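import Pool.Agent.Lib.MP_751085_ag.ZF.N.C5
import Pool.Agent.Lib.MP_751085_ag.ZC.T.Lex

/-! Finite separable extensions of complete local fields. -/

namespace Pool.Agent.ZFN

open Pool.Agent.ZCy
open scoped Classical WithZero Polynomial
open Filter

section unr

variable {K L : Type} [Field K] [Field L] [Algebra K L] [FiniteDimensional K L]
  [Algebra.IsSeparable K L] {v : Vl K} {w : Vl L}

/-- `L` is generated by a root of a monic integral polynomial whose derivative is a unit -/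
structure UnrG (v : Vl K) (w : Vl L) (θ : L) (f : K[X]) : Prop where
  monic : f.Monic
  int : ∀ i, v (f.coeff i) ≤ 1
  root : Polynomial.aeval θ f = 0
  unit : w (Polynomial.aeval θ f.derivative) = 1
  gen : IntermediateField.adjoin K {θ} = ⊤

variable {θ : L} {f : K[X]}

omit [FiniteDimensional K L] [Algebra.IsSeparable K L] in
theorem nc6a_alg (ho : Over (algebraMap K L) v w) (a : v.integer) :
    w (algebraMap v.integer L a) ≤ 1 := (ho a).2 a.2

omit [FiniteDimensional K L] [Algebra.IsSeparable K L] in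
theorem nc6a_le (ho : Over (algebraMap K L) v w) {x : L} (hx : IsIntegral v.integer x) : w x ≤ 1 :=
  le_one_of_int (f := algebraMap v.integer L) (nc6a_alg ho) hx

omit [FiniteDimensional K L] [Algebra.IsSeparable K L] in
theorem nc6a_lift (h : UnrG v w θ f) :
    ∃ g : v.integer[X], g.Monic ∧ g.map (algebraMap v.integer K) = f ∧ Polynomial.aeval θ g = 0 ∧
      w (Polynomial.aeval θ g.derivative) = 1 := by
  obtain ⟨g, e, -, hm⟩ := Polynomial.lifts_and_natDegree_eq_and_monic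
    ((Polynomial.lifts_iff_coeff_lifts (f := algebraMap v.integer K) f).2
      fun n => ⟨⟨f.coeff n, h.int n⟩, rfl⟩) h.monic
  refine ⟨g, hm, e, ?_, ?_⟩
  · rw [← Polynomial.aeval_map_algebraMap K, e, h.root]
  · rw [← Polynomial.aeval_map_algebraMap K, ← Polynomial.derivative_map, e, h.unit]

omit [FiniteDimensional K L] [Algebra.IsSeparable K L] in
theorem nc6a_int (h : UnrG v w θ f) : IsIntegral v.integer θ := by
  obtain ⟨g, hm, -, h0, -⟩ := nc6a_lift h
  exact ⟨g, hm, h0⟩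

omit [FiniteDimensional K L] [Algebra.IsSeparable K L] in
theorem nc6a_ev (h : UnrG v w θ f) (ho : Over (algebraMap K L) v w) (q : v.integer[X]) :
    w (Polynomial.aeval θ q) ≤ 1 :=
  nc6a_le ho (adjoin_le_integralClosure (nc6a_int h)
    (Polynomial.aeval_mem_adjoin_singleton v.integer θ))

omit [FiniteDimensional K L] [Algebra.IsSeparable K L] in
theorem nc6a_del (h : UnrG v w θ f) (ho : Over (algebraMap K L) v w) :
    w (Polynomial.aeval θ (minpoly K θ).derivative) = 1 := by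
  obtain ⟨g, -, -, h0, h1⟩ := nc6a_lift h
  obtain ⟨t, rfl⟩ := minpoly.isIntegrallyClosed_dvd (nc6a_int h) h0
  rw [minpoly.isIntegrallyClosed_eq_field_fractions' K (nc6a_int h), Polynomial.derivative_map,
    Polynomial.aeval_map_algebraMap]
  rw [Polynomial.derivative_mul, map_add, map_mul, map_mul, minpoly.aeval, zero_mul, add_zero,
    map_mul] at h1
  refine le_antisymm (nc6a_ev h ho _) ?_
  rw [← h1]
  exact mul_le_of_le_one_right' (nc6a_ev h ho t)

omit [Algebra.IsSeparable K L] in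
theorem nc6a_gen (h : UnrG v w θ f) : Algebra.adjoin K {θ} = ⊤ :=
  IntermediateField.adjoin_eq_top_iff.1 h.gen

theorem nc6a_span (h : UnrG v w θ f) (hv : Nrm v) (hc : Cpl v) (ho : Over (algebraMap K L) v w)
    {x : L} (hx : w x ≤ 1) : ∃ q : v.integer[X], x = Polynomial.aeval θ q := by
  have hd := nc6a_del h ho
  set δ := Polynomial.aeval θ (minpoly K θ).derivative with hδ
  have h0 : δ ≠ 0 := fun e => by simp [e] at hd
  have hm : δ⁻¹ * x ∈ (Algebra.traceForm K L).dualSubmodule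
      (Subalgebra.toSubmodule (Algebra.adjoin v.integer {θ})) := by
    rw [LinearMap.BilinForm.mem_dualSubmodule]
    intro y hy
    have hy' : y ∈ Algebra.adjoin v.integer {θ} := hy
    rw [Algebra.adjoin_singleton_eq_range_aeval] at hy'
    obtain ⟨q, rfl⟩ := hy'
    have hi : IsIntegral v.integer (δ⁻¹ * x * Polynomial.aeval θ q) := by
      refine (hc.le_one_iff_int hv.isVR ho _).1 ?_
      rw [map_mul, map_mul, map_inv₀, hd, inv_one, one_mul]
      exact mul_le_one' hx (nc6a_ev h ho q)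
    obtain ⟨a, ha⟩ := IsIntegrallyClosed.isIntegral_iff.1 (Algebra.isIntegral_trace (L := K) hi)
    exact Submodule.mem_one.2 ⟨a, ha⟩
  rw [traceForm_dualSubmodule_adjoin v.integer K (nc6a_gen h) (nc6a_int h)] at hm
  obtain ⟨y, hy, e⟩ := (Submodule.mem_smul_pointwise_iff_exists _ _ _).1 hm
  have hy' : y ∈ Algebra.adjoin v.integer {θ} := hy
  rw [Algebra.adjoin_singleton_eq_range_aeval] at hy'
  obtain ⟨q, rfl⟩ := hy'
  exact ⟨q, (mul_left_cancel₀ (inv_ne_zero h0) e).symm⟩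

/-- The minimal polynomial `g` is integral and divides `f`, so `g'(θ)` is a unit. The coordinates of
`g'(θ) x` are traces of integral elements (`traceForm_dualBasis_powerBasis_eq`,
`Cpl.le_one_iff_int`); the inverse of `g'(θ)` is a polynomial in `θ`. -/
theorem UnrG.span (h : UnrG v w θ f) (hv : Nrm v) (hc : Cpl v) (ho : Over (algebraMap K L) v w)
    {x : L} (hx : w x ≤ 1) :
    ∃ q : K[X], (∀ i, v (q.coeff i) ≤ 1) ∧ x = Polynomial.aeval θ q := by
  obtain ⟨q, rfl⟩ := nc6a_span h hv hc ho hx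
  refine ⟨q.map (algebraMap v.integer K), fun i => ?_, (Polynomial.aeval_map_algebraMap K θ q).symm⟩
  rw [Polynomial.coeff_map]
  exact (q.coeff i).2

omit [FiniteDimensional K L] [Algebra.IsSeparable K L] in
theorem nc6a_small (h : UnrG v w θ f) (ho : Over (algebraMap K L) v w) {π : K}
    (hπ : v π = WithZero.exp (-1)) {q : v.integer[X]}
    (hq : q.map (IsLocalRing.residue v.integer) = 0) :
    w (Polynomial.aeval θ q) ≤ w (algebraMap K L π) := by
  rw [Polynomial.aeval_eq_sum_range]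
  refine w.map_sum_le fun i _ => ?_
  have h1 : IsLocalRing.residue v.integer (q.coeff i) = 0 := by
    rw [← Polynomial.coeff_map, hq, Polynomial.coeff_zero]
  have h2 : v (q.coeff i : K) ≤ v π := by
    rw [hπ]
    exact (vcv_nu (Nrm.isVR ⟨π, hπ⟩)).1 ((IsLocalRing.residue_eq_zero_iff _).1 h1)
  rw [Algebra.smul_def, map_mul, map_pow]
  exact (mul_le_of_le_one_right' (pow_le_one' (nc6a_le ho (nc6a_int h)) i)).trans
    ((ho.le_iff _ _).2 h2)

/-- `O_L / π` is a quotient of `F[X] / f` with `f'` invertible, so it is reduced -/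
theorem UnrG.unif (h : UnrG v w θ f) (hc : Cpl v) (hw : Nrm w) (ho : Over (algebraMap K L) v w)
    {π : K} (hπ : v π = WithZero.exp (-1)) : w (algebraMap K L π) = WithZero.exp (-1) := by
  have hlt : WithZero.exp (-1 : ℤ) < 1 := (lt_one_iff_le_exp _).2 le_rfl
  have h1 : w (algebraMap K L π) < 1 := (ho.lt_one π).2 (hπ.trans_lt hlt)
  let J : Ideal v.integer[X] :=
    { carrier := {q | w (Polynomial.aeval θ q) < 1}
      add_mem' := fun {a b} ha hb => by
        show w (Polynomial.aeval θ (a + b)) < 1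
        rw [map_add]
        exact w.map_add_lt ha hb
      zero_mem' := by simp
      smul_mem' := fun c a ha => by
        show w (Polynomial.aeval θ (c * a)) < 1
        rw [map_mul, map_mul]
        exact (mul_le_of_le_one_left' (nc6a_ev h ho c)).trans_lt ha }
  let φ := Polynomial.mapRingHom (IsLocalRing.residue v.integer)
  have hφ : Function.Surjective φ := Polynomial.map_surjective _ IsLocalRing.residue_surjective
  obtain ⟨P, hP, eP⟩ := (Ideal.mem_map_iff_of_surjective φ hφ).1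
    (Submodule.IsPrincipal.generator_mem (J.map φ))
  have key : ∀ q ∈ J, ∃ t r : v.integer[X], q = P * t + r ∧
      r.map (IsLocalRing.residue v.integer) = 0 := by
    intro q hq
    obtain ⟨t, ht⟩ := (Submodule.IsPrincipal.mem_iff_generator_dvd (J.map φ)).1
      (Ideal.mem_map_of_mem φ hq)
    obtain ⟨t, rfl⟩ := hφ t
    refine ⟨t, q - P * t, by ring, ?_⟩
    show φ (q - P * t) = 0
    rw [map_sub, map_mul, ht, eP, sub_self]
  obtain ⟨g, -, -, h0, hu⟩ := nc6a_lift h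
  obtain ⟨H, R, rfl, hR⟩ := key g (by
    show w (Polynomial.aeval θ g) < 1
    rw [h0, map_zero]
    exact zero_lt_one)
  have hP' : w (Polynomial.aeval θ P) < 1 := hP
  have hH : w (Polynomial.aeval θ H) = 1 := by
    refine (nc6a_ev h ho H).eq_or_lt.resolve_right fun hH => hu.not_lt ?_
    rw [Polynomial.derivative_add, Polynomial.derivative_mul, map_add (Polynomial.aeval θ),
      map_add (Polynomial.aeval θ), map_mul (Polynomial.aeval θ), map_mul (Polynomial.aeval θ)]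
    refine w.map_add_lt (w.map_add_lt ?_ ?_) ((nc6a_small h ho hπ ?_).trans_lt h1)
    · rw [map_mul]
      exact (mul_le_of_le_one_left' (nc6a_ev h ho _)).trans_lt hH
    · rw [map_mul]
      exact (mul_le_of_le_one_right' (nc6a_ev h ho _)).trans_lt hP'
    · rw [← Polynomial.derivative_map, hR, Polynomial.derivative_zero]
  have hPπ : w (Polynomial.aeval θ P) ≤ w (algebraMap K L π) := by
    rw [map_add, map_mul, add_eq_zero_iff_eq_neg] at h0
    have := congrArg w h0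
    rw [map_mul, hH, mul_one, Valuation.map_neg] at this
    exact this.trans_le (nc6a_small h ho hπ hR)
  obtain ⟨ϖ, hϖ⟩ := hw
  obtain ⟨q, rfl⟩ := nc6a_span h ⟨π, hπ⟩ hc ho (hϖ.trans_lt hlt).le
  obtain ⟨t, r, rfl, hr⟩ := key q (hϖ.trans_lt hlt)
  refine le_antisymm ((lt_one_iff_le_exp _).1 h1) ?_
  rw [← hϖ, map_add (Polynomial.aeval θ), map_mul (Polynomial.aeval θ)]
  refine w.map_add_le ?_ (nc6a_small h ho hπ hr)
  rw [map_mul]
  exact (mul_le_of_le_one_right' (nc6a_ev h ho _)).trans hPπ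

/-- Euler: the trace of `θ ^ (n - 1) / g'(θ)` is `1` -/
theorem UnrG.trace (h : UnrG v w θ f) (hv : Nrm v) (hc : Cpl v) (ho : Over (algebraMap K L) v w) :
    ∃ y : L, w y ≤ 1 ∧ Algebra.trace K L y = 1 := by
  have _ := hv
  have _ := hc
  have hK : IsIntegral K θ := Algebra.IsIntegral.isIntegral θ
  let pb := (Algebra.adjoin.powerBasis' hK).map
    ((Subalgebra.equivOfEq _ _ (nc6a_gen h)).trans Subalgebra.topEquiv)
  have hg : pb.gen = θ := by simp [pb]
  have hn : (minpolyDiv K θ).natDegree < pb.dim := by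
    rw [← pb.natDegree_minpoly, hg]
    exact natDegree_minpolyDiv_lt hK
  have e := pb.basis.trace_mul_traceDual ⟨_, hn⟩ ⟨_, hn⟩
  rw [if_pos rfl, Module.Basis.traceDual_powerBasis_eq, pb.basis_eq_pow, hg] at e
  refine ⟨_, ?_, e⟩
  have h1 : (minpolyDiv K θ).coeff (minpolyDiv K θ).natDegree = 1 := minpolyDiv_monic hK
  rw [map_mul, map_div₀, nc6a_del h ho, div_one, map_pow]
  simp only [h1, map_one, mul_one]
  exact pow_le_one' (nc6a_le ho (nc6a_int h)) _

omit [FiniteDimensional K L] [Algebra.IsSeparable K L] in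
theorem nc6a_der (h : UnrG v w θ f) (ho : Over (algebraMap K L) v w)
    {D : Derivation ℤ K K} {D' : Derivation ℤ L L}
    (e : ∀ a, D' (algebraMap K L a) = algebraMap K L (D a)) (hD : ∀ a, v a ≤ 1 → v (D a) ≤ 1)
    (q : v.integer[X]) :
    w (D' (Polynomial.aeval θ q) - Polynomial.aeval θ q.derivative * D' θ) ≤ 1 := by
  induction q using Polynomial.induction_on' with
  | add p q hp hq =>
    have : D' (Polynomial.aeval θ (p + q)) - Polynomial.aeval θ (p + q).derivative * D' θ =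
        (D' (Polynomial.aeval θ p) - Polynomial.aeval θ p.derivative * D' θ) +
          (D' (Polynomial.aeval θ q) - Polynomial.aeval θ q.derivative * D' θ) := by
      rw [Polynomial.derivative_add, map_add, map_add, map_add]
      ring
    rw [this]
    exact w.map_add_le hp hq
  | monomial n a =>
    have e1 : algebraMap v.integer L a = algebraMap K L a := rfl
    have : D' (Polynomial.aeval θ (Polynomial.monomial n a)) -
        Polynomial.aeval θ (Polynomial.monomial n a).derivative * D' θ =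
          θ ^ n * algebraMap K L (D a) := by
      rw [Polynomial.derivative_monomial, Polynomial.aeval_monomial, Polynomial.aeval_monomial,
        Derivation.leibniz, Derivation.leibniz_pow, map_mul, map_natCast, e1, e]
      simp only [smul_eq_mul, nsmul_eq_mul]
      ring
    rw [this, map_mul, map_pow]
    exact mul_le_one' (pow_le_one' (nc6a_le ho (nc6a_int h)) _) ((ho _).2 (hD a a.2))

/-- `D θ = - f ^ D (θ) / f'(θ)` -/
theorem UnrG.der (h : UnrG v w θ f) (hv : Nrm v) (hc : Cpl v) (ho : Over (algebraMap K L) v w)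
    {D : Derivation ℤ K K} {D' : Derivation ℤ L L}
    (e : ∀ a, D' (algebraMap K L a) = algebraMap K L (D a)) (hD : ∀ a, v a ≤ 1 → v (D a) ≤ 1)
    {x : L} (hx : w x ≤ 1) : w (D' x) ≤ 1 := by
  obtain ⟨g, -, -, h0, hu⟩ := nc6a_lift h
  have h1 := nc6a_der h ho e hD g
  rw [h0, map_zero, zero_sub, Valuation.map_neg, map_mul, hu, one_mul] at h1
  obtain ⟨q, rfl⟩ := nc6a_span h hv hc ho hx
  rw [← sub_add_cancel (D' (Polynomial.aeval θ q)) (Polynomial.aeval θ q.derivative * D' θ)]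
  refine w.map_add_le (nc6a_der h ho e hD q) ?_
  rw [map_mul]
  exact mul_le_one' (nc6a_ev h ho _) h1

end unr

variable {p : ℕ} [Fact p.Prime] {K G : Type} [Field K] [CharP K p] [AddCommGroup G] (𝒦 : LK p K G)

section ext

variable (L : Type) [Field L] [Algebra K L] [FiniteDimensional K L] [Algebra.IsSeparable K L]

theorem nc6b_nd {L G : Type} [Field L] [AddCommGroup G] {w : Vl L} {ϖ y g : L} {r : ℤ}
    (κ : L → G) (h0 : κ 0 = 0) (hy : κ y ≠ 0) (h : ∀ ε, Bd w ϖ (-r) ε → κ (ε * g) = 0) :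
    g = g / y * y ∧ w (ϖ ^ r * (g / y)) < 1 := by
  refine ⟨(div_mul_cancel₀ g fun e => hy (by rw [e, h0])).symm, ?_⟩
  rcases eq_or_ne g 0 with rfl | hg
  · simp
  have h1 : 1 < w (ϖ ^ (-r) * (y / g)) :=
    not_le.1 fun h1 => hy (by simpa only [div_mul_cancel₀ y hg] using h _ h1)
  rw [← inv_div, zpow_neg, ← mul_inv, map_inv₀] at h1
  by_contra h2
  exact h1.not_ge (inv_le_one_of_one_le₀ (not_lt.1 h2))

variable {L} in
theorem LK.nc6b_vp {w : Vl L} (ho : Over (algebraMap K L) 𝒦.w w) : VP w (algebraMap K L 𝒦.π) :=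
  ⟨(map_ne_zero _).2 (vp_of_unif 𝒦.unif).ne, (ho.lt_one _).2 (vp_of_unif 𝒦.unif).lt⟩

variable {L} in
theorem LK.nc6b_mk {w : Vl L} (hw : Nrm w) (ho : Over (algebraMap K L) 𝒦.w w) (c : ℕ)
    (h1 : ∀ z, w z ≤ 1 → Bd w (algebraMap K L 𝒦.π) c (dT (algebraMap K L 𝒦.t) z))
    (h2 : ∀ g, Bd w (algebraMap K L 𝒦.π) (-c) g → WP p (algebraMap K L 𝒦.t) g)
    (h3 : ∀ (r : ℤ) (g : L), (∀ ε, Bd w (algebraMap K L 𝒦.π) (-r) ε →
      𝒦.κ (Algebra.trace K L (ε * g)) = 0) → Bd w (algebraMap K L 𝒦.π) (r + c) g) :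
    ∃ Λ : LocF L G, 𝒦.Ext Λ ∧ Λ.w = w ∧ Λ.c = c := by
  have := charP_of_injective_algebraMap (algebraMap K L).injective p
  exact ⟨⟨w, algebraMap K L 𝒦.π, dT (algebraMap K L 𝒦.t),
    𝒦.κ.comp (Algebra.trace K L).toAddMonoidHom, c, (𝒦.nc6b_vp ho).ne, (𝒦.nc6b_vp ho).lt, h1,
    fun z => (congrArg 𝒦.κ (𝒦.pb.der_trace z)).trans ((𝒦.ker _).2 (wp_der _)),
    fun g hg => (𝒦.ker _).2 ((h2 g hg).trace 𝒦.pb), h3⟩,
    ⟨inferInstance, inferInstance, hw, 𝒦.cpl.fin ⟨_, 𝒦.unif⟩ ho, ho, rfl, rfl, fun _ => rfl⟩,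
    rfl, rfl⟩

/-- `c` is a common bound -/
theorem LK.exists_ext : ∃ Λ : LocF L G, 𝒦.Ext Λ := by
  have := charP_of_injective_algebraMap (algebraMap K L).injective p
  obtain ⟨w, hw, ho⟩ := exists_over_nrm (E := L) (v := 𝒦.w) ⟨_, 𝒦.unif⟩
  have hv := 𝒦.nc6b_vp ho
  have hp : P1 p (algebraMap K L 𝒦.t) := 𝒦.pb.ext
  obtain ⟨u, hu⟩ := id hw
  obtain ⟨y, -, hy⟩ := 𝒦.pb.exists_not_wp 𝒦.unif 𝒦.fin
  obtain ⟨z, hz⟩ := Algebra.trace_surjective K L (y * dT 𝒦.t 𝒦.π / 𝒦.π)
  rw [← 𝒦.ker, ← hz] at hy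
  obtain ⟨n₁, h1⟩ := hv.exists_bd (dT (algebraMap K L 𝒦.t) u)
  obtain ⟨n₂, h2⟩ := hv.exists_bd (algebraMap K L 𝒦.t)
  obtain ⟨n₃, h3⟩ := hv.exists_bd z
  obtain ⟨Λ, h, -⟩ := 𝒦.nc6b_mk hw ho (n₁ + n₂ + n₃ + 1)
    (fun a ha => (hv.mono h1 (by omega)).of_le (hp.der_le hu ha))
    (fun g hg => hp.wp_int (π := algebraMap K L 𝒦.t) (𝒦.cpl.fin ⟨_, 𝒦.unif⟩ ho)
      (fun e => hp.not_pow 0 (by rw [e, zero_pow (Fact.out : p.Prime).ne_zero]))
      (by rw [hp.self]; exact one_ne_zero)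
      (by rw [hp.self, map_one]; exact hv.lt_one (hv.mul h2 hg) (by omega)))
    fun r g hg => by
      obtain ⟨h4, h5⟩ := nc6b_nd (fun g => 𝒦.κ (Algebra.trace K L g)) (by simp) hy hg
      rw [h4]
      exact hv.mul_le (r := r) h5.le h3 (by omega)
  exact ⟨Λ, h⟩

variable {L}

theorem LK.Ext.finR {Λ : LocF L G} (h : 𝒦.Ext Λ) : FinR Λ.w := by
  exact 𝒦.fin.over h.ovr

theorem LK.Ext.der {Λ : LocF L G} (h : 𝒦.Ext Λ) (a : K) :
    Λ.D (algebraMap K L a) = algebraMap K L (dT 𝒦.t a) := by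
  have := charP_of_injective_algebraMap (algebraMap K L).injective p
  rw [h.D]
  exact 𝒦.pb.map _ 𝒦.pb.ext a

/-- the same with `c = 0` -/
theorem LK.exists_good (hg : 𝒦.Gd) {θ : L} {f : K[X]}
    (h : ∀ w : Vl L, Over (algebraMap K L) 𝒦.w w → UnrG 𝒦.w w θ f) :
    ∃ Λ : LocF L G, 𝒦.Ext Λ ∧ Λ.Good p := by
  have := charP_of_injective_algebraMap (algebraMap K L).injective p
  obtain ⟨w, hw, ho⟩ := exists_over_nrm (E := L) (v := 𝒦.w) ⟨_, 𝒦.unif⟩
  have hv := 𝒦.nc6b_vp ho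
  have hp : P1 p (algebraMap K L 𝒦.t) := 𝒦.pb.ext
  have hu := (h w ho).unif 𝒦.cpl hw ho 𝒦.unif
  have hc := 𝒦.cpl.fin ⟨_, 𝒦.unif⟩ ho
  have hd : w (dT (algebraMap K L 𝒦.t) (algebraMap K L 𝒦.π) - 1) < 1 := by
    rw [𝒦.pb.map _ hp, ← map_one (algebraMap K L), ← map_sub]
    exact (ho.lt_one _).2 hg
  have hd1 := vcnj_one hd
  have hi : ∀ g, w (algebraMap K L 𝒦.π * g) < 1 → WP p (algebraMap K L 𝒦.t) g := fun g hg =>
    hp.wp_int hc hv.ne (hp.der_ne hu) (hg.trans_eq hd1.symm)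
  obtain ⟨y, hy1, hy⟩ := 𝒦.pb.exists_not_wp 𝒦.unif 𝒦.fin
  obtain ⟨z, hz1, hz⟩ := (h w ho).trace ⟨_, 𝒦.unif⟩ 𝒦.cpl ho
  have e : Algebra.trace K L ((y * dT 𝒦.t 𝒦.π / 𝒦.π) • z) = y * dT 𝒦.t 𝒦.π / 𝒦.π := by
    rw [map_smul, hz, smul_eq_mul, mul_one]
  rw [← 𝒦.ker, ← e] at hy
  have h3 : Bd w (algebraMap K L 𝒦.π) 1 ((y * dT 𝒦.t 𝒦.π / 𝒦.π) • z) := by
    rw [Algebra.smul_def, map_div₀, map_mul, ← 𝒦.pb.map _ hp, div_eq_mul_inv]
    exact hv.mul_le (hv.mul (hv.mul (bd_iff.2 ((ho y).2 hy1)) (bd_iff.2 hd1.le)) hv.inv)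
      (bd_iff.2 hz1) (by omega)
  obtain ⟨Λ, hΛ, e1, e2⟩ := 𝒦.nc6b_mk hw ho 0
    (fun a ha => bd_iff.2 ((hp.der_le hu ha).trans hd1.le))
    (fun g hg => hi g (hv.lt_one (hv.mul hv.self hg) (by omega)))
    fun r g hg => by
      obtain ⟨h4, h5⟩ := nc6b_nd (fun g => 𝒦.κ (Algebra.trace K L g)) (by simp) hy hg
      rw [h4]
      exact hv.mul_le (hv.zpow_mul.1 ((bd_neg_one hu).2 h5)) h3 (by omega)
  subst e1
  refine ⟨Λ, hΛ, e2, hΛ.ϖ ▸ hu, by rw [hΛ.D, hΛ.ϖ]; exact hd, fun y hy => ?_,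
    fun a ha => (LK.Ext.finR 𝒦 hΛ).perf ha⟩
  have h4 : Λ.w (y ^ p - y) ≤ 1 := Λ.w.map_sub_le (by rw [map_pow]; exact pow_le_one' hy _) hy
  have h5 := (hp.wp_as hv.ne (hp.der_ne hu) y).add (hi ((y ^ p - y) *
    (1 - dT (algebraMap K L 𝒦.t) (algebraMap K L 𝒦.π)) / algebraMap K L 𝒦.π) (by
      rw [mul_div_cancel₀ _ hv.ne, map_mul, Valuation.map_sub_swap _ 1]
      exact (mul_le_of_le_one_left' h4).trans_lt hd))
  rw [← add_div, ← mul_add, add_sub_cancel, mul_one] at h5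
  rw [hΛ.κ, hΛ.ϖ, 𝒦.ker]
  exact h5.trace 𝒦.pb

end ext

section nc63

variable {k E : Type} [Field k] [Field E] [Algebra k E] {w : Vl E} {g : k[X]} {x : E}

theorem nc63_gen (x : E) :
    IntermediateField.adjoin k {IntermediateField.AdjoinSimple.gen k x} = ⊤ :=
  IntermediateField.lift_injective _ ((IntermediateField.lift_adjoin_simple _ _ _).trans
    (IntermediateField.lift_top _ _).symm)

theorem nc63_root (hm : g.Monic) (hg : ∀ i, w (algebraMap k E (g.coeff i)) ≤ 1)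
    (hx : Polynomial.aeval x g = 0) : w x ≤ 1 := by
  have h1 : ((g.map (algebraMap k E)).coeffs : Set E) ⊆ w.integer := fun c hc => by
    obtain ⟨n, -, rfl⟩ := Polynomial.mem_coeffs_iff.1 hc
    rw [Polynomial.coeff_map]
    exact hg n
  refine le_one_of_int (f := w.integer.subtype) (fun a => a.2)
    ⟨_, (Polynomial.monic_toSubring _ _ h1).2 (hm.map _), ?_⟩
  rw [← Polynomial.eval_map, Polynomial.map_toSubring, Polynomial.eval_map_algebraMap, hx]

theorem nc63_aeval (hg : ∀ i, w (algebraMap k E (g.coeff i)) ≤ 1) (hx : w x ≤ 1) :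
    w (Polynomial.aeval x g) ≤ 1 := by
  rw [Polynomial.aeval_eq_sum_range]
  refine w.map_sum_le fun i _ => ?_
  rw [Algebra.smul_def, map_mul, map_pow]
  exact mul_le_one' (hg i) (pow_le_one' hx i)

theorem nc63_fs {ι : Type} {p : ℕ} (B : Pls p k ι) (g : k[X]) :
    ∀ᶠ i in cofinite, ∀ j, B.v i (g.coeff j) ≤ 1 :=
  ((eventually_all_finset g.support).2 fun j _ => B.fs (g.coeff j)).mono fun i hi j => by
    by_cases hj : j ∈ g.support
    · exact hi j hj
    · simp [Polynomial.notMem_support_iff.1 hj]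

end nc63

/-- `L = K(ζ)`, `ζ` a primitive root of unity of order `s ^ m - 1`, `f = X ^ s ^ m - X` -/
theorem LK.exists_unr (hg : 𝒦.Gd) {κ : Type} [Field κ] [IsAlgClosed κ] {s : ℕ} (hs : FinB κ s)
    {ρ : 𝒦.w.integer →+* κ} (hρ : RedS 𝒦.w ρ s) {m : ℕ} (hm : 0 < m) :
    ∃ (L : IntermediateField K (AlgebraicClosure K)) (Λ : LocF L G) (ρ' : Λ.w.integer →+* κ),
      𝒦.Ext Λ ∧ Λ.Good p ∧ RedS Λ.w ρ' (s ^ m) ∧
      ∀ (a : 𝒦.w.integer) (y : Λ.w.integer), (y : L) = algebraMap K L a → ρ' y = ρ a := by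
  have hq : 1 < s ^ m := (hs.pow hm).one_lt
  have hp : p ∣ s ^ m := by
    obtain ⟨p', r, h1, h2, h3, h4⟩ := (hs.pow hm).ex
    have h5 : (p : κ) = 0 := by
      rw [← map_natCast ρ, show (p : 𝒦.w.integer) = 0 from Subtype.ext (CharP.cast_eq_zero K p),
        map_zero]
    rw [h4, (Nat.prime_dvd_prime_iff_eq h1 Fact.out).1 ((CharP.cast_eq_zero_iff κ p' p).1 h5)]
    exact dvd_pow_self p h3.ne'
  have h0 : ((s ^ m : ℕ) : K) = 0 := (CharP.cast_eq_zero_iff K p _).2 hp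
  obtain ⟨φ, hφ⟩ := hs.frob m
  have hfix : ∀ a, φ (ρ a) = ρ a := fun a => by
    rw [hφ]
    exact (congrFun (pow_iterate s m) (ρ a)).symm.trans
      (Function.IsFixedPt.iterate (f := (· ^ s)) ((hρ.rng _).1 ⟨a, rfl⟩) m)
  obtain ⟨n, hn⟩ : ∃ n, s ^ m = n + 1 := ⟨_, (Nat.sub_add_cancel hq.le).symm⟩
  rw [hn] at hq hp h0 hφ ⊢
  have hn0 : 0 < n := by omega
  have : NeZero (n : K) := ⟨fun e => by simp [e] at h0⟩
  obtain ⟨ζ, hζ⟩ := HasEnoughRootsOfUnity.exists_primitiveRoot (AlgebraicClosure K) n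
  have hi : IsIntegral K ζ := Algebra.IsIntegral.isIntegral ζ
  have hr : Polynomial.aeval ζ (Polynomial.X ^ (n + 1) - Polynomial.X : K[X]) = 0 := by
    simp [pow_succ, hζ.pow_eq_one]
  have := IntermediateField.adjoin.finiteDimensional hi
  have := (IntermediateField.isSeparable_adjoin_simple_iff_isSeparable K _).2
    ((galois_poly_separable p _ hp).of_dvd (minpoly.dvd K ζ hr))
  have hU : ∀ w : Vl (IntermediateField.adjoin K {ζ}), UnrG 𝒦.w w
      (IntermediateField.AdjoinSimple.gen K ζ) (Polynomial.X ^ (n + 1) - Polynomial.X) := fun w =>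
    ⟨Polynomial.monic_X_pow_sub (by rw [Polynomial.degree_X]; exact_mod_cast hq), fun i => by
      rw [Polynomial.coeff_sub, Polynomial.coeff_X_pow, Polynomial.coeff_X]
      refine 𝒦.w.map_sub_le ?_ ?_ <;> split_ifs <;> simp,
      Subtype.ext ((IntermediateField.AdjoinSimple.coe_aeval_gen_apply K ζ _).trans hr), by
      rw [Polynomial.derivative_sub, Polynomial.derivative_X_pow, h0]
      simp, nc63_gen ζ⟩
  obtain ⟨Λ, h1, h2⟩ := 𝒦.exists_good hg fun w _ => hU w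
  obtain ⟨ρ', h3, h4⟩ := exists_red_over h1.ovr hρ.red
  have h5 := nc63_root (hU Λ.w).monic (fun i => (h1.ovr _).2 ((hU Λ.w).int i)) (hU Λ.w).root
  have h6 : IsPrimitiveRoot (⟨_, h5⟩ : Λ.w.integer) n := hζ.of_map_of_injective
    (f := (algebraMap _ (AlgebraicClosure K)).comp Λ.w.integer.subtype)
    (Subtype.val_injective.comp Subtype.val_injective)
  refine ⟨_, Λ, ρ', h1, h2, ⟨h3, fun x => ⟨?_, fun hx => ?_⟩⟩,
    fun a y e => (congrArg ρ' (Subtype.ext e)).trans (h4 a)⟩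
  · rintro ⟨y, rfl⟩
    obtain ⟨q, h7, h8⟩ := (hU Λ.w).span ⟨_, 𝒦.unif⟩ 𝒦.cpl h1.ovr y.2
    have h9 : y = ∑ i ∈ Finset.range (q.natDegree + 1), h1.ovr.int ⟨_, h7 i⟩ * ⟨_, h5⟩ ^ i :=
      Subtype.ext (by simp [h8, Polynomial.aeval_eq_sum_range, Algebra.smul_def])
    have h10 : φ (ρ' ⟨_, h5⟩) = ρ' ⟨_, h5⟩ := by
      rw [hφ, pow_succ, ← map_pow, h6.pow_eq_one, map_one, one_mul]
    rw [← hφ, h9]
    simp only [map_sum, map_mul, map_pow, h4, hfix, h10]
  · rcases eq_or_ne x 0 with rfl | h7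
    · exact zero_mem _
    have h8 := congrArg (Polynomial.eval₂RingHom ρ' x) (Polynomial.X_pow_sub_one_eq_prod hn0 h6)
    rw [pow_succ, mul_eq_right₀ h7] at hx
    simp only [map_sub, map_pow, map_prod, map_one, Polynomial.coe_eval₂RingHom, Polynomial.eval₂_X,
      Polynomial.eval₂_C, hx, sub_self] at h8
    obtain ⟨y, -, hy⟩ := Finset.prod_eq_zero_iff.1 h8.symm
    exact ⟨y, (sub_eq_zero.1 hy).symm⟩

theorem exists_redS {E : Type} [Field E] {w : Vl E} (hw : Nrm w) (hf : FinR w) :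
    ∃ (κ : Type) (_ : Field κ) (_ : IsAlgClosed κ) (s : ℕ) (ρ : w.integer →+* κ),
      FinB κ s ∧ RedS w ρ s := by
  obtain ⟨t, h1, h2⟩ := hf
  have : Finite (IsLocalRing.ResidueField w.integer) := Finite.of_surjective
    (fun b : t => IsLocalRing.residue w.integer ⟨b, h1 b b.2⟩) fun z => by
      obtain ⟨a, rfl⟩ := IsLocalRing.residue_surjective z
      obtain ⟨b, h3, h4⟩ := h2 a a.2
      refine ⟨⟨b, h3⟩, (sub_eq_zero.1 ?_).symm⟩
      rwa [← map_sub, IsLocalRing.residue_eq_zero_iff, IsLocalRing.mem_maximalIdeal,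
        mem_nonunits_iff, Valuation.Integer.not_isUnit_iff_valuation_lt_one]
  obtain ⟨κ, _, _, s, ρ, h3, h4⟩ := exists_finB w.integer
  exact ⟨κ, _, ‹_›, s, ρ, h3,
    fun x => (h4.ker x).trans Valuation.Integer.not_isUnit_iff_valuation_lt_one, h4.rng⟩

theorem nc63_gd {k ι : Type} [Field k] [CharP k p] {B : Pls p k ι} (hB : P1 p B.t)
    (hD : B.D = dT B.t) {K G : ι → Type} [∀ i, Field (K i)] [∀ i, Algebra k (K i)]
    [∀ i, AddCommGroup (G i)] {𝒦 : ∀ i, LK p (K i) (G i)} (h : ∀ i, (𝒦 i).At B i) :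
    ∀ᶠ i in cofinite, (𝒦 i).Gd := B.dπ.mono fun i hi => by
  have := charP_of_injective_algebraMap (algebraMap k (K i)).injective p
  rwa [LK.Gd, (h i).π, (h i).t, hB.map _ ((h i).t ▸ (𝒦 i).pb), ← map_one (algebraMap k (K i)),
    ← map_sub, (h i).w, ← hD]

/-- Let `θ` be a primitive element of `k₁`, `f` its minimal polynomial, `a f + b f' = 1`. `L i` is
generated by the image of `θ` under an embedding into the closure of `K i`. The coefficients of
`f`, `b` are integral at almost all places. -/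
theorem exists_lfam {k ι : Type} [Field k] [CharP k p] (B : Pls p k ι) (hB : P1 p B.t)
    (hD : B.D = dT B.t) {K G : ι → Type} [∀ i, Field (K i)] [∀ i, Algebra k (K i)]
    [∀ i, AddCommGroup (G i)] (𝒦 : ∀ i, LK p (K i) (G i)) (h : ∀ i, (𝒦 i).At B i) {k₁ : Type}
    [Field k₁] [Algebra k k₁] [FiniteDimensional k k₁] [Algebra.IsSeparable k k₁]
    {D₁ : Derivation ℤ k₁ k₁} (h1 : ∀ a, D₁ (algebraMap k k₁ a) = algebraMap k k₁ (B.D a)) :
    ∃ (L : ∀ i, IntermediateField (K i) (AlgebraicClosure (K i)))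
      (𝓛 : LFam B D₁ (fun i => L i) G), ∀ i, (𝒦 i).Ext (𝓛.Λ i) ∧
        ∀ a, 𝓛.e i (algebraMap k k₁ a) = algebraMap (K i) (L i) (algebraMap k (K i) a) := by
  obtain ⟨θ, hθ⟩ := Field.exists_primitive_element k k₁
  have hi : ∀ a : k₁, IsIntegral k a := Algebra.IsIntegral.isIntegral
  obtain ⟨a, b, hab⟩ : IsSeparable k θ := Algebra.IsSeparable.isSeparable k θ
  have hK := fun i => charP_of_injective_algebraMap (algebraMap k (K i)).injective p
  have := charP_of_injective_algebraMap (algebraMap k k₁).injective p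
  let σ : ∀ i, k₁ →ₐ[k] AlgebraicClosure (K i) := fun i => IsAlgClosed.lift
  let L := fun i => IntermediateField.adjoin (K i) {σ i θ}
  have hm : ∀ i x, σ i x ∈ L i := fun i x =>
    (show ⊤ ≤ ((L i).restrictScalars k).comap (σ i) from hθ ▸ IntermediateField.adjoin_simple_le_iff.2
      (IntermediateField.mem_adjoin_simple_self (K i) (σ i θ))) IntermediateField.mem_top
  let e : ∀ i, k₁ →ₐ[k] L i := fun i =>
    { (σ i).toRingHom.codRestrict (L i) (hm i) with
      commutes' := fun a => Subtype.ext ((σ i).commutes a) }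
  have he : ∀ i a, algebraMap k (L i) a = algebraMap (K i) (L i) (algebraMap k (K i) a) :=
    fun i a => IsScalarTower.algebraMap_apply _ _ _ _
  have h2 : ∀ i {w : Vl (L i)}, Over (algebraMap (K i) (L i)) (𝒦 i).w w →
      ∀ a, w (algebraMap k (L i) a) ≤ 1 ↔ B.v i a ≤ 1 := fun i w ho a => by
    rw [he, ho, (h i).w]
  have h3 : ∀ i x, Polynomial.aeval (e i x) (minpoly k x) = 0 := fun i x => by
    rw [Polynomial.aeval_algHom_apply, minpoly.aeval, map_zero]
  have h4 : ∀ i, ∃ Λ : LocF (L i) (G i), (𝒦 i).Ext Λ ∧ ((𝒦 i).Gd ∧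
      (∀ j, B.v i ((minpoly k θ).coeff j) ≤ 1) ∧ (∀ j, B.v i (b.coeff j) ≤ 1) ∧
      (∀ j, B.v i ((minpoly k θ).derivative.coeff j) ≤ 1) → Λ.Good p) := fun i => by
    have := IntermediateField.adjoin.finiteDimensional (((hi θ).map (σ i)).tower_top (A := K i))
    have := (IntermediateField.isSeparable_adjoin_simple_iff_isSeparable (K i) _).2
      (((Algebra.IsSeparable.isSeparable k θ).map (σ i) (σ i).injective).tower_top (K i))
    by_cases hc : (𝒦 i).Gd ∧ (∀ j, B.v i ((minpoly k θ).coeff j) ≤ 1) ∧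
      (∀ j, B.v i (b.coeff j) ≤ 1) ∧ ∀ j, B.v i ((minpoly k θ).derivative.coeff j) ≤ 1
    · obtain ⟨Λ, h5, h6⟩ := (𝒦 i).exists_good hc.1 (θ := e i θ)
        (f := (minpoly k θ).map (algebraMap k (K i))) fun w ho => by
        have h5 := nc63_root (minpoly.monic (hi θ)) (fun j => (h2 i ho _).2 (hc.2.1 j)) (h3 i θ)
        have h6 := congrArg (fun g => w (Polynomial.aeval (e i θ) g)) hab
        simp only [map_add, map_mul, h3, mul_zero, zero_add, map_one] at h6
        refine ⟨(minpoly.monic (hi θ)).map _, fun j => ?_, ?_, ?_, nc63_gen _⟩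
        · rw [Polynomial.coeff_map, (h i).w]
          exact hc.2.1 j
        · rw [Polynomial.aeval_map_algebraMap, h3]
        · rw [Polynomial.derivative_map, Polynomial.aeval_map_algebraMap]
          exact eq_one_of_one_le_mul_right (nc63_aeval (fun j => (h2 i ho _).2 (hc.2.2.1 j)) h5)
            (nc63_aeval (fun j => (h2 i ho _).2 (hc.2.2.2 j)) h5) h6.ge
      exact ⟨Λ, h5, fun _ => h6⟩
    · obtain ⟨Λ, h5⟩ := (𝒦 i).exists_ext (L i)
      exact ⟨Λ, h5, fun e => (hc e).elim⟩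
  choose Λ h5 h6 using h4
  have h7 : ∀ i a, e i (algebraMap k k₁ a) = algebraMap (K i) (L i) (algebraMap k (K i) a) :=
    fun i a => ((e i).commutes a).trans (he i a)
  refine ⟨L, ⟨Λ, fun i => e i, fun i => ?_, fun i a => ?_, fun i a => ?_, h1, fun a => ?_,
    ((nc63_gd hB hD h).and ((nc63_fs B _).and ((nc63_fs B _).and (nc63_fs B _)))).mono h6⟩,
    fun i => ⟨h5 i, h7 i⟩⟩
  · rw [(h5 i).ϖ, (h i).π]
    exact (h7 i _).symm
  · exact ((e i).commutes a).symm ▸ h2 i (h5 i).ovr a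
  · have := charP_of_injective_algebraMap (algebraMap (K i) (L i)).injective p
    have := (h5 i).sep
    have h8 : algebraMap (K i) (L i) (𝒦 i).t = (e i : k₁ →+* L i) (algebraMap k k₁ B.t) := by
      rw [(h i).t]
      exact (h7 i _).symm
    rw [(h5 i).D, h8, hB.ext.map _ (h8 ▸ (𝒦 i).pb.ext), hB.ext.der_eq D₁ a, h1, B.Dt, map_one,
      one_mul]
  · exact (nc63_fs B (minpoly k a)).mono fun i hi' => nc63_root (minpoly.monic (hi a))
      (fun j => (h2 i (h5 i).ovr _).2 (hi' j)) (h3 i a)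

theorem LK.At.gd {k ι : Type} [Field k] [CharP k p] {B : Pls p k ι} (hB : P1 p B.t)
    (hD : B.D = dT B.t) {K G : ι → Type} [∀ i, Field (K i)] [∀ i, Algebra k (K i)]
    [∀ i, AddCommGroup (G i)] {𝒦 : ∀ i, LK p (K i) (G i)} (h : ∀ i, (𝒦 i).At B i) :
    ∀ᶠ i in cofinite, (𝒦 i).Gd := nc63_gd hB hD h

end Pool.Agent.ZFN
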