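import Pool.Agent.Lib.MP_751085_ag.ZF.N.A1
import Pool.Agent.Lib.MP_751085_ag.ZF.D.Defs
import Pool.Agent.Lib.MP_751085_ag.ZC.V.D

/-! One-variable `p`-bases and complete local fields. -/

namespace Pool.Agent.ZFN

open Pool.Agent.ZCy
open scoped Classical WithZero

/-- `t` is a `p`-basis of `E` -/
def P1 (p : ℕ) {E : Type} [Field E] (t : E) : Prop := ZFd.PB p ⊤ fun _ : Unit => t

/-- `d / d t` -/
noncomputable def dT {E : Type} [Field E] (t : E) : Derivation ℤ E E :=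
  ZFd.der (fun _ : Unit => t) ()

/-- the form `g dt` is `d h + (γ - 1) (y dt)` -/
def WP (p : ℕ) {E : Type} [Field E] (t g : E) : Prop :=
  ∃ h y, g = dT t h + y ^ p * t ^ (p - 1) - y

/-- the residue field is finite -/
def FinR {E : Type} [Field E] (w : Vl E) : Prop :=
  ∃ s : Finset E, (∀ b ∈ s, w b ≤ 1) ∧ ∀ a, w a ≤ 1 → ∃ b ∈ s, w (a - b) < 1

/-- A complete local field with `p`-basis `t` and the map `g ↦ [g dt]`. -/
structure LK (p : ℕ) (K G : Type) [Field K] [AddCommGroup G] where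
  w : Vl K
  π : K
  t : K
  κ : K →+ G
  unif : w π = WithZero.exp (-1)
  cpl : Cpl w
  fin : FinR w
  pb : P1 p t
  ker : ∀ g, κ g = 0 ↔ WP p t g

section

variable {p : ℕ} {K G L : Type} [Field K] [AddCommGroup G] [Field L] [Algebra K L] (𝒦 : LK p K G)

/-- good places -/
def LK.Gd : Prop := 𝒦.w (dT 𝒦.t 𝒦.π - 1) < 1

/-- `Λ` is the structure of the finite separable extension `L` -/
structure LK.Ext (Λ : LocF L G) : Prop where
  fd : FiniteDimensional K L
  sep : Algebra.IsSeparable K L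
  nrm : Nrm Λ.w
  cpl : Cpl Λ.w
  ovr : Over (algebraMap K L) 𝒦.w Λ.w
  ϖ : Λ.ϖ = algebraMap K L 𝒦.π
  D : Λ.D = dT (algebraMap K L 𝒦.t)
  κ : ∀ g, Λ.κ g = 𝒦.κ (Algebra.trace K L g)

/-- `K` is the completion of `k` at the place `i` -/
structure LK.At {k ι : Type} [Field k] [Algebra k K] (B : Pls p k ι) (i : ι) : Prop where
  w : ∀ a, 𝒦.w (algebraMap k K a) = B.v i a
  π : 𝒦.π = algebraMap k K (B.π i)
  t : 𝒦.t = algebraMap k K B.t
  dns : ∀ x, Dns (algebraMap k K) 𝒦.w x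

/-- `ρ` is a residue map onto the field with `s` elements -/
structure RedS {E κ : Type} [Field E] [Field κ] (w : Vl E) (ρ : w.integer →+* κ) (s : ℕ) :
    Prop where
  red : IsRed w ρ
  rng : ∀ x, x ∈ ρ.range ↔ x ^ s = x

end

end Pool.Agent.ZFN
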