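import Pool.Agent.Lib.MP_751085_ag.ZC.VDefs

/-! Block N: bounds, lattices, forms, places, local fields, jets. -/

namespace Pool.Agent.ZFN

open Pool.Agent.ZCy
open scoped Classical WithZero
open Filter

/-- `a` lies in `ϖ ^ (-r) O` -/
def Bd {L : Type} [Field L] (w : Vl L) (ϖ : L) (r : ℤ) (a : L) : Prop := w (ϖ ^ r * a) ≤ 1

/-- a finitely supported family of constants -/
def FinS {ι : Type} (c : ι → ℕ) : Prop := ∀ᶠ i in cofinite, c i = 0

/-! ### Forms -/

/-- coordinates with their dual derivations -/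
structure DR (R ι : Type) [CommRing R] where
  u : ι → R
  d : ι → Derivation ℤ R R
  self : ∀ i, d i (u i) = 1
  ne : ∀ i j, i ≠ j → d i (u j) = 0

/-- a `p`-basis -/
structure PB (p : ℕ) (F ι : Type) [Field F] extends DR F ι where
  comm : ∀ i j y, d i (d j y) = d j (d i y)
  nil : ∀ i y, (d i)^[p] y = 0
  ker : ∀ y, (∀ i, d i y = 0) → ∃ z, y = z ^ p

section forms

variable {R ι τ : Type} [CommRing R]

/-- the differential of a function -/
def DR.dF (P : DR R ι) (h : R) : ι → R := fun i => P.d i h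

/-- the differential of a form -/
def DR.d2 (P : DR R ι) (η : ι → R) : ι → ι → R := fun i j => P.d i (η j) - P.d j (η i)

/-- the inverse Cartier operator -/
def DR.gam (P : DR R ι) (p : ℕ) (ω : ι → R) : ι → R := fun i => ω i ^ p * P.u i ^ (p - 1)

/-- `z.1` is closed and `z.2` is its image under the Cartier operator -/
def DR.Pair (P : DR R ι) (p : ℕ) (z : (ι → R) × (ι → R)) : Prop :=
  ∃ h, z.1 = P.dF h + P.gam p z.2

/-- the form `b dt` -/
def bdt (τ : Type) (b : R) : Option τ → R := fun i => i.elim b fun _ => 0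

/-- the form `dt ∧ η` -/
def dtw (η : Option τ → R) : Option τ → Option τ → R :=
  fun i j => bdt τ (η j) i - bdt τ (η i) j

/-- the relative differential -/
def DR.drel (P : DR R (Option τ)) (η : Option τ → R) : τ → τ → R :=
  fun i j => P.d2 η (some i) (some j)

/-- the forms `b dt` in `S` -/
def vert (S : Set (Option τ → R)) : Set (Option τ → R) := {η | η ∈ S ∧ ∀ i, η (some i) = 0}

/-- the two-forms attached to a family -/
def DR.two (P : DR R (Option τ)) (S : Set (Option τ → R)) : Set (Option τ → Option τ → R) :=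
  P.d2 '' S ∪ dtw '' S

/-- the coordinate `none` is `t` and the other derivations kill `k` -/
structure DR.Cmp {k : Type} [Field k] [Algebra k R] (P : DR R (Option τ)) (t : k)
    (D : Derivation ℤ k k) : Prop where
  u : P.u none = algebraMap k R t
  d0 : ∀ a, P.d none (algebraMap k R a) = algebraMap k R (D a)
  ds : ∀ i a, P.d (some i) (algebraMap k R a) = 0

/-- the chain rule -/
def DR.CH [Fintype ι] (P : DR R ι) : Prop :=
  ∀ (S : Type) [CommRing S] (x : R →+* S) (e : R →+ S),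
    (∀ f g, e (f * g) = x f * e g + x g * e f) → ∀ f, e f = ∑ j, x (P.d j f) * e (P.u j)

end forms

/-! ### Places and lattices -/

/-- The places of a function field `k` of characteristic `p` with separating element `t`. -/
structure Pls (p : ℕ) (k ι : Type) [Field k] where
  v : ι → Vl k
  π : ι → k
  t : k
  D : Derivation ℤ k k
  unif : ∀ i, v i (π i) = WithZero.exp (-1)
  Dt : D t = 1
  nil : ∀ y, D^[p] y = 0
  ker : ∀ y, D y = 0 → ∃ z, y = z ^ p
  fs : ∀ a, ∀ᶠ i in cofinite, v i a ≤ 1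
  ad : ∃ c, FinS c ∧ ∀ a : ι → k, (∀ᶠ i in cofinite, a i = 0) →
    ∃ b, ∀ i, Bd (v i) (π i) (c i) (b - a i)
  ld : ∀ c, FinS c → {a | ∀ i, Bd (v i) (π i) (c i) a}.Finite
  perf : ∀ i a, v i a ≤ 1 → ∃ b, v i (a - b ^ p) < 1
  der : ∃ c, FinS c ∧ ∀ i a, v i a ≤ 1 → Bd (v i) (π i) (c i) (D a)
  dπ : ∀ᶠ i in cofinite, v i (D (π i) - 1) < 1

section lattices

variable {p : ℕ} {k ι V : Type} [Field k] [AddCommGroup V] [Module k V]

/-- the bound at the place `i` -/
def Pls.bd (B : Pls p k ι) (i : ι) (r : ℤ) (a : k) : Prop := Bd (B.v i) (B.π i) r a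

/-- the sums of `φ a • s`, `a ∈ π ^ (-r) O`, `s ∈ S` -/
def Pls.glat (B : Pls p k ι) (φ : k →+* k) (i : ι) (r : ℤ) (S : Set V) : AddSubgroup V :=
  AddSubgroup.closure {x | ∃ a s, B.bd i r a ∧ s ∈ S ∧ x = φ a • s}

/-- the lattice `π ^ (-r) Σ O s` -/
abbrev Pls.lat (B : Pls p k ι) (i : ι) (r : ℤ) (S : Set V) : AddSubgroup V :=
  B.glat (RingHom.id k) i r S

/-- the span for the action through `φ` -/
def gspan (φ : k →+* k) (S : Set V) : AddSubgroup V :=
  AddSubgroup.closure {x | ∃ a s, s ∈ S ∧ x = φ a • s}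

/-- one more pole is allowed in the direction of `dt` -/
def Pls.lg {R τ : Type} [CommRing R] [Algebra k R] (B : Pls p k ι) (i : ι) (m : ℤ)
    (S : Set (Option τ → R)) : AddSubgroup (Option τ → R) :=
  B.lat i m S ⊔ B.lat i (m + 1) (vert S)

/-- the sums of `a ^ p • ζ - a • ω` -/
def NN (p : ℕ) (k : Type) [Field k] [Module k V] (Z : Set (V × V)) : AddSubgroup V :=
  AddSubgroup.closure {x | ∃ (a : k) (z : V × V), z ∈ Z ∧ x = a ^ p • z.1 - a • z.2}

end lattices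

/-- The global data: forms over `F` and the map to the group `G`. -/
structure FD (p : ℕ) (k ι F τ G : Type) [Field k] [Field F] [Algebra k F] [AddCommGroup G] where
  B : Pls p k ι
  P : PB p F (Option τ)
  cmp : P.toDR.Cmp B.t B.D
  δ : (Option τ → F) →+ G
  δd : ∀ h, δ (P.dF h) = 0
  δg : ∀ ω, δ (P.gam p ω) = δ ω

section conditions

variable {p : ℕ} {k ι F τ G : Type} [Field k] [Field F] [Algebra k F] [AddCommGroup G]
  (Φ : FD p k ι F τ G)

/-- the differential has half the pole order -/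
def FD.H2 (i : ι) (c : ℕ) (a : G) (T : Set (Option τ → F)) : Prop :=
  ∀ (m : ℕ) (η : Option τ → F), η ∈ Φ.B.lg i m T → Φ.δ η = a →
    Φ.P.d2 η ∈ Φ.B.lat i ((m + 2) / 2 + c : ℕ) (Φ.P.two T)

/-- the case `p = m = 2` -/
def FD.H3 (i : ι) (a : G) (T : Set (Option τ → F)) : Prop :=
  p = 2 → ∀ η ∈ Φ.B.lat i 2 T, Φ.δ η = a → Φ.P.drel η ∈ Φ.B.lat i 1 (Φ.P.drel '' T)

/-- the tame step -/
def FD.TOK (i : ι) (a : G) (T : Set (Option τ → F)) (H Bf : Set F) : Prop :=
  ∀ α ∈ Φ.B.lat i 0 T, ∀ β ∈ Φ.B.lat i 0 {b | bdt τ b ∈ T},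
    Φ.δ (α + bdt τ ((Φ.B.π i)⁻¹ • β)) = a → ∃ y ∈ Φ.B.lat i 0 H, ∃ c : k, Φ.B.bd i 0 c ∧
      β - (y ^ p - y + algebraMap k F c) ∈ Φ.B.lat i (-1) Bf

/-- the Cartier operator preserves the span of `E` -/
def DR.Stab {R ι : Type} [CommRing R] (P : DR R ι) (p : ℕ) (k : Type) [Field k] [Algebra k R]
    (E : Set (ι → R)) : Prop :=
  ∀ ζ ∈ Submodule.span k E, P.d2 ζ = 0 → ∃ ω ∈ Submodule.span k E, P.Pair p (ζ, ω)

/-- a finite set of pairs -/
def FD.Prs (Z : Set ((Option τ → F) × (Option τ → F))) : Prop :=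
  Z.Finite ∧ ∀ z ∈ Z, Φ.P.Pair p z

end conditions

/-! ### Local fields -/

/-- A valued field with a derivation and the map `g ↦ [g dt]`. -/
structure LocF (L G : Type) [Field L] [AddCommGroup G] where
  w : Vl L
  ϖ : L
  D : Derivation ℤ L L
  κ : L →+ G
  c : ℕ
  ne : ϖ ≠ 0
  lt : w ϖ < 1
  der : ∀ z, w z ≤ 1 → Bd w ϖ c (D z)
  ex : ∀ z, κ (D z) = 0
  int : ∀ g, Bd w ϖ (-c) g → κ g = 0
  nd : ∀ (r : ℤ) (g : L), (∀ ε, Bd w ϖ (-r) ε → κ (ε * g) = 0) → Bd w ϖ (r + c) g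

section localf

variable {L G : Type} [Field L] [AddCommGroup G]

/-- the bound in the local field -/
def LocF.bd (Λ : LocF L G) (r : ℤ) (a : L) : Prop := Bd Λ.w Λ.ϖ r a

/-- good places -/
structure LocF.Good (Λ : LocF L G) (p : ℕ) : Prop where
  c0 : Λ.c = 0
  unif : Λ.w Λ.ϖ = WithZero.exp (-1)
  dϖ : Λ.w (Λ.D Λ.ϖ - 1) < 1
  as : ∀ y, Λ.w y ≤ 1 → Λ.κ ((y ^ p - y) / Λ.ϖ) = 0
  perf : ∀ a, Λ.w a ≤ 1 → ∃ b, Λ.w (a - b ^ p) < 1

end localf

/-- One local field for each place, all of them over the finite extension `k₁` of `k`. -/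
structure LFam {p : ℕ} {k ι : Type} [Field k] (B : Pls p k ι) {k₁ : Type} [Field k₁] [Algebra k k₁]
    (D₁ : Derivation ℤ k₁ k₁) (L G : ι → Type) [∀ i, Field (L i)] [∀ i, AddCommGroup (G i)] where
  Λ : ∀ i, LocF (L i) (G i)
  e : ∀ i, k₁ →+* L i
  ϖ : ∀ i, (Λ i).ϖ = e i (algebraMap k k₁ (B.π i))
  ovr : ∀ i a, (Λ i).w (e i (algebraMap k k₁ a)) ≤ 1 ↔ B.v i a ≤ 1
  D : ∀ i a, (Λ i).D (e i a) = e i (D₁ a)
  D0 : ∀ a, D₁ (algebraMap k k₁ a) = algebraMap k k₁ (B.D a)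
  fs : ∀ a, ∀ᶠ i in cofinite, (Λ i).w (e i a) ≤ 1
  good : ∀ᶠ i in cofinite, (Λ i).Good p

/-! ### Jets -/

section jets

variable {A τ S : Type} [CommRing A] [Fintype τ] [CommRing S] (P : DR A (Option τ))

/-- the derivative in the direction `g` at the point `Q` -/
def DR.grad (Q : A →+* S) (g : τ → S) (f : A) : S := ∑ i, g i * Q (P.d (some i) f)

/-- the pull-back of a form along a point is `pb dt` -/
def DR.pb (D : Derivation ℤ S S) (x : A →+* S) (η : Option τ → A) : S :=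
  ∑ j, x (η j) * D (x (P.u j))

/-- a two-form evaluated on the direction `g` and the tangent vector of the point -/
def DR.om (D : Derivation ℤ S S) (Q : A →+* S) (g : τ → S) (ω : Option τ → Option τ → A) : S :=
  ∑ i, ∑ j, g i * D (Q (P.u j)) * Q (ω (some i) j)

/-- the quadratic term -/
def DR.qJ (Q : A →+* S) (g : τ → S) (η : Option τ → A) : S :=
  ∑ i, g i * P.grad Q g (η (some i))

variable {k : Type} [Field k] [Algebra k A]

/-- The jets `(Q j, g j)` determine the differentials of the forms in the span of `T`. -/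
structure DR.Det (p : ℕ) (T : Set (Option τ → A)) {k₁ : Type} [Field k₁] [Algebra k k₁]
    (D₁ : Derivation ℤ k₁ k₁) {s : ℕ} (Q : Fin s → A →ₐ[k] k₁) (g : Fin s → τ → k) : Prop where
  two : ∃ (n : ℕ) (w : Fin n → Option τ → Option τ → A) (M : Fin n → Fin s → k₁),
    (∀ b, w b ∈ P.two T) ∧ ∀ ω ∈ Submodule.span k (P.two T), ∃ z : Fin n → k,
      ω = ∑ b, z b • w b ∧ ∀ b, algebraMap k k₁ (z b) =
        ∑ j, M b j * P.om D₁ (Q j) (fun i => algebraMap k k₁ (g j i)) ω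
  three : p = 2 → ∃ (n : ℕ) (w : Fin n → τ → τ → A) (M : Fin n → Fin s → k₁),
    (∀ b, w b ∈ P.drel '' T) ∧ ∀ η ∈ Submodule.span k T, ∃ z : Fin n → k,
      P.drel η = ∑ b, z b • w b ∧ ∀ b, algebraMap k k₁ (z b) =
        ∑ j, M b j * (P.qJ (Q j : A →+* k₁) (fun i => algebraMap k k₁ (g j i)) η -
          P.om D₁ (Q j) (fun i => algebraMap k k₁ (g j i)) (P.d2 η) ^ 2)

/-- the first order jets of points over `Ω` are dense -/
def DR.Dens (k : Type) [Field k] [Algebra k A] {Ω : Type} [Field Ω] [Algebra k Ω]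
    (D : Derivation ℤ Ω Ω) : Prop :=
  ∀ (I : Type) [Fintype I] (ε : I → Ω) (R : I → MvPolynomial τ A) (bad : Set (A →ₐ[k] Ω)),
    bad.Finite → (∀ Q ∉ bad, ∑ l, ε l *
      MvPolynomial.eval₂ (Q : A →+* Ω) (fun i => D (Q (P.u (some i)))) (R l) = 0) →
    ∀ φ : Ω →ₗ[k] k, ∑ l, φ (ε l) • R l = 0

/-- `A` is generated by `gens` and inverses -/
def GenI (k : Type) [Field k] [Algebra k A] (gens : Set A) : Prop :=
  ∀ U : Subalgebra k A, gens ⊆ U → (∀ f ∈ U, ∀ f', f * f' = 1 → f' ∈ U) → U = ⊤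

variable {L G : Type} [Field L] [AddCommGroup G] (Λ : LocF L G)

/-- the Taylor formula with remainder in `ϖ ^ (-s) O` -/
def DR.Tay (Q x : A →+* L) (g : τ → L) (ε : L) (s : ℤ) (f : A) : Prop :=
  Λ.bd s (x f - Q f - ε * P.grad Q g f)

/-- for small `ε` there is a point near `Q + ε g` with the property `Ag` -/
def DR.AV (k : Type) [Field k] [Algebra k A] (gens : Set A) (Q : A →+* L) (g : τ → L) (c : ℕ)
    (Ag : (A →+* L) → Prop) : Prop :=
  ∀ (r : ℤ) (ε : L), c < r → Λ.bd (-r) ε → ∃ x : A →+* L,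
    (∀ a, x (algebraMap k A a) = Q (algebraMap k A a)) ∧
    (∀ f ∈ gens, P.Tay Λ Q x g ε (c - 2 * r) f) ∧ Ag x

end jets

end Pool.Agent.ZFN
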