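import Pool.Agent.Lib.MP_751085_ag.ZF.N.R4
import Pool.Agent.Lib.MP_751085_ag.ZF.N.A9

/-! The frame: arcs along the jets, values on arcs, finiteness. -/

namespace Pool.Agent.ZFN

open Pool.Agent.ZCy
open scoped Classical
open MvPolynomial Filter

/-- the coordinates in the closure -/
abbrev upv {K I : Type} [Field K] {L : IntermediateField K (Cb K)} (z : I → L) : I → Cb K :=
  fun j => z j

theorem Kl.two {K G : Type} [Field K] [AddCommGroup G] {N : ℕ}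
    {pt : IntermediateField K (Cb K) → (Fin (N + 1) → Cb K) → G} {P : (Fin (N + 1) → Cb K) → Prop}
    (h : Kl pt P) {L : IntermediateField K (Cb K)} (hL : FiniteDimensional K L)
    {z z' : Fin (N + 1) → L} (hz : P (upv z)) (hz' : P (upv z')) :
    pt L (upv z) = pt L (upv z') := by
  have := h Bool (fun b => cond b 1 (-1)) (fun _ => L) (fun b => cond b (upv z) (upv z'))
    (fun b => ⟨hL, fun j => by cases b <;> exact Subtype.property _, by cases b <;> assumption⟩)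
    (by simp)
  rw [Fintype.sum_bool] at this
  simpa [← sub_eq_add_neg, sub_eq_zero] using this

variable {k : Type} [Field k] {X : Var k}

section pts

variable {K : Type} [Field K] [Algebra k K] {L : IntermediateField K (Cb K)}

theorem nf_alg (a : k) : algebraMap k L a = algebraMap K L (algebraMap k K a) :=
  IsScalarTower.algebraMap_apply k K L a

theorem nf_aeval {I : Type} (z : I → L) (G : MP I k) :
    aeval (upv z) G = ((aeval z G : L) : Cb K) :=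
  (comp_aeval_apply z (L.val.restrictScalars k) G).symm

theorem nf_on {z : Fin (X.N + 1) → L} (hz : X.On z) : X.On (upv z) :=
  hz.map (L.val.restrictScalars k)

theorem nf_ptl (hL : FiniteDimensional K L) {z : Fin (X.N + 1) → L} (hz : X.On z) :
    PtL X L (upv z) := ⟨hL, fun j => (z j).2, nf_on hz⟩

theorem nf_onG {σ : Type} {g : σ → Fm X.N k} {z : Fin (X.N + 1) → L} (hz : X.On z)
    (hg : ∀ j, aeval z (g j) = 0) : OnG X g (upv z) :=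
  ⟨nf_on hz, fun j => by rw [nf_aeval, hg, ZeroMemClass.coe_zero]⟩

end pts

variable {p : ℕ} {σ ι : Type} [Fintype σ] {K : ι → Type} [∀ i, Field (K i)]
  [∀ i, Algebra k (K i)] [∀ i, TopologicalSpace (K i)] {G₀ : Type} [AddCommGroup G₀]
  {G : ι → Type} [∀ i, AddCommGroup (G i)] {ν : ∀ i, AbsoluteValue (Cb (K i)) ℝ}
  (𝒮 : Sit p X σ ι K G₀ G ν) {R : CR X 𝒮.Φ.P.toDR} {k₁ : Type} [Field k₁] [Algebra k k₁]
  {D₁ : Derivation ℤ k₁ k₁} {L : ∀ i, IntermediateField (K i) (Cb (K i))}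
  (𝓛 : LFam 𝒮.Φ.B D₁ (fun i => L i) G) {s : ℕ} (Q : Fin s → R.A →ₐ[k] k₁)
  (g : Fin s → Option σ → k)

/-- arcs on the section by `g'` -/
def Sit.AC (i : ι) (c : ℕ) (g' : σ → Fm X.N k) : Prop :=
  𝓛.ArcP R Q g i c fun _ z => ∀ j, eval₂ ((𝓛.e i).comp (algebraMap k k₁)) z (g' j) = 0

/-- arcs on which `a` is constant -/
def Sit.AK (i : ι) (c : ℕ) (a : G₀) : Prop :=
  𝓛.ArcP R Q g i c fun j z => 𝒮.pt i a (L i) (upv z) =
    𝒮.pt i a (L i) (upv (R.pv ((𝓛.e i).comp (Q j))))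

/-- the family comes from extensions of the completions -/
def Sit.Fam : Prop := ∀ i, (𝒮.𝒦 i).Ext (𝓛.Λ i) ∧
  ∀ a, 𝓛.e i (algebraMap k k₁ a) = algebraMap (K i) (L i) (algebraMap k (K i) a)

variable {𝒮 𝓛 Q g}

theorem Sit.Fam.e (h : 𝒮.Fam 𝓛) (i : ι) : (𝓛.e i).comp (algebraMap k k₁) = algebraMap k (L i) :=
  RingHom.ext fun a => ((h i).2 a).trans (nf_alg a).symm

theorem Sit.Fam.alg (h : 𝒮.Fam 𝓛) (i : ι) (Q : R.A →ₐ[k] k₁) (a : k) :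
    (𝓛.e i).comp Q (algebraMap k R.A a) = algebraMap k (L i) a := by
  rw [← h.e i]
  exact congrArg (𝓛.e i) (Q.commutes a)

theorem Sit.AK.arc (hF : 𝒮.Fam 𝓛) {i : ι} {c : ℕ} {η : Option (Option σ) → R.A}
    (hη : 𝒮.Φ.δ (up1 R.A.val η) ∈ 𝒮.Bw) (h : 𝒮.AK 𝓛 Q g i c (𝒮.Φ.δ (up1 R.A.val η))) :
    𝓛.Arc R.P (Set.range R.y) Q g i c η := fun j r ε hr hε => by
  obtain ⟨x, h1, h2, h3⟩ := h j r ε hr hε
  have hq := hF.alg i (Q j)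
  have hx : ∀ a, x (algebraMap k R.A a) = algebraMap k (L i) a := fun a => (h1 a).trans (hq a)
  exact ⟨x, h1, h2, (𝒮.val R i (L i) _ (hF i).1 x _ (R.on x hx) (R.ev_pv x hx) η hη).symm.trans
    (h3.trans (𝒮.val R i (L i) _ (hF i).1 _ _ (R.on _ hq) (R.ev_pv _ hq) η hη))⟩

variable [FiniteDimensional k k₁] [Algebra.IsSeparable k k₁]

theorem Sit.kg_eq (hF : 𝒮.Fam 𝓛) {i : ι} {d : ℕ} {g' : σ → Fm X.N k}
    (hv : ∀ j, (R.jets Q g).Van d (g' j)) {a : G₀} (ha : 𝒮.KG i a g') (j : Fin s)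
    {x : R.A →+* L i} (h1 : ∀ a, x (algebraMap k R.A a) = (𝓛.e i).comp (Q j) (algebraMap k R.A a))
    (h3 : ∀ l, eval₂ ((𝓛.e i).comp (algebraMap k k₁)) (R.pv x) (g' l) = 0) :
    𝒮.pt i a (L i) (upv (R.pv x)) = 𝒮.pt i a (L i) (upv (R.pv ((𝓛.e i).comp (Q j)))) := by
  have hq := hF.alg i (Q j)
  refine Kl.two ha (hF i).1.fd (nf_onG (R.on x fun a => (h1 a).trans (hq a)) fun l => ?_)
    (nf_onG (R.on _ hq) fun l => ?_)
  · rw [aeval_def, ← hF.e i]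
    exact h3 l
  · have := (R.pv_aeval (Q j : R.A →+* k₁) (Q j).commutes _).symm.trans ((hv l).2 j).1
    rw [R.pv_aeval _ hq, RingHom.comp_apply, this]
    exact map_zero _

theorem Sit.fr_ak (hF : 𝒮.Fam 𝓛) {i : ι} {c d : ℕ} {g' : σ → Fm X.N k}
    (hv : ∀ j, (R.jets Q g).Van d (g' j)) (h : 𝒮.AC 𝓛 Q g i c g') {a : G₀} (ha : 𝒮.KG i a g') :
    𝒮.AK 𝓛 Q g i c a := fun j r ε hr hε => by
  obtain ⟨x, h1, h2, h3⟩ := h j r ε hr hε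
  exact ⟨x, h1, h2, Sit.kg_eq hF hv ha j h1 h3⟩

theorem Sit.fr_arc (hF : 𝒮.Fam 𝓛) (hg : ∀ j, g j ≠ 0) (hJ : X.JOk (R.jets Q g))
    {c : Chart k σ X.N (X.IK k)} {Φ : MP σ k} (h : X.ZCh (R.jets Q g) c Φ) :
    ∃ b₀ M, FinS b₀ ∧ ∀ i d g', (∀ j, (R.jets Q g).Van d (g' j)) →
      𝒮.Cl i c (b₀ i) M g' → 𝒮.AC 𝓛 Q g i (b₀ i) g' := by
  obtain ⟨b₀, M, h1, h2⟩ := 𝓛.arc R 𝒮.Φ.cmp Q hg (fun i => (𝒮.𝒦 i).w)
    (fun i => algebraMap (K i) (L i)) (fun i => (hF i).1.ovr)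
    (fun i => ⟨(hF i).1.nrm, (hF i).1.cpl⟩) (fun i => (hF i).2) h.van (zch_ind hJ h) h.l0
  exact ⟨b₀, M, h1, fun i d g' hv hc => h2 i d g' hv ((𝒮.loc i).π ▸ hc)⟩

omit [FiniteDimensional k k₁] [Algebra.IsSeparable k k₁] in
/-- the points of the arcs tend to the jet -/
theorem Sit.near (hF : 𝒮.Fam 𝓛) (i : ι) (c : ℕ) (j : Fin s) {δ : ℝ} (hδ : 0 < δ) :
    ∃ c', ∀ (r : ℤ) (ε : L i) (x : R.A →+* L i), (c' : ℕ) < r → (𝓛.Λ i).bd (-r) ε →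
      (∀ a, x (algebraMap k R.A a) = (𝓛.e i).comp (Q j) (algebraMap k R.A a)) →
      (∀ f ∈ Set.range R.y, R.P.Tay (𝓛.Λ i) ((𝓛.e i).comp (Q j)) x
        (fun l => 𝓛.e i (algebraMap k k₁ (g j l))) ε (c - 2 * r) f) →
      Near (ν i) δ (L i) (upv (R.pv ((𝓛.e i).comp (Q j)))) (upv (R.pv x)) := by
  obtain ⟨C, -, hC⟩ := nb3_tay 𝓛 (R.cmp 𝒮.Φ.cmp) R.genI (Q j) (fun l => algebraMap k k₁ (g j l))
    (Set.finite_range R.g)
  obtain ⟨r₀, hr₀⟩ := (𝒮.nu i).small_ext (hF i).1 hδ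
  have hv := (𝓛.Λ i).vp
  choose b hb using fun l => hv.exists_bd (R.P.grad ((𝓛.e i).comp (Q j))
    (fun l => 𝓛.e i (algebraMap k k₁ (g j l))) (R.g l))
  refine ⟨c + C i c + r₀ + ∑ l, b l, fun r ε x hr hε h1 h2 l => ⟨(R.pv x l).2, ?_⟩⟩
  have hl : b l ≤ ∑ l, b l := Finset.single_le_sum (fun _ _ => Nat.zero_le _) (Finset.mem_univ l)
  have h3 := hC i c r ε x (by omega) (by omega) hε h1 h2 _ ⟨l, rfl⟩
  have h4 := (hv.mono h3 (s := -r₀) (by omega)).add (hv.mul_le hε (hb l) (t := -r₀) (by omega))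
  rw [sub_add_cancel] at h4
  exact hr₀ _ h4

theorem Sit.fr_lc (hF : 𝒮.Fam 𝓛) (i : ι) (c : ℕ) {a' : G₀} (ha' : a' ∈ 𝒮.Bw) :
    ∃ c', ∀ c'', c' ≤ c'' → ∀ d g', (∀ j, (R.jets Q g).Van d (g' j)) → 𝒮.AC 𝓛 Q g i c g' →
      ∀ a ∈ 𝒮.Bw, 𝒮.KG i a g' → 𝒮.AK 𝓛 Q g i c'' (a - a') := by
  have hp := fun j => nf_ptl (hF i).1.fd (R.on _ (hF.alg i (Q j)))
  choose δ hδ H using fun j => 𝒮.lc a' ha' i _ _ (hp j)
  choose C hC using fun j => Sit.near (Q := Q) (g := g) hF i c j (hδ j)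
  refine ⟨c + ∑ j, C j, fun c'' hc d g' hv h a ha hk j r ε hr hε => ?_⟩
  have hl : C j ≤ ∑ j, C j := Finset.single_le_sum (fun _ _ => Nat.zero_le _) (Finset.mem_univ j)
  obtain ⟨x, h1, h2, h3⟩ := h j r ε (by omega) hε
  refine ⟨x, h1, fun f hf => (h2 f hf).mono (by omega), ?_⟩
  have hx := nf_ptl (hF i).1.fd (R.on x fun a => (h1 a).trans (hF.alg i (Q j) a))
  have e1 := 𝒮.add i _ (sub_mem ha ha') _ ha' _ _ hx
  have e2 := 𝒮.add i _ (sub_mem ha ha') _ ha' _ _ (hp j)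
  rw [sub_add_cancel] at e1 e2
  rw [H j _ (hC j r ε x (by omega) hε h1 h2) hx.on, Sit.kg_eq hF hv hk j h1 h3, e2] at e1
  exact (add_right_cancel e1).symm

omit [FiniteDimensional k k₁] [Algebra.IsSeparable k k₁] in
theorem Sit.fr_fin [Fact p.Prime] [CharP k p] (hF : 𝒮.Fam 𝓛) {E : Set (Option (Option σ) → X.F)}
    (hE : ∀ a ∈ 𝒮.Bw, p • a = 0 → ∃ η ∈ Submodule.span k E, 𝒮.Φ.δ η = a)
    {T : Set (Option (Option σ) → R.A)} (hT : T.Finite) (hD : R.P.Det p T D₁ Q g) {H Bf : Set X.F}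
    (h : ∀ c, FinS c → ∀ S' : Set ι, S'.Finite → ∃ Γ : Set G₀, Γ.Finite ∧
      ∀ η ∈ Submodule.span k E, (∀ i, 𝒮.Φ.H2 i (c i) (𝒮.Φ.δ η) (up1 R.A.val '' T)) →
        (∀ i ∉ S', 𝒮.Φ.H3 i (𝒮.Φ.δ η) (up1 R.A.val '' T) ∧
          𝒮.Φ.TOK i (𝒮.Φ.δ η) (up1 R.A.val '' T) H Bf) →
        ∃ γ ∈ Γ, ∃ b : k, 𝒮.Φ.δ η = γ + 𝒮.Φ.δ (b • bdt (Option σ) (1 : X.F)))
    {c : ι → ℕ} (hc : FinS c) {S : Set ι} (hS : S.Finite) :
    ∃ Γ : Set G₀, Γ.Finite ∧ ∀ a ∈ 𝒮.Bw, p • a = 0 → (∀ i, 𝒮.AK 𝓛 Q g i (c i) a) →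
      (∀ i ∉ S, 𝒮.Φ.TOK i a (up1 R.A.val '' T) H Bf) → ∃ γ ∈ Γ, a - γ ∈ 𝒮.Cst := by
  have := charP_of_injective_algebraMap (algebraMap k X.F).injective p
  obtain ⟨C, S₀, h0, h1, h2⟩ := LFam.h23 𝒮.Φ 𝓛 R.A.val Subtype.val_injective R.hd
    (R.cmp 𝒮.Φ.cmp) R.ch R.genI hT hD
  obtain ⟨Γ, hΓ, h3⟩ := h (fun i => C i (c i)) ((h0.and hc).mono fun i hi => hi.2 ▸ hi.1)
    (S ∪ S₀ ∪ {i | ¬c i = 0}) ((hS.union h1).union hc)
  refine ⟨Γ, hΓ, fun a ha hp hA hK => ?_⟩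
  obtain ⟨η, hη, rfl⟩ := hE a ha hp
  have h4 := fun i => h2 i (c i) _ fun η' e => Sit.AK.arc hF (e ▸ ha) (e ▸ hA i)
  obtain ⟨γ, hγ, b, e⟩ := h3 η hη (fun i => (h4 i).1) fun i hi =>
    ⟨(h4 i).2 (fun h => hi (Or.inl (Or.inr h))) (not_not.1 fun h => hi (Or.inr h)),
      hK i fun h => hi (Or.inl (Or.inl h))⟩
  exact ⟨γ, hγ, by rw [e, add_sub_cancel_left]; exact 𝒮.cst_δ b⟩

end Pool.Agent.ZFN
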