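import Pool.Agent.Lib.MP_751085_ag.ZF.N.R3
import Pool.Agent.Lib.MP_751085_ag.ZC.CMap

/-! Lifts of the points of the reduced fibre curve. -/

namespace Pool.Agent.ZFN

open Pool.Agent.ZCy
open scoped Classical
open MvPolynomial

variable {O σ : Type} [CommRing O] [Fintype σ] {N : ℕ} {GG : Set (Fm N O)} (c : Chart O σ N GG)

/-- a polynomial in `ξ` and `Z` as a polynomial in the variables `Option (Option σ)` -/
noncomputable abbrev mv {ι : Type} (P : Polynomial (MP ι O)) : MP (Option ι) O :=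
  (optionEquivLeft O ι).symm P

theorem eval₂_mv {ι S : Type} [CommRing S] (φ : O →+* S) (y : Option ι → S)
    (P : Polynomial (MP ι O)) : eval₂ φ y (mv P) = ev φ (fun i => y (some i)) (y none) P := by
  rw [eval₂_tp, tp, AlgEquiv.apply_symm_apply]

/-- the point `(z, t, 0)` -/
def pt0 (σ : Type) {S : Type} [Zero S] (t z : S) : Option (Option σ) → S :=
  fun i => i.elim z (ax σ t)

theorem nr5a_X {ι : Type} (i : ι) :
    (optionEquivLeft O ι).symm (Polynomial.C (X i)) = X (some i) :=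
  (optionEquivLeft O ι).symm_apply_eq.2 (optionEquivLeft_X_some O ι i).symm

theorem nr5a_der {ι : Type} (P : Polynomial (MP ι O)) :
    pderiv none (mv P) = mv (Polynomial.derivative P) :=
  (optionEquivLeft O ι).eq_symm_apply.2
    ((tp_pderiv _).trans (by rw [tp, AlgEquiv.apply_symm_apply]))

theorem nr5a_sb {ι S : Type} [CommRing S] (ρ : O →+* S) (p : Fin (N + 1) → Polynomial (MP ι O))
    (G : Fm N O) : aeval (fun j => map ρ (mv (p j))) (map ρ G) = map ρ (mv (sb p G)) := by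
  induction G using MvPolynomial.induction_on with
  | C a =>
    rw [map_C, aeval_C, sb, eval₂Hom_C, show mv ((Polynomial.C.comp C) a) = C a from
      (optionEquivLeft O ι).symm_apply_eq.2 (optionEquivLeft_C O ι a).symm, map_C]
    rfl
  | add p q hp hq => simp only [map_add, hp, hq]
  | mul_X q i hq => simp only [map_mul, hq, map_X, aeval_X, sb, eval₂Hom_X']

theorem nr5a_dX {I S : Type} [Fintype I] [CommRing S] (x u : I → S) (i : I) :
    dd1 x u (X i) = u i := by
  simp [dd1, pderiv_X, Pi.single_apply]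

theorem nr5a_dC {I S : Type} [Fintype I] [CommRing S] (x u : I → S) (a : S) :
    dd1 x u (C a) = 0 := by
  simp [dd1]

/-- the point `(z, t, 0)` is a simple solution of the system -/
theorem Chart.jd_ne {κ : Type} [Field κ] (ρ : O →+* κ) {t z : κ} (h1 : ev ρ (ax σ t) z c.χ = 0)
    (h2 : eval₂ ρ (ax σ t) c.D ≠ 0) :
    (∀ i, eval (pt0 σ t z) (sys (map ρ (mv c.χ)) (X (some none) - C t)
      (fun j => map ρ (mv (c.pp j))) (fun i => map ρ (c.f (some (some i)))) i) = 0) ∧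
    jd (sys (map ρ (mv c.χ)) (X (some none) - C t) (fun j => map ρ (mv (c.pp j)))
      fun i => map ρ (c.f (some (some i)))) (pt0 σ t z) ≠ 0 := by
  have ex : ∀ P, eval (pt0 σ t z) (map ρ (mv P)) = ev ρ (ax σ t) z P := fun P => by
    rw [eval_map, eval₂_mv]
    rfl
  have h3 := ((ex _).trans_ne (c.ne κ ρ _ z h1 h2).1)
  have h4 := (ex _).trans h1
  have h5 : ∀ i, ∃ q, aeval (fun j => map ρ (mv (c.pp j))) (map ρ (c.f (some i))) -
      X (some i) * map ρ (mv (sb c.pp (c.f none))) = map ρ (mv c.χ) * q := fun i => by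
    obtain ⟨q, hq⟩ := c.dv_f i
    refine ⟨map ρ (mv q), ?_⟩
    rw [← map_mul, ← map_mul, ← hq, map_sub, map_sub, map_mul, map_mul, nr5a_sb, nr5a_X, map_X]
  refine ⟨fun i => ?_, ZFN.jd_ne fun u hu => ?_⟩
  · rcases i with _ | _ | i
    · exact h4
    · exact (map_sub _ _ _).trans (by rw [eval_X, eval_C]; exact sub_self t)
    · obtain ⟨q, hq⟩ := h5 (some i)
      have h6 := congrArg (eval (pt0 σ t z)) hq
      rwa [map_sub, map_mul, map_mul, h4, eval_X, show pt0 σ t z (some (some i)) = 0 from rfl,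
        zero_mul, zero_mul, sub_zero] at h6
  have h6 : dd1 (pt0 σ t z) u (map ρ (mv c.χ)) = 0 := hu none
  have h7 : ∀ i, u (some i) = 0 := by
    rintro (_ | i)
    · have h7 : dd1 (pt0 σ t z) u (X (some none) - C t) = 0 := hu (some none)
      rwa [dd1_sub, nr5a_dX, nr5a_dC, sub_zero] at h7
    · obtain ⟨q, hq⟩ := h5 (some i)
      have h7 := congrArg (dd1 (pt0 σ t z) u) hq
      rw [dd1_sub, dd1_mul, dd1_mul, h4, h6, eval_X, show pt0 σ t z (some (some i)) = 0 from rfl,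
        nr5a_dX, show dd1 _ u (aeval _ _) = 0 from hu (some (some i)), zero_mul, zero_mul, mul_zero,
        add_zero, zero_add, zero_sub, neg_eq_zero] at h7
      exact (mul_eq_zero.1 h7).resolve_left h3
  obtain ⟨α, β, hb⟩ := c.bez
  have h8 := congrArg (ev ρ (ax σ t) z) hb
  rw [map_add, map_mul, map_mul, h1, mul_zero, zero_add, ev_def, Polynomial.eval₂_C] at h8
  rw [dd1, Fintype.sum_option, Finset.sum_eq_zero fun i _ => by rw [h7, mul_zero], add_zero,
    pderiv_map, nr5a_der, ex] at h6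
  funext i
  rcases i with _ | i
  · exact (mul_eq_zero.1 h6).resolve_left (right_ne_zero_of_mul (h8.symm.trans_ne h2))
  · exact h7 i

section hens

variable {L I κ : Type} [Field L] [Field κ] {w : Vl L} {ϖ : L} {ρ : w.integer →+* κ} {e : ℕ}

theorem nr5b_pbd {S : Type} [CommRing S] (α : S →+* L) (h : ∀ a, w (α a) ≤ 1) {P : MP I S}
    (hP : P.totalDegree ≤ e) : PBd w ϖ 0 e (map α P) :=
  ⟨(totalDegree_map_le' α P).trans hP, fun m => bd_iff.2 (by rw [coeff_map]; exact h _)⟩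

theorem nr5b_near (hρ : IsRed w ρ) {y : I → L} {x : I → w.integer}
    (h : ∀ i, w (y i - x i) < 1) :
    ∃ y' : I → w.integer, (fun i => (y' i : L)) = y ∧ ∀ i, ρ (y' i) = ρ (x i) :=
  ⟨fun i => ⟨y i, by
    rw [← sub_add_cancel (y i) (x i)]
    exact w.map_add_le (h i).le (x i).2⟩, rfl, fun i => (hρ.eq_iff _ _).2 (h i)⟩

theorem nr5b_eval (P : MP I w.integer) (x : I → w.integer) :
    eval (fun i => (x i : L)) (map w.integer.subtype P) = (eval x P : w.integer) := by
  rw [eval_map, ← eval₂_id, ← RingHom.comp_id w.integer.subtype]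
  exact (eval₂_comp_left w.integer.subtype _ _ P).symm

variable [Fintype I]

theorem nr5b_rg (hρ : IsRed w ρ) {Φ : I → MP I w.integer} (hΦ : ∀ i, (Φ i).totalDegree ≤ e)
    {x : I → w.integer} (h : ρ (jd Φ x) ≠ 0) :
    Rg w ϖ 0 e (fun i => map w.integer.subtype (Φ i)) fun i => x i := by
  have h1 : w (jd (fun i => map w.integer.subtype (Φ i)) fun i => x i) = 1 :=
    (congrArg w (map_jd w.integer.subtype Φ x)).symm.trans ((hρ.ne_zero _).1 h)
  refine ⟨fun i => nr5b_pbd _ (fun a => a.2) (hΦ i), fun i => bd_iff.2 (x i).2, fun h0 => ?_,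
    bd_iff.2 (by rw [map_inv₀, h1, inv_one])⟩
  rw [h0, map_zero] at h1
  exact zero_ne_one h1

/-- the lemma of Hensel for systems -/
theorem nr5b_hens (hv : VC w ϖ) (hρ : IsRed w ρ) {Φ : I → MP I w.integer}
    (hΦ : ∀ i, (Φ i).totalDegree ≤ e) {x : I → w.integer} (h0 : ∀ i, ρ (eval x (Φ i)) = 0)
    (h : ρ (jd Φ x) ≠ 0) : ∃ y : I → w.integer, (∀ i, ρ (y i) = ρ (x i)) ∧
      (∀ i, eval (fun i => (y i : L)) (map w.integer.subtype (Φ i)) = 0) ∧
      Rg w ϖ 0 e (fun i => map w.integer.subtype (Φ i)) fun i => y i := by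
  obtain ⟨u, hu⟩ := hv.nrm
  obtain ⟨y, h1, h2⟩ := (nr5b_rg hρ hΦ h).newt ⟨vp_of_unif hu, hv.nrm, hv.cpl⟩ (s := 1)
    (fun i => (bd_neg_one hu).2 (by rw [nr5b_eval]; exact (hρ _).1 (h0 i))) (by simp)
  obtain ⟨y, rfl, h3⟩ := nr5b_near hρ (y := y) (x := x) fun i =>
    (vp_of_unif hu).lt_one (h2 i) (by simp)
  refine ⟨y, h3, h1, nr5b_rg hρ hΦ ?_⟩
  rw [map_jd] at h ⊢
  rwa [funext h3]

end hens

/-- Lift `t`, `z`; the system over `w.integer` has a unit Jacobian (`map_jd`); `Rg.newt` with a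
uniformiser of `L` gives a solution for `f`, then `sys_lift`. -/
theorem Chart.lift : ∃ M : ℕ → ℕ, ∀ (K L : Type) [Field K] [Field L] (ψ : O →+* K) (φ : K →+* L)
    (v : Vl K) (w : Vl L) (π : K), (∀ a, v (ψ a) ≤ 1) → Over φ v w → VC w (φ π) →
    ∀ (κ : Type) [Field κ] (ρ : O →+* κ) (ρ' : w.integer →+* κ) (S : ℕ), RedS w ρ' S →
    (∀ (a : O) (y : w.integer), (y : L) = φ (ψ a) → ρ' y = ρ a) →
    ∀ (l : Fm N O) (t z : κ), RPt c l ρ S t z → ∀ G : σ → Fm N K,
    Close v π (fun i => map ψ (c.f (some (some i)))) (map ψ c.l0) 0 M G →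
    ∃ x : Fin (N + 1) → w.integer, (∀ j, ρ' (x j) = c.pv ρ (ax σ t) z j) ∧
      (fun j => (x j : L)) ≠ 0 ∧ Zer GG (φ.comp ψ) (fun j => (x j : L)) ∧
      ∀ i, eval₂ φ (fun j => (x j : L)) (G i) = 0 := by
  let Φ₀ := sys (mv c.χ) 0 (fun j => mv (c.pp j)) fun i => c.f (some (some i))
  obtain ⟨e, e1, e2, e3, e4⟩ : ∃ e : ℕ, 1 ≤ e ∧ (∀ i, (Φ₀ i).totalDegree ≤ e) ∧
      (∀ j, (mv (c.pp j)).totalDegree ≤ e) ∧ c.d ≤ e := by
    obtain ⟨a, ha⟩ := Finite.exists_le fun i => (Φ₀ i).totalDegree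
    obtain ⟨b, hb⟩ := Finite.exists_le fun j => (mv (c.pp j)).totalDegree
    exact ⟨1 + a + b + c.d, by omega, fun i => (ha i).trans (by omega),
      fun j => (hb j).trans (by omega), by omega⟩
  obtain ⟨M, hM⟩ := sys_lift σ N e
  refine ⟨M, fun K L _ _ ψ φ v w π hψ ho hv κ _ ρ ρ' S hS hρ l t z hp G hG => ?_⟩
  have hα : ∀ a, w (φ.comp ψ a) ≤ 1 := fun a => (ho _).2 (hψ a)
  let α : O →+* w.integer := (φ.comp ψ).codRestrict w.integer hα
  have a1 : w.integer.subtype.comp α = φ.comp ψ := rfl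
  have a2 : ρ'.comp α = ρ := RingHom.ext fun a => hρ a _ rfl
  obtain ⟨t', rfl⟩ := (hS.rng t).2 hp.ht
  obtain ⟨z', rfl⟩ := (hS.rng z).2 hp.hz
  let Φ := sys (map α (mv c.χ)) (X (some none) - C t') (fun j => map α (mv (c.pp j)))
    fun i => map α (c.f (some (some i)))
  have hΦ : ∀ i, (Φ i).totalDegree ≤ e := by
    rintro (_ | _ | i)
    · exact (totalDegree_map_le' α _).trans (e2 none)
    · exact (totalDegree_sub_C_le _ _).trans ((totalDegree_X_le _).trans e1)
    · have h1 : map α (Φ₀ (some (some i))) = Φ (some (some i)) :=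
        map_sys α (mv c.χ) 0 (fun j => mv (c.pp j)) (fun i => c.f (some (some i))) (some (some i))
      exact h1 ▸ (totalDegree_map_le' α _).trans (e2 (some (some i)))
  have b1 : ∀ i, map ρ' (Φ i) = sys (map ρ (mv c.χ)) (X (some none) - C (ρ' t'))
      (fun j => map ρ (mv (c.pp j))) (fun i => map ρ (c.f (some (some i)))) i := fun i => by
    simp only [Φ, map_sys, map_map, a2, map_sub, map_X, map_C]
  have b2 : (fun i => map w.integer.subtype (Φ i)) =
      sys (map (φ.comp ψ) (mv c.χ)) (X (some none) - C (t' : L))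
        (fun j => map (φ.comp ψ) (mv (c.pp j))) fun i => map φ (map ψ (c.f (some (some i)))) := by
    funext i
    simp only [Φ, map_sys, map_map, a1, map_sub, map_X, map_C, Subring.coe_subtype]
  have b3 : (fun i => ρ' (pt0 σ t' z' i)) = pt0 σ (ρ' t') (ρ' z') := by
    funext i
    rcases i with _ | _ | i
    exacts [rfl, rfl, map_zero ρ']
  obtain ⟨j1, j2⟩ := Chart.jd_ne c ρ hp.on hp.off
  obtain ⟨y, y1, y2, y3⟩ := nr5b_hens hv hS.red hΦ (x := pt0 σ t' z')
    (fun i => by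
      rw [← j1 i, ← b1, ← b3, eval_map, ← eval₂_id, eval₂_comp_left, RingHom.comp_id]
      rfl)
    (by rwa [map_jd, funext b1, b3])
  have c1 : ∀ x : Option (Option σ) → w.integer, (∀ i, ρ' (x i) = ρ' (pt0 σ t' z' i)) →
      ∀ j, ρ' (eval₂ α x (mv (c.pp j))) = c.pv ρ (ax σ (ρ' t')) (ρ' z') j := fun x hx j => by
    rw [eval₂_comp_left, a2, show ρ' ∘ x = pt0 σ (ρ' t') (ρ' z') from (funext hx).trans b3,
      eval₂_mv]
    rfl
  have c2 : ∀ (x : Option (Option σ) → w.integer) (j : Fin (N + 1)),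
      eval (fun i => (x i : L)) (map (φ.comp ψ) (mv (c.pp j))) =
        (eval₂ α x (mv (c.pp j)) : w.integer) := fun x j => by
    rw [eval_map, ← a1]
    exact (eval₂_comp_left w.integer.subtype _ _ _).symm
  have c3 : eval₂ ρ (c.pv ρ (ax σ (ρ' t')) (ρ' z')) c.l0 ≠ 0 := by
    have := (c.ne κ ρ _ _ hp.on hp.off).2
    rwa [ev_sb] at this
  rw [b2] at y3
  obtain ⟨x, x1, x2, x3⟩ := hM K L φ v w π ho hv _ _ _ _ G _ _ hG
    (fun j => nr5b_pbd _ hα (e3 j))
    (fun i => nr5b_pbd _ hψ ((c.hf _).totalDegree_le.trans e4)) y3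
    (fun i => by rw [← b2]; exact y2 i) (by
      rw [eval₂_map, funext (c2 y), ← a1]
      refine (congrArg w (eval₂_comp_left w.integer.subtype α _ c.l0)).symm.trans
        ((hS.red.ne_zero _).1 ?_)
      rw [eval₂_comp_left, a2]
      exact fun h => c3 ((congrArg (fun q => eval₂ ρ q c.l0) (funext (c1 y y1))).symm.trans h))
  obtain ⟨x, rfl, x4⟩ := nr5b_near hS.red x3
  have x5 := c1 x fun i => (x4 i).trans (y1 i)
  refine ⟨fun j => eval₂ α x (mv (c.pp j)), x5, fun h => c3 ?_, fun H hH => ?_, fun i => ?_⟩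
  · have h1 : c.pv ρ (ax σ (ρ' t')) (ρ' z') = fun _ => 0 := funext fun j => by
      rw [← x5, show eval₂ α x (mv (c.pp j)) = 0 from Subtype.ext (congrFun h j), map_zero]
    rw [h1, eval₂_eq]
    refine Finset.sum_eq_zero fun m hm => ?_
    rw [Finset.prod_pow_eq_pow_sum, ← c.hl.degree_eq_sum_deg_support hm, pow_one,
      mul_zero]
  · obtain ⟨q, hq⟩ := c.dv_on H hH
    rw [eval_map, eval₂_mv] at x1
    simp only [← c2]
    simp only [eval_map, eval₂_mv]
    rw [← ev_sb, hq, map_mul, x1, zero_mul]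
  · simp only [← c2]
    exact x2 i

end Pool.Agent.ZFN
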