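import Pool.Agent.Lib.MP_751085_ag.ZF.N.F1
import Pool.Agent.Lib.MP_751085_ag.ZF.N.R5
import Pool.Agent.Lib.MP_751085_ag.ZF.N.C6
import Pool.Agent.Lib.MP_751085_ag.ZC.CSp1

/-! The frame: the tame step. -/

namespace Pool.Agent.ZFN

open Pool.Agent.ZCy
open scoped Classical
open MvPolynomial Filter

section loc

variable {O L κ I : Type} [CommRing O] [Field L] [Field κ] {w : Vl L}

theorem red_eval {φ : O →+* L} (hφ : ∀ a, w (φ a) ≤ 1) {ρ : O →+* κ} {ρ' : w.integer →+* κ}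
    (h : ∀ (a : O) (y : w.integer), (y : L) = φ a → ρ' y = ρ a) (x : I → w.integer) (G : MP I O) :
    ∃ y : w.integer, (y : L) = eval₂ φ (fun j => (x j : L)) G ∧
      ρ' y = eval₂ ρ (fun j => ρ' (x j)) G := by
  refine ⟨eval₂ (φ.codRestrict w.integer hφ) x G, eval₂_comp_left w.integer.subtype _ _ _,
    (eval₂_comp_left ρ' _ _ _).trans ?_⟩
  rw [show ρ'.comp (φ.codRestrict w.integer hφ) = ρ from RingHom.ext fun a => h a _ rfl]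
  rfl

theorem red_div {ρ' : w.integer →+* κ} (hρ : IsRed w ρ') (a b : w.integer) (hb : ρ' b ≠ 0) :
    ∃ y : w.integer, (y : L) = a / b ∧ ρ' y = ρ' a / ρ' b := by
  have h1 : w b = 1 := le_antisymm b.2 (not_lt.1 fun h => hb ((hρ b).2 h))
  have h0 : (b : L) ≠ 0 := fun h => by simp [h] at h1
  have h2 : w (a / b) ≤ 1 := by
    rw [map_div₀, h1, div_one]
    exact a.2
  refine ⟨⟨_, h2⟩, rfl, ?_⟩
  rw [eq_div_iff hb, ← map_mul]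
  exact congrArg ρ' (Subtype.ext (div_mul_cancel₀ _ h0))

theorem FinR.range (hf : FinR w) {ρ' : w.integer →+* κ} (hρ : IsRed w ρ') :
    (Set.range ρ').Finite := by
  obtain ⟨s, h1, h2⟩ := hf
  refine (Set.finite_range fun b : s => ρ' ⟨b, h1 b b.2⟩).subset ?_
  rintro _ ⟨y, rfl⟩
  obtain ⟨b, hb, h⟩ := h2 y y.2
  exact ⟨⟨b, hb⟩, (sub_eq_zero.1 ((map_sub ρ' _ _).symm.trans
    ((hρ (y - ⟨b, h1 b hb⟩)).2 h))).symm⟩

/-- the pull-back of an integral form plus `b dt / ϖ` -/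
theorem LocF.κ_pb {A τ G : Type} [CommRing A] [Fintype τ] [AddCommGroup G] (Λ : LocF L G)
    (hc : Λ.c = 0) (P : DR A (Option τ)) (x : A →+* L) (h1 : Λ.D (x (P.u none)) = 1)
    (hu : ∀ j, Λ.bd 0 (x (P.u j))) {α : Option τ → A} (hα : ∀ j, Λ.bd 0 (x (α j))) (b : A) :
    Λ.κ (P.pb Λ.D x (α + bdt τ b)) = Λ.κ (x b) := by
  have e : P.pb Λ.D x (bdt τ b) = x b := by
    simp [DR.pb, Fintype.sum_option, bdt_none, bdt_some, h1]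
  rw [DR.pb_add, map_add, e, Λ.int (P.pb Λ.D x α), zero_add]
  refine bd_sum fun j _ => Λ.vp.mul_le (hα j) (Λ.der _ (bd_iff.1 (hu j))) ?_
  simp [hc]

end loc

variable {k : Type} [Field k] {X : Var k}

theorem model_on {O : Subring k} {GG : Set (Fm X.N O)} (h : X.Model (K := k) GG) {M : Type}
    [Field M] [Algebra k M] {z : Fin (X.N + 1) → M} (h0 : z ≠ 0)
    (hz : Zer GG ((algebraMap k M).comp O.subtype) z) : X.On z := by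
  refine ⟨h0, fun G hG => (Zer.map_image.2 hz).span ?_⟩
  rw [← X.IK_self] at hG
  exact h.2.ge (Ideal.subset_span hG)

variable {p : ℕ} {σ ι : Type} [Fintype σ] {K : ι → Type} [∀ i, Field (K i)]
  [∀ i, Algebra k (K i)] [∀ i, TopologicalSpace (K i)] {G₀ : Type} [AddCommGroup G₀]
  {G : ι → Type} [∀ i, AddCommGroup (G i)] {ν : ∀ i, AbsoluteValue (Cb (K i)) ℝ}
  {𝒮 : Sit p X σ ι K G₀ G ν} {R : CR X 𝒮.Φ.P.toDR} [Fact p.Prime] [CharP k p] {i : ι}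
  {L : IntermediateField (K i) (Cb (K i))} {Λ : LocF L (G i)}

omit [Fact p.Prime] [CharP k p] in
theorem Sit.bd_alg (h : (𝒮.𝒦 i).Ext Λ) {r : ℤ} {a : k} :
    Λ.bd r (algebraMap k L a) ↔ 𝒮.Φ.B.bd i r a := by
  rw [LocF.bd, h.ϖ, (𝒮.loc i).π, nf_alg a, bd_map _ h.ovr]
  exact bd_map _ fun a => by rw [(𝒮.loc i).w]

/-- the value at a point at which the coordinates are integral -/
theorem Sit.val_tame (h : (𝒮.𝒦 i).Ext Λ) (hc : Λ.c = 0) {S : Set R.A} (hu : ∀ j, R.P.u j ∈ S)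
    {α : Option (Option σ) → R.A} (hα : ∀ j, α j ∈ 𝒮.Φ.B.lat i 0 S) (β : R.A)
    (hB : 𝒮.Φ.δ (up1 R.A.val (α + bdt _ ((𝒮.Φ.B.π i)⁻¹ • β))) ∈ 𝒮.Bw) {x : R.A →+* L}
    {z : Fin (X.N + 1) → L} (hz : X.On z) (hx : R.Ev x z) (hS : ∀ f ∈ S, Λ.bd 0 (x f)) :
    𝒮.pt i (𝒮.Φ.δ (up1 R.A.val (α + bdt _ ((𝒮.Φ.B.π i)⁻¹ • β)))) L (upv z) =
      Λ.κ (x β / Λ.ϖ) := by
  have := charP_of_injective_algebraMap (algebraMap k (K i)).injective p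
  have := h.fd
  have := h.sep
  have e : ∀ (a : k) (f : R.A), x (a • f) = algebraMap k L a * x f := fun a f => by
    rw [Algebra.smul_def, map_mul, hx.1]
  rw [𝒮.val R i L Λ h x z hz hx _ hB, Λ.κ_pb hc _ x _ (fun j => hS _ (hu j)), e, map_inv₀, h.ϖ,
    (𝒮.loc i).π, nf_alg, inv_mul_eq_div]
  · intro j
    refine glat_ind (P := fun f => Λ.bd 0 (x f)) ?_ (fun a f ha hf => ?_) (fun f f' h h' => ?_)
      (hα j)
    · rw [map_zero]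
      exact bd_zero _ _ _
    · rw [e]
      exact Λ.vp.mul_le ((Sit.bd_alg h).2 ha) (hS f hf) le_rfl
    · rw [map_add]
      exact h.add h'
  · rw [(R.cmp 𝒮.Φ.cmp).u, hx.1, nf_alg, h.der, ← (𝒮.loc i).t, (𝒮.𝒦 i).pb.self, map_one]

variable {I : Type} [Fintype I] {e : I → R.A} {Gs : I → Fm X.N k} {m : ℕ}

/-- the form `α + ∑ a l e l dt / π` -/
noncomputable def Sit.tf (𝒮 : Sit p X σ ι K G₀ G ν) {R : CR X 𝒮.Φ.P.toDR} (i : ι) (e : I → R.A)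
    (α : Option (Option σ) → R.A) (a : I → (𝒮.Φ.B.v i).integer) : G₀ :=
  𝒮.Φ.δ (up1 R.A.val (α + bdt _ ((𝒮.Φ.B.π i)⁻¹ • ∑ l, (a l : k) • e l)))

/-- the functions `e l` have the denominator `l ^ m`, with integral models -/
structure Sit.Den (𝒮 : Sit p X σ ι K G₀ G ν) {R : CR X 𝒮.Φ.P.toDR} (i : ι) (e : I → R.A)
    (Gs : I → Fm X.N k) (m : ℕ) (l' : Fm X.N (𝒮.Φ.B.v i).integer)
    (G' : I → Fm X.N (𝒮.Φ.B.v i).integer) : Prop where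
  pos : 0 < m
  hom : ∀ l, (Gs l).IsHomogeneous (R.e * m)
  eq : ∀ l, (e l : X.F) = aeval X.g (Gs l) / aeval X.g (R.l ^ m)
  u : ∀ j, R.P.u j ∈ Set.range e
  l : map (𝒮.Φ.B.v i).integer.subtype l' = R.l ^ m
  G : ∀ l, map (𝒮.Φ.B.v i).integer.subtype (G' l) = Gs l

variable {l' : Fm X.N (𝒮.Φ.B.v i).integer} {G' : I → Fm X.N (𝒮.Φ.B.v i).integer}
  {α : Option (Option σ) → R.A} {a : I → (𝒮.Φ.B.v i).integer} {κ : Type} [Field κ]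
  {ρ : (𝒮.Φ.B.v i).integer →+* κ}

theorem Sit.tame_pt (h : (𝒮.𝒦 i).Ext Λ) (hc : Λ.c = 0) (hD : 𝒮.Den i e Gs m l' G')
    (hα : ∀ j, α j ∈ 𝒮.Φ.B.lat i 0 (Set.range e)) (hB : 𝒮.tf i e α a ∈ 𝒮.Bw)
    {ρ' : Λ.w.integer →+* κ} (hρ : IsRed Λ.w ρ')
    (hr : ∀ (a : (𝒮.Φ.B.v i).integer) (y : Λ.w.integer), (y : L) = algebraMap k L a → ρ' y = ρ a)
    {x : Fin (X.N + 1) → Λ.w.integer} (hz : X.On fun j => (x j : L))
    (hl : eval₂ ρ (fun j => ρ' (x j)) l' ≠ 0) : ∃ y : Λ.w.integer,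
      ρ' y = eval₂ ρ (fun j => ρ' (x j)) (∑ l, C (a l) * G' l) / eval₂ ρ (fun j => ρ' (x j)) l' ∧
      𝒮.pt i (𝒮.tf i e α a) L (upv fun j => (x j : L)) = Λ.κ (y / Λ.ϖ) := by
  have H := fun P => red_eval (φ := (algebraMap k L).comp (𝒮.Φ.B.v i).integer.subtype)
    (fun a => bd_iff.1 ((Sit.bd_alg h).2 (bd_iff.2 a.2))) hr x P
  simp only [← eval₂_map, ← aeval_def] at H
  obtain ⟨yl, h1, h2⟩ := H l'
  rw [← h2] at hl ⊢
  rw [hD.l] at h1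
  have h0 : aeval (fun j => (x j : L)) (R.l ^ m) ≠ 0 := fun h0 =>
    hl ((hρ yl).2 (by simp [h1, h0]))
  obtain ⟨ξ, hξ⟩ := R.exists_ev hz fun h' => h0 (by rw [map_pow, h', zero_pow hD.pos.ne'])
  have h3 := fun l => hξ.eq hz (hD.hom l) (R.hl.pow m) h0 (hD.eq l)
  obtain ⟨y₀, h4, h5⟩ := H (∑ l, C (a l) * G' l)
  obtain ⟨y, h6, h7⟩ := red_div hρ y₀ yl hl
  refine ⟨y, by rw [h7, h5], (Sit.val_tame h hc hD.u hα _ hB hz hξ ?_).trans ?_⟩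
  · rintro _ ⟨l, rfl⟩
    obtain ⟨y₁, h8, -⟩ := H (G' l)
    obtain ⟨y₂, h9, -⟩ := red_div hρ y₁ yl hl
    rw [h3, ← h1, ← hD.G, ← h8, ← h9]
    exact bd_iff.2 y₂.2
  · rw [h6, h4, h1]
    simp only [map_sum, map_mul, Algebra.smul_def, hξ.1, h3, map_C, aeval_C, hD.G, Finset.sum_div,
      mul_div_assoc, Subring.coe_subtype]

/-- the traces are constant on the reduced fibre curve -/
theorem Sit.tame_at (hg : (𝒮.𝒦 i).Gd) (hD : 𝒮.Den i e Gs m l' G')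
    {GG : Set (Fm X.N (𝒮.Φ.B.v i).integer)} (hG : X.Model (K := k) GG)
    {c' : Chart (𝒮.Φ.B.v i).integer σ X.N GG} {c : Chart k σ X.N (X.IK k)}
    (hc : c'.IsMap (𝒮.Φ.B.v i).integer.subtype c) : ∃ M, ∀ g, 𝒮.Cl i c 0 M g →
      ∀ α a, (∀ j, α j ∈ 𝒮.Φ.B.lat i 0 (Set.range e)) → 𝒮.tf i e α a ∈ 𝒮.Bw →
      𝒮.KG i (𝒮.tf i e α a) g → ∀ (κ : Type) [Field κ] [IsAlgClosed κ] (s : ℕ)
      (ρ : (𝒮.Φ.B.v i).integer →+* κ), FinB κ s → RedS (𝒮.Φ.B.v i) ρ s → ∀ n, 0 < n →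
      ∀ t z t' z' : κ, RPt c' l' ρ (s ^ n) t z → RPt c' l' ρ (s ^ n) t' z' →
      ∃ y : κ, y ^ s ^ n = y ∧
        eval₂ ρ (c'.pv ρ (ax σ t) z) (∑ l, C (a l) * G' l) / eval₂ ρ (c'.pv ρ (ax σ t) z) l' -
        eval₂ ρ (c'.pv ρ (ax σ t') z') (∑ l, C (a l) * G' l) /
          eval₂ ρ (c'.pv ρ (ax σ t') z') l' = y ^ p - y := by
  have := charP_of_injective_algebraMap (algebraMap k (K i)).injective p
  obtain ⟨M, hM⟩ := Chart.lift c'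
  refine ⟨M, fun g hC α a hα hB hK κ _ _ s ρ hs hρ n hn t z t' z' h1 h2 => ?_⟩
  obtain ⟨ρ₁, hρ₁, e₁⟩ := exists_red_dns (𝒮.loc i).w (𝒮.loc i).dns hρ
  obtain ⟨L, Λ, ρ', h, hΛ, hρ', e'⟩ := (𝒮.𝒦 i).exists_unr hg hs hρ₁ hn
  have := charP_of_injective_algebraMap (algebraMap k L).injective p
  have := h.fd
  have := h.sep
  have hw : ∀ a : (𝒮.Φ.B.v i).integer, (𝒮.𝒦 i).w (algebraMap k (K i) a) ≤ 1 := fun a =>
    ((𝒮.loc i).w a).trans_le a.2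
  have hr : ∀ (a : (𝒮.Φ.B.v i).integer) (y : Λ.w.integer), (y : L) = algebraMap k L a →
      ρ' y = ρ a := fun a y hy => (e' ⟨_, hw a⟩ y (hy.trans (nf_alg _))).trans (e₁ a _ rfl)
  have H : ∀ t z, RPt c' l' ρ (s ^ n) t z → ∃ (y : Λ.w.integer) (x : Fin (X.N + 1) → L),
      OnG X g (upv x) ∧ ρ' y = eval₂ ρ (c'.pv ρ (ax σ t) z) (∑ l, C (a l) * G' l) /
        eval₂ ρ (c'.pv ρ (ax σ t) z) l' ∧
        𝒮.pt i (𝒮.tf i e α a) L (upv x) = Λ.κ (y / Λ.ϖ) := fun t z ht => by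
    obtain ⟨x, h3, h4, h5, h6⟩ := hM (K i) L
      ((algebraMap k (K i)).comp (𝒮.Φ.B.v i).integer.subtype) (algebraMap (K i) L) (𝒮.𝒦 i).w Λ.w
      (𝒮.𝒦 i).π hw h.ovr ⟨h.ϖ ▸ Λ.vp, h.nrm, h.cpl⟩ κ ρ ρ' _ hρ'
      (fun a y hy => hr a y (hy.trans (nf_alg _).symm)) l' t z ht
      (fun j => map (algebraMap k (K i)) (g j)) (by
        simpa only [Sit.Cl, hc.f, hc.l0, MvPolynomial.map_map] using hC)
    have hx : X.On fun j => (x j : L) := model_on hG h4 h5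
    have h7 : (fun j => ρ' (x j)) = c'.pv ρ (ax σ t) z := funext h3
    obtain ⟨y, h8, h9⟩ := Sit.tame_pt h hΛ.c0 hD hα hB hρ'.red hr hx (h7 ▸ ht.nl)
    exact ⟨y, _, nf_onG hx fun j => (eval₂_map _ _ _ _).symm.trans (h6 j), h7 ▸ h8, h9⟩
  obtain ⟨y, x, h3, h4, h5⟩ := H t z h1
  obtain ⟨y', x', h3', h4', h5'⟩ := H t' z' h2
  obtain ⟨u, hu⟩ := hΛ.tr ρ' hρ'.red (FinR.range h.finR hρ'.red) (y - y') (by
    rw [AddSubgroupClass.coe_sub, sub_div, map_sub, ← h5, ← h5', Kl.two hK h.fd h3 h3', sub_self])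
  exact ⟨ρ' u, (hρ'.rng _).1 ⟨u, rfl⟩, by rw [← h4, ← h4', ← map_sub, hu]⟩

end Pool.Agent.ZFN
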