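import Pool.Agent.Lib.MP_751085_ag.ZF.N.F2

/-! The frame exists. -/

namespace Pool.Agent.ZFN

open Pool.Agent.ZCy
open scoped Classical
open MvPolynomial Filter

variable {k : Type} [Field k] {X : Var k} {p : ℕ} {σ ι : Type} [Fintype σ] {K : ι → Type}
  [∀ i, Field (K i)] [∀ i, Algebra k (K i)] [∀ i, TopologicalSpace (K i)] {G₀ : Type}
  [AddCommGroup G₀] {G : ι → Type} [∀ i, AddCommGroup (G i)]
  {ν : ∀ i, AbsoluteValue (Cb (K i)) ℝ} (𝒮 : Sit p X σ ι K G₀ G ν) [Fact p.Prime] [CharP k p]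

theorem P1.infinite {t : k} (h : P1 p t) : Infinite k := not_finite_iff_infinite.1 fun _ => by
  obtain ⟨z, hz⟩ := surjective_frobenius k p t
  exact h.not_pow z hz.symm

theorem Sit.exists_tame (hT : TAME0) (hG : GDV) {n : ℕ} (hX : X.Nice n)
    (hk : Algebra.EssFiniteType ℤ k) (hσ : Fintype.card σ + 1 = n) (R : CR X 𝒮.Φ.P.toDR)
    {T : Set (Option (Option σ) → R.A)} (hf : T.Finite) : ∃ (H Bf : Set X.F) (d₁ : ℕ),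
      H.Finite ∧ Bf.Finite ∧ ∀ J : Jets k X.N, X.JOk J → 0 < J.s →
      (∀ j, aeval (J.Q j) R.l ≠ 0) → ∀ c Φ, X.ZCh J c Φ → d₁ ≤ c.d → ∀ᶠ i in cofinite, ∃ M, ∀ g,
        𝒮.Cl i c 0 M g → ∀ a ∈ 𝒮.Bw, 𝒮.KG i a g → 𝒮.Φ.TOK i a (up1 R.A.val '' T) H Bf := by
  have := 𝒮.pb.infinite
  have := fun i => charP_of_injective_algebraMap (algebraMap k (K i)).injective p
  have hS : (Set.range R.P.u ∪ ⋃ j, (fun η => η j) '' T).Finite :=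
    (Set.finite_range _).union (Set.finite_iUnion fun j => hf.image _)
  obtain ⟨N, e, he⟩ := exists_range hS
  obtain ⟨m, hm, h1⟩ := R.rep_fin (Set.finite_range e)
  choose Gs h2 h3 using fun l => h1 (e l) ⟨l, rfl⟩
  rw [mul_comm] at h2
  have hT' : ∀ η ∈ T, ∀ j, η j ∈ Set.range e := fun η hη j =>
    he ▸ Or.inr (Set.mem_iUnion.2 ⟨j, η, hη, rfl⟩)
  obtain ⟨H, Bf, d₁, hH, hB, h4⟩ := hT p k ι 𝒮.Φ.B X n hX hk σ hσ _ _ (R.hl.pow m) _ Gs h2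
  refine ⟨H, Bf, d₁, hH, hB, fun J hJ hs hl c Φ hc hd => ?_⟩
  have hI : ∀ t, ∀ᶠ i in cofinite, t ∈ (𝒮.Φ.B.v i).integer.subtype.range := fun t =>
    (𝒮.Φ.B.fs t).mono fun i hi => ⟨⟨t, hi⟩, rfl⟩
  have ψ : J.K →ₐ[k] AlgebraicClosure k := IsAlgClosed.lift
  filter_upwards [h4 c Φ hc.sm hc.Φ0 hc.Ψ0 hc.all hd ⟨fun j => ψ (J.Q ⟨0, hs⟩ j), (hJ.on _).map ψ,
      fun i => by rw [← comp_aeval_apply, ((hc.van i).2 _).1, map_zero],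
      by rw [← comp_aeval_apply, map_pow]; exact (map_ne_zero ψ).2 (pow_ne_zero _ (hl _))⟩,
    hG k X n hX σ hσ ι cofinite (fun i => (𝒮.Φ.B.v i).integer) 𝒮.Φ.B.fs c Φ hc.sm hc.Φ0 hc.Ψ0
      hc.dp, LK.At.gd 𝒮.pb 𝒮.hD 𝒮.loc, lf_mp hI (R.l ^ m),
    eventually_all.2 fun l => lf_mp hI (Gs l)] with i h5 ⟨GG, c', _, _, h6, _, h7, _⟩ h8 ⟨l', h9⟩
    h10
  choose G' h10 using h10
  obtain ⟨M, hM⟩ := Sit.tame_at (e := e) h8 ⟨hm, h2, h3, fun j => he ▸ Or.inl ⟨j, rfl⟩, h9, h10⟩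
    h6 h7
  refine ⟨M, fun g hC a ha hK α hα β hβ hδ => ?_⟩
  obtain ⟨α, hα', rfl⟩ := lat_map_ex _ hα
  obtain ⟨b, hb, rfl⟩ := mem_lat_range.1 (glat_mono le_rfl
    (S' := Set.range fun l => (e l : X.F)) (by
      rintro b ⟨η, hη, h⟩
      obtain ⟨l, hl⟩ := hT' η hη none
      exact ⟨l, (congrArg Subtype.val hl).trans (congrFun h none)⟩) hβ)
  have ea : 𝒮.tf i e α (fun l => ⟨b l, bd_iff.1 (hb l)⟩) = a := by
    refine (congrArg 𝒮.Φ.δ ?_).trans hδ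
    rw [map_add]
    refine congrArg _ (funext fun j => ?_)
    cases j <;> simp [up1, bdt_none, bdt_some]
  obtain ⟨κ, _, _, s, ρ, hs, hρ⟩ := exists_redS ⟨_, 𝒮.Φ.B.unif i⟩ (𝒮.finR i)
  have h11 : ∀ j, α j ∈ 𝒮.Φ.B.lat i 0 (Set.range e) := fun j =>
    glat_mono le_rfl (S' := Set.range e) (Set.image_subset_iff.2 fun η hη => hT' η hη j)
      (lat_map (LinearMap.proj (R := k) (φ := fun _ => R.A) j) hα')
  rw [← ea] at ha hK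
  have h12 := h5 κ s ρ hs hρ.red hρ.rng GG c' l' G' h7 h9 h10 _
    (hM g hC α _ h11 ha hK κ s ρ hs hρ)
  simpa only [h3] using h12

theorem Sit.exists_frame (hT : TAME0) (hG : GDV) {n : ℕ} (hX : X.Nice n)
    (hk : Algebra.EssFiniteType ℤ k) (hσ : Fintype.card σ + 1 = n) :
    ∃ J d₁ AC AK Tk, 𝒮.Frame J d₁ AC AK Tk := by
  have := charP_of_injective_algebraMap (algebraMap k X.F).injective p
  obtain ⟨S, hS, h1⟩ := 𝒮.fin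
  obtain ⟨E, hE, h2, h3⟩ := 𝒮.chb.stab S hS
  obtain ⟨T, hf, -, h4⟩ := 𝒮.Φ.finf hE h3
  obtain ⟨R, hR⟩ := 𝒮.chb.cr (⋃ j, (fun η => η j) '' T) (Set.finite_iUnion fun j => hf.image _)
  have hi : Function.Injective (up1 (I := Option (Option σ)) R.A.val) := fun η η' h =>
    funext fun j => Subtype.ext (congrFun h j)
  obtain ⟨T, rfl⟩ : ∃ T', up1 R.A.val '' T' = T := ⟨_, Set.image_preimage_eq_of_subset
    fun η hη => ⟨fun j => ⟨η j, hR _ (Set.mem_iUnion.2 ⟨j, η, hη, rfl⟩)⟩, rfl⟩⟩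
  have hf' : T.Finite := hf.of_finite_image hi.injOn
  obtain ⟨H, Bf, d₁, hH, hB, h5⟩ := 𝒮.exists_tame hT hG hX hk hσ R hf'
  obtain ⟨k₁, _, _, _, _, D₁, s, Q, g, h6, hs, hg, hJ, hD⟩ :=
    R.exists_jets (p := p) 𝒮.Φ.cmp 𝒮.Φ.B.Dt hf'
  obtain ⟨L, 𝓛, hF⟩ := exists_lfam 𝒮.Φ.B 𝒮.pb 𝒮.hD 𝒮.𝒦 𝒮.loc h6
  exact ⟨R.jets Q g, d₁, 𝒮.AC 𝓛 Q g, 𝒮.AK 𝓛 Q g, fun i a => 𝒮.Φ.TOK i a (up1 R.A.val '' T) H Bf,
    hJ, hs, fun c hc S' hS' => Sit.fr_fin hF (fun a ha hp => (h1 a ha hp).imp fun η h =>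
      ⟨Submodule.span_le.2 h2 h.1, h.2⟩) hf' hD (h4 H Bf hH hB) hc hS',
    h5 _ hJ hs fun j h => (R.lun.map (Q j)).ne_zero
      ((R.pv_aeval (Q j : R.A →+* k₁) (Q j).commutes _).symm.trans h),
    fun c Φ h => Sit.fr_arc hF hg hJ h, fun i c d g' hv h a _ ha => Sit.fr_ak hF hv h ha,
    fun i c a' ha' => Sit.fr_lc hF i c ha'⟩

end Pool.Agent.ZFN
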