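import Pool.Agent.Lib.MP_751085_ag.ZF.N.GDefs
import Pool.Agent.Lib.MP_751085_ag.ZF.N.C1
import Pool.Agent.Lib.MP_751085_ag.ZC.L.Bas

/-! Points of the coordinate ring, jets, density. -/

namespace Pool.Agent.ZFN

open Pool.Agent.ZCy
open scoped Classical
open MvPolynomial

variable {k : Type} [Field k] {X : Var k} {τ : Type} [Fintype τ] {PF : DR X.F (Option τ)}
  (R : CR X PF)

section basic

theorem CR.cmp {t : k} {D : Derivation ℤ k k} (h : PF.Cmp t D) : R.P.Cmp t D :=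
  ⟨Subtype.ext ((R.hu none).trans h.u), fun a => Subtype.ext ((R.hd none _).trans (h.d0 a)),
    fun i a => Subtype.ext ((R.hd _ _).trans (h.ds i a))⟩

theorem ng1a_top {U : Subalgebra k R.A} (h : Set.range R.y ⊆ U) :
    (∀ ρ : MP _ k, aeval R.y ρ ∈ U) ∧
    ∀ u, aeval R.y (up R.h) * u = 1 → u ∈ U → U = ⊤ := by
  have h1 : ∀ ρ : MP _ k, aeval R.y ρ ∈ U := fun ρ => Algebra.adjoin_le h
    (Algebra.adjoin_range_eq_range_aeval k R.y ▸ ⟨ρ, rfl⟩)
  refine ⟨h1, fun u hu h2 => eq_top_iff.2 fun f _ => ?_⟩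
  obtain ⟨m, ρ, e⟩ := R.den f
  rw [← mul_one f, ← one_pow m, ← hu, mul_pow, ← mul_assoc, e]
  exact mul_mem (h1 ρ) (pow_mem h2 m)

theorem CR.genI : GenI k (Set.range R.y) := fun U h1 h2 => by
  obtain ⟨u, hu⟩ := R.hun.exists_right_inv
  exact (ng1a_top R h1).2 u hu (h2 _ ((ng1a_top R h1).1 _) u hu)

theorem CR.ft : Algebra.FiniteType k R.A := by
  obtain ⟨u, hu⟩ := R.hun.exists_right_inv
  exact ⟨Subalgebra.fg_def.2 ⟨insert u (Set.range R.y), (Set.finite_range _).insert u,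
    (ng1a_top R ((Set.subset_insert _ _).trans Algebra.subset_adjoin)).2 u hu
      (Algebra.subset_adjoin (Set.mem_insert _ _))⟩⟩

theorem ng1a_u : ∃ u : X.F, u ≠ 0 ∧ ∀ d (G : Fm X.N k), G.IsHomogeneous d →
    ((aeval R.g G : R.A) : X.F) = u ^ d * aeval X.g G := by
  obtain ⟨u, h0, hu⟩ := R.dom
  refine ⟨u, h0, fun d G hG => (comp_aeval_apply R.g R.A.val G).trans ?_⟩
  rw [show (fun i => R.A.val (R.g i)) = fun i => u * X.g i from funext hu]
  exact bas_hom hG _ u X.g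

theorem CR.zr {G : Fm X.N k} (hG : G ∈ X.I) : aeval R.g G = 0 := by
  obtain ⟨u, -, hu⟩ := ng1a_u R
  obtain ⟨⟨d, hd⟩, h0⟩ := hG
  exact Subtype.ext ((hu d G hd).trans (by rw [h0, mul_zero]; rfl))

theorem ng1a_d {A I : Type} [CommRing A] [Algebra k A] [Fintype I] (d : Derivation ℤ A A)
    (hd : ∀ a, d (algebraMap k A a) = 0) (f : I → A) (G : MP I k) :
    d (aeval f G) = ∑ i, aeval f (pderiv i G) * d (f i) := by
  induction G using MvPolynomial.induction_on with
  | C a => simp [hd]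
  | add p q hp hq => simp [hp, hq, add_mul, Finset.sum_add_distrib]
  | mul_X p i hp =>
    simp [hp, add_mul, Finset.sum_add_distrib, Pi.single_apply, apply_ite, Finset.mul_sum,
      mul_assoc]

/-- the chain rule for polynomials in elements of `A` -/
theorem CR.grad_aeval {t : k} {D : Derivation ℤ k k} (h : PF.Cmp t D) {S I : Type} [CommRing S]
    [Fintype I] (Q : R.A →+* S) (g : τ → S) (f : I → R.A) (G : MP I k) :
    R.P.grad Q g (aeval f G) = ∑ i, eval₂ (Q.comp (algebraMap k R.A)) (fun i => Q (f i))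
      (pderiv i G) * R.P.grad Q g (f i) := by
  simp only [DR.grad, ng1a_d _ ((R.cmp h).ds _), map_sum, map_mul, map_aeval, Finset.mul_sum,
    coe_eval₂Hom]
  rw [Finset.sum_comm]
  exact Finset.sum_congr rfl fun _ _ => Finset.sum_congr rfl fun _ _ => mul_left_comm _ _ _

variable {M : Type} [Field M] [Algebra k M]

theorem CR.pv_aeval (x : R.A →+* M) (h : ∀ a, x (algebraMap k R.A a) = algebraMap k M a)
    (G : Fm X.N k) : aeval (R.pv x) G = x (aeval R.g G) := by
  rw [map_aeval, show x.comp (algebraMap k R.A) = algebraMap k M from RingHom.ext h]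
  rfl

theorem ng1a_l (x : R.A →+* M) (h : ∀ a, x (algebraMap k R.A a) = algebraMap k M a) :
    aeval (R.pv x) R.l ≠ 0 := by
  rw [R.pv_aeval x h]
  exact (R.lun.map x).ne_zero

theorem CR.on (x : R.A →+* M) (h : ∀ a, x (algebraMap k R.A a) = algebraMap k M a) :
    X.On (R.pv x) := by
  refine ⟨fun h0 => ng1a_l R x h ?_, fun G hG => by rw [R.pv_aeval x h, R.zr hG, map_zero]⟩
  have h1 := bas_hom R.hl (algebraMap k M) 0 0
  rw [zero_pow R.epos.ne', zero_mul] at h1
  rw [h0, aeval_def, ← h1]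
  simp only [zero_mul]
  rfl

theorem ng1a_rep (f : R.A) : ∃ (m : ℕ) (G : Fm X.N k), G.IsHomogeneous (m * R.e) ∧
    f * aeval R.g (R.l ^ m) = aeval R.g G ∧ f * aeval X.g (R.l ^ m) = aeval X.g G := by
  obtain ⟨m, G, hG, e⟩ := R.rep f
  obtain ⟨u, h0, hu⟩ := ng1a_u R
  replace e : f * aeval R.g (R.l ^ m) = aeval R.g G := by rw [map_pow]; exact e
  refine ⟨m, G, hG, e, mul_left_cancel₀ (pow_ne_zero (m * R.e) h0) ?_⟩
  rw [← hu _ G hG, ← e, mul_left_comm, ← hu _ _ (mul_comm R.e m ▸ R.hl.pow m)]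
  rfl

theorem CR.ev_pv (x : R.A →+* M) (h : ∀ a, x (algebraMap k R.A a) = algebraMap k M a) :
    R.Ev x (R.pv x) := by
  refine ⟨h, fun f => ?_⟩
  obtain ⟨m, G, hG, e, e'⟩ := ng1a_rep R f
  refine ⟨_, G, R.l ^ m, hG, mul_comm R.e m ▸ R.hl.pow m, ?_, e', ?_⟩
  · rw [map_pow]
    exact pow_ne_zero m (ng1a_l R x h)
  · rw [R.pv_aeval x h, R.pv_aeval x h, ← map_mul, e]

theorem reg_unique {z : Fin (X.N + 1) → M} (hz : X.On z) {f : X.F} {m m' : M} (h : X.Reg z f m)
    (h' : X.Reg z f m') : m = m' := by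
  obtain ⟨d, G, H, hG, hH, h0, e1, e2⟩ := h
  obtain ⟨d', G', H', hG', hH', h0', e1', e2'⟩ := h'
  have h1 := hz.2 (G * H' - H * G') ⟨⟨_, (hG.mul hH').sub (hH.mul hG')⟩, by
    rw [map_sub, map_mul, map_mul, ← e1, ← e1']; ring⟩
  rw [map_sub, map_mul, map_mul, ← e2, ← e2'] at h1
  exact mul_right_cancel₀ (mul_ne_zero h0 h0') (by linear_combination h1)

theorem reg_smul {z : Fin (X.N + 1) → M} {u : M} (hu : u ≠ 0) {f : X.F} {m : M}
    (h : X.Reg z f m) : X.Reg (u • z) f m := by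
  obtain ⟨d, G, H, hG, hH, h0, e1, e2⟩ := h
  have h1 : ∀ G : Fm X.N k, G.IsHomogeneous d → aeval (u • z) G = u ^ d * aeval z G :=
    fun G hG => bas_hom hG _ u z
  exact ⟨d, G, H, hG, hH, h1 H hH ▸ mul_ne_zero (pow_ne_zero d hu) h0, e1,
    by rw [h1 H hH, h1 G hG, ← e2, mul_left_comm]⟩

theorem reg_map {M' : Type} [Field M'] [Algebra k M'] (e : M →ₐ[k] M') {z : Fin (X.N + 1) → M}
    {f : X.F} {m : M} (h : X.Reg z f m) : X.Reg (fun i => e (z i)) f (e m) := by
  obtain ⟨d, G, H, hG, hH, h0, e1, e2⟩ := h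
  exact ⟨d, G, H, hG, hH, by rwa [← comp_aeval_apply, map_ne_zero], e1,
    by rw [← comp_aeval_apply, ← comp_aeval_apply, ← map_mul, e2]⟩

theorem ng1a_op {z : Fin (X.N + 1) → M} {f f' : X.F} {m m' : M} (h : X.Reg z f m)
    (h' : X.Reg z f' m') : X.Reg z (f * f') (m * m') ∧ X.Reg z (f + f') (m + m') := by
  obtain ⟨d, G, H, hG, hH, h0, e1, e2⟩ := h
  obtain ⟨d', G', H', hG', hH', h0', e1', e2'⟩ := h'
  have h1 : aeval z (H * H') ≠ 0 := by rw [map_mul]; exact mul_ne_zero h0 h0'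
  refine ⟨⟨_, G * G', H * H', hG.mul hG', hH.mul hH', h1, ?_, ?_⟩,
    _, G * H' + H * G', H * H', (hG.mul hH').add (hH.mul hG'), hH.mul hH', h1, ?_, ?_⟩ <;>
  simp only [map_add, map_mul, ← e1, ← e1', ← e2, ← e2'] <;> ring

theorem CR.exists_ev {z : Fin (X.N + 1) → M} (hz : X.On z) (hl : aeval z R.l ≠ 0) :
    ∃ x : R.A →+* M, R.Ev x z := by
  have h1 : ∀ f : R.A, ∃ m, X.Reg z f m := fun f => by
    obtain ⟨m, G, hG, -, e⟩ := ng1a_rep R f
    have h0 : aeval z (R.l ^ m) ≠ 0 := by rw [map_pow]; exact pow_ne_zero m hl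
    exact ⟨_, _, G, R.l ^ m, hG, mul_comm R.e m ▸ R.hl.pow m, h0, e, div_mul_cancel₀ _ h0⟩
  choose x hx using h1
  have h2 : ∀ a, x (algebraMap k R.A a) = algebraMap k M a := fun a => reg_unique hz (hx _)
    ⟨0, C a, 1, isHomogeneous_C _ a, isHomogeneous_one _ _, by simp, by simp, by simp⟩
  exact ⟨⟨⟨⟨x, by simpa using h2 1⟩, fun f g => reg_unique hz (hx _) (ng1a_op (hx f) (hx g)).1⟩,
    by simpa using h2 0, fun f g => reg_unique hz (hx _) (ng1a_op (hx f) (hx g)).2⟩, h2, hx⟩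

/-- a common denominator -/
theorem CR.rep_fin {S : Set R.A} (hS : S.Finite) : ∃ m : ℕ, 0 < m ∧ ∀ f ∈ S, ∃ G : Fm X.N k,
    G.IsHomogeneous (m * R.e) ∧ (f : X.F) = aeval X.g G / aeval X.g (R.l ^ m) := by
  choose m G hG _ e using ng1a_rep R
  obtain ⟨n, hn⟩ := (hS.image m).bddAbove
  obtain ⟨u, -, hu⟩ := ng1a_u R
  have h0 : aeval X.g R.l ≠ 0 := right_ne_zero_of_mul fun e =>
    (R.lun.map R.A.val).ne_zero ((hu _ _ R.hl).trans e)
  refine ⟨n + 1, n.succ_pos, fun f hf => ?_⟩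
  obtain ⟨c, hc⟩ := Nat.exists_eq_add_of_le ((hn ⟨f, hf, rfl⟩).trans n.le_succ)
  refine ⟨G f * R.l ^ c, ?_, ?_⟩
  · rw [show n + 1 = m f + c from hc, add_mul, mul_comm c]
    exact (hG f).mul (R.hl.pow c)
  · rw [show n + 1 = m f + c from hc, eq_div_iff (by rw [map_pow]; exact pow_ne_zero _ h0),
      pow_add, map_mul, map_mul, ← e, mul_assoc]

theorem CR.Ev.eq {R : CR X PF} {x : R.A →+* M} {z : Fin (X.N + 1) → M} (h : R.Ev x z) (hz : X.On z)
    {d : ℕ} {G H : Fm X.N k} (hG : G.IsHomogeneous d) (hH : H.IsHomogeneous d)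
    (h0 : aeval z H ≠ 0) {f : R.A} (e : (f : X.F) = aeval X.g G / aeval X.g H) :
    x f = aeval z G / aeval z H :=
  reg_unique hz (h.2 f) ⟨d, G, H, hG, hH, h0,
    (eq_div_iff fun h1 => h0 (hz.2 H ⟨⟨d, hH⟩, h1⟩)).1 e, div_mul_cancel₀ _ h0⟩

end basic

section jets

theorem ng1b_grad {t : k} {D : Derivation ℤ k k} (h : PF.Cmp t D) {M : Type} [Field M] [Algebra k M]
    (x : R.A →ₐ[k] M) (γ : τ → M) (G : Fm X.N k) : R.P.grad (x : R.A →+* M) γ (aeval R.g G) =
      grad (R.pv (x : R.A →+* M)) G ⬝ᵥ fun i => R.P.grad (x : R.A →+* M) γ (R.g i) := by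
  rw [R.grad_aeval h, x.comp_algebraMap]
  rfl

theorem ng1b_ne {t : k} {D : Derivation ℤ k k} (h : PF.Cmp t D) {M : Type} [Field M] [Algebra k M]
    (x : R.A →ₐ[k] M) {γ : τ → M} {ζ : M}
    (e : (fun i => R.P.grad (x : R.A →+* M) γ (R.g i)) = ζ • R.pv (x : R.A →+* M)) (i : τ) :
    γ i = 0 := by
  obtain ⟨m, G, hG, e1⟩ := R.rep (R.P.u (some i))
  have e2 : R.P.u (some i) * aeval R.g (R.l ^ m) = aeval R.g G := by
    rw [map_pow]
    exact e1
  have h1 : ∀ {G : Fm X.N k}, G.IsHomogeneous (m * R.e) →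
      R.P.grad (x : R.A →+* M) γ (aeval R.g G) = ζ * ((m * R.e : ℕ) * x (aeval R.g G)) := fun hG => by
    rw [ng1b_grad R h, e, dotProduct_smul, grad_dot_self hG, R.pv_aeval (x : R.A →+* M) x.commutes]
    rfl
  have h2 := h1 hG
  rw [← e2, DR.grad_mul, DR.grad_u, h1 (mul_comm m R.e ▸ R.hl.pow m), map_mul x] at h2
  have h3 : IsUnit (x (aeval R.g (R.l ^ m))) := by
    rw [map_pow]
    exact (R.lun.pow m).map x
  refine (mul_eq_zero.1 ?_).resolve_left h3.ne_zero
  simp only [RingHom.coe_coe] at h2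
  linear_combination h2

theorem ng1b_eq {M : Type} [Field M] [Algebra k M] (x x' : R.A →ₐ[k] M) {ζ : M}
    (e : R.pv (x' : R.A →+* M) = ζ • R.pv (x : R.A →+* M)) : x' = x := by
  have h1 := R.on (x' : R.A →+* M) x'.commutes
  have h0 : ζ ≠ 0 := fun h => h1.1 (by rw [e, h, zero_smul])
  exact AlgHom.ext fun f => reg_unique h1 ((R.ev_pv _ x'.commutes).2 f)
    (e ▸ reg_smul h0 ((R.ev_pv _ x.commutes).2 f))

/-- `ne`: write `u_i l ^ m = G_i` with one `m` and use Euler's identity. `cmp`: the two points give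
the same homomorphism on `A` (`ev_pv`, `reg_unique`), so the kernels agree. -/
theorem CR.jok {t : k} {D : Derivation ℤ k k} (h : PF.Cmp t D) {k₁ : Type} [Field k₁] [Algebra k k₁]
    [FiniteDimensional k k₁] [Algebra.IsSeparable k k₁] {s : ℕ} {Q : Fin s → R.A →ₐ[k] k₁}
    {g : Fin s → τ → k} (hg : ∀ j, g j ≠ 0)
    (hQ : ∀ j j', j ≠ j' → RingHom.ker (Q j) ≠ RingHom.ker (Q j')) : X.JOk (R.jets Q g) := by
  refine ⟨fun j => R.on _ (Q j).commutes, fun j G hG => ?_, fun j ζ e => hg j (funext fun i =>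
    (map_eq_zero (algebraMap k k₁)).1 (ng1b_ne R h (Q j) e i)), fun Ω _ _ (e e' : k₁ →ₐ[k] Ω) (j j' : Fin s) ζ he => ?_⟩
  · refine (ng1b_grad R h (Q j) _ G).symm.trans ?_
    rw [R.zr hG]
    exact Finset.sum_eq_zero fun i _ => by rw [map_zero, map_zero, mul_zero]
  · have h1 : e'.comp (Q j') = e.comp (Q j) := ng1b_eq R _ _ he
    obtain rfl : j = j' := by_contra fun hn => hQ j j' hn (Ideal.ext fun f => by
      rw [RingHom.mem_ker, RingHom.mem_ker, ← map_eq_zero e, ← map_eq_zero e']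
      exact (AlgHom.congr_fun h1 f).symm.congr_left)
    refine ⟨1, 0, funext fun i => ?_⟩
    have h2 := fun e : k₁ →ₐ[k] Ω => R.P.map_grad (Q j : R.A →+* k₁)
      (fun l => algebraMap k k₁ (g j l)) (e : k₁ →+* Ω) (R.g i)
    simp only [RingHom.coe_coe, AlgHom.commutes, ← AlgHom.comp_toRingHom] at h2
    rw [one_smul, zero_smul, add_zero]
    exact (h2 e').trans (h1 ▸ (h2 e).symm)

omit [Fintype τ] in
theorem ng3_zero {p : ℕ} [Fact p.Prime] [CharP k p] {t : k} {D : Derivation ℤ k k} (ht : D t = 1)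
    {c : MP (τ ⊕ τ) k} {h : MP τ k} (h0 : h ≠ 0)
    (H : ∀ q : τ → k, eval q h ≠ 0 → eval (Sum.elim q fun i => D (q i)) c = 0) : c = 0 := by
  have hp : ∀ z : k, D (z ^ p) = 0 := fun z => by
    rw [Derivation.leibniz_pow, ← Nat.cast_smul_eq_nsmul k, CharP.cast_eq_zero, zero_smul]
  have : Infinite k := not_finite_iff_infinite.1 fun _ => by
    obtain ⟨z, rfl⟩ := surjective_frobenius k p t
    exact zero_ne_one ((hp z).symm.trans ht)
  let σ : τ ⊕ τ → MP (τ ⊕ τ) k := Sum.elim (fun i => MvPolynomial.X (.inl i) +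
    C t * MvPolynomial.X (.inr i)) fun i => MvPolynomial.X (.inr i)
  have e : ∀ x : τ ⊕ τ → k, (eval x).comp (eval₂Hom C σ) =
      eval (Sum.elim (fun i => x (.inl i) + t * x (.inr i)) fun i => x (.inr i)) := fun x =>
    ringHom_ext (fun _ => by simp) (by rintro (i | i) <;> simp [σ])
  have h1 : eval₂Hom C σ (c * rename Sum.inl h) = 0 := by
    refine funext_set (fun _ => Set.range fun z : k => z ^ p)
      (fun _ => Set.infinite_range_of_injective (frobenius_inj k p)) fun x hx => ?_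
    choose z hz using fun i => hx i (Set.mem_univ _)
    have e1 : (fun i => x (.inr i)) = fun i => D (x (.inl i) + t * x (.inr i)) := funext fun i => by
      rw [← hz, ← hz, map_add, Derivation.leibniz, hp, hp, ht]
      simp
    refine (DFunLike.congr_fun (e x) _).trans ?_
    rw [map_mul, eval_rename, Sum.elim_comp_inl, map_zero, mul_eq_zero, or_iff_not_imp_right, e1]
    exact H _
  refine (mul_eq_zero.1 (MvPolynomial.funext (q := 0) fun x => ?_)).resolve_right
    fun h2 => h0 (rename_injective _ Sum.inl_injective (h2.trans (map_zero _).symm))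
  have e2 := DFunLike.congr_fun
    (e (Sum.elim (fun i => x (.inl i) - t * x (.inr i)) fun i => x (.inr i))) (c * rename Sum.inl h)
  rw [RingHom.comp_apply, h1, map_zero] at e2
  rw [map_zero, e2]
  congr 2
  funext i
  rcases i with i | i <;> simp

omit [Fintype τ] in
theorem ng3_ev {L : Type} [Field L] [Algebra k L] (q : τ → k) (a : L) (P : MP (Option τ) k) :
    eval₂ (algebraMap k L) (fun i => i.elim a fun j => algebraMap k L (q j)) P =
      Polynomial.aeval a ((tp P).map (eval q)) := by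
  rw [eval₂_tp, ev_def, Polynomial.aeval_def, Polynomial.eval₂_map]
  congr 1
  exact ringHom_ext (fun _ => by simp) fun _ => by simp

theorem ng3_pt {L : Type} [Field L] [Algebra k L] {q : τ → k} (hq : eval q R.h ≠ 0) {a : L}
    (ha : Polynomial.aeval a ((tp R.χ).map (eval q)) = 0) : ∃ Q : R.A →ₐ[k] L,
      ∀ i, Q (R.y i) = i.elim a fun j => algebraMap k L (q j) := by
  obtain ⟨x, h1, h2⟩ := R.pt L (algebraMap k L) _ ((ng3_ev q a _).trans ha) (by
    rw [ng3_ev, tp_up, Polynomial.map_C, Polynomial.aeval_C]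
    exact (map_ne_zero _).2 hq)
  exact ⟨⟨x, h1⟩, h2⟩

theorem ng3_sep {q : τ → k} (hq : eval q R.h ≠ 0) : ((tp R.χ).map (eval q)).Separable := by
  refine (Polynomial.isCoprime_iff_aeval_ne_zero_of_isAlgClosed (K := AlgebraicClosure k) ..).2
    fun a => or_iff_not_imp_left.2 fun ha => ?_
  obtain ⟨Q, hQ⟩ := ng3_pt R hq (not_not.1 ha)
  have := (R.et.map Q).ne_zero
  rwa [comp_aeval_apply, funext hQ, aeval_def, ng3_ev, tp_pderiv,
    ← Polynomial.derivative_map] at this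

/-- polynomials in `(ξ, ν, Z)` as polynomials in `ν` over `A` -/
noncomputable def ng3_F : Polynomial (MP (τ ⊕ τ) k) →+* MP τ R.A :=
  ev (C.comp (algebraMap k R.A)) (Sum.elim (fun i => C (R.y (some i))) MvPolynomial.X)
    (C (R.y none))

theorem ng3_C (P : MP (Option τ) k) :
    ng3_F R ((tp P).map (rename Sum.inl).toRingHom) = C (aeval R.y P) := by
  rw [ng3_F, ev_map, aeval_def, eval₂_tp, map_ev]
  congr 2
  · exact RingHom.ext fun _ => by simp
  · funext i
    simp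

theorem ng3_rep (ρ : MP τ R.A) :
    ∃ (m : ℕ) (G : Polynomial (MP (τ ⊕ τ) k)), ρ * C (aeval R.y (up R.h)) ^ m = ng3_F R G := by
  induction ρ using MvPolynomial.induction_on with
  | C f =>
    obtain ⟨m, P, e⟩ := R.den f
    exact ⟨m, _, by rw [ng3_C, ← e, map_mul, map_pow]⟩
  | add f g hf hg =>
    obtain ⟨m, G, e⟩ := hf
    obtain ⟨n, H, e'⟩ := hg
    refine ⟨m + n, G * (tp (up R.h)).map (rename Sum.inl).toRingHom ^ n +
      H * (tp (up R.h)).map (rename Sum.inl).toRingHom ^ m, ?_⟩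
    rw [map_add, map_mul, map_mul, map_pow, map_pow, ng3_C, ← e, ← e']
    ring
  | mul_X f i hf =>
    obtain ⟨m, G, e⟩ := hf
    refine ⟨m, G * Polynomial.C (MvPolynomial.X (.inr i)), ?_⟩
    rw [map_mul, ← e, mul_right_comm]
    simp [ng3_F, ev_def]

theorem ng3_fam {I : Type} [Fintype I] (ρ : I → MP τ R.A) :
    ∃ (m : ℕ) (G : I → Polynomial (MP (τ ⊕ τ) k)), (∀ l, (G l).degree < (tp R.χ).natDegree) ∧
      ∀ l, ρ l * C (aeval R.y (up R.h)) ^ m = ng3_F R (G l) := by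
  choose m G e using fun l => ng3_rep R (ρ l)
  have hm := R.monic.map (rename (Sum.inl : τ → τ ⊕ τ)).toRingHom
  refine ⟨∑ l, m l, fun l => (G l * (tp (up R.h)).map (rename Sum.inl).toRingHom ^
    (∑ l, m l - m l)) %ₘ (tp R.χ).map (rename Sum.inl).toRingHom, fun l => ?_, fun l => ?_⟩
  · refine (Polynomial.degree_modByMonic_lt _ hm).trans_eq ?_
    rw [R.monic.degree_map, Polynomial.degree_eq_natDegree R.monic.ne_zero]
  · beta_reduce
    rw [Polynomial.modByMonic_eq_sub_mul_div, map_sub, map_mul, map_mul, map_pow, ng3_C, ng3_C,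
      R.root, map_zero, zero_mul, sub_zero, ← e, mul_assoc, ← pow_add, Nat.add_sub_cancel'
        (Finset.single_le_sum (fun _ _ => Nat.zero_le _) (Finset.mem_univ l))]

/-- Multiply by a power of `h`, write the coefficients as polynomials in `y` (`den`) and reduce
modulo the monic `χ`. For `q` with `h(q) ≠ 0` the polynomial `χ(q, Z)` is separable (`pt`, `et`), and
each of its roots is a point. So each coefficient of `Z ^ i` in `∑ ε l ρ l`, a polynomial in
`(ξ, ν)` over `Ω`, vanishes at `(q, D q)` for `q` off `h = 0` and off a finite set. Take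
`q = a + t b` with `a`, `b` vectors of `p`-th powers (`MvPolynomial.funext_set`). -/
theorem CR.dens {p : ℕ} [Fact p.Prime] [CharP k p] [Nonempty τ] {t : k} {D₀ : Derivation ℤ k k}
    (h : PF.Cmp t D₀) (ht : D₀ t = 1) {Ω : Type} [Field Ω] [Algebra k Ω] [IsSepClosed Ω]
    {D : Derivation ℤ Ω Ω} (hD : ∀ a, D (algebraMap k Ω a) = algebraMap k Ω (D₀ a)) :
    R.P.Dens k D := by
  intro I _ ε ρ bad hb H φ
  obtain ⟨m, G, hG, e⟩ := ng3_fam R ρ
  obtain ⟨i₀⟩ := ‹Nonempty τ›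
  have hs : (algebraMap k Ω ⁻¹' ((fun Q => Q (R.y (some i₀))) '' bad)).Finite :=
    (hb.image _).preimage (algebraMap k Ω).injective.injOn
  have h2 : ∑ l, Polynomial.C (C (φ (ε l))) * G l = 0 := by
    refine Polynomial.ext fun n => ng3_zero (p := p) ht
      (h := R.h * ∏ c ∈ hs.toFinset, (MvPolynomial.X i₀ - C c)) (mul_ne_zero
        (fun h0 => R.hun.ne_zero (by simp [h0])) (Finset.prod_ne_zero_iff.2 fun c _ h0 => ?_))
      fun q hq => ?_
    · simpa using congrArg (eval fun _ => c + 1) h0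
    rw [map_mul, mul_ne_zero_iff, map_prod, Finset.prod_ne_zero_iff] at hq
    have hsep := (ng3_sep R hq.1).map (f := algebraMap k Ω)
    have h3 : ∑ l, Polynomial.C (ε l) * ((G l).map (eval (Sum.elim q fun i => D₀ (q i)))).map
        (algebraMap k Ω) = 0 := by
      refine Polynomial.eq_zero_of_degree_lt_of_eval_finset_eq_zero
        (((tp R.χ).map (eval q)).map (algebraMap k Ω)).roots.toFinset ?_ fun z hz => ?_
      · rw [Multiset.toFinset_card_of_nodup (Polynomial.nodup_roots hsep),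
          ← (IsSepClosed.splits_of_separable _ hsep).natDegree_eq_card_roots,
          Polynomial.natDegree_map, R.monic.natDegree_map]
        refine (Polynomial.degree_sum_le _ _).trans_lt
          ((Finset.sup_lt_iff (WithBot.bot_lt_coe _)).2 fun l _ => ?_)
        rw [← Polynomial.smul_eq_C_mul]
        exact (Polynomial.degree_smul_le _ _).trans_lt (Polynomial.degree_map_le.trans_lt
          (Polynomial.degree_map_le.trans_lt (hG l)))
      have hz' := Polynomial.isRoot_of_mem_roots (Multiset.mem_toFinset.1 hz)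
      obtain ⟨Q, hQ⟩ := ng3_pt R hq.1 ((Polynomial.eval_map_algebraMap _ _).symm.trans hz')
      have h4 := H Q fun hQb => hq.2 (q i₀) (hs.mem_toFinset.2 ⟨Q, hQb, hQ _⟩) (by simp)
      have h5 : ∀ l, eval₂Hom (Q : R.A →+* Ω) (fun i => D (Q (R.P.u (some i)))) (ng3_F R (G l)) =
          (((G l).map (eval (Sum.elim q fun i => D₀ (q i)))).map (algebraMap k Ω)).eval z :=
        fun l => by
          rw [ng3_F, map_ev, ev_eq_eval, Polynomial.map_map]
          congr 2
          · simp [hQ]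
          · refine ringHom_ext (fun _ => by simp) ?_
            rintro (i | i) <;> simp [← R.hy, hQ, hD]
      simp only [Polynomial.eval_finsetSum, Polynomial.eval_mul, Polynomial.eval_C, ← h5, ← e,
        map_mul, ← mul_assoc, ← Finset.sum_mul]
      exact mul_eq_zero_of_left h4 _
    have h6 := congrArg (fun f => φ (Polynomial.coeff f n)) h3
    simp only [Polynomial.finsetSum_coeff, Polynomial.coeff_C_mul, Polynomial.coeff_map,
      mul_comm (ε _), ← Algebra.smul_def, map_sum, map_smul, smul_eq_mul, Polynomial.coeff_zero,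
      map_zero] at h6
    simpa [mul_comm] using h6
  have h7 := congrArg (ng3_F R) h2
  rw [map_sum, map_zero] at h7
  refine (((R.hun.map C).pow m).mul_left_eq_zero).1 ?_
  rw [Finset.sum_mul, ← h7]
  refine Finset.sum_congr rfl fun l _ => ?_
  rw [map_mul, ← e, Algebra.smul_def, mul_assoc]
  congr 1
  simp [ng3_F, ev_def]

/-- `exists_der`, `exists_det` over the separable closure, `Det.descend` -/
theorem CR.exists_jets {p : ℕ} [Fact p.Prime] [CharP k p] [Nonempty τ] {t : k}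
    {D₀ : Derivation ℤ k k} (h : PF.Cmp t D₀) (ht : D₀ t = 1) {T : Set (Option τ → R.A)}
    (hT : T.Finite) : ∃ (k₁ : Type) (_ : Field k₁) (_ : Algebra k k₁) (_ : FiniteDimensional k k₁)
      (_ : Algebra.IsSeparable k k₁) (D₁ : Derivation ℤ k₁ k₁) (s : ℕ) (Q : Fin s → R.A →ₐ[k] k₁)
      (g : Fin s → τ → k), (∀ a, D₁ (algebraMap k k₁ a) = algebraMap k k₁ (D₀ a)) ∧ 0 < s ∧
        (∀ j, g j ≠ 0) ∧ X.JOk (R.jets Q g) ∧ R.P.Det p T D₁ Q g := by
  have := R.ft
  obtain ⟨D, hD⟩ := exists_der (Ω := SeparableClosure k) D₀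
  obtain ⟨s, Q, g, h1, h2, h3, h4⟩ := DR.exists_det (p := p) (R.cmp h) ht hD (R.dens h ht hD) hT
  obtain ⟨M, _, D₁, Q₁, h5, h6, h7⟩ := h4.descend hD
  have hk : ∀ j, RingHom.ker (Q₁ j) = RingHom.ker (Q j) := fun j => Ideal.ext fun f => by
    rw [RingHom.mem_ker, RingHom.mem_ker, ← h6, ZeroMemClass.coe_eq_zero]
  exact ⟨M, inferInstance, inferInstance, inferInstance, inferInstance, D₁, s, Q₁, g, h5, h1, h2,
    R.jok h h2 fun j j' hn => by rw [hk, hk]; exact h3 j j' hn, h7⟩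

end jets

end Pool.Agent.ZFN
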