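import Pool.Agent.Lib.MP_751085_ag.ZF.N.A4
import Pool.Agent.Lib.MP_751085_ag.ZF.X.G3
import Pool.Agent.Lib.MP_751085_ag.ZF.X.Gk
import Pool.Agent.Lib.MP_751085_ag.ZF.E.Exp
import Pool.Agent.Lib.MP_751085_ag.ZF.D.PB5

/-! Functions with bounded poles. -/

namespace Pool.Agent.ZFN

open Pool.Agent.ZCy MvPolynomial
open Pool.Agent.ZFd (gv cr GK)
open scoped Classical

theorem der_den {F : Type} [Field F] {A : Subring F} (hA : Algebra.EssFiniteType ℤ A)
    (D : Derivation ℤ F F) :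
    ∃ T : Set F, T.Finite ∧ ∀ h : F, (∀ y ∈ T, y * h ∈ A) → ∀ a ∈ A, D a * h ∈ A := by
  obtain ⟨τ, _, w, -, hw⟩ := ZFd.OmS_fg hA
  refine ⟨_, Set.finite_range fun t => D.liftKaehlerDifferential (w t), fun h H a ha => ?_⟩
  obtain ⟨c, hc, e⟩ := hw _ (ZFd.d_mem ha)
  rw [← D.liftKaehlerDifferential_comp_D, show KaehlerDifferential.D ℤ F a = _ from e, map_sum,
    Finset.sum_mul]
  refine sum_mem fun t _ => ?_
  rw [map_smul, smul_eq_mul, mul_assoc]
  exact mul_mem (hc t) (H _ ⟨t, rfl⟩)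

variable {k : Type} [Field k] {X : Var k}

theorem form_den {l₀ : Fm X.N k} (hl : l₀.IsHomogeneous 1) (h0 : gv X l₀ ≠ 0) {T : Set X.F}
    (hT : T.Finite) : ∃ (e : ℕ) (H : Fm X.N k), H.IsHomogeneous e ∧ gv X H ≠ 0 ∧
      ∀ y ∈ T, ∀ l, y * (gv X H / gv X l ^ e) ∈ cr X l := by
  induction T, hT using Set.Finite.induction_on with
  | empty => exact ⟨0, 1, isHomogeneous_one _ _, by simp, by simp⟩
  | @insert y T _ _ ih =>
    obtain ⟨e, H, h1, h2, h3⟩ := ih
    obtain ⟨s, s1, s2, s3⟩ := ZFd.cr_frac hl h0 y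
    obtain ⟨d, G, g1, rfl⟩ := (ZFd.mem_cr hl h0).1 s1
    obtain ⟨d', G', g2, g3⟩ := (ZFd.mem_cr hl h0).1 s3
    have g4 : gv X G ≠ 0 := fun e => s2 (by rw [e, zero_div])
    have g5 : (G * l₀ ^ d').IsHomogeneous (d + d') := g1.mul (by simpa using hl.pow d')
    have g6 : (G' * l₀ ^ d).IsHomogeneous (d + d') :=
      add_comm d' d ▸ g2.mul (by simpa using hl.pow d)
    have g7 : y * gv X (G * l₀ ^ d') = gv X (G' * l₀ ^ d) := by
      simp only [map_mul, map_pow]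
      field_simp at g3
      linear_combination g3
    refine ⟨e + (d + d'), _, h1.mul g5, ?_, fun z hz l => ?_⟩
    · simp only [map_mul, map_pow]
      exact mul_ne_zero h2 (mul_ne_zero g4 (pow_ne_zero _ h0))
    · rw [gv, map_mul, pow_add, mul_div_mul_comm]
      rcases hz with rfl | hz
      · rw [mul_left_comm, ← mul_div_assoc z, g7]
        exact mul_mem (ZFd.g1_mem h1 l) (ZFd.g1_mem g6 l)
      · rw [← mul_assoc]
        exact mul_mem (h3 z hz l) (ZFd.g1_mem g5 l)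

theorem exists_filt {p r n : ℕ} [Fact p.Prime] [CharP k p] [CharP X.F p] [Infinite k]
    (hk : GK p r k) (hX : X.Nice n) {ι : Type} [Finite ι] (P : DR X.F ι) {S : Set X.F}
    (hS : S.Finite) : ∃ V : ℕ → Submodule k X.F, Filt p k P V ∧ ∀ y ∈ S, y ∈ V 1 := by
  obtain ⟨l, hl, hb⟩ := ZFd.exists_b1 hX.dim
  have h0 := ZFd.b1_ne hX.dim hl hb
  have hC := ZFd.cov_cr hl hX hk h0
  choose T hT hD using fun q : Fin (n + 1) × ι => der_den (hC.sm q.1).eft (P.d q.2)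
  obtain ⟨e, H, h1, h2, h3⟩ := form_den (hl 0) (h0 0) (hS.union (Set.finite_iUnion hT))
  obtain ⟨h, hh⟩ : ∃ h : Fin (n + 1) → X.F, ∀ i, h i = gv X H / gv X (l i) ^ e := ⟨_, fun _ => rfl⟩
  have h4 : ∀ i, h i ∈ cr X (l i) := fun i => hh i ▸ ZFd.g1_mem h1 _
  have h5 : ∀ i j, ∀ a ∈ cr X (l i), P.d j a * h i ∈ cr X (l i) := fun i j =>
    hD (i, j) _ fun y hy => hh i ▸ h3 y (.inr (Set.mem_iUnion.2 ⟨_, hy⟩)) _
  let V : ℕ → Submodule k X.F := fun m =>
    { carrier := {y | ∀ i, y * h i ^ m ∈ cr X (l i)}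
      add_mem' := fun ha hb i => add_mul _ _ (h i ^ m) ▸ add_mem (ha i) (hb i)
      zero_mem' := fun i => (zero_mul (h i ^ m)).symm ▸ zero_mem _
      smul_mem' := fun c y hy i => by
        rw [Algebra.smul_def, mul_assoc]
        exact mul_mem (ZFd.cr_const _ c) (hy i) }
  refine ⟨V, ⟨monotone_nat_of_le_succ fun m y hy i => ?_, fun m => ?_,
    ⟨2, fun m j y hy i => ?_⟩, fun m y hy i => (hC.sm i).mem_of_pow ?_⟩, fun y hy i => ?_⟩
  · rw [pow_succ, ← mul_assoc]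
    exact mul_mem (hy i) (h4 i)
  · obtain ⟨W, _, hW⟩ := (ZFd.fin_prj hk.fb hC (ZFd.prj_cr hX.dim hl hb)).1 (-(e * m : ℕ))
    refine FiniteDimensional.of_injective (V₂ := W)
      (((LinearMap.mulRight k (gv X H ^ m)).domRestrict _).codRestrict W fun y => hW _ fun i => ?_)
      fun y y' e => Subtype.ext (mul_right_cancel₀ (pow_ne_zero m h2) (congrArg Subtype.val e))
    have := y.2 i
    rw [hh, div_pow, ← pow_mul, ← mul_div_assoc, div_eq_inv_mul, ← zpow_natCast, ← zpow_neg] at this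
    exact this
  · have e1 : P.d j y * h i ^ (m + 2) =
        P.d j (y * h i ^ (m + 1)) * h i - (m + 1 : ℕ) * (y * h i ^ m) * (P.d j (h i) * h i) := by
      simp only [Derivation.leibniz, Derivation.leibniz_pow, smul_eq_mul, nsmul_eq_mul,
        Nat.add_sub_cancel]
      ring
    rw [e1]
    refine sub_mem (h5 _ _ _ ?_) (mul_mem (mul_mem (natCast_mem _ _) (hy i)) (h5 _ _ _ (h4 i)))
    rw [pow_succ, ← mul_assoc]
    exact mul_mem (hy i) (h4 i)
  · rw [mul_pow, ← pow_mul, mul_comm m]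
    exact hy i
  · rw [pow_one, hh]
    exact h3 y (.inl hy) _

theorem exists_stab {p r n : ℕ} [Fact p.Prime] [CharP k p] [CharP X.F p] [Infinite k]
    (hk : GK p r k) (hX : X.Nice n) {ι : Type} [Fintype ι] (P : PB p X.F ι)
    {S : Set (ι → X.F)} (hS : S.Finite) : ∃ E : Set (ι → X.F), E.Finite ∧
      (∀ η ∈ S, η ∈ Submodule.span k E) ∧ P.Stab p k E := by
  obtain ⟨V, hV, h⟩ := exists_filt hk hX P.toDR
    (Set.finite_iUnion fun i : ι => hS.image fun η => η i)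
  exact stab_of_filt P hV fun η hη i => h _ (Set.mem_iUnion.2 ⟨i, η, hη, rfl⟩)

end Pool.Agent.ZFN
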