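import Pool.Agent.Lib.MP_751085_ag.ZF.N.C1
import Pool.Agent.Lib.MP_751085_ag.ZF.N.Defs
import Pool.Agent.Lib.MP_751085_ag.ZF.X.G2
import Pool.Agent.Lib.MP_751085_ag.ZC.CMap

/-! The ring `k[ξ, θ, 1 / h]` inside the function field of a hypersurface. -/

namespace Pool.Agent.ZFN

open Pool.Agent.ZCy MvPolynomial
open Pool.Agent.ZFd (dK Om)
open scoped Classical

theorem pb_of_der {p : ℕ} [Fact p.Prime] {F ι : Type} [Field F] [CharP F p] [Fintype ι]
    [Algebra (ZMod p) F] {O : Subring F} {u : ι → F} (he : Algebra.EssFiniteType ℤ O)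
    (hfr : ∀ z : F, ∃ s ∈ O, s ≠ 0 ∧ s * z ∈ O) (hm : ∀ i, u i ∈ O)
    (H : ∀ (W : Type) [AddCommGroup W] [Module O W] (D : Derivation ℤ O W),
      (∀ i, D ⟨u i, hm i⟩ = 0) → D = 0)
    (ht : (Fintype.card ι : Cardinal) ≤ Algebra.trdeg (ZMod p) F) : ZFd.PB p O u := by
  have hsp : Submodule.span O (Set.range fun i => (dK (⟨_, hm i⟩ : O) : Om _)) = ⊤ := by
    obtain ⟨N, hN⟩ : ∃ N, N = Submodule.span O (Set.range fun i => (dK (⟨_, hm i⟩ : O) : Om _)) :=
      ⟨_, rfl⟩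
    have h1 := H _ (N.mkQ.compDer dK) fun i =>
      (Submodule.Quotient.mk_eq_zero N).2 (hN ▸ Submodule.subset_span ⟨i, rfl⟩)
    rw [← hN, eq_top_iff, ← KaehlerDifferential.span_range_derivation, Submodule.span_le]
    rintro _ ⟨b, rfl⟩
    exact (Submodule.Quotient.mk_eq_zero N).1 (DFunLike.congr_fun h1 b)
  refine ZFd.pb_crit (ZFd.ff_of_eft he) hfr hm hsp (ZFd.ind_of_span ?_ ?_ ht)
  · have := ZFd.essFiniteType_of_frac (O' := ⊤) le_top
      (fun z _ => (hfr z).imp fun s hs => ⟨hs.1, ZFd.un_top.2 hs.2.1, hs.2.2⟩) he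
    exact Algebra.EssFiniteType.of_surjective (Subring.topEquiv (R := F)).toRingHom.toIntAlgHom
      Subring.topEquiv.surjective
  · refine eq_top_iff.2 fun ω _ => ?_
    obtain ⟨c, -, h1, h2⟩ := ((ZFd.qc_om O).loc ⊤ (ZFd.isLoc_top hfr) ω).1 (ZFd.OmS_top ω)
    obtain ⟨ω', h3⟩ := ZFd.mem_OmS_range.1 h2
    obtain ⟨a, rfl⟩ := (Submodule.mem_span_range_iff_exists_fun _).1
      (hsp ▸ Submodule.mem_top (x := ω'))
    rw [← Submodule.smul_mem_iff _ h1.2.1]
    refine h3 ▸ ?_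
    rw [map_sum]
    exact Submodule.sum_mem _ fun i _ => by
      rw [ZFd.pb_smul_d]
      exact Submodule.smul_mem _ _ (Submodule.subset_span ⟨i, rfl⟩)

theorem DR.ch_of {A ι : Type} [CommRing A] [Fintype ι] (P : DR A ι)
    (H : ∀ (W : Type) [AddCommGroup W] [Module A W] (D : Derivation ℤ A W),
      (∀ i, D (P.u i) = 0) → D = 0) : P.CH := by
  intro S _ x e he f
  let := Module.compHom S x
  let e' : A →+ S := e - ∑ j, (AddMonoidHom.mulRight (e (P.u j))).comp
    (x.toAddMonoidHom.comp (P.d j).toLinearMap.toAddMonoidHom)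
  have h1 : ∀ f, e' f = e f - ∑ j, x (P.d j f) * e (P.u j) := fun f => by
    simp [e', AddMonoidHom.finsetSum_apply]
  have h2 := H S (Derivation.mk' e'.toIntLinearMap fun a b => ?_) fun i => ?_
  · exact sub_eq_zero.1 ((h1 f).symm.trans (DFunLike.congr_fun h2 f))
  · change e' (a * b) = x a * e' b + x b * e' a
    simp only [h1, he, Derivation.leibniz, smul_eq_mul, map_add, map_mul, add_mul, mul_sub,
      Finset.mul_sum, Finset.sum_add_distrib, mul_assoc]
    ring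
  · change e' (P.u i) = 0
    rw [h1, Finset.sum_eq_single i (fun j _ hj => by rw [P.ne j i hj, map_zero, zero_mul])
      (by simp), P.self, map_one, one_mul, sub_self]

variable {k F τ : Type} [Field k] [Field F] [Algebra k F] (y : Option τ → F) (h : MP τ k)

/-- the ring `k[y, 1 / h]` -/
def gA : Subalgebra k F where
  carrier := {f | ∃ (m : ℕ) (ρ : MP (Option τ) k), f * aeval y (up h) ^ m = aeval y ρ}
  mul_mem' := fun ⟨m, ρ, e⟩ ⟨m', ρ', e'⟩ => ⟨m + m', ρ * ρ', by rw [map_mul, ← e, ← e']; ring⟩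
  add_mem' := fun ⟨m, ρ, e⟩ ⟨m', ρ', e'⟩ => ⟨m + m', ρ * up h ^ m' + up h ^ m * ρ', by
    rw [map_add, map_mul, map_mul, map_pow, map_pow, ← e, ← e']; ring⟩
  algebraMap_mem' := fun a => ⟨0, C a, by simp⟩

/-- the generators -/
def gY (i : Option τ) : gA y h := ⟨y i, 0, X i, by simp⟩

theorem gY_aeval (ρ : MP (Option τ) k) : ((aeval (gY y h) ρ : gA y h) : F) = aeval y ρ :=
  comp_aeval_apply (gY y h) (gA y h).val ρ

theorem gA_den (f : gA y h) : ∃ (m : ℕ) (ρ : MP (Option τ) k),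
    f * aeval (gY y h) (up h) ^ m = aeval (gY y h) ρ :=
  let ⟨m, ρ, e⟩ := f.2
  ⟨m, ρ, Subtype.ext (by simpa only [MulMemClass.coe_mul, SubmonoidClass.coe_pow, gY_aeval] using e)⟩

variable {y h}

theorem gA_un (h0 : aeval y (up h) ≠ 0) : IsUnit (aeval (gY y h) (up h)) :=
  .of_mul_eq_one ⟨(aeval y (up h))⁻¹, 1, 1, by rw [pow_one, inv_mul_cancel₀ h0, map_one]⟩
    (Subtype.ext (by rw [MulMemClass.coe_mul, gY_aeval]; exact mul_inv_cancel₀ h0))

theorem gA_loc (h0 : aeval y (up h) ≠ 0) :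
    ∃ a : Localization.Away (up h) →ₐ[k] gA y h, Function.Surjective a ∧
      ∀ ρ : MP (Option τ) k, a (algebraMap _ _ ρ) = aeval (gY y h) ρ := by
  have hu : ∀ s : Submonoid.powers (up h), IsUnit (aeval (gY y h) (s : MP (Option τ) k)) := by
    rintro ⟨_, n, rfl⟩
    rw [map_pow]
    exact (gA_un h0).pow n
  have e : ∀ ρ, IsLocalization.liftAlgHom (S := Localization.Away (up h)) hu (algebraMap _ _ ρ) =
      aeval (gY y h) ρ := fun ρ => IsLocalization.lift_eq hu ρ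
  refine ⟨_, fun f => ?_, e⟩
  obtain ⟨m, ρ, e1⟩ := gA_den y h f
  refine ⟨IsLocalization.mk' _ ρ (⟨_, m, rfl⟩ : Submonoid.powers (up h)), ?_⟩
  refine ((gA_un h0).pow m).mul_right_cancel ?_
  rw [e1, ← map_pow, ← e, ← map_mul, IsLocalization.mk'_spec, e]

theorem gA_eft [Finite τ] (hk : Algebra.EssFiniteType ℤ k) (h0 : aeval y (up h) ≠ 0) :
    Algebra.EssFiniteType ℤ (gA y h) := by
  obtain ⟨a, ha, -⟩ := gA_loc h0
  have e1 : Algebra.EssFiniteType (MP (Option τ) k) (Localization.Away (up h)) :=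
    .of_isLocalization _ (Submonoid.powers (up h))
  have e2 : Algebra.EssFiniteType k (Localization.Away (up h)) := .comp k (MP (Option τ) k) _
  have e3 := Algebra.EssFiniteType.of_surjective a ha
  exact .comp ℤ k _

theorem gA_pt {χ : MP (Option τ) k} (hχ : ∀ ρ, aeval y ρ = 0 → χ ∣ ρ) (h0 : aeval y (up h) ≠ 0)
    (L : Type) [Field L] (φ : k →+* L) (z : Option τ → L) (h1 : eval₂ φ z χ = 0)
    (h2 : eval₂ φ z (up h) ≠ 0) :
    ∃ x : gA y h →+* L, (∀ a, x (algebraMap k _ a) = φ a) ∧ ∀ i, x (gY y h i) = z i := by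
  obtain ⟨a, ha, e⟩ := gA_loc h0
  let b : Localization.Away (up h) →+* L :=
    IsLocalization.Away.lift (g := eval₂Hom φ z) (up h) h2.isUnit
  have e' : ∀ ρ, b (algebraMap _ _ ρ) = eval₂ φ z ρ := fun ρ => IsLocalization.Away.lift_eq _ _ ρ
  have hk : RingHom.ker (a : Localization.Away (up h) →+* gA y h) ≤ RingHom.ker b := fun w hw => by
    obtain ⟨⟨ρ, _, n, rfl⟩, e1⟩ := IsLocalization.surj (Submonoid.powers (up h)) w
    have e2 := congrArg a e1
    rw [map_mul, show a w = 0 from hw, zero_mul, e] at e2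
    obtain ⟨q, rfl⟩ := hχ ρ (by rw [← gY_aeval y h, ← e2]; rfl)
    have e3 := congrArg b e1
    rw [map_mul, e', e', eval₂_mul, h1, zero_mul, eval₂_pow] at e3
    exact (mul_eq_zero.1 e3).resolve_right (pow_ne_zero _ h2)
  have e4 : ∀ ρ, RingHom.liftOfSurjective _ ha ⟨b, hk⟩ (aeval (gY y h) ρ) = eval₂ φ z ρ :=
    fun ρ => by
      rw [← e, ← e']
      exact RingHom.liftOfRightInverse_comp_apply _ _ _ ⟨b, hk⟩ _
  exact ⟨_, fun c => by simpa using e4 (C c), fun i => by simpa using e4 (X i)⟩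

variable {p : ℕ} [Fact p.Prime] [CharP k p] {t : k}

theorem P1.kill (ht : P1 p t) {A W : Type} [CommRing A] [Algebra k A] [AddCommGroup W] [Module A W]
    (D : Derivation ℤ A W) (h0 : D (algebraMap k A t) = 0) (c : k) : D (algebraMap k A c) = 0 := by
  rw [← D.liftKaehlerDifferential_comp_D] at h0 ⊢
  change D.liftKaehlerDifferential (ZFd.dK _) = 0
  rw [← ZFd.pb_d, ht.dK, ZFd.pb_smul_d, map_smul, h0, smul_zero]

theorem gA_der [Fintype τ] (ht : P1 p t) {χ : MP (Option τ) k} (hχ : aeval y χ = 0)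
    (h0 : aeval y (up h) ≠ 0) (h1 : IsUnit (aeval (gY y h) (pderiv none χ))) {W : Type}
    [AddCommGroup W] [Module (gA y h) W] (D : Derivation ℤ (gA y h) W)
    (d0 : D (algebraMap k _ t) = 0) (d1 : ∀ i, D (gY y h (some i)) = 0) : D = 0 := by
  have d2 := ht.kill D d0
  have d3 : D (gY y h none) = 0 := by
    have e := ZFd.der_aeval D d2 (gY y h) χ
    rw [show aeval (gY y h) χ = 0 from Subtype.ext ((gY_aeval y h χ).trans hχ), map_zero,
      Fintype.sum_option, Finset.sum_eq_zero fun i _ => by rw [d1, smul_zero], add_zero] at e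
    exact (h1.smul_eq_zero).1 e.symm
  have d4 : ∀ ρ, D (aeval (gY y h) ρ) = 0 := fun ρ => by
    rw [ZFd.der_aeval D d2]
    refine Finset.sum_eq_zero fun i _ => ?_
    cases i
    exacts [by rw [d3, smul_zero], by rw [d1, smul_zero]]
  ext f
  obtain ⟨m, ρ, e⟩ := gA_den y h f
  have e1 := congrArg D e
  rw [d4, ← map_pow, Derivation.leibniz, d4, smul_zero, zero_add, map_pow] at e1
  exact (((gA_un h0).pow m).smul_eq_zero).1 e1

end Pool.Agent.ZFN
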