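import Pool.Agent.Lib.MP_751085_ag.ZF.C.Defs
import Pool.Agent.Lib.MP_751085_ag.ZC.L.Fld

/-! The chart coordinates of the generic point. -/

namespace Pool.Agent.ZFN

open Pool.Agent.ZCy MvPolynomial
open scoped Classical Polynomial

/-- as a polynomial in all variables -/
noncomputable abbrev ut {R τ : Type} [CommRing R] (q : (MP τ R)[X]) : MP (Option τ) R :=
  (optionEquivLeft R τ).symm q

theorem eval₂_ut {R S τ : Type} [CommRing R] [CommRing S] (φ : R →+* S) (z : Option τ → S)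
    (q : (MP τ R)[X]) : eval₂ φ z (ut q) = ev φ (fun i => z (some i)) (z none) q := by
  rw [eval₂_tp, tp, AlgEquiv.apply_symm_apply]

variable {k σ : Type} [Field k] {X : Var k} (c : Chart k σ X.N (X.IK k))

/-- the vector `(θ, ξ)` -/
noncomputable def cy : Option (Option σ) → X.F :=
  fun i => i.elim (c.tht (algebraMap k X.F) X.g) (c.xi (algebraMap k X.F) X.g)

/-- the function field is the function field of the hypersurface -/
structure Gp : Prop where
  ker : ∀ ρ, aeval (cy c) ρ = 0 ↔ ut c.χ ∣ ρ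
  ne : ∀ h : MP (Option σ) k, h ≠ 0 → aeval (cy c) (up h) ≠ 0
  frac : ∀ z : X.F, ∃ (h : MP (Option σ) k) (ρ : MP (Option (Option σ)) k), h ≠ 0 ∧
    z * aeval (cy c) (up h) = aeval (cy c) ρ
  dom : ∃ u : X.F, u ≠ 0 ∧ ∀ j, aeval (cy c) (ut (c.pp j)) = u * X.g j

variable {c}

theorem gp_of {F' : Type} [Field F'] [Algebra (RF (Option σ) k) F'] [Algebra k F'] {θ : F'}
    {γ : X.F →+* F'} (h : X.Fld c F' θ γ) (hG : c.GI) : Gp c := by
  obtain ⟨-, h1, h2⟩ := h.coord
  have e0 : γ.comp (algebraMap k X.F) = (toE (MP (Option σ) k) F').comp C :=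
    RingHom.ext fun a => (h.dom.1 a).trans (h.alg a)
  have e1 : ∀ G : Fm X.N k, γ (eval₂ (algebraMap k X.F) X.g G) =
      eval₂ ((toE (MP (Option σ) k) F').comp C) (fun i => γ (X.g i)) G := fun G => by
    rw [eval₂_comp_left, e0]
    rfl
  have e2 : ∀ ρ, γ (aeval (cy c) ρ) = ev ((toE (MP (Option σ) k) F').comp C)
      (fun i => toE (MP (Option σ) k) F' (MvPolynomial.X i)) θ (tp ρ) := fun ρ => by
    rw [aeval_def, eval₂_tp, map_ev, e0, ← h2, ← funext h1]
    simp only [cy, Option.elim, Chart.xi, Chart.tht, map_div₀, e1]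
    rfl
  have e3 : ∀ ρ, γ (aeval (cy c) ρ) =
      Polynomial.aeval θ ((tp ρ).map (algebraMap _ (RF (Option σ) k))) := fun ρ => by
    rw [e2, ev_def, fld_hom, Polynomial.aeval_def, Polynomial.eval₂_map]
  have e4 : ∀ a, γ (aeval (cy c) (up a)) = toE _ F' a := fun a => by
    rw [e3, tp_up, Polynomial.map_C, Polynomial.aeval_C]
    rfl
  refine ⟨fun ρ => ?_, fun a ha e => ?_, fun z => ?_, ?_⟩
  · rw [← map_eq_zero_iff γ γ.injective, e3, ← minpoly.dvd_iff,
      ← minpoly.eq_of_irreducible_of_monic hG.irr (fld_root h.ff) (c.monic.map _),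
      Polynomial.map_dvd_map _ (IsFractionRing.injective _ _) c.monic,
      ← map_dvd_iff (optionEquivLeft k (Option σ)), AlgEquiv.apply_symm_apply]
  · exact ha (toE_inj F' (((e4 a).symm.trans (congrArg γ e)).trans (by simp)))
  · obtain ⟨q, hq⟩ : γ z ∈ (Polynomial.aeval (R := RF (Option σ) k) θ).range := by
      rw [← Algebra.adjoin_singleton_eq_range_aeval, fld_adj h.ff]
      trivial
    obtain ⟨b, hb, e⟩ := IsLocalization.integerNormalization_spec
      (nonZeroDivisors (MP (Option σ) k)) q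
    refine ⟨b, ut (IsLocalization.integerNormalization (nonZeroDivisors (MP (Option σ) k)) q),
      nonZeroDivisors.ne_zero hb, γ.injective ?_⟩
    rw [map_mul, e4, e3, tp, AlgEquiv.apply_symm_apply, e, ← algebraMap_smul (RF (Option σ) k),
      map_smul, Algebra.smul_def, mul_comm, ← hq]
    rfl
  · obtain ⟨u, hu, hx⟩ := h.dom.2
    obtain ⟨u, rfl⟩ := h.bij.2 u
    refine ⟨u, fun e => hu (by rw [e, map_zero]), fun j => γ.injective ?_⟩
    rw [e2, tp, AlgEquiv.apply_symm_apply, map_mul]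
    exact hx j

theorem exists_gp [Fintype σ] [Infinite k] (hC : CHFp) (hN : N1p) {p : ℕ} [Fact p.Prime]
    [CharP k p] {n : ℕ} (hX : X.Nice n) (hσ : Fintype.card σ + 1 = n) :
    ∃ c : Chart k σ X.N (X.IK k), Gp c := by
  obtain ⟨c, -⟩ := hN k X n hX σ hσ k ∅ (by simp) 1 ⟨0, isHomogeneous_one _ _⟩
    (fun e => one_ne_zero ((map_one _).symm.trans e.2)) (p + 1)
    (Nat.succ_le_succ (Fact.out : p.Prime).one_le) (by simp)
  obtain ⟨hG, H⟩ := hC k X n hX k σ c hσ
  obtain ⟨F', _, _, θ, hF⟩ := hG.exists_FF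
  let : Algebra k F' := ((toE (MP (Option σ) k) F').comp C).toAlgebra
  obtain ⟨γ, hγ⟩ := H F' θ hF fun _ => rfl
  exact ⟨c, gp_of hγ hG⟩

end Pool.Agent.ZFN
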