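import Pool.Agent.Lib.MP_751085_ag.ZF.N.G3
import Pool.Agent.Lib.MP_751085_ag.ZF.N.G4
import Pool.Agent.Lib.MP_751085_ag.ZC.CAl2

/-! The ring of an open part of a chart. -/

namespace Pool.Agent.ZFN

open Pool.Agent.ZCy MvPolynomial
open scoped Classical Polynomial

variable {k σ : Type} [Field k] {X : Var k} (c : Chart k σ X.N (X.IK k)) (h : MP (Option σ) k)

/-- the homogeneous coordinates of the generic point -/
noncomputable abbrev cg (j : Fin (X.N + 1)) : gA (cy c) h := aeval (gY (cy c) h) (ut (c.pp j))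

/-- evaluation at the generic point -/
noncomputable abbrev cE : (MP (Option σ) k)[X] →+* gA (cy c) h :=
  ev (algebraMap k _) (fun i => gY (cy c) h (some i)) (gY (cy c) h none)

theorem cE_ut (q : (MP (Option σ) k)[X]) : aeval (gY (cy c) h) (ut q) = cE c h q := eval₂_ut _ _ q

theorem cE_C (a : MP (Option σ) k) : cE c h (Polynomial.C a) = aeval (gY (cy c) h) (up a) := by
  rw [← cE_ut, ← tp_up, ut, tp, AlgEquiv.symm_apply_apply]

theorem cE_sb (G : Fm X.N k) : cE c h (sb c.pp G) = aeval (cg c h) G := by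
  rw [ev_sb, aeval_def]
  exact congrArg (eval₂ _ · G) (funext fun j => (cE_ut c h _).symm)

variable {c h}

theorem Gp.root (hp : Gp c) : cE c h c.χ = 0 :=
  (cE_ut c h _).symm.trans (Subtype.ext ((gY_aeval _ _ _).trans ((hp.ker _).2 dvd_rfl)))

theorem Gp.xi (hp : Gp c) (i : Option σ) :
    gY (cy c) h (some i) * aeval (cg c h) (c.f none) = aeval (cg c h) (c.f (some i)) := by
  have e := map_dvd (cE c h) (c.dv_f i)
  rw [hp.root, zero_dvd_iff, map_sub, map_mul, ev_C, eval₂_X, cE_sb, cE_sb, sub_eq_zero] at e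
  exact e.symm

theorem Gp.th (hp : Gp c) :
    gY (cy c) h none * aeval (cg c h) (c.f none) = aeval (cg c h) c.th := by
  have e := map_dvd (cE c h) c.dv_th
  rw [hp.root, zero_dvd_iff, map_sub, map_mul, ev_X, cE_sb, cE_sb, sub_eq_zero] at e
  exact e.symm

variable (hp : Gp c) (h0 : h ≠ 0) (hD : c.D ∣ h)
include hp h0 hD

theorem Gp.unD : IsUnit (cE c h (Polynomial.C c.D)) := by
  rw [cE_C]
  exact isUnit_of_dvd_unit (map_dvd _ (map_dvd _ hD)) (gA_un (hp.ne h h0))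

theorem Gp.et : IsUnit (aeval (gY (cy c) h) (pderiv none (ut c.χ))) := by
  obtain ⟨α, β, e⟩ := c.bez
  have e1 := hp.unD h0 hD
  rw [e, map_add, map_mul, map_mul, hp.root, mul_zero, zero_add] at e1
  have e2 : pderiv none (ut c.χ) = ut (Polynomial.derivative c.χ) :=
    (AlgEquiv.eq_symm_apply _).2 ((tp_pderiv _).trans (by rw [tp, AlgEquiv.apply_symm_apply]))
  rw [e2, cE_ut]
  exact isUnit_of_mul_isUnit_right e1

theorem Gp.unf : IsUnit (aeval (cg c h) (c.f none)) := by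
  by_contra e
  obtain ⟨𝔪, hm, e1⟩ := exists_max_ideal_of_mem_nonunits e
  let := Ideal.Quotient.field 𝔪
  refine (c.ne (gA (cy c) h ⧸ 𝔪) ((Ideal.Quotient.mk 𝔪).comp (algebraMap k _))
    (fun i => Ideal.Quotient.mk 𝔪 (gY (cy c) h (some i))) (Ideal.Quotient.mk 𝔪 (gY (cy c) h none))
    ?_ ?_).1 ?_
  · rw [← map_ev, hp.root, map_zero]
  · rw [← ev_C _ _ (Ideal.Quotient.mk 𝔪 (gY (cy c) h none)), ← map_ev]
    exact ((hp.unD h0 hD).map _).ne_zero
  · rw [← map_ev, cE_sb]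
    exact Ideal.Quotient.eq_zero_iff_mem.2 e1

theorem Gp.form : ∃ (e : ℕ) (H : Fm X.N k), H.IsHomogeneous (c.d * e) ∧
    aeval (cg c h) H = aeval (cg c h) (c.f none) ^ e * aeval (gY (cy c) h) (up h) := by
  obtain ⟨e, H, h1, h2⟩ := fld_form c h
  have e1 : ∀ G : Fm X.N k, eval₂ (algebraMap k X.F) (fun j => (cg c h j : X.F)) G =
      ((aeval (cg c h) G : gA (cy c) h) : X.F) := fun G =>
    (comp_aeval_apply (cg c h) (gA (cy c) h).val G).symm
  have e2 : eval₂ (algebraMap k X.F) (fun j => (cg c h j : X.F)) (c.f none) ≠ 0 := by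
    rw [e1]
    exact ((hp.unf h0 hD).map (gA (cy c) h).val).ne_zero
  have e3 : c.xi (algebraMap k X.F) (fun j => (cg c h j : X.F)) = fun i => cy c (some i) :=
    funext fun i => (div_eq_iff e2).2 (by rw [e1, e1, ← hp.xi]; rfl)
  refine ⟨e, H, h1, Subtype.ext ?_⟩
  rw [← e1, h2 _ _ _ e2, e3, e1, ← eval₂_up, ← aeval_def, ← gY_aeval _ h]
  rfl

theorem Gp.rep : ∃ (l : Fm X.N k) (e : ℕ), l.IsHomogeneous e ∧ 0 < e ∧ IsUnit (aeval (cg c h) l) ∧
    ∀ f : gA (cy c) h, ∃ (m : ℕ) (G : Fm X.N k), G.IsHomogeneous (m * e) ∧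
      f * aeval (cg c h) l ^ m = aeval (cg c h) G := by
  obtain ⟨e, H, h1, h2⟩ := hp.form h0 hD
  have h3 : ((c.f none) * H).IsHomogeneous (c.d + c.d * e) := (c.hf none).mul h1
  have h4 : ∀ ρ, ∃ (m : ℕ) (G : Fm X.N k), G.IsHomogeneous (m * (c.d + c.d * e)) ∧
      aeval (gY (cy c) h) ρ * aeval (cg c h) (c.f none * H) ^ m = aeval (cg c h) G := fun ρ => by
    induction ρ using MvPolynomial.induction_on with
    | C a => exact ⟨0, C a, by simpa using isHomogeneous_C _ a, by simp⟩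
    | add a b ha hb =>
      obtain ⟨m, G, g1, g2⟩ := ha
      obtain ⟨m', G', g1', g2'⟩ := hb
      refine ⟨m + m', G * (c.f none * H) ^ m' + (c.f none * H) ^ m * G', ?_, ?_⟩
      · rw [add_mul]
        exact (g1.mul (mul_comm m' _ ▸ h3.pow m')).add ((mul_comm m _ ▸ h3.pow m).mul g1')
      · rw [map_add, map_add, map_mul _ G, map_mul _ _ G', map_pow, map_pow, ← g2, ← g2']
        ring
    | mul_X a i ha =>
      obtain ⟨m, G, g1, g2⟩ := ha
      obtain ⟨G', g3, g4⟩ : ∃ G' : Fm X.N k, G'.IsHomogeneous c.d ∧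
          gY (cy c) h i * aeval (cg c h) (c.f none) = aeval (cg c h) G' := by
        cases i
        exacts [⟨_, c.hth, hp.th⟩, ⟨_, c.hf _, hp.xi _⟩]
      refine ⟨m + 1, G * (G' * H), ?_, ?_⟩
      · rw [add_mul, one_mul]
        exact g1.mul (g3.mul h1)
      · rw [map_mul _ G, ← g2]
        simp only [map_mul, aeval_X, ← g4]
        ring
  refine ⟨_, _, h3, Nat.add_pos_left c.dpos _, ?_, fun f => ?_⟩
  · rw [map_mul, h2]
    exact (hp.unf h0 hD).mul (((hp.unf h0 hD).pow e).mul (gA_un (hp.ne h h0)))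
  · obtain ⟨n, ρ, e1⟩ := gA_den _ _ f
    obtain ⟨m, G, g1, g2⟩ := h4 ρ
    refine ⟨m + n, G * c.f none ^ ((1 + e) * n), ?_, ?_⟩
    · have := g1.mul ((c.hf none).pow ((1 + e) * n))
      rwa [show m * (c.d + c.d * e) + c.d * ((1 + e) * n) = (m + n) * (c.d + c.d * e) by ring] at this
    · rw [map_mul _ G, ← g2, ← e1, pow_add _ m, map_pow]
      simp only [map_mul, h2]
      ring

end Pool.Agent.ZFN
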