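import Pool.Agent.Lib.MP_751085_ag.ZF.N.GDefs
import Pool.Agent.Lib.MP_751085_ag.ZF.N.G2
import Pool.Agent.Lib.MP_751085_ag.ZF.N.G5
import Pool.Agent.Lib.MP_751085_ag.ZF.E.Geo

/-! The `p`-basis given by a chart. -/

namespace Pool.Agent.ZFN

open Pool.Agent.ZCy MvPolynomial
open scoped Classical

section

variable {p : ℕ} [Fact p.Prime] {F ι : Type} [Field F] [CharP F p] [Fintype ι] {u : ι → F}

/-- the derivations dual to a `p`-basis -/
noncomputable def ofPB (h : ZFd.PB p ⊤ u) : PB p F ι where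
  u := u
  d := ZFd.der u
  self i := by rw [h.der_u, if_pos rfl]
  ne i j e := by rw [h.der_u, if_neg e.symm]
  comm := h.der_comm
  nil := h.der_iter
  ker y e := h.eq_pow (by
    rw [← h.sum_co (ZFd.dK y)]
    exact Finset.sum_eq_zero fun i _ => by rw [← ZFd.der_apply, e, zero_smul])

/-- the restriction to a subring -/
noncomputable def resDR {k : Type} [Field k] [Algebra k F] {A : Subalgebra k F}
    (h : ZFd.PB p A.toSubring u) : DR A ι where
  u i := ⟨u i, h.mem i⟩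
  d i := Derivation.mk' (AddMonoidHom.toIntLinearMap
    { toFun := fun f => ⟨ZFd.der u i f, h.der_mem i f.2⟩
      map_zero' := Subtype.ext (map_zero _)
      map_add' := fun _ _ => Subtype.ext (map_add _ _ _) })
    fun a b => Subtype.ext ((ZFd.der u i).leibniz a b)
  self i := Subtype.ext ((ofPB h.top).self i)
  ne i j e := Subtype.ext ((ofPB h.top).ne i j e)

end

variable {p : ℕ} [Fact p.Prime] {k σ : Type} [Field k] [CharP k p] {t : k} {X : Var k}
  [CharP X.F p] [Fintype σ] {c : Chart k σ X.N (X.IK k)} {h : MP (Option σ) k} {n : ℕ}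

variable (t c) in
/-- the vector `(t, ξ)` -/
noncomputable def cu : Option (Option σ) → X.F :=
  fun i => i.elim (algebraMap k X.F t) fun j => cy c (some j)

theorem Gp.pb (hp : Gp c) (h0 : h ≠ 0) (hD : c.D ∣ h) (hk : ZFd.Bs p t) (hX : X.Nice n)
    (hσ : Fintype.card σ + 1 = n) : ZFd.PB p (gA (cy c) h).toSubring (cu t c) := by
  let := ZMod.algebra k p
  let := ZMod.algebra X.F p
  have : IsScalarTower (ZMod p) k X.F := IsScalarTower.of_algebraMap_eq' (Subsingleton.elim _ _)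
  refine pb_of_der (gA_eft hk.eft (hp.ne h h0)) (fun z => ?_) (fun i => ?_)
    (fun W _ _ D hD' => ?_) ?_
  · obtain ⟨a, ρ, h1, h2⟩ := hp.frac z
    exact ⟨_, ⟨0, up a, by simp⟩, hp.ne a h1, 0, ρ, by rw [pow_zero, mul_one, mul_comm, h2]⟩
  · cases i
    exacts [(gA (cy c) h).algebraMap_mem t, (gY (cy c) h (some _)).2]
  · exact gA_der hk.pb ((hp.ker _).2 dvd_rfl) (hp.ne h h0) (hp.et h0 hD) D (hD' none)
      fun i => hD' (some i)
  · rw [← trdeg_add_eq (ZMod p) k (A := X.F), hX.dim, Fintype.card_option, Fintype.card_option, hσ,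
      add_comm n, Nat.cast_add]
    exact add_le_add hk.gk.tr le_rfl

theorem Gp.cr (hp : Gp c) (h0 : h ≠ 0) (hD : c.D ∣ h) (hk : ZFd.Bs p t)
    (hA : ZFd.PB p (gA (cy c) h).toSubring (cu t c)) :
    ∃ R : CR X (ofPB hA.top).toDR, R.A = gA (cy c) h := by
  obtain ⟨l, e, h1, h2, h3, h4⟩ := hp.rep h0 hD
  obtain ⟨u, u0, hu⟩ := hp.dom
  exact ⟨{
    A := gA (cy c) h
    P := resDR hA
    y := gY (cy c) h
    χ := ut c.χ
    h := h
    pp := fun j => ut (c.pp j)
    l := l
    e := e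
    hu := fun _ => rfl
    hd := fun _ _ => rfl
    hy := fun _ => rfl
    ch := DR.ch_of _ fun W _ _ D hD' => gA_der hk.pb ((hp.ker _).2 dvd_rfl) (hp.ne h h0)
      (hp.et h0 hD) D (hD' none) fun i => hD' (some i)
    monic := by
      rw [tp, AlgEquiv.apply_symm_apply]
      exact c.monic
    root := (cE_ut c h _).trans hp.root
    et := hp.et h0 hD
    hun := gA_un (hp.ne h h0)
    den := gA_den _ _
    pt := gA_pt (fun ρ => (hp.ker ρ).1) (hp.ne h h0)
    dom := ⟨u, u0, fun j => (gY_aeval _ _ _).trans (hu j)⟩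
    hl := h1
    epos := h2
    lun := h3
    rep := h4 }, rfl⟩

omit [Fact p.Prime] [CharP k p] [CharP X.F p] [Fintype σ] in
theorem Gp.den (hp : Gp c) {S : Set X.F} (hS : S.Finite) :
    ∃ h, h ≠ 0 ∧ c.D ∣ h ∧ ∀ f ∈ S, ∃ ρ : MP (Option (Option σ)) k,
      f * aeval (cy c) (up h) = aeval (cy c) ρ := by
  induction S, hS using Set.Finite.induction_on with
  | empty => exact ⟨_, c.D_ne, dvd_rfl, by simp⟩
  | @insert z S _ _ ih =>
    obtain ⟨h, h1, h2, h3⟩ := ih
    obtain ⟨a, ρ, h4, h5⟩ := hp.frac z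
    refine ⟨h * a, mul_ne_zero h1 h4, h2.mul_right a, fun f hf => ?_⟩
    rw [up, map_mul, map_mul]
    rcases hf with rfl | hf
    · exact ⟨up h * ρ, by rw [map_mul, ← h5, mul_left_comm]⟩
    · obtain ⟨ρ', e⟩ := h3 f hf
      exact ⟨ρ' * up a, by rw [map_mul, ← e, mul_assoc]⟩

omit [CharP X.F p] in
theorem exists_chb (hC : CHFp) (hN : N1p) (hk : Algebra.EssFiniteType ℤ k) (ht : P1 p t)
    (hX : X.Nice n) (σ : Type) [Fintype σ] (hσ : Fintype.card σ + 1 = n) :
    ∃ PF : PB p X.F (Option (Option σ)), ChB p X t PF := by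
  have : CharP X.F p := charP_of_injective_algebraMap (algebraMap k X.F).injective p
  have : Infinite k := not_finite_iff_infinite.1 fun _ =>
    (surjective_frobenius k p t).elim fun z e => ht.not_pow z e.symm
  have hb : ZFd.Bs p t := ⟨hk, ht⟩
  obtain ⟨c, hp⟩ := exists_gp (σ := σ) hC hN (p := p) hX hσ
  have hP := (hp.pb c.D_ne dvd_rfl hb hX hσ).top
  have e : ∀ i a, ZFd.der (cu t c) i (algebraMap k X.F a) =
      algebraMap k X.F (dT t a) * ZFd.der (cu t c) i (cu t c none) := fun i a => by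
    rw [ZFd.der_apply, ← ZFd.pb_d, ht.dK, ZFd.pb_smul_d, map_smul]
    rfl
  refine ⟨ofPB hP, ⟨rfl, fun a => ?_, fun i a => ?_⟩, hP, fun _ => rfl,
    fun S hS => exists_stab hb.gk hX _ hS, fun S hS => ?_⟩
  · exact (e _ a).trans (by rw [hP.der_u, if_pos rfl, mul_one])
  · exact (e _ a).trans (by rw [hP.der_u, if_neg (by simp), mul_zero])
  · obtain ⟨h, h0, hD, H⟩ := hp.den hS
    obtain ⟨R, hR⟩ := hp.cr h0 hD hb (hp.pb h0 hD hb hX hσ)
    exact ⟨R, fun f hf => hR ▸ ⟨1, (H f hf).imp fun _ e => by rw [pow_one, e]⟩⟩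

end Pool.Agent.ZFN
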