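import Pool.Agent.Lib.MP_751085_ag.ZF.N.CDefs
import Pool.Agent.Lib.MP_751085_ag.ZF.N.A4
import Pool.Agent.Lib.MP_751085_ag.ZF.N.B4
import Pool.Agent.Lib.MP_751085_ag.ZF.N.Iface

/-! The coordinate ring of an open part of a chart. -/

namespace Pool.Agent.ZFN

open Pool.Agent.ZCy
open scoped Classical
open MvPolynomial

variable {k : Type} [Field k]

/-- The ring `A = k[ξ, θ, 1 / h]` inside the function field. The vector `y` is `(θ, ξ)`, the generic
point has the homogeneous coordinates `pp (y)`, the form `l` does not vanish on the spectrum. -/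
structure CR (X : Var k) {τ : Type} [Fintype τ] (PF : DR X.F (Option τ)) where
  A : Subalgebra k X.F
  P : DR A (Option τ)
  y : Option τ → A
  χ : MP (Option τ) k
  h : MP τ k
  pp : Fin (X.N + 1) → MP (Option τ) k
  l : Fm X.N k
  e : ℕ
  hu : ∀ i, (P.u i : X.F) = PF.u i
  hd : ∀ i f, (P.d i f : X.F) = PF.d i f
  hy : ∀ i, y (some i) = P.u (some i)
  ch : P.CH
  monic : (tp χ).Monic
  root : aeval y χ = 0
  et : IsUnit (aeval y (pderiv none χ))
  hun : IsUnit (aeval y (up h))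
  den : ∀ f : A, ∃ (m : ℕ) (ρ : MP (Option τ) k), f * aeval y (up h) ^ m = aeval y ρ
  pt : ∀ (L : Type) [Field L] (φ : k →+* L) (z : Option τ → L), eval₂ φ z χ = 0 →
    eval₂ φ z (up h) ≠ 0 → ∃ x : A →+* L, (∀ a, x (algebraMap k A a) = φ a) ∧ ∀ i, x (y i) = z i
  dom : ∃ u : X.F, u ≠ 0 ∧ ∀ j, ((aeval y (pp j) : A) : X.F) = u * X.g j
  hl : l.IsHomogeneous e
  epos : 0 < e
  lun : IsUnit (aeval (fun j => aeval y (pp j)) l)
  rep : ∀ f : A, ∃ (m : ℕ) (G : Fm X.N k), G.IsHomogeneous (m * e) ∧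
    f * aeval (fun j => aeval y (pp j)) l ^ m = aeval (fun j => aeval y (pp j)) G

variable {X : Var k} {τ : Type} [Fintype τ] {PF : DR X.F (Option τ)} (R : CR X PF)

/-- the homogeneous coordinates of the generic point -/
noncomputable def CR.g (j : Fin (X.N + 1)) : R.A := aeval R.y (R.pp j)

/-- the homogeneous coordinates of a point -/
noncomputable def CR.pv {S : Type} [CommRing S] (x : R.A →+* S) (j : Fin (X.N + 1)) : S :=
  x (R.g j)

/-- `x` is the evaluation at the point `z` -/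
def CR.Ev {M : Type} [Field M] [Algebra k M] (x : R.A →+* M) (z : Fin (X.N + 1) → M) : Prop :=
  (∀ a, x (algebraMap k R.A a) = algebraMap k M a) ∧ ∀ f : R.A, X.Reg z f (x f)

/-- the jets given by points and directions -/
noncomputable def CR.jets {k₁ : Type} [Field k₁] [Algebra k k₁] [FiniteDimensional k k₁]
    [Algebra.IsSeparable k k₁] {s : ℕ} (Q : Fin s → R.A →ₐ[k] k₁) (g : Fin s → τ → k) :
    Jets k X.N where
  K := k₁
  s := s
  Q j := R.pv (Q j : R.A →+* k₁)
  w j i := R.P.grad (Q j : R.A →+* k₁) (fun l => algebraMap k k₁ (g j l)) (R.g i)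

/-- A `p`-basis of the function field that comes from a chart. -/
structure ChB (p : ℕ) (X : Var k) {τ : Type} [Fintype τ] (t : k) (PF : PB p X.F (Option τ)) :
    Prop where
  cmp : PF.toDR.Cmp t (dT t)
  pb : ZFd.PB p ⊤ PF.u
  der : ∀ i, PF.d i = ZFd.der PF.u i
  stab : ∀ S : Set (Option τ → X.F), S.Finite → ∃ E : Set (Option τ → X.F), E.Finite ∧
    (∀ η ∈ S, η ∈ Submodule.span k E) ∧ PF.Stab p k E
  cr : ∀ S : Set X.F, S.Finite → ∃ R : CR X PF.toDR, ∀ f ∈ S, f ∈ R.A

end Pool.Agent.ZFN
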