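import Pool.Agent.Lib.MP_751085_ag.ZF.N.RDefs
import Pool.Agent.Lib.MP_751085_ag.ZF.N.C4
import Pool.Agent.Lib.MP_751085_ag.ZF.N.C5
import Pool.Agent.Lib.MP_751085_ag.ZF.N.G9
import Pool.Agent.Lib.MP_751085_ag.ZF.E.N1

/-! The situation given by a variety over a global function field. -/

namespace Pool.Agent.ZFN

open Pool.Agent.ZCy
open scoped Classical Topology
open MvPolynomial Filter

/-- short cuts for instance search -/
@[reducible] noncomputable def brAG (K : Type) [Field K] : AddGroup (F.BR K) :=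
  (brGroup K _).toAddGroup

/-- short cuts for instance search -/
@[reducible] noncomputable def brAM (K : Type) [Field K] : AddMonoid (F.BR K) :=
  (brAG K).toAddMonoid

attribute [local instance] Place.field Place.alg brGroup brAG brAM

theorem NuOk.nuC {k : Type} [Field k] {v : Place k} {ν : AbsoluteValue (Cb v.K) ℝ} (h : NuOk v ν)
    {π : v.K} (hπ : plw v π < 1) : NuC (plw v) π ν := by
  refine ⟨lt_of_not_ge fun e => hπ.not_ge ?_, fun z hz => ?_⟩
  · exact (map_one (plw v)).ge.trans ((h.2 1 π).1 (by simpa using e))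
  · let := ν.toNormedField
    have := h.1.1
    let w := NormedField.valuation (K := Cb v.K)
    let φ : (plw v).integer →+* w.integer :=
      ((algebraMap v.K (Cb v.K)).comp (plw v).integer.subtype).codRestrict _ fun a => by
        have := (h.2 a 1).2 (le_trans a.2 (map_one (plw v)).ge)
        rw [map_one, map_one] at this
        exact this
    exact (Valuation.integer.integers w).mem_of_integral
      (RingHom.IsIntegralElem.of_comp (f := φ) (g := algebraMap _ _) hz)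

variable {p : ℕ} [Fact p.Prime] (D : DApi p)

/-- the class of the form with the coordinates `η` -/
noncomputable def DApi.cl {E ι : Type} [Field E] [Fintype ι] (u : ι → E) : (ι → E) →+ F.BR E :=
  (D.dl E).comp ((ZFd.mq p).comp
    (Fintype.linearCombination E fun j => (ZFd.dK (u j) : ZFd.Om E)).toAddMonoidHom)

theorem DApi.cl_apply {E ι : Type} [Field E] [Fintype ι] (u η : ι → E) :
    D.cl u η = D.dl E (ZFd.mq p (∑ j, η j • ZFd.dK (u j))) := rfl

theorem DApi.cl_sum {E ι : Type} [Field E] [Fintype ι] (u η : ι → E) :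
    D.cl u η = ∑ j, fcl (D.dl E) (η j) (u j) := by
  rw [D.cl_apply, map_sum, map_sum]

omit [Fact p.Prime] in
theorem P1.hpb {E : Type} [Field E] {t : E} (h : P1 p t) : HPB p E := ⟨_, _, _, h⟩

variable {k : Type} [Field k] [CharP k p] {X : Var k} [CharP X.F p] {ι τ : Type} [Fintype τ]

/-- the global data -/
noncomputable def DApi.fd (B : Pls p k ι) (hD : B.D = dT B.t) {PF : PB p X.F (Option τ)}
    (h : ChB p X B.t PF) : FD p k ι X.F τ (F.BR X.F) where
  B := B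
  P := PF
  cmp := hD ▸ h.cmp
  δ := D.cl PF.u
  δd f := by
    rw [D.cl_apply]
    simp only [DR.dF, h.der, ZFd.der_apply]
    rw [h.pb.sum_co, ZFd.mq_d, map_zero]
  δg ω := by
    have e := (D.ker X.F ⟨_, _, _, h.pb⟩ _).2 ⟨∑ j, ω j • ZFd.dK (PF.u j), rfl⟩
    rw [ZFd.wp_apply, map_sub, h.pb.gam_eq] at e
    simp only [h.pb.co_sum] at e
    exact sub_eq_zero.1 e

/-- the local data -/
noncomputable def DApi.lk {K : Type} [Field K] [CharP K p] (w : Vl K) {π t : K}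
    (h1 : w π = WithZero.exp (-1)) (h2 : Cpl w) (h3 : FinR w) (h4 : P1 p t) : LK p K (F.BR K) where
  w := w
  π := π
  t := t
  κ := (D.dl K).comp ((ZFd.mq p).comp (LinearMap.toSpanSingleton K _ (ZFd.dK t)).toAddMonoidHom)
  unif := h1
  cpl := h2
  fin := h3
  pb := h4
  ker _ := (D.ker K h4.hpb _).trans (h4.wp_om _)

omit [CharP X.F p] in
theorem DApi.val_pb (hE : F.EvApi X) {t : k} {PF : PB p X.F (Option τ)} (h : ChB p X t PF)
    (R : CR X PF.toDR) {K L : Type} [Field K] [CharP K p] [Field L] [Algebra K L] [Algebra k L]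
    [FiniteDimensional K L] [Algebra.IsSeparable K L] {s : K} (hs : P1 p s) {x : R.A →+* L}
    {z : Fin (X.N + 1) → L} (hz : X.On z) (hx : R.Ev x z) (η : Option τ → R.A)
    (hη : D.cl PF.u (up1 R.A.val η) ∈ X.Bw) :
    F.corN K L (X.vl (D.cl PF.u (up1 R.A.val η)) L z) =
      fcl (D.dl K) (Algebra.trace K L (R.P.pb (dT (algebraMap K L s)) x η)) s := by
  have : CharP L p := charP_of_injective_algebraMap (algebraMap K L).injective p
  have hL : P1 p (algebraMap K L s) := hs.ext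
  rw [D.cl_sum] at hη ⊢
  rw [D.val k X hE ⟨_, _, _, h.pb⟩ L hL.hpb z hz _ (up1 R.A.val η) _ (fun j => x (η j))
    (fun j => x (R.P.u j)) (fun j => ⟨hx.2 _, R.hu j ▸ hx.2 _⟩) hη, ← D.cor K L s hs,
    ← map_sum, ← map_sum, DR.pb, fcl, Finset.sum_smul]
  refine congrArg _ (congrArg _ (congrArg _ (Finset.sum_congr rfl fun j _ => ?_)))
  rw [hL.dK (x _), smul_smul]

omit [Fact p.Prime] [CharP k p] [CharP X.F p] in
theorem ptv_eq {K : Type} [Field K] [Algebra k K] {L : IntermediateField K (Cb K)}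
    {x : Fin (X.N + 1) → Cb K} (h : PtL X L x) : ∃ z : Fin (X.N + 1) → L, X.On z ∧
      ∀ a, X.ptv a L x = F.corN K L (X.vl a L z) := by
  refine ⟨fun i => ⟨x i, h.mem i⟩, ⟨fun e => h.on.1 (funext fun i => congrArg Subtype.val
    (congrFun e i)), fun G hG => Subtype.ext ?_⟩, fun _ => dif_pos h.mem⟩
  exact ((comp_aeval_apply _ (L.val.restrictScalars k) G).trans (h.on.2 G hG))

omit [CharP X.F p] in
include D in
theorem exists_sit (F₀ : Type) [Field F₀] [Finite F₀] [Algebra (RatFunc F₀) k]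
    [FiniteDimensional (RatFunc F₀) k] (hC : CHFp) (hN : N1p) (hE : F.EvApi X) (hA : X.AA) {n : ℕ}
    (hX : X.Nice n) (hn : 3 ≤ n) {σ : Type} [Fintype σ] (hσ : Fintype.card σ + 1 = n)
    {ν : ∀ v : Place k, AbsoluteValue (Cb v.K) ℝ} (hν : ∀ v, NuOk v (ν v) ∧ UApi X σ (ν v)) :
    ∃ 𝒮 : Sit p X σ (Place k) (fun v => v.K) (F.BR X.F) (fun v => F.BR v.K) ν,
      𝒮.Bw = X.Bw ∧ (𝒮.pt = fun _ a => X.ptv a) ∧ 𝒮.Φ.B.v = plv := by
  have hfin := D.fin k F₀ X n hX hn
  have hk := eft_of_ratFunc k F₀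
  have hR := fun v : Place k => finR_of_nrm F₀ (plv_nrm v)
  have hR' := plw_finR (k := k) F₀
  obtain ⟨B, hv, ht, hD⟩ : ∃ B : Pls p k (Place k), B.v = plv ∧ P1 p B.t ∧ B.D = dT B.t := by
    obtain ⟨i, h1, h2⟩ := exists_sep_alg k F₀
    obtain ⟨B, b1, b2, b3⟩ := @exists_pls k _ F₀ _ _ _ i h1 h2 plv p _ _ plv_nrm plv_inj
      fun _ hw => plv_surj hw
    exact ⟨B, b1, b2 ▸ @p1_pol k F₀ _ _ _ i h1 h2 p _ _, b2 ▸ b3⟩
  have : CharP X.F p := charP_of_injective_algebraMap (algebraMap k X.F).injective p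
  have : ∀ v : Place k, CharP v.K p := fun v =>
    charP_of_injective_algebraMap (algebraMap k v.K).injective p
  obtain ⟨PF, hP⟩ := exists_chb hC hN hk ht hX σ hσ
  have hπ : ∀ v : Place k, plw v (algebraMap k v.K (B.π v)) = WithZero.exp (-1) := fun v => by
    rw [plw_map, ← hv, B.unif]
  have hK : ∀ v : Place k, P1 p (algebraMap k v.K B.t) := fun v =>
    ht.cpl _ (hπ v) (plw_cpl v) (hR' v)
  refine ⟨{
    Φ := D.fd B hD hP
    𝒦 := fun v => D.lk (plw v) (hπ v) (plw_cpl v) (hR' v) (hK v)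
    Bw := X.Bw
    Cst := (F.rs (algebraMap k X.F)).range
    pt := fun _ a => X.ptv a
    chb := hP
    pb := ht
    hD := hD
    finR := fun v => hv ▸ hR v
    loc := fun v => ⟨fun a => hv ▸ plw_map v a, rfl, rfl, plw_dns v⟩
    top := fun v x r => (plw_nhds v x _).2 ⟨r, fun y hy => (bd_exp (hπ v)).2 hy⟩
    nu := fun v => (hν v).1.nuC ((hπ v).trans_lt (by decide))
    uapi := fun v => (hν v).2
    val := fun R v L Λ hΛ x z hz hx η hη => ?_
    add := fun v a ha b hb L x h => ?_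
    cst_le := ?_
    cst_pt := ?_
    cst_δ := fun b => ⟨D.dl k (ZFd.mq p (b • ZFd.dK B.t)), ?_⟩
    cst_div := ?_
    fin := ?_
    aa := fun a ha => ?_
    lc := fun a ha v L x h => (hν v).2.lc a ha L x h.fd h.mem h.on }, rfl, rfl, hv⟩
  · have := hΛ.fd
    have := hΛ.sep
    rw [hΛ.κ, hΛ.D]
    exact (dif_pos fun i => (z i).2).trans (D.val_pb hE hP R (hK v) hz hx η hη)
  · obtain ⟨z, hz, e⟩ := ptv_eq h
    exact (e _).trans ((congrArg _ (hE.val_add a ha b hb L z hz)).trans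
      (((F.corN v.K L).map_add _ _).trans (congrArg₂ _ (e a).symm (e b).symm)))
  · rintro _ ⟨b, rfl⟩
    exact hE.const b
  · rintro _ ⟨b, rfl⟩ v
    refine ⟨F.rs (algebraMap k v.K) b, fun L x h => ?_⟩
    have := h.fd
    obtain ⟨z, hz, e⟩ := ptv_eq h
    exact (e _).trans ((congrArg _ ((hE.val_const b L z hz).trans
      (F.res_res (Ω' := F.SC v.K) (algebraMap k v.K) (algebraMap v.K L) b).symm)).trans
        (F.corN_res _))
  · rw [D.rs k X.F ht.hpb ⟨_, _, _, hP.pb⟩, ZFd.pbQ_mq, ZFd.pb_smul_d, ← hP.cmp.u]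
    refine Eq.symm ((D.cl_apply _ _).trans ?_)
    simp [Fintype.sum_option, bdt, Algebra.smul_def]
  · rintro _ ⟨b, rfl⟩
    obtain ⟨c, rfl⟩ := D.div k ht.hpb b
    exact ⟨_, ⟨c, rfl⟩, (map_nsmul _ _ _).symm⟩
  · obtain ⟨m, e, he⟩ := hfin
    refine ⟨_, Set.finite_range fun i j => ZFd.co PF.u j (e i), fun a ha h0 => ?_⟩
    obtain ⟨c, rfl⟩ := he a ha h0
    refine ⟨∑ i, c i • fun j => ZFd.co PF.u j (e i),
      sum_mem fun i _ => Submodule.smul_mem _ _ (Submodule.subset_span ⟨i, rfl⟩), ?_⟩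
    refine (D.cl_apply _ _).trans (congrArg _ (congrArg _ ?_))
    refine Eq.trans (Finset.sum_congr rfl fun j _ => ?_) (hP.pb.sum_co _)
    simp [Algebra.smul_def]
  · obtain ⟨S, hS, H⟩ := hA a ha
    filter_upwards [hS.compl_mem_cofinite] with v hv L x h
    have := h.fd
    obtain ⟨z, hz, e⟩ := ptv_eq h
    exact (e a).trans ((congrArg _ (H v hv L z hz)).trans (F.corN v.K L).map_zero)

/-- the abstract form of the theorem -/
def SOUT : Prop := ∀ (p : ℕ) [Fact p.Prime] (k : Type) [Field k] [CharP k p] (X : Var k) (n : ℕ),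
  X.Nice n → Algebra.EssFiniteType ℤ k → ∀ (σ : Type) [Fintype σ], Fintype.card σ + 1 = n →
  ∀ (ι : Type) (K : ι → Type) [∀ i, Field (K i)] [∀ i, Algebra k (K i)]
    [∀ i, TopologicalSpace (K i)] (G₀ : Type) [AddCommGroup G₀] (G : ι → Type)
    [∀ i, AddCommGroup (G i)] (ν : ∀ i, AbsoluteValue (Cb (K i)) ℝ)
    (𝒮 : Sit p X σ ι K G₀ G ν), 𝒮.Out

theorem p45_of (hO : SOUT) (D : ∀ (p : ℕ) [Fact p.Prime], Nonempty (DApi p)) (hE : F.EV)
    (hA : F.AAA) (hC : CHFp) (hN : N1p) : P45 := by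
  intro p _ k _ _ F₀ _ _ _ _ X n hX hn σ _ hσ ν hν
  have := ZFd.infinite_global k F₀
  have eX := hE k X n hX (by omega)
  obtain ⟨𝒮, h1, h2, h3⟩ := exists_sit (D p).some F₀ hC hN eX (hA k F₀ X eX) hX hn hσ hν
  obtain ⟨J, d₁, Gd, j1, j2, j3, H⟩ :=
    hO p k X n hX (eft_of_ratFunc k F₀) σ hσ _ _ _ _ _ 𝒮
  refine ⟨J, d₁, Gd, j1, j2, j3, fun c₀ Φ₀ hc hd => ?_⟩
  obtain ⟨S₀, H⟩ := H c₀ Φ₀ hc hd
  refine ⟨S₀, fun S hS T => ?_⟩
  obtain ⟨d₃, H⟩ := H S hS T
  refine ⟨d₃, fun d hd => ?_⟩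
  obtain ⟨fv, W, w1, H⟩ := H d hd
  refine ⟨fv, W, w1, fun C g hg => ?_⟩
  have e : ∀ v : Place k, (fun x : Fin (X.N + 1) → Cb v.K => (C v).var.On x) = OnG X (g v) :=
    fun v => funext fun x => propext ((hg v).1 _ x)
  obtain ⟨k1, k2⟩ := H g fun v => ⟨(hg v).2.1, (hg v).2.2.1, fun hv => by
    simpa only [h3, plv_lt] using (hg v).2.2.2 hv⟩
  refine ⟨fun v hv => e v ▸ k1 v hv, fun a ha hp hk v => ?_⟩
  have := k2 a (h1 ▸ ha) hp (fun v => ?_) v
  · rwa [Sit.KX, h2] at this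
  · rw [Sit.KG, h2, ← e]
    exact hk v

end Pool.Agent.ZFN
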