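import Pool.Agent.Lib.MP_751085_ag.ZF.N.R6

/-! Primary groups modulo `p`, classes that kill cycles, families of points. -/

namespace Pool.Agent.ZFN

open Pool.Agent.ZCy
open scoped Classical Topology
open MvPolynomial Filter

section grp

variable {A : Type} [AddCommGroup A] {p : ℕ}

/-- for a finite group the kernel and the cokernel of `p` have the same order -/
theorem rk_quot (hp : p ≠ 0) (h : ∀ a : A, Prim p a)
    (hf : Finite (nsmulAddMonoidHom p : A →+ A).ker) :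
    Finite (A ⧸ (nsmulAddMonoidHom p : A →+ A).range) := by
  by_contra hi
  rw [not_finite_iff_infinite] at hi
  obtain ⟨s, hs⟩ := Infinite.exists_subset_card_eq (A ⧸ (nsmulAddMonoidHom p : A →+ A).range)
    (Nat.card (nsmulAddMonoidHom p : A →+ A).ker + 1)
  let H := AddSubgroup.closure ((s.image Quotient.out : Finset A) : Set A)
  have : Finite H := AddCommGroup.finite_of_fg_isAddTorsion H fun a => by
    obtain ⟨r, hr⟩ := h a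
    exact isOfFinAddOrder_iff_nsmul_eq_zero.2 ⟨p ^ r, pow_pos (Nat.pos_of_ne_zero hp) r,
      Subtype.ext hr⟩
  let ψ := (QuotientAddGroup.mk' (nsmulAddMonoidHom p : A →+ A).range).comp H.subtype
  have : Finite ψ.range := Finite.of_surjective _ ψ.rangeRestrict_surjective
  have h1 : s.card ≤ Nat.card ψ.range := by
    rw [← Nat.card_eq_finsetCard]
    exact Nat.card_le_card_of_injective (fun q => ⟨q.1, ⟨q.1.out, AddSubgroup.subset_closure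
      (Finset.mem_image_of_mem _ q.2)⟩, Quotient.out_eq _⟩)
      fun a b e => Subtype.ext (Subtype.mk.inj e)
  have h2 : ψ.ker.index ≤ (nsmulAddMonoidHom p : H →+ H).range.index := by
    refine AddSubgroup.index_antitone ?_
    rintro _ ⟨a, rfl⟩
    exact (QuotientAddGroup.eq_zero_iff _).2 ⟨a, rfl⟩
  have h3 : Nat.card (nsmulAddMonoidHom p : H →+ H).ker ≤
      Nat.card (nsmulAddMonoidHom p : A →+ A).ker :=
    Nat.card_le_card_of_injective (fun a => ⟨a.1.1, congrArg Subtype.val a.2⟩)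
      fun a b e => Subtype.ext (Subtype.ext (Subtype.mk.inj e))
  rw [AddSubgroup.index_ker, AddSubgroup.index_range] at h2
  omega

theorem rk_fin (hp : p ≠ 0) {N C : AddSubgroup A} (h : ∀ a ∈ N, ∃ r : ℕ, p ^ r • a ∈ C)
    {Γ : Set A} (hΓ : Γ.Finite) (hf : ∀ a ∈ N, p • a ∈ C → ∃ γ ∈ Γ, a - γ ∈ C) :
    ∃ Δ : Set A, Δ.Finite ∧ ∀ a ∈ N, ∃ δ ∈ Δ, ∃ n ∈ N, a - δ - p • n ∈ C := by
  let N' := N.map (QuotientAddGroup.mk' C)
  have := rk_quot (A := N') hp (by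
    rintro ⟨_, a, ha, rfl⟩
    obtain ⟨r, hr⟩ := h a ha
    exact ⟨r, Subtype.ext ((QuotientAddGroup.eq_zero_iff _).2 hr)⟩) (by
    refine ((hΓ.image (QuotientAddGroup.mk' C)).preimage
      (Subtype.val_injective (p := (· ∈ N'))).injOn).subset ?_
    rintro ⟨_, a, ha, rfl⟩ h0
    obtain ⟨γ, h1, h2⟩ := hf a ha ((QuotientAddGroup.eq_zero_iff _).1 (congrArg Subtype.val h0))
    exact ⟨γ, h1, (QuotientAddGroup.eq_iff_sub_mem.2 h2).symm⟩)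
  refine ⟨_, Set.finite_range fun q : N' ⧸ (nsmulAddMonoidHom p : N' →+ N').range =>
    q.out.1.out, fun a ha => ?_⟩
  let b : N' := ⟨_, a, ha, rfl⟩
  obtain ⟨⟨_, n, hn, rfl⟩, e⟩ := QuotientAddGroup.eq_iff_sub_mem.1
    (Quotient.out_eq (b : N' ⧸ (nsmulAddMonoidHom p : N' →+ N').range)).symm
  refine ⟨_, ⟨b, rfl⟩, n, hn, QuotientAddGroup.eq_iff_sub_mem.1 ?_⟩
  rw [QuotientAddGroup.mk_sub, QuotientAddGroup.out_eq']
  exact (congrArg Subtype.val e).symm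

end grp

theorem exists_pos_le {B : Type} [Finite B] {ε : B → ℝ} (h : ∀ b, 0 < ε b) :
    ∃ δ > 0, ∀ b, δ ≤ ε b := by
  have : ∀ᶠ δ in 𝓝[>] (0 : ℝ), ∀ b, δ ≤ ε b :=
    eventually_all.2 fun b => nhdsWithin_le_nhds (eventually_le_nhds (h b))
  exact (eventually_mem_nhdsWithin.and this).exists

variable {k : Type} [Field k] {X : Var k}

theorem Near.mono {K : Type} [Field K] {N : ℕ} {ν : AbsoluteValue (Cb K) ℝ} {ε ε' : ℝ}
    {L : IntermediateField K (Cb K)} {x x' : Fin (N + 1) → Cb K} (h : Near ν ε L x x')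
    (he : ε ≤ ε') : Near ν ε' L x x' := fun i => ⟨(h i).1, (h i).2.trans_le he⟩

theorem pfam_merge {K B : Type} [Field K] [Algebra k K] [Finite B] (T : B → PFam X K)
    (ν : AbsoluteValue (Cb K) ℝ) : ∃ T' : PFam X K, ∀ b P, T'.Hit ν P → (T b).Hit ν P := by
  have := Fintype.ofFinite B
  obtain ⟨δ, h0, h⟩ := exists_pos_le fun b => (T b).pos
  refine ⟨⟨Σ b, (T b).I, fun j => (T j.1).L j.2, fun j => (T j.1).x j.2, δ, fun j => (T j.1).fd j.2,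
    fun j => (T j.1).mem j.2, fun j => (T j.1).on j.2, h0⟩, fun b P H j => ?_⟩
  obtain ⟨x', h1, h2⟩ := H ⟨b, j⟩
  exact ⟨x', h1.mono (h b), h2⟩

variable {p : ℕ} {σ ι : Type} [Fintype σ] {K : ι → Type} [∀ i, Field (K i)]
  [∀ i, Algebra k (K i)] [∀ i, TopologicalSpace (K i)] {G₀ : Type} [AddCommGroup G₀]
  {G : ι → Type} [∀ i, AddCommGroup (G i)] {ν : ∀ i, AbsoluteValue (Cb (K i)) ℝ}
  (𝒮 : Sit p X σ ι K G₀ G ν) {i : ι} {a b : G₀} {P : (Fin (X.N + 1) → Cb (K i)) → Prop}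

theorem Sit.kl_sub (hP : ∀ x, P x → X.On x) (ha : a ∈ 𝒮.Bw) (hb : b ∈ 𝒮.Bw) (h : Kl (𝒮.pt i a) P)
    (h' : Kl (𝒮.pt i b) P) : Kl (𝒮.pt i (a - b)) P := fun I _ m L x hx h0 => by
  rw [← sub_zero 0]
  refine Eq.trans ?_ (congrArg₂ (· - ·) (h I m L x hx h0) (h' I m L x hx h0))
  rw [← Finset.sum_sub_distrib]
  refine Finset.sum_congr rfl fun j _ => ?_
  rw [← smul_sub, ← eq_sub_of_add_eq ((𝒮.add i _ (sub_mem ha hb) _ hb (L j) (x j)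
    ⟨(hx j).1, (hx j).2.1, hP _ (hx j).2.2⟩).symm.trans (by rw [sub_add_cancel]))]

theorem Sit.kl_cst (hP : ∀ x, P x → X.On x) (ha : a ∈ 𝒮.Cst) : Kl (𝒮.pt i a) P :=
  fun I _ m L x hx h0 => by
  obtain ⟨c, hc⟩ := 𝒮.cst_pt a ha i
  rw [Finset.sum_congr rfl fun j _ => by
    rw [hc (L j) (x j) ⟨(hx j).1, (hx j).2.1, hP _ (hx j).2.2⟩, ← natCast_zsmul, ← mul_smul],
    ← Finset.sum_smul, h0, zero_smul]

/-- the classes that kill the cycles of degree zero supported on `P` -/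
def Sit.Z (i : ι) (P : (Fin (X.N + 1) → Cb (K i)) → Prop) (hP : ∀ x, P x → X.On x) :
    AddSubgroup G₀ :=
  AddSubgroup.ofSub {a | a ∈ 𝒮.Bw ∧ Kl (𝒮.pt i a) P} ⟨0, zero_mem _, 𝒮.kl_cst hP (zero_mem _)⟩
    fun _ ha _ hb => by
      rw [← sub_eq_add_neg]
      exact ⟨sub_mem ha.1 hb.1, 𝒮.kl_sub hP ha.1 hb.1 ha.2 hb.2⟩

theorem Sit.mem_Z {hP : ∀ x, P x → X.On x} : a ∈ 𝒮.Z i P hP ↔ a ∈ 𝒮.Bw ∧ Kl (𝒮.pt i a) P := Iff.rfl

theorem Sit.KX.kl {𝒮 : Sit p X σ ι K G₀ G ν} (h : 𝒮.KX i a) (hP : ∀ x, P x → X.On x) :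
    Kl (𝒮.pt i a) P :=
  fun I _ m L x hx => h I m L x fun j => ⟨(hx j).1, (hx j).2.1, hP _ (hx j).2.2⟩

/-- a cycle that is not killed can be moved a little -/
theorem Sit.exists_fam (i : ι) (ha : a ∈ 𝒮.Bw) : ∃ T : PFam X (K i), ∀ P, (∀ x, P x → X.On x) →
    T.Hit (ν i) P → Kl (𝒮.pt i a) P → 𝒮.KX i a := by
  by_cases h : 𝒮.KX i a
  · exact ⟨⟨Empty, nofun, nofun, 1, nofun, nofun, nofun, one_pos⟩, fun _ _ _ _ => h⟩
  have h1 := h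
  simp only [Sit.KX, Kl, not_forall] at h1
  obtain ⟨I, _, m, L, x, hx, h0, h1⟩ := h1
  choose ε hε H using fun j => 𝒮.lc a ha i (L j) (x j) ⟨(hx j).1, (hx j).2.1, (hx j).2.2⟩
  obtain ⟨δ, h2, h3⟩ := exists_pos_le hε
  refine ⟨⟨I, L, x, δ, fun j => (hx j).1, fun j => (hx j).2.1, fun j => (hx j).2.2, h2⟩,
    fun P hP hT hK => (h1 ?_).elim⟩
  choose x' h4 h5 using hT
  rw [← hK I m L x' (fun j => ⟨(hx j).1, fun l => (h4 j l).1, h5 j⟩) h0]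
  exact Finset.sum_congr rfl fun j _ => by rw [H j (x' j) ((h4 j).mono (h3 j)) (hP _ (h5 j))]

/-- the same for finitely many classes and a given family -/
theorem Sit.exists_fams (i : ι) {B : Set G₀} (hB : B.Finite) (T : PFam X (K i)) :
    ∃ T' : PFam X (K i), ∀ P, (∀ x, P x → X.On x) → T'.Hit (ν i) P → T.Hit (ν i) P ∧
      ∀ a ∈ B, a ∈ 𝒮.Bw → Kl (𝒮.pt i a) P → 𝒮.KX i a := by
  have : Finite (B ∩ 𝒮.Bw : Set G₀) := hB.inter_of_left _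
  choose U hU using fun a : (B ∩ 𝒮.Bw : Set G₀) => 𝒮.exists_fam i a.2.2
  obtain ⟨T', h⟩ := pfam_merge (fun o : Option (B ∩ 𝒮.Bw : Set G₀) => o.elim T U) (ν i)
  exact ⟨T', fun P hP H => ⟨h none P H, fun a h1 h2 => hU ⟨a, h1, h2⟩ P hP (h (some _) P H)⟩⟩

/-- the classes that kill all cycles of degree zero and are primary modulo the constants -/
def Sit.N0 : AddSubgroup G₀ :=
  AddSubgroup.ofSub {a | a ∈ 𝒮.Bw ∧ (∀ i, 𝒮.KX i a) ∧ ∃ r : ℕ, p ^ r • a ∈ 𝒮.Cst}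
    ⟨0, zero_mem _, fun _ => 𝒮.kl_cst (fun _ h => h) (zero_mem _), 0, by simp⟩
    fun a ⟨h1, h2, r, h3⟩ b ⟨h4, h5, s, h6⟩ => by
      rw [← sub_eq_add_neg]
      refine ⟨sub_mem h1 h4, fun i => 𝒮.kl_sub (fun _ h => h) h1 h4 (h2 i) (h5 i), r + s, ?_⟩
      rw [smul_sub, pow_add, mul_smul _ _ b, mul_comm, mul_smul]
      exact sub_mem (nsmul_mem h3 _) (nsmul_mem h6 _)

theorem Sit.mem_N0 :
    a ∈ 𝒮.N0 ↔ a ∈ 𝒮.Bw ∧ (∀ i, 𝒮.KX i a) ∧ ∃ r : ℕ, p ^ r • a ∈ 𝒮.Cst := Iff.rfl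

theorem Sit.cst_N0 (ha : a ∈ 𝒮.Cst) : a ∈ 𝒮.N0 :=
  ⟨𝒮.cst_le ha, fun _ => 𝒮.kl_cst (fun _ h => h) ha, 0, by simpa using ha⟩

/-- finitely many classes `a'` serve all `a` with `p a ∈ N0` -/
theorem Sit.exists_rep (hp : p ≠ 0) {Γ : Set G₀} (hΓ : Γ.Finite)
    (h : ∀ a ∈ 𝒮.N0, p • a = 0 → ∃ γ ∈ Γ, a - γ ∈ 𝒮.Cst) : ∃ A : Set G₀, A.Finite ∧
      (∀ a ∈ A, a ∈ 𝒮.Bw) ∧ ∀ a ∈ 𝒮.Bw, p • a ∈ 𝒮.N0 → ∃ a' ∈ A, ∃ n ∈ 𝒮.N0,
        p • (a - n - a') = 0 := by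
  obtain ⟨Δ, h1, h2⟩ := rk_fin hp (N := 𝒮.N0) (C := 𝒮.Cst) (fun a ha => ha.2.2) hΓ fun a ha h3 => by
    obtain ⟨b, hb, e⟩ := 𝒮.cst_div _ h3
    obtain ⟨γ, h4, h5⟩ := h _ (sub_mem ha (𝒮.cst_N0 hb)) (by rw [smul_sub, e, sub_self])
    exact ⟨γ, h4, by simpa [sub_right_comm a b] using add_mem h5 hb⟩
  have h3 : ∀ δ : G₀, ∃ a' ∈ 𝒮.Bw, ∀ a ∈ 𝒮.Bw, p • a - δ ∈ 𝒮.Cst → p • a' - δ ∈ 𝒮.Cst := fun δ => by
    by_cases h : ∃ a ∈ 𝒮.Bw, p • a - δ ∈ 𝒮.Cst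
    · exact h.imp fun a ha => ⟨ha.1, fun _ _ _ => ha.2⟩
    · exact ⟨0, zero_mem _, fun a h4 h5 => (h ⟨a, h4, h5⟩).elim⟩
  choose f h3 h4 using h3
  refine ⟨f '' Δ, h1.image f, by rintro _ ⟨δ, -, rfl⟩; exact h3 δ, fun a ha h5 => ?_⟩
  obtain ⟨δ, h6, n, h7, h8⟩ := h2 _ h5
  rw [sub_right_comm, ← smul_sub] at h8
  obtain ⟨b, hb, e⟩ := 𝒮.cst_div _ (sub_mem h8 (h4 δ _ (sub_mem ha h7.1) h8))
  refine ⟨_, ⟨δ, h6, rfl⟩, n + b, add_mem h7 (𝒮.cst_N0 hb), ?_⟩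
  rw [← sub_sub, sub_right_comm, smul_sub, e, smul_sub p (a - n)]
  abel

end Pool.Agent.ZFN
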