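import Pool.Agent.Lib.MP_751085_ag.ZF.N.O1

/-! The order of the choices. -/

namespace Pool.Agent.ZFN

open Pool.Agent.ZCy
open scoped Classical Topology
open MvPolynomial Filter

variable {k : Type} [Field k] {X : Var k} {p : ℕ} {σ ι : Type} [Fintype σ] {K : ι → Type}
  [∀ i, Field (K i)] [∀ i, Algebra k (K i)] [∀ i, TopologicalSpace (K i)] {G₀ : Type}
  [AddCommGroup G₀] {G : ι → Type} [∀ i, AddCommGroup (G i)]
  {ν : ∀ i, AbsoluteValue (Cb (K i)) ℝ} {𝒮 : Sit p X σ ι K G₀ G ν} {J : Jets k X.N} {d₁ : ℕ}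
  {AC : ι → ℕ → (σ → Fm X.N k) → Prop} {AK : ι → ℕ → G₀ → Prop} {Tk : ι → G₀ → Prop}

theorem Sit.cl_pow {i : ι} {c : Chart k σ X.N (X.IK k)} {g : σ → Fm X.N k} {e : ℕ}
    (hl : ∀ m, 𝒮.Φ.B.v i (coeff m c.l0) ≤ 1)
    (h : ∀ j m, 𝒮.Φ.B.v i (coeff m (g j - c.l0 ^ e * c.f (some (some j)))) < 1) (M : ℕ → ℕ) :
    𝒮.Cl i c 0 M g :=
  close_pow (e := e) (𝒮.𝒦 i).unif (fun m => by rw [coeff_map, (𝒮.loc i).w]; exact hl m)
    (fun j m => by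
      rw [← map_pow, ← map_mul, ← map_sub, coeff_map, (𝒮.loc i).w]
      exact h j m) M

variable (𝒮 J d₁ AC Tk) in
/-- the chart is good at the place `i` -/
def Sit.GdC (c : Chart k σ X.N (X.IK k)) (i : ι) : Prop :=
  (∀ m, 𝒮.Φ.B.v i (coeff m c.l0) ≤ 1) ∧ ∃ M, ∀ d g, (∀ j, J.Van d (g j)) → 𝒮.Cl i c 0 M g →
    AC i 0 g ∧ (d₁ ≤ c.d → ∀ a ∈ 𝒮.Bw, 𝒮.KG i a g → Tk i a)

theorem Sit.Frame.gdc (h : 𝒮.Frame J d₁ AC AK Tk) {c : Chart k σ X.N (X.IK k)} {Φ : MP σ k}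
    (hc : X.ZCh J c Φ) : ∀ᶠ i in cofinite, 𝒮.GdC J d₁ AC Tk c i := by
  obtain ⟨b, M, hb, h1⟩ := h.arc c Φ hc
  have h2 : ∀ᶠ i in cofinite, ∃ M, ∀ g, 𝒮.Cl i c 0 M g → d₁ ≤ c.d →
      ∀ a ∈ 𝒮.Bw, 𝒮.KG i a g → Tk i a := by
    by_cases hd : d₁ ≤ c.d
    · exact (h.tame c Φ hc hd).mono fun i => Exists.imp fun M H g h3 _ => H g h3
    · exact .of_forall fun i => ⟨M, fun _ _ h3 => (hd h3).elim⟩
  filter_upwards [hb, h2, (c.l0.support.eventually_all).2 fun m _ => 𝒮.Φ.B.fs (coeff m c.l0)] with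
    i h3 ⟨M', h4⟩ h5
  have hv := vp_of_unif (𝒮.𝒦 i).unif
  refine ⟨fun m => ?_, M ⊔ M', fun d g h6 h7 => ⟨h3 ▸ h1 i d g h6 (h3 ▸ Close.mono hv h7 le_rfl
    fun e => le_max_left _ _), h4 g (Close.mono hv h7 le_rfl fun e => le_max_right _ _)⟩⟩
  by_cases hm : m ∈ c.l0.support
  · exact h5 m hm
  · simp [notMem_support_iff.1 hm]

/-- One finite set of candidates serves all systems of curves. -/
theorem Sit.Frame.cand (hp : p ≠ 0) (h : 𝒮.Frame J d₁ AC AK Tk) {c : Chart k σ X.N (X.IK k)}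
    {Φ : MP σ k} (hc : X.ZCh J c Φ) (hd : d₁ ≤ c.d) {b : ι → ℕ} (hb : FinS b)
    (hA : ∀ i, AC i (b i) fun j => c.f (some (some j))) {S : Set ι} (hS : S.Finite) :
    ∃ (S' : Set ι) (B : Set G₀), S'.Finite ∧ S ⊆ S' ∧ B.Finite ∧ ∀ (d : ℕ) (g : ι → σ → Fm X.N k),
      (∀ i j, J.Van d (g i j)) → (∀ i ∈ S', AC i (b i) (g i)) →
      (∀ i ∉ S', AC i 0 (g i) ∧ ∀ a ∈ 𝒮.Bw, 𝒮.KG i a (g i) → Tk i a) →
      ∀ a ∈ 𝒮.Bw, (∀ i, 𝒮.KG i a (g i)) → p • a ∈ 𝒮.N0 → ∃ n ∈ 𝒮.N0, a - n ∈ B := by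
  obtain ⟨Γ, h1, h2⟩ := h.fin b hb _ (h.gdc hc)
  obtain ⟨A, h3, h4, h5⟩ := 𝒮.exists_rep hp h1 fun a ha h0 => h2 a ha.1 h0
    (fun i => h.ak i _ _ _ hc.van (hA i) a ha.1 ((ha.2.1 i).kl fun _ h => h.1)) fun i hi => by
      obtain ⟨-, M, H⟩ := not_not.1 hi
      exact (H _ _ hc.van (close_self ..)).2 hd a ha.1 ((ha.2.1 i).kl fun _ h => h.1)
  have h6 : ∀ᶠ i in cofinite, i ∉ S ∧ ∀ a ∈ A, ∀ L x, PtL X L x → 𝒮.pt i a L x = 0 :=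
    (hS.eventually_cofinite_notMem).and (h3.eventually_all.2 fun a ha => 𝒮.aa a (h4 a ha))
  have h7 : ∀ i, ∃ c', ∀ a' ∈ A, ∀ d g, (∀ j, J.Van d (g j)) → AC i (b i) g →
      ∀ a ∈ 𝒮.Bw, 𝒮.KG i a g → AK i c' (a - a') := fun i =>
    (h3.eventually_all.2 fun a' ha' => eventually_atTop.2 (h.lc i (b i) a' (h4 a' ha'))).exists
  choose c' h7 using h7
  obtain ⟨S', h8, hS₁, hS₂⟩ : ∃ S' : Set ι, S'.Finite ∧ S ⊆ S' ∧
      ∀ i ∉ S', ∀ a ∈ A, ∀ L x, PtL X L x → 𝒮.pt i a L x = 0 :=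
    ⟨_, eventually_cofinite.1 h6, fun i hi H => H.1 hi, fun i hi => (not_not.1 hi).2⟩
  obtain ⟨Γ', h9, h10⟩ := h.fin (fun i => if i ∈ S' then c' i else 0)
    (h8.eventually_cofinite_notMem.mono fun i hi => if_neg hi) S' h8
  refine ⟨S', Set.image2 (· + ·) A Γ', h8, hS₁, h3.image2 _ h9,
    fun d g hg h11 h12 a ha h13 h14 => ?_⟩
  obtain ⟨a', h15, n, h16, h17⟩ := h5 a ha h14
  have h18 := sub_mem ha h16.1
  have h19 := sub_mem h18 (h4 a' h15)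
  have h20 : ∀ i, 𝒮.KG i (a - n) (g i) := fun i =>
    𝒮.kl_sub (fun _ h => h.1) ha h16.1 (h13 i) ((h16.2.1 i).kl fun _ h => h.1)
  have h21 : ∀ i ∉ S', 𝒮.KG i (a - n - a') (g i) := fun i hi =>
    𝒮.kl_sub (fun _ h => h.1) h18 (h4 a' h15) (h20 i) fun I _ m L x hx _ =>
      Finset.sum_eq_zero fun j _ => by
        rw [hS₂ i hi a' h15 (L j) (x j) ⟨(hx j).1, (hx j).2.1, (hx j).2.2.1⟩, smul_zero]
  obtain ⟨γ, h22, h23⟩ := h10 _ h19 h17 (fun i => by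
    by_cases hi : i ∈ S'
    · rw [if_pos hi]
      exact h7 i a' h15 d _ (hg i) (h11 i hi) _ h18 (h20 i)
    · rw [if_neg hi]
      exact h.ak i 0 d _ (hg i) (h12 i hi).1 _ h19 (h21 i hi))
    fun i hi => (h12 i hi).2 _ h19 (h21 i hi)
  exact ⟨_, add_mem h16 (𝒮.cst_N0 h23), a', h15, γ, h22, by beta_reduce; abel⟩

theorem Sit.Frame.out (hp : p ≠ 0) (h : 𝒮.Frame J d₁ AC AK Tk) : 𝒮.Out := by
  refine ⟨J, d₁, fun c _ => 𝒮.GdC J d₁ AC Tk c, h.jok, h.pos, fun c Φ => h.gdc,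
    fun c Φ hc hd => ?_⟩
  obtain ⟨b, M, hb, h1⟩ := h.arc c Φ hc
  have h2 := eventually_cofinite.1 (h.gdc hc)
  obtain ⟨S', B, h3, h4, h5, h6⟩ :=
    h.cand hp hc hd hb (fun i => h1 i _ _ hc.van (close_self ..)) h2
  have h7 : ∀ a : G₀, ∃ s : Finset ι, (∀ i ∈ s, 𝒮.KX i a) → ∀ i, 𝒮.KX i a := fun a => by
    by_cases H : ∀ i, 𝒮.KX i a
    · exact ⟨∅, fun _ => H⟩
    · obtain ⟨i, hi⟩ := not_forall.1 H
      exact ⟨{i}, fun H' => (hi (H' i (Finset.mem_singleton_self i))).elim⟩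
  choose s h7 using h7
  have h8 : ∀ i, ∃ M' : ℕ → ℕ, i ∉ S' → ∀ d g, (∀ j, J.Van d (g j)) → 𝒮.Cl i c 0 M' g →
      AC i 0 g ∧ ∀ a ∈ 𝒮.Bw, 𝒮.KG i a g → Tk i a := fun i => by
    by_cases hi : i ∈ S'
    · exact ⟨M, fun H => (H hi).elim⟩
    · obtain ⟨-, M', H⟩ := not_not.1 fun H => hi (h4 H)
      exact ⟨M', fun _ d g h9 h10 => (H d g h9 h10).imp_right fun H => H hd⟩
  choose M' h8 using h8
  refine ⟨h3.toFinset ∪ h5.toFinset.biUnion s, fun S hS T => ?_⟩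
  choose T' hT using fun i => 𝒮.exists_fams i h5 (T i)
  have hv := fun i => vp_of_unif (𝒮.𝒦 i).unif
  have h9 := zch_not_mem h.jok h.pos hc
  choose d₃ h10 using fun i => exists_close (hv i) (𝒮.nu i) (𝒮.uapi i) (𝒮.top i)
    (fun j => ⟨hc.van j, h9.2 j⟩) ⟨c.hl, h9.1⟩ (T' i) (b i) (M ⊔ M' i)
  refine ⟨S.sup d₃, fun d h11 => ?_⟩
  choose fv W h12 h13 using fun i => h10 i (max d (d₃ i)) (le_max_right _ _)
  have h14 : ∀ i ∈ S, max d (d₃ i) = d := fun i hi => max_eq_left ((Finset.le_sup hi).trans h11)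
  refine ⟨fv, W, fun i hi j => h14 i hi ▸ h12 i j, fun g hg => ?_⟩
  have h15 := fun i hi => h13 i (g i) (fun j => (h14 i hi).symm ▸ ((hg i).1 j).1) ((hg i).2.1 hi)
  have h16 := fun i hi => hT i _ (fun _ h => h.1) (h15 i hi).2
  refine ⟨fun i hi => (h16 i hi).1, fun a ha hr h17 => ?_⟩
  obtain ⟨r, hr⟩ := hr
  have h18 := h6 d g (fun i => (hg i).1) (fun i hi => h1 i d _ (hg i).1 (Close.mono (hv i)
    (h15 i (hS (Finset.mem_union_left _ (h3.mem_toFinset.2 hi)))).1 le_rfl fun _ => le_max_left _ _))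
    fun i hi => by
      by_cases H : i ∈ S
      · exact h8 i hi d _ (hg i).1
          (Close.mono (hv i) (h15 i H).1 (Nat.zero_le _) fun _ => le_max_right _ _)
      · obtain ⟨c', -, -, h19, ⟨h20, M, h21⟩, e, h22⟩ := (hg i).2.2 H
        exact (h21 d _ (hg i).1 (Sit.cl_pow h20 h22 M)).imp_right fun H => H (hd.trans h19)
  induction r generalizing a with
  | zero => exact (𝒮.cst_N0 (by rw [← one_smul ℕ a, ← pow_zero p, hr]; exact zero_mem _)).2.1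
  | succ r ih =>
    have h19 : p ^ r • p • a = 0 := by rw [← mul_smul, ← pow_succ, hr]
    have h20 := nsmul_mem ha p
    obtain ⟨n, h21, h22⟩ := h18 a ha h17 ⟨h20, ih _ h20 (fun i => (nsmul_mem
      ((𝒮.mem_Z (hP := fun _ h => h.1)).2 ⟨ha, h17 i⟩) p).2) h19, r, h19 ▸ zero_mem _⟩
    have h23 := sub_mem ha h21.1
    have h24 := h7 _ fun i hi => (h16 i (hS (Finset.mem_union_right _ (Finset.mem_biUnion.2
      ⟨_, h5.mem_toFinset.2 h22, hi⟩)))).2 _ h22 h23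
        (𝒮.kl_sub (fun _ h => h.1) ha h21.1 (h17 i) ((h21.2.1 i).kl fun _ h => h.1))
    intro i
    have := (add_mem ((𝒮.mem_Z (hP := fun _ h => h)).2 ⟨h23, h24 i⟩)
      (𝒮.mem_Z.2 ⟨h21.1, h21.2.1 i⟩)).2
    rwa [sub_add_cancel] at this

end Pool.Agent.ZFN
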