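import Pool.Agent.Lib.MP_751085_ag.ZF.N.RDefs

/-! Polynomials with bounded coefficients. -/

namespace Pool.Agent.ZFN

open Pool.Agent.ZCy
open scoped Classical
open MvPolynomial

variable {L I J : Type} [Field L] {w : Vl L} {ϖ : L} {c c' r : ℤ} {b e e' : ℕ} {Ψ Ψ' : MP I L}
  {x y u : I → L}

theorem pbd_zero (w : Vl L) (ϖ : L) (c : ℤ) (e : ℕ) : PBd w ϖ c e (0 : MP I L) :=
  ⟨totalDegree_zero.trans_le e.zero_le, fun _ => bd_zero w ϖ c⟩

theorem PBd.add (h : PBd w ϖ c e Ψ) (h' : PBd w ϖ c e Ψ') : PBd w ϖ c e (Ψ + Ψ') :=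
  ⟨(totalDegree_add _ _).trans (max_le h.1 h'.1), fun m => coeff_add m Ψ Ψ' ▸ (h.2 m).add (h'.2 m)⟩

theorem PBd.neg (h : PBd w ϖ c e Ψ) : PBd w ϖ c e (-Ψ) :=
  ⟨(totalDegree_neg _).trans_le h.1, fun m => coeff_neg I m Ψ ▸ (h.2 m).neg⟩

theorem PBd.sub (h : PBd w ϖ c e Ψ) (h' : PBd w ϖ c e Ψ') : PBd w ϖ c e (Ψ - Ψ') :=
  sub_eq_add_neg Ψ Ψ' ▸ h.add h'.neg

theorem pbd_sum {t : Finset J} {f : J → MP I L} (h : ∀ j ∈ t, PBd w ϖ c e (f j)) :
    PBd w ϖ c e (∑ j ∈ t, f j) :=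
  Finset.sum_induction f _ (fun _ _ => PBd.add) (pbd_zero w ϖ c e) h

theorem pbd_C {a : L} (h : Bd w ϖ c a) (e : ℕ) : PBd w ϖ c e (C a : MP I L) := by
  refine ⟨(totalDegree_C a).trans_le e.zero_le, fun m => ?_⟩
  rw [coeff_C]
  split_ifs
  exacts [h, bd_zero w ϖ c]

theorem pbd_X (w : Vl L) (ϖ : L) (i : I) : PBd w ϖ 0 1 (X i : MP I L) := by
  refine ⟨(totalDegree_X i).le, fun m => ?_⟩
  rw [coeff_X]
  split_ifs
  exacts [bd_one w ϖ, bd_zero w ϖ 0]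

theorem PBd.pderiv (h : PBd w ϖ c e Ψ) (i : I) : PBd w ϖ c e (pderiv i Ψ) := by
  refine ⟨Finset.sup_le fun m hm => le_trans ?_ h.1,
    fun m => (h.2 (m + Finsupp.single i 1)).of_le ?_⟩
  · rw [mem_support_iff, coeff_pderiv] at hm
    refine le_trans ?_ (le_totalDegree (mem_support_iff.2 (left_ne_zero_of_mul hm)))
    rw [Finsupp.sum_add_index' (fun _ => rfl) fun _ _ _ => rfl]
    exact Nat.le_add_right _ _
  · rw [coeff_pderiv, map_mul, ← Nat.cast_succ]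
    exact mul_le_of_le_one_right' (bd_iff.1 (bd_nat w ϖ _))

theorem PBd.map {L' : Type} [Field L'] {φ : L →+* L'} {w' : Vl L'} (ho : Over φ w w')
    (h : PBd w ϖ c e Ψ) : PBd w' (φ ϖ) c e (map φ Ψ) :=
  ⟨(Finset.sup_mono (support_map_subset φ Ψ)).trans h.1, fun m =>
    coeff_map φ Ψ m ▸ (bd_map φ ho).2 (h.2 m)⟩

theorem over_vp {L' : Type} [Field L'] {φ : L →+* L'} {w' : Vl L'} (ho : Over φ w w')
    (h : VP w ϖ) : VP w' (φ ϖ) := by
  refine ⟨(_root_.map_ne_zero φ).2 h.ne, lt_of_not_ge fun e => h.lt.not_ge ?_⟩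
  have := (ho ϖ⁻¹).1 (by rw [map_inv₀, map_inv₀]; exact inv_le_one_of_one_le₀ e)
  rwa [map_inv₀, inv_le_one₀ (zero_lt_iff.2 (w.ne_zero_iff.2 h.ne))] at this

variable (hv : VP w ϖ)

include hv

theorem VP.pmono (h : PBd w ϖ c e Ψ) (hc : c ≤ c') (he : e ≤ e') : PBd w ϖ c' e' Ψ :=
  ⟨h.1.trans he, fun m => hv.mono (h.2 m) hc⟩

theorem VP.pmul (h : PBd w ϖ c e Ψ) (h' : PBd w ϖ c' e' Ψ') :
    PBd w ϖ (c + c') (e + e') (Ψ * Ψ') :=
  ⟨(totalDegree_mul _ _).trans (add_le_add h.1 h'.1), fun m =>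
    coeff_mul Ψ Ψ' m ▸ bd_sum fun _ _ => hv.mul (h.2 _) (h'.2 _)⟩

theorem VP.ppow (h : PBd w ϖ c e Ψ) (n : ℕ) : PBd w ϖ (n * c) (n * e) (Ψ ^ n) := by
  induction n with
  | zero => simpa using pbd_C (I := I) (bd_one w ϖ) 0
  | succ n ih =>
    rw [pow_succ, Nat.cast_succ, add_mul, add_mul, one_mul, one_mul]
    exact hv.pmul ih h

theorem VP.exists_pbd (Ψ : MP I L) : ∃ b : ℕ, PBd w ϖ b Ψ.totalDegree Ψ := by
  choose n hn using hv.exists_bd
  refine ⟨Ψ.support.sup fun m => n (coeff m Ψ), le_rfl, fun m => ?_⟩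
  by_cases hm : m ∈ Ψ.support
  · exact hv.mono (hn _) (Nat.cast_le.2 (Finset.le_sup (f := fun m => n (coeff m Ψ)) hm))
  · rw [notMem_support_iff.1 hm]
    exact bd_zero w ϖ _

theorem nr1a_prod {q : J → MP I L} (hq : ∀ j, PBd w ϖ b e' (q j)) (t : Finset J) (d : J → ℕ) :
    PBd w ϖ ((∑ j ∈ t, d j : ℕ) * b) ((∑ j ∈ t, d j) * e') (∏ j ∈ t, q j ^ d j) := by
  induction t using Finset.cons_induction with
  | empty => simpa using pbd_C (I := I) (bd_one w ϖ) 0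
  | cons j t hj ih =>
    rw [Finset.prod_cons, Finset.sum_cons, Nat.cast_add, add_mul, add_mul]
    exact hv.pmul (hv.ppow (hq j) _) ih

omit hv in
theorem nr1a_deg (h : PBd w ϖ c e Ψ) {m : I →₀ ℕ} (hm : m ∈ Ψ.support) :
    ((∑ j ∈ m.support, m j : ℕ) : ℤ) * b ≤ e * b :=
  mul_le_mul_of_nonneg_right (Nat.cast_le.2 ((le_totalDegree hm).trans h.1)) (Nat.cast_nonneg b)

theorem VP.paeval {Θ : MP J L} {q : J → MP I L} (h : PBd w ϖ c e Θ) (hq : ∀ j, PBd w ϖ b e' (q j)) :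
    PBd w ϖ (c + e * b) (e * e') (aeval q Θ) := by
  rw [aeval_def, eval₂_eq]
  refine pbd_sum fun m hm => hv.pmono (hv.pmul (pbd_C (h.2 m) 0) (nr1a_prod hv hq _ m))
    (add_le_add le_rfl (nr1a_deg h hm)) ?_
  rw [zero_add]
  exact Nat.mul_le_mul_right _ ((le_totalDegree hm).trans h.1)

theorem VP.peval (h : PBd w ϖ c e Ψ) (hx : ∀ i, Bd w ϖ b (x i)) :
    Bd w ϖ (c + e * b) (eval x Ψ) := by
  rw [eval_eq]
  refine bd_sum fun m hm => hv.mul_le (h.2 m) (hv.prod fun i _ => (hx i).pow (m i))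
    (add_le_add le_rfl ?_)
  rw [← Finset.sum_mul, ← Nat.cast_sum]
  exact nr1a_deg h hm

theorem nr1a_mul {a a' z z' : L} (hr : 0 ≤ r) (h : Bd w ϖ c a ∧ Bd w ϖ (c - r) (a' - a))
    (h' : Bd w ϖ c' z ∧ Bd w ϖ (c' - r) (z' - z)) :
    Bd w ϖ (c + c') (a * z) ∧ Bd w ϖ (c + c' - r) (a' * z' - a * z) := by
  refine ⟨hv.mul h.1 h'.1, ?_⟩
  rw [show a' * z' - a * z = (a' - a) * (z' - z) + (a * (z' - z) + (a' - a) * z) by ring]
  exact (hv.mul_le h.2 h'.2 (by omega)).add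
    ((hv.mul_le h.1 h'.2 (by omega)).add (hv.mul_le h.2 h'.1 (by omega)))

theorem nr1a_pow {a a' : L} (hr : 0 ≤ r) (h : Bd w ϖ c a ∧ Bd w ϖ (c - r) (a' - a)) (n : ℕ) :
    Bd w ϖ (n * c) (a ^ n) ∧ Bd w ϖ (n * c - r) (a' ^ n - a ^ n) := by
  induction n with
  | zero => simpa using ⟨bd_one w ϖ, bd_zero w ϖ _⟩
  | succ n ih =>
    rw [pow_succ, pow_succ, Nat.cast_succ, add_mul, one_mul]
    exact nr1a_mul hv hr ih h

theorem nr1a_mon (hx : ∀ i, Bd w ϖ b (x i)) (hr : 0 ≤ r) (hy : ∀ i, Bd w ϖ (-r) (y i - x i))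
    (t : Finset I) (d : I → ℕ) : Bd w ϖ ((∑ j ∈ t, d j : ℕ) * b) (∏ j ∈ t, x j ^ d j) ∧
      Bd w ϖ ((∑ j ∈ t, d j : ℕ) * b - r) (∏ j ∈ t, y j ^ d j - ∏ j ∈ t, x j ^ d j) := by
  induction t using Finset.cons_induction with
  | empty => simpa using ⟨bd_one w ϖ, bd_zero w ϖ _⟩
  | cons j t hj ih =>
    rw [Finset.prod_cons, Finset.prod_cons, Finset.sum_cons, Nat.cast_add, add_mul]
    exact nr1a_mul hv hr (nr1a_pow hv hr ⟨hx j, hv.mono (hy j) (by omega)⟩ _) ih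

theorem VP.tay0 (h : PBd w ϖ c e Ψ) (hx : ∀ i, Bd w ϖ b (x i)) (hr : 0 ≤ r)
    (hy : ∀ i, Bd w ϖ (-r) (y i - x i)) : Bd w ϖ (c + e * b - r) (eval y Ψ - eval x Ψ) := by
  rw [eval_eq, eval_eq, ← Finset.sum_sub_distrib]
  refine bd_sum fun m hm => ?_
  have := nr1a_deg (b := b) h hm
  rw [← mul_sub]
  exact hv.mul_le (h.2 m) (nr1a_mon hv hx hr hy _ m).2 (by omega)

variable [Fintype I]

theorem VP.pdd1 (h : PBd w ϖ c e Ψ) (hx : ∀ i, Bd w ϖ b (x i)) (hu : ∀ i, Bd w ϖ r (u i)) :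
    Bd w ϖ (c + e * b + r) (dd1 x u Ψ) :=
  bd_sum fun j _ => hv.mul (hv.peval (h.pderiv j) hx) (hu j)

omit hv in
theorem nr1b_mul (x u : I → L) (Ψ Ψ' : MP I L) :
    dd1 x u (Ψ * Ψ') = eval x Ψ * dd1 x u Ψ' + eval x Ψ' * dd1 x u Ψ := by
  simp only [dd1, Derivation.leibniz, smul_eq_mul, map_add, map_mul, Finset.mul_sum, add_mul,
    Finset.sum_add_distrib, mul_assoc]

omit hv in
theorem nr1b_X (x u : I → L) (i : I) : dd1 x u (X i) = u i := by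
  simp [dd1, pderiv_X, Pi.single_apply, apply_ite (eval x)]

theorem nr1b_tay (hx : ∀ i, Bd w ϖ b (x i)) (hr : 0 ≤ r) (hy : ∀ i, Bd w ϖ (-r) (y i - x i))
    (m : I →₀ ℕ) (a : L) : ∀ e, PBd w ϖ c e (monomial m a) → Bd w ϖ (c + e * b - 2 * r)
      (eval y (monomial m a) - eval x (monomial m a) - dd1 x (y - x) (monomial m a)) := by
  refine induction_on_monomial (motive := fun p => ∀ e : ℕ, PBd w ϖ c e p → Bd w ϖ (c + e * b - 2 * r)
    (eval y p - eval x p - dd1 x (y - x) p)) (fun a e _ => by simp [dd1, bd_zero])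
    (fun p n ih e h => ?_) m a
  rcases eq_or_ne p 0 with rfl | h0
  · simp [dd1, bd_zero]
  have hd := h.1
  rw [totalDegree_mul_of_isDomain h0 (X_ne_zero n), totalDegree_X] at hd
  obtain ⟨e, rfl⟩ : ∃ e', e = e' + 1 := ⟨e - 1, by omega⟩
  have hp : PBd w ϖ c e p := ⟨by omega, fun m => coeff_mul_X m n p ▸ h.2 _⟩
  rw [nr1b_mul, nr1b_X, map_mul, map_mul, eval_X, eval_X, Pi.sub_apply,
    show ∀ A B D s t : L, A * s - B * t - (B * (s - t) + t * D) =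
      t * (A - B - D) + (s - t) * (A - B) from fun _ _ _ _ _ => by ring]
  exact (hv.mul_le (hx n) (ih e hp) (by push_cast; linarith)).add
    (hv.mul_le (hy n) (hv.tay0 hp hx hr hy) (by push_cast; linarith [Int.natCast_nonneg b]))

theorem VP.tay1 (h : PBd w ϖ c e Ψ) (hx : ∀ i, Bd w ϖ b (x i)) (hr : 0 ≤ r)
    (hy : ∀ i, Bd w ϖ (-r) (y i - x i)) :
    Bd w ϖ (c + e * b - 2 * r) (eval y Ψ - eval x Ψ - dd1 x (y - x) Ψ) := by
  have e1 : ∀ f : (I →₀ ℕ) → MP I L, dd1 x (y - x) (∑ m ∈ Ψ.support, f m) =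
      ∑ m ∈ Ψ.support, dd1 x (y - x) (f m) := fun f => by
    simp only [dd1, map_sum, Finset.sum_mul]
    exact Finset.sum_comm
  rw [Ψ.as_sum, e1, map_sum, map_sum, ← Finset.sum_sub_distrib, ← Finset.sum_sub_distrib]
  refine bd_sum fun m hm => nr1b_tay hv hx hr hy m _ e
    ⟨(totalDegree_monomial_le _ _).trans ((le_totalDegree hm).trans h.1), fun m' => ?_⟩
  rw [coeff_monomial]
  split_ifs
  exacts [h.2 m, bd_zero _ _ _]

theorem VP.det {M : Matrix I I L} (h : ∀ i j, Bd w ϖ b (M i j)) :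
    Bd w ϖ (Fintype.card I * b) M.det := by
  rw [Matrix.det_apply']
  exact bd_sum fun σ _ => hv.mul_le (bd_int _ _ _) (hv.prod fun i _ => h _ i) (by simp)

omit [Fintype I] in
theorem nr1b_prod {f f' : I → L} (h : ∀ i, Bd w ϖ b (f i)) (hr : 0 ≤ r)
    (h' : ∀ i, Bd w ϖ (-r) (f' i - f i)) (t : Finset I) :
    Bd w ϖ (t.card * b - r) (∏ i ∈ t, f' i - ∏ i ∈ t, f i) := by
  induction t using Finset.induction_on with
  | empty => simp [bd_zero]
  | insert i t hi ih =>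
    rw [Finset.prod_insert hi, Finset.prod_insert hi, Finset.card_insert_of_notMem hi,
      show ∀ A B s t : L, s * A - t * B = (s - t + t) * (A - B) + (s - t) * B from
        fun _ _ _ _ => by ring]
    refine (hv.mul_le ((hv.mono (h' i) (by omega)).add (h i)) ih (by push_cast; linarith)).add
      (hv.mul_le (h' i) (hv.prod fun l _ => h l) ?_)
    rw [Finset.sum_const, nsmul_eq_mul]
    push_cast
    linarith [Int.natCast_nonneg b]

theorem VP.det_sub {M M' : Matrix I I L} (h : ∀ i j, Bd w ϖ b (M i j)) (hr : 0 ≤ r)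
    (h' : ∀ i j, Bd w ϖ (-r) (M' i j - M i j)) :
    Bd w ϖ (Fintype.card I * b - r) (M'.det - M.det) := by
  rw [Matrix.det_apply', Matrix.det_apply', ← Finset.sum_sub_distrib]
  exact bd_sum fun σ _ => mul_sub (_ : L) _ _ ▸ hv.mul_le (bd_int _ _ _)
    (nr1b_prod hv (fun i => h _ i) hr (fun i => h' _ i) _) (by simp)

theorem VP.adj {M : Matrix I I L} (h : ∀ i j, Bd w ϖ b (M i j)) (i j : I) :
    Bd w ϖ (Fintype.card I * b) (M.adjugate i j) := by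
  rw [Matrix.adjugate_apply]
  refine hv.det fun k l => ?_
  rw [Matrix.updateRow_apply, Pi.single_apply]
  split_ifs
  exacts [hv.mono (bd_one _ _) (by omega), bd_zero _ _ _, h k l]

omit hv

theorem dd1_add (x u u' : I → L) (Ψ : MP I L) : dd1 x (u + u') Ψ = dd1 x u Ψ + dd1 x u' Ψ := by
  simp [dd1, mul_add, Finset.sum_add_distrib]

theorem dd1_smul (x u : I → L) (a : L) (Ψ : MP I L) : dd1 x (a • u) Ψ = a * dd1 x u Ψ := by
  simp [dd1, Finset.mul_sum, mul_left_comm]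

theorem dd1_sub (x u : I → L) (Ψ Ψ' : MP I L) : dd1 x u (Ψ - Ψ') = dd1 x u Ψ - dd1 x u Ψ' := by
  simp [dd1, sub_mul]

theorem dd1_mul (x u : I → L) (Ψ Ψ' : MP I L) :
    dd1 x u (Ψ * Ψ') = eval x Ψ * dd1 x u Ψ' + eval x Ψ' * dd1 x u Ψ := nr1b_mul x u Ψ Ψ'

omit [Fintype I] in
theorem nr1b_ev (x : I → L) (q : J → MP I L) (Θ : MP J L) :
    eval x (aeval q Θ) = eval (fun j => eval x (q j)) Θ := by
  induction Θ using MvPolynomial.induction_on <;> simp_all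

theorem dd1_aeval [Fintype J] (x u : I → L) (q : J → MP I L) (Θ : MP J L) :
    dd1 x u (aeval q Θ) = dd1 (fun j => eval x (q j)) (fun j => dd1 x u (q j)) Θ := by
  induction Θ using MvPolynomial.induction_on with
  | C a => simp [dd1]
  | add p p' h h' =>
    simp only [dd1, map_add, add_mul, Finset.sum_add_distrib] at h h' ⊢
    rw [h, h']
  | mul_X p j h => rw [map_mul, dd1_mul, dd1_mul, h, nr1b_ev, aeval_X, nr1b_X, eval_X]

theorem eval_aeval (x : I → L) (q : J → MP I L) (Θ : MP J L) :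
    eval x (aeval q Θ) = eval (fun j => eval x (q j)) Θ := nr1b_ev x q Θ

theorem jd_mul {Φ h : I → MP I L} (H : ∀ i, eval x (Φ i) = 0 ∨ h i = 1) :
    jd (fun i => Φ i * h i) x = (∏ i, eval x (h i)) * jd Φ x := by
  rw [jd, jd, ← Matrix.det_mul_column]
  congr 1
  ext i j
  rcases H i with e | e <;> simp [e]

theorem jd_ne {Φ : I → MP I L} (H : ∀ u, (∀ i, dd1 x u (Φ i) = 0) → u = 0) : jd Φ x ≠ 0 :=
  fun e => (Matrix.exists_mulVec_eq_zero_iff.2 e).elim fun v h => h.1 (H v (congrFun h.2))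

theorem map_jd {S S' : Type} [CommRing S] [CommRing S'] (φ : S →+* S') (Φ : I → MP I S) (x : I → S) :
    φ (jd Φ x) = jd (fun i => map φ (Φ i)) fun i => φ (x i) := by
  rw [jd, jd, RingHom.map_det]
  congr 1
  ext i j
  simp [pderiv_map, eval_map, eval₂_comp φ, Function.comp_def]

theorem map_dd1 {S S' : Type} [CommRing S] [CommRing S'] (φ : S →+* S') (x u : I → S) (Ψ : MP I S) :
    φ (dd1 x u Ψ) = dd1 (fun i => φ (x i)) (fun i => φ (u i)) (map φ Ψ) := by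
  simp [dd1, pderiv_map, eval_map, eval₂_comp φ, Function.comp_def]

theorem map_sys {S S' σ : Type} [CommRing S] [CommRing S'] {N : ℕ} (φ : S →+* S')
    (χ lam : MP (Option (Option σ)) S) (pp : Fin (N + 1) → MP (Option (Option σ)) S)
    (G : σ → Fm N S) (i : Option (Option σ)) : map φ (sys χ lam pp G i) =
      sys (map φ χ) (map φ lam) (fun j => map φ (pp j)) (fun l => map φ (G l)) i := by
  rcases i with _ | _ | l
  exacts [rfl, rfl, map_bind₁ φ pp (G l)]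

end Pool.Agent.ZFN
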