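import Pool.Agent.Lib.MP_751085_ag.ZF.N.R1
import Pool.Agent.Lib.MP_751085_ag.ZC.T.New
import Pool.Agent.Lib.MP_751085_ag.ZC.V.Cv

/-! Newton's method with bounds. -/

namespace Pool.Agent.ZFN

open Pool.Agent.ZCy
open scoped Classical
open MvPolynomial

variable {L I : Type} [Field L] [Fintype I] {w : Vl L} {ϖ : L} {r s κ : ℤ} {b b₀ e : ℕ}
  {Φ Φ' Δ : I → MP I L} {x x' y u : I → L} {ε : L}

theorem Rg.mono (hv : VP w ϖ) (h : Rg w ϖ b e Φ x) {b' e' : ℕ} (hb : b ≤ b') (he : e ≤ e') :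
    Rg w ϖ b' e' Φ x := by
  have hb' : (b : ℤ) ≤ b' := Int.ofNat_le.2 hb
  exact ⟨fun i => hv.pmono (h.co i) hb' he, fun i => hv.mono (h.pt i) hb', h.ne, hv.mono h.inv hb'⟩

theorem nr2a_k (I : Type) [Fintype I] (e b : ℕ) :
    ((2 * kN I e * b : ℕ) : ℤ) = 2 * (kN I e * b : ℕ) ∧ ((kN I e * b : ℕ) : ℤ) =
      4 * (Fintype.card I * ((b + e * b : ℕ) : ℤ)) + 4 * (b + e * b) ∧
      0 ≤ Fintype.card I * ((b + e * b : ℕ) : ℤ) ∧ 0 ≤ (e : ℤ) * b := by
  refine ⟨?_, ?_, by positivity, by positivity⟩ <;> simp only [kN] <;> push_cast <;> ring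

/-- small perturbations -/
theorem Rg.pert (hv : VP w ϖ) (h : Rg w ϖ b e Φ x) (hΦ : ∀ i, PBd w ϖ (-κ) e (Φ' i - Φ i))
    (hx : ∀ i, Bd w ϖ (-κ) (x' i - x i)) (hκ : (kN I e * b : ℕ) < κ) : Rg w ϖ b e Φ' x' := by
  obtain ⟨-, k1, k2, k3⟩ := nr2a_k I e b
  have h1 : ∀ i, Bd w ϖ b (x' i) := fun i =>
    add_sub_cancel (x i) (x' i) ▸ (h.pt i).add (hv.mono (hx i) (by omega))
  have h2 := hv.det_sub (b := b + e * b) (r := κ - (b + e * b))
    (M := Matrix.of fun i j => eval x (pderiv j (Φ i)))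
    (M' := Matrix.of fun i j => eval x' (pderiv j (Φ' i)))
    (fun i j => hv.mono (hv.peval ((h.co i).pderiv j) h.pt) (by omega)) (by omega) fun i j => by
      have := (hv.mono (hv.peval ((hΦ i).pderiv j) h1) (by omega : _ ≤ -(κ - (b + e * b)))).add
        (hv.mono (hv.tay0 ((h.co i).pderiv j) h.pt (by omega) hx) (by omega))
      rwa [map_sub, map_sub, sub_add_sub_cancel] at this
  have h3 := hv.inv_add h.ne h.inv h2 (by omega)
  rw [jd, add_sub_cancel] at h3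
  exact ⟨fun i => add_sub_cancel (Φ i) (Φ' i) ▸ (h.co i).add (hv.pmono (hΦ i) (by omega) le_rfl),
    h1, h3.1, h3.2⟩

omit [Fintype I] in
theorem nr2b_lim (hv : VC w ϖ) {z : ℕ → L} (h : ∀ k : ℕ, Bd w ϖ (-k) (z (k + 1) - z k)) :
    ∃ y, ∀ m : ℤ, ∀ᶠ k in Filter.atTop, Bd w ϖ m (y - z k) := by
  obtain ⟨y, hy⟩ := hv.cpl z fun k => by
    rw [← mul_inv_cancel_left₀ (pow_ne_zero k hv.vp.ne) (z (k + 1) - z k), ← zpow_natCast ϖ k,
      ← zpow_neg, map_mul, zpow_natCast, map_pow]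
    refine (mul_le_of_le_one_right' (h k)).trans ((pow_le_pow_left₀ zero_le
      ((lt_one_iff_le_exp _).1 hv.vp.lt) k).trans_eq ?_)
    rw [← WithZero.exp_nsmul, nsmul_eq_mul, mul_neg_one]
  refine ⟨y, fun m => ?_⟩
  filter_upwards [Filter.eventually_ge_atTop (WithZero.log (w (ϖ ^ m))).toNat] with k hk
  rw [Bd, map_mul]
  refine (mul_le_mul' WithZero.le_exp_log (hy k)).trans ?_
  rw [← WithZero.exp_add, ← WithZero.exp_zero, WithZero.exp_le_exp]
  omega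

theorem nr2b_inv (v : VP w ϖ) (h : Rg w ϖ b e Φ x) : ∃ (N : Matrix I I L) (β : ℤ), 0 ≤ β ∧
    b + e * b + 2 * β ≤ (kN I e * b : ℕ) ∧ (∀ i j, Bd w ϖ β (N i j)) ∧
      ∀ u i, dd1 x (N.mulVec u) (Φ i) = u i := by
  let M : Matrix I I L := Matrix.of fun i j => eval x (pderiv j (Φ i))
  refine ⟨(jd Φ x)⁻¹ • M.adjugate, _, by positivity, ?_, fun i j => v.mul h.inv
    (v.adj (b := b + e * b) (fun i j => v.peval ((h.co i).pderiv j) h.pt) i j), fun u => congrFun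
      (?_ : M.mulVec _ = u)⟩
  · have h1 : (0 : ℤ) ≤ Fintype.card I * (b + e * b) := by positivity
    have h2 : (0 : ℤ) ≤ e * b := by positivity
    rw [kN]
    push_cast
    nlinarith
  · rw [Matrix.mulVec_mulVec, Matrix.mul_smul, Matrix.mul_adjugate, smul_smul,
      show (jd Φ x)⁻¹ * M.det = 1 from inv_mul_cancel₀ h.ne, one_smul, Matrix.one_mulVec]

/-- iterate `x ↦ x - M⁻¹ Φ(x)` with the fixed Jacobian matrix `M` -/
theorem Rg.newt (hv : VC w ϖ) (h : Rg w ϖ b e Φ x) (hs : ∀ i, Bd w ϖ (-s) (eval x (Φ i)))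
    (hb : (kN I e * b : ℕ) < s) : ∃ x' : I → L, (∀ i, eval x' (Φ i) = 0) ∧
      ∀ i, Bd w ϖ ((kN I e * b : ℕ) - s) (x' i - x i) := by
  have v := hv.vp
  obtain ⟨N, β, h0, h1, h2, h3⟩ := nr2b_inv v h
  have hγ : (0 : ℤ) ≤ e * b := by positivity
  let z : ℕ → I → L := fun k => (fun y => y + N.mulVec fun i => -eval y (Φ i))^[k] x
  have h4 : ∀ k, z (k + 1) - z k = N.mulVec fun i => -eval (z k) (Φ i) := fun k =>
    sub_eq_iff_eq_add'.2 (Function.iterate_succ_apply' _ k x)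
  have h5 : ∀ k : ℕ, (∀ i, Bd w ϖ (-(s + k)) (eval (z k) (Φ i))) →
      ∀ i, Bd w ϖ (-(s + k - β)) (z (k + 1) i - z k i) := fun k H i => by
    rw [← Pi.sub_apply, h4]
    exact bd_sum fun j _ => v.mul_le (h2 i j) (H j).neg (by omega)
  have h6 : ∀ y : I → L, (∀ i, Bd w ϖ (-(s - β)) (y i - x i)) → ∀ i, Bd w ϖ b (y i) :=
    fun y H i => by
      have := (v.mono (H i) (by omega)).add (h.pt i)
      rwa [sub_add_cancel] at this
  have h7 : ∀ k : ℕ, (∀ i, Bd w ϖ (-(s - β)) (z k i - x i)) ∧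
      ∀ i, Bd w ϖ (-(s + k)) (eval (z k) (Φ i)) := fun k => by
    induction k with
    | zero => exact ⟨fun i => (sub_self (x i)).symm ▸ bd_zero w ϖ _, fun i => v.mono (hs i) (by omega)⟩
    | succ k ih =>
      have h8 := h5 k ih.2
      refine ⟨fun i => ?_, fun i => ?_⟩
      · have := (v.mono (h8 i) (by omega)).add (ih.1 i)
        rwa [sub_add_sub_cancel] at this
      have h9 := (v.mono (v.tay1 (h.co i) (h6 _ ih.1) (by omega) h8) (s := -(s + (k + 1 : ℕ)))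
        (by omega)).add (bd_sum (t := Finset.univ) fun j _ => v.mul_le
          (v.tay0 ((h.co i).pderiv j) h.pt (by omega) ih.1) (h8 j) (by omega))
      have h10 := h3 (fun i => -eval (z k) (Φ i)) i
      rw [← h4] at h10
      refine Eq.subst (motive := Bd w ϖ _) ?_ h9
      simp only [sub_mul (eval (z k) _), Finset.sum_sub_distrib]
      simp only [dd1, Pi.sub_apply] at h10 ⊢
      rw [h10]
      ring
  choose y hy using fun i => nr2b_lim hv (z := fun k => z k i) fun k =>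
    v.mono (h5 k (h7 k).2 i) (by omega)
  refine ⟨y, fun i => v.eq_zero fun m => ?_, fun i => ?_⟩
  · obtain ⟨k, h8, h9⟩ := ((Filter.eventually_all.2 fun j => hy j (-(m + b + e * b))).and
      (Filter.eventually_ge_atTop m)).exists
    have := (v.mono (v.tay0 (h.co i) (h6 _ (h7 k).1) (by omega) h8) (s := -m) (by omega)).add
      (v.mono ((h7 k).2 i) (by omega))
    rwa [sub_add_cancel] at this
  · obtain ⟨k, h8⟩ := (hy i (-(s - β))).exists
    have := h8.add ((h7 k).1 i)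
    rw [sub_add_sub_cancel] at this
    exact v.mono this (by omega)

/-- an arc with prescribed first order -/
theorem Rg.arc0 (hv : VC w ϖ) (h : Rg w ϖ b e Φ y) (h0 : ∀ i, eval y (Φ i) = 0)
    (hu : ∀ i, Bd w ϖ b (u i)) (hε : Bd w ϖ (-r) ε) (hr : (2 * kN I e * b : ℕ) < r) :
    ∃ x : I → L, (∀ i, eval x (Φ i) = ε * dd1 y u (Φ i)) ∧
      ∀ i, Bd w ϖ ((2 * kN I e * b : ℕ) - 2 * r) (x i - y i - ε * u i) := by
  obtain ⟨k0, k1, k2, k3⟩ := nr2a_k I e b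
  have h1 : ∀ i, Bd w ϖ (-(r - b)) ((y + ε • u) i - y i) := fun i => by
    rw [Pi.add_apply, add_sub_cancel_left]
    exact hv.vp.mul_le hε (hu i) (by omega)
  obtain ⟨x, h2, h3⟩ := (h.pert hv.vp (Φ' := fun i => Φ i - C (ε * dd1 y u (Φ i))) (x' := y + ε • u)
    (κ := r - (2 * b + e * b)) (fun i => by
      rw [sub_sub_cancel_left]
      exact (pbd_C (hv.vp.mul_le hε (hv.vp.pdd1 (h.co i) h.pt hu) (by omega)) e).neg)
    (fun i => hv.vp.mono (h1 i) (by omega)) (by omega)).newt hv (s := 2 * r - (3 * b + e * b))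
    (fun i => by
      have := hv.vp.tay1 (h.co i) h.pt (by omega) h1
      rw [h0, sub_zero, add_sub_cancel_left, dd1_smul] at this
      rw [map_sub, eval_C]
      exact hv.vp.mono this (by omega)) (by omega)
  refine ⟨x, fun i => ?_, fun i => ?_⟩
  · have := h2 i
    rwa [map_sub, eval_C, sub_eq_zero] at this
  · rw [sub_sub]
    exact hv.vp.mono (h3 i) (by omega)

/-- the residual is small -/
theorem Rg.arc2 (hv : VC w ϖ) (h : Rg w ϖ b e Φ x) (h0 : ∀ i, Bd w ϖ b (eval x (Φ i)))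
    (hΔ : ∀ i, PBd w ϖ (-κ) e (Δ i)) (h1 : ∀ i, eval y (Δ i) = 0) (h2 : ∀ i, dd1 y u (Δ i) = 0)
    (hb : b₀ ≤ b) (hy : ∀ i, Bd w ϖ b₀ (y i)) (hu : ∀ i, Bd w ϖ b₀ (u i)) (hε : Bd w ϖ (-r) ε)
    (hx : ∀ i, Bd w ϖ (b₀ - 2 * r) (x i - y i - ε * u i)) (hr : b₀ ≤ r)
    (hκ : (2 * kN I e * b : ℕ) < κ) : ∃ x' : I → L, (∀ i, eval x' (Φ i + Δ i) = eval x (Φ i)) ∧
      ∀ i, Bd w ϖ (-(2 * r)) (x' i - x i) := by
  obtain ⟨k0, k1, k2, k3⟩ := nr2a_k I e b
  have e1 : jd (fun i => Φ i - C (eval x (Φ i))) x = jd Φ x := by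
    simp only [jd, map_sub, pderiv_C, sub_zero]
  have h3 : Rg w ϖ b e (fun i => Φ i - C (eval x (Φ i))) x :=
    ⟨fun i => (h.co i).sub (pbd_C (h0 i) e), h.pt, e1 ▸ h.ne, e1 ▸ h.inv⟩
  have hy' : ∀ i, Bd w ϖ b (y i) := fun i => hv.vp.mono (hy i) (by omega)
  obtain ⟨x', h4, h5⟩ := (h3.pert hv.vp (Φ' := fun i => Φ i - C (eval x (Φ i)) + Δ i) (x' := x)
    (fun i => (add_sub_cancel_left _ (Δ i)).symm ▸ hΔ i)
    (fun i => (sub_self (x i)).symm ▸ bd_zero w ϖ _) (by omega)).newt hv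
    (s := κ + 2 * r - (2 * b + e * b)) (fun i => by
      have h6 := hv.vp.tay1 (r := r - b₀) (y := x) (hΔ i) hy' (by omega) fun j =>
        sub_add_cancel (x j - y j) (ε * u j) ▸ (hv.vp.mono (hx j) (by omega)).add
          (hv.vp.mul_le hε (hu j) (by omega))
      have h7 := hv.vp.pdd1 (u := x - y - ε • u) (hΔ i) hy' hx
      rw [h1, sub_zero, ← sub_add_cancel (x - y) (ε • u), dd1_add, dd1_smul, h2, mul_zero,
        add_zero] at h6
      rw [map_add, map_sub, eval_C, sub_self, zero_add,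
        ← sub_add_cancel (eval x (Δ i)) (dd1 y (x - y - ε • u) (Δ i))]
      exact (hv.vp.mono h6 (by omega)).add (hv.vp.mono h7 (by omega))) (by omega)
  refine ⟨x', fun i => ?_, fun i => hv.vp.mono (h5 i) (by omega)⟩
  have := h4 i
  rwa [sub_add_eq_add_sub, map_sub, eval_C, sub_eq_zero] at this

theorem Rg.root1 (hv : VC w ϖ) (h : Rg w ϖ b e Φ x) (h0 : ∀ i, eval x (Φ i) = 0)
    (hΔ : ∀ i, PBd w ϖ (-κ) e (Δ i)) (hκ : (2 * kN I e * b : ℕ) < κ) :
    ∃ x' : I → L, (∀ i, eval x' (Φ i + Δ i) = 0) ∧ ∀ i, Bd w ϖ (-1) (x' i - x i) := by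
  obtain ⟨k0, k1, k2, k3⟩ := nr2a_k I e b
  obtain ⟨x', h4, h5⟩ := (h.pert hv.vp (Φ' := fun i => Φ i + Δ i) (x' := x)
    (fun i => (add_sub_cancel_left _ (Δ i)).symm ▸ hΔ i)
    (fun i => (sub_self (x i)).symm ▸ bd_zero w ϖ _) (by omega)).newt hv (s := κ - e * b)
    (fun i => by
      rw [map_add, h0, zero_add]
      exact hv.vp.mono (hv.vp.peval (hΔ i) h.pt) (by omega)) (by omega)
  exact ⟨x', h4, fun i => hv.vp.mono (h5 i) (by omega)⟩

end Pool.Agent.ZFN
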