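import Pool.Agent.Lib.MP_751085_ag.ZF.N.R2

/-! Systems given by forms that are close to multiples of given forms. -/

namespace Pool.Agent.ZFN

open Pool.Agent.ZCy
open scoped Classical
open MvPolynomial

variable (σ : Type) [Fintype σ] (N e₀ : ℕ)

section

variable {σ N} {K L : Type} [Field K] [Field L] (φ : K →+* L) (χ lam : MP (Option (Option σ)) L)
  (pp : Fin (N + 1) → MP (Option (Option σ)) L)

omit [Fintype σ] in
theorem nr3a_mul (f h : σ → Fm N K) : (sys χ lam pp fun i => map φ (f i * h i)) =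
    fun i => sys χ lam pp (fun i => map φ (f i)) i * sys 1 1 pp (fun i => map φ (h i)) i := by
  funext i
  rcases i with _ | _ | i <;> simp [sys]

omit [Fintype σ] in
theorem nr3a_add (f G : σ → Fm N K) (i : Option (Option σ)) :
    sys χ lam pp (fun i => map φ (f i)) i + sys 0 0 pp (fun i => map φ (G i - f i)) i =
      sys χ lam pp (fun i => map φ (G i)) i := by
  rcases i with _ | _ | i <;> simp [sys]

theorem nr3a_ev (f : σ → Fm N K) (x : Option (Option σ) → L) (i : σ) :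
    eval x (sys χ lam pp (fun i => map φ (f i)) (some (some i))) =
      eval₂ φ (fun j => eval x (pp j)) (f i) :=
  (eval_aeval x pp _).trans (eval₂_eq_eval_map _ _ _).symm

end

/-- the common step -/
theorem sys_step (C : ℕ) : ∃ M : ℕ → ℕ, ∀ (K L : Type) [Field K] [Field L] (φ : K →+* L) (v : Vl K)
    (w : Vl L) (π : K), Over φ v w → VP v π → ∀ (χ lam : MP (Option (Option σ)) L)
    (pp : Fin (N + 1) → MP (Option (Option σ)) L) (f G : σ → Fm N K) (l : Fm N K) (b₀ : ℕ)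
    (x : Option (Option σ) → L), Close v π f l b₀ M G → (∀ j, PBd w (φ π) b₀ e₀ (pp j)) →
    (∀ i, PBd v π b₀ e₀ (f i)) → Rg w (φ π) b₀ e₀ (sys χ lam pp fun i => map φ (f i)) x →
    (∀ i, eval₂ φ (fun j => eval x (pp j)) (f i) = 0) → (∀ j, Bd w (φ π) b₀ (eval x (pp j))) →
    eval₂ φ (fun j => eval x (pp j)) l ≠ 0 →
    Bd w (φ π) b₀ (eval₂ φ (fun j => eval x (pp j)) l)⁻¹ →
    ∃ (h : σ → Fm N K) (b e : ℕ) (κ : ℤ), b₀ ≤ b ∧ (C * kN (Option (Option σ)) e * b : ℕ) < κ ∧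
      Rg w (φ π) b e (sys χ lam pp fun i => map φ (f i * h i)) x ∧
      ∀ i, PBd w (φ π) (-κ) e (sys 0 0 pp (fun i => map φ (G i - f i * h i)) i) := by
  refine ⟨fun e₁ => C * kN (Option (Option σ)) ((e₀ + e₁ + 1) * e₀) *
    (Fintype.card (Option (Option σ)) + e₀ + e₁ + 2) + e₁, ?_⟩
  rintro K L _ _ φ v w π ho hv χ lam pp f G l b₀ x ⟨h, b₁, κ, e₁, hU, hh, hG, hκ⟩ hp hf hR h0 hx
    l0 l1
  have hw := over_vp ho hv
  have hH := hU L φ w ho _ hx l0 l1 h0
  set n := Fintype.card (Option (Option σ)) with hn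
  have c1 : b₀ ≤ (n + e₀ + e₁ + 2) * (b₁ + b₀) := by nlinarith [Nat.zero_le (n + e₀ + e₁)]
  have c2 : e₀ ≤ (e₀ + e₁ + 1) * e₀ := Nat.le_mul_of_pos_left _ (by omega)
  have hR' := hR.mono hw c1 c2
  have hj := jd_mul (x := x) (Φ := sys χ lam pp fun i => map φ (f i))
    (h := sys 1 1 pp fun i => map φ (h i)) fun i => by
      rcases i with _ | _ | i
      · exact Or.inr rfl
      · exact Or.inr rfl
      · exact Or.inl ((nr3a_ev φ χ lam pp f x i).trans (h0 i))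
  rw [← nr3a_mul] at hj
  have hI : ∀ i, eval x (sys 1 1 pp (fun i => map φ (h i)) i) ≠ 0 ∧
      Bd w (φ π) b₁ (eval x (sys 1 1 pp (fun i => map φ (h i)) i))⁻¹ := fun i => by
    have h1 : (1 : L) ≠ 0 ∧ Bd w (φ π) b₁ (1 : L)⁻¹ :=
      ⟨one_ne_zero, (inv_one (G := L)).symm ▸ hw.mono (bd_one _ _) (by omega)⟩
    rcases i with _ | _ | i
    · exact (map_one (eval x)).symm ▸ h1
    · exact (map_one (eval x)).symm ▸ h1
    · exact (nr3a_ev φ 1 1 pp h x i).symm ▸ hH i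
  refine ⟨h, (n + e₀ + e₁ + 2) * (b₁ + b₀), (e₀ + e₁ + 1) * e₀, κ - e₁ * b₀, c1, ?_,
    ⟨fun i => ?_, hR'.pt, ?_, ?_⟩, fun i => ?_⟩
  · have : C * kN (Option (Option σ)) ((e₀ + e₁ + 1) * e₀) * ((n + e₀ + e₁ + 2) * (b₁ + b₀)) +
        e₁ * b₀ < κ := by
      refine lt_of_le_of_lt ?_ hκ
      rw [add_mul _ e₁, ← mul_assoc]
      exact Nat.add_le_add_left (Nat.mul_le_mul_left _ (Nat.le_add_left _ _)) _
    rw [lt_sub_iff_add_lt]
    exact_mod_cast this
  · rcases i with _ | _ | i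
    · exact id (α := PBd _ _ _ _ χ) (hR'.co none)
    · exact id (α := PBd _ _ _ _ lam) (hR'.co (some none))
    · refine hw.pmono (hw.paeval ((hv.pmul (hf i) (hh i)).map ho) hp) ?_
        (Nat.mul_le_mul_right _ (Nat.le_succ _))
      have : b₀ + b₁ + (e₀ + e₁) * b₀ ≤ (n + e₀ + e₁ + 2) * (b₁ + b₀) := by
        nlinarith [Nat.zero_le (n * (b₁ + b₀)), Nat.zero_le ((e₀ + e₁) * b₁)]
      exact_mod_cast this
  · rw [hj]
    exact mul_ne_zero (Finset.prod_ne_zero_iff.2 fun i _ => (hI i).1) hR.ne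
  · rw [hj, mul_inv, ← Finset.prod_inv_distrib]
    refine hw.mul_le (hw.prod (c := fun _ => b₁) fun i _ => (hI i).2) hR.inv ?_
    have : n * b₁ + b₀ ≤ (n + e₀ + e₁ + 2) * (b₁ + b₀) := by
      nlinarith [Nat.zero_le (n * b₀), Nat.zero_le ((e₀ + e₁) * (b₁ + b₀))]
    rw [Finset.sum_const, Finset.card_univ, nsmul_eq_mul]
    exact_mod_cast this
  · rcases i with _ | _ | i
    · exact pbd_zero _ _ _ _
    · exact pbd_zero _ _ _ _
    · exact hw.pmono (hw.paeval ((hG i).map ho) hp) (by omega)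
        (Nat.mul_le_mul_right _ (by omega))

theorem sys_lift : ∃ M : ℕ → ℕ, ∀ (K L : Type) [Field K] [Field L] (φ : K →+* L) (v : Vl K)
    (w : Vl L) (π : K), Over φ v w → VC w (φ π) → ∀ (χ lam : MP (Option (Option σ)) L)
    (pp : Fin (N + 1) → MP (Option (Option σ)) L) (f G : σ → Fm N K) (l : Fm N K)
    (x : Option (Option σ) → L), Close v π f l 0 M G → (∀ j, PBd w (φ π) 0 e₀ (pp j)) →
    (∀ i, PBd v π 0 e₀ (f i)) → Rg w (φ π) 0 e₀ (sys χ lam pp fun i => map φ (f i)) x →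
    (∀ i, eval x (sys χ lam pp (fun i => map φ (f i)) i) = 0) →
    w (eval₂ φ (fun j => eval x (pp j)) l) = 1 →
    ∃ x' : Option (Option σ) → L, eval x' χ = 0 ∧
      (∀ i, eval₂ φ (fun j => eval x' (pp j)) (G i) = 0) ∧ ∀ i, w (x' i - x i) < 1 := by
  obtain ⟨M, hM⟩ := sys_step σ N e₀ 2
  refine ⟨M, fun K L _ _ φ v w π ho hv χ lam pp f G l x hc hp hf hR h0 hl => ?_⟩
  obtain ⟨h, b, e, κ, -, hκ, h1, h2⟩ := hM K L φ v w π ho
    ⟨fun e => hv.vp.ne (by rw [e, map_zero]), (ho.lt_one _).1 hv.vp.lt⟩ χ lam pp f G l 0 x hc hp hf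
    hR (fun i => (nr3a_ev φ χ lam pp f x i).symm.trans (h0 _))
    (fun j => hv.vp.mono (hv.vp.peval (hp j) hR.pt) (by simp))
    (fun e => zero_ne_one ((e ▸ w.map_zero).symm.trans hl))
    (bd_iff.2 (by rw [map_inv₀, hl, inv_one]))
  obtain ⟨x', h3, h4⟩ := h1.root1 hv (fun i => by rw [nr3a_mul, map_mul, h0, zero_mul]) h2 hκ
  simp only [nr3a_add] at h3
  exact ⟨x', h3 none, fun i => (nr3a_ev φ χ lam pp G x' i).symm.trans (h3 _),
    fun i => hv.vp.lt_one (h4 i) (by omega)⟩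

theorem nr3b_n {S σ : Type} [CommRing S] {N : ℕ} (χ lam : MP (Option (Option σ)) S)
    (pp : Fin (N + 1) → MP (Option (Option σ)) S) (G : σ → Fm N S) :
    sys χ lam pp G none = χ := rfl

theorem nr3b_sn {S σ : Type} [CommRing S] {N : ℕ} (χ lam : MP (Option (Option σ)) S)
    (pp : Fin (N + 1) → MP (Option (Option σ)) S) (G : σ → Fm N S) :
    sys χ lam pp G (some none) = lam := rfl

theorem nr3b_ss {S σ : Type} [CommRing S] {N : ℕ} (χ lam : MP (Option (Option σ)) S)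
    (pp : Fin (N + 1) → MP (Option (Option σ)) S) (G : σ → Fm N S) (l : σ) :
    sys χ lam pp G (some (some l)) = aeval pp (G l) := by simp only [sys, Option.elim]

/-- `Rg.arc0` for `f` gives a point `x` (`pert`: the system is regular at `x`; `tay0`, `inv_add`: the
bounds for `pp (x)` and `l`), then `sys_step` with the bound `A b₀` and `Rg.arc2` -/
theorem sys_arc : ∃ (A : ℕ) (M : ℕ → ℕ), ∀ (K L : Type) [Field K] [Field L] (φ : K →+* L) (v : Vl K)
    (w : Vl L) (π : K), Over φ v w → VC w (φ π) → ∀ (χ lam : MP (Option (Option σ)) L)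
    (pp : Fin (N + 1) → MP (Option (Option σ)) L) (f G : σ → Fm N K) (l : Fm N K) (b₀ : ℕ)
    (y u : Option (Option σ) → L), Close v π f l (A * b₀) M G → (∀ j, PBd w (φ π) b₀ e₀ (pp j)) →
    (∀ i, PBd v π b₀ e₀ (f i)) → PBd v π b₀ e₀ l →
    Rg w (φ π) b₀ e₀ (sys χ lam pp fun i => map φ (f i)) y →
    (∀ i, eval y (sys χ lam pp (fun i => map φ (f i)) i) = 0) → (∀ i, Bd w (φ π) b₀ (u i)) →
    eval₂ φ (fun j => eval y (pp j)) l ≠ 0 →
    Bd w (φ π) b₀ (eval₂ φ (fun j => eval y (pp j)) l)⁻¹ → dd1 y u χ = 0 →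
    (∀ i, dd1 y u (aeval pp (map φ (f i))) = 0) → (∀ i, eval y (aeval pp (map φ (G i))) = 0) →
    (∀ i, dd1 y u (aeval pp (map φ (G i))) = 0) →
    ∀ (r : ℤ) (ε : L), (A * b₀ : ℕ) < r → Bd w (φ π) (-r) ε →
    ∃ x' : Option (Option σ) → L, eval x' χ = 0 ∧
      (∀ i, eval₂ φ (fun j => eval x' (pp j)) (G i) = 0) ∧
      ∀ i, Bd w (φ π) ((A * b₀ : ℕ) - 2 * r) (x' i - y i - ε * u i) := by
  obtain ⟨M, hM⟩ := sys_step σ N e₀ 2
  obtain ⟨k₀, hk⟩ : ∃ k₀, k₀ = kN (Option (Option σ)) e₀ := ⟨_, rfl⟩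
  refine ⟨2 * k₀ + e₀ * e₀ + e₀ + 3, M, ?_⟩
  intro K L _ _ φ v w π ho hv χ lam pp f G l b₀ y u hcl hpp hf hl hR h0 hu hl0 hl1 hχ hdf hG hdG r ε
    hr hε
  generalize hB : (2 * k₀ + e₀ * e₀ + e₀ + 3) * b₀ = B at hcl hr ⊢
  have hB' : (B : ℤ) = 2 * (k₀ * b₀) + e₀ * e₀ * b₀ + e₀ * b₀ + 3 * b₀ := by
    rw [← hB]
    push_cast
    ring
  have p1 : (0 : ℤ) ≤ k₀ * b₀ := by positivity
  have p2 : (0 : ℤ) ≤ e₀ * e₀ * b₀ := by positivity
  have p3 : (0 : ℤ) ≤ e₀ * b₀ := by positivity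
  have p4 : (0 : ℤ) ≤ b₀ := by positivity
  have p5 : ((2 * k₀ * b₀ : ℕ) : ℤ) = 2 * (k₀ * b₀) := by
    push_cast
    ring
  have hw := hv.vp
  have hπ : VP v π := ⟨fun h => hw.ne (by rw [h, map_zero]), (ho.lt_one π).1 hw.lt⟩
  have ev : ∀ (z : Option (Option σ) → L) (g : Fm N K),
      eval₂ φ (fun j => eval z (pp j)) g = eval z (aeval pp (map φ g)) := fun z g => by
    rw [eval_aeval, eval_map]
  obtain ⟨x, hx0, hx⟩ := hR.arc0 hv h0 hu hε (by rw [← hk, p5]; linarith)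
  rw [← hk, p5] at hx
  have hxy : ∀ i, Bd w (φ π) (-(r - b₀)) (x i - y i) := fun i => by
    rw [← sub_add_cancel (x i - y i) (ε * u i)]
    exact (hw.mono (hx i) (by linarith)).add (hw.mul_le hε (hu i) (by linarith))
  have hRx := hR.pert hw (fun i => by rw [sub_self]; exact pbd_zero _ _ _ _) hxy
    (by rw [← hk, Nat.cast_mul]; linarith)
  have hxf : ∀ i, eval x (aeval pp (map φ (f i))) = 0 := fun i => by
    have := hx0 (some (some i))
    rwa [nr3b_ss, hdf, mul_zero] at this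
  have hxχ : eval x χ = 0 := by
    have := hx0 none
    rwa [nr3b_n, hχ, mul_zero] at this
  rw [ev] at hl0 hl1
  have hl2 := hw.inv_add hl0 hl1 (hw.tay0 (hw.paeval (hl.map ho) hpp) hR.pt (by linarith) hxy)
    (by rw [Nat.cast_mul]; linarith)
  rw [add_sub_cancel, ← ev] at hl2
  obtain ⟨h, b, e, κ, hb, hκ, hR', hΔ⟩ := hM K L φ v w π ho hπ χ lam pp f G l B x hcl
    (fun j => hw.pmono (hpp j) (by linarith) le_rfl) (fun i => hπ.pmono (hf i) (by linarith) le_rfl)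
    (hRx.mono hw (by omega) le_rfl) (fun i => (ev _ _).trans (hxf i))
    (fun j => hw.mono (hw.peval (hpp j) hRx.pt) (by linarith)) hl2.1 (hw.mono hl2.2 (by linarith))
  have hx1 : ∀ i, eval x (aeval pp (map φ (f i * h i))) = 0 := fun i => by
    rw [map_mul, map_mul, map_mul, hxf, zero_mul]
  have hy0 : ∀ i, eval y (aeval pp (map φ (f i))) = 0 := fun i => by
    have := h0 (some (some i))
    rwa [nr3b_ss] at this
  have g0 : ∀ i, Bd w (φ π) b (eval x (sys χ lam pp (fun i => map φ (f i * h i)) i)) := by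
    rintro (_ | _ | i)
    · rw [nr3b_n, hxχ]
      exact bd_zero _ _ _
    · have h1 := hx0 (some none)
      have h2 := hR.co (some none)
      have h3 : (0 : ℤ) ≤ b := by positivity
      rw [nr3b_sn] at h1 h2 ⊢
      rw [h1]
      exact hw.mul_le hε (hw.pdd1 h2 hR.pt hu) (by linarith)
    · rw [nr3b_ss, hx1]
      exact bd_zero _ _ _
  have g1 : ∀ i, eval y (sys 0 0 pp (fun i => map φ (G i - f i * h i)) i) = 0 := by
    rintro (_ | _ | i)
    · rw [nr3b_n, map_zero]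
    · rw [nr3b_sn, map_zero]
    · rw [nr3b_ss, map_sub, map_sub, map_sub, map_mul, map_mul, map_mul, hG, hy0, zero_mul, sub_zero]
  have g2 : ∀ i, dd1 y u (sys 0 0 pp (fun i => map φ (G i - f i * h i)) i) = 0 := by
    have : dd1 y u (0 : MP (Option (Option σ)) L) = 0 := by simp [dd1]
    rintro (_ | _ | i)
    · rwa [nr3b_n]
    · rwa [nr3b_sn]
    · rw [nr3b_ss, map_sub, map_sub, dd1_sub, map_mul, map_mul, dd1_mul, hdG, hdf, hy0, zero_mul,
        mul_zero, add_zero, sub_zero]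
  obtain ⟨x', h1, h2⟩ := hR'.arc2 hv g0 hΔ g1 g2 hb (fun i => hw.mono (hR.pt i) (by linarith))
    (fun i => hw.mono (hu i) (by linarith)) hε (fun i => hw.mono (hx i) (by linarith)) hr.le hκ
  refine ⟨x', ?_, fun i => ?_, fun i => ?_⟩
  · have := h1 none
    rwa [nr3b_n, nr3b_n, add_zero, hxχ] at this
  · have := h1 (some (some i))
    rwa [nr3b_ss, nr3b_ss, hx1, ← map_add, ← map_add, add_sub_cancel, ← ev] at this
  · rw [show x' i - y i - ε * u i = x' i - x i + (x i - y i - ε * u i) by ring]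
    exact (hw.mono (h2 i) (by linarith)).add (hw.mono (hx i) (by linarith))

end Pool.Agent.ZFN
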