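import Pool.Agent.Lib.MP_751085_ag.ZF.N.R1
import Pool.Agent.Lib.MP_751085_ag.ZF.C.Desc
import Pool.Agent.Lib.MP_751085_ag.ZC.V.Cf

/-! Forms that are close to multiples of given forms. -/

namespace Pool.Agent.ZFN

open Pool.Agent.ZCy
open scoped Classical Topology WithZero
open MvPolynomial

section close

variable {K σ : Type} [Field K] [Fintype σ] {N : ℕ} {w : Vl K} {π : K} {f G : σ → Fm N K}
  {l : Fm N K} {b₀ b₀' : ℕ} {M M' : ℕ → ℕ}

theorem close_self (w : Vl K) (π : K) (f : σ → Fm N K) (l : Fm N K) (b₀ : ℕ) (M : ℕ → ℕ) :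
    Close w π f l b₀ M f := by
  refine ⟨fun _ => 1, 0, M 0 * b₀ + 1, 0, ?_, fun _ => ?_, fun i => ?_, by simp⟩
  · intro L' _ φ w' _ x _ _ _ _ i
    simpa using bd_one w' (φ π)
  · simpa using pbd_C (I := Fin (N + 1)) (bd_one w π) 0
  · simpa using pbd_zero (I := Fin (N + 1)) w π _ 0

theorem Close.mono (hv : VP w π) (h : Close w π f l b₀' M' G) (hb : b₀ ≤ b₀')
    (hM : ∀ e, M e ≤ M' e) : Close w π f l b₀ M G := by
  obtain ⟨g, b, κ, e, h1, h2, h3, h4⟩ := h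
  refine ⟨g, b, κ, e, ?_, h2, h3,
    lt_of_le_of_lt (Nat.mul_le_mul (hM e) (Nat.add_le_add_left hb b)) h4⟩
  intro L' _ φ w' ho x hx hl hl' hf
  have hv' := over_vp ho hv
  have hb' : (b₀ : ℤ) ≤ b₀' := by exact_mod_cast hb
  exact h1 L' φ w' ho x (fun j => hv'.mono (hx j) hb') hl (hv'.mono hl' hb') hf

theorem close_pow (hπ : w π = WithZero.exp (-1)) (hl : ∀ m, w (coeff m l) ≤ 1) {e : ℕ}
    (h : ∀ i m, w (coeff m (G i - l ^ e * f i)) < 1) (M : ℕ → ℕ) : Close w π f l 0 M G := by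
  have hv := vp_of_unif hπ
  have hl' : PBd w π 0 l.totalDegree l := ⟨le_rfl, fun m => bd_iff.2 (hl m)⟩
  refine ⟨fun _ => l ^ e, 0, 1, e * l.totalDegree + ∑ i, (G i - l ^ e * f i).totalDegree, ?_,
    fun _ => hv.pmono (hv.ppow hl' e) (by simp) (Nat.le_add_right _ _), fun i => ?_, by simp⟩
  · intro L' _ φ w' _ x _ h1 h2 _ i
    have h3 := h2.pow e
    rw [eval₂_pow]
    exact ⟨pow_ne_zero _ h1, by simpa using h3⟩
  · rw [mul_comm (f i)]
    refine ⟨le_add_left (Finset.single_le_sum (f := fun i => (G i - l ^ e * f i).totalDegree)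
      (fun _ _ => Nat.zero_le _) (Finset.mem_univ i)), fun m => ?_⟩
    simpa using (bd_neg_one hπ).2 (h i m)

/-- the homogenised minimal polynomial of `f(x) / l(x) ^ d` -/
theorem nr6a_one {f l : Fm N K} {d : ℕ} (hf : f.IsHomogeneous d) (hl : l.IsHomogeneous 1)
    (x : Fin (N + 1) → Cb K) (hx : aeval x f ≠ 0 ∧ aeval x l ≠ 0) :
    ∃ (D : ℕ) (h : Fm N K) (μ : K), μ ≠ 0 ∧ h.IsHomogeneous D ∧ aeval x h = 0 ∧
      f ∣ h - C μ * l ^ D := by
  have hL : aeval x l ^ d ≠ 0 := pow_ne_zero _ hx.2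
  set a : Cb K := aeval x f / aeval x l ^ d with ha
  have ha0 : a ≠ 0 := div_ne_zero hx.1 hL
  have hai : IsIntegral K a := Algebra.IsIntegral.isIntegral a
  set q := minpoly K a with hq
  refine ⟨d * q.natDegree, ∑ i ∈ Finset.range (q.natDegree + 1),
    C (q.coeff i) * f ^ i * (l ^ d) ^ (q.natDegree - i), q.coeff 0,
    minpoly.coeff_zero_ne_zero hai ha0, ?_, ?_, ?_⟩
  · refine IsHomogeneous.sum _ _ _ fun i hi => ?_
    have hi' : i ≤ q.natDegree := Nat.lt_succ_iff.1 (Finset.mem_range.1 hi)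
    have := ((isHomogeneous_C _ (q.coeff i)).mul (hf.pow i)).mul
      ((hl.pow d).pow (q.natDegree - i))
    convert this using 1
    rw [zero_add, one_mul, ← mul_add, Nat.add_sub_cancel' hi']
  · have h0 : Polynomial.aeval a q = 0 := minpoly.aeval K a
    rw [Polynomial.aeval_eq_sum_range] at h0
    have hF : aeval x f = a * aeval x l ^ d := (div_mul_cancel₀ _ hL).symm
    rw [map_sum, ← mul_zero ((aeval x l ^ d) ^ q.natDegree), ← h0, Finset.mul_sum]
    refine Finset.sum_congr rfl fun i hi => ?_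
    have hi' : i ≤ q.natDegree := Nat.lt_succ_iff.1 (Finset.mem_range.1 hi)
    obtain ⟨j, hj⟩ := Nat.exists_eq_add_of_le hi'
    rw [map_mul, map_mul, map_pow, map_pow, map_pow, algHom_C, hF, Algebra.smul_def, hj,
      Nat.add_sub_cancel_left]
    ring
  · rw [Finset.sum_range_succ', pow_zero, mul_one, Nat.sub_zero, ← pow_mul, add_sub_cancel_right]
    exact Finset.dvd_sum fun i _ => ((dvd_pow_self f i.succ_ne_zero).mul_left _).mul_right _

/-- the product of the homogenised minimal polynomials of `f(x j) / l(x j) ^ d` -/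
theorem exists_h0 {I : Type} [Fintype I] {f l : Fm N K} {d : ℕ} (hf : f.IsHomogeneous d)
    (hl : l.IsHomogeneous 1) (x : I → Fin (N + 1) → Cb K)
    (hx : ∀ j, aeval (x j) f ≠ 0 ∧ aeval (x j) l ≠ 0) : ∃ (D : ℕ) (h : Fm N K) (μ : K), μ ≠ 0 ∧
      h.IsHomogeneous D ∧ (∀ j, aeval (x j) h = 0) ∧ f ∣ h - C μ * l ^ D := by
  suffices H : ∀ s : Finset I, ∃ (D : ℕ) (h : Fm N K) (μ : K), μ ≠ 0 ∧ h.IsHomogeneous D ∧
      (∀ j ∈ s, aeval (x j) h = 0) ∧ f ∣ h - C μ * l ^ D by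
    obtain ⟨D, h, μ, h1, h2, h3, h4⟩ := H Finset.univ
    exact ⟨D, h, μ, h1, h2, fun j => h3 j (Finset.mem_univ j), h4⟩
  intro s
  induction s using Finset.induction_on with
  | empty => exact ⟨0, 1, 1, one_ne_zero, isHomogeneous_one _ _, by simp, by simp⟩
  | insert j s _ ih =>
    obtain ⟨D, h, μ, h1, h2, h3, h4⟩ := ih
    obtain ⟨D', h', μ', g1, g2, g3, g4⟩ := nr6a_one hf hl (x j) (hx j)
    refine ⟨D + D', h * h', μ * μ', mul_ne_zero h1 g1, h2.mul g2, fun i hi => ?_, ?_⟩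
    · rcases Finset.mem_insert.1 hi with rfl | hi
      · rw [map_mul, g3, mul_zero]
      · rw [map_mul, h3 i hi, zero_mul]
    · have : h * h' - C (μ * μ') * l ^ (D + D') =
          (h - C μ * l ^ D) * h' + C μ * l ^ D * (h' - C μ' * l ^ D') := by
        rw [map_mul, pow_add]; ring
      rw [this]
      exact (h4.mul_right _).add (g4.mul_left _)

/-- on `f = 0` the form is `μ ^ 2 l ^ (2 D + e) + π ^ s H`; `peval`, `inv_add` -/
theorem exists_hu (hv : VP w π) {h H : σ → Fm N K} {μ : σ → K} {D e : σ → ℕ} (hμ : ∀ i, μ i ≠ 0)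
    (hd : ∀ i, f i ∣ h i - C (μ i) * l ^ D i) (b₀ : ℕ) : ∃ s b : ℕ,
      HU w π f l b₀ (fun i => h i ^ 2 * l ^ e i + C (π ^ s) * H i) b := by
  choose m hm using fun i => hv.exists_bd (μ i)⁻¹
  choose c hc using fun i => hv.exists_pbd (H i)
  refine ⟨∑ i, (2 * m i + (2 * D i + e i) * b₀) + ∑ i, (c i + (H i).totalDegree * b₀) + 1,
    ∑ i, (2 * m i + (2 * D i + e i) * b₀), ?_⟩
  set b := ∑ i, (2 * m i + (2 * D i + e i) * b₀) with hb
  set t := ∑ i, (c i + (H i).totalDegree * b₀) with ht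
  intro L' _ φ w' ho x hx hl hl' hf i
  have hv' := over_vp ho hv
  have e1 : eval₂ φ x (h i) = φ (μ i) * eval₂ φ x l ^ D i := by
    obtain ⟨g, hg⟩ := hd i
    have := congrArg (eval₂ φ x) hg
    rw [eval₂_mul, hf i, zero_mul, eval₂_sub, eval₂_mul, eval₂_C, eval₂_pow, sub_eq_zero] at this
    exact this
  have e2 : eval₂ φ x (h i ^ 2 * l ^ e i + C (π ^ (b + t + 1)) * H i) =
      φ (μ i) ^ 2 * eval₂ φ x l ^ (2 * D i + e i) +
        φ π ^ ((b + t + 1 : ℕ) : ℤ) * eval x (map φ (H i)) := by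
    rw [eval₂_add, eval₂_mul, eval₂_mul, eval₂_C, eval₂_pow, eval₂_pow, e1, map_pow, zpow_natCast,
      eval_map]
    ring
  have hμ' : φ (μ i) ≠ 0 := (map_ne_zero φ).2 (hμ i)
  have b1 : 2 * m i + (2 * D i + e i) * b₀ ≤ b :=
    Finset.single_le_sum (f := fun i => 2 * m i + (2 * D i + e i) * b₀)
      (fun _ _ => Nat.zero_le _) (Finset.mem_univ i)
  have b2 : c i + (H i).totalDegree * b₀ ≤ t :=
    Finset.single_le_sum (f := fun i => c i + (H i).totalDegree * b₀)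
      (fun _ _ => Nat.zero_le _) (Finset.mem_univ i)
  have h1 : Bd w' (φ π) b (φ (μ i) ^ 2 * eval₂ φ x l ^ (2 * D i + e i))⁻¹ := by
    have g1 : Bd w' (φ π) (m i) (φ (μ i))⁻¹ := by
      rw [← map_inv₀]; exact (bd_map φ ho).2 (hm i)
    rw [mul_inv, ← inv_pow, ← inv_pow]
    refine hv'.mul_le (g1.pow 2) (hl'.pow _) ?_
    exact_mod_cast b1
  have h2 : Bd w' (φ π) (-(b + 1 : ℤ))
      (φ π ^ ((b + t + 1 : ℕ) : ℤ) * eval x (map φ (H i))) := by
    rw [hv'.zpow_mul]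
    refine hv'.mono (hv'.peval ((hc i).map ho) hx) ?_
    have : ((c i + (H i).totalDegree * b₀ : ℕ) : ℤ) ≤ t := by exact_mod_cast b2
    push_cast at this ⊢
    linarith
  beta_reduce
  rw [e2]
  exact hv'.inv_add (mul_ne_zero (pow_ne_zero _ hμ') (pow_ne_zero _ hl)) h1 h2 (by linarith)

theorem nr6a_small {ν : AbsoluteValue (Cb K) ℝ} (h : NuC w π ν) (hπ : π ≠ 0) {ε : ℝ} (hε : 0 < ε) :
    ∃ r : ℕ, ∀ y : Cb K, ((algebraMap K (Cb K)).comp w.integer.subtype).IsIntegralElem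
      (algebraMap K (Cb K) π ^ (-r : ℤ) * y) → ν y < ε := by
  obtain ⟨r, hr⟩ := exists_pow_lt_of_lt_one hε h.lt
  refine ⟨r, fun y hy => lt_of_le_of_lt ?_ hr⟩
  have h0 : algebraMap K (Cb K) π ≠ 0 := (map_ne_zero _).2 hπ
  have e : y = algebraMap K (Cb K) π ^ r * (algebraMap K (Cb K) π ^ (-r : ℤ) * y) := by
    rw [zpow_neg, zpow_natCast, mul_inv_cancel_left₀ (pow_ne_zero _ h0)]
  rw [e, map_mul, map_pow]
  exact mul_le_of_le_one_right (pow_nonneg (ν.nonneg _) _) (h.le _ hy)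

theorem NuC.small {ν : AbsoluteValue (Cb K) ℝ} (h : NuC w π ν) (hv : VP w π) {ε : ℝ} (hε : 0 < ε) :
    ∃ r : ℕ, ∀ y : K, Bd w π (-r) y → ν (algebraMap K (Cb K) y) < ε := by
  obtain ⟨r, hr⟩ := nr6a_small h hv.ne hε
  refine ⟨r, fun y hy => hr _ ?_⟩
  rw [← map_zpow₀, ← map_mul]
  exact RingHom.isIntegralElem_map ((algebraMap K (Cb K)).comp w.integer.subtype)
    (x := ⟨π ^ (-r : ℤ) * y, hy⟩)

/-- `Cpl.le_one_iff_int` -/
theorem NuC.small_ext {p : ℕ} {G : Type} [AddCommGroup G] {𝒦 : LK p K G}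
    {ν : AbsoluteValue (Cb K) ℝ} (h : NuC 𝒦.w 𝒦.π ν) {L : IntermediateField K (Cb K)}
    {Λ : LocF L G} (hΛ : 𝒦.Ext Λ) {ε : ℝ} (hε : 0 < ε) :
    ∃ r : ℕ, ∀ y : L, Λ.bd (-r) y → ν (y : Cb K) < ε := by
  obtain ⟨r, hr⟩ := nr6a_small h (vp_of_unif 𝒦.unif).ne hε
  refine ⟨r, fun y hy => hr _ ?_⟩
  have := hΛ.fd
  have := hΛ.sep
  have h1 := (𝒦.cpl.le_one_iff_int (Nrm.isVR ⟨𝒦.π, 𝒦.unif⟩) hΛ.ovr _).1 hy
  have h2 := h1.map (algebraMap L (Cb K))
  rw [map_mul, map_zpow₀, hΛ.ϖ] at h2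
  exact h2

end close

variable {k : Type} [Field k] {X : Var k} {σ : Type} [Fintype σ]

theorem Jets.vanK_mul {J : Jets k X.N} {d e : ℕ} {f : Fm X.N k} (hf : J.Van d f) {K : Type}
    [Field K] [Algebra k K] {h : Fm X.N K} (hh : h.IsHomogeneous e) :
    J.VanK (d + e) K (map (algebraMap k K) f * h) := by
  rw [h.as_sum, Finset.mul_sum]
  refine sum_mem fun m hm => ?_
  have e1 : map (algebraMap k K) f * monomial m (coeff m h) =
      coeff m h • map (algebraMap k K) (monomial m 1 * f) := by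
    rw [map_mul, map_monomial, map_one, ← smul_mul_assoc, smul_monomial, smul_eq_mul, mul_one,
      mul_comm]
  rw [e1, add_comm d e]
  refine Submodule.smul_mem _ _ (Submodule.subset_span ⟨_, hf.mul (isHomogeneous_monomial 1 ?_), rfl⟩)
  rw [Finsupp.degree_eq_weight_one]
  exact hh (mem_support_iff.1 hm)

/-- `SmAll` at the generic point; `l0` does not vanish at the first jet -/
theorem zch_not_mem {J : Jets k X.N} (hJ : X.JOk J) (h0 : 0 < J.s) {c : Chart k σ X.N (X.IK k)}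
    {Φ : MP σ k} (h : X.ZCh J c Φ) : c.l0 ∉ X.I ∧ ∀ i, c.f (some (some i)) ∉ X.I := by
  refine ⟨fun e => h.l0 ⟨0, h0⟩ ((hJ.on _).2 _ e), fun i e => ?_⟩
  have := h.all X.F X.g X.on_g (Pi.single i 1) (fun j hj => by
    obtain rfl : j = i := by_contra fun hne => hj (Pi.single_eq_of_ne hne _)
    exact e.2) (by
      rw [Finset.sum_eq_single i (fun j _ hj => by rw [Pi.single_eq_of_ne hj, zero_smul])
        (fun hi => absurd (Finset.mem_univ i) hi), Pi.single_eq_same, one_smul]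
      exact Submodule.subset_span ⟨_, e, rfl⟩)
  simpa using congrFun this i

theorem nr6c_mono {K σ : Type} [Field K] {N : ℕ} {w : Vl K} {π : K} {f h : σ → Fm N K}
    {l : Fm N K} {b₀ b b' : ℕ} (hv : VP w π) (H : HU w π f l b₀ h b) (hb : b ≤ b') :
    HU w π f l b₀ h b' := fun L' _ φ w' ho x h1 h2 h3 h4 i =>
  ⟨(H L' φ w' ho x h1 h2 h3 h4 i).1,
    (over_vp ho hv).mono (H L' φ w' ho x h1 h2 h3 h4 i).2 (by exact_mod_cast hb)⟩

theorem nr6c_grad {K L : Type} [Field K] [Field L] [Algebra K L] {N : ℕ} {x : Fin (N + 1) → L}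
    {h H : Fm N K} (f l : Fm N K) (a : K) (e : ℕ) (hh : aeval x h = 0) (hH : aeval x H = 0) :
    aeval x (f * (h ^ 2 * l ^ e + C a * H)) = 0 ∧ grad x (f * (h ^ 2 * l ^ e + C a * H)) =
      (aeval x f * algebraMap K L a) • grad x H := by
  refine ⟨by simp [hh, hH], funext fun i => ?_⟩
  simp [grad, hh, hH, mul_assoc]

theorem nr6c_prod {k σ : Type} [Field k] {X : Var k} [Fintype σ] {f : σ → Fm X.N k} {l : Fm X.N k}
    {d : ℕ} (hf : ∀ i, (f i).IsHomogeneous d ∧ f i ∉ X.I) (hl : l.IsHomogeneous 1 ∧ l ∉ X.I) :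
    (∃ m, (l * ∏ i, f i).IsHomogeneous m) ∧ l * ∏ i, f i ∉ X.I := by
  refine ⟨⟨_, hl.1.mul (IsHomogeneous.prod _ _ (fun _ => d) fun i _ => (hf i).1)⟩, fun h => ?_⟩
  have h2 := h.2
  rw [map_mul, map_prod, mul_eq_zero, Finset.prod_eq_zero_iff] at h2
  rcases h2 with h2 | ⟨i, -, h2⟩
  · exact hl.2 ⟨⟨_, hl.1⟩, h2⟩
  · exact (hf i).2 ⟨⟨_, (hf i).1⟩, h2⟩

theorem nr6c_nhds {K : Type} [Field K] [TopologicalSpace K] {w : Vl K} {π : K} {N : ℕ}
    (ht : ∀ (x : K) (r : ℕ), {y | Bd w π (-r) (y - x)} ∈ 𝓝 x) {d : ℕ} {g : Fm N K}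
    (hg : g.IsHomogeneous d) (κ : ℕ) : ∃ W ∈ 𝓝 (cf g), ∀ G : Fm N K, G.IsHomogeneous d →
      cf G ∈ W → PBd w π (-κ) d (G - g) := by
  refine ⟨{c | ∀ m ∈ (Finset.univ : Finset (Fin (N + 1))).finsuppAntidiag d,
    Bd w π (-κ) (c m - cf g m)}, ?_, fun G hG h => ⟨(hG.sub hg).totalDegree_le, fun m => ?_⟩⟩
  · exact (Filter.eventually_all_finset _).2 fun m _ =>
      (continuous_apply m).continuousAt.eventually (ht (cf g m) κ)
  · by_cases hm : m.degree = d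
    · rw [coeff_sub]
      refine h m (Finset.mem_finsuppAntidiag.2 ⟨?_, Finset.subset_univ _⟩)
      rw [← hm, Finsupp.degree_eq_sum]
    · rw [(hG.sub hg).coeff_eq_zero hm]
      exact bd_zero _ _ _

/-- `locf` for the radius `ε / 2` and `g = l ∏ f i`; `exists_h0`, `exists_hu`;
`fv i = f i (h i ^ 2 l ^ e i + π ^ s H i)` with `H i` of degree `d - d₀`; its gradient at the points
is `f i π ^ s grad (H i)`; `ift`; `W i` prescribes the coefficients of degree `d` up to order `κ`. -/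
theorem exists_close {J : Jets k X.N} {K : Type} [Field K] [Algebra k K] [TopologicalSpace K]
    {w : Vl K} {π : K} (hv : VP w π) {ν : AbsoluteValue (Cb K) ℝ} (hν : NuC w π ν)
    (hU : UApi X σ ν) (ht : ∀ (x : K) (r : ℕ), {y | Bd w π (-r) (y - x)} ∈ 𝓝 x)
    {f : σ → Fm X.N k} {l : Fm X.N k} {d₀ : ℕ} (hf : ∀ i, J.Van d₀ (f i) ∧ f i ∉ X.I)
    (hl : l.IsHomogeneous 1 ∧ l ∉ X.I) (T : PFam X K) (b₀ : ℕ) (M : ℕ → ℕ) :
    ∃ d₃ : ℕ, ∀ d, d₃ ≤ d → ∃ (fv : σ → Fm X.N K) (W : σ → Set ((Fin (X.N + 1) →₀ ℕ) → K)),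
      (∀ i, J.VanK d K (fv i) ∧ W i ∈ 𝓝 (cf (fv i))) ∧ ∀ G : σ → Fm X.N k,
        (∀ i, (G i).IsHomogeneous d) → (∀ i, cf (map (algebraMap k K) (G i)) ∈ W i) →
        Close w π (fun i => map (algebraMap k K) (f i)) (map (algebraMap k K) l) b₀ M
          (fun i => map (algebraMap k K) (G i)) ∧ T.Hit ν (OnG X G) := by
  obtain ⟨hg, hg'⟩ := nr6c_prod (fun i => ⟨(hf i).1.1, (hf i).2⟩) hl
  obtain ⟨x, d₁, hx, hH⟩ := hU.locf { T with ε := T.ε / 2, pos := half_pos T.pos } _ hg hg'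
  have hne : ∀ i j, aeval (x j) (map (algebraMap k K) (f i)) ≠ 0 ∧
      aeval (x j) (map (algebraMap k K) l) ≠ 0 := fun i j => by
    have h := (hx j).2.2
    rw [map_mul, map_prod, mul_ne_zero_iff, Finset.prod_ne_zero_iff] at h
    rw [aeval_map_algebraMap, aeval_map_algebraMap]
    exact ⟨h.2 i (Finset.mem_univ _), h.1⟩
  have hl' := hl.1.map (algebraMap k K)
  choose D h μ hμ hD h0 hdv using fun i =>
    exists_h0 ((hf i).1.1.map (algebraMap k K)) hl' x (hne i)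
  refine ⟨d₀ + d₁ + ∑ i, 2 * D i, fun d hd => ?_⟩
  obtain ⟨H, hHd, hH0⟩ := hH (d - d₀) (by omega)
  obtain ⟨s, b, hb⟩ := exists_hu (H := H) (e := fun i => d - d₀ - 2 * D i) hv hμ hdv b₀
  set hh : σ → Fm X.N K := fun i =>
    h i ^ 2 * map (algebraMap k K) l ^ (d - d₀ - 2 * D i) + C (π ^ s) * H i with ehh
  have hhd : ∀ i, (hh i).IsHomogeneous (d - d₀) := fun i => by
    have h1 : 2 * D i ≤ ∑ i, 2 * D i :=
      Finset.single_le_sum (f := fun i => 2 * D i) (fun _ _ => Nat.zero_le _) (Finset.mem_univ i)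
    have h2 := ((hD i).pow 2).mul (hl'.pow (d - d₀ - 2 * D i))
    rw [show D i * 2 + 1 * (d - d₀ - 2 * D i) = d - d₀ by omega] at h2
    exact h2.add ((hHd i).C_mul _)
  have e : d₀ + (d - d₀) = d := by omega
  have hfd : ∀ i, (map (algebraMap k K) (f i) * hh i).IsHomogeneous d := fun i => by
    have h1 := ((hf i).1.1.map (algebraMap k K)).mul (hhd i)
    rwa [e] at h1
  have hgr := fun i j => nr6c_grad (map (algebraMap k K) (f i)) (map (algebraMap k K) l) (π ^ s)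
    (d - d₀ - 2 * D i) (h0 i j) ((hH0 j).1 i)
  have hind : ∀ j, Ind X (x j) fun i => map (algebraMap k K) (f i) * hh i := fun j => by
    obtain ⟨w₀, hw⟩ := (hH0 j).2
    refine ⟨w₀, fun u h1 h2 => hw u h1 fun i => ?_⟩
    have h3 := h2 i
    rw [ehh] at h3
    beta_reduce at h3
    rw [(hgr i j).2, smul_dotProduct, smul_eq_mul, mul_eq_zero] at h3
    exact h3.resolve_left (mul_ne_zero (hne i j).1
      ((map_ne_zero_iff _ (algebraMap K (Cb K)).injective).2 (pow_ne_zero _ hv.ne)))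
  choose ε hε hift using fun j => hU.ift (T.L j) (x j) d _ (T.fd j) (fun i => ((hx j).1 i).1)
    (hx j).2.1 hfd (fun i => (hgr i j).1) (hind j) (T.ε / 2) (half_pos T.pos)
  choose r hr using fun j => hν.small hv (hε j)
  choose c hc using fun i => hv.exists_pbd (hh i)
  choose W hW hWb using fun i => nr6c_nhds ht (hfd i)
    (M d * (b + ∑ i, c i + b₀) + 1 + ∑ j, r j)
  refine ⟨fun i => map (algebraMap k K) (f i) * hh i, W, fun i => ⟨?_, hW i⟩, fun G hG hGW => ?_⟩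
  · have h1 := Jets.vanK_mul (hf i).1 (hhd i)
    rwa [e] at h1
  have hcl := fun i => hWb i _ ((hG i).map (algebraMap k K)) (hGW i)
  refine ⟨⟨hh, b + ∑ i, c i, _, d, nr6c_mono hv hb (Nat.le_add_right _ _), fun i => ?_, hcl,
    by omega⟩, fun j => ?_⟩
  · have h1 : c i ≤ ∑ i, c i :=
      Finset.single_le_sum (f := c) (fun _ _ => Nat.zero_le _) (Finset.mem_univ i)
    exact hv.pmono (hc i) (by omega) ((hhd i).totalDegree_le.trans (Nat.sub_le _ _))
  · have h1 : r j ≤ ∑ j, r j :=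
      Finset.single_le_sum (f := r) (fun _ _ => Nat.zero_le _) (Finset.mem_univ j)
    obtain ⟨y, hy, hon, hy0⟩ := hift j _ (fun i => (hG i).map (algebraMap k K)) fun i m => by
      rw [← coeff_sub]
      exact hr j _ (hv.mono ((hcl i).2 m) (by omega))
    refine ⟨y, fun i => ⟨(hy i).1, ?_⟩, hon, fun i => ?_⟩
    · have h2 := ν.sub_le (y i) (x j i) (T.x j i)
      have h3 : ν (x j i - T.x j i) < T.ε / 2 := ((hx j).1 i).2
      linarith [(hy i).2]
    · rw [← hy0 i, aeval_map_algebraMap]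

end Pool.Agent.ZFN
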