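import Pool.Agent.Lib.MP_751085_ag.ZF.N.R3
import Pool.Agent.Lib.MP_751085_ag.ZF.N.R6
import Pool.Agent.Lib.MP_751085_ag.ZF.N.G1
import Pool.Agent.Lib.MP_751085_ag.ZF.C.Lin

/-! Arcs along the jets. -/

namespace Pool.Agent.ZFN

open Pool.Agent.ZCy
open scoped Classical
open MvPolynomial Filter

variable {k : Type} [Field k] {X : Var k} {σ : Type} [Fintype σ]

section jac

variable {τ : Type} [Fintype τ] {PF : DR X.F (Option τ)} (R : CR X PF) {t : k}
  {D : Derivation ℤ k k} {M : Type} [Field M] [Algebra k M] (Q : R.A →ₐ[k] M) (g : τ → M)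

/-- write `u_i l ^ m = G_i` (`rep`), apply `grad`, use Euler's identity -/
theorem CR.w_ne (h : PF.Cmp t D) {ζ : M}
    (H : ∀ i, R.P.grad (Q : R.A →+* M) g (R.g i) = ζ * R.pv (Q : R.A →+* M) i) : g = 0 := by
  funext i
  obtain ⟨m, G, hG, e1⟩ := R.rep (R.P.u (some i))
  have e2 : R.P.u (some i) * aeval R.g (R.l ^ m) = aeval R.g G := by
    rw [map_pow]
    exact e1
  have h1 : ∀ {G : Fm X.N k}, G.IsHomogeneous (m * R.e) → R.P.grad (Q : R.A →+* M) g (aeval R.g G) =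
      ζ * ((m * R.e : ℕ) * Q (aeval R.g G)) := fun {G} hG => by
    have := grad_dot_self hG (R.pv (Q : R.A →+* M))
    rw [R.pv_aeval (Q : R.A →+* M) Q.commutes] at this
    rw [R.grad_aeval h, Q.comp_algebraMap]
    refine Eq.trans ?_ (congrArg (ζ * ·) this)
    rw [dotProduct, Finset.mul_sum]
    exact Finset.sum_congr rfl fun j _ => (congrArg _ (H j)).trans (mul_left_comm _ _ _)
  have h2 := h1 hG
  rw [← e2, DR.grad_mul, DR.grad_u, h1 (mul_comm m R.e ▸ R.hl.pow m), map_mul Q] at h2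
  have h3 : IsUnit (Q (aeval R.g (R.l ^ m))) := by
    rw [map_pow]
    exact (R.lun.pow m).map Q
  refine (mul_eq_zero.1 ?_).resolve_left h3.ne_zero
  simp only [RingHom.coe_coe] at h2
  linear_combination h2

/-- the point in the coordinates `(θ, ξ)` -/
noncomputable def CR.yq (i : Option τ) : M := Q (R.y i)

/-- the direction in the coordinates `(θ, ξ)` -/
noncomputable def CR.dir (i : Option τ) : M := R.P.grad (Q : R.A →+* M) g (R.y i)

theorem CR.eval_yq (Ψ : MP (Option τ) k) :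
    eval (R.yq Q) (map (algebraMap k M) Ψ) = Q (aeval R.y Ψ) := by
  rw [eval_map, comp_aeval_apply]
  rfl

theorem CR.dd1_yq (h : PF.Cmp t D) (Ψ : MP (Option τ) k) :
    dd1 (R.yq Q) (R.dir Q g) (map (algebraMap k M) Ψ) =
      R.P.grad (Q : R.A →+* M) g (aeval R.y Ψ) := by
  rw [R.grad_aeval h, Q.comp_algebraMap]
  exact Finset.sum_congr rfl fun j _ => by
    rw [pderiv_map, eval_map]
    rfl

/-- a vector that is tangent to `χ = 0` is determined by its `ξ`-part (`et`) -/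
theorem CR.eq_dir (h : PF.Cmp t D) {u : Option τ → M}
    (hu : dd1 (R.yq Q) u (map (algebraMap k M) R.χ) = 0) : u = R.dir Q fun i => u (some i) := by
  have h1 : ∀ i, R.dir Q (fun i => u (some i)) (some i) = u (some i) := fun i => by
    rw [CR.dir, R.hy, DR.grad_u]
  have h2 := R.dd1_yq Q (fun i => u (some i)) h R.χ
  rw [R.root, show R.P.grad (Q : R.A →+* M) (fun i => u (some i)) 0 = 0 by simp [DR.grad], ← hu,
    dd1, dd1, Fintype.sum_option, Fintype.sum_option] at h2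
  simp only [h1, add_left_inj] at h2
  rw [pderiv_map, R.eval_yq] at h2
  funext i
  rcases i with _ | i
  · exact (mul_left_cancel₀ (R.et.map Q).ne_zero h2).symm
  · exact (h1 i).symm

end jac

/-- the linear equation -/
noncomputable def lamq {τ M : Type} [Fintype τ] [Field M] (lam : τ → M) (y : Option τ → M) :
    MP (Option τ) M := ∑ i, C (lam i) * (MvPolynomial.X (some i) - C (y (some i)))

theorem nr4b_dd {N : ℕ} {M : Type} [Field M] [Algebra k M] (x w : Fin (N + 1) → M) (f : Fm N k) :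
    dd1 x w (map (algebraMap k M) f) = grad x f ⬝ᵥ w := by
  simp only [dd1, grad, dotProduct, pderiv_map, eval_map, aeval_def]

theorem nr4b_lam {τ M : Type} [Fintype τ] [Field M] (lam : τ → M) (y u : Option τ → M) :
    dd1 y u (lamq lam y) = ∑ i, lam i * u (some i) := by
  simp only [dd1, lamq, map_sum, pderiv_C_mul, map_sub, pderiv_C, sub_zero, pderiv_X, map_mul,
    eval_C, Finset.sum_mul]
  rw [Finset.sum_comm]
  refine Finset.sum_congr rfl fun i _ => ?_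
  rw [Finset.sum_eq_single (some i) (fun j _ hj => by simp [Pi.single_eq_of_ne' hj]) (by simp)]
  simp

theorem nr4b_tan {τ : Type} [Fintype τ] {PF : DR X.F (Option τ)} (R : CR X PF) {t : k}
    {D : Derivation ℤ k k} (h : PF.Cmp t D) {M : Type} [Field M] [Algebra k M] (Q : R.A →ₐ[k] M)
    (g : τ → M) {G : Fm X.N k} (hG : G ∈ X.I) : grad (R.pv (Q : R.A →+* M)) G ⬝ᵥ
      (fun j => R.P.grad (Q : R.A →+* M) g (R.g j)) = 0 := by
  have h1 := R.grad_aeval h (Q : R.A →+* M) g R.g G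
  rw [R.zr hG, Q.comp_algebraMap] at h1
  exact h1.symm.trans (by simp [DR.grad])

/-- `jd_ne`. A kernel vector is `dir Q g'`. The vectors `w(g)`, `w(g')` lie in the plane of `IndK`,
so a combination is a multiple of the point; `w_ne`. -/
theorem CR.jd_ne {PF : DR X.F (Option (Option σ))} (R : CR X PF) {t : k} {D : Derivation ℤ k k}
    (h : PF.Cmp t D) {M : Type} [Field M] [Algebra k M] (Q : R.A →ₐ[k] M) {g lam : Option σ → M}
    (hl : ∑ i, lam i * g i = 1) {f : σ → Fm X.N k} (hI : IndK X (R.pv (Q : R.A →+* M)) f)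
    (hf : ∀ i, grad (R.pv (Q : R.A →+* M)) (f i) ⬝ᵥ
      (fun j => R.P.grad (Q : R.A →+* M) g (R.g j)) = 0) :
    jd (sys (map (algebraMap k M) R.χ) (lamq lam (R.yq Q)) (fun j => map (algebraMap k M) (R.pp j))
      fun i => map (algebraMap k M) (f i)) (R.yq Q) ≠ 0 := by
  refine ZFN.jd_ne fun u H => ?_
  have hu := R.eq_dir Q h (H none)
  have h1 : ∑ i, lam i * u (some i) = 0 := (nr4b_lam lam _ u).symm.trans (H (some none))
  obtain ⟨w₀, hw⟩ := hI
  obtain ⟨c, c', e⟩ := hw _ (fun G => nr4b_tan R h Q g) hf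
  obtain ⟨d, d', e'⟩ := hw _ (fun G => nr4b_tan R h Q fun i => u (some i)) fun i => by
    have h2 : dd1 _ u (aeval _ (map (algebraMap k M) (f i))) = 0 := H (some (some i))
    rw [dd1_aeval, nr4b_dd, hu] at h2
    simp only [R.eval_yq, R.dd1_yq Q _ h] at h2
    exact h2
  have h2 := R.w_ne Q (d' • g - c' • fun i => u (some i)) h (ζ := d' * c - c' * d) fun i => by
    have h3 := congrFun e i
    have h4 := congrFun e' i
    simp only [DR.grad, Pi.add_apply, Pi.sub_apply, Pi.smul_apply, smul_eq_mul, sub_mul,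
      Finset.sum_sub_distrib, mul_assoc, ← Finset.mul_sum] at h3 h4 ⊢
    linear_combination d' * h3 - c' * h4
  have h3 : d' = 0 := by
    have h4 : ∑ i, lam i * (d' • g - c' • fun i => u (some i)) i = 0 := by rw [h2]; simp
    simp only [Pi.sub_apply, Pi.smul_apply, smul_eq_mul, mul_sub, Finset.sum_sub_distrib,
      mul_left_comm (lam _), ← Finset.mul_sum, hl, h1] at h4
    simpa using h4
  have h4 := R.w_ne Q (fun i => u (some i)) h (ζ := d) fun i => by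
    simpa [h3] using congrFun e' i
  rw [hu, h4]
  funext i
  simp [CR.dir, DR.grad]

/-- `SM` at `b = 0` -/
theorem zch_ind {J : Jets k X.N} (hJ : X.JOk J) {c : Chart k σ X.N (X.IK k)} {Φ : MP σ k}
    (h : X.ZCh J c Φ) (j : Fin J.s) : IndK X (J.Q j) fun i => c.f (some (some i)) := by
  obtain ⟨w, hw⟩ := h.sm J.K (algebraMap k J.K) 0
    (by rw [eval₂_zero_apply]; exact (map_ne_zero _).2 h.Φ0) (J.Q j) (hJ.on j).1
    (by
      rintro _ ⟨G, hG, rfl⟩
      rw [Algebra.algebraMap_self, MvPolynomial.map_id]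
      exact (hJ.on j).2 G hG)
    fun i => (((h.van i).2 j).1).trans (zero_mul _).symm
  refine ⟨w, fun v h1 h2 => hw v ?_ fun i => (h2 i).trans (zero_mul _).symm⟩
  rintro _ ⟨G, hG, rfl⟩
  rw [Algebra.algebraMap_self, MvPolynomial.map_id]
  exact h1 G hG

theorem nr4c_pbd {p : ℕ} {ι k₁ : Type} [Field k₁] [Algebra k k₁] {B : Pls p k ι}
    {D₁ : Derivation ℤ k₁ k₁} {L G : ι → Type} [∀ i, Field (L i)] [∀ i, AddCommGroup (G i)]
    (𝓛 : LFam B D₁ L G) {I T : Type} [Finite T] (Ψ : T → MP I k₁) : ∃ (e : ℕ) (c : ι → ℕ), FinS c ∧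
      ∀ t i, PBd (𝓛.Λ i).w (𝓛.Λ i).ϖ (c i) e (map (𝓛.e i) (Ψ t)) := by
  obtain ⟨e, he⟩ := (Set.finite_range fun t => (Ψ t).totalDegree).bddAbove
  obtain ⟨c, hc, h⟩ := 𝓛.exists_bd (S := ⋃ t, ((Ψ t).coeffs : Set k₁))
    (Set.finite_iUnion fun t => Finset.finite_toSet _)
  refine ⟨e, c, hc, fun t i => ⟨?_, fun m => ?_⟩⟩
  · exact (Finset.sup_mono (support_map_subset _ _)).trans (he ⟨t, rfl⟩)
  · rw [coeff_map]
    by_cases h0 : coeff m (Ψ t) = 0
    · rw [h0, map_zero]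
      exact bd_zero _ _ _
    · exact h _ (Set.mem_iUnion.2 ⟨t, coeff_mem_coeffs m h0⟩) i

theorem nr4c_of_map {K L I : Type} [Field K] [Field L] {φ : K →+* L} {v : Vl K} {w : Vl L}
    (ho : Over φ v w) {π : K} {c : ℤ} {e : ℕ} {Ψ : MP I K} (h : PBd w (φ π) c e (map φ Ψ)) :
    PBd v π c e Ψ := by
  refine ⟨?_, fun m => (bd_map φ ho).1 ?_⟩
  · have h1 := h.1
    rwa [totalDegree, support_map_of_injective _ φ.injective] at h1
  · rw [← coeff_map]
    exact h.2 m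

theorem nr4c_ev {S S' I : Type} [CommRing S] [CommRing S'] (φ : S →+* S') (x : I → S) (Ψ : MP I S) :
    eval (fun i => φ (x i)) (map φ Ψ) = φ (eval x Ψ) := (map_eval φ x Ψ).symm

theorem nr4c_ae {S S' I J : Type} [CommRing S] [CommRing S'] (φ : S →+* S') (q : J → MP I S)
    (Ψ : MP J S) : aeval (fun j => map φ (q j)) (map φ Ψ) = map φ (aeval q Ψ) :=
  (map_eval₂ φ q Ψ).symm

theorem nr4c_pv {τ : Type} [Fintype τ] {PF : DR X.F (Option τ)} (R : CR X PF) {M : Type} [Field M]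
    [Algebra k M] (Q : R.A →ₐ[k] M) (F : Fm X.N k) :
    eval (fun n => eval (R.yq Q) (map (algebraMap k M) (R.pp n))) (map (algebraMap k M) F) =
      aeval (R.pv (Q : R.A →+* M)) F := by
  rw [eval_map, aeval_def]
  exact congrArg (fun z => eval₂ (algebraMap k M) z F) (funext fun n => R.eval_yq Q _)

theorem nr4c_van {τ : Type} [Fintype τ] {PF : DR X.F (Option τ)} (R : CR X PF) {t : k}
    {D : Derivation ℤ k k} (h : PF.Cmp t D) {M : Type} [Field M] [Algebra k M] (Q : R.A →ₐ[k] M)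
    (g : τ → M) (F : Fm X.N k) :
    dd1 (R.yq Q) (R.dir Q g) (aeval (fun n => map (algebraMap k M) (R.pp n))
      (map (algebraMap k M) F)) =
      grad (R.pv (Q : R.A →+* M)) F ⬝ᵥ fun j => R.P.grad (Q : R.A →+* M) g (R.g j) := by
  rw [dd1_aeval, dd1, dotProduct]
  refine Finset.sum_congr rfl fun n _ => ?_
  rw [pderiv_map, nr4c_pv, R.dd1_yq Q g h]
  rfl

theorem nr4c_lam {τ : Type} [Fintype τ] {M : Type} [Field M] [Algebra k M] {g : τ → k}
    (hg : g ≠ 0) : ∃ lam : τ → M, ∑ i, lam i * algebraMap k M (g i) = 1 := by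
  obtain ⟨i, hi⟩ := Function.ne_iff.1 hg
  refine ⟨Pi.single i (algebraMap k M (g i))⁻¹, ?_⟩
  rw [Finset.sum_eq_single i (fun j _ hj => by rw [Pi.single_eq_of_ne hj, zero_mul])
    (fun h => absurd (Finset.mem_univ i) h), Pi.single_eq_same]
  exact inv_mul_cancel₀ ((map_ne_zero _).2 hi)

/-- `sys_arc` over `L i`. One bound `b₁ i` for all the finitely many elements of `k₁` that occur
(`LFam.exists_bd`): coefficients, points, directions, the inverses of `jd`, `l`, `h` at the points.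
The solution `x'` has `h(x') ≠ 0` (`tay0`, `inv_add`), so it is a point of `A` (`pt`). -/
theorem LFam.arc {p : ℕ} {ι k₁ : Type} [Field k₁] [Algebra k k₁] [FiniteDimensional k k₁]
    [Algebra.IsSeparable k k₁] {B : Pls p k ι} {D₁ : Derivation ℤ k₁ k₁} {L G : ι → Type}
    [∀ i, Field (L i)] [∀ i, AddCommGroup (G i)] (𝓛 : LFam B D₁ L G)
    {PF : DR X.F (Option (Option σ))} (R : CR X PF) (hc : PF.Cmp B.t B.D) {s : ℕ}
    (Q : Fin s → R.A →ₐ[k] k₁) {g : Fin s → Option σ → k} (hg : ∀ j, g j ≠ 0) {K : ι → Type}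
    [∀ i, Field (K i)] [∀ i, Algebra k (K i)] (v : ∀ i, Vl (K i)) (φ : ∀ i, K i →+* L i)
    (ho : ∀ i, Over (φ i) (v i) (𝓛.Λ i).w) (hv : ∀ i, Nrm (𝓛.Λ i).w ∧ Cpl (𝓛.Λ i).w)
    (hφ : ∀ i a, 𝓛.e i (algebraMap k k₁ a) = φ i (algebraMap k (K i) a)) {f : σ → Fm X.N k}
    {l : Fm X.N k} {d₀ : ℕ} (hf : ∀ i, (R.jets Q g).Van d₀ (f i))
    (hI : ∀ j, IndK X ((R.jets Q g).Q j) f) (hl : ∀ j, aeval ((R.jets Q g).Q j) l ≠ 0) :
    ∃ (b₀ : ι → ℕ) (M : ℕ → ℕ), FinS b₀ ∧ ∀ (i : ι) (d : ℕ) (G' : σ → Fm X.N k),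
      (∀ j, (R.jets Q g).Van d (G' j)) →
      Close (v i) (algebraMap k (K i) (B.π i)) (fun j => map (algebraMap k (K i)) (f j))
        (map (algebraMap k (K i)) l) (b₀ i) M (fun j => map (algebraMap k (K i)) (G' j)) →
      𝓛.ArcP R Q g i (b₀ i) fun _ z =>
        ∀ j, eval₂ ((𝓛.e i).comp (algebraMap k k₁)) z (G' j) = 0 := by
  choose lam hlam using fun j => nr4c_lam (M := k₁) (hg j)
  have hl' : ∀ j : Fin s, aeval (R.pv (Q j : R.A →+* k₁)) l ≠ 0 := hl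
  have hV : ∀ {d F}, (R.jets Q g).Van d F → ∀ j : Fin s, aeval (R.pv (Q j : R.A →+* k₁)) F = 0 ∧
      grad (R.pv (Q j : R.A →+* k₁)) F ⬝ᵥ (fun n => R.P.grad (Q j : R.A →+* k₁)
        (fun l => algebraMap k k₁ (g j l)) (R.g n)) = 0 := fun h => h.2
  obtain ⟨y, hy⟩ : ∃ y : Fin s → Option (Option σ) → k₁, y = fun j => R.yq (Q j) := ⟨_, rfl⟩
  obtain ⟨u, hu⟩ : ∃ u : Fin s → Option (Option σ) → k₁,
    u = fun j => R.dir (Q j) fun l => algebraMap k k₁ (g j l) := ⟨_, rfl⟩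
  obtain ⟨pp, hpp⟩ : ∃ pp : Fin (X.N + 1) → MP (Option (Option σ)) k₁,
    pp = fun n => map (algebraMap k k₁) (R.pp n) := ⟨_, rfl⟩
  obtain ⟨Φ, hΦ⟩ : ∃ Φ : Fin s → Option (Option σ) → MP (Option (Option σ)) k₁,
    Φ = fun j => sys (map (algebraMap k k₁) R.χ) (lamq (lam j) (y j)) pp
      fun i => map (algebraMap k k₁) (f i) := ⟨_, rfl⟩
  have hjd : ∀ j, jd (Φ j) (y j) ≠ 0 := fun j => by
    rw [hΦ, hy, hpp]
    exact R.jd_ne hc (Q j) (hlam j) (hI j) fun i => (hV (hf i) j).2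
  have hev : ∀ j F, eval (fun n => eval (y j) (pp n)) (map (algebraMap k k₁) F) =
      aeval (R.pv (Q j : R.A →+* k₁)) F := fun j F => by
    rw [hy, hpp]
    exact nr4c_pv R (Q j) F
  have hdd : ∀ j F, dd1 (y j) (u j) (aeval pp (map (algebraMap k k₁) F)) =
      grad (R.pv (Q j : R.A →+* k₁)) F ⬝ᵥ (fun n => R.P.grad (Q j : R.A →+* k₁)
        (fun l => algebraMap k k₁ (g j l)) (R.g n)) := fun j F => by
    rw [hy, hu, hpp]
    exact nr4c_van R hc (Q j) _ F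
  have hh : ∀ j, eval (y j) (map (algebraMap k k₁) (up R.h)) ≠ 0 := fun j => by
    rw [hy, R.eval_yq]
    exact (R.hun.map (Q j)).ne_zero
  have hχ : ∀ j, dd1 (y j) (u j) (map (algebraMap k k₁) R.χ) = 0 := fun j => by
    rw [hy, hu, R.dd1_yq _ _ hc, R.root]
    simp only [DR.grad, map_zero, mul_zero, Finset.sum_const_zero]
  have h0 : ∀ j n, eval (y j) (Φ j n) = 0 := by
    rintro j (_ | _ | n)
    · rw [hΦ, hy]
      exact (R.eval_yq (Q j) R.χ).trans (by rw [R.root, map_zero])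
    · rw [hΦ]
      show eval (y j) (lamq (lam j) (y j)) = 0
      simp only [lamq, map_sum, map_mul, map_sub, eval_C, eval_X, sub_self, mul_zero,
        Finset.sum_const_zero]
    · rw [hΦ]
      exact (eval_aeval _ _ _).trans ((hev j _).trans (hV (hf n) j).1)
  obtain ⟨e₁, c₁, f₁, b₁⟩ := nr4c_pbd 𝓛 pp
  obtain ⟨e₂, c₂, f₂, b₂⟩ := nr4c_pbd 𝓛 fun q : Fin s × Option (Option σ) => Φ q.1 q.2
  obtain ⟨e₃, c₃, f₃, b₃⟩ := nr4c_pbd 𝓛 fun _ : Unit => map (algebraMap k k₁) (up R.h)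
  obtain ⟨e₄, c₄, f₄, b₄⟩ := nr4c_pbd 𝓛 fun q : Option σ => map (algebraMap k k₁) (q.elim l f)
  obtain ⟨c₅, f₅, b₅⟩ := 𝓛.exists_bd (S := ⋃ j, (Set.range (y j) ∪ Set.range (u j) ∪
    {(jd (Φ j) (y j))⁻¹, (aeval (R.pv (Q j : R.A →+* k₁)) l)⁻¹,
      (eval (y j) (map (algebraMap k k₁) (up R.h)))⁻¹})) (Set.toFinite _)
  obtain ⟨A, M, hA⟩ := sys_arc σ X.N (e₁ + e₂ + e₃ + e₄)
  refine ⟨fun i => (A + (e₁ + e₂ + e₃ + e₄) + 3) * (c₁ i + c₂ i + c₃ i + c₄ i + c₅ i), M,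
    ((((f₁.add f₂).add f₃).add f₄).add f₅).mul _, fun i d G' hG hC j r ε hr hε => ?_⟩
  obtain ⟨e, he⟩ : ∃ e, e = e₁ + e₂ + e₃ + e₄ := ⟨_, rfl⟩
  obtain ⟨b, hb⟩ : ∃ b, b = c₁ i + c₂ i + c₃ i + c₄ i + c₅ i := ⟨_, rfl⟩
  simp only [← he, ← hb] at hA hC hr ⊢
  have hϖ : (𝓛.Λ i).ϖ = φ i (algebraMap k (K i) (B.π i)) := (𝓛.ϖ i).trans (hφ i _)
  have vp := (𝓛.Λ i).vp
  have hψ : ∀ {I : Type} (F : MP I k), map (φ i) (map (algebraMap k (K i)) F) =
      map (𝓛.e i) (map (algebraMap k k₁) F) := fun F => by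
    rw [MvPolynomial.map_map, MvPolynomial.map_map]
    exact congrArg (fun ψ => map ψ F) (RingHom.ext fun a => (hφ i a).symm)
  have p₁ := fun t => vp.pmono (c' := b) (e' := e) (b₁ t i) (by omega) (by omega)
  have p₂ := fun n => vp.pmono (c' := b) (e' := e) (b₂ (j, n) i) (by omega) (by omega)
  have p₃ := vp.pmono (c' := b) (e' := e) (b₃ () i) (by omega) (by omega)
  have p₄ := fun t => vp.pmono (c' := b) (e' := e) (b₄ t i) (by omega) (by omega)
  have p₅ := fun a ha => vp.mono (s := b) (b₅ a (Set.mem_iUnion.2 ⟨j, ha⟩) i) (by omega)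
  have py := fun n => p₅ (y j n) (Or.inl (Or.inl ⟨n, rfl⟩))
  have pu := fun n => p₅ (u j n) (Or.inl (Or.inr ⟨n, rfl⟩))
  have pj := p₅ _ (Or.inr (Or.inl rfl))
  have pl := p₅ _ (Or.inr (Or.inr (Or.inl rfl)))
  have ph := p₅ _ (Or.inr (Or.inr (Or.inr rfl)))
  rw [map_inv₀] at pj pl ph
  have hs : (sys (map (𝓛.e i) (map (algebraMap k k₁) R.χ)) (map (𝓛.e i) (lamq (lam j) (y j)))
      (fun n => map (𝓛.e i) (pp n)) fun n => map (φ i) (map (algebraMap k (K i)) (f n))) =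
      fun n => map (𝓛.e i) (Φ j n) := funext fun n => by
    simp only [hψ, hΦ, map_sys]
  have he₂ : ∀ (F : Fm X.N k), eval₂ (φ i) (fun n => eval (fun n => 𝓛.e i (y j n))
      (map (𝓛.e i) (pp n))) (map (algebraMap k (K i)) F) =
      𝓛.e i (aeval (R.pv (Q j : R.A →+* k₁)) F) := fun F => by
    simp only [← eval_map, hψ, nr4c_ev, hev]
  have hvp : VP (v i) (algebraMap k (K i) (B.π i)) :=
    ⟨fun h => vp.ne (by rw [hϖ, h, map_zero]), ((ho i).lt_one _).1 (hϖ ▸ vp.lt)⟩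
  have hb0 : (0 : ℤ) ≤ (A * b : ℕ) := Int.natCast_nonneg _
  have hb1 : (0 : ℤ) ≤ (e : ℤ) * b := by positivity
  have hr' : ((A * b : ℕ) : ℤ) + e * b + 3 * b < r := by
    refine lt_of_eq_of_lt ?_ hr
    push_cast
    ring
  have hcb : (((A + e + 3) * b : ℕ) : ℤ) = (A * b : ℕ) + e * b + 3 * b := by
    push_cast
    ring
  obtain ⟨x', x0, x1, x2⟩ := hA (K i) (L i) (φ i) (v i) (𝓛.Λ i).w (algebraMap k (K i) (B.π i))
    (ho i) ⟨hϖ ▸ vp, (hv i).1, (hv i).2⟩ (map (𝓛.e i) (map (algebraMap k k₁) R.χ))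
    (map (𝓛.e i) (lamq (lam j) (y j))) (fun n => map (𝓛.e i) (pp n)) _ _ _ b
    (fun n => 𝓛.e i (y j n)) (fun n => 𝓛.e i (u j n))
    (hC.mono hvp (by rw [add_mul, add_mul]; omega) fun _ => le_rfl) (hϖ ▸ p₁)
    (fun n => nr4c_of_map (ho i) (by rw [hψ, ← hϖ]; exact p₄ (some n)))
    (nr4c_of_map (ho i) (by rw [hψ, ← hϖ]; exact p₄ none))
    (by
      rw [hs, ← hϖ]
      refine ⟨p₂, py, ?_, ?_⟩
      · rw [← map_jd]
        exact (map_ne_zero _).2 (hjd j)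
      · rw [← map_jd]
        exact pj)
    (fun n => by rw [hs]; exact (nr4c_ev _ _ _).trans (by rw [h0, map_zero])) (hϖ ▸ pu)
    (by rw [he₂]; exact (map_ne_zero _).2 (hl' j)) (by rw [he₂, ← hϖ]; exact pl)
    (by rw [← map_dd1, hχ, map_zero])
    (fun n => by rw [hψ, nr4c_ae, ← map_dd1, hdd, (hV (hf n) j).2, map_zero])
    (fun n => by rw [hψ, nr4c_ae, nr4c_ev, eval_aeval, hev, (hV (hG n) j).1, map_zero])
    (fun n => by rw [hψ, nr4c_ae, ← map_dd1, hdd, (hV (hG n) j).2, map_zero])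
    r ε (by omega) (hϖ ▸ hε)
  rw [← hϖ] at x2
  have x3 : ∀ n, Bd (𝓛.Λ i).w (𝓛.Λ i).ϖ (-(r - b)) (x' n - 𝓛.e i (y j n)) := fun n => by
    rw [← sub_add_cancel (x' n - _) (ε * 𝓛.e i (u j n))]
    exact (vp.mono (x2 n) (by omega)).add (vp.mul_le hε (pu n) (by omega))
  have x4 := vp.tay0 p₃ py (by omega) x3
  rw [nr4c_ev] at x4
  have x5 := (vp.inv_add ((map_ne_zero _).2 (hh j)) ph x4 (by omega)).1
  rw [add_sub_cancel, MvPolynomial.map_map, eval_map] at x5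
  rw [MvPolynomial.map_map, eval_map] at x0
  obtain ⟨x, z0, z1⟩ := R.pt (L i) _ x' x0 x5
  refine ⟨x, fun a => (z0 a).trans (congrArg (𝓛.e i) ((Q j).commutes a).symm), ?_, fun n => ?_⟩
  · rintro _ ⟨n, rfl⟩
    have e1 : R.P.grad ((𝓛.e i).comp (Q j)) (fun l => 𝓛.e i (algebraMap k k₁ (g j l))) (R.y n) =
        𝓛.e i (u j n) := by
      rw [hu]
      simp only [CR.dir, DR.grad, map_sum, map_mul, RingHom.comp_apply]
    rw [DR.Tay, e1, z1]
    have x6 := x2 n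
    rw [hy] at x6
    exact vp.mono x6 (by omega)
  · have e2 : R.pv x = fun m => eval x' (map (𝓛.e i) (pp m)) := funext fun m => by
      rw [hpp, MvPolynomial.map_map, eval_map, CR.pv, CR.g, aeval_def, hom_eval₂, funext z1]
      exact congrArg (fun ψ => eval₂ ψ x' (R.pp m)) (RingHom.ext z0)
    have x7 := x1 n
    rw [← eval_map, hψ, MvPolynomial.map_map, eval_map] at x7
    rw [e2]
    exact x7

end Pool.Agent.ZFN
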