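import Pool.Agent.Lib.MP_751085_ag.ZF.N.Defs
import Pool.Agent.Lib.MP_751085_ag.ZF.C.Defs
import Pool.Agent.Lib.MP_751085_ag.ZC.T.Defs

/-! The statement of the tame step. -/

namespace Pool.Agent.ZFN

open Pool.Agent.ZCy
open scoped Classical
open MvPolynomial Filter

/-- the point of the line `ξ' = 0` with parameter `t` -/
def ax (σ : Type) {S : Type} [Zero S] (t : S) : Option σ → S := fun i => i.elim t fun _ => 0

/-- `(t, z)` is a point of the reduced fibre curve over the field with `s` elements at which `D` and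
`l` do not vanish -/
structure RPt {O κ σ : Type} [CommRing O] [Field κ] {N : ℕ} {GG : Set (Fm N O)}
    (c : Chart O σ N GG) (l : Fm N O) (ρ : O →+* κ) (s : ℕ) (t z : κ) : Prop where
  ht : t ^ s = t
  hz : z ^ s = z
  on : ev ρ (ax σ t) z c.χ = 0
  off : eval₂ ρ (ax σ t) c.D ≠ 0
  nl : eval₂ ρ (c.pv ρ (ax σ t) z) l ≠ 0

/-- A function with poles on `l = 0` whose reduction has constant traces on the fibre curve is
`y ^ p - y + c` modulo `π`. -/
def TAME0 : Prop := ∀ (p : ℕ) [Fact p.Prime] (k ι : Type) [Field k] [CharP k p] (B : Pls p k ι)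
  (X : Var k) (n : ℕ), X.Nice n → Algebra.EssFiniteType ℤ k →
  ∀ (σ : Type) [Fintype σ], Fintype.card σ + 1 = n →
  ∀ (e : ℕ) (l : Fm X.N k), l.IsHomogeneous e → ∀ (I : Type) [Fintype I] (Gs : I → Fm X.N k),
  (∀ i, (Gs i).IsHomogeneous e) → ∃ (H Bf : Set X.F) (d₁ : ℕ), H.Finite ∧ Bf.Finite ∧
  ∀ (c : Chart k σ X.N (X.IK k)) (Φ : MP σ k), c.SM Φ → constantCoeff Φ ≠ 0 →
    constantCoeff c.Ψ ≠ 0 → (X.SmAll fun i => c.f (some (some i))) → d₁ ≤ c.d →
    (∃ x : Fin (X.N + 1) → AlgebraicClosure k, X.On x ∧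
      (∀ i, aeval x (c.f (some (some i))) = 0) ∧ aeval x l ≠ 0) →
    ∀ᶠ v in cofinite, ∀ (κ : Type) [Field κ] [IsAlgClosed κ] (s : ℕ)
      (ρ : (B.v v).integer →+* κ), FinB κ s → IsRed (B.v v) ρ →
      (∀ x, x ∈ ρ.range ↔ x ^ s = x) → ∀ (GG : Set (Fm X.N (B.v v).integer))
      (c' : Chart (B.v v).integer σ X.N GG) (l' : Fm X.N (B.v v).integer)
      (G' : I → Fm X.N (B.v v).integer), c'.IsMap (B.v v).integer.subtype c →
      map (B.v v).integer.subtype l' = l → (∀ i, map (B.v v).integer.subtype (G' i) = Gs i) →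
      ∀ a : I → (B.v v).integer, (∀ m, 0 < m → ∀ t z t' z' : κ, RPt c' l' ρ (s ^ m) t z →
        RPt c' l' ρ (s ^ m) t' z' → ∃ y : κ, y ^ s ^ m = y ∧
          eval₂ ρ (c'.pv ρ (ax σ t) z) (∑ i, C (a i) * G' i) / eval₂ ρ (c'.pv ρ (ax σ t) z) l' -
          eval₂ ρ (c'.pv ρ (ax σ t') z') (∑ i, C (a i) * G' i) /
            eval₂ ρ (c'.pv ρ (ax σ t') z') l' = y ^ p - y) →
      ∃ y ∈ B.lat v 0 H, ∃ c₀ : k, B.bd v 0 c₀ ∧
        ∑ i, (a i : k) • (aeval X.g (Gs i) / aeval X.g l) - (y ^ p - y + algebraMap k X.F c₀) ∈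
          B.lat v (-1) Bf

end Pool.Agent.ZFN
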