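import Pool.Agent.Lib.MP_751085_ag.ZF.N.GDefs
import Pool.Agent.Lib.MP_751085_ag.ZF.N.B3
import Pool.Agent.Lib.MP_751085_ag.ZF.N.TDefs

/-! Systems of equations over valued fields, arcs, the abstract situation. -/

namespace Pool.Agent.ZFN

open Pool.Agent.ZCy
open scoped Classical Topology
open MvPolynomial Filter

section sys

variable {L S I σ : Type} [Field L] [CommRing S] {N : ℕ}

/-- the Jacobian determinant -/
noncomputable def jd [Fintype I] (Φ : I → MP I S) (x : I → S) : S :=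
  (Matrix.of fun i j => eval x (pderiv j (Φ i))).det

/-- the derivative in the direction `u` -/
noncomputable def dd1 [Fintype I] (x u : I → S) (Ψ : MP I S) : S := ∑ j, eval x (pderiv j Ψ) * u j

/-- bounded degree and coefficients -/
def PBd (w : Vl L) (ϖ : L) (b : ℤ) (e : ℕ) (Ψ : MP I L) : Prop :=
  Ψ.totalDegree ≤ e ∧ ∀ m, Bd w ϖ b (coeff m Ψ)

/-- the system `Φ` is regular at `x` with bounds `b`, `e` -/
structure Rg [Fintype I] (w : Vl L) (ϖ : L) (b e : ℕ) (Φ : I → MP I L) (x : I → L) : Prop where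
  co : ∀ i, PBd w ϖ b e (Φ i)
  pt : ∀ i, Bd w ϖ b (x i)
  ne : jd Φ x ≠ 0
  inv : Bd w ϖ b (jd Φ x)⁻¹

/-- the constant in Newton's method -/
def kN (I : Type) [Fintype I] (e : ℕ) : ℕ := 4 * (Fintype.card I + 1) * (e + 1)

/-- a complete discretely valued field with an element of the maximal ideal -/
structure VC (w : Vl L) (ϖ : L) : Prop where
  vp : VP w ϖ
  nrm : Nrm w
  cpl : Cpl w

/-- the equations `χ`, `lam`, `G i (pp)` -/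
noncomputable def sys (χ lam : MP (Option (Option σ)) S)
    (pp : Fin (N + 1) → MP (Option (Option σ)) S) (G : σ → Fm N S) :
    Option (Option σ) → MP (Option (Option σ)) S :=
  fun i => i.elim χ fun j => j.elim lam fun l => aeval pp (G l)

/-- on the bounded points of `f = 0` where `l` is not small the forms `h` are not small -/
def HU (w : Vl L) (π : L) (f : σ → Fm N L) (l : Fm N L) (b₀ : ℕ) (h : σ → Fm N L) (b : ℕ) : Prop :=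
  ∀ (L' : Type) [Field L'] (φ : L →+* L') (w' : Vl L'), Over φ w w' → ∀ x : Fin (N + 1) → L',
    (∀ j, Bd w' (φ π) b₀ (x j)) → eval₂ φ x l ≠ 0 → Bd w' (φ π) b₀ (eval₂ φ x l)⁻¹ →
    (∀ i, eval₂ φ x (f i) = 0) → ∀ i, eval₂ φ x (h i) ≠ 0 ∧ Bd w' (φ π) b (eval₂ φ x (h i))⁻¹

/-- `G` is close to a multiple of `f` -/
def Close (w : Vl L) (π : L) (f : σ → Fm N L) (l : Fm N L) (b₀ : ℕ) (M : ℕ → ℕ) (G : σ → Fm N L) :
    Prop :=
  ∃ (h : σ → Fm N L) (b κ e : ℕ), HU w π f l b₀ h b ∧ (∀ i, PBd w π b e (h i)) ∧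
    (∀ i, PBd w π (-κ) e (G i - f i * h i)) ∧ M e * (b + b₀) < κ

end sys

section kl

variable {K G : Type} [Field K] [AddCommGroup G] {N : ℕ}

/-- the combinations of degree zero of the values at points with the property `P` vanish -/
def Kl (pt : IntermediateField K (Cb K) → (Fin (N + 1) → Cb K) → G)
    (P : (Fin (N + 1) → Cb K) → Prop) : Prop :=
  ∀ (I : Type) [Fintype I] (m : I → ℤ) (L : I → IntermediateField K (Cb K))
    (x : I → Fin (N + 1) → Cb K),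
    (∀ j, FiniteDimensional K (L j) ∧ (∀ i, x j i ∈ L j) ∧ P (x j)) →
    ∑ j, m j * (Module.finrank K (L j) : ℤ) = 0 → ∑ j, m j • pt (L j) (x j) = 0

/-- the absolute value is compatible with the valuation -/
structure NuC (w : Vl K) (π : K) (ν : AbsoluteValue (Cb K) ℝ) : Prop where
  lt : ν (algebraMap K (Cb K) π) < 1
  le : ∀ z : Cb K, ((algebraMap K (Cb K)).comp w.integer.subtype).IsIntegralElem z → ν z ≤ 1

end kl

variable {k : Type} [Field k]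

/-- the points of `X` on which the forms `G` vanish -/
def OnG (X : Var k) {σ : Type} (G : σ → Fm X.N k) {M : Type} [Field M] [Algebra k M]
    (x : Fin (X.N + 1) → M) : Prop := X.On x ∧ ∀ i, aeval x (G i) = 0

/-- the kernel of the Jacobian matrix of `X` and `f` at `x` has dimension at most two -/
def IndK (X : Var k) {σ M : Type} [Field M] [Algebra k M] (x : Fin (X.N + 1) → M)
    (f : σ → Fm X.N k) : Prop :=
  ∃ w₀ : Fin (X.N + 1) → M, ∀ w, (∀ G ∈ X.I, grad x G ⬝ᵥ w = 0) →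
    (∀ i, grad x (f i) ⬝ᵥ w = 0) → ∃ c c' : M, w = c • x + c' • w₀

/-- a point of `X` over the finite extension `L` -/
structure PtL (X : Var k) {K : Type} [Field K] [Algebra k K] (L : IntermediateField K (Cb K))
    (x : Fin (X.N + 1) → Cb K) : Prop where
  fd : FiniteDimensional K L
  mem : ∀ i, x i ∈ L
  on : X.On x

/-- The abstract situation: forms, places, local fields, classes and their values. -/
structure Sit (p : ℕ) (X : Var k) (σ ι : Type) [Fintype σ] (K : ι → Type) [∀ i, Field (K i)]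
    [∀ i, Algebra k (K i)] [∀ i, TopologicalSpace (K i)] (G₀ : Type) [AddCommGroup G₀]
    (G : ι → Type) [∀ i, AddCommGroup (G i)] (ν : ∀ i, AbsoluteValue (Cb (K i)) ℝ) where
  Φ : FD p k ι X.F (Option σ) G₀
  𝒦 : ∀ i, LK p (K i) (G i)
  Bw : AddSubgroup G₀
  Cst : AddSubgroup G₀
  pt : ∀ i, G₀ → IntermediateField (K i) (Cb (K i)) → (Fin (X.N + 1) → Cb (K i)) → G i
  chb : ChB p X Φ.B.t Φ.P
  pb : P1 p Φ.B.t
  hD : Φ.B.D = dT Φ.B.t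
  finR : ∀ i, FinR (Φ.B.v i)
  loc : ∀ i, (𝒦 i).At Φ.B i
  top : ∀ i (x : K i) (r : ℕ), {y | Bd (𝒦 i).w (𝒦 i).π (-r) (y - x)} ∈ 𝓝 x
  nu : ∀ i, NuC (𝒦 i).w (𝒦 i).π (ν i)
  uapi : ∀ i, UApi X σ (ν i)
  val : ∀ (R : CR X Φ.P.toDR) (i : ι) (L : IntermediateField (K i) (Cb (K i))) (Λ : LocF L (G i)),
    (𝒦 i).Ext Λ → ∀ (x : R.A →+* L) (z : Fin (X.N + 1) → L), X.On z → R.Ev x z →
    ∀ η, Φ.δ (up1 R.A.val η) ∈ Bw →
      pt i (Φ.δ (up1 R.A.val η)) L (fun j => z j) = Λ.κ (R.P.pb Λ.D x η)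
  add : ∀ i, ∀ a ∈ Bw, ∀ b ∈ Bw, ∀ L x, PtL X L x → pt i (a + b) L x = pt i a L x + pt i b L x
  cst_le : Cst ≤ Bw
  cst_pt : ∀ a ∈ Cst, ∀ i, ∃ b : G i, ∀ L x, PtL X L x → pt i a L x = Module.finrank (K i) L • b
  cst_δ : ∀ b : k, Φ.δ (b • bdt (Option σ) (1 : X.F)) ∈ Cst
  cst_div : ∀ a ∈ Cst, ∃ b ∈ Cst, p • b = a
  fin : ∃ S : Set (Option (Option σ) → X.F), S.Finite ∧
    ∀ a ∈ Bw, p • a = 0 → ∃ η ∈ Submodule.span k S, Φ.δ η = a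
  aa : ∀ a ∈ Bw, ∀ᶠ i in cofinite, ∀ L x, PtL X L x → pt i a L x = 0
  lc : ∀ a ∈ Bw, ∀ i L x, PtL X L x →
    ∃ ε > 0, ∀ x', Near (ν i) ε L x x' → X.On x' → pt i a L x' = pt i a L x

section sit

variable {p : ℕ} {X : Var k} {σ ι : Type} [Fintype σ] {K : ι → Type} [∀ i, Field (K i)]
  [∀ i, Algebra k (K i)] [∀ i, TopologicalSpace (K i)] {G₀ : Type} [AddCommGroup G₀]
  {G : ι → Type} [∀ i, AddCommGroup (G i)] {ν : ∀ i, AbsoluteValue (Cb (K i)) ℝ}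
  (𝒮 : Sit p X σ ι K G₀ G ν)

/-- `g` is close at the place `i` to a multiple of the forms of the chart `c` -/
def Sit.Cl (i : ι) (c : Chart k σ X.N (X.IK k)) (b₀ : ℕ) (M : ℕ → ℕ) (g : σ → Fm X.N k) : Prop :=
  Close (𝒮.𝒦 i).w (𝒮.𝒦 i).π (fun j => map (algebraMap k (K i)) (c.f (some (some j))))
    (map (algebraMap k (K i)) c.l0) b₀ M fun j => map (algebraMap k (K i)) (g j)

/-- `a` kills the cycles of degree zero on the section by `g` -/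
def Sit.KG (i : ι) (a : G₀) (g : σ → Fm X.N k) : Prop := Kl (𝒮.pt i a) (OnG X g)

/-- `a` kills the cycles of degree zero -/
def Sit.KX (i : ι) (a : G₀) : Prop := Kl (𝒮.pt i a) fun x => X.On x

/-- `AC i c g`: there are arcs on the section by `g`; `AK i c a`: there are arcs on which `a` is
constant; `Tk i a`: the tame step works. -/
structure Sit.Frame (J : Jets k X.N) (d₁ : ℕ) (AC : ι → ℕ → (σ → Fm X.N k) → Prop)
    (AK : ι → ℕ → G₀ → Prop) (Tk : ι → G₀ → Prop) : Prop where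
  jok : X.JOk J
  pos : 0 < J.s
  fin : ∀ c, FinS c → ∀ S : Set ι, S.Finite → ∃ Γ : Set G₀, Γ.Finite ∧ ∀ a ∈ 𝒮.Bw, p • a = 0 →
    (∀ i, AK i (c i) a) → (∀ i ∉ S, Tk i a) → ∃ γ ∈ Γ, a - γ ∈ 𝒮.Cst
  tame : ∀ c Φ, X.ZCh J c Φ → d₁ ≤ c.d → ∀ᶠ i in cofinite, ∃ M, ∀ g, 𝒮.Cl i c 0 M g →
    ∀ a ∈ 𝒮.Bw, 𝒮.KG i a g → Tk i a
  arc : ∀ c Φ, X.ZCh J c Φ → ∃ b₀ M, FinS b₀ ∧ ∀ i d g, (∀ j, J.Van d (g j)) →
    𝒮.Cl i c (b₀ i) M g → AC i (b₀ i) g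
  ak : ∀ i c d g, (∀ j, J.Van d (g j)) → AC i c g → ∀ a ∈ 𝒮.Bw, 𝒮.KG i a g → AK i c a
  lc : ∀ i c, ∀ a' ∈ 𝒮.Bw, ∃ c', ∀ c'', c' ≤ c'' → ∀ d g, (∀ j, J.Van d (g j)) → AC i c g →
    ∀ a ∈ 𝒮.Bw, 𝒮.KG i a g → AK i c'' (a - a')

/-- the forms that cut out the curve at the place `i` -/
def Sit.Crv (J : Jets k X.N) (Gd : Chart k σ X.N (X.IK k) → MP σ k → ι → Prop)
    (c₀ : Chart k σ X.N (X.IK k)) (S : Finset ι) (d : ℕ)
    (W : ∀ i, σ → Set ((Fin (X.N + 1) →₀ ℕ) → K i)) (i : ι) (g : σ → Fm X.N k) : Prop :=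
  (∀ j, J.Van d (g j)) ∧ (i ∈ S → ∀ j, cf (map (algebraMap k (K i)) (g j)) ∈ W i j) ∧
    (i ∉ S → ∃ cb Φb, X.ZCh J cb Φb ∧ c₀.d ≤ cb.d ∧ Gd cb Φb i ∧ ∃ e : ℕ, ∀ j m,
      𝒮.Φ.B.v i (coeff m (g j - cb.l0 ^ e * cb.f (some (some j)))) < 1)

/-- the abstract form of `P45` -/
def Sit.Out : Prop :=
  ∃ (J : Jets k X.N) (d₁ : ℕ) (Gd : Chart k σ X.N (X.IK k) → MP σ k → ι → Prop),
    X.JOk J ∧ 0 < J.s ∧ (∀ c Φ, X.ZCh J c Φ → ∀ᶠ i in cofinite, Gd c Φ i) ∧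
    ∀ c₀ Φ₀, X.ZCh J c₀ Φ₀ → d₁ ≤ c₀.d → ∃ S₀ : Finset ι, ∀ S, S₀ ⊆ S →
    ∀ T : ∀ i, PFam X (K i), ∃ d₃ : ℕ, ∀ d, d₃ ≤ d →
    ∃ (fv : ∀ i, σ → Fm X.N (K i)) (W : ∀ i, σ → Set ((Fin (X.N + 1) →₀ ℕ) → K i)),
      (∀ i ∈ S, ∀ j, J.VanK d (K i) (fv i j) ∧ W i j ∈ 𝓝 (cf (fv i j))) ∧
      ∀ g : ι → σ → Fm X.N k, (∀ i, 𝒮.Crv J Gd c₀ S d W i (g i)) →
        (∀ i ∈ S, (T i).Hit (ν i) (OnG X (g i))) ∧
        ∀ a ∈ 𝒮.Bw, Prim p a → (∀ i, 𝒮.KG i a (g i)) → ∀ i, 𝒮.KX i a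

end sit

/-- the arcs along the jets at the place `i` with the property `Pr` -/
def LFam.ArcP {p : ℕ} {ι k₁ : Type} [Field k₁] [Algebra k k₁] {B : Pls p k ι}
    {D₁ : Derivation ℤ k₁ k₁} {L G : ι → Type} [∀ i, Field (L i)] [∀ i, AddCommGroup (G i)]
    (𝓛 : LFam B D₁ L G) {X : Var k} {τ : Type} [Fintype τ] {PF : DR X.F (Option τ)} (R : CR X PF)
    {s : ℕ} (Q : Fin s → R.A →ₐ[k] k₁) (g : Fin s → τ → k) (i : ι) (c : ℕ)
    (Pr : Fin s → (Fin (X.N + 1) → L i) → Prop) : Prop :=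
  ∀ j, R.P.AV (𝓛.Λ i) k (Set.range R.y) ((𝓛.e i).comp (Q j))
    (fun l => 𝓛.e i (algebraMap k k₁ (g j l))) c fun x => Pr j (R.pv x)

end Pool.Agent.ZFN
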