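import Pool.Agent.Lib.MP_751085_ag.ZF.N.TBnd
import Pool.Agent.Lib.MP_751085_ag.ZC.T.Cf
import Pool.Agent.Lib.MP_751085_ag.ZC.K.LauB

/-! Constant traces force the Artin-Schreier cover to split. -/

namespace Pool.Agent.ZFN

open Pool.Agent.ZCy Polynomial
open Pool.Agent.ZeroCyc (mp e2 tE SemiL FixE twi)
open scoped Classical IntermediateField LaurentSeries

variable {κ M : Type} [Field κ] [Field M] [Algebra (RatFunc κ) M] [Algebra κ M]
  [IsScalarTower κ (RatFunc κ) M] {χ L G : κ[X][X]} {ϑ : κ[X]} {θ w : M} {p : ℕ} [Fact p.Prime]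

theorem as1_bez (hm : χ.Monic) (hi : Irreducible χ) (h : ¬χ ∣ L) :
    ∃ (u : κ[X]) (α β : κ[X][X]), u ≠ 0 ∧ C u = α * χ + β * L := kl_bez hm hi h

/-- `j θ` and `j w` are power series -/
theorem as1_pt (hm : χ.Monic) (h0 : e2 (algebraMap κ M) (tE κ M) θ χ = 0) {u : κ[X]}
    {α β : κ[X][X]} (hu : C u = α * χ + β * L)
    (h : e2 (algebraMap κ M) (tE κ M) θ L * (w ^ p - w) = e2 (algebraMap κ M) (tE κ M) θ G) {t : κ}
    {j : M →ₐ[κ] κ⸨X⸩} (hj : j ∈ ZeroCyc.Emb M t) (ht : u.eval t ≠ 0) :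
    e2 (RingHom.id κ) t ((j θ).coeff 0) χ = 0 ∧ e2 (RingHom.id κ) t ((j θ).coeff 0) L ≠ 0 ∧
      (j w).coeff 0 ^ p - (j w).coeff 0 =
        e2 (RingHom.id κ) t ((j θ).coeff 0) G / e2 (RingHom.id κ) t ((j θ).coeff 0) L := by
  have hi := IsFractionRing.injective (PowerSeries κ) κ⸨X⸩
  have hc : ∀ f : PowerSeries κ, (algebraMap _ κ⸨X⸩ f).coeff 0 = PowerSeries.constantCoeff f :=
    fun f => (HahnSeries.ofPowerSeries_apply_coeff f 0).trans
      (PowerSeries.coeff_zero_eq_constantCoeff_apply f)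
  have e1 : (j : M →+* κ⸨X⸩).comp (algebraMap κ M) = (algebraMap _ κ⸨X⸩).comp PowerSeries.C :=
    RingHom.ext fun c => (j.commutes c).trans (by simp [HahnSeries.algebraMap_apply'])
  have e2' : j (tE κ M) = algebraMap _ κ⸨X⸩ (PowerSeries.C t + PowerSeries.X) :=
    (show _ = ZeroCyc.lin t from hj).trans (by simp [ZeroCyc.lin])
  have e3 : ∀ a, j (e2 (algebraMap κ M) (tE κ M) θ a) = e2 ((algebraMap _ κ⸨X⸩).comp PowerSeries.C)
      (algebraMap _ _ (PowerSeries.C t + PowerSeries.X)) (j θ) a := fun a => by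
    rw [← e1, ← e2']
    exact ZeroCyc.map_e2 (j : M →+* κ⸨X⸩) _ _ _ a
  obtain ⟨η, hη⟩ : ∃ η, algebraMap (PowerSeries κ) κ⸨X⸩ η = j θ :=
    IsIntegrallyClosed.isIntegral_iff.1 ⟨χ.map (ZeroCyc.sh t), hm.map _, by
      have e := e3 χ
      rw [h0, map_zero, e2, coe_eval₂RingHom] at e
      rw [eval₂_map, e]
      congr 1
      exact Polynomial.ringHom_ext (fun a => by simp [ZeroCyc.sh]) (by simp [ZeroCyc.sh])⟩
  let E := e2 PowerSeries.C (PowerSeries.C t + PowerSeries.X) η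
  have e4 : ∀ a, j (e2 (algebraMap κ M) (tE κ M) θ a) = algebraMap _ _ (E a) := fun a => by
    rw [e3, ← hη, ← ZeroCyc.map_e2]
  have e5 : ∀ a, e2 (RingHom.id κ) t ((j θ).coeff 0) a = PowerSeries.constantCoeff (E a) :=
    fun a => by
      rw [ZeroCyc.map_e2, ← hη, hc, PowerSeries.constantCoeff_comp_C]
      simp
  have h1 : e2 (RingHom.id κ) t ((j θ).coeff 0) χ = 0 := by
    rw [e5, hi (a₁ := E χ) (a₂ := 0) (by rw [← e4, h0, map_zero, map_zero]), map_zero]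
  have h2 : e2 (RingHom.id κ) t ((j θ).coeff 0) L ≠ 0 := fun e => ht (by
    have := congrArg (e2 (RingHom.id κ) t ((j θ).coeff 0)) hu
    rwa [map_add, map_mul, map_mul, h1, e, mul_zero, mul_zero, add_zero, ZeroCyc.e2_C] at this)
  obtain ⟨v, hv⟩ := (ZeroCyc.cvh_unit.2 (e5 L ▸ h2)).exists_left_inv
  have h3 := congrArg j h
  rw [map_mul, e4, e4, map_sub, map_pow] at h3
  obtain ⟨ω, hω⟩ : ∃ ω, algebraMap (PowerSeries κ) κ⸨X⸩ ω = j w :=
    IsIntegrallyClosed.isIntegral_iff.1 ⟨X ^ p - (X + C (v * E G)), monic_X_pow_sub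
      ((degree_X_add_C _).trans_lt (Nat.one_lt_cast.2 (Fact.out : p.Prime).one_lt)), by
      rw [eval₂_sub, eval₂_add, eval₂_X_pow, eval₂_X, eval₂_C, map_mul, ← h3, ← mul_assoc,
        ← map_mul, hv, map_one]
      ring⟩
  rw [← hω, ← map_pow, ← map_sub, ← map_mul] at h3
  refine ⟨h1, h2, eq_div_of_mul_eq h2 ?_⟩
  rw [e5, e5, ← hi h3, ← hω, hc, map_mul, map_sub, map_pow, mul_comm]

theorem tas1_int {F : Type} [Field F] [CharP F p] {x : F} (h : x ^ p = x) : ∃ n : ℤ, n = x :=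
  (mem_bot_iff_intCast p F).1 ((Subfield.mem_bot_iff_pow_eq_self F p).2 h)

theorem tas1_pow {Φ : M ≃+* M} {x : M} (h : Φ x = x) (k : ℕ) : (Φ ^ k) x = x := by
  induction k with
  | zero => rfl
  | succ k ih => rw [pow_succ, RingAut.mul_apply, h, ih]

theorem tas1_ne {u : κ[X]} (hu : u ≠ 0) : u.eval₂ (algebraMap κ M) (tE κ M) ≠ 0 := by
  rw [← aeval_def, tE, aeval_algebraMap_apply, RatFunc.aeval_X_left_eq_algebraMap,
    _root_.map_ne_zero]
  exact RatFunc.algebraMap_ne_zero hu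

/-- If `σ` fixes `θ` then `σ w = w + i`, `i ^ p = i`, so `i` is a natural number. `cheb_pt` for
`u * ϑ` gives points fixed by `Φ ^ (2 n)` and by `twi (Φ ^ (2 n)) σ`; with `Q = s ^ (2 n)` the values
satisfy `ω₀ ^ Q = ω₀`, `ω₁ ^ Q = ω₁ + i`, and `ω₁ - ω₀ - y` is fixed by the `p`-th power. So `i = 0`.
Galois theory (`IsGalois.mem_bot_iff_fixed`, `IntermediateField.fixedField_fixingSubgroup`). -/
theorem as1_mem [IsAlgClosed κ] [CharP κ p] {s : ℕ} (hs : FinB κ s)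
    [FiniteDimensional (RatFunc κ) M] [IsGalois (RatFunc κ) M] (hm : χ.Monic) (hi : Irreducible χ)
    (hL : ¬χ ∣ L) (hϑ : ϑ ≠ 0) (h0 : e2 (algebraMap κ M) (tE κ M) θ χ = 0) {c : κ}
    (h : e2 (algebraMap κ M) (tE κ M) θ L * (w ^ p - w) =
      e2 (algebraMap κ M) (tE κ M) θ (G - C (C c) * L)) {Φ : M ≃+* M} (hΦ : SemiL κ Φ s)
    (h1 : Φ θ = θ) (h2 : Φ w = w) (H : CTr p χ L G ϑ s) : w ∈ (RatFunc κ)⟮θ⟯ := by
  have : CharP M p := charP_of_injective_algebraMap (algebraMap κ M).injective p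
  obtain ⟨u, α, β, hu, hb⟩ := as1_bez hm hi hL
  have hl : e2 (algebraMap κ M) (tE κ M) θ L ≠ 0 := fun e => tas1_ne (M := M) hu (by
    rw [← ZeroCyc.e2_C _ _ θ, hb, map_add, map_mul, map_mul, h0, e, mul_zero, mul_zero, add_zero])
  rw [← IsGalois.fixedField_fixingSubgroup (RatFunc κ)⟮θ⟯, IntermediateField.mem_fixedField_iff]
  intro σ hσ
  have hθ : σ θ = θ := (IntermediateField.mem_fixingSubgroup_iff _ σ).1 hσ θ
    (IntermediateField.mem_adjoin_simple_self _ θ)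
  have he : ∀ P, σ (e2 (algebraMap κ M) (tE κ M) θ P) = e2 (algebraMap κ M) (tE κ M) θ P := by
    intro P
    have e := ZeroCyc.map_e2 (σ : M →+* M) (algebraMap κ M) (tE κ M) θ P
    rw [show (σ : M →+* M).comp (algebraMap κ M) = algebraMap κ M from
      RingHom.ext (σ.restrictScalars κ).commutes] at e
    exact e.trans (congrArg₂ (fun a b => e2 (algebraMap κ M) a b P) (σ.commutes _) hθ)
  obtain ⟨i, hi'⟩ : ∃ i : ℤ, i = σ w - w := by
    have e := congrArg σ h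
    rw [map_mul, he, he, ← h, map_sub, map_pow] at e
    refine tas1_int (p := p) ?_
    rw [sub_pow_char]
    linear_combination mul_left_cancel₀ hl e
  obtain ⟨n, hn, hC⟩ := cheb_pt hs M (mul_ne_zero hu hϑ)
  obtain ⟨φ, hφ⟩ := hs.frob (2 * n)
  obtain ⟨t₀, j₀, a1, a2, a3⟩ := hC _ (hΦ.pow (2 * n))
  obtain ⟨t₁, j₁, b1, b2, b3⟩ := hC _ ((hΦ.pow (2 * n)).tw σ)
  rw [eval_mul, mul_ne_zero_iff] at a3 b3
  obtain ⟨a4, a5, a6⟩ := as1_pt hm h0 hb h a1 a3.1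
  obtain ⟨b4, b5, b6⟩ := as1_pt hm h0 hb h b1 b3.1
  have a7 := a2 w 0
  have b7 := b2 w 0
  have a8 := a2 θ 0
  have b8 := b2 θ 0
  rw [tas1_pow h2] at a7
  rw [tas1_pow h1] at a8
  rw [show twi (Φ ^ (2 * n)) σ θ = θ from (congrArg (Φ ^ (2 * n)) hθ).trans (tas1_pow h1 _)] at b8
  have e1 : twi (Φ ^ (2 * n)) σ w = w + algebraMap κ M i := by
    change (Φ ^ (2 * n)) (σ w) = _
    rw [← sub_add_cancel (σ w) w, ← hi', map_add, map_intCast, map_intCast, tas1_pow h2, add_comm]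
  have e2' : ∀ a : κ, (j₁ (algebraMap κ M a)).coeff 0 = a := fun a => by
    rw [j₁.commutes]
    simp [HahnSeries.algebraMap_apply']
  rw [e1, map_add, HahnSeries.coeff_add, e2'] at b7
  obtain ⟨y, hy, e3⟩ := H (2 * n) (by omega) _ _ _ _
    ⟨ZeroCyc.FixE.base ((hΦ.pow (2 * n)).tw σ) b1 b2, b8.symm, b4, b3.2, b5⟩
    ⟨ZeroCyc.FixE.base (hΦ.pow (2 * n)) a1 a2, a8.symm, a4, a3.2, a5⟩
  rw [map_sub, map_mul, ZeroCyc.e2_C, eval₂_C, sub_div, mul_div_cancel_right₀ _ a5] at a6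
  rw [map_sub, map_mul, ZeroCyc.e2_C, eval₂_C, sub_div, mul_div_cancel_right₀ _ b5] at b6
  obtain ⟨m, hm'⟩ : ∃ m : ℤ, m = (j₁ w).coeff 0 - (j₀ w).coeff 0 - y := by
    refine tas1_int (p := p) ?_
    rw [sub_pow_char, sub_pow_char]
    linear_combination b6 - a6 + e3
  have e4 := congrArg φ hm'
  rw [map_intCast, map_sub, map_sub, hφ, hφ, hφ, ← a7, ← b7, hy, hm'] at e4
  have e5 : (i : κ) = 0 := by linear_combination -e4
  rw [← sub_eq_zero, ← hi', ← map_intCast (algebraMap κ M), e5, map_zero]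

end Pool.Agent.ZFN
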