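import Pool.Agent.Lib.MP_751085_ag.ZF.N.TAs1

/-! A function with constant traces is `w ^ p - w + c`. -/

namespace Pool.Agent.ZFN

open Pool.Agent.ZCy Polynomial
open Pool.Agent.ZeroCyc (mp e2 tE SemiL)
open scoped Classical IntermediateField

variable {κ : Type} [Field κ] {p : ℕ} [Fact p.Prime] [CharP κ p]

theorem tasc_map {M M' : Type} [Field M] [Field M'] [Algebra (RatFunc κ) M] [Algebra κ M]
    [IsScalarTower κ (RatFunc κ) M] [Algebra (RatFunc κ) M'] [Algebra κ M']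
    [IsScalarTower κ (RatFunc κ) M'] (j : M →ₐ[RatFunc κ] M') (θ : M) (P : κ[X][X]) :
    e2 (algebraMap κ M') (tE κ M') (j θ) P = j (e2 (algebraMap κ M) (tE κ M) θ P) := by
  rw [e2_tE, e2_tE, aeval_algHom_apply]

theorem tasc_root {K : Type} [Field K] [IsSepClosed K] {n : ℕ} (h : (n : K) = 0) (h1 : 1 < n)
    (a : K) : ∃ z, z ^ n - z = a :=
  (IsSepClosed.exists_root_C_mul_X_pow_add_C_mul_X_add_C 1 (-1) (-a) h h1 (by simp)).imp
    fun z e => by linear_combination e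

/-- a finite Galois extension inside the separable closure -/
theorem asc_field {χ L G : κ[X][X]} {ϑ : κ[X]} (hm : χ.Monic) (hi : Irreducible χ) (hb : Bez χ ϑ)
    (hϑ : ϑ ≠ 0) (hL : ¬χ ∣ L) : ∃ (M : Type) (_ : Field M) (_ : Algebra (RatFunc κ) M)
      (_ : Algebra κ M) (_ : IsScalarTower κ (RatFunc κ) M) (_ : FiniteDimensional (RatFunc κ) M)
      (_ : IsGalois (RatFunc κ) M) (θ w : M), e2 (algebraMap κ M) (tE κ M) θ χ = 0 ∧
        e2 (algebraMap κ M) (tE κ M) θ L * (w ^ p - w) = e2 (algebraMap κ M) (tE κ M) θ G := by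
  obtain ⟨N, α, β, e⟩ := hb.map (algebraMap κ[X] (RatFunc κ))
  have h1 : algebraMap κ[X] (RatFunc κ) ϑ ^ N ≠ 0 :=
    pow_ne_zero _ (RatFunc.algebraMap_ne_zero hϑ)
  obtain ⟨θ, h0⟩ := IsSepClosed.exists_aeval_eq_zero (SeparableClosure (RatFunc κ))
    (χ.map (algebraMap κ[X] (RatFunc κ)))
    (by rw [hm.degree_map]; exact fun h => hi.ne_one (hm.degree_le_zero_iff_eq_one.1 h.le))
    (by
      have e' := congrArg (C (algebraMap κ[X] (RatFunc κ) ϑ ^ N)⁻¹ * ·) e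
      simp only [← C_mul, inv_mul_cancel₀ h1, C_1, mul_add, ← mul_assoc] at e'
      exact ⟨_, _, e'.symm⟩)
  rw [← e2_tE] at h0
  have := charP_of_injective_algebraMap (algebraMap κ (SeparableClosure (RatFunc κ))).injective p
  obtain ⟨w, hw⟩ := tasc_root (CharP.cast_eq_zero _ p) (Fact.out : p.Prime).one_lt
    (e2 (algebraMap κ _) (tE κ _) θ G / e2 (algebraMap κ _) (tE κ _) θ L)
  have hs := FiniteGaloisIntermediateField.subset_adjoin (RatFunc κ) {θ, w}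
  generalize FiniteGaloisIntermediateField.adjoin (RatFunc κ) {θ, w} = M at hs
  refine ⟨M, _, _, inferInstance, inferInstance, inferInstance, inferInstance, ⟨θ, hs (by simp)⟩,
    ⟨w, hs (by simp)⟩, M.val.injective ?_, M.val.injective ?_⟩
  · exact (tasc_map _ _ _).symm.trans h0
  · change M.val _ = M.val _
    rw [map_mul, map_sub, map_pow, ← tasc_map, ← tasc_map]
    exact (congrArg _ hw).trans (mul_div_cancel₀ _ (mt (bnd_dvd hm hi h0).1 hL))

theorem asc_semi {M : Type} [Field M] [Algebra (RatFunc κ) M] [Algebra κ M] {Φ : M ≃+* M} {s : ℕ}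
    (hΦ : SemiL κ Φ s) {φ : κ →+* κ} (hφ : ∀ x, φ x = x ^ s) {θ : M} (h : Φ θ = θ) (P : κ[X][X]) :
    Φ (e2 (algebraMap κ M) (tE κ M) θ P) = e2 (algebraMap κ M) (tE κ M) θ (mp φ P) := by
  refine (map_e2 (Φ : M →+* M) _ _ _ P).trans ?_
  rw [e2_mp, RingHom.coe_coe, hΦ.t, h]
  exact congrArg (e2 · _ _ P) (RingHom.ext fun a => (hΦ.c a).trans (congrArg _ (hφ a).symm))

/-- translate `w` by a constant so that it is fixed by Frobenius -/
theorem asc_main [IsAlgClosed κ] {s : ℕ} (hs : FinB κ s) {O : Type} [CommRing O] {ρ : O →+* κ}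
    (hρ : ∀ a, ρ a ^ s = ρ a) {χ L G : O[X][X]} {ϑ : O[X]} {δ D : ℕ} (hχ : Wq δ χ) (hb : Bez χ ϑ)
    (hi : Irreducible (mp ρ χ)) (hϑ : ϑ.map ρ ≠ 0) (hn : ¬mp ρ χ ∣ mp ρ L) (hL : Dg D L)
    (hG : Dg D G) (H : CTr p (mp ρ χ) (mp ρ L) (mp ρ G) (ϑ.map ρ) s) :
    ∃ (y : Fin (2 * D + δ + 1) × Fin (2 * D + δ + 1) → κ) (c : κ), (∀ q, y q ^ s = y q) ∧
      c ^ s = c ∧ mp ρ χ ∣ EQ p (mp ρ χ) (mp ρ L) (mp ρ G) (PY y) c := by
  have hp := (Fact.out : p.Prime).one_lt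
  have hq := hχ.map ρ
  have hb' : Bez (mp ρ χ) (ϑ.map ρ) := hb.map (mapRingHom ρ)
  obtain ⟨M₀, _, _, _, _, _, _, θ₀, w₀, e0, ew⟩ := asc_field (p := p) (G := mp ρ G) hq.monic hi hb'
    hϑ hn
  obtain ⟨M, _, _, _, _, _, _, j, Φ, hΦ, hθ⟩ := exists_semi hs hρ hχ.monic hb hi M₀ (θ := θ₀) (by
    rwa [e2_mp, IsScalarTower.algebraMap_eq κ (RatFunc κ) M₀, RatFunc.algebraMap_eq_C] at e0)
  have h0 := (tasc_map j θ₀ _).trans ((congrArg j e0).trans (map_zero j))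
  have hw := congrArg j ew
  rw [map_mul, map_sub, map_pow, ← tasc_map, ← tasc_map] at hw
  generalize j θ₀ = θ, j w₀ = w at h0 hw hθ
  obtain ⟨φ, hφ⟩ := hs.frob 1
  rw [pow_one] at hφ
  have hS := asc_semi hΦ (φ := φ) hφ hθ
  have hF : ∀ P, Φ (e2 (algebraMap κ M) (tE κ M) θ (mp ρ P)) =
      e2 (algebraMap κ M) (tE κ M) θ (mp ρ P) := fun P => by
    rw [hS, mp_mp, show (φ : κ →+* κ).comp ρ = ρ from RingHom.ext fun a => (hφ _).trans (hρ a)]
  have := charP_of_injective_algebraMap (algebraMap κ M).injective p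
  have h1 : (Φ w - w) ^ p = Φ w - w := by
    have e := congrArg Φ hw
    rw [map_mul, hF, hF, ← hw, map_sub, map_pow,
      mul_right_inj' (mt (bnd_dvd hq.monic hi h0).1 hn)] at e
    rw [sub_pow_char]
    linear_combination e
  obtain ⟨a, ha⟩ := root_mem_range (algebraMap κ M) (FiniteField.X_pow_card_sub_X_ne_zero κ hp)
    (IsAlgClosed.splits _) (z := Φ w - w) (by simp [eval₂_sub, h1])
  rw [← ha, ← map_pow, (algebraMap κ M).injective.eq_iff] at h1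
  obtain ⟨b, hb⟩ := tasc_root (K := κ) (n := s) (by
    obtain ⟨q, r, -, _, hr, rfl⟩ := hs.ex
    simp [hr.ne']) hs.one_lt a
  have h2 : Φ (w - algebraMap κ M b) = w - algebraMap κ M b := by
    rw [map_sub, hΦ.c, eq_add_of_sub_eq hb, map_add, ha]
    ring
  have h3 : e2 (algebraMap κ M) (tE κ M) θ (mp ρ L) *
      ((w - algebraMap κ M b) ^ p - (w - algebraMap κ M b)) =
      e2 (algebraMap κ M) (tE κ M) θ (mp ρ G - C (C (b ^ p - b)) * mp ρ L) := by
    rw [map_sub, map_mul, ZeroCyc.e2_C, eval₂_C, map_sub, map_pow, sub_pow_char, ← hw]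
    ring
  have h4 := (hb'.unit (eval₂RingHom (algebraMap κ M) (tE κ M)) h0 (Ne.isUnit (by
    have e := e2_tE θ (C (ϑ.map ρ))
    rw [ZeroCyc.e2_C, Polynomial.map_C, aeval_C] at e
    exact e.trans_ne ((_root_.map_ne_zero _).2 (RatFunc.algebraMap_ne_zero hϑ))))).ne_zero
  obtain ⟨Y, hd, hY, e⟩ := bnd_main hq hi h0 h4 (hL.map ρ) (G := mp ρ G - C (C _) * mp ρ L)
    ⟨(natDegree_sub_le _ _).trans (max_le (hG.map ρ).1
      ((natDegree_C_mul_le _ _).trans (hL.map ρ).1)), fun i => by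
        rw [coeff_sub, coeff_C_mul]
        exact (natDegree_sub_le _ _).trans (max_le ((hG.map ρ).2 i)
          ((natDegree_C_mul_le _ _).trans ((hL.map ρ).2 i)))⟩
    (as1_mem hs hq.monic hi hn hϑ h0 h3 hΦ hθ h2 H) h3
  have h5 : mp (φ : κ →+* κ) Y - Y = 0 := eq_zero_of_dvd_of_natDegree_lt
    ((bnd_dvd hq.monic hi h0).1 (by
      rw [map_sub, ← hS, e, map_mul, map_mul, h2, hF, ← ZeroCyc.mp_derivative, hF, sub_self]))
    ((natDegree_sub_le _ _).trans_lt (hq.deg.symm ▸ max_lt (natDegree_map_le.trans_lt hd) hd))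
  refine ⟨fun q => (Y.coeff q.1).coeff q.2, b ^ p - b, fun q => ?_, ?_,
    (bnd_dvd hq.monic hi h0).1 ?_⟩
  · simpa [hφ] using congrArg (fun P : κ[X][X] => (P.coeff q.1).coeff q.2) (sub_eq_zero.1 h5)
  · rw [← hφ, map_sub, map_pow, hφ, eq_add_of_sub_eq hb, add_pow_char, h1]
    ring
  · rw [map_sub, map_mul, ZeroCyc.e2_C, eval₂_C] at h3
    rw [← exists_PY hY, e2_EQ, e, ← h3]
    obtain ⟨q, rfl⟩ := Nat.exists_eq_add_of_lt (zero_lt_one.trans hp)
    rw [Nat.add_sub_cancel]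
    generalize w - _ = z
    ring

end Pool.Agent.ZFN
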