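import Pool.Agent.Lib.MP_751085_ag.ZF.N.TSys

/-! Degree bounds for solutions of Artin-Schreier equations on a plane curve. -/

namespace Pool.Agent.ZFN

open Pool.Agent.ZCy Polynomial
open Pool.Agent.ZeroCyc (mp e2 tE)
open scoped Classical IntermediateField

variable {κ M : Type} [Field κ] [Field M] [Algebra (RatFunc κ) M] [Algebra κ M]
  [IsScalarTower κ (RatFunc κ) M] {χ : κ[X][X]} {θ : M}

theorem e2_tE (θ : M) (P : κ[X][X]) : e2 (algebraMap κ M) (tE κ M) θ P =
    aeval θ (P.map (algebraMap κ[X] (RatFunc κ))) := by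
  have e : eval₂RingHom (algebraMap κ M) (tE κ M) =
      (algebraMap (RatFunc κ) M).comp (algebraMap κ[X] (RatFunc κ)) := by
    refine Polynomial.ringHom_ext (fun a => ?_) ?_
    · rw [coe_eval₂RingHom, eval₂_C, RingHom.comp_apply, RatFunc.algebraMap_C,
        IsScalarTower.algebraMap_apply κ (RatFunc κ) M, RatFunc.algebraMap_eq_C]
    · rw [coe_eval₂RingHom, eval₂_X, RingHom.comp_apply, RatFunc.algebraMap_X, tE]
  rw [e2, e, coe_eval₂RingHom, aeval_def, eval₂_map]

/-- Gauss (`Monic.irreducible_iff_irreducible_map_fraction_map`) -/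
theorem bnd_minpoly (hm : χ.Monic) (hi : Irreducible χ)
    (h0 : e2 (algebraMap κ M) (tE κ M) θ χ = 0) :
    minpoly (RatFunc κ) θ = χ.map (algebraMap κ[X] (RatFunc κ)) :=
  (minpoly.eq_of_irreducible_of_monic (hm.irreducible_iff_irreducible_map_fraction_map.1 hi)
    ((e2_tE θ χ).symm.trans h0) (hm.map _)).symm

/-- divide by `χ` with remainder -/
theorem bnd_dvd (hm : χ.Monic) (hi : Irreducible χ) (h0 : e2 (algebraMap κ M) (tE κ M) θ χ = 0)
    {P : κ[X][X]} : e2 (algebraMap κ M) (tE κ M) θ P = 0 ↔ χ ∣ P := by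
  rw [e2_tE, ← minpoly.dvd_iff, bnd_minpoly hm hi h0,
    map_dvd_map _ (IsFractionRing.injective _ _) hm]

theorem tbnd_pb {F E : Type} [Field F] [Field E] [Algebra F E] [FiniteDimensional F E]
    [Algebra.IsSeparable F E] (pb : PowerBasis F E) (z : E) :
    aeval pb.gen (∑ i : Fin pb.dim,
      monomial i (Algebra.trace F E (z * (minpolyDiv F pb.gen).coeff i))) =
      aeval pb.gen (derivative (minpoly F pb.gen)) * z := by
  have h0 : aeval pb.gen (derivative (minpoly F pb.gen)) ≠ 0 :=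
    (Algebra.IsSeparable.isSeparable F pb.gen).aeval_derivative_ne_zero (minpoly.aeval F _)
  rw [map_sum, ← pb.basis.sum_repr (_ * z)]
  refine Finset.sum_congr rfl fun i _ => ?_
  have e := pb.basis.traceDual.traceDual_repr_apply
    (aeval pb.gen (derivative (minpoly F pb.gen)) * z) i
  rw [Module.Basis.traceDual_traceDual, Module.Basis.traceDual_powerBasis_eq,
    Algebra.traceForm_apply, mul_right_comm, mul_div_cancel₀ _ h0] at e
  rw [aeval_monomial, e, pb.basis_eq_pow, Algebra.smul_def, mul_comm z]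

/-- `minpoly χ' (θ) * z = ∑ Tr (z * c j) θ ^ j`, `c j` the coefficients of `minpolyDiv`
(`traceForm_dualBasis_powerBasis_eq`). Work in the field `F⟮θ⟯`. -/
theorem bnd_euler {F : Type} [Field F] [Algebra F M] (hθ : IsSeparable F θ) {z : M}
    (hz : z ∈ F⟮θ⟯) : ∃ Y : F[X], Y.natDegree < (minpoly F θ).natDegree ∧
      aeval θ Y = aeval θ (derivative (minpoly F θ)) * z ∧ ∀ (A : Subring F) (s : F) (j : ℕ),
        IsIntegral A (s • (z * (minpolyDiv F θ).coeff j)) → IsIntegral A (s * Y.coeff j) := by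
  have hi := hθ.isIntegral
  have := IntermediateField.adjoin.finiteDimensional hi
  have := (IntermediateField.isSeparable_adjoin_simple_iff_isSeparable F M).2 hθ
  obtain ⟨z, rfl⟩ : ∃ y : F⟮θ⟯, algebraMap F⟮θ⟯ M y = z := ⟨⟨z, hz⟩, rfl⟩
  set pb := IntermediateField.adjoin.powerBasis hi
  have hg : algebraMap F⟮θ⟯ M pb.gen = θ := rfl
  have hm : minpoly F pb.gen = minpoly F θ := IntermediateField.minpoly_gen F θ
  have hd : minpolyDiv F θ = (minpolyDiv F pb.gen).map (algebraMap F⟮θ⟯ M) := by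
    rw [minpolyDiv, minpolyDiv, map_divByMonic _ (monic_X_sub_C _), hm, Polynomial.map_map,
      Polynomial.map_sub, map_X, map_C, hg, ← IsScalarTower.algebraMap_eq]
  refine ⟨∑ i : Fin pb.dim, monomial i (Algebra.trace F F⟮θ⟯ (z * (minpolyDiv F pb.gen).coeff i)),
    ?_, ?_, fun A s j h => ?_⟩
  · have h1 : 0 < pb.dim := pb.dim_pos
    rw [← hm, pb.natDegree_minpoly]
    refine (natDegree_sum_le_of_forall_le _ _ (n := pb.dim - 1) fun i _ => ?_).trans_lt (by omega)
    exact (natDegree_monomial_le _).trans (Nat.le_sub_one_of_lt i.2)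
  · rw [← hm]
    have e := congrArg (algebraMap F⟮θ⟯ M) (tbnd_pb pb z)
    rwa [map_mul, ← aeval_algebraMap_apply, ← aeval_algebraMap_apply, hg] at e
  · rw [finsetSum_coeff, Finset.mul_sum]
    refine IsIntegral.sum _ fun i _ => ?_
    rw [coeff_monomial]
    split_ifs with hij
    · rw [hd, ← hij, coeff_map, ← map_mul, Algebra.smul_def,
        IsScalarTower.algebraMap_apply F F⟮θ⟯ M, ← map_mul, ← Algebra.smul_def] at h
      rw [← smul_eq_mul, ← map_smul]
      exact Algebra.isIntegral_trace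
        ((isIntegral_algebraMap_iff (algebraMap F⟮θ⟯ M).injective).1 h)
    · rw [mul_zero]
      exact isIntegral_zero

/-- the rational functions of degree at most zero -/
noncomputable def bnd_inf (κ : Type) [Field κ] : Subring (RatFunc κ) :=
  (RatFunc.inftyValuation κ).integer

theorem bnd_inf_normal {y : RatFunc κ} (h : IsIntegral (bnd_inf κ) y) : y ∈ bnd_inf κ :=
  (Valuation.integer.integers (RatFunc.inftyValuation κ)).mem_of_integral h

theorem bnd_inf_mem {P : κ[X]} {n : ℕ} :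
    (RatFunc.X ^ n)⁻¹ * algebraMap κ[X] (RatFunc κ) P ∈ bnd_inf κ ↔ P.natDegree ≤ n := by
  rcases eq_or_ne P 0 with rfl | hP
  · simp
  · rw [bnd_inf, Valuation.mem_integer_iff, map_mul, map_inv₀, map_pow, RatFunc.inftyValuation.X,
      RatFunc.inftyValuation_apply, RatFunc.inftyValuation.polynomial _ hP, ← WithZero.exp_nsmul,
      ← WithZero.exp_neg, ← WithZero.exp_add, ← WithZero.exp_zero, WithZero.exp_le_exp]
    simp

theorem tbnd_as {A : Type} [CommRing A] [Algebra A M] {p : ℕ} (hp : p.Prime) {x l g : M}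
    (hl : IsIntegral A l) (hg : IsIntegral A g) (h : x ^ p = l ^ (p - 1) * x + l ^ (p - 1) * g) :
    IsIntegral A x := by
  let l' : integralClosure A M := ⟨l, hl⟩
  let g' : integralClosure A M := ⟨g, hg⟩
  refine isIntegral_trans (A := integralClosure A M) x
    ⟨X ^ p - (C (l' ^ (p - 1)) * X + C (l' ^ (p - 1) * g')),
      monic_X_pow_sub (degree_linear_le.trans_lt (by exact_mod_cast hp.one_lt)), ?_⟩
  rw [eval₂_sub, eval₂_add, eval₂_mul, eval₂_C, eval₂_C, eval₂_X, eval₂_X_pow, map_mul, map_pow]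
  exact sub_eq_zero.2 h

section

omit [Algebra (RatFunc κ) M] [Algebra κ M] [IsScalarTower κ (RatFunc κ) M]

variable {F : Type} [Field F] [Algebra F M] {a : κ[X] →+* F} {A : Subring F} {t : F} {δ : ℕ}
  (hA : ∀ (n : ℕ) (P : κ[X]), P.natDegree ≤ n → t ^ n * a P ∈ A)

theorem tbnd_smul {x : F} {y : M} (hx : x ∈ A) (hy : IsIntegral A y) : IsIntegral A (x • y) :=
  hy.smul (⟨x, hx⟩ : A)

include hA

theorem tbnd_root (hχ : Wq δ χ) (h0 : aeval θ (χ.map a) = 0) : IsIntegral A (t • θ) := by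
  have hm := hχ.monic.map a
  have hq : (((χ.map a).scaleRoots t).coeffs : Set F) ⊆ A := fun x hx => by
    obtain ⟨i, -, rfl⟩ := mem_coeffs_iff.1 hx
    rw [coeff_scaleRoots, hχ.monic.natDegree_map, hχ.deg, coeff_map, mul_comm]
    exact hA _ _ (hχ.wt i)
  refine ⟨toSubring _ A hq, (monic_toSubring _ _ _).2 ((monic_scaleRoots_iff t).2 hm), ?_⟩
  rw [show algebraMap A M = (algebraMap F M).comp A.subtype from rfl, ← eval₂_map, map_toSubring,
    Algebra.smul_def]
  exact scaleRoots_aeval_eq_zero h0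

theorem tbnd_ev (hθ : IsIntegral A (t • θ)) {D : ℕ} {P : κ[X][X]} (hP : Dg D P) :
    IsIntegral A (t ^ (2 * D) • aeval θ (P.map a)) := by
  rw [aeval_eq_sum_range' (Nat.lt_succ_of_le (natDegree_map_le.trans hP.1)), Finset.smul_sum]
  refine IsIntegral.sum _ fun i hi => ?_
  have hi' := Finset.mem_range.1 hi
  have e : t ^ (2 * D) • (P.map a).coeff i • θ ^ i =
      (t ^ (2 * D - i) * a (P.coeff i)) • (t • θ) ^ i := by
    rw [_root_.smul_pow, smul_smul, smul_smul, coeff_map, mul_right_comm, ← pow_add,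
      Nat.sub_add_cancel (by omega)]
  rw [e]
  exact tbnd_smul (hA _ _ ((hP.2 i).trans (by omega))) (hθ.pow i)

theorem tbnd_div (hχ : Wq δ χ) (hθ : IsIntegral A (t • θ)) (hI : IsIntegral F θ)
    (e : minpoly F θ = χ.map a) (j : ℕ) : IsIntegral A (t ^ δ • (minpolyDiv F θ).coeff j) := by
  have hd : (minpolyDiv F θ).natDegree + 1 = δ := by
    rw [natDegree_minpolyDiv_succ hI, e, hχ.monic.natDegree_map, hχ.deg]
  have h0 : ∀ j, δ ≤ j → (minpolyDiv F θ).coeff j = 0 := fun j hj =>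
    coeff_eq_zero_of_natDegree_lt (by omega)
  have H : ∀ k j, j + k = δ → IsIntegral A (t ^ k • (minpolyDiv F θ).coeff j) := fun k => by
    induction k with
    | zero =>
      intro j hj
      rw [h0 j hj.ge, smul_zero]
      exact isIntegral_zero
    | succ k ih =>
      intro j hj
      rw [coeff_minpolyDiv, smul_add, e, coeff_map, Algebra.algebraMap_eq_smul_one, smul_smul,
        pow_succ t k, ← smul_mul_smul_comm, ← pow_succ]
      exact (tbnd_smul (hA _ _ ((hχ.wt _).trans (by omega))) isIntegral_one).add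
        ((ih _ (by omega)).mul hθ)
  rcases le_total δ j with hj | hj
  · rw [h0 j hj, smul_zero]
    exact isIntegral_zero
  · obtain ⟨k, hk⟩ := Nat.exists_eq_add_of_le hj
    have := hA j 1 (by simp)
    rw [map_one, mul_one] at this
    rw [congrArg (t ^ ·) hk, pow_add, mul_smul]
    exact tbnd_smul this (H k j hk.symm)

theorem tbnd_all {p D : ℕ} (hp : p.Prime) {L G : κ[X][X]} (hχ : Wq δ χ) (hI : IsIntegral F θ)
    (e : minpoly F θ = χ.map a) (hL : Dg D L) (hG : Dg D G) {w : M}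
    (h : aeval θ (L.map a) * (w ^ p - w) = aeval θ (G.map a)) (j : ℕ) :
    IsIntegral A (t ^ (2 * D + δ) • (aeval θ (L.map a) * w * (minpolyDiv F θ).coeff j)) := by
  have hθ := tbnd_root hA hχ (e ▸ minpoly.aeval F θ)
  rw [pow_add, ← smul_mul_smul_comm]
  refine (tbnd_as hp (tbnd_ev hA hθ hL) (tbnd_ev hA hθ hG) ?_).mul (tbnd_div hA hχ hθ hI e j)
  rw [← h, ← smul_mul_assoc, ← smul_mul_assoc, mul_pow, ← pow_sub_one_mul hp.ne_zero (_ • _)]
  ring

end

/-- `L (θ) w` is integral over `κ[τ]` and has bounded poles at infinity -/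
theorem bnd_main {p δ D : ℕ} [Fact p.Prime] {L G : κ[X][X]} (hχ : Wq δ χ) (hi : Irreducible χ)
    (h0 : e2 (algebraMap κ M) (tE κ M) θ χ = 0)
    (h1 : e2 (algebraMap κ M) (tE κ M) θ (derivative χ) ≠ 0) (hL : Dg D L) (hG : Dg D G) {w : M}
    (hw : w ∈ (RatFunc κ)⟮θ⟯) (h : e2 (algebraMap κ M) (tE κ M) θ L * (w ^ p - w) =
      e2 (algebraMap κ M) (tE κ M) θ G) :
    ∃ Y : κ[X][X], Y.natDegree < δ ∧ Dg (2 * D + δ) Y ∧ e2 (algebraMap κ M) (tE κ M) θ Y =
      e2 (algebraMap κ M) (tE κ M) θ (derivative χ) * e2 (algebraMap κ M) (tE κ M) θ L * w := by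
  have e := bnd_minpoly hχ.monic hi h0
  simp only [e2_tE] at h0 h1 h ⊢
  set a := algebraMap κ[X] (RatFunc κ)
  have hI : IsIntegral (RatFunc κ) θ := ⟨_, hχ.monic.map a, h0⟩
  rw [← derivative_map, ← e] at h1 ⊢
  obtain ⟨Y, h2, h3, h4⟩ := bnd_euler ((separable_iff_derivative_ne_zero
    (minpoly.irreducible hI)).2 fun e' => h1 (by rw [e', map_zero])) (mul_mem
      (IntermediateField.algebra_adjoin_le_adjoin _ _ (aeval_mem_adjoin_singleton _ θ)) hw)
  obtain ⟨Y, rfl⟩ := (mem_lifts Y).1 ((lifts_iff_coeff_lifts (f := a) Y).2 fun j => by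
    have := h4 a.range _ j (tbnd_all (t := 1) (a := a) (A := a.range)
      (fun n P _ => ⟨P, by rw [one_pow, one_mul]⟩) Fact.out hχ hI e hL hG h j)
    rw [one_pow, one_mul] at this
    let := a.rangeRestrict.toAlgebra
    have : IsScalarTower κ[X] a.range (RatFunc κ) := .of_algebraMap_eq fun _ => rfl
    have := Algebra.isIntegral_of_surjective (R := κ[X]) (B := a.range) a.rangeRestrict_surjective
    exact IsIntegrallyClosed.isIntegral_iff.1 (isIntegral_trans (A := a.range) _ ‹_›))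
  rw [natDegree_map_eq_of_injective (IsFractionRing.injective _ _), e, hχ.monic.natDegree_map,
    hχ.deg] at h2
  refine ⟨Y, h2, ⟨by omega, fun j => bnd_inf_mem.1 (bnd_inf_normal ?_)⟩,
    h3.trans (mul_assoc _ _ _).symm⟩
  rw [← inv_pow, ← coeff_map]
  exact h4 _ _ j (tbnd_all (fun n P hP => by rw [inv_pow]; exact bnd_inf_mem.2 hP) Fact.out hχ hI e
    hL hG h j)

end Pool.Agent.ZFN
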