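import Pool.Agent.Lib.MP_751085_ag.ZF.N.TLoc

/-! Functions with bounded poles, evaluation at a point, the ideal of a section. -/

namespace Pool.Agent.ZFd

open scoped Classical
open Pool.Agent.ZCy MvPolynomial

variable {k κ ι : Type} [Field k] {X : Var k} {l : κ → Fm X.N k} {lf G : Fm X.N k} {e m d n : ℕ}
  {φ : X.F}

theorem on_g (X : Var k) : X.On X.g := Var.on_g

theorem gam_mono (hf : lf.IsHomogeneous e) {m m' : ℕ} (h : m ≤ m') :
    X.Gam l e lf m ≤ X.Gam l e lf m' := fun φ hφ i hi => by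
  obtain ⟨r, rfl⟩ := Nat.exists_eq_add_of_le' h
  rw [pow_add, mul_assoc]
  exact mul_mem (pow_mem (fn_mem _ hf) _) (hφ i hi)

theorem gam_one (hf : lf.IsHomogeneous e) (m : ℕ) : (1 : X.F) ∈ X.Gam l e lf m :=
  fun _ _ => mul_mem (pow_mem (fn_mem _ hf) _) (one_mem _)

theorem gam_div (hG : G.IsHomogeneous e) (h0 : aeval X.g lf ≠ 0) :
    aeval X.g G / aeval X.g lf ∈ X.Gam l e lf 1 := fun i _ => by
  rw [pow_one, Var.fn, div_mul_div_comm, mul_comm (_ ^ e), mul_div_mul_left _ _ h0]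
  exact fn_mem _ hG

theorem gam_pow (h : φ ∈ X.Gam l e lf 1) (m : ℕ) : φ ^ m ∈ X.Gam l e lf m := fun i hi => by
  rw [← mul_pow, ← pow_one (X.fn _ _ _)]
  exact pow_mem (h i hi) m

/-- multiplication by `lf (g) ^ m` maps into the sections of the twist `-(m e)` -/
theorem gam_fg (hz : ∀ i, aeval X.g (l i) ≠ 0) (h0 : aeval X.g lf ≠ 0)
    (h : FinG k (fun i => aeval X.g (l i)) (oS fun i => X.aff (l i))) (e m : ℕ) :
    (X.Gam l e lf m).FG := by
  obtain ⟨V, hV, H⟩ := h (-(e * m : ℕ))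
  refine Submodule.fg_of_fg_map_injective (LinearMap.mulLeft k (aeval X.g lf ^ m))
    (mul_right_injective₀ (pow_ne_zero m h0)) ((Module.Finite.iff_fg.1 hV).of_le ?_)
  rintro _ ⟨φ, hφ, rfl⟩
  refine H _ fun i => ?_
  have h1 := hφ i (hz i)
  rwa [Var.fn, div_pow, ← pow_mul, div_eq_inv_mul, mul_assoc, ← zpow_natCast, ← zpow_neg] at h1

variable {M : Type} [Field M] [Algebra k M] {x : Fin (X.N + 1) → M} {R : Subring X.F}
  {r : X.F →ₗ[k] M}

theorem exists_rs (hx : X.On x) : ∃ R r, X.Rs x R r := by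
  obtain ⟨e, he, -⟩ := geo_ev hx
  have h1 : ∀ a : k, X.Reg x (algebraMap k X.F a) (algebraMap k M a) := fun a =>
    ⟨0, C a, 1, isHomogeneous_C _ a, isHomogeneous_one _ _, by simp, by simp, by simp⟩
  have h2 : ∀ a : k, algebraMap k X.F a ∈ X.LR x := fun a => (geo_mem_LR hx).2 ⟨_, h1 a⟩
  let S : Subalgebra k X.F := { X.LR x with algebraMap_mem' := h2 }
  let e' : S →ₐ[k] M := { e with commutes' := fun a => he ⟨_, h2 a⟩ _ (h1 a) }
  obtain ⟨r, hr⟩ := LinearMap.exists_extend (p := S.toSubmodule) e'.toLinearMap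
  have h3 : ∀ a : X.LR x, r a = e a := fun a => LinearMap.congr_fun hr a
  refine ⟨X.LR x, r, fun a ha b hb => ?_, fun d G H hG hH h => ?_⟩
  · rw [h3 ⟨a, ha⟩, h3 ⟨b, hb⟩, ← map_mul]
    exact h3 (⟨a, ha⟩ * ⟨b, hb⟩)
  · have h4 := reg_div hx hG hH h
    have h5 := (geo_mem_LR hx).2 ⟨_, h4⟩
    exact ⟨h5, (h3 ⟨_, h5⟩).trans (he _ _ h4)⟩

theorem _root_.Pool.Agent.ZCy.Var.Rs.one (h : X.Rs x R r) : r 1 = 1 := by
  simpa using (h.val 0 1 1 (isHomogeneous_one _ _) (isHomogeneous_one _ _) (by simp)).2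

theorem _root_.Pool.Agent.ZCy.Var.Rs.pow (h : X.Rs x R r) (hφ : φ ∈ R) (m : ℕ) :
    r (φ ^ m) = r φ ^ m := by
  induction m with
  | zero => rw [pow_zero, pow_zero, h.one]
  | succ m ih => rw [pow_succ, pow_succ, h.mul _ (pow_mem hφ m) _ hφ, ih]

theorem _root_.Pool.Agent.ZCy.Var.Rs.fn (h : X.Rs x R r) {l : Fm X.N k} (hl : l.IsHomogeneous 1)
    (h0 : aeval x l ≠ 0) (hG : G.IsHomogeneous d) :
    X.fn l d G ∈ R ∧ r (X.fn l d G) = aeval x G / aeval x l ^ d := by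
  have := h.val d G (l ^ d) hG (by simpa using hl.pow d) (by rw [map_pow]; exact pow_ne_zero d h0)
  rwa [map_pow, map_pow] at this

theorem tse1_ne (hx : X.On x) (hG : G.IsHomogeneous d) (h : aeval x G ≠ 0) : aeval X.g G ≠ 0 :=
  fun e => h (hx.2 G ⟨⟨d, hG⟩, e⟩)

theorem _root_.Pool.Agent.ZCy.Var.Rs.gam (h : X.Rs x R r) (hx : X.On x)
    (hl : ∀ i, (l i).IsHomogeneous 1) (hB : X.B1 l) (hf : lf.IsHomogeneous e)
    (h0 : aeval x lf ≠ 0) (hφ : φ ∈ X.Gam l e lf m) : φ ∈ R := by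
  obtain ⟨i, hi⟩ := hB M x hx
  have h1 := tse1_ne hx (hl i) hi
  obtain ⟨d, G, hG, h2⟩ := (mem_aff (hl i) h1).1 (hφ i h1)
  have h3 := mul_mem (pow_mem (h.val e (l i ^ e) lf (by simpa using (hl i).pow e) hf h0).1 m)
    (h.fn (hl i) hi hG).1
  rwa [← h2, ← mul_assoc, ← mul_pow, Var.fn, map_pow, div_mul_div_cancel₀ (tse1_ne hx hf h0),
    div_self (pow_ne_zero e h1), one_pow, one_mul] at h3

variable {p : ℕ} [Fact p.Prime] [CharP k p] [CharP X.F p] {t : k} [Fintype ι] {f : ι → Fm X.N k}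

theorem geo_lpb (hk : Bs p t) (hX : X.Nice n) {l : Fm X.N k} (hl : l.IsHomogeneous 1)
    (h0 : aeval X.g l ≠ 0) (hf : ∀ j, (f j).IsHomogeneous d) (hs : X.SmAll f) :
    LPB p (X.aff l) fun j => X.fn l d (f j) := fun _ hO S hS =>
  let ⟨u, e, h1, _, h2, h3⟩ := geo_pb hk hX hl h0 hf hs hO S hS
  ⟨n + 1, u, e, h1, h2, fun j hj => (h3 j hj).2⟩

/-- a form that vanishes on the section lies in the ideal of the section -/
theorem sec_ker (hk : Bs p t) (hX : X.Nice n) {l : Fm X.N k} (hl : l.IsHomogeneous 1)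
    (h0 : aeval X.g l ≠ 0) (hf : ∀ j, (f j).IsHomogeneous d) (hs : X.SmAll f) {C : Gen k X.N}
    (hC : X.Cut C f) (hG : G.IsHomogeneous m) (h : aeval C.g G = 0) :
    X.fn l m G ∈ idS (X.aff l) (fun j => X.fn l d (f j)) Set.univ := by
  let I : Ideal (X.aff l) := Ideal.span (Set.range fun j => ⟨_, fn_mem l (hf j)⟩)
  have h1 : (⟨_, fn_mem l hG⟩ : X.aff l) ∈ I.radical := by
    rw [Ideal.radical_eq_sInf, Submodule.mem_sInf]
    rintro (P : Ideal (X.aff l)) ⟨h2, h3⟩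
    let _ : Algebra k P.ResidueField := ((algebraMap (X.aff l) P.ResidueField).comp
      ((algebraMap k X.F).codRestrict _ (aff_alg l))).toAlgebra
    obtain ⟨x, hx, -, h4⟩ := aff_pt hl h0 le_rfl (algebraMap (X.aff l) P.ResidueField) fun _ => rfl
    rw [← Ideal.algebraMap_residueField_eq_zero, h4 m G hG]
    refine ((hC _ x).2 ⟨hx, fun j => ?_⟩).2 G ⟨⟨m, hG⟩, h⟩
    rw [← h4 d _ (hf j), Ideal.algebraMap_residueField_eq_zero]
    exact h2 (Ideal.subset_span ⟨j, rfl⟩)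
  obtain ⟨N, hN⟩ := h1
  refine idS_rad (fun j => fn_mem l (hf j)) (geo_lpb hk hX hl h0 hf hs) (fn_mem l hG) (N := N)
    (Submodule.span_induction (p := fun (y : X.aff l) _ =>
      (y : X.F) ∈ idS (X.aff l) (fun j => X.fn l d (f j)) Set.univ) ?_ (zero_mem _)
      (fun _ _ _ _ => add_mem) (fun a _ _ => idS_mul a.2) hN)
  rintro _ ⟨j, rfl⟩
  simpa using mem_idS (f := fun j => X.fn l d (f j)) (one_mem (X.aff l)) (Set.mem_univ j)

end Pool.Agent.ZFd
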