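import Pool.Agent.Lib.MP_751085_ag.ZF.N.TSys
import Pool.Agent.Lib.MP_751085_ag.ZF.N.TSe1
import Pool.Agent.Lib.MP_751085_ag.ZF.N.A5

/-! The fibre curve in the chart. -/

namespace Pool.Agent.ZFN

open Pool.Agent.ZCy Polynomial
open Pool.Agent.ZeroCyc (mp e2)
open scoped Classical TensorProduct

section

variable {R S σ : Type} [CommRing R] [CommRing S]

theorem tcrv_l1 (φ : R →+* S) (P : MP (Option σ) R) :
    (l1 σ R P).map φ = line φ 0 (Pi.single none 1) P := by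
  rw [l1, map_line, RingHom.comp_id]
  congr 2
  · exact funext fun _ => map_zero φ
  · funext i
    cases i <;> simp

theorem ev_l1 (φ : R →+* S) (t : S) (P : MP (Option σ) R) :
    (l1 σ R P).eval₂ φ t = MvPolynomial.eval₂ φ (ax σ t) P := by
  rw [← eval_map, tcrv_l1, eval_line]
  congr 1
  funext i
  cases i <;> simp [ax]

theorem e2_lq (φ : R →+* S) (t z : S) (P : (MP (Option σ) R)[X]) :
    e2 φ t z (lq σ R P) = ev φ (ax σ t) z P :=
  (eval₂_map _ _ _).trans (congrArg (eval₂ · z P) (RingHom.ext (ev_l1 φ t)))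

theorem map_l1 (φ : R →+* S) (P : MP (Option σ) R) :
    (l1 σ R P).map φ = l1 σ S (MvPolynomial.map φ P) := by
  rw [tcrv_l1, l1, line_map, RingHom.id_comp]

theorem mp_lq (φ : R →+* S) (P : (MP (Option σ) R)[X]) : mp φ (lq σ R P) = lq σ S (mq φ P) :=
  Polynomial.ext fun i => by simp only [lq, coe_mapRingHom, coeff_map, map_l1]

theorem mp_lq' (φ : R →+* S) (P : (MP (Option σ) R)[X]) :
    mp φ (lq σ R P) = P.map (line φ 0 (Pi.single none 1)) :=
  Polynomial.ext fun i => by simp only [lq, coe_mapRingHom, coeff_map, tcrv_l1]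

theorem l1_coeff (P : MP (Option σ) R) :
    (l1 σ R P).coeff 0 = MvPolynomial.constantCoeff P := by
  rw [l1, coeff_line_zero, MvPolynomial.eval₂_id, MvPolynomial.eval_zero]

theorem l1_deg (P : MP (Option σ) R) : (l1 σ R P).natDegree ≤ P.totalDegree :=
  natDegree_line_le ..

theorem wq_lq [Nontrivial R] (c : PChart R σ) : Wq c.δ (lq σ R c.χ) :=
  ⟨c.monic.map _, (c.monic.natDegree_map _).trans c.deg, fun i => by
    rw [lq, coe_mapRingHom, coeff_map]
    exact (l1_deg _).trans (c.wt i)⟩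

theorem bez_lq (c : PChart R σ) : Bez (lq σ R c.χ) (l1 σ R c.D) := by
  obtain ⟨α, β, h⟩ := c.bez
  refine ⟨1, lq σ R α, lq σ R β, ?_⟩
  simpa [lq, derivative_map] using congrArg (lq σ R) h

variable {N : ℕ} {GG : Set (Fm N R)} {GG' : Set (Fm N S)}

theorem e2_sb (c : Chart R σ N GG) (φ : R →+* S) (t z : S) (G : Fm N R) :
    e2 φ t z (lq σ R (sb c.pp G)) = MvPolynomial.eval₂ φ (c.pv φ (ax σ t) z) G :=
  (e2_lq ..).trans (ev_sb ..)

theorem mp_sb {c : Chart R σ N GG} {c' : Chart S σ N GG'} {φ : R →+* S} (h : c.IsMap φ c')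
    (G : Fm N R) : mp φ (lq σ R (sb c.pp G)) = lq σ S (sb c'.pp (MvPolynomial.map φ G)) := by
  rw [mp_lq, funext h.pp]
  exact congrArg _ (map_sb φ _ (MvPolynomial.map_C φ) _ _)

theorem lq_sum {I : Type} [Fintype I] (P : Fin (N + 1) → (MP (Option σ) R)[X]) (a : I → R)
    (G : I → Fm N R) : lq σ R (sb P (∑ i, MvPolynomial.C (a i) * G i)) =
      LC (RingHom.id R) (fun i => lq σ R (sb P (G i))) a := by
  simp [LC, lq, l1, sb]

end

variable {k σ : Type} [Field k]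

theorem l1_D_ne (c : PChart k σ) (h : MvPolynomial.constantCoeff c.Ψ ≠ 0) : l1 σ k c.D ≠ 0 :=
  fun e => by
    obtain ⟨r, q, hq⟩ := c.dvd
    have := congrArg MvPolynomial.constantCoeff hq
    rw [map_pow, map_mul, ← l1_coeff c.D, e, coeff_zero, zero_mul] at this
    exact pow_ne_zero r h this

variable {X : Var k} {C : Gen k X.N}

theorem tcrv_root {ι F : Type} [Field F] [Algebra k F] {H : (MP ι k)[X]} (hH : H.Monic)
    {ξ : ι → F} (hξ : ∀ i, IsAlgebraic k (ξ i)) {z : F} (hz : ev (algebraMap k F) ξ z H = 0) :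
    IsAlgebraic k z := by
  have : IsIntegral (algebraicClosure k F) z := ⟨H.map (MvPolynomial.eval₂Hom (algebraMap k _)
    fun i => ⟨ξ i, mem_algebraicClosure_iff.2 (hξ i)⟩), hH.map _, by
      rw [eval₂_map]
      exact (congrArg (eval₂ · z H) (MvPolynomial.ringHom_ext (by simp) (by simp))).trans hz⟩
  exact (isIntegral_trans z this).isAlgebraic

theorem tcrv_zer {M : Type} [Field M] [Algebra k M] {x : Fin (X.N + 1) → M} (hx : X.On x) :
    Zer (X.IK k) (algebraMap k M) x := Zer.map_image.2 hx.2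

theorem crv_alg (c : Chart k σ X.N (X.IK k)) (hC : C.var.Nice 1) (hx : X.On C.g) {μ : C.F}
    (h0 : μ ≠ 0) (h : ∀ i, IsAlgebraic k (MvPolynomial.aeval C.g (c.f i) / μ)) : False := by
  have h1 : ∀ j, IsAlgebraic k (μ⁻¹ * C.g j ^ c.d) := fun j => by
    obtain ⟨m, H, h1, h2, h3, h4⟩ := c.int j
    have h5 := (WH.of_coeff h2.le fun i _ => h3 i).ev_smul (algebraMap k C.F) μ⁻¹
      (fun i => MvPolynomial.eval₂ (algebraMap k C.F) C.g (c.f i)) (C.g j ^ c.d)
    rw [h4 _ _ _ (tcrv_zer hx), mul_zero] at h5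
    exact tcrv_root h1 (fun i => (congrArg _ (div_eq_inv_mul _ μ)).mp (h i)) h5
  obtain ⟨j, hj⟩ := C.one
  have h2 := h1 j
  rw [hj, one_pow, mul_one] at h2
  have h3 : algebraicClosure k C.F = ⊤ := top_le_iff.1 (C.gen ▸ IntermediateField.adjoin_le_iff.2 (by
    rintro _ ⟨i, rfl⟩
    have := (IsAlgebraic.inv_iff.1 h2).mul (h1 i)
    rw [mul_inv_cancel_left₀ h0] at this
    exact mem_algebraicClosure_iff.2 (this.of_pow c.dpos)))
  have : Algebra.IsAlgebraic k C.F :=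
    ⟨fun x => mem_algebraicClosure_iff.1 (h3 ▸ IntermediateField.mem_top)⟩
  have h4 : Algebra.trdeg k C.F = (1 : ℕ) := hC.dim
  simp [trdeg_eq_zero] at h4

theorem crv_pt (c : Chart k σ X.N (X.IK k)) (hΨ : MvPolynomial.constantCoeff c.Ψ ≠ 0)
    (hC : C.var.Nice 1) (h : X.Cut C fun i => c.f (some (some i))) : ∃ τ θ u : C.F, u ≠ 0 ∧
      e2 (algebraMap k C.F) τ θ (lq σ k c.χ) = 0 ∧
      e2 (algebraMap k C.F) τ θ (derivative (lq σ k c.χ)) ≠ 0 ∧ ∀ (m : ℕ) (G : Fm X.N k),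
        G.IsHomogeneous m → e2 (algebraMap k C.F) τ θ (lq σ k (sb c.pp G)) =
          u ^ m * MvPolynomial.aeval C.g G := by
  obtain ⟨hx, hf⟩ := (h _ _).1 C.var.on_g
  have key : ∀ μ ≠ 0, IsAlgebraic k (MvPolynomial.aeval C.g (c.f none) / μ) →
      ¬IsAlgebraic k (MvPolynomial.aeval C.g (c.f (some none)) / μ) := fun μ h0 h1 h2 =>
    crv_alg c hC hx h0 (by
      rintro (_ | _ | i)
      exacts [h1, h2, by simpa [hf i] using isAlgebraic_zero])
  have h0 : MvPolynomial.aeval C.g (c.f none) ≠ 0 := fun e => by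
    by_cases e' : MvPolynomial.aeval C.g (c.f (some none)) = 0
    · exact key 1 one_ne_zero (by simpa [e] using isAlgebraic_zero)
        (by simpa [e'] using isAlgebraic_zero)
    · exact key _ e' (by simpa [e] using isAlgebraic_zero) (div_self e' ▸ isAlgebraic_one)
  obtain ⟨τ, hτ⟩ : ∃ τ, τ = MvPolynomial.aeval C.g (c.f (some none)) /
    MvPolynomial.aeval C.g (c.f none) := ⟨_, rfl⟩
  have hD : MvPolynomial.eval₂ (algebraMap k C.F) (ax σ τ) c.D ≠ 0 := fun e =>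
    key _ h0 (div_self h0 ▸ isAlgebraic_one) ⟨_, l1_D_ne c.toPChart hΨ, by
      rw [← hτ, aeval_def, ev_l1, e]⟩
  obtain ⟨h1, h2⟩ := c.fro _ _ C.g (ax σ τ) (MvPolynomial.aeval C.g c.th /
    MvPolynomial.aeval C.g (c.f none)) (tcrv_zer hx) h0 (by
      rintro (_ | i)
      exacts [(eq_div_iff h0).1 hτ |>.symm, (hf i).trans (zero_mul _).symm])
    (div_mul_cancel₀ _ h0).symm
  obtain ⟨u, hu⟩ := h2 hD
  have h3 : ∀ (m : ℕ) (G : Fm X.N k), G.IsHomogeneous m → e2 (algebraMap k C.F) τ _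
      (lq σ k (sb c.pp G)) = u ^ m * MvPolynomial.aeval C.g G := fun m G hG => by
    rw [e2_sb, show c.pv _ _ _ = u • C.g from funext hu]
    exact aeval_smul_hom hG u C.g
  refine ⟨τ, _, u, fun e => (c.ne _ _ _ _ h1 hD).1 ?_, (e2_lq ..).trans h1, fun e => hD ?_, h3⟩
  · rw [← e2_lq, h3 _ _ (c.hf none), e, zero_pow c.dpos.ne', zero_mul]
  · obtain ⟨α, β, h4⟩ := c.bez
    have h5 := congrArg (ev (algebraMap k C.F) (ax σ τ) (MvPolynomial.aeval C.g c.th /
      MvPolynomial.aeval C.g (c.f none))) h4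
    rw [lq, coe_mapRingHom, derivative_map] at e
    rw [map_add, map_mul, map_mul, h1, ← e2_lq _ _ _ (derivative _), lq, coe_mapRingHom, e, ev_def,
      eval₂_C] at h5
    simpa using h5

variable {p : ℕ} [Fact p.Prime] [CharP k p]

theorem Pls.t_ne {ι : Type} (B : Pls p k ι) : B.t ≠ 0 := fun e =>
  one_ne_zero (B.Dt.symm.trans (by rw [e, map_zero]))

theorem Pls.infinite {ι : Type} (B : Pls p k ι) : Infinite k := by
  by_contra h
  have := not_infinite_iff_finite.1 h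
  obtain ⟨y, hy⟩ := Finite.surjective_of_injective (frobenius_inj k p) B.t
  exact one_ne_zero (B.Dt.symm.trans (hy ▸ na5_d B.D y))

theorem tcrv_sum [Fintype (Unit → Fin p)] (t : k) (y : ℕ → k) :
    ∑ i ∈ Finset.range p, t ^ i * y i ^ p =
      ∑ I : Unit → Fin p, y (I ()) ^ p * ZFd.mon (fun _ : Unit => t) I := by
  rw [Finset.sum_range, ← Equiv.sum_comp (Equiv.funUnique Unit (Fin p))]
  simp [ZFd.mon, mul_comm]

theorem Pls.bs {ι : Type} (B : Pls p k ι) (h : Algebra.EssFiniteType ℤ k) : ZFd.Bs p B.t := by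
  refine ⟨h, fun _ => trivial, fun a _ => ?_, linearIndependent_unique_iff.2 fun e => ?_,
    fun _ => ⟨1, trivial, one_ne_zero, trivial⟩⟩
  · obtain ⟨y, hy⟩ := B.span a
    exact ⟨fun I => y (I ()), fun _ => trivial, hy.trans (@tcrv_sum _ _ _ _ _ (_) _ y)⟩
  · have := B.D.liftKaehlerDifferential_comp_D B.t
    rw [show KaehlerDifferential.D ℤ k B.t = 0 from e, map_zero, B.Dt] at this
    exact zero_ne_one this

theorem bs_span {t : k} (h : ZFd.Bs p t) :
    t ≠ 0 ∧ ∀ a : k, ∃ y : ℕ → k, a = ∑ i ∈ Finset.range p, t ^ i * y i ^ p := by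
  refine ⟨h.pb.ne (), fun a => ?_⟩
  obtain ⟨c, -, hc⟩ := h.pb.span a trivial
  refine ⟨fun i => if h : i < p then c fun _ => ⟨i, h⟩ else 0, hc.trans ((Finset.sum_congr rfl
    fun I _ => ?_).trans (@tcrv_sum _ _ _ _ _ (_) _ _).symm)⟩
  rw [dif_pos (I ()).2]

theorem crv_gam {t : k} (hk : ZFd.Bs p t) {Y : Var k} {n e : ℕ} (hY : Y.Nice n) {κ I : Type}
    [Fintype I] {l : κ → Fm Y.N k} (hl : ∀ i, (l i).IsHomogeneous 1) {lf : Fm Y.N k}
    (hf : lf.IsHomogeneous e) (h0 : MvPolynomial.aeval Y.g lf ≠ 0) {G : I → Fm Y.N k}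
    (hG : ∀ i, (G i).IsHomogeneous e) {a : I → AlgebraicClosure k} {c : AlgebraicClosure k}
    {H : AlgebraicClosure k ⊗[k] Y.F} (h : H ^ p - H = ∑ i, a i ⊗ₜ[k]
      (MvPolynomial.aeval Y.g (G i) / MvPolynomial.aeval Y.g lf) - c ⊗ₜ[k] (1 : Y.F))
    (φ : AlgebraicClosure k →ₗ[k] k) : tev φ H ∈ Y.Gam l e lf 1 := fun i hi => by
  have : CharP Y.F p := charP_of_injective_algebraMap (algebraMap k Y.F).injective p
  rw [pow_one, ← tev_mul]
  refine gn_main (bs_span hk).1 (bs_span hk).2 (ZFd.aff_alg _)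
    (fun _ => (ZFd.geo_sm hk hY (hl i) hi).normal) (fun _ => ZFd.comp_mem (m := n) fun O hO => ?_)
    (gn_as (ZFd.aff_alg _) (ZFd.fn_mem _ hf) (fun j => ?_) h) φ
  · obtain ⟨u, -, h1, h2, -⟩ := ZFd.geo_pb hk hY (hl i) hi (ι := Empty) (f := Empty.elim) (d := 0)
      (fun j => j.elim) (fun _ _ _ _ _ _ _ _ => Subsingleton.elim _ _) hO ∅ fun _ h => h.elim
    exact ⟨u, h1, h2⟩
  · simpa only [pow_one] using ZFd.gam_div (l := l) (hG j) h0 i hi

end Pool.Agent.ZFN
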