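import Pool.Agent.Lib.MP_751085_ag.ZF.E.Geo
import Pool.Agent.Lib.MP_751085_ag.ZF.E.Exp

/-! The tame step: ideals of complete intersections, functions with bounded poles. -/

namespace Pool.Agent.ZFd

open scoped Classical
open Pool.Agent.ZCy MvPolynomial

section

variable {F ι κ : Type} [Field F]

/-- the ideal of `A` generated by the `f j`, `j ∈ T` -/
def idS (A : Subring F) (f : ι → F) (T : Set ι) : AddSubgroup F :=
  AddSubgroup.closure {x | ∃ a ∈ A, ∃ j ∈ T, x = a * f j}

/-- at every point the `f j` that vanish are part of a `p`-basis -/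
def LPB (p : ℕ) (A : Subring F) (f : ι → F) : Prop :=
  ∀ O, IsLoc A O → ∀ S : Set ι, (∀ j ∈ S, ¬Un O (f j)) → ∃ (m : ℕ) (u : Fin m → F) (e : ι → Fin m),
    PB p O u ∧ Set.InjOn e S ∧ ∀ j ∈ S, u (e j) = f j

/-- the ideal sheaf of the sections `f j` of degree `d` -/
def IS (z : κ → F) (A : κ → Subring F) (f : ι → F) (d : ℕ) (T : Set ι) (i : κ) : AddSubgroup F :=
  idS (A i) (fun j => f j / z i ^ d) T

end

variable {k κ : Type} [Field k] (X : Var k)

/-- the functions with a pole of order at most `m` along `lf = 0`, `lf` a form of degree `e` -/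
def _root_.Pool.Agent.ZCy.Var.Gam (l : κ → Fm X.N k) (e : ℕ) (lf : Fm X.N k) (m : ℕ) :
    Submodule k X.F where
  carrier := {φ | ∀ i, aeval X.g (l i) ≠ 0 → X.fn (l i) e lf ^ m * φ ∈ X.aff (l i)}
  add_mem' ha hb i hi := by
    rw [mul_add]
    exact add_mem (ha i hi) (hb i hi)
  zero_mem' i _ := by
    rw [mul_zero]
    exact zero_mem _
  smul_mem' c _ ha i hi := by
    rw [Algebra.smul_def, mul_left_comm]
    exact mul_mem (aff_alg _ c) (ha i hi)

/-- `r` evaluates the functions in `R` at the point `x` -/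
structure _root_.Pool.Agent.ZCy.Var.Rs {M : Type} [Field M] [Algebra k M]
    (x : Fin (X.N + 1) → M) (R : Subring X.F) (r : X.F →ₗ[k] M) : Prop where
  mul : ∀ a ∈ R, ∀ b ∈ R, r (a * b) = r a * r b
  val : ∀ (d : ℕ) (G H : Fm X.N k), G.IsHomogeneous d → H.IsHomogeneous d → aeval x H ≠ 0 →
    aeval X.g G / aeval X.g H ∈ R ∧ r (aeval X.g G / aeval X.g H) = aeval x G / aeval x H

end Pool.Agent.ZFd
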