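import Pool.Agent.Lib.MP_751085_ag.ZF.N.TDefs
import Pool.Agent.Lib.MP_751085_ag.ZC.CSp1
import Pool.Agent.Lib.MP_751085_ag.ZC.T.Cheb

/-! The tame step: polynomial systems. -/

namespace Pool.Agent.ZFN

open Pool.Agent.ZCy Polynomial
open Pool.Agent.ZeroCyc (mp e2)
open scoped Classical TensorProduct

/-- contraction with a linear form -/
noncomputable def tev {k K F : Type} [Field k] [Field K] [Field F] [Algebra k K] [Algebra k F]
    (φ : K →ₗ[k] k) : K ⊗[k] F →ₗ[k] F := (TensorProduct.lid k F).toLinearMap ∘ₗ φ.rTensor F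

variable {R S : Type} [CommRing R] [CommRing S]

/-- the polynomial with coefficients `y` -/
noncomputable def PY {B : ℕ} (y : Fin B × Fin B → R) : R[X][X] :=
  ∑ q, monomial q.1 (monomial q.2 (y q))

/-- the equation `w ^ p - w = G / L - c` for `w = Y / (χ' L)` -/
noncomputable def EQ (p : ℕ) (χ L G Y : R[X][X]) (c : R) : R[X][X] :=
  Y ^ p - (derivative χ * L) ^ (p - 1) * Y - derivative χ ^ p * L ^ (p - 1) * (G - C (C c) * L)

/-- the linear combination of the `G i` -/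
noncomputable def LC {I : Type} [Fintype I] (φ : R →+* S) (G : I → R[X][X]) (a : I → S) :
    S[X][X] := ∑ i, C (C (a i)) * mp φ (G i)

/-- a coordinate of `∑ a i b i - c - (w ^ p - w)`, `w = ∑ μ j h j` -/
noncomputable def RL (p : ℕ) {I J Q : Type} [Fintype I] [Fintype J] [Fintype Q] (φ : R →+* S)
    (Λ : J → Q → R) (α : I → R) (γ : R) (ε η : J → R) (a : I → S) (c : S) (y : Q → S) : S :=
  ∑ i, a i * φ (α i) - c * φ γ - ∑ j, (∑ q, y q * φ (Λ j q)) ^ p * φ (ε j) +
    ∑ j, (∑ q, y q * φ (Λ j q)) * φ (η j)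

/-- both degrees are at most `D` -/
def Dg (D : ℕ) (P : R[X][X]) : Prop := P.natDegree ≤ D ∧ ∀ i, (P.coeff i).natDegree ≤ D

/-- monic of degree and weight `δ` -/
structure Wq (δ : ℕ) (χ : R[X][X]) : Prop where
  monic : χ.Monic
  deg : χ.natDegree = δ
  wt : ∀ i, (χ.coeff i).natDegree ≤ δ - i

/-- restriction to the line `ξ' = 0` -/
noncomputable def l1 (σ R : Type) [CommRing R] : MP (Option σ) R →+* R[X] :=
  line (RingHom.id R) 0 (Pi.single none 1)

/-- the same for polynomials in `Z` -/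
noncomputable def lq (σ R : Type) [CommRing R] : (MP (Option σ) R)[X] →+* R[X][X] :=
  mapRingHom (l1 σ R)

/-- `(t, z)` is a good point over the field with `s` elements -/
structure GPt {κ : Type} [Field κ] (χ L : κ[X][X]) (ϑ : κ[X]) (s : ℕ) (t z : κ) : Prop where
  ht : t ^ s = t
  hz : z ^ s = z
  on : e2 (RingHom.id κ) t z χ = 0
  off : ϑ.eval t ≠ 0
  nl : e2 (RingHom.id κ) t z L ≠ 0

/-- the traces of the values of `G / L` are constant -/
def CTr (p : ℕ) {κ : Type} [Field κ] (χ L G : κ[X][X]) (ϑ : κ[X]) (s : ℕ) : Prop :=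
  ∀ m, 0 < m → ∀ t z t' z' : κ, GPt χ L ϑ (s ^ m) t z → GPt χ L ϑ (s ^ m) t' z' →
    ∃ y : κ, y ^ s ^ m = y ∧ e2 (RingHom.id κ) t z G / e2 (RingHom.id κ) t z L -
      e2 (RingHom.id κ) t' z' G / e2 (RingHom.id κ) t' z' L = y ^ p - y

end Pool.Agent.ZFN
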