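import Pool.Agent.Lib.MP_751085_ag.ZF.N.TD2

/-! Geometric normality: components of integral elements of `K ⊗ F` are integral. -/

namespace Pool.Agent.ZFN

open scoped Classical TensorProduct

section

variable {k K F : Type} [Field k] [Field K] [Field F] [Algebra k K] [Algebra k F]

theorem tev_tmul (φ : K →ₗ[k] k) (a : K) (x : F) : tev φ (a ⊗ₜ[k] x) = φ a • x := rfl

theorem tev_mul (φ : K →ₗ[k] k) (x : F) (z : K ⊗[k] F) :
    tev φ ((1 : K) ⊗ₜ[k] x * z) = x * tev φ z := by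
  induction z using TensorProduct.induction_on with
  | zero => simp
  | tmul a y => rw [Algebra.TensorProduct.tmul_mul_tmul, one_mul, tev_tmul, tev_tmul, mul_smul_comm]
  | add _ _ h h' => rw [mul_add, map_add, map_add, h, h', mul_add]

/-- expand in a basis of `K` -/
theorem tev_ext {z z' : K ⊗[k] F} (h : ∀ φ : K →ₗ[k] k, tev φ z = tev φ z') : z = z' := by
  let B := Module.Basis.ofVectorSpace k K
  have key : ∀ (z : K ⊗[k] F) i, TensorProduct.equivFinsuppOfBasisLeft B z i = tev (B.coord i) z :=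
    fun z i => by
      induction z using TensorProduct.induction_on with
      | zero => simp
      | tmul a y => exact TensorProduct.equivFinsuppOfBasisLeft_apply_tmul_apply B a y i
      | add _ _ h h' => rw [map_add, map_add, Finsupp.add_apply, h, h']
  exact (TensorProduct.equivFinsuppOfBasisLeft B).injective
    (Finsupp.ext fun i => by rw [key, key, h])

theorem tev_char (p : ℕ) [Fact p.Prime] [CharP k p] : CharP (K ⊗[k] F) p :=
  charP_of_injective_algebraMap (algebraMap k _).injective p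

end

variable {k F : Type} [Field k] [Field F] [Algebra k F] {A : Subring F}

/-- `z` is integral over `1 ⊗ A` -/
def IntT {K : Type} [Field K] [Algebra k K] (A : Subring F) (z : K ⊗[k] F) : Prop :=
  ((Algebra.TensorProduct.includeRight : F →ₐ[k] K ⊗[k] F).toRingHom.comp A.subtype).IsIntegralElem z

theorem tgn1_tmul (hk : ∀ a, algebraMap k F a ∈ A) (a : AlgebraicClosure k) {x : F} (hx : x ∈ A) :
    IntT A (a ⊗ₜ[k] x) := by
  obtain ⟨P, hP, h⟩ := Algebra.IsIntegral.isIntegral (R := k) a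
  have h1 : IntT A (a ⊗ₜ[k] (1 : F)) := ⟨P.map ((algebraMap k F).codRestrict A hk), hP.map _, by
    have := Polynomial.hom_eval₂ P (algebraMap k _)
      (Algebra.TensorProduct.includeLeftRingHom (R := k) (B := F)) a
    rw [h, map_zero] at this
    rw [Polynomial.eval₂_map, this]
    exact congrArg (P.eval₂ · _)
      (RingHom.ext fun b => Algebra.TensorProduct.includeRight.commutes b)⟩
  have h2 : IntT A (a ⊗ₜ[k] (1 : F) * (1 : AlgebraicClosure k) ⊗ₜ[k] x) :=
    h1.mul _ (RingHom.isIntegralElem_map _ (x := (⟨x, hx⟩ : A)))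
  rwa [Algebra.TensorProduct.tmul_mul_tmul, mul_one, one_mul] at h2

theorem tgn1_map {K : Type} [Field K] [Algebra k K] (σ : K →ₐ[k] K) {z : K ⊗[k] F} (h : IntT A z) :
    IntT A (Algebra.TensorProduct.map σ (AlgHom.id k F) z) := by
  obtain ⟨P, hP, h⟩ := h
  refine ⟨P, hP, Eq.trans ?_ ((Polynomial.hom_eval₂ P _
    (Algebra.TensorProduct.map σ (AlgHom.id k F)).toRingHom z).symm.trans (by rw [h, map_zero]))⟩
  exact congrArg (P.eval₂ · _) (RingHom.ext fun b => by simp)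

theorem tgn1_sum {K I : Type} [Field K] [Algebra k K] [Fintype I] (z : I → K ⊗[k] F)
    (h : ∀ i, IntT A (z i)) : IntT A (∑ i, z i) :=
  Finset.sum_induction z (IntT A) (fun _ _ => RingHom.IsIntegralElem.add _)
    (RingHom.isIntegralElem_zero _) fun i _ => h i

/-- the separable case: on `k (α)` the form is `Tr (β ·)` -/
theorem gn_sep (hk : ∀ a, algebraMap k F a ∈ A) (h1 : ∀ y, IsIntegral A y → y ∈ A) {J : Type}
    [Fintype J] {α : J → AlgebraicClosure k} (hα : ∀ j, IsSeparable k (α j)) (x : J → F)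
    (hz : IntT A (∑ j, α j ⊗ₜ[k] x j)) (φ : AlgebraicClosure k →ₗ[k] k) :
    tev φ (∑ j, α j ⊗ₜ[k] x j) ∈ A := by
  let L := IntermediateField.adjoin k (Set.range α)
  have : FiniteDimensional k L := IntermediateField.finiteDimensional_adjoin
    (Set.forall_mem_range.2 fun j => (hα j).isIntegral)
  have : Algebra.IsSeparable k L :=
    (IntermediateField.isSeparable_adjoin_iff_isSeparable _ _).2 (Set.forall_mem_range.2 hα)
  obtain ⟨β, hβ⟩ : ∃ β : L, ∀ a : L, Algebra.trace k L (β * a) = φ a :=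
    ⟨_, LinearMap.BilinForm.apply_toDual_symm_apply (hB := traceForm_nondegenerate k L)
      (φ ∘ₗ L.val.toLinearMap)⟩
  have e : (1 : AlgebraicClosure k) ⊗ₜ[k] tev φ (∑ j, α j ⊗ₜ[k] x j) =
      ∑ σ : L →ₐ[k] AlgebraicClosure k, Algebra.TensorProduct.map (σ.liftNormal _) (AlgHom.id k F)
        ((β : AlgebraicClosure k) ⊗ₜ[k] (1 : F) * ∑ j, α j ⊗ₜ[k] x j) := by
    simp only [map_sum, Finset.mul_sum, TensorProduct.tmul_sum, Algebra.TensorProduct.tmul_mul_tmul,
      Algebra.TensorProduct.map_tmul, one_mul, AlgHom.id_apply, tev_tmul]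
    rw [Finset.sum_comm]
    refine Finset.sum_congr rfl fun j _ => ?_
    rw [← TensorProduct.smul_tmul, ← Algebra.algebraMap_eq_smul_one, ← TensorProduct.sum_tmul,
      ← hβ ⟨α j, IntermediateField.subset_adjoin k _ ⟨j, rfl⟩⟩, trace_eq_sum_embeddings]
    exact congrArg (· ⊗ₜ[k] x j) (Finset.sum_congr rfl fun σ _ => (σ.liftNormal_commutes _ _).symm)
  obtain ⟨P, hP, h⟩ : IntT A ((1 : AlgebraicClosure k) ⊗ₜ[k] tev φ (∑ j, α j ⊗ₜ[k] x j)) :=
    e ▸ tgn1_sum _ fun σ => tgn1_map _ ((tgn1_tmul hk _ A.one_mem).mul _ hz)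
  exact h1 _ ⟨P, hP, (map_eq_zero _).1 ((Polynomial.hom_eval₂ P A.subtype _ _).trans h)⟩

variable {p : ℕ} [Fact p.Prime] [CharP k p] {t : k}

/-- `ψ x = ∑ i < p, t ^ i * φ (ρ (x / t ^ i)) ^ p`, `ρ` the `p`-th root -/
theorem gn_psi (h0 : t ≠ 0) (ht : ∀ a : k, ∃ y : ℕ → k, a = ∑ i ∈ Finset.range p, t ^ i * y i ^ p)
    (φ : AlgebraicClosure k →ₗ[k] k) : ∃ (ψ : AlgebraicClosure k →ₗ[k] k)
      (φ' : ℕ → AlgebraicClosure k →ₗ[k] k), φ' 0 = φ ∧
        ∀ a, ψ (a ^ p) = ∑ i ∈ Finset.range p, t ^ i * φ' i a ^ p := by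
  let ρ := (frobeniusEquiv (AlgebraicClosure k) p).symm
  have hρ : ∀ a, ρ (a ^ p) = a := fun a => (frobeniusEquiv _ p).symm_apply_apply a
  obtain ⟨s, hs⟩ : ∃ s : AlgebraicClosure k, s ^ p = algebraMap k _ t⁻¹ :=
    (frobeniusEquiv _ p).surjective _
  have hp : p ≠ 0 := (Fact.out : p.Prime).ne_zero
  have hs0 : s ≠ 0 := fun e => (map_ne_zero (algebraMap k (AlgebraicClosure k))).2 (inv_ne_zero h0)
    (by rw [← hs, e, zero_pow hp])
  let ψ : AlgebraicClosure k →+ k := AddMonoidHom.mk'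
    (fun x => ∑ i ∈ Finset.range p, t ^ i * φ (ρ x * s ^ i) ^ p) fun x y => by
      simp only [map_add, add_mul, add_pow_char, mul_add, Finset.sum_add_distrib]
  have hψ : ∀ x, ψ x = ∑ i ∈ Finset.range p, t ^ i * φ (ρ x * s ^ i) ^ p := fun _ => rfl
  have h1 : ∀ (y : k) x, ψ (y ^ p • x) = y ^ p * ψ x := fun y x => by
    rw [hψ, hψ, Algebra.smul_def, map_pow, map_mul, hρ, Finset.mul_sum]
    refine Finset.sum_congr rfl fun i _ => ?_
    rw [mul_assoc, ← Algebra.smul_def, map_smul, smul_eq_mul, mul_pow, mul_left_comm]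
  have h2 : ∀ x, ψ (t • x) = t * ψ x := fun x => by
    have e : ρ (t • x) = s⁻¹ * ρ x := by
      rw [Algebra.smul_def, map_mul, ← inv_inv t, map_inv₀, ← hs, ← inv_pow, hρ]
    have e1 := (Finset.sum_range_succ (fun i => t ^ i * φ (s⁻¹ * ρ x * s ^ i) ^ p) p).symm.trans
      (Finset.sum_range_succ' _ p)
    rw [hs, mul_comm _ (algebraMap k _ t⁻¹), ← Algebra.smul_def, map_smul, smul_eq_mul, ← mul_pow,
      mul_inv_cancel_left₀ h0, pow_zero, pow_zero, one_mul, mul_one, add_left_inj] at e1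
    rw [hψ, hψ, e, e1, Finset.mul_sum]
    refine Finset.sum_congr rfl fun i _ => ?_
    rw [show s⁻¹ * ρ x * s ^ (i + 1) = ρ x * s ^ i by field_simp; ring,
      pow_succ', mul_assoc]
  have h3 : ∀ (i : ℕ) x, ψ (t ^ i • x) = t ^ i * ψ x := fun i => by
    induction i with
    | zero => simp
    | succ i ih => intro x; rw [pow_succ, mul_smul, ih, h2, mul_assoc]
  refine ⟨{ ψ with map_smul' := fun a x => ?_ }, fun i => φ ∘ₗ LinearMap.mulRight k (s ^ i), ?_,
    fun a => ?_⟩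
  · obtain ⟨y, rfl⟩ := ht a
    show ψ _ = _ * ψ x
    rw [Finset.sum_smul, map_sum, RingHom.id_apply, Finset.sum_mul]
    exact Finset.sum_congr rfl fun i _ => by rw [mul_smul, h3, h1, mul_assoc]
  · ext a
    simp
  · exact (hψ _).trans (by rw [hρ]; rfl)

/-- `tev ψ (z ^ p) = ∑ t ^ i * tev (φ' i) z ^ p` -/
theorem gn_root (h0 : t ≠ 0) (ht : ∀ a : k, ∃ y : ℕ → k, a = ∑ i ∈ Finset.range p, t ^ i * y i ^ p)
    (h2 : ∀ c : ℕ → F, ∑ i ∈ Finset.range p, algebraMap k F t ^ i * c i ^ p ∈ A → c 0 ∈ A)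
    {z : AlgebraicClosure k ⊗[k] F} (h : ∀ ψ, tev ψ (z ^ p) ∈ A)
    (φ : AlgebraicClosure k →ₗ[k] k) : tev φ z ∈ A := by
  obtain ⟨ψ, φ', rfl, e⟩ := gn_psi h0 ht φ
  have := tev_char (k := k) (K := AlgebraicClosure k) (F := F) p
  have := charP_of_injective_algebraMap (algebraMap k F).injective p
  have hp : p ≠ 0 := (Fact.out : p.Prime).ne_zero
  have key : ∀ z : AlgebraicClosure k ⊗[k] F, tev ψ (z ^ p) =
      ∑ i ∈ Finset.range p, algebraMap k F t ^ i * tev (φ' i) z ^ p := fun z => by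
    induction z using TensorProduct.induction_on with
    | zero => simp [zero_pow hp]
    | tmul a x =>
      rw [Algebra.TensorProduct.tmul_pow, tev_tmul, e, Finset.sum_smul]
      refine Finset.sum_congr rfl fun i _ => ?_
      rw [tev_tmul, smul_pow, mul_smul, Algebra.smul_def, map_pow]
    | add x y hx hy =>
      simp only [add_pow_char, map_add, hx, hy, mul_add, Finset.sum_add_distrib]
  exact h2 (fun i => tev (φ' i) z) (key z ▸ h ψ)

/-- `z ^ p ^ n` has separable coefficients for large `n` -/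
theorem gn_main (h0 : t ≠ 0) (ht : ∀ a : k, ∃ y : ℕ → k, a = ∑ i ∈ Finset.range p, t ^ i * y i ^ p)
    (hk : ∀ a, algebraMap k F a ∈ A) (h1 : ∀ y, IsIntegral A y → y ∈ A)
    (h2 : ∀ c : ℕ → F, ∑ i ∈ Finset.range p, algebraMap k F t ^ i * c i ^ p ∈ A → c 0 ∈ A)
    {z : AlgebraicClosure k ⊗[k] F} (hz : IntT A z) (φ : AlgebraicClosure k →ₗ[k] k) :
    tev φ z ∈ A := by
  have := tev_char (k := k) (K := AlgebraicClosure k) (F := F) p
  have key : ∀ n : ℕ, (∀ ψ, tev ψ (z ^ p ^ n) ∈ A) → ∀ ψ, tev ψ z ∈ A := fun n => by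
    induction n with
    | zero => simp
    | succ n ih => exact fun h => ih (gn_root h0 ht h2 fun ψ => by rw [← pow_mul]; exact h ψ)
  have hs : ∀ a : AlgebraicClosure k, ∃ n : ℕ, a ^ p ^ n ∈ separableClosure k _ := fun a => by
    have := charP_of_injective_algebraMap
      (algebraMap k (separableClosure k (AlgebraicClosure k))).injective p
    obtain ⟨n, y, e⟩ := IsPurelyInseparable.pow_mem (separableClosure k (AlgebraicClosure k)) p a
    exact ⟨n, e ▸ y.2⟩
  choose m hm using hs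
  obtain ⟨S, rfl⟩ := TensorProduct.exists_finset z
  refine key (S.sup fun q => m q.1) (fun ψ => ?_) φ
  have hz' : IntT A ((∑ q ∈ S, q.1 ⊗ₜ[k] q.2) ^ p ^ S.sup fun q => m q.1) := by
    let := ((Algebra.TensorProduct.includeRight :
      F →ₐ[k] AlgebraicClosure k ⊗[k] F).toRingHom.comp A.subtype).toAlgebra
    exact IsIntegral.pow (R := A) hz _
  rw [sum_pow_char_pow, ← Finset.sum_coe_sort] at hz' ⊢
  simp only [Algebra.TensorProduct.tmul_pow] at hz' ⊢
  refine gn_sep hk h1 (fun q => ?_) _ hz' ψ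
  obtain ⟨d, e⟩ := Nat.exists_eq_add_of_le (Finset.le_sup (f := fun q => m q.1) q.2)
  rw [e, pow_add, pow_mul]
  exact mem_separableClosure_iff.1 (pow_mem (hm _) _)

/-- `z = (1 ⊗ u) H` has `z ^ p - u ^ (p - 1) z` integral over `A` -/
theorem gn_as (hk : ∀ a, algebraMap k F a ∈ A) {I : Type} [Fintype I] {u : F} {b : I → F}
    (hu : u ∈ A) (hb : ∀ i, u * b i ∈ A) {a : I → AlgebraicClosure k} {c : AlgebraicClosure k}
    {H : AlgebraicClosure k ⊗[k] F} (h : H ^ p - H = ∑ i, a i ⊗ₜ[k] b i - c ⊗ₜ[k] (1 : F)) :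
    IntT A ((1 : AlgebraicClosure k) ⊗ₜ[k] u * H) := by
  let _ := ((Algebra.TensorProduct.includeRight : F →ₐ[k] AlgebraicClosure k ⊗[k] F).toRingHom.comp
    A.subtype).toAlgebra
  obtain ⟨n, rfl⟩ := Nat.exists_eq_add_of_le' (Fact.out : p.Prime).two_le
  have hm := Polynomial.monic_X_pow_sub_C ((⟨u, hu⟩ : A) ^ (n + 1)) n.add_one_ne_zero
  refine IsIntegral.of_aeval_monic (hm.mul Polynomial.monic_X)
    (by rw [Polynomial.natDegree_mul_X hm.ne_zero]; exact Nat.succ_ne_zero _) ?_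
  have h1 : IntT A ((1 : AlgebraicClosure k) ⊗ₜ[k] u * (H ^ (n + 2) - H)) := by
    simp only [h, mul_sub, Finset.mul_sum, Algebra.TensorProduct.tmul_mul_tmul, one_mul, mul_one]
    exact (tgn1_sum _ fun i => tgn1_tmul hk _ (hb i)).sub _ (tgn1_tmul hk _ hu)
  have h2 := (IsIntegral.pow (tgn1_tmul hk 1 hu) (n + 1)).mul h1
  rw [map_mul, map_sub, map_pow, Polynomial.aeval_X, Polynomial.aeval_C, map_pow]
  change IsIntegral A ((_ - ((1 : AlgebraicClosure k) ⊗ₜ[k] u) ^ (n + 1)) * _)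
  exact (congrArg _ (by ring)).mp h2

end Pool.Agent.ZFN
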