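import Pool.Agent.Lib.MP_751085_ag.ZF.N.TD1

/-! Parts of a `p`-basis are regular sequences and generate radical ideals. -/

namespace Pool.Agent.ZFd

open scoped Classical

variable {F ι : Type} [Field F] {A O : Subring F} {f : ι → F} {T : Set ι} {j : ι} {a y : F}

theorem mem_idS (ha : a ∈ A) (hj : j ∈ T) : a * f j ∈ idS A f T :=
  AddSubgroup.subset_closure ⟨a, ha, j, hj, rfl⟩

theorem idS_ind {U : AddSubgroup F} (h : ∀ a ∈ A, ∀ j ∈ T, a * f j ∈ U) : idS A f T ≤ U :=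
  (AddSubgroup.closure_le U).2 fun _ ⟨a, ha, j, hj, e⟩ => e ▸ h a ha j hj

theorem idS_mul (ha : a ∈ A) (hy : y ∈ idS A f T) : a * y ∈ idS A f T :=
  idS_ind (U := (idS A f T).comap (AddMonoidHom.mulLeft a)) (fun b hb _ hj =>
    (mul_assoc a b _ ▸ mem_idS (mul_mem ha hb) hj : a * (b * _) ∈ _)) hy

theorem idS_le (hf : ∀ j ∈ T, f j ∈ A) : idS A f T ≤ A.toAddSubgroup :=
  idS_ind fun _ ha j hj => A.mul_mem ha (hf j hj)

theorem idS_empty (A : Subring F) (f : ι → F) : idS A f ∅ = ⊥ :=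
  le_bot_iff.1 (idS_ind fun _ _ _ h => h.elim)

theorem mem_idS_insert : y ∈ idS A f (insert j T) ↔ ∃ x ∈ idS A f T, ∃ a ∈ A, x + f j * a = y := by
  refine ⟨fun h => ?_, ?_⟩
  · have := idS_ind (U := idS A f T ⊔ A.toAddSubgroup.map (AddMonoidHom.mulLeft (f j)))
      (fun a ha i hi => hi.elim (fun e => AddSubgroup.mem_sup_right ⟨a, ha, e ▸ mul_comm _ _⟩)
        fun hi => AddSubgroup.mem_sup_left (mem_idS ha hi)) h
    obtain ⟨x, hx, _, ⟨a, ha, rfl⟩, e⟩ := AddSubgroup.mem_sup.1 this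
    exact ⟨x, hx, a, ha, e⟩
  · rintro ⟨x, hx, a, ha, rfl⟩
    exact add_mem (idS_ind (U := idS A f (insert j T)) (fun _ hb _ hi => mem_idS hb (Or.inr hi)) hx)
      (mul_comm a _ ▸ mem_idS ha (Or.inl rfl))

theorem idS_of_loc (H : ∀ O, IsLoc A O → y ∈ idS O f T) : y ∈ idS A f T := by
  refine mem_of_loc (μ := RingHom.id F) (A := A) (fun _ ha _ hw => idS_mul ha hw) fun O hO => ?_
  refine AddSubgroup.closure_induction (p := fun y _ => ∃ s ∈ A, Un O s ∧ s * y ∈ idS A f T)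
    ?_ ⟨1, one_mem _, un_one O, by simp⟩ ?_ ?_ (H O hO)
  · rintro _ ⟨a, ha, j, hj, rfl⟩
    obtain ⟨s, hs, hu, h⟩ := hO.frac a ha
    exact ⟨s, hs, hu, mul_assoc s a _ ▸ mem_idS h hj⟩
  · rintro x y - - ⟨s, hs, hu, h⟩ ⟨s', hs', hu', h'⟩
    refine ⟨s' * s, mul_mem hs' hs, hu'.mul hu, ?_⟩
    rw [mul_add, mul_assoc, mul_comm s' s, mul_assoc]
    exact add_mem (idS_mul hs' h) (idS_mul hs h')
  · rintro x - ⟨s, hs, hu, h⟩
    exact ⟨s, hs, hu, mul_neg s x ▸ neg_mem h⟩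

theorem tloc_mono (h : A ≤ O) : idS A f T ≤ idS O f T :=
  idS_ind fun _ ha _ hj => mem_idS (h ha) hj

variable {p m : ℕ} [Fact p.Prime] [CharP F p] {τ : Type} [Fintype τ] {u : τ → F} {S : Set τ}

theorem tloc_val (x : Fin p) : (x + 1 = 0 ∧ (x : ℕ) + 1 = p) ∨
    (x + 1 ≠ 0 ∧ ((x + 1 : Fin p) : ℕ) = x + 1) := by
  have h : ((x + 1 : Fin p) : ℕ) = (x + 1) % p := by rw [Fin.val_add, Fin.val_one', Nat.add_mod_mod]
  rcases (Nat.succ_le_of_lt x.2).eq_or_lt with e | e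
  · exact Or.inl ⟨Fin.ext (by rw [h, show (x : ℕ) + 1 = p from e, Nat.mod_self]; rfl), e⟩
  · rw [Nat.mod_eq_of_lt e] at h
    exact Or.inr ⟨fun e' => by simp [e'] at h, h⟩

omit [CharP F p] in
theorem tloc_mon (u : τ → F) (i : τ) (I : τ → Fin p) :
    u i * mon u I = (if I i + 1 = 0 then u i else 1) ^ p * mon u (I + Pi.single i 1) := by
  have e : ∏ j ∈ Finset.univ.erase i, u j ^ ((I + Pi.single i 1 : τ → Fin p) j : ℕ) =
      ∏ j ∈ Finset.univ.erase i, u j ^ (I j : ℕ) := Finset.prod_congr rfl fun j hj => by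
    rw [Pi.add_apply, Pi.single_eq_of_ne (Finset.ne_of_mem_erase hj), add_zero]
  rw [mon, mon, ← Finset.mul_prod_erase _ _ (Finset.mem_univ i),
    ← Finset.mul_prod_erase _ _ (Finset.mem_univ i), e, Pi.add_apply, Pi.single_eq_same,
    ← mul_assoc, ← mul_assoc, ← pow_succ']
  rcases tloc_val (I i) with ⟨h, h'⟩ | ⟨h, h'⟩
  · rw [if_pos h, h, h']
    simp
  · rw [if_neg h, h', one_pow, one_mul]

theorem tloc_cf (h : PB p O u) (i : τ) (I : τ → Fin p) (y : F) :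
    cf p u (I + Pi.single i 1) (u i * y) = cf p u I y * if I i + 1 = 0 then u i else 1 := by
  have e := h.cf_sum (fun J => cf p u (J - Pi.single i 1) y *
    if (J - Pi.single i 1 : τ → Fin p) i + 1 = 0 then u i else 1) (I + Pi.single i 1)
  rw [add_sub_cancel_right] at e
  rw [← e, ← Equiv.sum_comp (Equiv.addRight (Pi.single i 1 : τ → Fin p))]
  refine congrArg _ ?_
  conv_lhs => rw [← h.sum_cf y, Finset.mul_sum]
  refine Finset.sum_congr rfl fun J _ => ?_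
  rw [Equiv.coe_addRight, add_sub_cancel_right, mul_left_comm, tloc_mon, mul_pow, mul_assoc]

theorem PB.cf_idS (h : PB p O u) (ha : a ∈ idS O u S) {I : τ → Fin p}
    (hI : ∀ s ∈ S, (I s : ℕ) = 0) : cf p u I a ∈ idS O u S := by
  refine idS_ind (U := (idS O u S).comap (AddMonoidHom.mk' (cf p u I) (h.cf_add I)))
    (fun b hb s hs => ?_) ha
  have e := tloc_cf h s (I - Pi.single s 1) b
  rw [sub_add_cancel, if_pos (by simpa using Fin.ext (hI s hs)), mul_comm] at e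
  exact (e ▸ mem_idS (h.cf_mem _ hb) hs : cf p u I (b * u s) ∈ _)

theorem tloc_one (h : PB p O u) (a : F) : cf p u 0 (a ^ p) = a := by
  have e := h.cf_sum (Pi.single 0 a) 0
  rwa [Finset.sum_eq_single 0 (fun J _ hJ => by
    rw [Pi.single_eq_of_ne hJ, zero_pow (Fact.out : p.Prime).ne_zero, zero_mul])
    (fun hJ => absurd (Finset.mem_univ _) hJ), Pi.single_eq_same, pb2_mon_zero, mul_one] at e

theorem PB.idS_pow (h : PB p O u) (ha : a ^ p ∈ idS O u S) : a ∈ idS O u S :=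
  tloc_one h a ▸ h.cf_idS ha fun _ _ => rfl

omit [CharP F p] in
theorem tloc_dvd (h : PB p O u) {I : τ → Fin p} {s : τ} (hs : (I s : ℕ) ≠ 0) :
    ∃ b ∈ O, mon u I = b * u s := by
  obtain ⟨n, hn⟩ := Nat.exists_eq_succ_of_ne_zero hs
  refine ⟨(∏ j ∈ Finset.univ.erase s, u j ^ (I j : ℕ)) * u s ^ n, mul_mem (prod_mem fun j _ =>
    pow_mem (h.mem j) _) (pow_mem (h.mem s) n), ?_⟩
  rw [mon, ← Finset.prod_erase_mul _ _ (Finset.mem_univ s), hn, pow_succ, mul_assoc]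

/-- the ideal of `O` given by a subgroup -/
def tloc_id (O : Subring F) (U : AddSubgroup F) (h : ∀ a ∈ O, ∀ y ∈ U, a * y ∈ U) : Ideal O where
  carrier := {a | (a : F) ∈ U}
  add_mem' := U.add_mem
  zero_mem' := U.zero_mem
  smul_mem' c a ha := h c c.2 a ha

theorem PB.idS_reg [IsNoetherianRing O] (h : PB p O u) (hO : IsLoc O O) {i : τ} (hi : i ∉ S)
    (hu : ¬Un O (u i)) (hy : y ∈ O) (H : u i * y ∈ idS O u S) : y ∈ idS O u S := by
  have := hO.isLocalRing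
  have hp := (Fact.out : p.Prime).two_le
  let J := tloc_id O (idS O u S) fun _ ha _ => idS_mul ha
  let Q := tloc_id O ((idS O u S).comap (AddMonoidHom.mulLeft (u i))) fun a ha y hy =>
    (mul_left_comm a _ y ▸ idS_mul ha hy : u i * (a * y) ∈ _)
  refine Submodule.le_of_le_smul_of_le_jacobson_bot (N := J) (N' := Q)
    (I := IsLocalRing.maximalIdeal O) (IsNoetherian.noetherian Q)
    (IsLocalRing.maximalIdeal_le_jacobson _) (fun z hz => ?_) (show (⟨y, hy⟩ : O) ∈ Q from H)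
  have e : z = ∑ I, (⟨cf p u I z, h.cf_mem I z.2⟩ ^ p * ⟨mon u I, h.mon_mem I⟩ : O) :=
    Subtype.ext (by rw [AddSubmonoidClass.coe_finsetSum]; exact (h.sum_cf z).symm)
  rw [e]
  refine sum_mem fun I _ => ?_
  by_cases hI : ∀ s ∈ S, (I s : ℕ) = 0
  · have e1 := h.cf_idS (a := u i * z) hz (I := I + Pi.single i 1) fun s hs => by
      rw [Pi.add_apply, Pi.single_eq_of_ne (ne_of_mem_of_not_mem hs hi), add_zero, hI s hs]
    rw [tloc_cf h] at e1
    rcases tloc_val (I i) with ⟨h1, h2⟩ | ⟨h1, -⟩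
    · rw [if_pos h1, mul_comm] at e1
      obtain ⟨b, hb, e2⟩ := tloc_dvd h (I := I) (s := i) (by omega)
      refine Submodule.mem_sup_right (mul_comm (G := O) _ _ ▸ Ideal.mul_mem_mul ?_
        (Q.pow_mem_of_mem (a := ⟨_, h.cf_mem I z.2⟩) e1 p (by omega)))
      rw [show (⟨mon u I, h.mon_mem I⟩ : O) = ⟨b, hb⟩ * ⟨u i, h.mem i⟩ from Subtype.ext e2]
      exact Ideal.mul_mem_left _ _ fun h => hu ((un_iff _).2 h)
    · rw [if_neg h1, mul_one] at e1
      exact Submodule.mem_sup_left (J.mul_mem_right _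
        (J.pow_mem_of_mem (a := ⟨_, h.cf_mem I z.2⟩) e1 p (by omega)))
  · push Not at hI
    obtain ⟨s, hs, h1⟩ := hI
    obtain ⟨b, hb, e2⟩ := tloc_dvd h h1
    exact Submodule.mem_sup_left (J.mul_mem_left _ (show mon u I ∈ _ from e2 ▸ mem_idS hb hs))

theorem tloc_img {e : ι → τ} (h : ∀ j ∈ T, u (e j) = f j) : idS O u (e '' T) = idS O f T :=
  le_antisymm (idS_ind fun _ ha _ ⟨j, hj, e⟩ => e ▸ h j hj ▸ mem_idS ha hj)
    (idS_ind fun _ ha j hj => h j hj ▸ mem_idS ha ⟨j, hj, rfl⟩)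

theorem tloc_un (hj : j ∈ T) (h : Un O (f j)) (hy : y ∈ O) : y ∈ idS O f T :=
  div_mul_cancel₀ y h.2.1 ▸ mem_idS (h.div_mem hy) hj

theorem idS_reg (hA : Sm p m A) (hf : ∀ j, f j ∈ A) (h : LPB p A f) (hj : j ∉ T) (hy : y ∈ A)
    (H : f j * y ∈ idS A f T) : y ∈ idS A f T := by
  refine idS_of_loc fun O hO => ?_
  have H' := tloc_mono hO.le H
  by_cases h1 : ∀ s ∈ insert j T, ¬Un O (f s)
  · obtain ⟨_, u, e, hu, he, h2⟩ := h O hO _ h1
    have := (hA.reg hO).1.noeth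
    rw [← tloc_img fun s hs => h2 s (Or.inr hs)] at H' ⊢
    rw [← h2 j (Or.inl rfl)] at H'
    exact hu.idS_reg hO.self (fun ⟨s, hs, e⟩ => hj (he (Or.inr hs) (Or.inl rfl) e ▸ hs))
      (h2 j (Or.inl rfl) ▸ h1 j (Or.inl rfl)) (hO.le hy) H'
  · push Not at h1
    obtain ⟨s, rfl | hs, h2⟩ := h1
    · exact inv_mul_cancel_left₀ h2.2.1 y ▸ idS_mul h2.2.2 H'
    · exact tloc_un hs h2 (hO.le hy)

theorem idS_rad (hf : ∀ j, f j ∈ A) (h : LPB p A f) (hy : y ∈ A) {N : ℕ}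
    (H : y ^ N ∈ idS A f T) : y ∈ idS A f T := by
  refine idS_of_loc fun O hO => ?_
  by_cases h1 : ∀ s ∈ T, ¬Un O (f s)
  · obtain ⟨_, u, e, hu, -, h2⟩ := h O hO _ h1
    have H' : y ^ p ^ N ∈ idS O f T := by
      rw [← Nat.sub_add_cancel (Nat.lt_pow_self (Fact.out : p.Prime).one_lt (n := N)).le, pow_add]
      exact tloc_mono hO.le (idS_mul (pow_mem hy _) H)
    rw [← tloc_img h2] at H' ⊢
    clear H
    induction N with
    | zero => simpa using H'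
    | succ N ih => exact ih (hu.idS_pow (by rwa [← pow_mul, ← pow_succ]))
  · push Not at h1
    obtain ⟨s, hs, h2⟩ := h1
    exact tloc_un hs h2 (hO.le hy)

theorem tloc_mem (H : ∀ O, IsLoc A O → y ∈ O) : y ∈ A :=
  mem_of_loc (μ := RingHom.id F) (A := A) (M := A.toAddSubgroup) (fun _ ha _ hw => A.mul_mem ha hw)
    fun O hO => hO.frac y (H O hO)

theorem Sm.normal (hA : Sm p m A) (hy : IsIntegral A y) : y ∈ A := by
  refine tloc_mem fun O hO => ?_
  have := (hA.reg hO).ufd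
  have : IsFractionRing O F := (isLocalization_iff _ _).2 ⟨fun s => IsUnit.mk0 _ fun e =>
    nonZeroDivisors.ne_zero s.2 (Subtype.ext e), fun z => by
      obtain ⟨s, hs, h0, h⟩ := (hA.reg hO).1.frac z
      exact ⟨⟨⟨_, h⟩, ⟨⟨s, hs⟩, mem_nonZeroDivisors_of_ne_zero fun e =>
        h0 (congrArg Subtype.val e)⟩⟩, mul_comm z s⟩, fun e => ⟨1, by rw [Subtype.ext e]⟩⟩
  obtain ⟨P, hP, e⟩ := hy
  obtain ⟨z, rfl⟩ := IsIntegrallyClosed.isIntegral_iff.1 (show IsIntegral O y from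
    ⟨P.map (Subring.inclusion hO.le), hP.map _, by rw [Polynomial.eval₂_map]; exact e⟩)
  exact z.2

theorem tloc_comp (hu : PB p O u) (j : τ) {c : ℕ → F}
    (H : ∑ i ∈ Finset.range p, u j ^ i * c i ^ p ∈ O) : c 0 ∈ O := by
  have e := hu.cf_sum (fun I => if I = Pi.single j (I j) then c (I j) else 0) 0
  rw [if_pos (by simp)] at e
  have e' : ∑ I : τ → Fin p, (if I = Pi.single j (I j) then c (I j) else 0) ^ p * mon u I =
      ∑ i ∈ Finset.range p, u j ^ i * c i ^ p := by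
    rw [Finset.sum_range, ← Finset.sum_fiberwise (g := fun I => I j) Finset.univ]
    refine Finset.sum_congr rfl fun i _ => ?_
    rw [Finset.sum_eq_single (Pi.single j i) (fun I hI hn => by
      rw [(Finset.mem_filter.1 hI).2, if_neg hn, zero_pow (Fact.out : p.Prime).ne_zero, zero_mul])
      (by simp), Pi.single_eq_same, if_pos rfl, mon, Finset.prod_eq_single j
      (fun l _ hl => by simp [hl]) (by simp), Pi.single_eq_same, mul_comm]
  have h1 := hu.cf_mem 0 H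
  rwa [← e', e] at h1

theorem comp_mem {t : F} (h : ∀ O, IsLoc A O → ∃ u : Fin (m + 1) → F, PB p O u ∧ u 0 = t)
    {c : ℕ → F} (H : ∑ i ∈ Finset.range p, t ^ i * c i ^ p ∈ A) : c 0 ∈ A :=
  tloc_mem fun O hO => by
    obtain ⟨u, hu, rfl⟩ := h O hO
    exact tloc_comp hu 0 (hO.le H)

end Pool.Agent.ZFd
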