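import Pool.Agent.Lib.MP_751085_ag.ZF.N.TSpr

/-! Absolute irreducibility is kept by almost all reductions. -/

namespace Pool.Agent.ZFN

open Pool.Agent.ZCy Polynomial Filter
open Pool.Agent.ZeroCyc (mp e2)
open scoped Classical

theorem tost_coeff {R : Type} [CommRing R] (P : R[X][X]) (i j : ℕ) :
    ((Bivariate.swap P).coeff j).coeff i = (P.coeff i).coeff j := by
  induction P using Polynomial.induction_on' with
  | add P Q h1 h2 => simp only [map_add, coeff_add, h1, h2]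
  | monomial n f =>
    induction f using Polynomial.induction_on' with
    | add f g h1 h2 => simp only [map_add, coeff_add, h1, h2]
    | monomial m r =>
      rw [Bivariate.swap_monomial_monomial]
      by_cases h1 : n = i <;> by_cases h2 : m = j <;> simp [coeff_monomial, h1, h2]

theorem tost_swap {R : Type} [CommRing R] {P : R[X][X]} {D : ℕ} :
    (∀ i, (P.coeff i).natDegree ≤ D) ↔ (Bivariate.swap P).natDegree ≤ D := by
  simp only [natDegree_le_iff_coeff_eq_zero, Polynomial.ext_iff, tost_coeff, coeff_zero]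
  exact ⟨fun h N hN i => h i N hN, fun h i N hN => h N hN i⟩

/-- the degree in the inner variable is additive -/
theorem ost_dg {M : Type} [Field M] {g h : M[X][X]} {D : ℕ} (H : Dg D (g * h)) (h0 : g * h ≠ 0) :
    Dg D g ∧ Dg D h := by
  have hg := left_ne_zero_of_mul h0
  have hh := right_ne_zero_of_mul h0
  have h1 := H.1
  have h2 := tost_swap.1 H.2
  rw [natDegree_mul hg hh] at h1
  rw [map_mul, natDegree_mul ((map_ne_zero_iff _ Bivariate.swap.injective).2 hg)
    ((map_ne_zero_iff _ Bivariate.swap.injective).2 hh)] at h2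
  exact ⟨⟨by omega, tost_swap.2 (by omega)⟩, by omega, tost_swap.2 (by omega)⟩

theorem tost_lt {R : Type} [CommRing R] {B : ℕ} (i : ℕ) (y : Fin B × Fin B → R) :
    (PY fun q => if (q.1 : ℕ) < i then y q else 0).degree < i := by
  refine (degree_lt_iff_coeff_zero _ _).2 fun m hm => ?_
  rw [PY, finsetSum_coeff]
  refine Finset.sum_eq_zero fun q _ => ?_
  rw [coeff_monomial]
  split_ifs with h1 h2
  exacts [by omega, monomial_zero_right _, rfl]

theorem tost_form {R : Type} [CommRing R] {D : ℕ} {f : R[X][X]} (hm : f.Monic) (hD : Dg D f) :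
    ∃ y : Fin (D + 1) × Fin (D + 1) → R,
      f = X ^ f.natDegree + PY fun q => if (q.1 : ℕ) < f.natDegree then y q else 0 := by
  have h1 : Dg D f.eraseLead := ⟨eraseLead_natDegree_le_aux.trans hD.1, fun i => by
    rw [eraseLead_coeff]
    split_ifs
    exacts [Nat.zero_le _, hD.2 i]⟩
  refine ⟨fun q => (f.eraseLead.coeff q.1).coeff q.2, ?_⟩
  have h2 : (fun q : Fin (D + 1) × Fin (D + 1) =>
      if (q.1 : ℕ) < f.natDegree then (f.eraseLead.coeff q.1).coeff q.2 else 0) =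
      fun q => (f.eraseLead.coeff q.1).coeff q.2 := funext fun q => by
    split_ifs with h
    · rfl
    · rw [eraseLead_coeff]
      split_ifs with h'
      · rfl
      · rw [coeff_eq_zero_of_natDegree_lt (p := f) (by omega)]
        rfl
  rw [h2, ← exists_PY h1, add_comm]
  exact (eraseLead_add_C_mul_X_pow f).symm.trans (by rw [hm.leadingCoeff, C_1, one_mul])

theorem tost_mp {R T : Type} [CommRing R] [CommRing T] (φ : R →+* T) {B : ℕ} (i : ℕ)
    (y : Fin B × Fin B → R) : mp φ (X ^ i + PY fun q => if (q.1 : ℕ) < i then y q else 0) =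
      X ^ i + PY fun q => if (q.1 : ℕ) < i then φ (y q) else 0 := by
  simp only [map_add, map_pow, mp_PY, apply_ite φ, map_zero, coe_mapRingHom, map_X]

/-- the factors `Z ^ i + …` with the lower terms given by `PY` -/
theorem ost_irr {M : Type} [Field M] {χ : M[X][X]} {D : ℕ} (hm : χ.Monic) (hD : Dg D χ)
    (h1 : χ ≠ 1) : Irreducible χ ↔ ∀ i j : ℕ, 0 < i → 0 < j → i ≤ D → j ≤ D →
      ∀ y y' : Fin (D + 1) × Fin (D + 1) → M,
        χ ≠ (X ^ i + PY fun q => if (q.1 : ℕ) < i then y q else 0) *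
          (X ^ j + PY fun q => if (q.1 : ℕ) < j then y' q else 0) := by
  have d : ∀ (i : ℕ) (y : Fin (D + 1) × Fin (D + 1) → M),
      (X ^ i + PY fun q => if (q.1 : ℕ) < i then y q else 0 : M[X][X]).natDegree = i := fun i y =>
    (natDegree_add_eq_left_of_degree_lt (by
      rw [degree_X_pow]
      exact tost_lt i y)).trans (natDegree_X_pow i)
  rw [hm.irreducible_iff_natDegree, and_iff_right h1]
  constructor
  · intro h i j h2 h3 _ _ y y' e
    have h4 := h _ _ (monic_X_pow_add (tost_lt i y)) (monic_X_pow_add (tost_lt j y')) e.symm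
    rw [d, d] at h4
    omega
  · rintro h f g hf hg rfl
    obtain ⟨h2, h3⟩ := ost_dg hD hm.ne_zero
    obtain ⟨y, hy⟩ := tost_form hf h2
    obtain ⟨y', hy'⟩ := tost_form hg h3
    by_contra h4
    exact h _ _ (by omega) (by omega) h2.1 h3.1 y y' (congrArg₂ (· * ·) hy hy')

variable {V k : Type} [Field k] {𝓕 : Filter V} {S : V → Type} [∀ v, CommRing (S v)]
  {ι : ∀ v, S v →+* k} (hi : ∀ v, Function.Injective (ι v))
  (he : ∀ t, ∀ᶠ v in 𝓕, t ∈ (ι v).range)

include hi he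

/-- `spr_eq` with `q = 1` for each pair of degrees -/
theorem ost_main {χ : k[X][X]} (hm : χ.Monic)
    (h : Irreducible (mp (algebraMap k (AlgebraicClosure k)) χ)) :
    ∀ᶠ v in 𝓕, ∀ χ' : (S v)[X][X], mp (ι v) χ' = χ → ∀ (Ω : Type) [Field Ω] (ψ : S v →+* Ω),
      Irreducible (mp ψ χ') := by
  obtain ⟨D, hD, -⟩ := exists_Dg χ fun _ : Unit => 0
  have h1 := (ost_irr (hm.map _) (hD.map _) h.ne_one).1 h
  let E : ∀ (R : Type) [CommRing R], R[X][X] → ℕ → ℕ →
      (MP ((Fin (D + 1) × Fin (D + 1)) ⊕ (Fin (D + 1) × Fin (D + 1))) R)[X][X] := fun R _ P i j =>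
    mp MvPolynomial.C P - (X ^ i + PY fun q => if (q.1 : ℕ) < i then .X (.inl q) else 0) *
      (X ^ j + PY fun q => if (q.1 : ℕ) < j then .X (.inr q) else 0)
  have hE : ∀ {R T : Type} [CommRing R] [CommRing T] (ψ : R →+* T) (x : _ → T) (P : R[X][X]) i j,
      mp (MvPolynomial.eval₂Hom ψ x) (E R P i j) = mp ψ P -
        (X ^ i + PY fun q => if (q.1 : ℕ) < i then x (.inl q) else 0) *
          (X ^ j + PY fun q => if (q.1 : ℕ) < j then x (.inr q) else 0) := fun ψ x P i j => by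
    simp only [E, map_sub, map_mul, tost_mp, mp_mp, MvPolynomial.eval₂Hom_comp_C,
      MvPolynomial.eval₂Hom_X']
  have h2 := fun (a : {a : Fin (D + 1) × Fin (D + 1) // 0 < (a.1 : ℕ) ∧ 0 < (a.2 : ℕ)}) =>
    spr_eq hi he (E k χ a.1.1 a.1.2) 1 fun x hx => (h1 _ _ a.2.1 a.2.2 (Nat.lt_succ_iff.1 a.1.1.2)
      (Nat.lt_succ_iff.1 a.1.2.2) _ _ (sub_eq_zero.1 ((hE _ x χ _ _).symm.trans hx))).elim
  filter_upwards [eventually_all.2 h2] with v hv χ' e Ω _ ψ
  subst e
  have h3 : χ'.Monic := monic_of_injective (map_injective _ (hi v)) hm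
  refine (ost_irr (h3.map _) ((hD.of_mp (hi v)).map ψ) fun e => ?_).2
    fun i j a1 a2 a3 a4 y y' e => ?_
  · have h4 := (h3.natDegree_map (mapRingHom ψ)).symm.trans ((congrArg natDegree e).trans
      natDegree_one)
    exact h.ne_one (by rw [h3.natDegree_eq_zero.1 h4, map_one, map_one])
  · refine one_ne_zero ((MvPolynomial.eval₂_one _ _).symm.trans (hv ⟨(⟨i, by omega⟩, ⟨j, by omega⟩),
      a1, a2⟩ (E _ χ' i j) 1 ?_ (map_one _) Ω ψ (Sum.elim y y')
        ((hE _ _ χ' _ _).trans (sub_eq_zero.2 e))))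
    rw [MvPolynomial.map_eq_eval₂Hom_C_comp, hE, ← mp_mp]

/-- a nonzero coefficient is a unit at almost all `v` -/
theorem ost_ne {ϑ : k[X]} (h : ϑ ≠ 0) : ∀ᶠ v in 𝓕, ∀ ϑ' : (S v)[X], ϑ'.map (ι v) = ϑ →
    ∀ (Ω : Type) [Field Ω] (ψ : S v →+* Ω), ϑ'.map ψ ≠ 0 := by
  filter_upwards [lf_unit he hi (leadingCoeff_ne_zero.2 h).isUnit] with v hv ϑ' e Ω _ ψ h0
  have h1 := ((hv (ϑ'.coeff ϑ.natDegree) (by rw [← coeff_map, e]; rfl)).map ψ).ne_zero
  rw [← coeff_map, h0] at h1
  exact h1 rfl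

/-- `ost_ne` for the leading coefficient of `L %ₘ χ` -/
theorem ost_ndvd {χ L : k[X][X]} (hm : χ.Monic) (h : ¬χ ∣ L) :
    ∀ᶠ v in 𝓕, ∀ χ' L' : (S v)[X][X], mp (ι v) χ' = χ → mp (ι v) L' = L →
      ∀ (Ω : Type) [Field Ω] (ψ : S v →+* Ω), ¬mp ψ χ' ∣ mp ψ L' := by
  have h1 := leadingCoeff_ne_zero.2 (mt (modByMonic_eq_zero_iff_dvd hm).1 h)
  filter_upwards [ost_ne hi he h1] with v hv χ' L' e1 e2 Ω _ ψ h0
  subst e1 e2
  have h3 : χ'.Monic := monic_of_injective (map_injective _ (hi v)) hm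
  refine hv ((L' %ₘ χ').coeff (mp (ι v) L' %ₘ mp (ι v) χ').natDegree)
    ((coeff_map (mapRingHom (ι v)) _).symm.trans (by rw [map_modByMonic _ h3]; rfl)) Ω ψ
    ((coeff_map (mapRingHom ψ) _).symm.trans ?_)
  rw [map_modByMonic _ h3]
  exact congrArg (coeff · _) ((modByMonic_eq_zero_iff_dvd (h3.map _)).2 h0)

end Pool.Agent.ZFN
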