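import Pool.Agent.Lib.MP_751085_ag.ZF.N.TLoc

/-! Vanishing for the ideal sheaf of a complete intersection. -/

namespace Pool.Agent.ZFd

open scoped Classical

variable {F κ ι W W' : Type} [Field F] [AddCommGroup W] [Module F W] [AddCommGroup W'] [Module F W']
  {z : κ → F} {A : κ → Subring F} {E : κ → AddSubgroup W} {E' : κ → AddSubgroup W'} {f : ι → F}
  {d : ℕ} {T : Set ι} {j : ι}

theorem Bun.prod (H : Bun z A E) (H' : Bun z A E') : Bun z A fun i => (E i).prod (E' i) := by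
  refine ⟨H.ne, H.mem, fun i c hc w hw => ⟨H.smul i c hc _ hw.1, H'.smul i c hc _ hw.2⟩,
    fun i j w hw => ?_⟩
  obtain ⟨N, h⟩ := H.cmp i j _ hw.1
  obtain ⟨N', h'⟩ := H'.cmp i j _ hw.2
  exact ⟨N + N', H.pow_smul h (N.le_add_right N'), H'.pow_smul h' (N'.le_add_left N)⟩

theorem Bun.tw_prod [Fintype κ] (H : Bun z A E) (H' : Bun z A E') (m : ℤ) (s : Set κ) :
    tw z (fun i => (E i).prod (E' i)) m s = (tw z E m s).prod (tw z E' m s) := by
  rcases s.eq_empty_or_nonempty with rfl | ⟨i, hi⟩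
  · simp only [tw_empty, AddSubgroup.bot_prod_bot]
  ext x
  rw [(H.prod H').mem_tw hi, AddSubgroup.mem_prod, H.mem_tw hi, H'.mem_tw hi]
  exact ⟨fun ⟨N, h⟩ => ⟨⟨N, h.1⟩, N, h.2⟩, fun ⟨⟨N, h⟩, N', h'⟩ =>
    ⟨N + N', tw_up H h (N.le_add_right N'), tw_up H' h' (N'.le_add_left N)⟩⟩

theorem bun_IS (H : Bun z A (oS A)) (f : ι → F) (d : ℕ) (T : Set ι) : Bun z A (IS z A f d T) := by
  have hs : ∀ i, ∀ a ∈ A i, ∀ w ∈ IS z A f d T i, a * w ∈ IS z A f d T i :=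
    fun _ _ ha _ hw => idS_mul ha hw
  refine ⟨H.ne, H.mem, hs, fun i j w hw => ?_⟩
  refine AddSubgroup.closure_induction
    (p := fun w _ => ∃ N : ℕ, (z i / z j) ^ N * w ∈ IS z A f d T j) ?_ ⟨0, by simp⟩ ?_ ?_ hw
  · rintro _ ⟨a, ha, s, hs, rfl⟩
    obtain ⟨N, hN⟩ := H.cmp i j a ha
    refine ⟨N + d, ?_⟩
    have e : (z i / z j) ^ (N + d) * (a * (f s / z i ^ d)) =
        ((z i / z j) ^ N * a) * (f s / z j ^ d) := by
      have := H.ne i
      rw [pow_add, div_pow _ _ d]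
      field_simp
    exact e ▸ mem_idS (f := fun s => f s / z j ^ d) hN hs
  · rintro x y - - ⟨N, h⟩ ⟨N', h'⟩
    refine ⟨N' + N, ?_⟩
    rw [mul_add, pow_add, mul_assoc, mul_comm (_ ^ N') (_ ^ N), mul_assoc]
    exact add_mem (hs _ _ (pow_mem (H.mem j i) _) _ h) (hs _ _ (pow_mem (H.mem j i) _) _ h')
  · rintro x - ⟨N, h⟩
    exact ⟨N, mul_neg _ x ▸ neg_mem h⟩

/-- `0 → I_T (-d) → I_T ⊕ O (-d) → I_(T + j) → 0` -/
theorem ses_IS (hz : ∀ i, z i ≠ 0) (hf : ∀ i j, f j / z i ^ d ∈ A i)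
    (reg : ∀ i, ∀ y ∈ A i, f j / z i ^ d * y ∈ IS z A f d T i → y ∈ IS z A f d T i) :
    Ses (sh z d (IS z A f d T)) (fun i => (IS z A f d T i).prod (sh z d (oS A) i))
      (IS z A f d (insert j T)) ((LinearMap.mulLeft F (f j)).prod (LinearMap.mulLeft F (-1)))
      ((LinearMap.mulLeft F 1).coprod (LinearMap.mulLeft F (f j))) := by
  have e : ∀ i y, f j / z i ^ d * (z i ^ (d : ℤ) * y) = f j * y := fun i y => by
    rw [zpow_natCast, ← mul_assoc, div_mul_cancel₀ _ (pow_ne_zero d (hz i))]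
  refine ⟨fun x y h => by simpa using congrArg Prod.snd h, fun x => ⟨fun h => ⟨-x.2, ?_⟩, ?_⟩,
    fun i => AddSubgroup.ext fun y => ?_, fun i => AddSubgroup.ext fun y => ?_⟩
  · refine Prod.ext ?_ (by simp)
    have : 1 * x.1 + f j * x.2 = 0 := h
    change f j * -x.2 = x.1
    linear_combination -this
  · rintro ⟨y, rfl⟩
    simp
  · change z i ^ (d : ℤ) * y ∈ IS z A f d T i ↔
      f j * y ∈ IS z A f d T i ∧ z i ^ (d : ℤ) * (-1 * y) ∈ A i
    rw [neg_one_mul, mul_neg, neg_mem_iff, ← e i]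
    exact ⟨fun h => ⟨idS_mul (hf i j) h, idS_le (fun s _ => hf i s) h⟩, fun h => reg i _ h.2 h.1⟩
  · refine mem_idS_insert.trans ⟨?_, ?_⟩
    · rintro ⟨x, hx, a, ha, rfl⟩
      have h : z i ^ (d : ℤ) * ((z i ^ (d : ℤ))⁻¹ * a) = a :=
        mul_inv_cancel_left₀ (zpow_ne_zero _ (hz i)) a
      exact ⟨(x, (z i ^ (d : ℤ))⁻¹ * a), ⟨hx, show _ * _ ∈ A i from h.symm ▸ ha⟩,
        show 1 * x + f j * (_ * a) = _ by rw [one_mul, ← e i, h]⟩
    · rintro ⟨x, hx, rfl⟩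
      exact ⟨x.1, hx.1, _, hx.2, show _ = 1 * x.1 + f j * x.2 by rw [one_mul, ← e i]; rfl⟩

theorem res_van [Fintype κ] (H : Bun z A (oS A)) (hf : ∀ i j, f j / z i ^ d ∈ A i)
    (reg : ∀ i T j, j ∉ T → ∀ y ∈ A i, f j / z i ^ d * y ∈ IS z A f d T i → y ∈ IS z A f d T i)
    {n : ℕ} {m₀ : ℤ} (h0 : ∀ q < n, ∀ m, m₀ ≤ m → Van (tw z (oS A) m) q) (T : Finset ι) (q : ℕ)
    (hq : q + T.card ≤ n) (m : ℤ) (hm : m₀ ≤ m + d) : Van (tw z (IS z A f d T) m) q := by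
  induction T using Finset.induction_on generalizing q m with
  | empty =>
    intro w hw _
    refine ⟨0, fun _ => zero_mem _, cd_zero.trans (funext fun J => ?_)⟩
    obtain ⟨N, h⟩ := ((bun_IS H f d _).mem_tw (Set.mem_range_self 0)).1 (hw J)
    rw [IS, Finset.coe_empty, idS_empty, AddSubgroup.mem_bot, smul_eq_zero] at h
    exact (h.resolve_left
      (mul_ne_zero (pow_ne_zero _ (H.hs_ne _ _)) (zpow_ne_zero _ (H.ne _)))).symm
  | insert j T hj ih =>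
    have hI := bun_IS H f d T
    rw [Finset.card_insert_of_notMem hj] at hq
    rw [Finset.coe_insert]
    refine (ses_IS H.ne hf fun i => reg i T j hj).quot (hI.prod (H.sh d)) ?_ ?_
    · rw [funext (hI.tw_prod (H.sh d) m), funext (H.tw_sh d m)]
      exact (ih q (by omega) m hm).prod (h0 q (by omega) _ hm)
    · rw [funext (hI.tw_sh d m)]
      exact ih _ (by omega) _ (by omega)

end Pool.Agent.ZFd
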