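import Pool.Agent.Lib.MP_751085_ag.ZF.E.Fin
import Pool.Agent.Lib.MP_751085_ag.ZF.N.TRes
import Pool.Agent.Lib.MP_751085_ag.ZF.N.TSe1

/-! Restriction to a complete intersection curve of large degree. -/

namespace Pool.Agent.ZFd

open scoped Classical
open Pool.Agent.ZCy MvPolynomial

variable {k κ : Type} [Field k] {X : Var k} [Fintype κ] [Nonempty κ] {l : κ → Fm X.N k}
  {lf : Fm X.N k} {e m : ℕ} {C : Gen k X.N} {R : Subring X.F} {r : X.F →ₗ[k] C.F}
  {I : κ → AddSubgroup X.F}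

theorem sec_inj (hl : ∀ i, (l i).IsHomogeneous 1) (hf : lf.IsHomogeneous e) (hC : X.On C.g)
    (hr : X.Rs C.g R r) (h0 : aeval C.g lf ≠ 0)
    (hI : Bun (fun i => aeval X.g (l i)) (fun i => X.aff (l i)) I)
    (hk : ∀ i d G, G.IsHomogeneous d → aeval C.g G = 0 → X.fn (l i) d G ∈ I i)
    (hv : Van (tw (fun i => aeval X.g (l i)) I (-(m * e : ℕ))) 0) {φ : X.F}
    (hφ : φ ∈ X.Gam l e lf m) (h : r φ = 0) : φ = 0 := by
  have h1 : aeval X.g lf ≠ 0 := fun e => h0 (hC.2 lf ⟨⟨_, hf⟩, e⟩)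
  refine (mul_eq_zero.1 ((van_zero_iff tw_empty).1 hv (aeval X.g lf ^ m * φ) fun i =>
    hI.mem_tw_one.2 ?_)).resolve_left (pow_ne_zero m h1)
  have hz := hI.ne i
  obtain ⟨d, G, hG, h2⟩ := (mem_aff (hl i) hz).1 (hφ i hz)
  have h3 : aeval X.g (l i) ^ (-(m * e : ℕ) : ℤ) • (aeval X.g lf ^ m * φ) = X.fn (l i) d G := by
    rw [← h2, Var.fn, div_pow, ← pow_mul, mul_comm e, zpow_neg, zpow_natCast, smul_eq_mul]
    ring
  rw [h3]
  by_cases h4 : aeval C.g (l i) = 0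
  · have := hk i _ _ (hG.mul (hl i)) (by rw [map_mul, h4, mul_zero])
    rwa [Var.fn, map_mul, pow_succ, mul_div_mul_right _ _ hz] at this
  refine hk i d G hG ?_
  have h5 := (hr.val (d + e * m) (G * l i ^ (e * m)) (l i ^ d * lf ^ m)
    (by simpa using hG.mul ((hl i).pow (e * m))) (by simpa using ((hl i).pow d).mul (hf.pow m))
    (by simp [h4, h0])).2
  have h6 : aeval X.g (G * l i ^ (e * m)) / aeval X.g (l i ^ d * lf ^ m) = φ := by
    simp only [Var.fn, div_pow, ← pow_mul] at h2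
    simp only [map_mul, map_pow]
    field_simp at h2 ⊢
    exact h2.symm
  rw [h6, h] at h5
  simpa [h4, h0] using h5.symm

/-- For `l i` nonzero on `C` write `C.fn (l i) e lf * ψ = C.fn (l i) d G` and put
`w i = z i ^ e * X.fn (l i) d G`, else `w i = 0`. The differences are sections of `I` (multiply by
powers of `z j / z i` to get a form that vanishes on `C`); `fin_split` gives `w i = c + y i`, and
`φ = c / lf (g)`. -/
theorem sec_surj (hl : ∀ i, (l i).IsHomogeneous 1) (hB : X.B1 l) (hf : lf.IsHomogeneous e)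
    (hC : X.On C.g) (hr : X.Rs C.g R r) (h0 : aeval C.g lf ≠ 0)
    (hI : Bun (fun i => aeval X.g (l i)) (fun i => X.aff (l i)) I)
    (hk : ∀ i d G, G.IsHomogeneous d → aeval C.g G = 0 → X.fn (l i) d G ∈ I i)
    (hk' : ∀ i, ∀ a ∈ I i, a ∈ X.aff (l i) ∧ (aeval C.g (l i) ≠ 0 → r a = 0))
    (hv : Van (tw (fun i => aeval X.g (l i)) I (-e)) 1) {ψ : C.F}
    (hψ : ψ ∈ C.var.Gam l e lf 1) : ∃ φ ∈ X.Gam l e lf 1, r φ = ψ := by
  have h1 : aeval X.g lf ≠ 0 := tse1_ne hC hf h0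
  have hz := hI.ne
  have h2 : ∀ i, ∃ (d : ℕ) (G : Fm X.N k), G.IsHomogeneous d ∧ (aeval C.g (l i) ≠ 0 →
      aeval C.g lf / aeval C.g (l i) ^ e * ψ = aeval C.g G / aeval C.g (l i) ^ d) := fun i => by
    by_cases h : aeval C.g (l i) = 0
    · exact ⟨0, 0, isHomogeneous_zero _ _ _, fun h' => (h' h).elim⟩
    obtain ⟨d, G, hG, h2⟩ := (mem_aff (X := C.var) (hl i) h).1 (hψ i h)
    exact ⟨d, G, hG, fun _ => by simpa [Var.fn] using h2⟩
  choose d G hG h2 using h2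
  obtain ⟨i₀, hi₀⟩ := hB C.F C.g hC
  obtain ⟨c, y, hy, hc⟩ := fin_split hv (fun i => aeval X.g (l i) ^ e * X.fn (l i) (d i) (G i))
    (fun J => by
      generalize hi : J 0 = i
      generalize hj : J 1 = j
      have h3 := hk i _ (l i * l j * (l j ^ e * G j * l i ^ d i - l j ^ d j * G i * l i ^ e))
        (((hl i).mul (hl j)).mul (IsHomogeneous.sub (n := e + d j + d i)
          (by simpa using (((hl j).pow e).mul (hG j)).mul ((hl i).pow (d i)))
          (by simpa [add_comm, add_left_comm] using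
            (((hl j).pow (d j)).mul (hG i)).mul ((hl i).pow e)))) (by
          by_cases h4 : aeval C.g (l i) = 0
          · simp [h4]
          by_cases h5 : aeval C.g (l j) = 0
          · simp [h5]
          have h6 := h2 i h4
          have h7 := h2 j h5
          simp only [map_mul, map_sub, map_pow]
          field_simp at h6 h7
          linear_combination (aeval C.g (l i) * aeval C.g (l j)) *
            (aeval C.g (l j) ^ d j * h6 - aeval C.g (l i) ^ d i * h7))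
      obtain ⟨N, h4⟩ := tw_unit hI (s := Set.range J) (j := j) ⟨1, hj⟩ (e := (d j + 1 : ℕ))
        (w := aeval X.g (l i) ^ (-e : ℤ) • (aeval X.g (l j) ^ e * X.fn (l j) (d j) (G j) -
          aeval X.g (l i) ^ e * X.fn (l i) (d i) (G i))) (by
          refine Eq.subst (motive := (· ∈ I i)) ?_ h3
          have := hz i
          have := hz j
          simp only [Var.fn, map_mul, map_sub, map_pow, zpow_neg, zpow_natCast, smul_eq_mul,
            div_pow, pow_add]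
          field_simp)
      exact (hI.mem_tw (s := Set.range J) ⟨0, hi⟩).2 ⟨N, by rwa [mul_smul]⟩) i₀
  have h3 : ∀ i, aeval X.g (l i) ^ (-e : ℤ) • y i ∈ I i := fun i => hI.mem_tw_one.1 (hy i)
  have h4 : ∀ i, c / aeval X.g (l i) ^ e =
      X.fn (l i) (d i) (G i) - aeval X.g (l i) ^ (-e : ℤ) • y i := fun i => by
    have := hz i
    rw [eq_sub_of_add_eq (hc i).symm, zpow_neg, zpow_natCast, smul_eq_mul]
    field_simp
  refine ⟨c / aeval X.g lf, fun i _ => ?_, ?_⟩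
  · rw [pow_one, Var.fn, div_mul_div_comm, mul_comm (_ ^ e), mul_div_mul_left _ _ h1, h4]
    exact sub_mem (fn_mem _ (hG i)) (hk' i _ (h3 i)).1
  have h5 := hr.val e (l i₀ ^ e) lf (by simpa using (hl i₀).pow e) hf h0
  have h6 := hr.fn (hl i₀) hi₀ (hG i₀)
  obtain ⟨h7, h8⟩ := hk' i₀ _ (h3 i₀)
  obtain ⟨n, H, hH, h9⟩ := (mem_aff (hl i₀) (hz i₀)).1 h7
  have h10 : c / aeval X.g lf = aeval X.g (l i₀ ^ e) / aeval X.g lf * (c / aeval X.g (l i₀) ^ e) := by
    have := hz i₀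
    rw [map_pow]
    field_simp
  rw [h10, h4, hr.mul _ h5.1 _ (sub_mem h6.1 (h9 ▸ (hr.fn (hl i₀) hi₀ hH).1)), map_sub, h8 hi₀,
    h5.2, h6.2, ← h2 i₀ hi₀, map_pow, sub_zero]
  field_simp

theorem sec_main {p n : ℕ} [Fact p.Prime] [CharP k p] [Infinite k] {t : k} (hk : Bs p t)
    (hX : X.Nice n) (hf : lf.IsHomogeneous e) (h0 : aeval X.g lf ≠ 0) :
    ∃ (l : Fin (n + 1) → Fm X.N k) (d₁ : ℕ), (∀ i, (l i).IsHomogeneous 1) ∧ X.B1 l ∧
      (X.Gam l e lf 1).FG ∧ ∀ (ι : Type) [Fintype ι], Fintype.card ι + 1 = n →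
      ∀ (d : ℕ) (f : ι → Fm X.N k), d₁ ≤ d → (∀ j, (f j).IsHomogeneous d) → X.SmAll f →
      ∀ C : Gen k X.N, X.Cut C f → aeval C.g lf ≠ 0 →
      ∀ (R : Subring X.F) (r : X.F →ₗ[k] C.F), X.Rs C.g R r →
        (∀ φ ∈ X.Gam l e lf p, r φ = 0 → φ = 0) ∧
          ∀ ψ ∈ C.var.Gam l e lf 1, ∃ φ ∈ X.Gam l e lf 1, r φ = ψ := by
  have : CharP X.F p := charP_of_injective_algebraMap (algebraMap k X.F).injective p
  obtain ⟨l, hl, hz, hB, hP⟩ := exists_prj hX
  have hC := geo_cov hk hX hl hz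
  obtain ⟨m₀, h₀⟩ := esz_prj_o hk.fb hC hP
  refine ⟨l, (m₀ + p * e).toNat, hl, hB, gam_fg hz h0 (fin_prj_o hk.fb hC hP) e 1,
    fun ι _ hι d f hd hf' hs C hc h1 R r hr => ?_⟩
  have H : Bun _ _ (oS fun i => X.aff (l i)) :=
    ⟨hC.ne, hC.mem, fun i _ ha _ hw => (X.aff (l i)).mul_mem ha hw, hC.cmp⟩
  have hI := bun_IS H (fun j => aeval X.g (f j)) d Set.univ
  have hg := (hc C.F C.g).1 (on_g C.var)
  have h2 := fun i m G (hG : IsHomogeneous G m) => sec_ker hk hX (hl i) (hz i) hf' hs hc hG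
  have hv := fun q (hq : q ≤ 1) m hm => Finset.coe_univ (α := ι) ▸ res_van H
    (f := fun j => aeval X.g (f j)) (d := d) (fun i j => fn_mem (l i) (hf' j))
    (fun i T j hj y => idS_reg (geo_sm hk hX (hl i) (hz i)) (fun j => fn_mem (l i) (hf' j))
      (geo_lpb hk hX (hl i) (hz i) hf' hs) hj) h₀ Finset.univ q
    (by rw [Finset.card_univ]; omega) m hm
  have h3 : e ≤ p * e := Nat.le_mul_of_pos_left e (Fact.out : p.Prime).pos
  refine ⟨fun φ => sec_inj hl hf hg.1 hr h1 hI h2 (hv 0 zero_le_one _ (by omega)), fun ψ =>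
    sec_surj hl hB hf hg.1 hr h1 hI h2 (fun i a ha => ⟨idS_le (fun j _ => fn_mem (l i) (hf' j)) ha,
      fun h4 => ?_⟩) (hv 1 le_rfl _ (by omega))⟩
  refine (AddSubgroup.closure_le r.toAddMonoidHom.ker).2 ?_ ha
  rintro _ ⟨b, hb, j, -, rfl⟩
  obtain ⟨m, G, hG, rfl⟩ := (mem_aff (hl i) (hz i)).1 hb
  have h5 := hr.fn (hl i) h4 (hf' j)
  exact (hr.mul _ (hr.fn (hl i) h4 hG).1 _ h5.1).trans (by rw [h5.2, hg.2, zero_div, mul_zero])

end Pool.Agent.ZFd
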