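import Pool.Agent.Lib.MP_751085_ag.ZF.N.TCrv
import Pool.Agent.Lib.MP_751085_ag.ZF.N.TSe2
import Pool.Agent.Lib.MP_751085_ag.ZF.N.TOst
import Pool.Agent.Lib.MP_751085_ag.ZF.N.TAsc

/-! The tame step. -/

namespace Pool.Agent.ZFN

open Pool.Agent.ZCy Polynomial Filter
open Pool.Agent.ZeroCyc (mp e2)
open scoped Classical TensorProduct

variable {p : ℕ} [Fact p.Prime] {k : Type} [Field k] [CharP k p]

/-- the generic step -/
theorem tame_gen (hI : IRRp) [Infinite k] {t : k} (hk : ZFd.Bs p t) {X : Var k} {n : ℕ}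
    (hX : X.Nice n) {σ : Type} [Fintype σ] (hσ : Fintype.card σ + 1 = n) {e : ℕ} {l : Fm X.N k}
    (hl : l.IsHomogeneous e) (h0 : MvPolynomial.aeval X.g l ≠ 0) {I : Type} [Fintype I]
    {Gs : I → Fm X.N k} (hG : ∀ i, (Gs i).IsHomogeneous e) :
    ∃ (m : ℕ) (h : Fin m → X.F) (d₁ : ℕ), ∀ (c : Chart k σ X.N (X.IK k)) (Φ : MP σ k), c.SM Φ →
      MvPolynomial.constantCoeff Φ ≠ 0 → MvPolynomial.constantCoeff c.Ψ ≠ 0 →
      (X.SmAll fun i => c.f (some (some i))) → d₁ ≤ c.d →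
      (∃ x : Fin (X.N + 1) → AlgebraicClosure k, X.On x ∧
        (∀ i, MvPolynomial.aeval x (c.f (some (some i))) = 0) ∧ MvPolynomial.aeval x l ≠ 0) →
      ¬lq σ k c.χ ∣ lq σ k (sb c.pp l) ∧ ∀ D : ℕ, ∃ Λ : Fin m → Fin D × Fin D → k,
        ∀ (a : I → AlgebraicClosure k) (c₀ : AlgebraicClosure k)
          (y : Fin D × Fin D → AlgebraicClosure k), mp (algebraMap k _) (lq σ k c.χ) ∣
          EQ p (mp (algebraMap k _) (lq σ k c.χ)) (mp (algebraMap k _) (lq σ k (sb c.pp l)))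
            (LC (algebraMap k _) (fun i => lq σ k (sb c.pp (Gs i))) a) (PY y) c₀ →
          ∀ β : X.F →ₗ[k] k, RL p (algebraMap k _) Λ
            (fun i => β (MvPolynomial.aeval X.g (Gs i) / MvPolynomial.aeval X.g l)) (β 1)
            (fun j => β (h j ^ p)) (fun j => β (h j)) a c₀ y = 0 := by
  obtain ⟨ll, d₁, h1, hB, hfg, H⟩ := ZFd.sec_main hk hX hl h0
  obtain ⟨m, h, hh⟩ := Submodule.fg_iff_exists_fin_generating_family.1 hfg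
  refine ⟨m, h, d₁, fun c Φ hΦ hΦ0 hΨ hs hd ⟨x, hx, hxf, hxl⟩ => ?_⟩
  obtain ⟨C, hC, hcut⟩ := fib_thm hI k X n hX σ hσ c Φ hΦ hΦ0
  have hgC : X.On C.g := ((hcut _ _).1 (ZFd.on_g C.var)).1
  have hl0 : MvPolynomial.aeval C.g l ≠ 0 := fun h' =>
    hxl (((hcut _ x).2 ⟨hx, hxf⟩).2 l ⟨⟨e, hl⟩, h'⟩)
  obtain ⟨R, r, hr⟩ := ZFd.exists_rs hgC
  obtain ⟨inj, surj⟩ := H σ hσ c.d _ hd (fun _ => c.hf _) hs C hcut hl0 R r hr
  obtain ⟨τ, θ, u, hu, e0, e1, e2'⟩ := crv_pt c hΨ hC hcut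
  have hL : e2 (algebraMap k C.F) τ θ (lq σ k (sb c.pp l)) ≠ 0 := by
    rw [e2' e l hl]
    exact mul_ne_zero (pow_ne_zero _ hu) hl0
  refine ⟨fun ⟨q, hq⟩ => hL (by rw [hq, map_mul, e0, zero_mul]), fun D => ?_⟩
  have hp : 1 ≤ p := (Fact.out : p.Prime).one_le
  have hm : ∀ j, h j ∈ X.Gam ll e l 1 := fun j => hh ▸ Submodule.subset_span ⟨j, rfl⟩
  obtain ⟨Λ, hΛ⟩ := sys_rel (K := AlgebraicClosure k) (p := p) r h
    (fun i => MvPolynomial.aeval X.g (Gs i) / MvPolynomial.aeval X.g l) (X.Gam ll e l p)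
    (ZFd.gam_one hl p) (fun i => ZFd.gam_mono hl hp (ZFd.gam_div (hG i) h0))
    (fun j => ⟨ZFd.gam_mono hl hp (hm j), ZFd.gam_pow (hm j) p⟩) inj hr.one
    (fun j => hr.pow (hr.gam hgC h1 hB hl hl0 (hm j)) p)
    fun q : Fin D × Fin D => τ ^ (q.2 : ℕ) * θ ^ (q.1 : ℕ) /
      (e2 (algebraMap k C.F) τ θ (derivative (lq σ k c.χ)) *
        e2 (algebraMap k C.F) τ θ (lq σ k (sb c.pp l)))
  refine ⟨Λ, fun a c₀ y hd => ?_⟩
  have e3 := sys_as e0 e1 hL hd rfl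
  simp only [e2' e l hl, e2' e _ (hG _), mul_div_mul_left _ _ (pow_ne_zero e hu)] at e3
  simp only [e2' e l hl] at hΛ
  refine hΛ a c₀ y _ rfl (by simpa only [(hr.val e _ l (hG _) hl hl0).2] using e3) fun φ => ?_
  obtain ⟨ψ, hψ, e4⟩ := surj _ (crv_gam hk hC h1 hl hl0 hG e3 φ)
  rw [← e4, Set.range_comp' r h, ← Submodule.map_span, hh]
  exact ⟨ψ, hψ, rfl⟩

theorem tame0 (hI : IRRp) : TAME0 := by
  intro p _ k ι _ _ B X n hX hk σ _ hσ e l hl I _ Gs hG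
  by_cases h0 : MvPolynomial.aeval X.g l = 0
  · exact ⟨∅, ∅, 0, Set.finite_empty, Set.finite_empty, fun _ _ _ _ _ _ _ ⟨x, hx, _, h⟩ =>
      (h (hx.2 l ⟨⟨e, hl⟩, h0⟩)).elim⟩
  have := B.infinite
  obtain ⟨m, h, d₁, H⟩ := tame_gen hI (B.bs hk) hX hσ hl h0 hG
  obtain ⟨Bf, hBf, H'⟩ := spr_lat B
    (fun i => MvPolynomial.aeval X.g (Gs i) / MvPolynomial.aeval X.g l) h
  refine ⟨Set.range h, Bf, d₁, Set.finite_range h, hBf, fun c Φ h1 h2 h3 h4 h5 h6 => ?_⟩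
  obtain ⟨h7, h8⟩ := H c Φ h1 h2 h3 h4 h5 h6
  obtain ⟨D, hD, hD'⟩ := exists_Dg (lq σ k (sb c.pp l)) fun i => lq σ k (sb c.pp (Gs i))
  obtain ⟨Λ, hΛ⟩ := h8 (2 * D + c.δ + 1)
  have hm := (wq_lq c.toPChart).monic
  have hi : ∀ v, Function.Injective (B.v v).integer.subtype := fun _ => Subtype.val_injective
  have he : ∀ a, ∀ᶠ v in cofinite, a ∈ (B.v v).integer.subtype.range := fun a =>
    (B.fs a).mono fun _ h => ⟨⟨a, h⟩, rfl⟩
  have hirr := hI k σ X.N _ c Φ (by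
    rintro _ ⟨G, ⟨⟨m, hm⟩, -⟩, rfl⟩
    exact ⟨m, hm.map _⟩) (chfp_thm k X n hX k σ c hσ).1 h1 h2
  rw [← mp_lq'] at hirr
  filter_upwards [H' _ _ _ hm _ Λ hΛ, ost_main hi he hm hirr, ost_ne hi he (l1_D_ne c.toPChart h3),
    ost_ndvd hi he hm h7] with v a1 a2 a3 a4 κ _ _ s ρ hs hρ hr GG c' l' G' hc hl' hG' a hT
  have : CharP κ p := CharP.of_ringHom_of_ne_zero ρ p (Fact.out : p.Prime).ne_zero
  have b1 : mp (B.v v).integer.subtype (lq σ _ c'.χ) = lq σ k c.χ := by rw [mp_lq, hc.p.χ]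
  have b2 := mp_sb hc l'
  have b3 := fun i => mp_sb hc (G' i)
  simp only [hl', hG'] at b2 b3
  obtain ⟨y, c₀, hy, hc₀, hd⟩ := asc_main (p := p) hs (fun a => (hr _).1 ⟨a, rfl⟩)
    (G := lq σ _ (sb c'.pp (∑ i, MvPolynomial.C (a i) * G' i))) (D := D) (δ := c.δ)
    (hc.p.δ ▸ wq_lq c'.toPChart) (bez_lq c'.toPChart) (a2 _ b1 κ ρ)
    (a3 _ (by rw [map_l1, hc.p.D]) κ ρ) (a4 _ _ b1 b2 κ ρ)
    (Dg.of_mp (b2 ▸ hD) (hi v))
    (by rw [lq_sum]; exact Dg.lc (fun i => Dg.of_mp (b3 i ▸ hD' i) (hi v)) _ _) (by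
      have key : ∀ m t z, GPt (mp ρ (lq σ _ c'.χ)) (mp ρ (lq σ _ (sb c'.pp l')))
          ((l1 σ _ c'.D).map ρ) m t z → RPt c' l' ρ m t z := fun m t z g =>
        ⟨g.ht, g.hz, by simpa only [e2_mp, RingHom.id_comp, e2_lq] using g.on,
          by simpa only [eval_map, ev_l1] using g.off,
          by simpa only [e2_mp, RingHom.id_comp, e2_sb] using g.nl⟩
      intro m hm t z t' z' g g'
      simpa only [e2_mp, RingHom.id_comp, e2_sb] using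
        hT m hm t z t' z' (key _ _ _ g) (key _ _ _ g'))
  choose y' hy' using fun q => (hr _).2 (hy q)
  obtain ⟨c₁, rfl⟩ := (hr _).2 hc₀
  obtain rfl : y = fun q => ρ (y' q) := funext fun q => (hy' q).symm
  rw [lq_sum, mp_LC, RingHom.comp_id] at hd
  obtain ⟨u, hu, h9⟩ := a1 κ ρ hρ _ _ _ b1 b2 b3 a c₁ y' hd
  exact ⟨u, hu, c₁, bd_iff.2 c₁.2, h9⟩

end Pool.Agent.ZFN
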