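import Pool.Agent.Lib.MP_751085_ag.ZF.N.TSys
import Pool.Agent.Lib.MP_751085_ag.ZF.N.A2

/-! Spreading out polynomial implications. -/

namespace Pool.Agent.ZFN

open Pool.Agent.ZCy Polynomial Filter
open Pool.Agent.ZeroCyc (mp e2)
open scoped Classical

/-- the Nullstellensatz -/
theorem spr_nst {k W J : Type} [Field k] [Finite W] [Finite J] (f : J → MP W k) (q : MP W k)
    (h : ∀ x : W → AlgebraicClosure k, (∀ j, MvPolynomial.aeval x (f j) = 0) →
      MvPolynomial.aeval x q = 0) (Ω : Type) [Field Ω] (ψ : MP W k →+* Ω) (H : ∀ j, ψ (f j) = 0) :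
    ψ q = 0 := by
  obtain ⟨n, hn⟩ := (MvPolynomial.vanishingIdeal_zeroLocus_eq_radical (K := AlgebraicClosure k)
    (Ideal.span (Set.range f))).le fun x hx => h x fun j => hx _ (Ideal.subset_span ⟨j, rfl⟩)
  have : ψ (q ^ n) = 0 := (Ideal.span_le (I := RingHom.ker ψ)).2 (Set.forall_mem_range.2 H) hn
  exact eq_zero_of_pow_eq_zero (map_pow ψ q n ▸ this)

theorem tspr_mod {R T W : Type} [CommRing R] [CommRing T] {χ : R[X][X]} (hχ : χ.Monic)
    (E : (MP W R)[X][X]) (φ : R →+* T) (x : W → T) :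
    mp (MvPolynomial.eval₂Hom φ x) (E %ₘ mp MvPolynomial.C χ) = 0 ↔
      mp φ χ ∣ mp (MvPolynomial.eval₂Hom φ x) E := by
  have e : mp (MvPolynomial.eval₂Hom φ x) (mp MvPolynomial.C χ) = mp φ χ := by
    rw [mp_mp, MvPolynomial.eval₂Hom_comp_C]
  rw [← e]
  exact (Eq.congr_left (map_modByMonic _ (hχ.map _))).trans
    (modByMonic_eq_zero_iff_dvd ((hχ.map _).map _))

section

variable {V k W : Type} [Field k] [Finite W] {𝓕 : Filter V} {S : V → Type} [∀ v, CommRing (S v)]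
  {ι : ∀ v, S v →+* k} (hi : ∀ v, Function.Injective (ι v))
  (he : ∀ t, ∀ᶠ v in 𝓕, t ∈ (ι v).range)

include he in
theorem lf_mp2 (P : k[X][X]) : ∀ᶠ v in 𝓕, ∃ P', mp (ι v) P' = P := by
  exact lf_poly (ι := fun v => mapRingHom (ι v)) (lf_poly he) P

include hi he

/-- vanishing of finitely many coefficients -/
theorem spr_eq (E : (MP W k)[X][X]) (q : MP W k) (h : ∀ x : W → AlgebraicClosure k,
    mp (MvPolynomial.eval₂Hom (algebraMap k _) x) E = 0 →
      MvPolynomial.eval₂ (algebraMap k _) x q = 0) :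
    ∀ᶠ v in 𝓕, ∀ (E' : (MP W (S v))[X][X]) (q' : MP W (S v)),
      mp (MvPolynomial.map (ι v)) E' = E → MvPolynomial.map (ι v) q' = q →
      ∀ (Ω : Type) [Field Ω] (ψ : S v →+* Ω) (x : W → Ω),
        mp (MvPolynomial.eval₂Hom ψ x) E' = 0 → MvPolynomial.eval₂ ψ x q' = 0 := by
  filter_upwards [spr (fun v => MvPolynomial.map (σ := W) (ι v))
    (fun v => MvPolynomial.map_injective _ (hi v)) (lf_mp he)
    (fun j : Σ i : E.support, (E.coeff i).support => (E.coeff j.1).coeff j.2) q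
    (spr_nst _ q fun x hx => h x (by
      ext i j
      rw [coe_mapRingHom, coeff_map, coe_mapRingHom, coeff_map, coeff_zero, coeff_zero]
      by_cases h0 : (E.coeff i).coeff j = 0
      · rw [h0, map_zero]
      · exact hx ⟨⟨i, mem_support_iff.2 fun e => h0 (by rw [e, coeff_zero])⟩, j,
          mem_support_iff.2 h0⟩))] with v hv E' q' hE hq Ω _ ψ x h0
  have e : ∀ {T : Type} [CommRing T] (φ : MP W (S v) →+* T) (i j : ℕ),
      φ ((E'.coeff i).coeff j) = ((mp φ E').coeff i).coeff j := fun φ i j => by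
    rw [coe_mapRingHom, coeff_map, coe_mapRingHom, coeff_map]
  exact hv (fun j => (E'.coeff j.1).coeff j.2) q' (fun j => by rw [e, hE]) hq Ω
    (MvPolynomial.eval₂Hom ψ x) fun j => by rw [e, h0, coeff_zero, coeff_zero]

/-- divisibility by a monic polynomial -/
theorem spr_dvd {χ : k[X][X]} (hχ : χ.Monic) (E : (MP W k)[X][X]) (q : MP W k)
    (h : ∀ x : W → AlgebraicClosure k, mp (algebraMap k _) χ ∣
      mp (MvPolynomial.eval₂Hom (algebraMap k _) x) E →
        MvPolynomial.eval₂ (algebraMap k _) x q = 0) :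
    ∀ᶠ v in 𝓕, ∀ (χ' : (S v)[X][X]) (E' : (MP W (S v))[X][X]) (q' : MP W (S v)),
      mp (ι v) χ' = χ → mp (MvPolynomial.map (ι v)) E' = E → MvPolynomial.map (ι v) q' = q →
      ∀ (Ω : Type) [Field Ω] (ψ : S v →+* Ω) (x : W → Ω),
        mp ψ χ' ∣ mp (MvPolynomial.eval₂Hom ψ x) E' → MvPolynomial.eval₂ ψ x q' = 0 := by
  filter_upwards [spr_eq hi he (E %ₘ mp MvPolynomial.C χ) q fun x hx =>
    h x ((tspr_mod hχ E _ x).1 hx)] with v hv χ' E' q' h1 h2 h3 Ω _ ψ x h0
  have hm : χ'.Monic := monic_of_injective (map_injective _ (hi v)) (h1 ▸ hχ :)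
  refine hv (E' %ₘ mp MvPolynomial.C χ') q' ?_ h3 Ω ψ x ((tspr_mod hm E' ψ x).2 h0)
  rw [← h1, ← h2, mp_mp, ← MvPolynomial.map_comp_C, ← mp_mp]
  exact map_modByMonic _ (hm.map _)

/-- the relations spread out -/
theorem spr_RL (p : ℕ) {I J : Type} [Fintype I] [Fintype J] {χ : k[X][X]} (hχ : χ.Monic)
    (L : k[X][X]) (G : I → k[X][X]) {B : ℕ} (Λ : J → Fin B × Fin B → k) (α : I → k) (γ : k)
    (ε η : J → k) (h : ∀ (a : I → AlgebraicClosure k) (c : AlgebraicClosure k)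
      (y : Fin B × Fin B → AlgebraicClosure k), mp (algebraMap k _) χ ∣
        EQ p (mp (algebraMap k _) χ) (mp (algebraMap k _) L) (LC (algebraMap k _) G a) (PY y) c →
          RL p (algebraMap k _) Λ α γ ε η a c y = 0) :
    ∀ᶠ v in 𝓕, ∀ (χ' L' : (S v)[X][X]) (G' : I → (S v)[X][X]) (Λ' : J → Fin B × Fin B → S v)
      (α' : I → S v) (γ' : S v) (ε' η' : J → S v), mp (ι v) χ' = χ → mp (ι v) L' = L →
      (∀ i, mp (ι v) (G' i) = G i) → (∀ j q, ι v (Λ' j q) = Λ j q) → (∀ i, ι v (α' i) = α i) →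
      ι v γ' = γ → (∀ j, ι v (ε' j) = ε j) → (∀ j, ι v (η' j) = η j) →
      ∀ (Ω : Type) [Field Ω] (ψ : S v →+* Ω) (a : I → Ω) (c : Ω) (y : Fin B × Fin B → Ω),
        mp ψ χ' ∣ EQ p (mp ψ χ') (mp ψ L') (LC ψ G' a) (PY y) c →
          RL p ψ Λ' α' γ' ε' η' a c y = 0 := by
  let W := I ⊕ Unit ⊕ Fin B × Fin B
  filter_upwards [spr_dvd (W := W) hi he hχ
    (EQ p (mp MvPolynomial.C χ) (mp MvPolynomial.C L)
      (LC MvPolynomial.C G fun i => MvPolynomial.X (.inl i))
      (PY fun q => MvPolynomial.X (.inr (.inr q))) (MvPolynomial.X (.inr (.inl ()))))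
    (RL p MvPolynomial.C Λ α γ ε η (fun i => MvPolynomial.X (.inl i))
      (MvPolynomial.X (.inr (.inl ()))) fun q => MvPolynomial.X (.inr (.inr q))) fun x hx => by
      simp only [mp_EQ, mp_mp, mp_LC, mp_PY, MvPolynomial.eval₂Hom_comp_C] at hx
      rw [← MvPolynomial.coe_eval₂Hom, map_RL, MvPolynomial.eval₂Hom_comp_C]
      exact h _ _ _ hx] with v hv χ' L' G' Λ' α' γ' ε' η' h1 h2 h3 h4 h5 h6 h7 h8 Ω _ ψ a c y h0
  have := hv χ' (EQ p (mp MvPolynomial.C χ') (mp MvPolynomial.C L')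
      (LC MvPolynomial.C G' fun i => MvPolynomial.X (.inl i))
      (PY fun q => MvPolynomial.X (.inr (.inr q))) (MvPolynomial.X (.inr (.inl ()))))
    (RL p MvPolynomial.C Λ' α' γ' ε' η' (fun i => MvPolynomial.X (.inl i))
      (MvPolynomial.X (.inr (.inl ()))) fun q => MvPolynomial.X (.inr (.inr q))) h1
    (by
      simp only [mp_EQ, mp_mp, mp_LC, mp_PY, MvPolynomial.map_comp_C, MvPolynomial.map_X]
      simp only [LC, ← mp_mp, h1, h2, h3])
    (by
      rw [map_RL, MvPolynomial.map_comp_C]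
      simp only [RL, RingHom.comp_apply, MvPolynomial.map_X, h4, h5, h6, h7, h8])
    Ω ψ (Sum.elim a (Sum.elim (fun _ => c) y)) (by
      simpa only [mp_EQ, mp_mp, mp_LC, mp_PY, MvPolynomial.eval₂Hom_comp_C,
        MvPolynomial.eval₂Hom_X', Sum.elim_inl, Sum.elim_inr] using h0)
  rw [← MvPolynomial.coe_eval₂Hom, map_RL, MvPolynomial.eval₂Hom_comp_C] at this
  simpa only [MvPolynomial.eval₂Hom_X', Sum.elim_inl, Sum.elim_inr] using this

end

theorem tspr_basis {k F : Type} [Field k] [AddCommGroup F] [Module k F] {S : Set F}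
    (hS : S.Finite) : ∃ (n : ℕ) (e : Fin n → F) (β : Fin n → F →ₗ[k] k),
      ∀ x ∈ Submodule.span k S, x = ∑ s, β s x • e s := by
  have := FiniteDimensional.span_of_finite k hS
  let bU := Module.finBasis k (Submodule.span k S)
  choose β hβ using fun s => (bU.coord s).exists_extend
  refine ⟨_, fun s => bU s, β, fun x hx => ?_⟩
  have h1 := congrArg (Submodule.span k S).subtype (bU.sum_repr ⟨x, hx⟩).symm
  rw [map_sum] at h1
  exact h1.trans (Finset.sum_congr rfl fun s _ => by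
    rw [map_smul]; exact congrArg (· • _) (LinearMap.congr_fun (hβ s) ⟨x, hx⟩).symm)

theorem tspr_pow {p : ℕ} [Fact p.Prime] {k F J : Type} [Field k] [CharP k p] [Field F]
    [Algebra k F] [Fintype J] (μ : J → k) (h : J → F) :
    (∑ j, μ j • h j) ^ p = ∑ j, μ j ^ p • h j ^ p := by
  have := charP_of_injective_algebraMap (algebraMap k F).injective p
  rw [sum_pow_char]
  exact Finset.sum_congr rfl fun j _ => smul_pow _ _ _

theorem tspr_coord {p : ℕ} [Fact p.Prime] {k F I J Q : Type} [Field k] [CharP k p] [Field F]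
    [Algebra k F] [Fintype I] [Fintype J] [Fintype Q] (b : I → F) (h : J → F) (Λ : J → Q → k)
    (a : I → k) (c : k) (y : Q → k) (β : F →ₗ[k] k) :
    β (∑ i, a i • b i - ((∑ j, (∑ q, y q * Λ j q) • h j) ^ p - ∑ j, (∑ q, y q * Λ j q) • h j +
      algebraMap k F c)) = RL p (RingHom.id k) Λ (fun i => β (b i)) (β 1) (fun j => β (h j ^ p))
        (fun j => β (h j)) a c y := by
  rw [tspr_pow, Algebra.algebraMap_eq_smul_one]
  simp only [RL, map_sub, map_add, map_sum, map_smul, smul_eq_mul, RingHom.id_apply]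
  ring

theorem spr_lat {p : ℕ} [Fact p.Prime] {k ι F I J : Type} [Field k] [CharP k p] [Field F]
    [Algebra k F] [Fintype I] [Fintype J] (B : Pls p k ι) (b : I → F) (h : J → F) :
    ∃ Bf : Set F, Bf.Finite ∧ ∀ (χ L : k[X][X]) (G : I → k[X][X]), χ.Monic →
      ∀ (D : ℕ) (Λ : J → Fin D × Fin D → k), (∀ (a : I → AlgebraicClosure k)
        (c : AlgebraicClosure k) (y : Fin D × Fin D → AlgebraicClosure k), mp (algebraMap k _) χ ∣
        EQ p (mp (algebraMap k _) χ) (mp (algebraMap k _) L) (LC (algebraMap k _) G a) (PY y) c →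
        ∀ β : F →ₗ[k] k, RL p (algebraMap k _) Λ (fun i => β (b i)) (β 1) (fun j => β (h j ^ p))
          (fun j => β (h j)) a c y = 0) →
      ∀ᶠ v in cofinite, ∀ (κ : Type) [Field κ] (ρ : (B.v v).integer →+* κ), IsRed (B.v v) ρ →
        ∀ (χ' L' : (B.v v).integer[X][X]) (G' : I → (B.v v).integer[X][X]),
        mp (B.v v).integer.subtype χ' = χ → mp (B.v v).integer.subtype L' = L →
        (∀ i, mp (B.v v).integer.subtype (G' i) = G i) →
        ∀ (a : I → (B.v v).integer) (c : (B.v v).integer) (y : Fin D × Fin D → (B.v v).integer),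
        mp ρ χ' ∣ EQ p (mp ρ χ') (mp ρ L') (LC ρ G' fun i => ρ (a i)) (PY fun q => ρ (y q)) (ρ c) →
        ∃ u ∈ B.lat v 0 (Set.range h), ∑ i, (a i : k) • b i - (u ^ p - u + algebraMap k F c) ∈
          B.lat v (-1) Bf := by
  obtain ⟨n, e, β, hβ⟩ := tspr_basis (k := k) (S := Set.range b ∪ {1} ∪ Set.range h ∪
    Set.range fun j => h j ^ p) ((((Set.finite_range _).union (Set.finite_singleton _)).union
      (Set.finite_range _)).union (Set.finite_range _))
  refine ⟨_, Set.finite_range e, fun χ L G hχ D Λ H => ?_⟩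
  have he : ∀ t, ∀ᶠ v in cofinite, t ∈ (B.v v).integer.subtype.range := fun t =>
    (B.fs t).mono fun v hv => ⟨⟨t, hv⟩, rfl⟩
  filter_upwards [eventually_all.2 fun s => spr_RL (ι := fun v => (B.v v).integer.subtype)
      (fun _ => Subtype.val_injective) he p hχ L G Λ _ _ _ _ fun a c y hd => H a c y hd (β s),
    eventually_all.2 fun j => eventually_all.2 fun q => he (Λ j q),
    eventually_all.2 fun s => eventually_all.2 fun i => he (β s (b i)),
    eventually_all.2 fun s => he (β s 1),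
    eventually_all.2 fun s => eventually_all.2 fun j => he (β s (h j ^ p)),
    eventually_all.2 fun s => eventually_all.2 fun j => he (β s (h j))]
    with v hv h1 h2 h3 h4 h5 κ _ ρ hρ χ' L' G' e1 e2 e3 a c y hd
  choose Λ' h1 using h1
  choose α' h2 using h2
  choose γ' h3 using h3
  choose ε' h4 using h4
  choose η' h5 using h5
  refine ⟨∑ j, (∑ q, (y q : k) * Λ j q) • h j, mem_lat_range.2 ⟨_, fun j => bd_iff.2 ?_, rfl⟩,
    mem_lat_range.2 ⟨_, fun s => (bd_neg_one (B.unif v)).2 ?_, hβ _ ?_⟩⟩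
  · exact sum_mem (S := (B.v v).integer) fun q _ => mul_mem (y q).2 (h1 j q ▸ (Λ' j q).2)
  · have h6 := (hρ _).1 ((map_RL p ρ (RingHom.id _) Λ' (α' s) (γ' s) (ε' s) (η' s) a c y).trans
      (hv s χ' L' G' Λ' _ _ _ _ e1 e2 e3 h1 (h2 s) (h3 s) (h4 s) (h5 s) κ ρ _ _ _ hd))
    rw [tspr_coord]
    refine lt_of_eq_of_lt (congrArg (B.v v) ?_) h6
    refine Eq.trans ?_ (map_RL p (B.v v).integer.subtype (RingHom.id _) Λ' _ _ _ _ a c y).symm
    simp only [RL, RingHom.comp_id, RingHom.id_apply, h1, h2, h3, h4, h5]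
    rfl
  · rw [tspr_pow, Algebra.algebraMap_eq_smul_one]
    refine sub_mem (sum_mem fun i _ => ?_) (add_mem (sub_mem (sum_mem fun j _ => ?_)
      (sum_mem fun j _ => ?_)) ?_) <;> refine Submodule.smul_mem _ _ (Submodule.subset_span ?_)
    exacts [.inl (.inl (.inl ⟨i, rfl⟩)), .inr ⟨j, rfl⟩, .inl (.inr ⟨j, rfl⟩), .inl (.inl (.inr rfl))]

end Pool.Agent.ZFN
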