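import Pool.Agent.Lib.MP_751085_ag.ZF.N.TGn

/-! From the polynomial system to a relation between functions. -/

namespace Pool.Agent.ZFN

open Polynomial
open Pool.Agent.ZeroCyc (mp e2)
open scoped Classical TensorProduct

section

variable {R S T : Type} [CommRing R] [CommRing S] [CommRing T]

theorem e2_mp (ψ : S →+* T) (φ : R →+* S) (t z : T) (P : R[X][X]) :
    e2 ψ t z (mp φ P) = e2 (ψ.comp φ) t z P := by
  refine RingHom.congr_fun (f := (e2 ψ t z).comp (mp φ))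
    (ringHom_ext' (ringHom_ext (fun a => ?_) ?_) ?_) P <;> simp [e2]

theorem map_e2 (ψ : S →+* T) (φ : R →+* S) (t z : S) (P : R[X][X]) :
    ψ (e2 φ t z P) = e2 (ψ.comp φ) (ψ t) (ψ z) P := by
  refine RingHom.congr_fun (f := ψ.comp (e2 φ t z))
    (ringHom_ext' (ringHom_ext (fun a => ?_) ?_) ?_) P <;> simp [e2]

theorem mp_mp (ψ : S →+* T) (φ : R →+* S) (P : R[X][X]) : mp ψ (mp φ P) = mp (ψ.comp φ) P := by
  rw [coe_mapRingHom, coe_mapRingHom, coe_mapRingHom, Polynomial.map_map, mapRingHom_comp]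

theorem mp_inj {φ : R →+* S} (h : Function.Injective φ) : Function.Injective (mp φ) :=
  map_injective _ (map_injective _ h)

theorem mp_PY (φ : R →+* S) {B : ℕ} (y : Fin B × Fin B → R) :
    mp φ (PY y) = PY fun q => φ (y q) := by
  simp only [PY, map_sum, coe_mapRingHom, Polynomial.map_monomial]

theorem e2_PY (φ : R →+* S) (t z : S) {B : ℕ} (y : Fin B × Fin B → R) :
    e2 φ t z (PY y) = ∑ q, φ (y q) * (t ^ (q.2 : ℕ) * z ^ (q.1 : ℕ)) := by
  simp only [PY, map_sum, e2, coe_eval₂RingHom, eval₂_monomial, mul_assoc]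

theorem exists_PY {B : ℕ} {Y : R[X][X]} (h : Dg B Y) :
    Y = PY fun q : Fin (B + 1) × Fin (B + 1) => (Y.coeff q.1).coeff q.2 := by
  rw [PY, Fintype.sum_prod_type]
  refine (Y.as_sum_range' _ (Nat.lt_succ_of_le h.1)).trans ((Finset.sum_range _).trans
    (Finset.sum_congr rfl fun i _ => ?_))
  dsimp only
  rw [← map_sum, ← Finset.sum_range fun j => monomial j ((Y.coeff i).coeff j),
    ← as_sum_range' _ _ (Nat.lt_succ_of_le (h.2 i))]

theorem tsys_CC (φ : R →+* S) (c : R) : mp φ (C (C c)) = C (C (φ c)) := by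
  rw [coe_mapRingHom, map_C, coe_mapRingHom, map_C]

theorem tsys_der (φ : R →+* S) (P : R[X][X]) : mp φ (derivative P) = derivative (mp φ P) :=
  (derivative_map _ _).symm

theorem tsys_e2 (φ : R →+* S) (t z : S) (c : R) : e2 φ t z (C (C c)) = φ c := by simp [e2]

theorem mp_EQ (φ : R →+* S) (p : ℕ) (χ L G Y : R[X][X]) (c : R) :
    mp φ (EQ p χ L G Y c) = EQ p (mp φ χ) (mp φ L) (mp φ G) (mp φ Y) (φ c) := by
  simp only [EQ, map_sub, map_mul, map_pow, tsys_der, tsys_CC]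

theorem e2_EQ (φ : R →+* S) (t z : S) (p : ℕ) (χ L G Y : R[X][X]) (c : R) :
    e2 φ t z (EQ p χ L G Y c) = e2 φ t z Y ^ p -
      (e2 φ t z (derivative χ) * e2 φ t z L) ^ (p - 1) * e2 φ t z Y -
        e2 φ t z (derivative χ) ^ p * e2 φ t z L ^ (p - 1) * (e2 φ t z G - φ c * e2 φ t z L) := by
  simp only [EQ, map_sub, map_mul, map_pow, tsys_e2]

variable {I J Q : Type} [Fintype I] [Fintype J] [Fintype Q]

theorem mp_LC (ψ : S →+* T) (φ : R →+* S) (G : I → R[X][X]) (a : I → S) :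
    mp ψ (LC φ G a) = LC (ψ.comp φ) G fun i => ψ (a i) := by
  simp only [LC, map_sum, map_mul, tsys_CC, mp_mp]

theorem map_RL (p : ℕ) (ψ : S →+* T) (φ : R →+* S) (Λ : J → Q → R) (α : I → R) (γ : R)
    (ε η : J → R) (a : I → S) (c : S) (y : Q → S) : ψ (RL p φ Λ α γ ε η a c y) =
      RL p (ψ.comp φ) Λ α γ ε η (fun i => ψ (a i)) (ψ c) fun q => ψ (y q) := by
  simp only [RL, map_add, map_sub, map_sum, map_mul, map_pow, RingHom.comp_apply]

theorem Dg.map {D : ℕ} {P : R[X][X]} (h : Dg D P) (φ : R →+* S) : Dg D (mp φ P) :=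
  ⟨natDegree_map_le.trans h.1, fun i => by
    rw [coe_mapRingHom, coeff_map]
    exact natDegree_map_le.trans (h.2 i)⟩

theorem Dg.of_mp {D : ℕ} {P : R[X][X]} {φ : R →+* S} (h : Dg D (mp φ P))
    (hφ : Function.Injective φ) : Dg D P :=
  ⟨(natDegree_map_eq_of_injective (map_injective φ hφ) P).ge.trans h.1, fun i => by
    have h1 := h.2 i
    rwa [coe_mapRingHom, coeff_map, coe_mapRingHom, natDegree_map_eq_of_injective hφ] at h1⟩

theorem Dg.lc {D : ℕ} {G : I → R[X][X]} (h : ∀ i, Dg D (G i)) (φ : R →+* S) (a : I → S) :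
    Dg D (LC φ G a) := by
  refine ⟨natDegree_sum_le_of_forall_le _ _ fun i _ =>
    (natDegree_C_mul_le _ _).trans ((h i).map φ).1, fun j => ?_⟩
  rw [LC, finsetSum_coeff]
  refine natDegree_sum_le_of_forall_le _ _ fun i _ => ?_
  rw [coeff_C_mul]
  exact (natDegree_C_mul_le _ _).trans (((h i).map φ).2 j)

theorem exists_Dg (L : R[X][X]) (G : I → R[X][X]) : ∃ D, Dg D L ∧ ∀ i, Dg D (G i) := by
  have h : ∀ P : R[X][X], ∃ D, ∀ D', D ≤ D' → Dg D' P := fun P =>
    ⟨max P.natDegree (P.support.sup fun i => (P.coeff i).natDegree), fun D' hD =>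
      ⟨(le_max_left _ _).trans hD, fun i => by
        by_cases hi : i ∈ P.support
        · exact ((Finset.le_sup (f := fun i => (P.coeff i).natDegree) hi).trans
            (le_max_right _ _)).trans hD
        · rw [notMem_support_iff.1 hi, natDegree_zero]
          exact Nat.zero_le _⟩⟩
  choose d hd using h
  exact ⟨max (d L) (Finset.univ.sup fun i => d (G i)), hd _ _ (le_max_left _ _), fun i => hd _ _
    ((Finset.le_sup (f := fun i => d (G i)) (Finset.mem_univ i)).trans (le_max_right _ _))⟩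

theorem Wq.map [Nontrivial S] {δ : ℕ} {χ : R[X][X]} (h : Wq δ χ) (φ : R →+* S) : Wq δ (mp φ χ) :=
  ⟨h.monic.map _, (h.monic.natDegree_map _).trans h.deg, fun i => by
    rw [coe_mapRingHom, coeff_map]
    exact natDegree_map_le.trans (h.wt i)⟩

end

variable {k K F F' I J Q : Type} [Field k] [Field K] [Field F] [Field F'] [Algebra k K]
  [Algebra k F] [Algebra k F'] [Fintype I] [Fintype J] [Fintype Q] {p : ℕ} [Fact p.Prime]

/-- evaluate at `(1 ⊗ τ, 1 ⊗ θ)` and divide by `(χ' L) ^ p` -/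
theorem sys_as {χ L : k[X][X]} {G : I → k[X][X]} {τ θ : F'} (h0 : e2 (algebraMap k F') τ θ χ = 0)
    (h1 : e2 (algebraMap k F') τ θ (derivative χ) ≠ 0) (h2 : e2 (algebraMap k F') τ θ L ≠ 0)
    {B : ℕ} {a : I → K} {c : K} {y : Fin B × Fin B → K}
    (h : mp (algebraMap k K) χ ∣ EQ p (mp (algebraMap k K) χ) (mp (algebraMap k K) L)
      (LC (algebraMap k K) G a) (PY y) c) {H : K ⊗[k] F'}
    (hH : H = ∑ q : Fin B × Fin B, y q ⊗ₜ[k] (τ ^ (q.2 : ℕ) * θ ^ (q.1 : ℕ) /
      (e2 (algebraMap k F') τ θ (derivative χ) * e2 (algebraMap k F') τ θ L))) :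
    H ^ p - H = ∑ i, a i ⊗ₜ[k] (e2 (algebraMap k F') τ θ (G i) / e2 (algebraMap k F') τ θ L) -
      c ⊗ₜ[k] (1 : F') := by
  let i : K →+* K ⊗[k] F' := Algebra.TensorProduct.includeLeftRingHom
  let j : F' →+* K ⊗[k] F' := (Algebra.TensorProduct.includeRight : F' →ₐ[k] K ⊗[k] F')
  have e : ∀ P, e2 i (j τ) (j θ) (mp (algebraMap k K) P) = j (e2 (algebraMap k F') τ θ P) :=
    fun P => by
      rw [e2_mp, map_e2, Algebra.TensorProduct.includeLeftRingHom_comp_algebraMap]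
      rfl
  have t : ∀ a x, a ⊗ₜ[k] x = i a * j x := fun a x => by simp [i, j]
  have h3 := map_dvd (e2 i (j τ) (j θ)) h
  rw [e, h0, map_zero, zero_dvd_iff, e2_EQ, coe_mapRingHom, derivative_map, ← coe_mapRingHom,
    e, e] at h3
  set d := e2 (algebraMap k F') τ θ (derivative χ)
  set l := e2 (algebraMap k F') τ θ L
  have h4 : e2 i (j τ) (j θ) (PY y) = H * (j d * j l) := by
    rw [hH, e2_PY, Finset.sum_mul]
    refine Finset.sum_congr rfl fun q _ => ?_
    rw [t, ← map_mul j, mul_assoc, ← map_mul j, div_mul_cancel₀ _ (mul_ne_zero h1 h2)]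
    simp only [map_mul, map_pow]
  have h5 : e2 i (j τ) (j θ) (LC (algebraMap k K) G a) =
      (∑ i, a i ⊗ₜ[k] (e2 (algebraMap k F') τ θ (G i) / l)) * j l := by
    rw [LC, map_sum, Finset.sum_mul]
    refine Finset.sum_congr rfl fun q _ => ?_
    rw [t, map_mul, e, mul_assoc, ← map_mul j, div_mul_cancel₀ _ h2]
    simp [e2]
  obtain ⟨n, rfl⟩ := Nat.exists_eq_add_one_of_ne_zero (Fact.out : p.Prime).ne_zero
  rw [← sub_eq_zero, ← (((mul_ne_zero h1 h2).isUnit.map j).pow (n + 1)).mul_left_eq_zero,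
    ← h3, h4, h5, t c, map_one, map_mul, Nat.add_sub_cancel]
  generalize ∑ i, a i ⊗ₜ[k] (e2 (algebraMap k F') τ θ (G i) / l) = W
  ring

/-- the relation in coordinates -/
theorem sys_rel [CharP k p] (r : F →ₗ[k] F') (h : J → F) (b : I → F) (V : Submodule k F)
    (h1 : (1 : F) ∈ V) (hb : ∀ i, b i ∈ V) (hh : ∀ j, h j ∈ V ∧ h j ^ p ∈ V)
    (inj : ∀ x ∈ V, r x = 0 → x = 0) (r1 : r 1 = 1) (rp : ∀ j, r (h j ^ p) = r (h j) ^ p)
    (w : Q → F') : ∃ Λ : J → Q → k, ∀ (a : I → K) (c : K) (y : Q → K) (H : K ⊗[k] F'),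
      H = ∑ q, y q ⊗ₜ[k] w q → H ^ p - H = ∑ i, a i ⊗ₜ[k] r (b i) - c ⊗ₜ[k] (1 : F') →
      (∀ φ, tev φ H ∈ Submodule.span k (Set.range fun j => r (h j))) → ∀ β : F →ₗ[k] k,
        RL p (algebraMap k K) Λ (fun i => β (b i)) (β 1) (fun j => β (h j ^ p))
          (fun j => β (h j)) a c y = 0 := by
  obtain ⟨g, hg⟩ := (Fintype.linearCombination k fun j => r (h j)).rangeRestrict
    |>.exists_rightInverse_of_surjective (LinearMap.range_rangeRestrict _)
  obtain ⟨s, rfl⟩ := g.exists_extend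
  refine ⟨fun j q => s (w q) j, fun a c y H hH e hs β => ?_⟩
  have := tev_char (k := k) (K := K) (F := F') p
  have m : ∀ (φ : K →ₗ[k] k) x u, φ (x * algebraMap k K u) = φ x * u := fun φ x u => by
    rw [mul_comm, ← Algebra.smul_def, map_smul, smul_eq_mul, mul_comm]
  have h2 : H = ∑ j, (∑ q, y q * algebraMap k K (s (w q) j)) ⊗ₜ[k] r (h j) := tev_ext fun φ => by
    have h3 := congrArg Subtype.val (DFunLike.congr_fun hg
      ⟨tev φ H, (Fintype.range_linearCombination k _).ge (hs φ)⟩)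
    refine h3.symm.trans ?_
    simp [hH, tev_tmul, m, Fintype.linearCombination_apply, Finset.smul_sum, Finset.sum_smul,
      mul_smul, Finset.sum_comm (s := (Finset.univ : Finset Q))]
  rw [RL, ← Module.forall_dual_apply_eq_zero_iff k]
  obtain ⟨μ, hμ⟩ : ∃ μ : J → K, ∀ j, ∑ q, y q * algebraMap k K (s (w q) j) = μ j :=
    ⟨_, fun _ => rfl⟩
  simp only [hμ] at h2 ⊢
  intro φ
  have h4 := congrArg (tev φ) e
  simp only [h2, sum_pow_char, Algebra.TensorProduct.tmul_pow, map_sub, map_sum, tev_tmul,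
    ← rp] at h4
  have h5 := inj (∑ i, φ (a i) • b i - φ c • 1 - ∑ j, φ (μ j ^ p) • h j ^ p + ∑ j, φ (μ j) • h j)
    (add_mem (sub_mem (sub_mem (sum_mem fun i _ => V.smul_mem _ (hb i)) (V.smul_mem _ h1))
      (sum_mem fun j _ => V.smul_mem _ (hh j).2)) (sum_mem fun j _ => V.smul_mem _ (hh j).1)) (by
      simp only [map_add, map_sub, map_sum, map_smul, r1, ← h4]
      ring)
  simpa only [map_add, map_sub, map_sum, map_smul, m, smul_eq_mul, map_zero] using congrArg β h5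

end Pool.Agent.ZFN
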